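import Mathlib

/-!
Disjoint unions, joins, `nK_m` and cographs.
-/

namespace Run7.h901

universe u v w x y z

/-- disjoint union of graphs -/
def dsum {α : Type u} {β : Type v} (A : SimpleGraph α) (B : SimpleGraph β) :
    SimpleGraph (α ⊕ β) where
  Adj p q := match p, q with
    | Sum.inl a, Sum.inl b => A.Adj a b
    | Sum.inr a, Sum.inr b => B.Adj a b
    | Sum.inl _, Sum.inr _ => False
    | Sum.inr _, Sum.inl _ => False
  symm := ⟨fun p q h => by
    rcases p with a | a <;> rcases q with b | b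
    · exact h.symm
    · exact h
    · exact h
    · exact h.symm⟩
  loopless := ⟨fun p => by
    rcases p with a | a
    · exact A.irrefl
    · exact B.irrefl⟩

/-- join of graphs -/
def jn {α : Type u} {β : Type v} (A : SimpleGraph α) (B : SimpleGraph β) :
    SimpleGraph (α ⊕ β) := (dsum Aᶜ Bᶜ)ᶜ

section
variable {α : Type u} {β : Type v} {A : SimpleGraph α} {B : SimpleGraph β}

@[simp] theorem dsum_ll {a b : α} : (dsum A B).Adj (Sum.inl a) (Sum.inl b) ↔ A.Adj a b := Iff.rfl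
@[simp] theorem dsum_rr {a b : β} : (dsum A B).Adj (Sum.inr a) (Sum.inr b) ↔ B.Adj a b := Iff.rfl
@[simp] theorem dsum_lr {a : α} {b : β} : ¬ (dsum A B).Adj (Sum.inl a) (Sum.inr b) := id
@[simp] theorem dsum_rl {a : α} {b : β} : ¬ (dsum A B).Adj (Sum.inr b) (Sum.inl a) := id

@[simp] theorem jn_ll {a b : α} : (jn A B).Adj (Sum.inl a) (Sum.inl b) ↔ A.Adj a b := by
  by_cases h : a = b
  · subst h; simp
  · simp [jn, SimpleGraph.compl_adj, h]
@[simp] theorem jn_rr {a b : β} : (jn A B).Adj (Sum.inr a) (Sum.inr b) ↔ B.Adj a b := by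
  by_cases h : a = b
  · subst h; simp
  · simp [jn, SimpleGraph.compl_adj, h]
@[simp] theorem jn_lr {a : α} {b : β} : (jn A B).Adj (Sum.inl a) (Sum.inr b) := by
  simp [jn, SimpleGraph.compl_adj]
@[simp] theorem jn_rl {a : α} {b : β} : (jn A B).Adj (Sum.inr b) (Sum.inl a) := by
  simp [jn, SimpleGraph.compl_adj]

theorem compl_jn : (jn A B)ᶜ = dsum Aᶜ Bᶜ := by rw [jn, compl_compl]
theorem compl_dsum : (dsum A B)ᶜ = jn Aᶜ Bᶜ := by rw [jn, compl_compl, compl_compl]

end

/-- `n` disjoint copies of `K_m` -/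
def KK (n m : ℕ) : SimpleGraph (Fin n × Fin m) where
  Adj p q := p ≠ q ∧ p.1 = q.1
  symm := ⟨fun _ _ h => ⟨h.1.symm, h.2.symm⟩⟩
  loopless := ⟨fun _ h => h.1 rfl⟩

@[simp] theorem KK_adj {n m : ℕ} {p q : Fin n × Fin m} : (KK n m).Adj p q ↔ p ≠ q ∧ p.1 = q.1 :=
  Iff.rfl

/-- cographs -/
inductive Cog : ∀ (α : Type), SimpleGraph α → Prop
  | one : Cog Unit ⊥
  | sum {α β : Type} {A : SimpleGraph α} {B : SimpleGraph β} (hA : Cog α A) (hB : Cog β B) :
      Cog (α ⊕ β) (dsum A B)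
  | compl {α : Type} {A : SimpleGraph α} (hA : Cog α A) : Cog α Aᶜ

end Run7.h901
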