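import Pool.Agent.Run7.h901.Basics

/-!
Universal set-homogeneous graphs are homogeneous and have the Rado extension property.
-/

open scoped Classical

namespace Run7.h901

universe u v
variable {V : Type u} {G : SimpleGraph V}

/-- every finite graph embeds -/
def Universal (G : SimpleGraph V) : Prop :=
  ∀ (W : Type) [Finite W] (A : SimpleGraph W), Nonempty (A ↪g G)

/-- the graph `A` with leaves attached -/
def leafG {n : ℕ} (A : SimpleGraph (Fin n)) {κ : Type} (r : κ → Fin n) :
    SimpleGraph (Fin n ⊕ κ) where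
  Adj p q := match p, q with
    | Sum.inl i, Sum.inl j => A.Adj i j
    | Sum.inl i, Sum.inr k => i = r k
    | Sum.inr k, Sum.inl i => i = r k
    | Sum.inr _, Sum.inr _ => False
  symm := ⟨fun p q h => by
    rcases p with a | a <;> rcases q with b | b
    · exact h.symm
    · exact h
    · exact h
    · exact h⟩
  loopless := ⟨fun p => by
    rcases p with a | a
    · exact A.irrefl
    · exact id⟩

/-- leaves -/
abbrev Lf (n : ℕ) : Type := (Σ i : Fin n, Fin ((n + 2) * (i.1 + 1)))

/-- the leaf counts make the base rigid -/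
theorem leaf_rigid {n : ℕ} (A : SimpleGraph (Fin n))
    (σ : Equiv.Perm (Fin n ⊕ Lf n))
    (hσ : ∀ x y, (leafG A (fun p : Lf n => p.1)).Adj (σ x) (σ y)
      ↔ (leafG A (fun p : Lf n => p.1)).Adj x y) (i : Fin n) :
    σ (Sum.inl i) = Sum.inl i := by
  let H := leafG A (fun p : Lf n => p.1)
  let N : Fin n ⊕ Lf n → Finset (Fin n ⊕ Lf n) := fun x => Finset.univ.filter (fun y => H.Adj x y)
  have hN : ∀ x, (N (σ x)).card = (N x).card := by
    intro x
    have : N (σ x) = (N x).image σ := by
      ext y
      simp only [N, Finset.mem_filter, Finset.mem_univ, true_and, Finset.mem_image]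
      constructor
      · intro h
        refine ⟨σ.symm y, ?_, by simp⟩
        show H.Adj _ _
        rw [← hσ, Equiv.apply_symm_apply]
        exact h
      · rintro ⟨z, hz, rfl⟩
        exact (hσ _ _).2 hz
    rw [this, Finset.card_image_of_injective _ σ.injective]
  have hlow : ∀ j : Fin n, (n + 2) * (j.1 + 1) ≤ (N (Sum.inl j)).card := by
    intro j
    have : (Finset.univ.image (fun k : Fin ((n + 2) * (j.1 + 1)) =>
        (Sum.inr ⟨j, k⟩ : Fin n ⊕ Lf n))) ⊆ N (Sum.inl j) := by
      intro y hy
      rw [Finset.mem_image] at hy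
      obtain ⟨k, -, rfl⟩ := hy
      rw [Finset.mem_filter]
      exact ⟨Finset.mem_univ _, rfl⟩
    have h2 := Finset.card_le_card this
    rw [Finset.card_image_of_injective, Finset.card_univ, Fintype.card_fin] at h2
    · exact h2
    · intro k k' hkk
      have h3 := Sum.inr_injective hkk
      rw [Sigma.mk.injEq] at h3
      exact eq_of_heq h3.2
  have hup : ∀ j : Fin n, (N (Sum.inl j)).card ≤ n + (n + 2) * (j.1 + 1) := by
    intro j
    have : N (Sum.inl j) ⊆ (Finset.univ.image (fun i : Fin n => (Sum.inl i : Fin n ⊕ Lf n))) ∪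
        (Finset.univ.image (fun k : Fin ((n + 2) * (j.1 + 1)) =>
        (Sum.inr ⟨j, k⟩ : Fin n ⊕ Lf n))) := by
      intro y hy
      rw [Finset.mem_filter] at hy
      rw [Finset.mem_union, Finset.mem_image, Finset.mem_image]
      rcases y with y | ⟨y, k⟩
      · exact Or.inl ⟨y, Finset.mem_univ _, rfl⟩
      · right
        have h3 : j = y := hy.2
        subst h3
        exact ⟨k, Finset.mem_univ _, rfl⟩
    refine (Finset.card_le_card this).trans ((Finset.card_union_le _ _).trans ?_)
    apply Nat.add_le_add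
    · exact Finset.card_image_le.trans (by simp)
    · exact Finset.card_image_le.trans (by simp)
  have hleaf : ∀ p : Lf n, (N (Sum.inr p)).card ≤ 1 := by
    intro p
    have : N (Sum.inr p) ⊆ {Sum.inl p.1} := by
      intro y hy
      rw [Finset.mem_filter] at hy
      rw [Finset.mem_singleton]
      rcases y with y | y
      · have h3 : y = p.1 := hy.2
        rw [h3]
      · exact absurd hy.2 id
    exact (Finset.card_le_card this).trans (by simp)
  have h1 := hN (Sum.inl i)
  rcases hs : σ (Sum.inl i) with j | p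
  · rw [hs] at h1
    have h2 := hlow i
    have h3 := hup i
    have h4 := hlow j
    have h5 := hup j
    congr 1
    apply Fin.ext
    rcases lt_trichotomy i.1 j.1 with h6 | h6 | h6
    · exfalso
      have h7 : (n + 2) * (i.1 + 1 + 1) ≤ (n + 2) * (j.1 + 1) :=
        Nat.mul_le_mul_left _ (by omega)
      rw [mul_add, mul_one] at h7
      omega
    · exact h6.symm
    · exfalso
      have h7 : (n + 2) * (j.1 + 1 + 1) ≤ (n + 2) * (i.1 + 1) :=
        Nat.mul_le_mul_left _ (by omega)
      rw [mul_add, mul_one] at h7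
      omega
  · rw [hs] at h1
    have h2 := hlow i
    have h3 := hleaf p
    have h4 : (n + 2) * 1 ≤ (n + 2) * (i.1 + 1) := Nat.mul_le_mul_left _ (by omega)
    omega

theorem univ_fam (hG : SetHomogeneous G) (hU : Universal G) {n : ℕ} (a b : Fin n → V)
    (ha : Function.Injective a) (hb : Function.Injective b)
    (h : ∀ i j, G.Adj (a i) (a j) ↔ G.Adj (b i) (b j)) :
    ∃ φ : G ≃g G, ∀ i, φ (a i) = b i := by
  let A : SimpleGraph (Fin n) := G.comap a
  have hA : ∀ i j, A.Adj i j ↔ G.Adj (a i) (a j) := fun i j => Iff.rfl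
  obtain ⟨e⟩ := hU (Fin n ⊕ (Fin n × Fin ((n + 2) * (n + 1))))
    (leafG A (fun p : Fin n × Fin ((n + 2) * (n + 1)) => p.1))
  -- automorphisms of `A` extend
  have key : ∀ τ : Equiv.Perm (Fin n), (∀ i j, A.Adj (τ i) (τ j) ↔ A.Adj i j) →
      ∃ ψ : G ≃g G, ∀ i, ψ (e (Sum.inl i)) = e (Sum.inl (τ i)) := by
    intro τ hτ
    have hle : ∀ i : Fin n, (n + 2) * (i.1 + 1) ≤ (n + 2) * (n + 1) := fun i =>
      Nat.mul_le_mul_left _ (by omega)
    let y : Fin n ⊕ Lf n → V :=
      Sum.elim (fun i => e (Sum.inl i)) (fun p => e (Sum.inr (p.1, Fin.castLE (hle p.1) p.2)))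
    let y' : Fin n ⊕ Lf n → V :=
      Sum.elim (fun i => e (Sum.inl (τ i)))
        (fun p => e (Sum.inr (τ p.1, Fin.castLE (hle p.1) p.2)))
    have hyadj : ∀ x z, G.Adj (y x) (y z) ↔
        (leafG A (fun p : Lf n => p.1)).Adj x z := by
      rintro (x | x) (z | z) <;> exact e.map_adj_iff
    have hyadj' : ∀ x z, G.Adj (y' x) (y' z) ↔
        (leafG A (fun p : Lf n => p.1)).Adj x z := by
      rintro (x | x) (z | z)
      · exact e.map_adj_iff.trans (hτ x z)
      · refine e.map_adj_iff.trans ?_
        show τ x = τ z.1 ↔ x = z.1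
        exact τ.injective.eq_iff
      · refine e.map_adj_iff.trans ?_
        show τ z = τ x.1 ↔ z = x.1
        exact τ.injective.eq_iff
      · exact e.map_adj_iff
    have hsig : ∀ (i j : Fin n) (k : Fin ((n + 2) * (i.1 + 1))) (l : Fin ((n + 2) * (j.1 + 1))),
        i = j → k.1 = l.1 → (⟨i, k⟩ : Lf n) = ⟨j, l⟩ := by
      rintro i j k l rfl hkl
      rw [Fin.ext hkl]
    have hy : Function.Injective y := by
      rintro (x | ⟨x, k⟩) (z | ⟨z, l⟩) hxz
      · have := e.injective hxz
        simpa using this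
      · have := e.injective hxz
        simp at this
      · have := e.injective hxz
        simp at this
      · have := e.injective hxz
        simp only [Sum.inr.injEq, Prod.mk.injEq] at this
        rw [hsig x z k l this.1 (by simpa [Fin.ext_iff] using this.2)]
    have hy' : Function.Injective y' := by
      rintro (x | ⟨x, k⟩) (z | ⟨z, l⟩) hxz
      · have := e.injective hxz
        simpa using this
      · have := e.injective hxz
        simp at this
      · have := e.injective hxz
        simp at this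
      · have := e.injective hxz
        simp only [Sum.inr.injEq, Prod.mk.injEq] at this
        rw [hsig x z k l (τ.injective this.1) (by simpa [Fin.ext_iff] using this.2)]
    obtain ⟨ψ, σ, hσ⟩ := T0 hG hy hy' (fun i j => (hyadj i j).trans (hyadj' i j).symm)
    refine ⟨ψ, fun i => ?_⟩
    have h1 := leaf_rigid A σ (fun x z => by
      rw [← hyadj', ← hσ, ← hσ, ψ.map_adj_iff, hyadj]) i
    have h2 := hσ (Sum.inl i)
    rw [h1] at h2
    exact h2
  have hein : Function.Injective (fun i => e (Sum.inl i)) := fun i j hij =>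
    Sum.inl_injective (e.injective hij)
  obtain ⟨φ0, σ0, h0⟩ := T0 hG (y := a) (y' := fun i => e (Sum.inl i)) ha hein
    (fun i j => (e.map_adj_iff (v := Sum.inl i) (w := Sum.inl j)).symm)
  obtain ⟨φ1, σ1, h1⟩ := T0 hG (y := b) (y' := fun i => e (Sum.inl i)) hb hein
    (fun i j => (h i j).symm.trans (e.map_adj_iff (v := Sum.inl i) (w := Sum.inl j)).symm)
  have hσ0 : ∀ i j, A.Adj (σ0 i) (σ0 j) ↔ A.Adj i j := by
    intro i j
    rw [hA i j, ← φ0.map_adj_iff, h0, h0, e.map_adj_iff]
    rfl
  have hσ1 : ∀ i j, A.Adj (σ1 i) (σ1 j) ↔ A.Adj i j := by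
    intro i j
    rw [hA i j, h, ← φ1.map_adj_iff, h1, h1, e.map_adj_iff]
    rfl
  obtain ⟨ψ, hψ⟩ := key (σ0.symm.trans σ1) (fun i j => by
    simp only [Equiv.trans_apply]
    rw [hσ1, ← hσ0]
    simp)
  refine ⟨(φ0.trans ψ).trans φ1.symm, fun i => ?_⟩
  show φ1.symm (ψ (φ0 (a i))) = b i
  rw [h0, hψ, RelIso.symm_apply_eq, h1]
  simp

theorem univ_homog (hG : SetHomogeneous G) (hU : Universal G) : Homogeneous G := by
  intro A B hA hB f
  have := hA.fintype
  let a : Fin (Fintype.card A) ≃ A := (Fintype.equivFin A).symm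
  obtain ⟨φ, hφ⟩ := univ_fam hG hU (fun i => (a i).1) (fun i => (f (a i)).1)
    (fun i j hij => a.injective (Subtype.ext hij))
    (fun i j hij => a.injective (f.injective (Subtype.ext hij)))
    (fun i j => (f.map_adj_iff (v := a i) (w := a j)).symm)
  refine ⟨φ, fun x => ?_⟩
  have := hφ (a.symm x)
  simpa using this

/-- the extension property of the Rado graph -/
def RadoExt (G : SimpleGraph V) : Prop :=
  ∀ A B : Finset V, Disjoint A B → ∃ v, v ∉ A ∧ v ∉ B ∧ (∀ a ∈ A, G.Adj v a) ∧
    ∀ b ∈ B, ¬ G.Adj v b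

theorem univ_rado (hG : SetHomogeneous G) (hU : Universal G) : RadoExt G := by
  intro A B hAB
  let n := (A ∪ B).card
  let u : Fin n → V := fun i => ((A ∪ B).equivFin.symm i).1
  have hu : Function.Injective u := fun i j hij => (A ∪ B).equivFin.symm.injective (Subtype.ext hij)
  have hu' : ∀ x ∈ A ∪ B, ∃ i, u i = x := fun x hx => ⟨(A ∪ B).equivFin ⟨x, hx⟩, by simp [u]⟩
  let H : SimpleGraph (Fin n ⊕ Unit) :=
    { Adj := fun p q => match p, q with
        | Sum.inl i, Sum.inl j => G.Adj (u i) (u j)
        | Sum.inl i, Sum.inr _ => u i ∈ A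
        | Sum.inr _, Sum.inl i => u i ∈ A
        | Sum.inr _, Sum.inr _ => False
      symm := ⟨fun p q h => by
        rcases p with a | a <;> rcases q with b | b
        · exact h.symm
        · exact h
        · exact h
        · exact h⟩
      loopless := ⟨fun p => by
        rcases p with a | a
        · exact G.irrefl
        · exact id⟩ }
  obtain ⟨e⟩ := hU _ H
  obtain ⟨φ, hφ⟩ := univ_fam hG hU (fun i => e (Sum.inl i)) u
    (fun i j hij => Sum.inl_injective (e.injective hij)) hu
    (fun i j => e.map_adj_iff (v := Sum.inl i) (w := Sum.inl j))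
  have hne : ∀ i, φ (e (Sum.inr ())) ≠ u i := by
    intro i hi
    rw [← hφ] at hi
    have := e.injective (φ.injective hi)
    simp at this
  have hadj : ∀ i, G.Adj (φ (e (Sum.inr ()))) (u i) ↔ u i ∈ A := by
    intro i
    rw [← hφ, φ.map_adj_iff, hφ]
    exact e.map_adj_iff (v := Sum.inr ()) (w := Sum.inl i)
  refine ⟨φ (e (Sum.inr ())), ?_, ?_, ?_, ?_⟩
  · intro h
    obtain ⟨i, hi⟩ := hu' _ (Finset.mem_union_left _ h)
    exact hne i hi.symm
  · intro h
    obtain ⟨i, hi⟩ := hu' _ (Finset.mem_union_right _ h)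
    exact hne i hi.symm
  · intro a ha
    obtain ⟨i, rfl⟩ := hu' _ (Finset.mem_union_left _ ha)
    exact (hadj i).2 ha
  · intro b hb
    obtain ⟨i, rfl⟩ := hu' _ (Finset.mem_union_right _ hb)
    intro h
    exact Finset.disjoint_left.1 hAB ((hadj i).1 h) hb

end Run7.h901
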