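import Mathlib

/-!
Back-and-forth between countable three-coloured dense orders.
-/

open scoped Classical

namespace Run7.h901

universe u v

/-- a back-and-forth lemma for pairwise conditions. -/
theorem backforth {V : Type u} {V' : Type v} [Countable V] [Countable V']
    (R : V × V' → V × V' → Prop) (hR : ∀ p q, R p q → (p.1 = q.1 ↔ p.2 = q.2))
    (hfwd : ∀ s : Finset (V × V'), (∀ p ∈ s, ∀ q ∈ s, R p q) → ∀ x : V, ∃ y : V',
      ∀ p ∈ insert (x, y) s, ∀ q ∈ insert (x, y) s, R p q)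
    (hbwd : ∀ s : Finset (V × V'), (∀ p ∈ s, ∀ q ∈ s, R p q) → ∀ y : V', ∃ x : V,
      ∀ p ∈ insert (x, y) s, ∀ q ∈ insert (x, y) s, R p q) :
    ∃ e : V ≃ V', ∀ x x', R (x, e x) (x', e x') := by
  cases nonempty_encodable V
  cases nonempty_encodable V'
  let PP := {s : Finset (V × V') // ∀ p ∈ s, ∀ q ∈ s, R p q}
  let _ : Preorder PP := Preorder.lift (fun s => s.1)
  have hfor : ∀ x : V, IsCofinal {s : PP | ∃ y, (x, y) ∈ s.1} := by
    intro x s
    obtain ⟨y, hy⟩ := hfwd s.1 s.2 x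
    exact ⟨⟨insert (x, y) s.1, hy⟩, ⟨y, Finset.mem_insert_self _ _⟩,
      Finset.subset_insert (x, y) s.1⟩
  have hback : ∀ y : V', IsCofinal {s : PP | ∃ x, (x, y) ∈ s.1} := by
    intro y s
    obtain ⟨x, hx⟩ := hbwd s.1 s.2 y
    exact ⟨⟨insert (x, y) s.1, hx⟩, ⟨x, Finset.mem_insert_self _ _⟩,
      Finset.subset_insert (x, y) s.1⟩
  let s0 : PP := ⟨∅, by simp⟩
  let D : V ⊕ V' → Order.Cofinal PP := fun i =>
    Sum.rec (fun x => ⟨_, hfor x⟩) (fun y => ⟨_, hback y⟩) i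
  let I := Order.idealOfCofinals s0 D
  have hI1 : ∀ x : V, ∃ y, ∃ s ∈ I, (x, y) ∈ s.1 := by
    intro x
    obtain ⟨s, ⟨y, hy⟩, hs⟩ := Order.cofinal_meets_idealOfCofinals s0 D (Sum.inl x)
    exact ⟨y, s, hs, hy⟩
  have hI2 : ∀ y : V', ∃ x, ∃ s ∈ I, (x, y) ∈ s.1 := by
    intro y
    obtain ⟨s, ⟨x, hx⟩, hs⟩ := Order.cofinal_meets_idealOfCofinals s0 D (Sum.inr y)
    exact ⟨x, s, hs, hx⟩
  have hcompat : ∀ x y x' y', (∃ s ∈ I, (x, y) ∈ s.1) → (∃ s ∈ I, (x', y') ∈ s.1) →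
      R (x, y) (x', y') := by
    rintro x y x' y' ⟨s, hs, hxy⟩ ⟨t, ht, hxy'⟩
    obtain ⟨m, -, hsm, htm⟩ := I.directed s hs t ht
    exact m.2 _ (hsm hxy) _ (htm hxy')
  choose F hF using hI1
  choose F' hF' using hI2
  refine ⟨⟨F, F', ?_, ?_⟩, ?_⟩
  · intro x
    exact (hR _ _ (hcompat _ _ _ _ (hF' (F x)) (hF x))).2 rfl
  · intro y
    exact (hR _ _ (hcompat _ _ _ _ (hF (F' y)) (hF' y))).1 rfl
  · intro x x'
    exact hcompat _ _ _ _ (hF x) (hF x')

/-- the vertices other than `o` are coloured with three colours and linearly ordered, densely in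
each colour and without endpoints, and the adjacency is given by the order and the colours. -/
structure COrd {V : Type u} (G : SimpleGraph V) (o : V) (c : V → Fin 3) (lt : V → V → Prop) :
    Prop where
  irr : ∀ x, ¬ lt x x
  tr : ∀ x y z, lt x y → lt y z → lt x z
  tri : ∀ x y, x ≠ o → y ≠ o → x = y ∨ lt x y ∨ lt y x
  dense : ∀ x y, x ≠ o → y ≠ o → lt x y → ∀ k, ∃ z, z ≠ o ∧ c z = k ∧ lt x z ∧ lt z y
  above : ∀ x, x ≠ o → ∀ k, ∃ z, z ≠ o ∧ c z = k ∧ lt x z
  below : ∀ x, x ≠ o → ∀ k, ∃ z, z ≠ o ∧ c z = k ∧ lt z x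
  some : ∀ k, ∃ z, z ≠ o ∧ c z = k
  adj_o : ∀ x, x ≠ o → (G.Adj o x ↔ c x = 1)
  adj : ∀ x y, x ≠ o → y ≠ o → c y = c x + 1 → (G.Adj x y ↔ lt x y)
  nadj : ∀ x y, x ≠ o → y ≠ o → c x = c y → ¬ G.Adj x y

namespace COrd

variable {V : Type u} {G : SimpleGraph V} {o : V} {c : V → Fin 3} {lt : V → V → Prop}

theorem exists_max (h : COrd G o c lt) (S : Finset V) (hS : ∀ x ∈ S, x ≠ o) :
    S = ∅ ∨ ∃ a ∈ S, ∀ b ∈ S, b = a ∨ lt b a := by
  induction S using Finset.induction_on with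
  | empty => left; rfl
  | insert x S hx ih =>
    right
    rcases ih (fun y hy => hS y (Finset.mem_insert_of_mem hy)) with h0 | ⟨a, ha, hmax⟩
    · subst h0
      exact ⟨x, by simp, by simp⟩
    · rcases h.tri x a (hS x (by simp)) (hS a (Finset.mem_insert_of_mem ha)) with h1 | h1 | h1
      · exact absurd (h1 ▸ ha) hx
      · refine ⟨a, Finset.mem_insert_of_mem ha, fun b hb => ?_⟩
        rcases Finset.mem_insert.1 hb with rfl | hb
        · right; exact h1
        · exact hmax b hb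
      · refine ⟨x, by simp, fun b hb => ?_⟩
        rcases Finset.mem_insert.1 hb with rfl | hb
        · left; rfl
        · right
          rcases hmax b hb with rfl | hb'
          · exact h1
          · exact h.tr _ _ _ hb' h1

theorem exists_min (h : COrd G o c lt) (S : Finset V) (hS : ∀ x ∈ S, x ≠ o) :
    S = ∅ ∨ ∃ a ∈ S, ∀ b ∈ S, b = a ∨ lt a b := by
  induction S using Finset.induction_on with
  | empty => left; rfl
  | insert x S hx ih =>
    right
    rcases ih (fun y hy => hS y (Finset.mem_insert_of_mem hy)) with h0 | ⟨a, ha, hmax⟩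
    · subst h0
      exact ⟨x, by simp, by simp⟩
    · rcases h.tri x a (hS x (by simp)) (hS a (Finset.mem_insert_of_mem ha)) with h1 | h1 | h1
      · exact absurd (h1 ▸ ha) hx
      · refine ⟨x, by simp, fun b hb => ?_⟩
        rcases Finset.mem_insert.1 hb with rfl | hb
        · left; rfl
        · right
          rcases hmax b hb with rfl | hb'
          · exact h1
          · exact h.tr _ _ _ h1 hb'
      · refine ⟨a, Finset.mem_insert_of_mem ha, fun b hb => ?_⟩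
        rcases Finset.mem_insert.1 hb with rfl | hb
        · right; exact h1
        · exact hmax b hb

theorem between_fin (h : COrd G o c lt) (k : Fin 3) (lo hi : Finset V)
    (hlo : ∀ x ∈ lo, x ≠ o) (hhi : ∀ x ∈ hi, x ≠ o) (hlt : ∀ x ∈ lo, ∀ y ∈ hi, lt x y) :
    ∃ z, z ≠ o ∧ c z = k ∧ (∀ x ∈ lo, lt x z) ∧ ∀ y ∈ hi, lt z y := by
  rcases h.exists_max lo hlo with h1 | ⟨a, ha, hmax⟩ <;>
    rcases h.exists_min hi hhi with h2 | ⟨b, hb, hmin⟩
  · subst h1; subst h2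
    obtain ⟨z, hz, hzk⟩ := h.some k
    exact ⟨z, hz, hzk, by simp, by simp⟩
  · subst h1
    obtain ⟨z, hz, hzk, hzb⟩ := h.below b (hhi b hb) k
    refine ⟨z, hz, hzk, by simp, fun y hy => ?_⟩
    rcases hmin y hy with rfl | h3
    · exact hzb
    · exact h.tr _ _ _ hzb h3
  · subst h2
    obtain ⟨z, hz, hzk, hza⟩ := h.above a (hlo a ha) k
    refine ⟨z, hz, hzk, fun y hy => ?_, by simp⟩
    rcases hmax y hy with rfl | h3
    · exact hza
    · exact h.tr _ _ _ h3 hza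
  · obtain ⟨z, hz, hzk, haz, hzb⟩ := h.dense a b (hlo a ha) (hhi b hb) (hlt a ha b hb) k
    refine ⟨z, hz, hzk, fun y hy => ?_, fun y hy => ?_⟩
    · rcases hmax y hy with rfl | h3
      · exact haz
      · exact h.tr _ _ _ h3 haz
    · rcases hmin y hy with rfl | h3
      · exact hzb
      · exact h.tr _ _ _ hzb h3

end COrd

section

variable {V : Type u} {G : SimpleGraph V} {o : V} {c : V → Fin 3} {lt : V → V → Prop}
variable {V' : Type v} {G' : SimpleGraph V'} {o' : V'} {c' : V' → Fin 3} {lt' : V' → V' → Prop}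

/-- compatibility of two pairs. -/
def Cpt (o : V) (c : V → Fin 3) (lt : V → V → Prop) (o' : V') (c' : V' → Fin 3)
    (lt' : V' → V' → Prop) (p q : V × V') : Prop :=
  (p.1 = q.1 ↔ p.2 = q.2) ∧ (p.1 = o ↔ p.2 = o') ∧ (q.1 = o ↔ q.2 = o') ∧
    (p.1 ≠ o → c p.1 = c' p.2) ∧ (p.1 ≠ o → q.1 ≠ o → (lt p.1 q.1 ↔ lt' p.2 q.2))

theorem Cpt.swap {p q : V × V'} (h : Cpt o c lt o' c' lt' p q) :
    Cpt o' c' lt' o c lt p.swap q.swap := by
  obtain ⟨h1, h2, h3, h4, h5⟩ := h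
  refine ⟨h1.symm, h2.symm, h3.symm, fun hp => (h4 (fun h => hp (h2.1 h))).symm, fun hp hq =>
    (h5 (fun h => hp (h2.1 h)) (fun h => hq (h3.1 h))).symm⟩

theorem COrd.ext (h : COrd G o c lt) (h' : COrd G' o' c' lt') (s : Finset (V × V'))
    (hs : ∀ p ∈ s, ∀ q ∈ s, Cpt o c lt o' c' lt' p q) (x : V) :
    ∃ y : V', ∀ p ∈ insert (x, y) s, ∀ q ∈ insert (x, y) s, Cpt o c lt o' c' lt' p q := by
  by_cases hx : ∃ p ∈ s, p.1 = x
  · obtain ⟨p, hp, rfl⟩ := hx
    refine ⟨p.2, ?_⟩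
    rw [Finset.insert_eq_of_mem (show (p.1, p.2) ∈ s from hp)]
    exact hs
  push Not at hx
  by_cases hxo : x = o
  · subst hxo
    have hne : ∀ p ∈ s, p.1 ≠ x ∧ p.2 ≠ o' := fun p hp =>
      ⟨hx p hp, fun hh => hx p hp ((hs p hp p hp).2.1.2 hh)⟩
    refine ⟨o', fun p hp q hq => ?_⟩
    rcases Finset.mem_insert.1 hp with rfl | hp <;> rcases Finset.mem_insert.1 hq with rfl | hq
    · exact ⟨by simp, by simp, by simp, fun h => absurd rfl h, fun h => absurd rfl h⟩
    · exact ⟨⟨fun h => absurd h.symm (hne q hq).1, fun h => absurd h.symm (hne q hq).2⟩, by simp,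
        (hs q hq q hq).2.1, fun h => absurd rfl h, fun h => absurd rfl h⟩
    · exact ⟨⟨fun h => absurd h (hne p hp).1, fun h => absurd h (hne p hp).2⟩,
        (hs p hp p hp).2.1, by simp, (hs p hp p hp).2.2.2.1, fun _ h => absurd rfl h⟩
    · exact hs p hp q hq
  -- the main case
  let lo : Finset V' := (s.filter (fun p => p.1 ≠ o ∧ lt p.1 x)).image Prod.snd
  let hi : Finset V' := (s.filter (fun p => p.1 ≠ o ∧ lt x p.1)).image Prod.snd
  obtain ⟨z, hzo, hzc, hzlo, hzhi⟩ := h'.between_fin (c x) lo hi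
    (by
      intro y hy
      simp only [lo, Finset.mem_image, Finset.mem_filter] at hy
      obtain ⟨p, ⟨hp, hp1, -⟩, rfl⟩ := hy
      exact fun hh => hp1 ((hs p hp p hp).2.1.2 hh))
    (by
      intro y hy
      simp only [hi, Finset.mem_image, Finset.mem_filter] at hy
      obtain ⟨p, ⟨hp, hp1, -⟩, rfl⟩ := hy
      exact fun hh => hp1 ((hs p hp p hp).2.1.2 hh))
    (by
      intro y hy y' hy'
      simp only [lo, hi, Finset.mem_image, Finset.mem_filter] at hy hy'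
      obtain ⟨p, ⟨hp, hp1, hp2⟩, rfl⟩ := hy
      obtain ⟨q, ⟨hq, hq1, hq2⟩, rfl⟩ := hy'
      exact ((hs p hp q hq).2.2.2.2 hp1 hq1).1 (h.tr _ _ _ hp2 hq2))
  have hlo' : ∀ p ∈ s, p.1 ≠ o → lt p.1 x → lt' p.2 z := fun p hp hp1 hp2 =>
    hzlo _ (Finset.mem_image_of_mem _ (Finset.mem_filter.2 ⟨hp, hp1, hp2⟩))
  have hhi' : ∀ p ∈ s, p.1 ≠ o → lt x p.1 → lt' z p.2 := fun p hp hp1 hp2 =>
    hzhi _ (Finset.mem_image_of_mem _ (Finset.mem_filter.2 ⟨hp, hp1, hp2⟩))
  have hasym : ∀ a b, lt' a b → ¬ lt' b a := fun a b h1 h2 => h'.irr _ (h'.tr _ _ _ h1 h2)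
  have hasym' : ∀ a b, lt a b → ¬ lt b a := fun a b h1 h2 => h.irr _ (h.tr _ _ _ h1 h2)
  have hne : ∀ p ∈ s, z ≠ p.2 := by
    intro p hp hh
    by_cases hp1 : p.1 = o
    · exact hzo (hh.trans ((hs p hp p hp).2.1.1 hp1))
    · rcases h.tri p.1 x hp1 hxo with h1 | h1 | h1
      · exact hx p hp h1
      · have := hlo' p hp hp1 h1
        rw [hh] at this
        exact h'.irr _ this
      · have := hhi' p hp hp1 h1
        rw [hh] at this
        exact h'.irr _ this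
  have hiff1 : ∀ p ∈ s, p.1 ≠ o → (lt p.1 x ↔ lt' p.2 z) := by
    intro p hp hp1
    refine ⟨hlo' p hp hp1, fun hh => ?_⟩
    rcases h.tri p.1 x hp1 hxo with h1 | h1 | h1
    · exact absurd h1 (hx p hp)
    · exact h1
    · exact absurd (hhi' p hp hp1 h1) (hasym _ _ hh)
  have hiff2 : ∀ p ∈ s, p.1 ≠ o → (lt x p.1 ↔ lt' z p.2) := by
    intro p hp hp1
    refine ⟨hhi' p hp hp1, fun hh => ?_⟩
    rcases h.tri p.1 x hp1 hxo with h1 | h1 | h1
    · exact absurd h1 (hx p hp)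
    · exact absurd (hlo' p hp hp1 h1) (hasym _ _ hh)
    · exact h1
  refine ⟨z, fun p hp q hq => ?_⟩
  rcases Finset.mem_insert.1 hp with rfl | hp <;> rcases Finset.mem_insert.1 hq with rfl | hq
  · exact ⟨by simp, by simp [hxo, hzo], by simp [hxo, hzo], fun _ => hzc.symm,
      fun _ _ => ⟨fun hh => absurd hh (h.irr _), fun hh => absurd hh (h'.irr _)⟩⟩
  · exact ⟨⟨fun hh => absurd hh.symm (hx q hq), fun hh => absurd hh (hne q hq)⟩,
      by simp [hxo, hzo], (hs q hq q hq).2.1, fun _ => hzc.symm, fun _ hq1 => hiff2 q hq hq1⟩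
  · exact ⟨⟨fun hh => absurd hh (hx p hp), fun hh => absurd hh.symm (hne p hp)⟩,
      (hs p hp p hp).2.1, by simp [hxo, hzo], (hs p hp p hp).2.2.2.1,
      fun hp1 _ => hiff1 p hp hp1⟩
  · exact hs p hp q hq

theorem fin3_cases : ∀ i j : Fin 3, i = j ∨ j = i + 1 ∨ i = j + 1 := by decide

/-- two countable graphs given by dense three-coloured orders are isomorphic. -/
theorem COrd.iso [Countable V] [Countable V'] (h : COrd G o c lt) (h' : COrd G' o' c' lt') :
    Nonempty (G ≃g G') := by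
  obtain ⟨e, he⟩ := backforth (Cpt o c lt o' c' lt') (fun p q hpq => hpq.1)
    (fun s hs x => h.ext h' s hs x) (by
      intro s hs y
      obtain ⟨x, hx⟩ := h'.ext h (s.image Prod.swap) (by
        intro p hp q hq
        obtain ⟨p', hp', rfl⟩ := Finset.mem_image.1 hp
        obtain ⟨q', hq', rfl⟩ := Finset.mem_image.1 hq
        exact (hs p' hp' q' hq').swap) y
      refine ⟨x, fun p hp q hq => ?_⟩
      have key : ∀ r : V × V', r ∈ insert (x, y) s → r.swap ∈ insert (y, x) (s.image Prod.swap) := by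
        intro r hr
        rcases Finset.mem_insert.1 hr with rfl | hr
        · exact Finset.mem_insert_self _ _
        · exact Finset.mem_insert_of_mem (Finset.mem_image_of_mem _ hr)
      have := (hx _ (key p hp) _ (key q hq)).swap
      simpa using this)
  refine ⟨⟨e, ?_⟩⟩
  intro x x'
  obtain ⟨-, h2, h3, h4, h5⟩ := he x x'
  obtain ⟨-, -, -, h4', h5'⟩ := he x' x
  simp only at h2 h3 h4 h5 h4' h5'
  by_cases hx : x = o
  · by_cases hx' : x' = o
    · rw [h2.1 hx, h3.1 hx', hx, hx']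
      exact ⟨fun hh => absurd hh (G'.irrefl), fun hh => absurd hh (G.irrefl)⟩
    · have hx2 : e x' ≠ o' := fun hh => hx' (h3.2 hh)
      rw [h2.1 hx, hx, h'.adj_o _ hx2, h.adj_o _ hx', h4' hx']
  · have hx1 : e x ≠ o' := fun hh => hx (h2.2 hh)
    by_cases hx' : x' = o
    · rw [h3.1 hx', hx', G'.adj_comm, G.adj_comm, h'.adj_o _ hx1, h.adj_o _ hx, h4 hx]
    · have hx2 : e x' ≠ o' := fun hh => hx' (h3.2 hh)
      have e1 := h4 hx
      have e2 := h4' hx'
      rcases fin3_cases (c x) (c x') with h6 | h6 | h6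
      · exact ⟨fun hh => absurd hh (h'.nadj _ _ hx1 hx2 (by rw [← e1, ← e2, h6])),
          fun hh => absurd hh (h.nadj _ _ hx hx' h6)⟩
      · rw [h.adj _ _ hx hx' h6, h'.adj _ _ hx1 hx2 (by rw [← e1, ← e2, h6]), h5 hx hx']
      · rw [G'.adj_comm, G.adj_comm, h.adj _ _ hx' hx h6,
          h'.adj _ _ hx2 hx1 (by rw [← e1, ← e2, h6]), h5' hx' hx]

end

end Run7.h901
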