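import Pool.Agent.Run7.h901.Lim

/-!
Closure properties of the set of finite graphs embedding in every rich graph.
-/

open scoped Classical

namespace Run7.h901

universe u v w x y

/-! ### maps between sums and joins -/

section maps
variable {α : Type v} {β : Type w} {γ : Type x} {δ : Type y} {A : SimpleGraph α}
  {B : SimpleGraph β} {C : SimpleGraph γ} {D : SimpleGraph δ}

def dsumMap (e : A ↪g C) (f : B ↪g D) : dsum A B ↪g dsum C D where
  toFun := Sum.map e f
  inj' := Function.Injective.sumMap e.injective f.injective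
  map_rel_iff' := by
    rintro (a | a) (b | b)
    · exact e.map_adj_iff
    · rfl
    · rfl
    · exact f.map_adj_iff

def embCompl {V : Type u} {G : SimpleGraph V} (e : A ↪g G) : Aᶜ ↪g Gᶜ where
  toFun := e
  inj' := e.injective
  map_rel_iff' := by
    intro a b
    show Gᶜ.Adj (e a) (e b) ↔ Aᶜ.Adj a b
    simp only [SimpleGraph.compl_adj, e.map_adj_iff, ne_eq, e.injective.eq_iff]

def jnMap (e : A ↪g C) (f : B ↪g D) : jn A B ↪g jn C D :=
  embCompl (dsumMap (embCompl e) (embCompl f))

def dsumComm : dsum A B ↪g dsum B A where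
  toFun := Sum.swap
  inj' := Sum.swap_leftInverse.injective
  map_rel_iff' := by
    rintro (a | a) (b | b) <;> rfl

def jnComm : jn A B ↪g jn B A := embCompl dsumComm

def dsumAssoc : dsum A (dsum B C) ↪g dsum (dsum A B) C where
  toFun := (Equiv.sumAssoc α β γ).symm
  inj' := (Equiv.sumAssoc α β γ).symm.injective
  map_rel_iff' := by
    rintro (a | a | a) (b | b | b) <;> rfl

def dsumInl : A ↪g dsum A B where
  toFun := Sum.inl
  inj' := Sum.inl_injective
  map_rel_iff' := by intro a b; rfl

def dsumInr : B ↪g dsum A B where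
  toFun := Sum.inr
  inj' := Sum.inr_injective
  map_rel_iff' := by intro a b; rfl

def topCast {n m : ℕ} (h : n ≤ m) : (⊤ : SimpleGraph (Fin n)) ↪g (⊤ : SimpleGraph (Fin m)) where
  toFun := Fin.castLE h
  inj' := Fin.castLE_injective h
  map_rel_iff' := by intro a b; simp

def botCast {n m : ℕ} (h : n ≤ m) : (⊥ : SimpleGraph (Fin n)) ↪g (⊥ : SimpleGraph (Fin m)) where
  toFun := Fin.castLE h
  inj' := Fin.castLE_injective h
  map_rel_iff' := by intro a b; simp

end maps

/-- `P₃` -/
abbrev P3g : SimpleGraph (Unit ⊕ Fin 2) := jn (⊥ : SimpleGraph Unit) (⊥ : SimpleGraph (Fin 2))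
/-- `K₁ + K₂` -/
abbrev K12g : SimpleGraph (Unit ⊕ Fin 2) := dsum (⊥ : SimpleGraph Unit) (⊤ : SimpleGraph (Fin 2))
/-- star -/
abbrev St (s : ℕ) : SimpleGraph (Unit ⊕ Fin s) :=
  jn (⊥ : SimpleGraph Unit) (⊥ : SimpleGraph (Fin s))
/-- `K_n * I_2` -/
abbrev Yg (n : ℕ) : SimpleGraph (Fin n ⊕ Fin 2) :=
  jn (⊤ : SimpleGraph (Fin n)) (⊥ : SimpleGraph (Fin 2))

section
variable {V : Type u} {G : SimpleGraph V}

theorem lim_rich (h : Rich G) (β : ℕ → Type) [∀ n, Finite (β n)]
    (B : ∀ n, SimpleGraph (β n)) (hdom : ∀ n, ∃ d, ∀ x, x ≠ d → (B n).Adj d x)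
    (hcard : ∀ n, n ≤ Nat.card (β n)) (hmono : ∀ n m, n ≤ m → Nonempty (B n ↪g B m))
    (hK : ∀ n m, Nonempty (dsum (⊤ : SimpleGraph (Fin m)) (B n) ↪g G))
    (hI : ∀ n m, Nonempty (dsum (⊥ : SimpleGraph (Fin m)) (B n) ↪g G))
    (hP : ∀ n, Nonempty (dsum P3g (B n) ↪g G)) (hQ : ∀ n, Nonempty (dsum K12g (B n) ↪g G)) :
    ∃ (V' : Type u) (G' : SimpleGraph V'), Rich G' ∧
      ∀ (α : Type) [Finite α] (A : SimpleGraph α),
        Nonempty (A ↪g G') ↔ ∀ n, Nonempty (dsum A (B n) ↪g G) := by
  obtain ⟨V', G', h1, h2⟩ := lim h.sh β B hdom hcard hmono (fun n => by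
    obtain ⟨e⟩ := hI n 1
    exact ⟨(dsumMap (A := (⊥ : SimpleGraph Unit)) (B := B n)
      ⟨⟨fun _ => (0 : Fin 1), fun _ _ _ => rfl⟩, by intro a b; simp⟩
      SimpleGraph.Embedding.refl).trans e⟩)
  refine ⟨V', G', ⟨h1, ?_, ?_, ?_, ?_⟩, fun α _ A => h2 α A⟩
  · intro n
    obtain ⟨e⟩ := (h2 _ (⊤ : SimpleGraph (Fin n))).2 (fun m => hK m n)
    refine ⟨Finset.univ.image e, ?_, by
      rw [Finset.card_image_of_injective _ e.injective, Finset.card_univ, Fintype.card_fin]⟩
    intro a ha b hb hab
    rw [Finset.mem_coe, Finset.mem_image] at ha hb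
    obtain ⟨i, -, rfl⟩ := ha
    obtain ⟨j, -, rfl⟩ := hb
    rw [e.map_adj_iff]
    exact fun he => hab (by rw [he])
  · intro n
    obtain ⟨e⟩ := (h2 _ (⊥ : SimpleGraph (Fin n))).2 (fun m => hI m n)
    refine ⟨Finset.univ.image e, ?_, by
      rw [Finset.card_image_of_injective _ e.injective, Finset.card_univ, Fintype.card_fin]⟩
    intro a ha b hb
    rw [Finset.mem_image] at ha hb
    obtain ⟨i, -, rfl⟩ := ha
    obtain ⟨j, -, rfl⟩ := hb
    rw [e.map_adj_iff]
    simp
  · obtain ⟨e⟩ := (h2 _ P3g).2 hP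
    refine ⟨e (Sum.inr 0), trivial, e (Sum.inl ()), trivial, e (Sum.inr 1), trivial,
      e.map_adj_iff.2 jn_rl, e.map_adj_iff.2 jn_lr, e.injective.ne (by simp), ?_⟩
    rw [e.map_adj_iff]
    simp
  · obtain ⟨e⟩ := (h2 _ K12g).2 hQ
    refine ⟨e (Sum.inl ()), trivial, e (Sum.inr 0), trivial, e (Sum.inr 1), trivial,
      e.map_adj_iff.2 (by simp), ⟨e.injective.ne (by simp), ?_⟩, e.injective.ne (by simp), ?_⟩ <;>
    · rw [e.map_adj_iff]
      simp

/-- enumeration of a clique as an embedding -/
theorem clique_emb {n : ℕ} {C : Finset V} (hC : G.IsNClique n C) :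
    ∃ b : (⊤ : SimpleGraph (Fin n)) ↪g G, ∀ v, (∀ i, Gᶜ.Adj v (b i)) ↔ v ∈ cn Gᶜ C := by
  let e := C.equivFinOfCardEq hC.2
  refine ⟨⟨⟨fun i => (e.symm i).1, fun i j hij => e.symm.injective (Subtype.ext hij)⟩, ?_⟩, ?_⟩
  · intro i j
    show G.Adj (e.symm i).1 (e.symm j).1 ↔ i ≠ j
    constructor
    · rintro h rfl
      exact G.irrefl h
    · intro h
      exact hC.1 (e.symm i).2 (e.symm j).2
        (fun he => h (e.symm.injective (Subtype.ext he)))
  · intro v
    constructor
    · intro h u hu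
      have := h (e ⟨u, hu⟩)
      simpa using this
    · intro h i
      exact h _ (e.symm i).2

theorem indp_emb {n : ℕ} {I : Finset V} (hI : Indp G I) (hc : I.card = n) :
    ∃ b : (⊥ : SimpleGraph (Fin n)) ↪g G, ∀ i, b i ∈ I := by
  let e := I.equivFinOfCardEq hc
  refine ⟨⟨⟨fun i => (e.symm i).1, fun i j hij => e.symm.injective (Subtype.ext hij)⟩, ?_⟩, ?_⟩
  · intro i j
    show G.Adj (e.symm i).1 (e.symm j).1 ↔ False
    exact ⟨fun h => hI _ (e.symm i).2 _ (e.symm j).2 h, False.elim⟩
  · intro i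
    exact (e.symm i).2

theorem off_emb {α : Type} {A : SimpleGraph α} {n : ℕ} {C : Finset V} (hC : G.IsNClique n C)
    (e : A ↪g G) (he : ∀ a, e a ∈ cn Gᶜ C) :
    Nonempty (dsum A (⊤ : SimpleGraph (Fin n)) ↪g G) := by
  obtain ⟨b, hb⟩ := clique_emb hC
  refine dsum_emb' b ⟨⟨⟨fun a => ⟨e a, (hb _).2 (he a)⟩, fun a a' haa =>
    e.injective (congrArg Subtype.val haa)⟩, ?_⟩⟩
  intro a a'
  exact e.map_adj_iff

theorem p3_emb {S : Set V} (h : HasP3 G S) : ∃ e : P3g ↪g G, ∀ a, e a ∈ S := by
  obtain ⟨a, ha, b, hb, c, hc, h1, h2, h3⟩ := h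
  let f : Unit ⊕ Fin 2 → V := Sum.elim (fun _ => b) (fun i => if i = 0 then a else c)
  refine ⟨⟨⟨f, ?_⟩, ?_⟩, ?_⟩
  · rintro (i | i) (j | j) hij
    · rfl
    · exfalso
      simp only [f, Sum.elim_inl, Sum.elim_inr] at hij
      split_ifs at hij
      · exact h1.ne hij.symm
      · exact h2.ne hij
    · exfalso
      simp only [f, Sum.elim_inl, Sum.elim_inr] at hij
      split_ifs at hij
      · exact h1.ne hij
      · exact h2.ne hij.symm
    · simp only [f, Sum.elim_inr] at hij
      fin_cases i <;> fin_cases j <;> simp at hij ⊢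
      · exact h3.1 hij
      · exact h3.1 hij.symm
  · rintro (i | i) (j | j)
    · show G.Adj b b ↔ _
      simp
    · show G.Adj b (if j = 0 then a else c) ↔ _
      simp only [jn_lr, iff_true]
      split_ifs
      · exact h1.symm
      · exact h2
    · show G.Adj (if i = 0 then a else c) b ↔ _
      simp only [jn_rl, iff_true]
      split_ifs
      · exact h1
      · exact h2.symm
    · show G.Adj (if i = 0 then a else c) (if j = 0 then a else c) ↔ _
      simp only [jn_rr, SimpleGraph.bot_adj, iff_false]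
      split_ifs
      · simp
      · exact h3.2
      · exact fun h => h3.2 h.symm
      · simp
  · rintro (i | i)
    · exact hb
    · show (if i = 0 then a else c) ∈ S
      split_ifs <;> assumption

theorem k12_emb {S : Set V} (h : HasK12 G S) : ∃ e : K12g ↪g G, ∀ a, e a ∈ S := by
  obtain ⟨a, ha, b, hb, c, hc, h1, h2, h3⟩ := h
  let f : Unit ⊕ Fin 2 → V := Sum.elim (fun _ => a) (fun i => if i = 0 then b else c)
  refine ⟨⟨⟨f, ?_⟩, ?_⟩, ?_⟩
  · rintro (i | i) (j | j) hij
    · rfl
    · exfalso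
      simp only [f, Sum.elim_inl, Sum.elim_inr] at hij
      split_ifs at hij
      · exact h2.1 hij
      · exact h3.1 hij
    · exfalso
      simp only [f, Sum.elim_inl, Sum.elim_inr] at hij
      split_ifs at hij
      · exact h2.1 hij.symm
      · exact h3.1 hij.symm
    · simp only [f, Sum.elim_inr] at hij
      fin_cases i <;> fin_cases j <;> simp at hij ⊢
      · exact h1.ne hij
      · exact h1.ne hij.symm
  · rintro (i | i) (j | j)
    · show G.Adj a a ↔ _
      simp
    · show G.Adj a (if j = 0 then b else c) ↔ False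
      rw [iff_false]
      split_ifs
      · exact h2.2
      · exact h3.2
    · show G.Adj (if i = 0 then b else c) a ↔ False
      rw [iff_false]
      split_ifs
      · exact fun h => h2.2 h.symm
      · exact fun h => h3.2 h.symm
    · show G.Adj (if i = 0 then b else c) (if j = 0 then b else c) ↔ _
      fin_cases i <;> fin_cases j <;> simp
      · exact h1
      · exact h1.symm
  · rintro (i | i)
    · exact ha
    · show (if i = 0 then b else c) ∈ S
      split_ifs <;> assumption

/-- the limit for `K_n` -/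
theorem limK (h : Rich G) : ∃ (V' : Type u) (G' : SimpleGraph V'), Rich G' ∧
    ∀ (α : Type) [Finite α] (A : SimpleGraph α),
      Nonempty (A ↪g G') ↔ ∀ n, Nonempty (dsum A (⊤ : SimpleGraph (Fin n)) ↪g G) := by
  obtain ⟨V', G', h1, h2⟩ := lim_rich h (fun n => Fin (n + 1)) (fun n => ⊤)
    (fun n => ⟨0, fun x hx => hx.symm⟩) (fun n => by simp)
    (fun n m hnm => ⟨topCast (by omega)⟩)
    (fun n m => by
      obtain ⟨C, hC⟩ := h.cl (n + 1)
      obtain ⟨Q, hQ, hQC⟩ := clique_off_clique h hC m
      obtain ⟨e, he⟩ : ∃ e : (⊤ : SimpleGraph (Fin m)) ↪g G, ∀ i, e i ∈ Q := by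
        let e := Q.equivFinOfCardEq hQ.2
        refine ⟨⟨⟨fun i => (e.symm i).1, fun i j hij =>
          e.symm.injective (Subtype.ext hij)⟩, ?_⟩, fun i => (e.symm i).2⟩
        intro i j
        show G.Adj (e.symm i).1 (e.symm j).1 ↔ i ≠ j
        constructor
        · rintro h rfl
          exact G.irrefl h
        · intro h
          exact hQ.1 (e.symm i).2 (e.symm j).2
            (fun he => h (e.symm.injective (Subtype.ext he)))
      exact off_emb hC e (fun a => hQC _ (he a)))
    (fun n m => by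
      obtain ⟨J, hJ, hJc⟩ := h.ind m
      obtain ⟨Q, hQ, hQJ⟩ := h.clique_off hJ (n + 1)
      obtain ⟨e, he⟩ := indp_emb hJ hJc
      exact off_emb hQ e (fun a q hq => (hQJ q hq _ (he a)).symm))
    (fun n => by
      obtain ⟨C, hC⟩ := h.cl (n + 1)
      obtain ⟨e, he⟩ := p3_emb (p3_off h hC)
      exact off_emb hC e he)
    (fun n => by
      obtain ⟨C, hC⟩ := h.cl (n + 1)
      obtain ⟨e, he⟩ := k12_emb (k12_off h hC)
      exact off_emb hC e he)
  refine ⟨V', G', h1, fun α _ A => ?_⟩
  rw [h2]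
  constructor
  · intro h3 n
    obtain ⟨e⟩ := h3 n
    exact ⟨(dsumMap SimpleGraph.Embedding.refl (topCast (Nat.le_succ n))).trans e⟩
  · intro h3 n
    exact h3 (n + 1)

end

/-! ### classes -/

/-- a class of rich graphs closed under passing to rich graphs of smaller age -/
structure Cls (P : ∀ V : Type u, SimpleGraph V → Prop) : Prop where
  rich : ∀ V G, P V G → Rich G
  down : ∀ V G V' G', P V G → Rich G' →
    (∀ (α : Type) [Finite α] (A : SimpleGraph α), Nonempty (A ↪g G') → Nonempty (A ↪g G)) →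
    P V' G'

/-- embeds in all members of the class -/
def All (P : ∀ V : Type u, SimpleGraph V → Prop) {α : Type} (A : SimpleGraph α) : Prop :=
  ∀ V G, P V G → Nonempty (A ↪g G)

variable {P : ∀ V : Type u, SimpleGraph V → Prop} {α β : Type} {A : SimpleGraph α}
  {B : SimpleGraph β}

theorem All.of_emb (h : All P A) (e : B ↪g A) : All P B := by
  intro V G hG
  obtain ⟨f⟩ := h V G hG
  exact ⟨e.trans f⟩

theorem All.addK (hP : Cls P) [Finite α] (h : All P A) (n : ℕ) :
    All P (dsum A (⊤ : SimpleGraph (Fin n))) := by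
  intro V G hG
  obtain ⟨V', G', h1, h2⟩ := limK (hP.rich V G hG)
  have h3 : P V' G' := hP.down V G V' G' hG h1 (fun γ _ C hC => by
    obtain ⟨e⟩ := (h2 γ C).1 hC 0
    exact ⟨dsumInl.trans e⟩)
  exact (h2 α A).1 (h V' G' h3) n

theorem All.joinI (hP : Cls P) [Finite α] (h : All P A) (n : ℕ) :
    All P (jn A (⊥ : SimpleGraph (Fin n))) := by
  intro V G hG
  obtain ⟨V', G', h1, h2⟩ := limK (hP.rich V G hG).compl
  have h3 : P V' G'ᶜ := hP.down V G V' G'ᶜ hG h1.compl (fun γ _ C hC => by
    obtain ⟨f⟩ := hC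
    have f' := embCompl f
    rw [compl_compl] at f'
    obtain ⟨e⟩ := (h2 γ Cᶜ).1 ⟨f'⟩ 0
    have e' := embCompl (dsumInl.trans e)
    rw [compl_compl, compl_compl] at e'
    exact ⟨e'⟩)
  obtain ⟨f⟩ := h V' G'ᶜ h3
  have f' := embCompl f
  rw [compl_compl] at f'
  obtain ⟨e⟩ := (h2 α Aᶜ).1 ⟨f'⟩ n
  have e' := embCompl e
  rw [compl_compl] at e'
  rw [jn, compl_bot]
  exact ⟨e'⟩

theorem All.addI (hP : Cls P) [Finite α] (h : All P A) (n : ℕ) :
    All P (dsum A (⊥ : SimpleGraph (Fin n))) := by
  induction n with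
  | zero =>
    exact h.of_emb ⟨⟨Sum.elim id (fun i => i.elim0), by
      rintro (a | a) (b | b) hab
      · exact congrArg _ hab
      · exact b.elim0
      · exact a.elim0
      · exact a.elim0⟩, by
      rintro (a | a) (b | b)
      · rfl
      · exact b.elim0
      · exact a.elim0
      · exact a.elim0⟩
  | succ n ih =>
    refine (ih.addK hP 1).of_emb ⟨⟨Sum.elim (fun a => Sum.inl (Sum.inl a))
      (fun i => if hi : i.1 < n then Sum.inl (Sum.inr ⟨i.1, hi⟩) else Sum.inr 0), ?_⟩, ?_⟩
    · rintro (a | a) (b | b) hab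
      · simp only [Sum.elim_inl, Sum.inl.injEq] at hab
        rw [hab]
      · exfalso
        simp only [Sum.elim_inl, Sum.elim_inr] at hab
        split_ifs at hab
        · simp at hab
      · exfalso
        simp only [Sum.elim_inl, Sum.elim_inr] at hab
        split_ifs at hab
        · simp at hab
      · simp only [Sum.elim_inr] at hab
        congr 1
        apply Fin.ext
        have := a.2
        have := b.2
        split_ifs at hab
        · simpa using hab
        · omega
    · rintro (a | a) (b | b)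
      · rfl
      · simp only [Function.Embedding.coeFn_mk, Sum.elim_inl, Sum.elim_inr]
        split_ifs <;> simp
      · simp only [Function.Embedding.coeFn_mk, Sum.elim_inl, Sum.elim_inr]
        split_ifs <;> simp
      · simp only [Function.Embedding.coeFn_mk, Sum.elim_inr]
        split_ifs <;> simp

theorem All.addKK (hP : Cls P) [Finite α] (h : All P A) (n m : ℕ) :
    All P (dsum A (KK n m)) := by
  induction n with
  | zero =>
    exact h.of_emb ⟨⟨Sum.elim id (fun i => i.1.elim0), by
      rintro (a | a) (b | b) hab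
      · exact congrArg _ hab
      · exact b.1.elim0
      · exact a.1.elim0
      · exact a.1.elim0⟩, by
      rintro (a | a) (b | b)
      · rfl
      · exact b.1.elim0
      · exact a.1.elim0
      · exact a.1.elim0⟩
  | succ n ih =>
    refine (ih.addK hP m).of_emb ⟨⟨Sum.elim (fun a => Sum.inl (Sum.inl a))
      (fun i => if hi : i.1.1 < n then Sum.inl (Sum.inr (⟨i.1.1, hi⟩, i.2)) else Sum.inr i.2),
      ?_⟩, ?_⟩
    · rintro (a | ⟨i, k⟩) (b | ⟨j, l⟩) hab
      · simp only [Sum.elim_inl, Sum.inl.injEq] at hab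
        rw [hab]
      · exfalso
        simp only [Sum.elim_inl, Sum.elim_inr] at hab
        split_ifs at hab
        · simp at hab
      · exfalso
        simp only [Sum.elim_inl, Sum.elim_inr] at hab
        split_ifs at hab
        · simp at hab
      · simp only [Sum.elim_inr] at hab
        have := i.2
        have := j.2
        split_ifs at hab
        · simp only [Sum.inl.injEq, Sum.inr.injEq, Prod.mk.injEq, Fin.mk.injEq] at hab
          rw [hab.2, Fin.ext hab.1]
        · simp only [Sum.inr.injEq] at hab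
          rw [hab, Fin.ext (by omega : i.1 = j.1)]
    · rintro (a | ⟨i, k⟩) (b | ⟨j, l⟩)
      · rfl
      · simp only [Function.Embedding.coeFn_mk, Sum.elim_inl, Sum.elim_inr]
        split_ifs <;> simp
      · simp only [Function.Embedding.coeFn_mk, Sum.elim_inl, Sum.elim_inr]
        split_ifs <;> simp
      · simp only [Function.Embedding.coeFn_mk, Sum.elim_inr]
        have h1 := i.2
        have h2 := j.2
        split_ifs with h3 h4 h4
        · simp only [dsum_ll, dsum_rr, KK_adj, ne_eq, Prod.mk.injEq, Fin.mk.injEq, Fin.ext_iff]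
        · simp only [dsum_lr, dsum_rr, KK_adj, false_iff, not_and]
          intro _ h5
          simp only [Fin.ext_iff] at h5
          omega
        · simp only [dsum_rl, dsum_rr, KK_adj, false_iff, not_and]
          intro _ h5
          simp only [Fin.ext_iff] at h5
          omega
        · have h5 : i = j := Fin.ext (by omega)
          subst h5
          simp

end Run7.h901
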