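import Pool.Agent.Run7.h901.AR

/-!
All cographs embed in every rich graph (relative to the amalgamation step `T1Stmt`).
-/

open scoped Classical

namespace Run7.h901

universe u v w x y

section
variable {V : Type u} {G : SimpleGraph V} {α : Type v} {β : Type w} {A : SimpleGraph α}
  {B : SimpleGraph β}

def embSum (f : A ↪g G) (g : B ↪g G) (h : ∀ x y, Gᶜ.Adj (f x) (g y)) : dsum A B ↪g G where
  toFun := Sum.elim f g
  inj' := by
    rintro (a | a) (b | b) hab
    · rw [f.injective hab]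
    · exact absurd hab (h a b).1
    · exact absurd hab.symm (h b a).1
    · rw [g.injective hab]
  map_rel_iff' := by
    rintro (a | a) (b | b)
    · exact f.map_adj_iff
    · exact ⟨fun h' => absurd h' (h a b).2, False.elim⟩
    · exact ⟨fun h' => absurd h'.symm (h b a).2, False.elim⟩
    · exact g.map_adj_iff

def embJoin (f : A ↪g G) (g : B ↪g G) (h : ∀ x y, G.Adj (f x) (g y)) : jn A B ↪g G where
  toFun := Sum.elim f g
  inj' := by
    rintro (a | a) (b | b) hab
    · rw [f.injective hab]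
    · exact absurd hab (h a b).ne
    · exact absurd hab.symm (h b a).ne
    · rw [g.injective hab]
  map_rel_iff' := by
    rintro (a | a) (b | b)
    · exact f.map_adj_iff.trans jn_ll.symm
    · exact ⟨fun _ => jn_lr, fun _ => h a b⟩
    · exact ⟨fun _ => jn_rl, fun _ => (h b a).symm⟩
    · exact g.map_adj_iff.trans jn_rr.symm

def embOne (v : V) : (⊥ : SimpleGraph Unit) ↪g G where
  toFun := fun _ => v
  inj' := fun _ _ _ => rfl
  map_rel_iff' := by intro a b; simp

def jnInl : A ↪g jn A B where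
  toFun := Sum.inl
  inj' := Sum.inl_injective
  map_rel_iff' := by intro a b; exact jn_ll

end

/-- the class of all rich graphs -/
def RichC : ∀ V : Type u, SimpleGraph V → Prop := fun _ G => Rich G

theorem cls_rich : Cls RichC.{u} := ⟨fun _ _ h => h, fun _ _ _ _ _ h _ => h⟩

/-- rich graphs omitting `P₃ + (K_n * I_2)` -/
def XC (n0 : ℕ) : ∀ V : Type u, SimpleGraph V → Prop := fun _ G =>
  Rich G ∧ ¬ Nonempty (dsum P3g (Yg n0) ↪g G)

theorem cls_X (n0 : ℕ) : Cls (XC.{u} n0) :=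
  ⟨fun _ _ h => h.1, fun _ _ _ _ h h' hd => ⟨h', fun hn => h.2 (hd _ _ hn)⟩⟩

theorem all_one : All RichC.{u} (⊥ : SimpleGraph Unit) := by
  intro V G h
  obtain ⟨a, -⟩ := (h : Rich G).p3
  exact ⟨embOne a⟩

theorem all_top (n : ℕ) : All RichC.{u} (⊤ : SimpleGraph (Fin n)) := by
  intro V G h
  obtain ⟨C, hC⟩ := (h : Rich G).cl n
  obtain ⟨e, -⟩ := clique_emb hC
  exact ⟨e⟩

theorem all_St (s : ℕ) : All RichC.{u} (St s) := all_one.joinI cls_rich s

theorem all_Y (n : ℕ) : All RichC.{u} (Yg n) := (all_top n).joinI cls_rich 2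

def unit1 : (⊥ : SimpleGraph Unit) ↪g (⊤ : SimpleGraph (Fin 1)) := embOne 0

variable {α β : Type} {A : SimpleGraph α} {B : SimpleGraph β}

theorem condQ [Finite β] (hB : All RichC.{u} B) : All RichC.{u} (dsum K12g B) :=
  ((hB.addK cls_rich 1).addK cls_rich 2).of_emb
    (dsumComm.trans ((dsumMap SimpleGraph.Embedding.refl
      (dsumMap unit1 SimpleGraph.Embedding.refl)).trans dsumAssoc))

theorem lim_gen {V : Type u} {G : SimpleGraph V} (h : Rich G) (β : ℕ → Type) [∀ n, Finite (β n)]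
    (B : ∀ n, SimpleGraph (β n)) (hdom : ∀ n, ∃ d, ∀ x, x ≠ d → (B n).Adj d x)
    (hcard : ∀ n, n ≤ Nat.card (β n)) (hmono : ∀ n m, n ≤ m → Nonempty (B n ↪g B m))
    (hB : ∀ n, All RichC.{u} (B n))
    (hP : ∀ n, Nonempty (dsum P3g (B n) ↪g G)) :
    ∃ (V' : Type u) (G' : SimpleGraph V'), Rich G' ∧
      ∀ (α : Type) [Finite α] (A : SimpleGraph α),
        Nonempty (A ↪g G') ↔ ∀ n, Nonempty (dsum A (B n) ↪g G) :=
  lim_rich h β B hdom hcard hmono
    (fun n m => (((hB n).addK cls_rich m).of_emb dsumComm) V G h)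
    (fun n m => (((hB n).addI cls_rich m).of_emb dsumComm) V G h) hP
    (fun n => condQ (hB n) V G h)

theorem C1 {V : Type u} {G : SimpleGraph V} (h : Rich G) {n0 : ℕ}
    (hn : ¬ Nonempty (dsum P3g (Yg n0) ↪g G)) :
    ∃ s, 2 ≤ s ∧ ¬ Nonempty (dsum P3g (St s) ↪g G) := by
  by_contra hcon
  push Not at hcon
  obtain ⟨V', G', h1, h2⟩ := lim_gen h (fun n => Unit ⊕ Fin (n + 2)) (fun n => St (n + 2))
    (fun n => ⟨Sum.inl (), by
      rintro (x | x) hx
      · exact absurd rfl hx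
      · exact jn_lr⟩)
    (fun n => by simp; omega)
    (fun n m hnm => ⟨jnMap SimpleGraph.Embedding.refl (botCast (by omega))⟩)
    (fun n => all_St (n + 2)) (fun n => hcon (n + 2) (by omega))
  obtain ⟨e⟩ := (h2 _ (Yg n0)).1 (all_Y n0 V' G' h1) 0
  exact hn ⟨dsumComm.trans e⟩

theorem joinX (n0 : ℕ) [Finite α] [Finite β] (hA : All (XC.{u} n0) A) (hB : All (XC.{u} n0) B) :
    All (XC.{u} n0) (jn A B) := by
  intro V G hG
  obtain ⟨s, hs, hno⟩ := C1 hG.1 hG.2
  obtain ⟨e⟩ := ((hA.joinI (cls_X n0) s).addI (cls_X n0) s) V G hG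
  obtain ⟨f⟩ := ((hB.joinI (cls_X n0) s).addI (cls_X n0) s) V G hG
  -- the independent sets
  obtain ⟨φ, hφ⟩ := sym_fam hG.1
    (Sum.elim (fun j : Fin s => f (Sum.inl (Sum.inr j))) (fun j : Fin s => f (Sum.inr j)))
    (Sum.elim (fun j : Fin s => e (Sum.inr j)) (fun j : Fin s => e (Sum.inl (Sum.inr j))))
    (by
      rintro (i | i) (j | j) hij
      · have := f.injective hij
        simpa using this
      · have := f.injective hij
        simp at this
      · have := f.injective hij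
        simp at this
      · have := f.injective hij
        simpa using this)
    (by
      rintro (i | i) (j | j) hij
      · have := e.injective hij
        simpa using this
      · have := e.injective hij
        simp at this
      · have := e.injective hij
        simp at this
      · have := e.injective hij
        simpa using this)
    (by
      rintro (i | i) (j | j) <;> simp only [Sum.elim_inl, Sum.elim_inr] <;>
        rw [f.map_adj_iff] <;> simp)
    (by
      rintro (i | i) (j | j) <;> simp only [Sum.elim_inl, Sum.elim_inr] <;>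
        rw [e.map_adj_iff] <;> simp)
  have hφ1 : ∀ j, φ (f (Sum.inl (Sum.inr j))) = e (Sum.inr j) := fun j => hφ (Sum.inl j)
  have hφ2 : ∀ j, φ (f (Sum.inr j)) = e (Sum.inl (Sum.inr j)) := fun j => hφ (Sum.inr j)
  obtain ⟨a, ha⟩ : ∃ a : A ↪g G, ∀ i, a i = e (Sum.inl (Sum.inl i)) :=
    ⟨jnInl.trans (dsumInl.trans e), fun _ => rfl⟩
  obtain ⟨b, hb⟩ : ∃ b : B ↪g G, ∀ i, b i = φ (f (Sum.inl (Sum.inl i))) :=
    ⟨(jnInl.trans (dsumInl.trans f)).trans φ.toEmbedding, fun _ => rfl⟩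
  have at1 : ∀ i j, G.Adj (a i) (e (Sum.inl (Sum.inr j))) := by
    intro i j
    rw [ha, e.map_adj_iff]
    simp
  have at2 : ∀ i j, Gᶜ.Adj (a i) (e (Sum.inr j)) := by
    intro i j
    rw [ha]
    refine ⟨e.injective.ne (by simp), ?_⟩
    rw [e.map_adj_iff]
    simp
  have bt1 : ∀ i j, G.Adj (b i) (e (Sum.inr j)) := by
    intro i j
    rw [hb, ← hφ1, φ.map_adj_iff, f.map_adj_iff]
    simp
  have bt2 : ∀ i j, Gᶜ.Adj (b i) (e (Sum.inl (Sum.inr j))) := by
    intro i j
    rw [hb, ← hφ2, compl_adj_map]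
    refine ⟨f.injective.ne (by simp), ?_⟩
    rw [f.map_adj_iff]
    simp
  refine ⟨embJoin a b ?_⟩
  intro i k
  by_contra hnadj
  apply hno
  have hne : a i ≠ b k := by
    intro he
    have h1 := at1 i ⟨0, by omega⟩
    rw [he] at h1
    exact (bt2 k ⟨0, by omega⟩).2 h1
  -- the star at `b k`
  let t' : (⊥ : SimpleGraph (Fin s)) ↪g G := dsumInr.trans e
  let t : (⊥ : SimpleGraph (Fin s)) ↪g G :=
    (⟨⟨Sum.inr, Sum.inr_injective⟩, by intro x y; exact jn_rr⟩ :
      (⊥ : SimpleGraph (Fin s)) ↪g jn A (⊥ : SimpleGraph (Fin s))).trans (dsumInl.trans e)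
  let g1 : St s ↪g G := embJoin (embOne (b k)) t' (fun _ j => bt1 k j)
  let g2 : P3g ↪g G := embJoin (embOne (a i)) ((botCast hs).trans t) (fun _ j => at1 i _)
  refine ⟨embSum g2 g1 ?_⟩
  rintro (x | x) (y | y)
  · exact ⟨hne, hnadj⟩
  · exact at2 i y
  · exact (bt2 k _).symm
  · show Gᶜ.Adj (e (Sum.inl (Sum.inr _))) (e (Sum.inr y))
    refine ⟨e.injective.ne (by simp), ?_⟩
    rw [e.map_adj_iff]
    simp

/-- the amalgamation step -/
def T1Stmt : Prop := ∀ (V : Type u) (G : SimpleGraph V), SetHomogeneous G →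
  (∀ n m, Nonempty (jn (KK n m) (dsum (KK n m) (KK n m)) ↪g G)) →
  (∀ n m, Nonempty (dsum (KK n m) (jn (KK n m) (KK n m)) ↪g G)) →
  ∀ n m, Nonempty (dsum (jn (KK n m) (KK n m)) (jn (KK n m) (KK n m)) ↪g G)

theorem noX (T1 : T1Stmt.{u}) {V : Type u} {G : SimpleGraph V} (h : Rich G) (n0 : ℕ) :
    Nonempty (dsum P3g (Yg n0) ↪g G) := by
  by_contra hn
  have hG : XC n0 V G := ⟨h, hn⟩
  have hone : All (XC.{u} n0) (⊥ : SimpleGraph Unit) := fun V G hG => all_one V G hG.1
  have hKK : ∀ n m, All (XC.{u} n0) (KK n m) := fun n m =>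
    (hone.addKK (cls_X n0) n m).of_emb dsumInr
  have h1 : ∀ n m, All (XC.{u} n0) (jn (KK n m) (dsum (KK n m) (KK n m))) := fun n m =>
    joinX n0 (hKK n m) ((hKK n m).addKK (cls_X n0) n m)
  have h2 : ∀ n m, All (XC.{u} n0) (dsum (KK n m) (jn (KK n m) (KK n m))) := fun n m =>
    ((joinX n0 (hKK n m) (hKK n m)).addKK (cls_X n0) n m).of_emb dsumComm
  obtain ⟨e⟩ := T1 V G h.sh (fun n m => h1 n m V G hG) (fun n m => h2 n m V G hG) 2 (n0 + 1)
  let e1 : (⊥ : SimpleGraph Unit) ↪g KK 2 (n0 + 1) := embOne (0, 0)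
  let e2 : (⊥ : SimpleGraph (Fin 2)) ↪g KK 2 (n0 + 1) :=
    ⟨⟨fun i => (i, 0), fun i j hij => congrArg Prod.fst hij⟩, by
      intro i j
      simp only [Function.Embedding.coeFn_mk, KK_adj, SimpleGraph.bot_adj, iff_false, not_and]
      intro h1 h2
      exact h1 (by rw [show i = j from h2])⟩
  let e3 : (⊤ : SimpleGraph (Fin n0)) ↪g KK 2 (n0 + 1) :=
    ⟨⟨fun i => (0, Fin.castLE (Nat.le_succ n0) i), fun i j hij =>
      Fin.castLE_injective (Nat.le_succ n0) (congrArg Prod.snd hij)⟩, by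
      intro i j
      simp⟩
  exact hn ⟨(dsumMap (jnMap e1 e2) (jnMap e3 e2)).trans e⟩

theorem addP3 (T1 : T1Stmt.{u}) [Finite α] (hA : All RichC.{u} A) :
    All RichC.{u} (dsum A P3g) := by
  intro V G h
  obtain ⟨V', G', h1, h2⟩ := lim_gen (G := G) h (fun n => Fin (n + 1) ⊕ Fin 2)
    (fun n => Yg (n + 1))
    (fun n => ⟨Sum.inl 0, by
      rintro (x | x) hx
      · rw [jn_ll]
        exact fun he => hx (by rw [he])
      · exact jn_lr⟩)
    (fun n => by simp; omega)
    (fun n m hnm => ⟨jnMap (topCast (by omega)) SimpleGraph.Embedding.refl⟩)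
    (fun n => all_Y (n + 1)) (fun n => noX T1 h (n + 1))
  obtain ⟨e⟩ := (h2 _ A).1 (hA V' G' h1) 0
  exact ⟨(dsumMap SimpleGraph.Embedding.refl (jnMap unit1 SimpleGraph.Embedding.refl)).trans e⟩

theorem addAll (T1 : T1Stmt.{u}) [Finite α] [Finite β] (hA : All RichC.{u} A)
    (hB : All RichC.{u} B) : All RichC.{u} (dsum A B) := by
  intro V G h
  have hB' : ∀ n, All RichC.{u} (jn (dsum B (⊥ : SimpleGraph (Fin n)))
      (⊥ : SimpleGraph (Fin 1))) := fun n => (hB.addI cls_rich n).joinI cls_rich 1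
  obtain ⟨V', G', h1, h2⟩ := lim_gen (G := G) h (fun n => (β ⊕ Fin n) ⊕ Fin 1)
    (fun n => jn (dsum B (⊥ : SimpleGraph (Fin n))) (⊥ : SimpleGraph (Fin 1)))
    (fun n => ⟨Sum.inr 0, by
      rintro (x | x) hx
      · exact jn_rl
      · exact absurd (by rw [Subsingleton.elim x 0]) hx⟩)
    (fun n => by rw [Nat.card_sum, Nat.card_sum]; simp; omega)
    (fun n m hnm => ⟨jnMap (dsumMap SimpleGraph.Embedding.refl (botCast hnm))
      SimpleGraph.Embedding.refl⟩)
    hB' (fun n => ((addP3 T1 (hB' n)).of_emb dsumComm) V G h)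
  obtain ⟨e⟩ := (h2 _ A).1 (hA V' G' h1) 0
  exact ⟨(dsumMap SimpleGraph.Embedding.refl (dsumInl.trans jnInl)).trans e⟩

theorem All.compl (hA : All RichC.{u} A) : All RichC.{u} Aᶜ := by
  intro V G h
  obtain ⟨e⟩ := hA V Gᶜ (Rich.compl h)
  have e' := embCompl e
  rw [compl_compl] at e'
  exact ⟨e'⟩

theorem cog_finite {α : Type} {A : SimpleGraph α} (h : Cog α A) : Finite α := by
  induction h with
  | one => infer_instance
  | sum _ _ h1 h2 => exact Finite.instSum
  | compl _ h1 => exact h1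

/-- every cograph embeds in every rich graph -/
theorem cog_all (T1 : T1Stmt.{u}) {α : Type} {A : SimpleGraph α} (h : Cog α A) :
    All RichC.{u} A := by
  induction h with
  | one => exact all_one
  | sum hA hB h1 h2 =>
    have := cog_finite hA
    have := cog_finite hB
    exact addAll T1 h1 h2
  | compl _ h1 => exact h1.compl

end Run7.h901
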