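import Pool.Agent.Run7.h901.TF

/-!
Neighbourhoods with bounded independent sets inside a graph with unbounded ones.
-/

open scoped Classical

namespace Run7.h901

universe u
variable {W : Type u} {H : SimpleGraph W}

/-- independent finite sets. -/
def Indp (H : SimpleGraph W) (I : Finset W) : Prop := ∀ x ∈ I, ∀ y ∈ I, ¬ H.Adj x y

/-- no equalities and no edges between `Y` and `F`. -/
def Far (H : SimpleGraph W) (Y F : Finset W) : Prop := ∀ y ∈ Y, ∀ z ∈ F, Hᶜ.Adj y z

theorem Quasi.gen (hq : Quasi H) {ι : Type u} [Finite ι] (y y' : ι → W)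
    (hy : Function.Injective y) (hy' : Function.Injective y')
    (h : ∀ i j, H.Adj (y i) (y j) ↔ H.Adj (y' i) (y' j))
    (hun : ∀ i, ∃ j, j ≠ i ∧ ¬ H.Adj (y i) (y j)) :
    ∃ (φ : H ≃g H) (σ : Equiv.Perm ι), ∀ i, φ (y i) = y' (σ i) := by
  let e := Finite.equivFin ι
  obtain ⟨φ, σ, hφ⟩ := hq _ (y ∘ e.symm) (y' ∘ e.symm) (hy.comp e.symm.injective)
    (hy'.comp e.symm.injective) (fun i j => h _ _) (by
      intro i
      obtain ⟨j, hj1, hj2⟩ := hun (e.symm i)
      refine ⟨e j, ?_, by simpa using hj2⟩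
      rintro rfl
      exact hj1 (by simp))
  refine ⟨φ, (e.trans σ).trans e.symm, fun i => ?_⟩
  have := hφ (e i)
  simpa using this

/-- a clique plus an independent set, without edges in between. -/
theorem Quasi.KF (hq : Quasi H) {K K' F F' : Finset W} (hK : H.IsClique (K : Set W))
    (hK' : H.IsClique (K' : Set W)) (hcK : K.card = K'.card) (hF : Indp H F) (hF' : Indp H F')
    (hcF : F.card = F'.card) (far : Far H K F) (far' : Far H K' F') (hKne : K.Nonempty)
    (hFne : F.Nonempty) : ∃ φ : H ≃g H, (K ∪ F).image φ = K' ∪ F' := by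
  let eK : K ≃ K' := Finset.equivOfCardEq hcK
  let eF : F ≃ F' := Finset.equivOfCardEq hcF
  have hKadj : ∀ (k l : K), H.Adj k.1 l.1 ↔ H.Adj (eK k).1 (eK l).1 := by
    intro k l
    by_cases hkl : k = l
    · subst hkl; simp
    · have h1 : k.1 ≠ l.1 := fun h => hkl (Subtype.ext h)
      have h2 : (eK k).1 ≠ (eK l).1 := fun h => hkl (eK.injective (Subtype.ext h))
      exact ⟨fun _ => hK' (eK k).2 (eK l).2 h2, fun _ => hK k.2 l.2 h1⟩
  obtain ⟨φ, σ, hφ⟩ := hq.gen (ι := K ⊕ F) (Sum.elim (fun k => k.1) (fun f => f.1))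
    (Sum.elim (fun k => (eK k).1) (fun f => (eF f).1))
    (by
      rintro (k | f) (l | g) h
      · simp only [Sum.elim_inl] at h; rw [Subtype.ext h]
      · simp only [Sum.elim_inl, Sum.elim_inr] at h; exact absurd h (far _ k.2 _ g.2).1
      · simp only [Sum.elim_inl, Sum.elim_inr] at h; exact absurd h.symm (far _ l.2 _ f.2).1
      · simp only [Sum.elim_inr] at h; rw [Subtype.ext h])
    (by
      rintro (k | f) (l | g) h
      · simp only [Sum.elim_inl] at h; rw [eK.injective (Subtype.ext h)]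
      · simp only [Sum.elim_inl, Sum.elim_inr] at h; exact absurd h (far' _ (eK k).2 _ (eF g).2).1
      · simp only [Sum.elim_inl, Sum.elim_inr] at h
        exact absurd h.symm (far' _ (eK l).2 _ (eF f).2).1
      · simp only [Sum.elim_inr] at h; rw [eF.injective (Subtype.ext h)])
    (by
      rintro (k | f) (l | g)
      · simp only [Sum.elim_inl]; exact hKadj k l
      · simp only [Sum.elim_inl, Sum.elim_inr]
        exact ⟨fun h => absurd h (far _ k.2 _ g.2).2,
          fun h => absurd h (far' _ (eK k).2 _ (eF g).2).2⟩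
      · simp only [Sum.elim_inl, Sum.elim_inr]
        exact ⟨fun h => absurd h.symm (far _ l.2 _ f.2).2,
          fun h => absurd h.symm (far' _ (eK l).2 _ (eF f).2).2⟩
      · simp only [Sum.elim_inr]
        exact ⟨fun h => absurd h (hF _ f.2 _ g.2), fun h => absurd h (hF' _ (eF f).2 _ (eF g).2)⟩)
    (by
      obtain ⟨k0, hk0⟩ := hKne
      obtain ⟨f0, hf0⟩ := hFne
      rintro (k | f)
      · exact ⟨Sum.inr ⟨f0, hf0⟩, by simp, (far _ k.2 _ hf0).2⟩
      · exact ⟨Sum.inl ⟨k0, hk0⟩, by simp, fun h => (far _ hk0 _ f.2).2 h.symm⟩)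
  refine ⟨φ, ?_⟩
  have hd : ∀ (A B : Finset W), Far H A B → Disjoint A B := by
    intro A B h
    rw [Finset.disjoint_left]
    intro a ha hb
    exact (h a ha a hb).1 rfl
  apply Finset.eq_of_subset_of_card_le
  · intro w hw
    rw [Finset.mem_image] at hw
    obtain ⟨x, hx, rfl⟩ := hw
    have hmem : ∀ i : K ⊕ F, (Sum.elim (fun k : K => (eK k).1) (fun f : F => (eF f).1)) i ∈
        K' ∪ F' := by
      rintro (k | f)
      · exact Finset.mem_union_left _ (eK k).2
      · exact Finset.mem_union_right _ (eF f).2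
    rcases Finset.mem_union.1 hx with hx | hx
    · have := hφ (Sum.inl ⟨x, hx⟩)
      simp only [Sum.elim_inl] at this
      rw [this]; exact hmem _
    · have := hφ (Sum.inr ⟨x, hx⟩)
      simp only [Sum.elim_inr] at this
      rw [this]; exact hmem _
  · rw [Finset.card_image_of_injective _ φ.injective, Finset.card_union_of_disjoint (hd _ _ far),
      Finset.card_union_of_disjoint (hd _ _ far'), hcK, hcF]

/-- a common neighbour is transported. -/
theorem Quasi.KF_cn (hq : Quasi H) {K K' F F' : Finset W} (hK : H.IsClique (K : Set W))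
    (hK' : H.IsClique (K' : Set W)) (hcK : K.card = K'.card) (hF : Indp H F) (hF' : Indp H F')
    (hcF : F.card = F'.card) (far : Far H K F) (far' : Far H K' F') (hKne : K.Nonempty)
    (hFne : F.Nonempty) {u : W} (hu : ∀ x ∈ K ∪ F, H.Adj u x) :
    ∃ u', ∀ x ∈ K' ∪ F', H.Adj u' x := by
  obtain ⟨φ, hφ⟩ := hq.KF hK hK' hcK hF hF' hcF far far' hKne hFne
  refine ⟨φ u, fun x hx => ?_⟩
  rw [← hφ, Finset.mem_image] at hx
  obtain ⟨y, hy, rfl⟩ := hx
  exact φ.map_adj_iff.2 (hu y hy)

theorem isClique_pair {p q : W} (h : H.Adj p q) : H.IsClique (({p, q} : Finset W) : Set W) := by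
  intro x hx y hy hxy
  simp only [Finset.coe_insert, Finset.coe_singleton, Set.mem_insert_iff,
    Set.mem_singleton_iff] at hx hy
  rcases hx with rfl | rfl <;> rcases hy with rfl | rfl
  · exact absurd rfl hxy
  · exact h
  · exact h.symm
  · exact absurd rfl hxy

theorem isClique_triple {p q r : W} (h1 : H.Adj p q) (h2 : H.Adj p r) (h3 : H.Adj q r) :
    H.IsClique (({p, q, r} : Finset W) : Set W) := by
  intro x hx y hy hxy
  simp only [Finset.coe_insert, Finset.coe_singleton, Set.mem_insert_iff,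
    Set.mem_singleton_iff] at hx hy
  rcases hx with rfl | rfl | rfl <;> rcases hy with rfl | rfl | rfl
  · exact absurd rfl hxy
  · exact h1
  · exact h2
  · exact h1.symm
  · exact absurd rfl hxy
  · exact h3
  · exact h2.symm
  · exact h3.symm
  · exact absurd rfl hxy

/-- an edge plus an independent set. -/
theorem Quasi.K2F (hq : Quasi H) {p q v x : W} {F F' : Finset W} (hpq : H.Adj p q)
    (hvx : H.Adj v x) (hF : Indp H F) (hF' : Indp H F') (hcF : F.card = F'.card)
    (far : Far H {p, q} F) (far' : Far H {v, x} F') (hFne : F.Nonempty) :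
    ∃ φ : H ≃g H, F.image φ = F' ∧ ((φ p = v ∧ φ q = x) ∨ (φ p = x ∧ φ q = v)) := by
  obtain ⟨φ, hφ⟩ := hq.KF (isClique_pair hpq) (isClique_pair hvx)
    (by rw [Finset.card_pair hpq.ne, Finset.card_pair hvx.ne]) hF hF' hcF far far' (by simp) hFne
  have hadj : H.Adj (φ p) (φ q) := φ.map_adj_iff.2 hpq
  have hp : φ p ∈ ({v, x} : Finset W) ∪ F' := by
    rw [← hφ]; exact Finset.mem_image_of_mem _ (by simp)
  have hq' : φ q ∈ ({v, x} : Finset W) ∪ F' := by
    rw [← hφ]; exact Finset.mem_image_of_mem _ (by simp)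
  have hp1 : φ p ∈ ({v, x} : Finset W) := by
    rcases Finset.mem_union.1 hp with h | h
    · exact h
    · exfalso
      rcases Finset.mem_union.1 hq' with h' | h'
      · exact (far' _ h' _ h).2 hadj.symm
      · exact hF' _ h _ h' hadj
  have hq1 : φ q ∈ ({v, x} : Finset W) := by
    rcases Finset.mem_union.1 hq' with h | h
    · exact h
    · exact absurd hadj (far' _ hp1 _ h).2
  have hor : (φ p = v ∧ φ q = x) ∨ (φ p = x ∧ φ q = v) := by
    simp only [Finset.mem_insert, Finset.mem_singleton] at hp1 hq1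
    rcases hp1 with h1 | h1 <;> rcases hq1 with h2 | h2
    · exact absurd (h1.trans h2.symm) hadj.ne
    · exact Or.inl ⟨h1, h2⟩
    · exact Or.inr ⟨h1, h2⟩
    · exact absurd (h1.trans h2.symm) hadj.ne
  refine ⟨φ, ?_, hor⟩
  apply Finset.eq_of_subset_of_card_le
  · intro w hw
    rw [Finset.mem_image] at hw
    obtain ⟨z, hz, rfl⟩ := hw
    have h1 : φ z ∈ ({v, x} : Finset W) ∪ F' := by
      rw [← hφ]; exact Finset.mem_image_of_mem _ (Finset.mem_union_right _ hz)
    rcases Finset.mem_union.1 h1 with h | h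
    · exfalso
      have h2 : φ z = φ p ∨ φ z = φ q := by
        simp only [Finset.mem_insert, Finset.mem_singleton] at h
        rcases hor with ⟨e1, e2⟩ | ⟨e1, e2⟩ <;> rw [e1, e2]
        · exact h
        · exact h.symm
      rcases h2 with h2 | h2
      · exact (far p (by simp) z hz).1 (φ.injective h2).symm
      · exact (far q (by simp) z hz).1 (φ.injective h2).symm
    · exact h
  · rw [Finset.card_image_of_injective _ φ.injective, hcF]

/-- the hypotheses: independent sets of all sizes, bounded in neighbourhoods. -/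
structure AL (H : SimpleGraph W) (r : ℕ) : Prop where
  quasi : Quasi H
  r2 : 2 ≤ r
  big : ∀ s : ℕ, ∃ I : Finset W, Indp H I ∧ I.card = s
  bd : ∀ (v : W) (I : Finset W), Indp H I → (∀ x ∈ I, H.Adj v x) → I.card ≤ r
  att : ∃ (v : W) (I : Finset W), Indp H I ∧ (∀ x ∈ I, H.Adj v x) ∧ I.card = r

theorem Indp.subset {I J : Finset W} (h : Indp H I) (hJ : J ⊆ I) : Indp H J :=
  fun x hx y hy => h x (hJ hx) y (hJ hy)

theorem Indp.insert {I : Finset W} {v : W} (h : Indp H I) (hv : ∀ x ∈ I, ¬ H.Adj v x) :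
    Indp H (insert v I) := by
  intro x hx y hy
  rw [Finset.mem_insert] at hx hy
  rcases hx with rfl | hx <;> rcases hy with rfl | hy
  · exact H.irrefl
  · exact hv y hy
  · exact fun hh => hv x hx hh.symm
  · exact h x hx y hy

theorem Far.symm {Y F : Finset W} (h : Far H Y F) : Far H F Y := fun z hz y hy => (h y hy z hz).symm

theorem Far.mono {Y F Y' F' : Finset W} (h : Far H Y F) (h1 : Y' ⊆ Y) (h2 : F' ⊆ F) :
    Far H Y' F' := fun y hy z hz => h y (h1 hy) z (h2 hz)

theorem Far.union {Y F F' : Finset W} (h : Far H Y F) (h' : Far H Y F') : Far H Y (F ∪ F') := by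
  intro y hy z hz
  rcases Finset.mem_union.1 hz with hz | hz
  · exact h y hy z hz
  · exact h' y hy z hz

theorem Far.image {Y F : Finset W} (h : Far H Y F) (φ : H ≃g H) :
    Far H (Y.image φ) (F.image φ) := by
  intro y hy z hz
  rw [Finset.mem_image] at hy hz
  obtain ⟨y, hy, rfl⟩ := hy
  obtain ⟨z, hz, rfl⟩ := hz
  exact (compl_adj_map φ).2 (h y hy z hz)

theorem Indp.image {I : Finset W} (h : Indp H I) (φ : H ≃g H) : Indp H (I.image φ) := by
  intro x hx y hy
  rw [Finset.mem_image] at hx hy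
  obtain ⟨x, hx, rfl⟩ := hx
  obtain ⟨y, hy, rfl⟩ := hy
  rw [φ.map_adj_iff]
  exact h x hx y hy

/-- `u` is adjacent to `v` and to the `(r-1)`-set `Z`, `v ∪ Z` independent. -/
structure UZ (H : SimpleGraph W) (r : ℕ) (v : W) (Z : Finset W) (u : W) : Prop where
  ind : Indp H Z
  card : Z.card + 1 = r
  far : ∀ z ∈ Z, Hᶜ.Adj v z
  uv : H.Adj u v
  uZ : ∀ z ∈ Z, H.Adj u z

namespace AL

variable {r : ℕ} (hA : AL H r)
include hA

theorem far (Y : Finset W) (t : ℕ) : ∃ F : Finset W, Indp H F ∧ F.card = t ∧ Far H Y F := by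
  obtain ⟨I, hI, hIc⟩ := hA.big (t + Y.card * (r + 1))
  let bad : Finset W := Y.biUnion (fun y => I.filter (fun z => ¬ Hᶜ.Adj y z))
  have hbad : bad.card ≤ Y.card * (r + 1) := by
    apply Finset.card_biUnion_le_card_mul
    intro y _
    have h1 : I.filter (fun z => ¬ Hᶜ.Adj y z) ⊆ insert y (I.filter (fun z => H.Adj y z)) := by
      intro z hz
      rw [Finset.mem_filter, SimpleGraph.compl_adj] at hz
      rw [Finset.mem_insert, Finset.mem_filter]
      by_cases hyz : y = z
      · left; exact hyz.symm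
      · right
        refine ⟨hz.1, ?_⟩
        by_contra hn
        exact hz.2 ⟨hyz, hn⟩
    refine (Finset.card_le_card h1).trans ((Finset.card_insert_le _ _).trans ?_)
    have := hA.bd y (I.filter (fun z => H.Adj y z)) (hI.subset (Finset.filter_subset _ _))
      (fun x hx => (Finset.mem_filter.1 hx).2)
    omega
  have hgood : t ≤ (I \ bad).card := by
    have := Finset.le_card_sdiff bad I
    omega
  obtain ⟨F, hF, hFc⟩ := Finset.exists_subset_card_eq hgood
  refine ⟨F, hI.subset (hF.trans Finset.sdiff_subset), hFc, fun y hy z hz => ?_⟩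
  have h1 := Finset.mem_sdiff.1 (hF hz)
  by_contra hn
  exact h1.2 (Finset.mem_biUnion.2 ⟨y, hy, Finset.mem_filter.2 ⟨h1.1, hn⟩⟩)

/-- (6) -/
theorem six {v u : W} {Z X : Finset W} (hU : UZ H r v Z u) (hX : Indp H X)
    (hXv : ∀ x ∈ X, H.Adj v x) (hXc : X.card = r) (hXZ : Far H X Z) :
    ∃ x ∈ X, H.Adj u x ∧ ∀ y ∈ X, H.Adj u y → y = x := by
  have hr := hA.r2
  have hZc := hU.card
  have hex : ∃ x ∈ X, H.Adj u x := by
    by_contra hno
    push Not at hno
    obtain ⟨z, hz⟩ : Z.Nonempty := by rw [← Finset.card_pos]; omega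
    have huX : u ∉ X := fun h => (hXZ u h z hz).2 (hU.uZ z hz)
    have := hA.bd v (insert u X) (hX.insert hno) (by
      intro x hx
      rcases Finset.mem_insert.1 hx with rfl | hx
      · exact hU.uv.symm
      · exact hXv x hx)
    rw [Finset.card_insert_of_notMem huX] at this
    omega
  obtain ⟨x, hx, hux⟩ := hex
  refine ⟨x, hx, hux, fun y hy huy => ?_⟩
  by_contra hne
  have hxZ : x ∉ Z := fun h => (hXZ x hx x h).1 rfl
  have hyZ : y ∉ insert x Z := by
    intro h
    rcases Finset.mem_insert.1 h with h | h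
    · exact hne h
    · exact (hXZ y hy y h).1 rfl
  have := hA.bd u (insert y (insert x Z)) ((hU.ind.insert (fun z hz => (hXZ x hx z hz).2)).insert
    (by
      intro z hz
      rcases Finset.mem_insert.1 hz with rfl | hz
      · exact hX y hy _ hx
      · exact (hXZ y hy z hz).2)) (by
    intro z hz
    rcases Finset.mem_insert.1 hz with rfl | hz
    · exact huy
    · rcases Finset.mem_insert.1 hz with rfl | hz
      · exact hux
      · exact hU.uZ z hz)
  rw [Finset.card_insert_of_notMem hyZ, Finset.card_insert_of_notMem hxZ] at this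
  omega

/-- `insert v Z` is an independent `r`-set in the neighbourhood of `u`. -/
theorem insZ {v u : W} {Z : Finset W} (hU : UZ H r v Z u) :
    Indp H (insert v Z) ∧ (insert v Z).card = r ∧ ∀ z ∈ insert v Z, H.Adj u z := by
  refine ⟨hU.ind.insert (fun z hz => (hU.far z hz).2), ?_, ?_⟩
  · rw [Finset.card_insert_of_notMem (fun h => (hU.far v h).1 rfl)]
    exact hU.card
  · intro z hz
    rcases Finset.mem_insert.1 hz with rfl | hz
    · exact hU.uv
    · exact hU.uZ z hz

/-- exchange: `u` replaces its unique neighbour in `X`. -/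
theorem exch {v u x : W} {Z X : Finset W} (hU : UZ H r v Z u) (hX : Indp H X)
    (hXv : ∀ x ∈ X, H.Adj v x) (hXc : X.card = r) (hXZ : Far H X Z) (hx : x ∈ X)
    (hux : H.Adj u x) :
    Indp H (insert u (X.erase x)) ∧ (∀ y ∈ insert u (X.erase x), H.Adj v y) ∧
      (insert u (X.erase x)).card = r ∧ u ∉ X ∧ ∀ y ∈ X.erase x, ¬ H.Adj u y := by
  have hr := hA.r2
  have hZc := hU.card
  obtain ⟨z, hz⟩ : Z.Nonempty := by rw [← Finset.card_pos]; omega
  have huX : u ∉ X := fun h => (hXZ u h z hz).2 (hU.uZ z hz)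
  obtain ⟨x', hx', hux', huniq⟩ := hA.six hU hX hXv hXc hXZ
  have hno : ∀ y ∈ X.erase x, ¬ H.Adj u y := by
    intro y hy huy
    rw [Finset.mem_erase] at hy
    exact hy.1 ((huniq y hy.2 huy).trans (huniq x hx hux).symm)
  refine ⟨(hX.subset (Finset.erase_subset _ _)).insert hno, ?_, ?_, huX, hno⟩
  · intro y hy
    rcases Finset.mem_insert.1 hy with rfl | hy
    · exact hU.uv.symm
    · exact hXv y (Finset.mem_of_mem_erase hy)
  · rw [Finset.card_insert_of_notMem (fun h => huX (Finset.mem_of_mem_erase h)),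
      Finset.card_erase_of_mem hx, hXc]
    omega

/-- the standard configuration. -/
theorem config : ∃ v x u : W, ∃ Z X : Finset W, UZ H r v Z u ∧ Indp H X ∧
    (∀ x ∈ X, H.Adj v x) ∧ X.card = r ∧ Far H X Z ∧ x ∈ X ∧ H.Adj u x := by
  have hr := hA.r2
  obtain ⟨v, X, hX, hXv, hXc⟩ := hA.att
  obtain ⟨Z, hZ, hZc, hfar⟩ := hA.far (insert v X) (r - 1)
  obtain ⟨x0, hx0⟩ : X.Nonempty := by rw [← Finset.card_pos]; omega
  obtain ⟨u, hu⟩ := hA.quasi.KF_cn (K := {x0}) (K' := {v}) (F := X.erase x0) (F' := Z)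
    (by simp) (by simp) (by simp) (hX.subset (Finset.erase_subset _ _)) hZ
    (by rw [Finset.card_erase_of_mem hx0, hXc, hZc])
    (by
      intro y hy z hz
      rw [Finset.mem_singleton] at hy
      rw [Finset.mem_erase] at hz
      rw [hy]
      exact ⟨Ne.symm hz.1, hX x0 hx0 z hz.2⟩)
    (hfar.mono (by intro y hy; rw [Finset.mem_singleton] at hy; rw [hy]; simp)
      (Finset.Subset.refl _)) (by simp)
    (by rw [← Finset.card_pos, Finset.card_erase_of_mem hx0]; omega) (u := v)
    (by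
      intro y hy
      rcases Finset.mem_union.1 hy with hy | hy
      · rw [Finset.mem_singleton] at hy; rw [hy]; exact hXv x0 hx0
      · exact hXv y (Finset.mem_of_mem_erase hy))
  have hU : UZ H r v Z u := ⟨hZ, by omega, fun z hz => hfar v (by simp) z hz,
    hu v (by simp), fun z hz => hu z (Finset.mem_union_right _ hz)⟩
  have hXZ : Far H X Z := hfar.mono (Finset.subset_insert _ _) (Finset.Subset.refl _)
  obtain ⟨x, hx, hux, -⟩ := hA.six hU hX hXv hXc hXZ
  exact ⟨v, x, u, Z, X, hU, hX, hXv, hXc, hXZ, hx, hux⟩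

/-- (4) -/
theorem ext {v x : W} {F : Finset W} (hvx : H.Adj v x) (hF : Indp H F) (hFne : F.Nonempty)
    (hfar : Far H {v, x} F) : ∃ X : Finset W, Indp H X ∧ (∀ y ∈ X, H.Adj v y) ∧ X.card = r ∧
      Far H X F ∧ x ∈ X := by
  obtain ⟨v0, x0, u0, Z0, X0, hU, hX0, hX0v, hX0c, hX0Z, hx0, hux0⟩ := hA.config
  obtain ⟨hX1, hX1v, hX1c, hu0X, -⟩ := hA.exch hU hX0 hX0v hX0c hX0Z hx0 hux0
  obtain ⟨hS1, hS1c, hS1u⟩ := hA.insZ hU
  obtain ⟨F0, hF0, hF0c, hF0far⟩ := hA.far (insert v0 Z0 ∪ insert u0 (X0.erase x0)) F.card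
  have hsub1 : insert u0 (X0.erase x0) ⊆ insert v0 Z0 ∪ insert u0 (X0.erase x0) :=
    Finset.subset_union_right
  have hsub2 : insert v0 Z0 ⊆ insert v0 Z0 ∪ insert u0 (X0.erase x0) :=
    Finset.subset_union_left
  obtain ⟨φ, hφF, hφ⟩ := hA.quasi.K2F (p := u0) (q := v0) (F := F0) hU.uv hvx hF0 hF hF0c
    (hF0far.mono (by
      intro y hy
      simp only [Finset.mem_insert, Finset.mem_singleton] at hy
      rcases hy with rfl | rfl
      · exact hsub1 (by simp)
      · exact hsub2 (by simp)) (Finset.Subset.refl _)) hfar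
    (by rw [← Finset.card_pos, hF0c, Finset.card_pos]; exact hFne)
  rcases hφ with ⟨e1, e2⟩ | ⟨e1, e2⟩
  · refine ⟨(insert v0 Z0).image φ, hS1.image φ, ?_, ?_, ?_, ?_⟩
    · intro y hy
      rw [Finset.mem_image] at hy
      obtain ⟨y, hy, rfl⟩ := hy
      rw [← e1, φ.map_adj_iff]
      exact hS1u y hy
    · rw [Finset.card_image_of_injective _ φ.injective]; exact hS1c
    · rw [← hφF]; exact (hF0far.mono hsub2 (Finset.Subset.refl _)).image φ
    · rw [← e2]; exact Finset.mem_image_of_mem _ (by simp)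
  · refine ⟨(insert u0 (X0.erase x0)).image φ, hX1.image φ, ?_, ?_, ?_, ?_⟩
    · intro y hy
      rw [Finset.mem_image] at hy
      obtain ⟨y, hy, rfl⟩ := hy
      rw [← e2, φ.map_adj_iff]
      exact hX1v y hy
    · rw [Finset.card_image_of_injective _ φ.injective]; exact hX1c
    · rw [← hφF]; exact (hF0far.mono hsub1 (Finset.Subset.refl _)).image φ
    · rw [← e1]; exact Finset.mem_image_of_mem _ (by simp)

/-- (E) -/
theorem E {v x : W} {Z : Finset W} (hvx : H.Adj v x) (hZ : Indp H Z) (hZc : Z.card + 1 = r)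
    (hfar : Far H {v, x} Z) : ∃ u, UZ H r v Z u ∧ H.Adj u x := by
  have hr := hA.r2
  obtain ⟨v0, x0, u0, Z0, X0, hU, hX0, hX0v, hX0c, hX0Z, hx0, hux0⟩ := hA.config
  have hZ0c := hU.card
  obtain ⟨u, hu⟩ := hA.quasi.KF_cn (K := {v0, x0}) (K' := {v, x}) (F := Z0) (F' := Z)
    (isClique_pair (hX0v x0 hx0)) (isClique_pair hvx)
    (by rw [Finset.card_pair (hX0v x0 hx0).ne, Finset.card_pair hvx.ne]) hU.ind hZ (by omega)
    (by
      intro y hy z hz
      simp only [Finset.mem_insert, Finset.mem_singleton] at hy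
      rcases hy with rfl | rfl
      · exact hU.far z hz
      · exact hX0Z _ hx0 z hz) hfar (by simp) (by rw [← Finset.card_pos]; omega) (u := u0)
    (by
      intro y hy
      rcases Finset.mem_union.1 hy with hy | hy
      · simp only [Finset.mem_insert, Finset.mem_singleton] at hy
        rcases hy with rfl | rfl
        · exact hU.uv
        · exact hux0
      · exact hU.uZ y hy)
  exact ⟨u, ⟨hZ, hZc, fun z hz => hfar v (by simp) z hz, hu v (by simp),
    fun z hz => hu z (Finset.mem_union_right _ hz)⟩, hu x (by simp)⟩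

/-- lemma A'. -/
theorem A' {v u1 u2 y : W} {Z1 Z2 : Finset W} (h1 : UZ H r v Z1 u1) (h2 : UZ H r v Z2 u2)
    (h12 : Far H Z1 Z2) (hvy : H.Adj v y) (hy1 : ∀ z ∈ Z1, Hᶜ.Adj y z)
    (hy2 : ∀ z ∈ Z2, Hᶜ.Adj y z) (hu1y : H.Adj u1 y) : H.Adj u2 y ↔ H.Adj u2 u1 := by
  have hr := hA.r2
  have hZ1c := h1.card
  have hZ2c := h2.card
  have hne1 : Z1.Nonempty := by rw [← Finset.card_pos]; omega
  obtain ⟨X, hX, hXv, hXc, hXF, hyX⟩ := hA.ext (v := v) (x := y) (F := Z1 ∪ Z2) hvy
    (by
      intro a ha b hb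
      rcases Finset.mem_union.1 ha with ha | ha <;> rcases Finset.mem_union.1 hb with hb | hb
      · exact h1.ind a ha b hb
      · exact (h12 a ha b hb).2
      · exact fun hh => (h12 b hb a ha).2 hh.symm
      · exact h2.ind a ha b hb)
    (hne1.mono Finset.subset_union_left)
    (by
      intro a ha b hb
      simp only [Finset.mem_insert, Finset.mem_singleton] at ha
      rcases ha with rfl | rfl <;> rcases Finset.mem_union.1 hb with hb | hb
      · exact h1.far b hb
      · exact h2.far b hb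
      · exact hy1 b hb
      · exact hy2 b hb)
  have hX1 : Far H X Z1 := hXF.mono (Finset.Subset.refl _) Finset.subset_union_left
  have hX2 : Far H X Z2 := hXF.mono (Finset.Subset.refl _) Finset.subset_union_right
  obtain ⟨hX', hX'v, hX'c, hu1X, hno⟩ := hA.exch h1 hX hXv hXc hX1 hyX hu1y
  -- `u1` is far from `Z2`
  have hu1Z2 : ∀ z ∈ Z2, Hᶜ.Adj u1 z := by
    intro z hz
    refine ⟨by rintro rfl; exact (h2.far _ hz).2 h1.uv.symm, fun hh => ?_⟩
    obtain ⟨k1, k2, k3⟩ := hA.insZ h1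
    have hzn : z ∉ insert v Z1 := by
      intro h
      rcases Finset.mem_insert.1 h with rfl | h
      · exact (h2.far _ hz).1 rfl
      · exact (h12 z h z hz).1 rfl
    have := hA.bd u1 (insert z (insert v Z1)) (k1.insert (by
      intro a ha
      rcases Finset.mem_insert.1 ha with rfl | ha
      · exact fun h => (h2.far z hz).2 h.symm
      · exact fun h => (h12 a ha z hz).2 h.symm)) (by
      intro a ha
      rcases Finset.mem_insert.1 ha with rfl | ha
      · exact hh
      · exact k3 a ha)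
    rw [Finset.card_insert_of_notMem hzn, k2] at this
    omega
  have hX'Z2 : Far H (insert u1 (X.erase y)) Z2 := by
    intro a ha z hz
    rcases Finset.mem_insert.1 ha with rfl | ha
    · exact hu1Z2 z hz
    · exact hX2 a (Finset.mem_of_mem_erase ha) z hz
  obtain ⟨a, ha, hua, haun⟩ := hA.six h2 hX hXv hXc hX2
  obtain ⟨b, hb, hub, hbun⟩ := hA.six h2 hX' hX'v hX'c hX'Z2
  constructor
  · intro h
    have e1 := haun y hyX h
    rcases Finset.mem_insert.1 hb with rfl | hb
    · exact hub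
    · exfalso
      have e2 := haun b (Finset.mem_of_mem_erase hb) hub
      exact (Finset.mem_erase.1 hb).1 (e2.trans e1.symm)
  · intro h
    have e1 := hbun u1 (Finset.mem_insert_self _ _) h
    by_cases hay : a = y
    · rw [← hay]; exact hua
    · exfalso
      have ha' : a ∈ insert u1 (X.erase y) :=
        Finset.mem_insert_of_mem (Finset.mem_erase.2 ⟨hay, ha⟩)
      have e2 := hbun a ha' hua
      exact hu1X (by rw [e1, ← e2]; exact ha)

/-- claim B. -/
theorem B {v x y u1 u2 : W} {Z1 Z2 : Finset W} (h1 : UZ H r v Z1 u1) (h2 : UZ H r v Z2 u2)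
    (hvx : H.Adj v x) (hvy : H.Adj v y) (hx1 : ∀ z ∈ Z1, Hᶜ.Adj x z)
    (hx2 : ∀ z ∈ Z2, Hᶜ.Adj x z) (hy1 : ∀ z ∈ Z1, Hᶜ.Adj y z) (hy2 : ∀ z ∈ Z2, Hᶜ.Adj y z)
    (hu1x : H.Adj u1 x) (hu2x : H.Adj u2 x) (hu1y : H.Adj u1 y) : H.Adj u2 y := by
  have hr := hA.r2
  have hZ1c := h1.card
  obtain ⟨Z3, hZ3, hZ3c, hfar⟩ := hA.far ({v, x, y} ∪ (Z1 ∪ Z2)) (r - 1)
  have s1 : ∀ z ∈ Z3, Hᶜ.Adj v z := fun z hz => hfar v (by simp) z hz
  have s2 : ∀ z ∈ Z3, Hᶜ.Adj x z := fun z hz => hfar x (by simp) z hz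
  have s3 : ∀ z ∈ Z3, Hᶜ.Adj y z := fun z hz => hfar y (by simp) z hz
  have s4 : Far H Z1 Z3 := fun a ha z hz => hfar a (by simp [ha]) z hz
  have s5 : Far H Z3 Z2 := fun z hz a ha => (hfar a (by simp [ha]) z hz).symm
  obtain ⟨u3, h3, hu3x⟩ := hA.E (v := v) (x := x) hvx hZ3 (by omega) (by
    intro a ha z hz
    simp only [Finset.mem_insert, Finset.mem_singleton] at ha
    rcases ha with rfl | rfl
    · exact s1 z hz
    · exact s2 z hz)
  have k1 := (hA.A' h1 h3 s4 hvx hx1 s2 hu1x).1 hu3x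
  have k2 := (hA.A' h1 h3 s4 hvy hy1 s3 hu1y).2 k1
  have k3 := (hA.A' h3 h2 s5 hvx s2 hx2 hu3x).1 hu2x
  exact (hA.A' h3 h2 s5 hvy s3 hy2 k2).2 k3

/-- θ -/
theorem theta {a b c : W} {Z : Finset W} (hab : H.Adj a b) (hac : H.Adj a c) (hbc : H.Adj b c)
    (hZ : Indp H Z) (hZc : Z.card + 1 = r) (hfar : Far H {a, b, c} Z) :
    ∃ u, UZ H r a Z u ∧ H.Adj u b ∧ H.Adj u c := by
  have hr := hA.r2
  obtain ⟨v0, x0, u0, Z0, X0, hU, hX0, hX0v, hX0c, hX0Z, hx0, hux0⟩ := hA.config
  have hZ0c := hU.card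
  obtain ⟨Z', hZ', hZ'c, hfar'⟩ := hA.far ({v0, x0, u0} ∪ Z0) (r - 1)
  have s1 : ∀ z ∈ Z', Hᶜ.Adj v0 z := fun z hz => hfar' v0 (by simp) z hz
  have s2 : ∀ z ∈ Z', Hᶜ.Adj x0 z := fun z hz => hfar' x0 (by simp) z hz
  have s3 : ∀ z ∈ Z', Hᶜ.Adj u0 z := fun z hz => hfar' u0 (by simp) z hz
  have s4 : Far H Z0 Z' := fun a ha z hz => hfar' a (by simp [ha]) z hz
  have hvx := hX0v x0 hx0
  obtain ⟨u', h', hu'x⟩ := hA.E (v := v0) (x := x0) hvx hZ' (by omega) (by
    intro a ha z hz
    simp only [Finset.mem_insert, Finset.mem_singleton] at ha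
    rcases ha with rfl | rfl
    · exact s1 z hz
    · exact s2 z hz)
  have hu'u := (hA.A' hU h' s4 hvx (fun z hz => hX0Z x0 hx0 z hz) s2 hux0).1 hu'x
  obtain ⟨u, hu⟩ := hA.quasi.KF_cn (K := {v0, x0, u0}) (K' := {a, b, c}) (F := Z') (F' := Z)
    (isClique_triple hvx hU.uv.symm hux0.symm) (isClique_triple hab hac hbc)
    (by
      rw [Finset.card_eq_three.2 ⟨v0, x0, u0, hvx.ne, hU.uv.ne.symm, hux0.ne.symm, rfl⟩,
        Finset.card_eq_three.2 ⟨a, b, c, hab.ne, hac.ne, hbc.ne, rfl⟩])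
    hZ' hZ (by omega)
    (by
      intro y hy z hz
      simp only [Finset.mem_insert, Finset.mem_singleton] at hy
      rcases hy with rfl | rfl | rfl
      · exact s1 z hz
      · exact s2 z hz
      · exact s3 z hz) hfar (by simp) (by rw [← Finset.card_pos]; omega) (u := u')
    (by
      intro y hy
      rcases Finset.mem_union.1 hy with hy | hy
      · simp only [Finset.mem_insert, Finset.mem_singleton] at hy
        rcases hy with rfl | rfl | rfl
        · exact h'.uv
        · exact hu'x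
        · exact hu'u
      · exact h'.uZ y hy)
  exact ⟨u, ⟨hZ, hZc, fun z hz => hfar a (by simp) z hz, hu a (by simp),
    fun z hz => hu z (Finset.mem_union_right _ hz)⟩, hu b (by simp), hu c (by simp)⟩

/-- no diamond. -/
theorem no_diamond {v y x w : W} (hvy : H.Adj v y) (hvx : H.Adj v x) (hvw : H.Adj v w)
    (hyx : H.Adj y x) (hyw : H.Adj y w) (hne : x ≠ w) : H.Adj x w := by
  have hr := hA.r2
  by_contra hxw
  obtain ⟨Z, hZ, hZc, hfar⟩ := hA.far {v, y, x, w} (r - 1)
  have s1 : ∀ z ∈ Z, Hᶜ.Adj v z := fun z hz => hfar v (by simp) z hz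
  have s2 : ∀ z ∈ Z, Hᶜ.Adj y z := fun z hz => hfar y (by simp) z hz
  have s3 : ∀ z ∈ Z, Hᶜ.Adj x z := fun z hz => hfar x (by simp) z hz
  have s4 : ∀ z ∈ Z, Hᶜ.Adj w z := fun z hz => hfar w (by simp) z hz
  obtain ⟨ux, h1, k1, k2⟩ := hA.theta hvy hvx hyx hZ (by omega) (by
    intro a ha z hz
    simp only [Finset.mem_insert, Finset.mem_singleton] at ha
    rcases ha with rfl | rfl | rfl
    · exact s1 z hz
    · exact s2 z hz
    · exact s3 z hz)
  obtain ⟨uw, h2, k3, k4⟩ := hA.theta hvy hvw hyw hZ (by omega) (by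
    intro a ha z hz
    simp only [Finset.mem_insert, Finset.mem_singleton] at ha
    rcases ha with rfl | rfl | rfl
    · exact s1 z hz
    · exact s2 z hz
    · exact s4 z hz)
  have k5 := hA.B h1 h2 hvy hvx s2 s2 s3 s3 k1 k3 k2
  have hxZ : x ∉ Z := fun h => (s3 x h).1 rfl
  have hwZ : w ∉ insert x Z := by
    intro h
    rcases Finset.mem_insert.1 h with h | h
    · exact hne h.symm
    · exact (s4 w h).1 rfl
  have := hA.bd uw (insert w (insert x Z)) ((hZ.insert (fun z hz => (s3 z hz).2)).insert (by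
    intro z hz
    rcases Finset.mem_insert.1 hz with rfl | hz
    · exact fun h => hxw h.symm
    · exact (s4 z hz).2)) (by
    intro z hz
    rcases Finset.mem_insert.1 hz with rfl | hz
    · exact k4
    · rcases Finset.mem_insert.1 hz with rfl | hz
      · exact k5
      · exact h2.uZ z hz)
  rw [Finset.card_insert_of_notMem hwZ, Finset.card_insert_of_notMem hxZ] at this
  omega

end AL

end Run7.h901
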