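import Pool.Agent.Run7.h901.Defs

/-!
Step F: CL* and the one-point extension property.
-/

open scoped Classical

namespace Run7.h901

universe u
variable {V : Type u} {G : SimpleGraph V}

theorem cn_cond {C Q : Finset V} {v : V} (hC : v ∈ cn G C) (hQ : v ∈ cn G Q) :
    v ∈ cn G (C ∪ Q) := mem_cn_union.2 ⟨hC, hQ⟩

/-- cliques `C`, `Q` (`Q ⊂ cn C`) and an edge `x y` adjacent to everything: too big. -/
theorem Ctx.no_edge {n : ℕ} (hc : Ctx G n) {a b : ℕ} {C Q : Finset V} (hC : G.IsNClique a C)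
    (hQ : G.IsNClique b Q) (h : ∀ q ∈ Q, q ∈ cn G C) (hab : a + b + 1 = n) {x y : V}
    (hxC : x ∈ cn G C) (hyC : y ∈ cn G C) (hxQ : x ∈ cn G Q) (hyQ : y ∈ cn G Q) :
    ¬ G.Adj x y := by
  intro hxy
  have h1 := join hC hQ h
  have h2 := insert_clique h1 (cn_cond hxC hxQ)
  have h3 := insert_clique h2 (v := y) (mem_cn_insert.2 ⟨hxy.symm, cn_cond hyC hyQ⟩)
  have := hc.card_le h3.1
  rw [h3.2] at this
  omega

/-- no edges between `X` and the `m`-clique `Q`: the union stays `K_{m+1}`-free. -/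
theorem cliqueFreeOn_union {m : ℕ} (hm : 1 ≤ m) {X Q : Finset V}
    (hX : G.CliqueFreeOn (X : Set V) (m + 1)) (hQ : G.IsNClique m Q)
    (h : ∀ x ∈ X, ∀ q ∈ Q, ¬ G.Adj x q) : G.CliqueFreeOn ((X ∪ Q : Finset V) : Set V) (m + 1) := by
  intro T hT hTc
  by_cases h1 : (T : Set V) ⊆ X
  · exact hX h1 hTc
  by_cases h2 : (T : Set V) ⊆ Q
  · have := Finset.card_le_card (Finset.coe_subset.1 h2)
    rw [hTc.2, hQ.2] at this
    omega
  rw [Set.not_subset] at h1 h2
  obtain ⟨a, haT, haX⟩ := h1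
  obtain ⟨b, hbT, hbQ⟩ := h2
  have ha : a ∈ Q := by
    have := hT haT
    simp only [Finset.coe_union, Set.mem_union, Finset.mem_coe] at this haX ⊢
    tauto
  have hb : b ∈ X := by
    have := hT hbT
    simp only [Finset.coe_union, Set.mem_union, Finset.mem_coe] at this hbQ ⊢
    tauto
  have hne : b ≠ a := by
    rintro rfl
    exact haX hb
  exact h b hb a ha (hTc.1 hbT haT hne)

/-- smothering: see P10. -/
def Sm (G : SimpleGraph V) (m : ℕ) (C : Finset V) (a b c : V) : Prop :=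
  ∃ B : Finset V, ∀ Q : Finset V, G.IsNClique m Q → (∀ q ∈ Q, q ∈ cn G (insert a (insert b C))) →
    Disjoint Q B → (∀ x ∈ B, (∀ q ∈ Q, G.Adj x q) ∨ (∀ q ∈ Q, ¬ G.Adj x q)) →
    ∀ q ∈ Q, G.Adj c q

theorem Sm.map {m : ℕ} {C : Finset V} {a b c : V} (h : Sm G m C a b c) (φ : G ≃g G) :
    Sm G m (C.image φ) (φ a) (φ b) (φ c) := by
  obtain ⟨B, hB⟩ := h
  refine ⟨B.image φ, fun Q hQ hQS hQB hmono => ?_⟩
  have hadj : ∀ x y : V, G.Adj (φ.symm x) (φ.symm y) ↔ G.Adj x y := fun x y => φ.symm.map_adj_iff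
  have hadj' : ∀ x y : V, G.Adj x (φ.symm y) ↔ G.Adj (φ x) y := fun x y => by
    rw [← φ.map_adj_iff]; simp
  have key := hB (Q.image φ.symm) ?_ ?_ ?_ ?_
  · intro q hq
    have := key (φ.symm q) (Finset.mem_image_of_mem _ hq)
    rwa [hadj'] at this
  · constructor
    · intro x hx y hy hxy
      rw [Finset.mem_coe, Finset.mem_image] at hx hy
      obtain ⟨x, hx, rfl⟩ := hx
      obtain ⟨y, hy, rfl⟩ := hy
      rw [hadj]
      exact hQ.1 hx hy (fun h => hxy (by rw [h]))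
    · rw [Finset.card_image_of_injective _ φ.symm.injective, hQ.2]
  · intro q hq
    rw [Finset.mem_image] at hq
    obtain ⟨q, hq, rfl⟩ := hq
    have h1 := hQS q hq
    rw [mem_cn_insert, mem_cn_insert] at h1 ⊢
    have h2 : φ.symm q ∈ cn G C := by
      rw [← mem_cn_image φ]; simpa using h1.2.2
    refine ⟨?_, ?_, h2⟩
    · have := h1.1.symm
      rw [← hadj'] at this; exact this.symm
    · have := h1.2.1.symm
      rw [← hadj'] at this; exact this.symm
  · rw [Finset.disjoint_left] at hQB ⊢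
    intro q hq hqB
    rw [Finset.mem_image] at hq
    obtain ⟨q, hq, rfl⟩ := hq
    exact hQB hq (by rw [Finset.mem_image]; exact ⟨_, hqB, by simp⟩)
  · intro x hx
    rcases hmono (φ x) (Finset.mem_image_of_mem _ hx) with h1 | h1
    · left
      intro q hq
      rw [Finset.mem_image] at hq
      obtain ⟨q, hq, rfl⟩ := hq
      rw [hadj']; exact h1 q hq
    · right
      intro q hq
      rw [Finset.mem_image] at hq
      obtain ⟨q, hq, rfl⟩ := hq
      rw [hadj']; exact h1 q hq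

theorem no_Sm {n k m : ℕ} (hc : Ctx G n) (hk : k + m + 1 = n) (h : Hyp G k m)
    {C : Finset V} (hC : G.IsNClique k C) {a b c : V} (hI : Indep3 G a b c) (ha : a ∈ cn G C)
    (hb : b ∈ cn G C) (hcC : c ∈ cn G C) : ¬ Sm G m C a b c := by
  intro hSm
  obtain ⟨c1, hc1, c2, hc2, a', ha', b', hb', h12, hab, h1a, h1b, h2a, h2b⟩ := h.H5 C hC
  obtain ⟨φ, hφC, h3, h4, h5⟩ := h.H4 C hC a b c a' b' c1 hI ⟨hab, h1a.symm, h1b.symm⟩ ha hb hcC
    ha' hb' hc1
  obtain ⟨ψ, hψC, h6, h7, h8⟩ := h.H4 C hC a b c a' b' c2 hI ⟨hab, h2a.symm, h2b.symm⟩ ha hb hcC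
    ha' hb' hc2
  have hS1 := hSm.map φ
  have hS2 := hSm.map ψ
  rw [hφC, h3, h4, h5] at hS1
  rw [hψC, h6, h7, h8] at hS2
  obtain ⟨B1, hB1⟩ := hS1
  obtain ⟨B2, hB2⟩ := hS2
  obtain ⟨Q, hQ, hQS, hQB, hmono⟩ := h.H3 C hC a' ha' b' hb' hab (B1 ∪ B2)
  rw [Finset.disjoint_union_right] at hQB
  have k1 := hB1 Q hQ hQS hQB.1 (fun x hx => hmono x (Finset.mem_union_left _ hx))
  have k2 := hB2 Q hQ hQS hQB.2 (fun x hx => hmono x (Finset.mem_union_right _ hx))
  have hQC : ∀ q ∈ Q, q ∈ cn G C := fun q hq => (mem_cn_insert.1 (mem_cn_insert.1 (hQS q hq)).2).2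
  exact hc.no_edge hC hQ hQC (by omega) hc1 hc2 k1 k2 h12

/-- CL*. -/
theorem CLstar {n k m : ℕ} (hc : Ctx G n) (hk : k + m + 1 = n) (hm : 1 ≤ m) (h : Hyp G k m)
    {C : Finset V} (hC : G.IsNClique k C) :
    ∀ (r : ℕ) (X : Finset V), X.card = r → (∀ x ∈ X, x ∈ cn G C) →
      G.CliqueFreeOn (X : Set V) (m + 1) → ∀ u ∈ cn G C, u ∉ X →
      {v | v ∈ cn G (C ∪ X) ∧ ¬ G.Adj v u}.Infinite := by
  intro r
  induction r using Nat.strong_induction_on with
  | _ r ih =>
  intro X hXr hXN hXfree u hu huX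
  by_contra hfin
  rw [Set.not_infinite] at hfin
  -- (a)
  have stepA : ∀ Q : Finset V, G.IsNClique m Q → (∀ q ∈ Q, q ∈ cn G (insert u C)) →
      ¬ G.CliqueFreeOn ((X ∪ Q : Finset V) : Set V) (m + 1) := by
    intro Q hQ hQS hfree
    have hQC : ∀ q ∈ Q, q ∈ cn G C := fun q hq => (mem_cn_insert.1 (hQS q hq)).2
    have hQu : u ∈ cn G Q := fun q hq => (mem_cn_insert.1 (hQS q hq)).1.symm
    have hinf := h.H1 C hC (X ∪ Q) (by
      intro y hy
      rw [Finset.mem_union] at hy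
      rcases hy with hy | hy
      · exact hXN y hy
      · exact hQC y hy) hfree
    apply hinf
    apply hfin.subset
    intro v hv
    rw [← Finset.union_assoc, mem_cn_union] at hv
    refine ⟨hv.1, fun hvu => ?_⟩
    exact hc.no_edge hC hQ hQC (by omega) (mem_cn_union.1 hv.1).1 hu hv.2 hQu hvu
  by_cases hXu : ∀ x ∈ X, G.Adj x u
  · -- (b)
    obtain ⟨Q, hQ, hQS, hQB, hmono⟩ := h.H2 (insert u C) (insert_clique hC hu) X
    have hQC : ∀ q ∈ Q, q ∈ cn G C := fun q hq => (mem_cn_insert.1 (hQS q hq)).2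
    have hQu : u ∈ cn G Q := fun q hq => (mem_cn_insert.1 (hQS q hq)).1.symm
    refine stepA Q hQ hQS (cliqueFreeOn_union hm hXfree hQ ?_)
    intro x hx
    rcases hmono x hx with h1 | h1
    · exact absurd (hXu x hx) (hc.no_edge hC hQ hQC (by omega) (hXN x hx) hu h1 hQu)
    · exact h1
  · -- (c)
    push Not at hXu
    obtain ⟨d, hdX, hdu⟩ := hXu
    have hcard : (X.erase d).card < r := by
      rw [← hXr]; exact Finset.card_erase_lt_of_mem hdX
    have hsub : X.erase d ⊆ X := Finset.erase_subset _ _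
    have hinf := ih _ hcard (X.erase d) rfl (fun x hx => hXN x (hsub hx))
      (fun T hT => hXfree (hT.trans (Finset.coe_subset.2 hsub))) u hu (fun hh => huX (hsub hh))
    obtain ⟨v0, hv0, hv0'⟩ := (hinf.sdiff (hfin.union ({u, d} : Set V).toFinite)).nonempty
    obtain ⟨hv0X, hv0u⟩ := hv0
    have hv0d : ¬ G.Adj v0 d := by
      intro hh
      apply hv0'
      left
      refine ⟨?_, hv0u⟩
      rw [mem_cn_union] at hv0X ⊢
      refine ⟨hv0X.1, fun x hx => ?_⟩
      by_cases hxd : x = d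
      · rw [hxd]; exact hh
      · exact hv0X.2 x (Finset.mem_erase.2 ⟨hxd, hx⟩)
    have hv0ne : v0 ≠ u ∧ v0 ≠ d := by
      constructor
      · rintro rfl; exact hv0' (Or.inr (by simp))
      · rintro rfl; exact hv0' (Or.inr (by simp))
    have hv0C : v0 ∈ cn G C := (mem_cn_union.1 hv0X).1
    have hv0E : v0 ∈ cn G (X.erase d) := (mem_cn_union.1 hv0X).2
    have hdne : u ≠ d := by rintro rfl; exact huX hdX
    have hI : Indep3 G u v0 d :=
      ⟨⟨hv0ne.1.symm, fun hh => hv0u hh.symm⟩, ⟨hdne, fun hh => hdu hh.symm⟩, ⟨hv0ne.2, hv0d⟩⟩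
    refine no_Sm hc hk h hC hI hu hv0C (hXN d hdX) ⟨X, fun Q hQ hQS hQB hmono => ?_⟩
    have hQC : ∀ q ∈ Q, q ∈ cn G C := fun q hq => (mem_cn_insert.1 (mem_cn_insert.1 (hQS q hq)).2).2
    have hQv0 : v0 ∈ cn G Q := fun q hq => (mem_cn_insert.1 (mem_cn_insert.1 (hQS q hq)).2).1.symm
    rcases hmono d hdX with h1 | h1
    · exact h1
    · exfalso
      refine stepA Q hQ (fun q hq => ?_) (cliqueFreeOn_union hm hXfree hQ ?_)
      · exact mem_cn_insert.2 ⟨(mem_cn_insert.1 (hQS q hq)).1, hQC q hq⟩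
      · intro x hx
        by_cases hxd : x = d
        · rw [hxd]; exact h1
        · rcases hmono x hx with h2 | h2
          · exact absurd (hv0E x (Finset.mem_erase.2 ⟨hxd, hx⟩))
              (hc.no_edge hC hQ hQC (by omega) hv0C (hXN x hx) hQv0 h2)
          · exact h2

theorem P10_EP {n k m : ℕ} (hc : Ctx G n) (hk : k + m + 1 = n) (hm : 1 ≤ m)
    (h : Hyp G k m) : EP G k (m + 1) := by
  intro C hC B X hBN hXB hXfree
  -- auxiliary sets
  have key : ∀ U : Finset V, (∀ u ∈ U, u ∈ B ∧ u ∉ X) → ∃ Y : Finset V, X ⊆ Y ∧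
      (∀ y ∈ Y, y ∈ cn G C) ∧ G.CliqueFreeOn (Y : Set V) (m + 1) ∧
      (∀ x ∈ B, x ∉ X → x ∉ Y) ∧ ∀ v ∈ cn G (C ∪ Y), ∀ u ∈ U, ¬ G.Adj v u := by
    intro U
    induction U using Finset.induction_on with
    | empty =>
      intro _
      exact ⟨X, Finset.Subset.refl _, fun y hy => hBN y (hXB hy), hXfree, fun x _ hx => hx,
        fun v _ u hu => absurd hu (Finset.notMem_empty u)⟩
    | insert u U huU ih =>
      intro hU
      obtain ⟨Y, hXY, hYN, hYfree, hYB, hY⟩ := ih (fun w hw => hU w (Finset.mem_insert_of_mem hw))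
      have hu := hU u (Finset.mem_insert_self _ _)
      have huN := hBN u hu.1
      have hinf := CLstar hc hk hm h hC _ Y rfl hYN hYfree u huN (hYB u hu.1 hu.2)
      obtain ⟨v, hv, hvu'⟩ := (hinf.sdiff (Set.finite_singleton u)).nonempty
      obtain ⟨hvY, hvu⟩ := hv
      have hvne : v ≠ u := hvu'
      obtain ⟨hvC, hvY⟩ := mem_cn_union.1 hvY
      obtain ⟨Q, hQ, hQS, hQB, -⟩ := h.H3 C hC v hvC u huN ⟨hvne, hvu⟩ B
      have hQC : ∀ q ∈ Q, q ∈ cn G C :=
        fun q hq => (mem_cn_insert.1 (mem_cn_insert.1 (hQS q hq)).2).2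
      have hQv : v ∈ cn G Q := fun q hq => (mem_cn_insert.1 (hQS q hq)).1.symm
      have hQu : u ∈ cn G Q :=
        fun q hq => (mem_cn_insert.1 (mem_cn_insert.1 (hQS q hq)).2).1.symm
      refine ⟨Y ∪ Q, hXY.trans Finset.subset_union_left, ?_, ?_, ?_, ?_⟩
      · intro y hy
        rw [Finset.mem_union] at hy
        rcases hy with hy | hy
        · exact hYN y hy
        · exact hQC y hy
      · intro T hT hTc
        have hvYQ : v ∈ cn G (Y ∪ Q) := cn_cond hvY hQv
        have h1 : G.IsNClique (m + 1 + 1) (insert v T) :=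
          insert_clique hTc (fun t ht => hvYQ t (hT ht))
        have h2 := hc.add_le hC h1 (by
          intro t ht
          rw [Finset.mem_insert] at ht
          rcases ht with rfl | ht
          · exact hvC
          · have := hT ht
            rw [Finset.mem_coe, Finset.mem_union] at this
            rcases this with ht | ht
            · exact hYN t ht
            · exact hQC t ht)
        omega
      · intro x hxB hxX hx
        rw [Finset.mem_union] at hx
        rcases hx with hx | hx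
        · exact hYB x hxB hxX hx
        · exact Finset.disjoint_left.1 hQB hx hxB
      · intro w hw u' hu'
        rw [← Finset.union_assoc, mem_cn_union] at hw
        rw [Finset.mem_insert] at hu'
        rcases hu' with rfl | hu'
        · exact hc.no_edge hC hQ hQC (by omega) (mem_cn_union.1 hw.1).1 huN hw.2 hQu
        · exact hY w hw.1 u' hu'
  obtain ⟨Y, hXY, hYN, hYfree, hYB, hY⟩ := key (B \ X) (fun u hu => by
    rw [Finset.mem_sdiff] at hu; exact hu)
  obtain ⟨v, hv, hvB⟩ := ((h.H1 C hC Y hYN hYfree).sdiff B.finite_toSet).nonempty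
  obtain ⟨hvC, hvY⟩ := mem_cn_union.1 hv
  refine ⟨v, hvC, fun hh => hvB hh, fun x hx => hvY x (hXY hx), fun x hxB hxX => ?_⟩
  exact hY v hv x (Finset.mem_sdiff.2 ⟨hxB, hxX⟩)

end Run7.h901
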