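import Pool.Agent.Run7.h901.P5

/-!
The σ-step.
-/

open scoped Classical

namespace Run7.h901

universe u
variable {V : Type u} {G : SimpleGraph V}

/-- `z ≈ z'` -/
def Rel (G : SimpleGraph V) (C : Finset V) (a b c z z' : V) : Prop :=
  ∃ k : G ≃g G, C.image k = C ∧ k a = a ∧ k b = b ∧ k c = c ∧ k z = z'

theorem Rel.refl {C : Finset V} {a b c z : V} : Rel G C a b c z z :=
  ⟨RelIso.refl _, by
    have : ((RelIso.refl G.Adj : G ≃g G) : V → V) = id := rfl
    rw [this, Finset.image_id], rfl, rfl, rfl, rfl⟩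

theorem image_symm {C : Finset V} {k : G ≃g G} (h : C.image k = C) : C.image k.symm = C := by
  conv_lhs => rw [← h]
  rw [Finset.image_image]
  have : (k.symm : V → V) ∘ k = id := by ext v; simp
  rw [this, Finset.image_id]

theorem Rel.symm {C : Finset V} {a b c z z' : V} (h : Rel G C a b c z z') :
    Rel G C a b c z' z := by
  obtain ⟨k, h1, h2, h3, h4, h5⟩ := h
  refine ⟨k.symm, image_symm h1, ?_, ?_, ?_, ?_⟩
  · rw [RelIso.symm_apply_eq]; exact h2.symm
  · rw [RelIso.symm_apply_eq]; exact h3.symm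
  · rw [RelIso.symm_apply_eq]; exact h4.symm
  · rw [RelIso.symm_apply_eq]; exact h5.symm

theorem Rel.trans {C : Finset V} {a b c z z' z'' : V} (h : Rel G C a b c z z')
    (h' : Rel G C a b c z' z'') : Rel G C a b c z z'' := by
  obtain ⟨k, h1, h2, h3, h4, h5⟩ := h
  obtain ⟨k', h1', h2', h3', h4', h5'⟩ := h'
  refine ⟨k.trans k', ?_, ?_, ?_, ?_, ?_⟩
  · have : (k.trans k' : V → V) = k' ∘ k := rfl
    rw [this, ← Finset.image_image, h1, h1']
  · change k' (k a) = a; rw [h2, h2']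
  · change k' (k b) = b; rw [h3, h3']
  · change k' (k c) = c; rw [h4, h4']
  · change k' (k z) = z''; rw [h5, h5']

theorem sigma_rich {n j : ℕ} (hc : Ctx G n) (hj : j + 3 ≤ n) (hD1 : D1 G (n - 2))
    (hinf2 : ∀ C : Finset V, G.IsNClique (n - 2) C → (cn G C).Infinite)
    {C : Finset V} (hC : G.IsNClique j C) {a b c : V} (hI : Indep3 G a b c)
    (ha : a ∈ cn G C) (hb : b ∈ cn G C) (hcC : c ∈ cn G C) :
    (∃ S : Set V, S ⊆ Om G C a b c ∧ S.Infinite ∧ ∀ x ∈ S, ∀ y ∈ S, ¬ G.Adj x y) ∧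
    ∃ Q : Finset V, G.IsNClique (n - 1 - j) Q ∧ ∀ q ∈ Q, q ∈ Om G C a b c := by
  obtain ⟨C0, hC0⟩ := exists_nclique hc (j := n - 2) (by omega)
  obtain ⟨C1, hC1s, hC1c⟩ := Finset.exists_subset_card_eq (s := C0) (n := j)
    (by rw [hC0.2]; omega)
  have hC1 : G.IsNClique j C1 := ⟨hC0.1.subset (by exact_mod_cast hC1s), hC1c⟩
  obtain ⟨e, he⟩ := (hinf2 C0 hC0).nonempty
  have hinf1 : (cn G (C0 ∪ {e})).Infinite := by
    apply hD1 C0 hC0 {e}
    · intro x hx; rw [Finset.mem_singleton] at hx; rw [hx]; exact he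
    · rw [cliqueFreeOn_two_iff]
      intro x hx y hy
      rw [Finset.mem_singleton] at hx hy
      rw [hx, hy]; exact G.irrefl
  have hmem : ∀ x ∈ cn G (C0 ∪ {e}), x ∈ cn G C0 ∧ G.Adj x e := by
    intro x hx
    rw [mem_cn_union] at hx
    exact ⟨hx.1, hx.2 e (Finset.mem_singleton_self e)⟩
  have hJind : ∀ x ∈ cn G (C0 ∪ {e}), ∀ y ∈ cn G (C0 ∪ {e}), ¬ G.Adj x y := by
    intro x hx y hy
    exact no_tri hc (by omega) hC0 he (hmem x hx).1 (hmem y hy).1 (hmem x hx).2.symm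
      (hmem y hy).2.symm
  obtain ⟨p1, hp1⟩ := hinf1.nonempty
  obtain ⟨p2, hp2, h21⟩ := (hinf1.sdiff (Set.finite_singleton p1)).nonempty
  obtain ⟨p3, hp3, h3⟩ := (hinf1.sdiff (Set.toFinite {p1, p2})).nonempty
  have h21 : p2 ≠ p1 := h21
  have h31 : p3 ≠ p1 := fun h => h3 (by simp [h])
  have h32 : p3 ≠ p2 := fun h => h3 (by simp [h])
  have hP : Indep3 G p1 p2 p3 := ⟨⟨h21.symm, hJind _ hp1 _ hp2⟩, ⟨h31.symm, hJind _ hp1 _ hp3⟩,
    ⟨h32.symm, hJind _ hp2 _ hp3⟩⟩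
  have hinfS : (cn G (C0 ∪ {p1, p2, p3})).Infinite := by
    apply hD1 C0 hC0
    · intro x hx
      simp only [Finset.mem_insert, Finset.mem_singleton] at hx
      rcases hx with rfl | rfl | rfl
      · exact (hmem _ hp1).1
      · exact (hmem _ hp2).1
      · exact (hmem _ hp3).1
    · rw [cliqueFreeOn_two_iff]
      intro x hx y hy
      apply hJind
      · simp only [Finset.mem_insert, Finset.mem_singleton] at hx
        rcases hx with rfl | rfl | rfl <;> assumption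
      · simp only [Finset.mem_insert, Finset.mem_singleton] at hy
        rcases hy with rfl | rfl | rfl <;> assumption
  rw [Om_eq] at hinfS
  have hSind : ∀ x ∈ Om G C0 p1 p2 p3, ∀ y ∈ Om G C0 p1 p2 p3, ¬ G.Adj x y := by
    intro x hx y hy
    exact no_tri hc (by omega) hC0 (hmem _ hp1).1 hx.1 hy.1 hx.2.1.symm hy.2.1.symm
  have hsub : Om G C0 p1 p2 p3 ⊆ Om G C1 p1 p2 p3 := fun x hx => ⟨cn_anti hC1s hx.1, hx.2⟩
  obtain ⟨s, hs⟩ := hinfS.nonempty
  have hpC1 : ∀ p ∈ cn G (C0 ∪ {e}), p ∈ cn G C1 := fun p hp => cn_anti hC1s (hmem p hp).1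
  obtain ⟨φ, hφ⟩ := Om_conj hc.sh hC1 hC hP hI (hpC1 _ hp1) (hpC1 _ hp2) (hpC1 _ hp3) ha hb hcC
  refine ⟨⟨φ '' Om G C0 p1 p2 p3, ?_, hinfS.image φ.injective.injOn, ?_⟩, ?_⟩
  · rw [← hφ]; exact Set.image_mono hsub
  · rintro _ ⟨x, hx, rfl⟩ _ ⟨y, hy, rfl⟩
    rw [φ.map_adj_iff]; exact hSind x hx y hy
  · have hD : G.IsNClique (n - 2 - j) (C0 \ C1) := by
      constructor
      · apply hC0.1.subset
        exact_mod_cast Finset.sdiff_subset
      · rw [Finset.card_sdiff_of_subset hC1s, hC0.2, hC1c]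
    have hQ0 : G.IsNClique (n - 1 - j) (insert s (C0 \ C1)) := by
      have h1 := insert_clique hD (v := s) (cn_anti Finset.sdiff_subset hs.1)
      have : n - 2 - j + 1 = n - 1 - j := by omega
      rwa [this] at h1
    refine ⟨(insert s (C0 \ C1)).image φ, ⟨?_, ?_⟩, ?_⟩
    · intro x hx y hy hxy
      rw [Finset.mem_coe, Finset.mem_image] at hx hy
      obtain ⟨x, hx, rfl⟩ := hx
      obtain ⟨y, hy, rfl⟩ := hy
      rw [φ.map_adj_iff]
      exact hQ0.1 hx hy (fun h => hxy (by rw [h]))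
    · rw [Finset.card_image_of_injective _ φ.injective, hQ0.2]
    · intro q hq
      rw [Finset.mem_image] at hq
      obtain ⟨x, hx, rfl⟩ := hq
      rw [← hφ]
      refine ⟨x, ?_, rfl⟩
      rw [Finset.mem_insert] at hx
      rcases hx with rfl | hx
      · exact hsub hs
      · rw [Finset.mem_sdiff] at hx
        refine ⟨?_, ((hmem _ hp1).1 x hx.1).symm, ((hmem _ hp2).1 x hx.1).symm,
          ((hmem _ hp3).1 x hx.1).symm⟩
        intro u hu
        exact hC0.1 hx.1 (hC1s hu) (fun h => hx.2 (h ▸ hu))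

section fam
variable {C : Finset V} {a b c : V}

theorem fam_inj (hI : Indep3 G a b c) {z z' : V} (hz : z ∈ Om G C a b c)
    (hz' : z' ∈ Om G C a b c) (h : Gᶜ.Adj z z') : Function.Injective ![z, z', a, b, c] := by
  have h1 := h.ne
  have h2 := hz.2.1.ne
  have h3 := hz.2.2.1.ne
  have h4 := hz.2.2.2.ne
  have h5 := hz'.2.1.ne
  have h6 := hz'.2.2.1.ne
  have h7 := hz'.2.2.2.ne
  have h8 := hI.1.ne
  have h9 := hI.2.1.ne
  have h10 := hI.2.2.ne
  intro i k
  fin_cases i <;> fin_cases k <;> simp [h1, h1.symm, h2, h2.symm, h3, h3.symm, h4, h4.symm,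
    h5, h5.symm, h6, h6.symm, h7, h7.symm, h8, h8.symm, h9, h9.symm, h10, h10.symm]

theorem fam_adj (hI : Indep3 G a b c) {z z' : V} (hz : z ∈ Om G C a b c)
    (hz' : z' ∈ Om G C a b c) (h : Gᶜ.Adj z z') :
    ∀ i k : Fin 5, G.Adj (![z, z', a, b, c] i) (![z, z', a, b, c] k) ↔
      ((i.val < 2 ∧ 2 ≤ k.val) ∨ (2 ≤ i.val ∧ k.val < 2)) := by
  have h1 := h.2
  have h1' : ¬ G.Adj z' z := fun h => h1 h.symm
  have h2 := hz.2.1
  have h3 := hz.2.2.1
  have h4 := hz.2.2.2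
  have h5 := hz'.2.1
  have h6 := hz'.2.2.1
  have h7 := hz'.2.2.2
  have h8 := hI.1.2
  have h9 := hI.2.1.2
  have h10 := hI.2.2.2
  have h8' : ¬ G.Adj b a := fun h => h8 h.symm
  have h9' : ¬ G.Adj c a := fun h => h9 h.symm
  have h10' : ¬ G.Adj c b := fun h => h10 h.symm
  intro i k
  fin_cases i <;> fin_cases k <;> simp [h1, h1', h2, h2.symm, h3, h3.symm, h4, h4.symm,
    h5, h5.symm, h6, h6.symm, h7, h7.symm, h8, h8', h9, h9', h10, h10']

/-- `T1` for the pattern `K_{2,3}`. -/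
theorem fam_T1 (hG : SetHomogeneous G) {k : ℕ} (hC : G.IsNClique k C) (hI : Indep3 G a b c)
    (ha : a ∈ cn G C) (hb : b ∈ cn G C) (hcC : c ∈ cn G C)
    {z z' w w' : V} (hz : z ∈ Om G C a b c) (hz' : z' ∈ Om G C a b c) (h : Gᶜ.Adj z z')
    (hw : w ∈ Om G C a b c) (hw' : w' ∈ Om G C a b c) (h' : Gᶜ.Adj w w') :
    ∃ (φ : G ≃g G) (σ : Equiv.Perm (Fin 5)), C.image φ = C ∧
      ∀ i, φ (![z, z', a, b, c] i) = ![w, w', a, b, c] (σ i) := by
  apply T1 hG hC.1 hC.1 rfl (fam_inj hI hz hz' h) (fam_inj hI hw hw' h')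
  · intro i k
    rw [fam_adj hI hz hz' h, fam_adj hI hw hw' h']
  · intro i; fin_cases i <;> simp [ha, hb, hcC, hz.1, hz'.1]
  · intro i; fin_cases i <;> simp [ha, hb, hcC, hw.1, hw'.1]
  · intro i
    have key : ∃ k : Fin 5, k ≠ i ∧
      ¬ ((i.val < 2 ∧ 2 ≤ k.val) ∨ (2 ≤ i.val ∧ k.val < 2)) := by
      fin_cases i
      · exact ⟨1, by decide⟩
      · exact ⟨0, by decide⟩
      · exact ⟨3, by decide⟩
      · exact ⟨2, by decide⟩
      · exact ⟨2, by decide⟩
    obtain ⟨k, hk, hk'⟩ := key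
    exact ⟨k, hk, by rwa [fam_adj hI hz hz' h]⟩

theorem perm_K23 (σ : Equiv.Perm (Fin 5))
    (h : ∀ i k : Fin 5, (((σ i).val < 2 ∧ 2 ≤ (σ k).val) ∨ (2 ≤ (σ i).val ∧ (σ k).val < 2)) ↔
      ((i.val < 2 ∧ 2 ≤ k.val) ∨ (2 ≤ i.val ∧ k.val < 2))) :
    ∀ i, (σ i).val < 2 ↔ i.val < 2 := by
  have hne : ∀ i k : Fin 5, i ≠ k → (σ i).val ≠ (σ k).val := fun i k hik h =>
    hik (σ.injective (Fin.ext h))
  have e23 := hne 2 3 (by decide)
  have e24 := hne 2 4 (by decide)
  have e34 := hne 3 4 (by decide)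
  have h02 := (h 0 2).2 (by decide)
  have h03 := (h 0 3).2 (by decide)
  have h04 := (h 0 4).2 (by decide)
  have h12 := (h 1 2).2 (by decide)
  have l0 : (σ 0).val < 2 := by omega
  have l1 : (σ 1).val < 2 := by omega
  have l2 : ¬ (σ 2).val < 2 := by omega
  have l3 : ¬ (σ 3).val < 2 := by omega
  have l4 : ¬ (σ 4).val < 2 := by omega
  intro i
  fin_cases i
  · simpa using l0
  · simpa using l1
  · simpa using l2
  · simpa using l3
  · simpa using l4

end fam

/-- (2), (3): nonadjacent members of `Ω` are equivalent. -/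
theorem rel_of_nadj {k : ℕ} (hG : SetHomogeneous G) {C : Finset V} (hC : G.IsNClique k C)
    {a b c : V} (hI : Indep3 G a b c)
    (ha : a ∈ cn G C) (hb : b ∈ cn G C) (hcC : c ∈ cn G C)
    (hrich : ∃ S : Set V, S ⊆ Om G C a b c ∧ S.Infinite ∧ ∀ x ∈ S, ∀ y ∈ S, ¬ G.Adj x y)
    {w w' : V} (hw : w ∈ Om G C a b c) (hw' : w' ∈ Om G C a b c) (hww : ¬ G.Adj w w') :
    Rel G C a b c w w' := by
  by_cases heq : w = w'
  · rw [heq]; exact Rel.refl
  have h' : Gᶜ.Adj w w' := ⟨heq, hww⟩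
  obtain ⟨S, hS, hSinf, hSind⟩ := hrich
  let z : ℕ → V := fun i => (hSinf.natEmbedding S i : V)
  have hzinj : Function.Injective z := fun i j h => (hSinf.natEmbedding S).injective (Subtype.ext h)
  have hzS : ∀ i, z i ∈ S := fun i => (hSinf.natEmbedding S i).2
  have hzO : ∀ i, z i ∈ Om G C a b c := fun i => hS (hzS i)
  have hzA : ∀ i j, i ≠ j → Gᶜ.Adj (z i) (z j) := fun i j hij =>
    ⟨hzinj.ne hij, hSind _ (hzS i) _ (hzS j)⟩
  -- (2)
  have h2 : ∃ i j, i ≠ j ∧ Rel G C a b c (z i) (z j) := by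
    have hex : ∀ i : ℕ, ∃ (φ : G ≃g G) (σ : Equiv.Perm (Fin 5)), C.image φ = C ∧
      ∀ t, φ (![z 0, z (i + 1), a, b, c] t) = ![z 0, z 1, a, b, c] (σ t) := fun i =>
      fam_T1 hG hC hI ha hb hcC (hzO 0) (hzO (i + 1)) (hzA 0 (i + 1) (by omega)) (hzO 0) (hzO 1)
        (hzA 0 1 (by omega))
    choose g σ hgC hg using hex
    obtain ⟨i, j, hij, hσ⟩ := Finite.exists_ne_map_eq_of_infinite σ
    refine ⟨i + 1, j + 1, by omega, (g i).trans (g j).symm, ?_, ?_, ?_, ?_, ?_⟩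
    · have : ((g i).trans (g j).symm : V → V) = (g j).symm ∘ (g i) := rfl
      rw [this, ← Finset.image_image, hgC, image_symm (hgC j)]
    · change (g j).symm (g i a) = a
      rw [RelIso.symm_apply_eq]
      have h1 := hg i 2
      have h2 := hg j 2
      rw [hσ, ← h2] at h1
      exact h1
    · change (g j).symm (g i b) = b
      rw [RelIso.symm_apply_eq]
      have h1 := hg i 3
      have h2 := hg j 3
      rw [hσ, ← h2] at h1
      exact h1
    · change (g j).symm (g i c) = c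
      rw [RelIso.symm_apply_eq]
      have h1 := hg i 4
      have h2 := hg j 4
      rw [hσ, ← h2] at h1
      exact h1
    · change (g j).symm (g i (z (i + 1))) = z (j + 1)
      rw [RelIso.symm_apply_eq]
      have h1 := hg i 1
      have h2 := hg j 1
      rw [hσ, ← h2] at h1
      exact h1
  -- (3)
  obtain ⟨i, j, hij, kk, hkC, hka, hkb, hkc, hkz⟩ := h2
  obtain ⟨g, σ, hgC, hg⟩ := fam_T1 hG hC hI ha hb hcC (hzO i) (hzO j) (hzA i j hij) hw hw' h'
  have hpat : ∀ s t : Fin 5, (((σ s).val < 2 ∧ 2 ≤ (σ t).val) ∨ (2 ≤ (σ s).val ∧ (σ t).val < 2)) ↔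
      ((s.val < 2 ∧ 2 ≤ t.val) ∨ (2 ≤ s.val ∧ t.val < 2)) := by
    intro s t
    rw [← fam_adj hI hw hw' h', ← fam_adj hI (hzO i) (hzO j) (hzA i j hij), ← hg, ← hg,
      g.map_adj_iff]
  have hσ := perm_K23 σ hpat
  -- `kk` fixes `y t` for `t ≥ 2`
  have hfix : ∀ t : Fin 5, 2 ≤ t.val → kk (![z i, z j, a, b, c] t) = ![z i, z j, a, b, c] t := by
    intro t ht
    fin_cases t
    · simp at ht
    · simp at ht
    · exact hka
    · exact hkb
    · exact hkc
  have hfix' : ∀ t : Fin 5, 2 ≤ t.val →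
      g (kk (g.symm (![w, w', a, b, c] t))) = ![w, w', a, b, c] t := by
    intro t ht
    have h1 := hg (σ.symm t)
    rw [Equiv.apply_symm_apply] at h1
    have h3 : 2 ≤ (σ.symm t).val := by
      have := hσ (σ.symm t)
      rw [Equiv.apply_symm_apply] at this
      omega
    rw [← h1, RelIso.symm_apply_apply, hfix _ h3]
  have hrel : Rel G C a b c (g (z i)) (g (z j)) := by
    refine ⟨(g.symm.trans kk).trans g, ?_, hfix' 2 (by decide), hfix' 3 (by decide),
      hfix' 4 (by decide), ?_⟩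
    · have : (((g.symm.trans kk).trans g : G ≃g G) : V → V) = g ∘ (kk ∘ g.symm) := rfl
      rw [this, ← Finset.image_image, ← Finset.image_image, image_symm hgC, hkC, hgC]
    · change g (kk (g.symm (g (z i)))) = g (z j)
      rw [RelIso.symm_apply_apply, hkz]
  have h0 := hg 0
  have h1 := hg 1
  have hv0 : (σ 0).val < 2 := (hσ 0).2 (by decide)
  have hv1 : (σ 1).val < 2 := (hσ 1).2 (by decide)
  have hne : (σ 0).val ≠ (σ 1).val := fun h => by
    have := σ.injective (Fin.ext h); simp at this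
  rcases Nat.lt_or_ge (σ 0).val 1 with hlt | hge
  · have e0 : σ 0 = 0 := Fin.ext (by simp; omega)
    have e1 : σ 1 = 1 := Fin.ext (by simp; omega)
    rw [e0] at h0; rw [e1] at h1
    have h0' : g (z i) = w := h0
    have h1' : g (z j) = w' := h1
    rwa [h0', h1'] at hrel
  · have e0 : σ 0 = 1 := Fin.ext (by simp; omega)
    have e1 : σ 1 = 0 := Fin.ext (by simp; omega)
    rw [e0] at h0; rw [e1] at h1
    have h0' : g (z i) = w' := h0
    have h1' : g (z j) = w := h1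
    rw [h0', h1'] at hrel
    exact hrel.symm

/-- (4): all of `Ω` is one class. -/
theorem rel_all {n j : ℕ} (hc : Ctx G n) (hj : j + 3 ≤ n) (hgood : Good G (n - 2))
    (hD1 : D1 G (n - 2)) {C : Finset V} (hC : G.IsNClique j C) {a b c : V} (hI : Indep3 G a b c)
    (ha : a ∈ cn G C) (hb : b ∈ cn G C) (hcC : c ∈ cn G C) {z z' : V}
    (hz : z ∈ Om G C a b c) (hz' : z' ∈ Om G C a b c) : Rel G C a b c z z' := by
  obtain ⟨hrich, Q, hQ, hQO⟩ := sigma_rich hc hj hD1 (fun C hC => (hgood C hC).1) hC hI ha hb hcC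
  have hnadj : ∀ w ∈ Om G C a b c, ∀ w' ∈ Om G C a b c, ¬ Rel G C a b c w w' → G.Adj w w' := by
    intro w hw w' hw' hR
    by_contra h
    exact hR (rel_of_nadj hc.sh hC hI ha hb hcC hrich hw hw' h)
  by_contra hR
  -- clique bound in `Ω`
  have hbound : ∀ (r : ℕ) (T : Finset V), G.IsNClique r T → (∀ t ∈ T, t ∈ Om G C a b c) →
      r + j + 1 ≤ n := by
    intro r T hT hTO
    have h1 := hc.add_le (insert_clique hC ha) hT
      (fun t ht => mem_cn_insert.2 ⟨(hTO t ht).2.1, (hTO t ht).1⟩)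
    omega
  have hq : ∃ q ∈ Q, Rel G C a b c z q := by
    by_contra hno
    push Not at hno
    have h1 := insert_clique hQ (v := z) (fun q hq => hnadj z hz q (hQO q hq) (hno q hq))
    have := hbound _ _ h1 (by
      intro t ht
      rw [Finset.mem_insert] at ht
      rcases ht with rfl | ht
      · exact hz
      · exact hQO t ht)
    omega
  have hq' : ∃ q ∈ Q, ¬ Rel G C a b c z q := by
    by_contra hno
    push Not at hno
    have h1 := insert_clique hQ (v := z') (fun q hq => hnadj z' hz' q (hQO q hq)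
      (fun h => hR ((hno q hq).trans h.symm)))
    have := hbound _ _ h1 (by
      intro t ht
      rw [Finset.mem_insert] at ht
      rcases ht with rfl | ht
      · exact hz'
      · exact hQO t ht)
    omega
  obtain ⟨q, hqQ, hqR⟩ := hq
  obtain ⟨q', hq'Q, hq'R⟩ := hq'
  have hqq : q ≠ q' := by rintro rfl; exact hq'R hqR
  have hqadj : G.Adj q q' := hQ.1 hqQ hq'Q hqq
  have hD : G.IsNClique (n - 3 - j) ((Q.erase q).erase q') := by
    have h1 := (hQ.erase_of_mem hqQ).erase_of_mem (Finset.mem_erase.2 ⟨hqq.symm, hq'Q⟩)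
    have : n - 1 - j - 1 - 1 = n - 3 - j := by omega
    rwa [this] at h1
  set D := (Q.erase q).erase q' with hDdef
  have hDQ : D ⊆ Q := (Finset.erase_subset _ _).trans (Finset.erase_subset _ _)
  have hqD : q ∈ cn G D := by
    intro u hu
    rw [hDdef, Finset.mem_erase, Finset.mem_erase] at hu
    exact hQ.1 hqQ hu.2.2 (Ne.symm hu.2.1)
  have hq'D : q' ∈ cn G D := by
    intro u hu
    rw [hDdef, Finset.mem_erase, Finset.mem_erase] at hu
    exact hQ.1 hq'Q hu.2.2 (Ne.symm hu.1)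
  have hCp : G.IsNClique (n - 3) (C ∪ D) := by
    have h1 := join hC hD (fun q hq => (hQO q (hDQ hq)).1)
    have : j + (n - 3 - j) = n - 3 := by omega
    rwa [this] at h1
  have e1 : n - 3 + 1 = n - 2 := by omega
  have hOmem : ∀ x ∈ cn G (C ∪ D ∪ {a, b, c}), x ∈ Om G C a b c ∧ x ∈ cn G D := by
    intro x hx
    rw [Om_eq] at hx
    obtain ⟨h1, h2⟩ := hx
    rw [mem_cn_union] at h1
    exact ⟨⟨h1.1, h2⟩, h1.2⟩
  refine P5_block hc (k := n - 3) (by omega) (by rw [e1]; exact hgood) (by rw [e1]; exact hD1)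
    hCp hI (mem_cn_union.2 ⟨ha, fun u hu => (hQO u (hDQ hu)).2.1.symm⟩)
    (mem_cn_union.2 ⟨hb, fun u hu => (hQO u (hDQ hu)).2.2.1.symm⟩)
    (mem_cn_union.2 ⟨hcC, fun u hu => (hQO u (hDQ hu)).2.2.2.symm⟩) ?_ ?_
  · intro x hx y hy w hw hxy hyw hxw
    obtain ⟨hxO, hxD⟩ := hOmem x hx
    obtain ⟨hyO, hyD⟩ := hOmem y hy
    obtain ⟨hwO, hwD⟩ := hOmem w hw
    have r1 := rel_of_nadj hc.sh hC hI ha hb hcC hrich hxO hyO hxy
    have r2 := rel_of_nadj hc.sh hC hI ha hb hcC hrich hyO hwO hyw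
    have r3 := r1.trans r2
    -- a member of `Q` in the other class
    have hother : ∃ t ∈ Om G C a b c, t ∈ cn G D ∧ ¬ Rel G C a b c x t := by
      by_cases hzx : Rel G C a b c z x
      · exact ⟨q', hQO q' hq'Q, hq'D, fun h => hq'R (hzx.trans h)⟩
      · exact ⟨q, hQO q hqQ, hqD, fun h => hzx (hqR.trans h.symm)⟩
    obtain ⟨t, htO, htD, htx⟩ := hother
    have hxt : G.Adj x t := hnadj x hxO t htO htx
    have hwt : G.Adj w t := hnadj w hwO t htO (fun h => htx (r3.trans h))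
    have h1 := insert_clique (insert_clique (insert_clique hD htD) (v := w)
      (mem_cn_insert.2 ⟨hwt, hwD⟩)) (v := x)
      (mem_cn_insert.2 ⟨hxw, mem_cn_insert.2 ⟨hxt, hxD⟩⟩)
    have := hbound _ _ h1 (by
      intro s hs
      rw [Finset.mem_insert, Finset.mem_insert, Finset.mem_insert] at hs
      rcases hs with rfl | rfl | rfl | hs
      · exact hxO
      · exact hwO
      · exact htO
      · exact hQO s (hDQ hs))
    omega
  · refine ⟨q, ?_, q', ?_, hqadj⟩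
    · rw [Om_eq]; exact ⟨mem_cn_union.2 ⟨(hQO q hqQ).1, hqD⟩, (hQO q hqQ).2⟩
    · rw [Om_eq]; exact ⟨mem_cn_union.2 ⟨(hQO q' hq'Q).1, hq'D⟩, (hQO q' hq'Q).2⟩

theorem P6_sigma_succ {n j : ℕ} (hc : Ctx G n) (hj : j + 3 ≤ n) (hgood : Good G (n - 2))
    (hD1 : D1 G (n - 2)) (hs : Sigma3 G j) : Sigma3 G (j + 1) := by
  intro C' hC' a b c a' b' c' hI hI' ha hb hcC ha' hb' hc'
  obtain ⟨z, hz⟩ : C'.Nonempty := by rw [← Finset.card_pos, hC'.2]; omega
  have hE : G.IsNClique j (C'.erase z) := by simpa using hC'.erase_of_mem hz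
  set C := C'.erase z with hCdef
  have hsub : C ⊆ C' := Finset.erase_subset _ _
  have hzC : z ∈ cn G C := by
    intro u hu
    rw [hCdef, Finset.mem_erase] at hu
    exact hC'.1 hz hu.2 hu.1.symm
  have hins : insert z C = C' := Finset.insert_erase hz
  obtain ⟨φ, hφC, h1, h2, h3⟩ := hs C hE a b c a' b' c' hI hI' (cn_anti hsub ha) (cn_anti hsub hb)
    (cn_anti hsub hcC) (cn_anti hsub ha') (cn_anti hsub hb') (cn_anti hsub hc')
  have hzO : z ∈ Om G C a' b' c' := ⟨hzC, (ha' z hz).symm, (hb' z hz).symm, (hc' z hz).symm⟩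
  have hφz : φ z ∈ Om G C a' b' c' := by
    refine ⟨?_, ?_, ?_, ?_⟩
    · rw [← hφC, mem_cn_image]; exact hzC
    · rw [← h1, φ.map_adj_iff]; exact (ha z hz).symm
    · rw [← h2, φ.map_adj_iff]; exact (hb z hz).symm
    · rw [← h3, φ.map_adj_iff]; exact (hcC z hz).symm
  obtain ⟨k, hkC, k1, k2, k3, k4⟩ := rel_all hc hj hgood hD1 hE hI' (cn_anti hsub ha')
    (cn_anti hsub hb') (cn_anti hsub hc') hφz hzO
  refine ⟨φ.trans k, ?_, ?_, ?_, ?_⟩
  · rw [← hins, Finset.image_insert]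
    have : ((φ.trans k : G ≃g G) : V → V) = k ∘ φ := rfl
    rw [this, ← Finset.image_image, hφC, hkC]
    change insert (k (φ z)) C = _
    rw [k4]
  · change k (φ a) = a'; rw [h1, k1]
  · change k (φ b) = b'; rw [h2, k2]
  · change k (φ c) = c'; rw [h3, k3]

/-- σ at all levels `j ≤ n - 2`. -/
theorem sigma_all {n : ℕ} (hc : Ctx G n) (hgood : Good G (n - 2))
    (hD1 : D1 G (n - 2)) (hs : Sigma3 G 0) : ∀ j, j + 2 ≤ n → Sigma3 G j := by
  intro j
  induction j with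
  | zero => intro _; exact hs
  | succ j ih => intro hj; exact P6_sigma_succ hc (by omega) hgood hD1 (ih (by omega))

end Run7.h901
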