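import Pool.Agent.Run7.h901.C3
import Pool.Agent.Run7.h901.P10
import Pool.Agent.Run7.h901.P6

/-!
The abstract results applied to common neighbourhoods of cliques.
-/

open scoped Classical

namespace Run7.h901

universe u
variable {V : Type u} {G : SimpleGraph V}

/-- restriction of an automorphism to a stable set. -/
def restrictIso (φ : G ≃g G) {S : Set V} (h : φ '' S = S) : G.induce S ≃g G.induce S where
  toEquiv := (φ.toEquiv.image S).trans (Equiv.setCongr h)
  map_rel_iff' := by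
    intro a b
    exact φ.map_adj_iff

theorem restrictIso_apply (φ : G ≃g G) {S : Set V} (h : φ '' S = S) (x : S) :
    ((restrictIso φ h x : S) : V) = φ x := rfl

theorem quasi_induce (hG : SetHomogeneous G) {C : Finset V} (hC : G.IsClique (C : Set V)) :
    Quasi (G.induce (cn G C)) := by
  intro r y y' hy hy' h hun
  obtain ⟨φ, σ, h1, h2⟩ := T1 hG hC hC rfl (ι := Fin r) (y := fun i => (y i : V))
    (y' := fun i => (y' i : V)) (fun i j hij => hy (Subtype.ext hij))
    (fun i j hij => hy' (Subtype.ext hij)) (fun i j => h i j)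
    (fun i => (y i).2) (fun i => (y' i).2) (fun i => hun i)
  have h3 : φ '' cn G C = cn G C := by rw [← cn_image, h1]
  exact ⟨restrictIso φ h3, σ, fun i => Subtype.ext (h2 i)⟩

theorem cn_induce {C : Finset V} {I : Finset (cn G C)} :
    cn (G.induce (cn G C)) I = Subtype.val ⁻¹' cn G (C ∪ I.map (Function.Embedding.subtype _)) := by
  ext w
  rw [Set.mem_preimage, mem_cn_union]
  constructor
  · intro h
    refine ⟨w.2, fun u hu => ?_⟩
    rw [Finset.mem_map] at hu
    obtain ⟨u, hu, rfl⟩ := hu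
    exact h u hu
  · rintro ⟨-, h⟩ u hu
    exact h _ (Finset.mem_map_of_mem _ hu)

theorem TF_of {n k : ℕ} (hc : Ctx G n) (hk : k + 2 = n) (hgood : Good G k) {C : Finset V}
    (hC : G.IsNClique k C) : TF (G.induce (cn G C)) where
  quasi := quasi_induce hc.sh hC.1
  tri := fun x y z hxy hxz => no_tri hc hk hC x.2 y.2 z.2 hxy hxz
  d1 := by
    intro I hI
    rw [cn_induce]
    apply Set.Infinite.preimage
    · apply P3_D1 hc hk hgood C hC
      · intro x hx
        rw [Finset.mem_map] at hx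
        obtain ⟨x, -, rfl⟩ := hx
        exact x.2
      · rw [cliqueFreeOn_two_iff]
        intro x hx y hy
        rw [Finset.mem_map] at hx hy
        obtain ⟨x, hx, rfl⟩ := hx
        obtain ⟨y, hy, rfl⟩ := hy
        exact hI x hx y hy
    · intro v hv
      exact ⟨⟨v, (mem_cn_union.1 hv).1⟩, rfl⟩
  k12 := by
    obtain ⟨-, -, a, ha, b, hb, c, hcc, h1, h2, h3⟩ := hgood C hC
    refine ⟨⟨a, ha⟩, trivial, ⟨b, hb⟩, trivial, ⟨c, hcc⟩, trivial, h1, ?_, ?_⟩
    · exact ⟨fun h => h2.1 (congrArg Subtype.val h), h2.2⟩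
    · exact ⟨fun h => h3.1 (congrArg Subtype.val h), h3.2⟩
  d2 := by
    obtain ⟨c1, hc1, c2, hc2, a, ha, b, hb, h12, hab, h1a, h1b, h2a, h2b⟩ := P4_D2 hc hk hgood C hC
    have key : ∀ x y : cn G C, Gᶜ.Adj x.1 y.1 → (G.induce (cn G C))ᶜ.Adj x y :=
      fun x y h => ⟨fun hh => h.1 (congrArg Subtype.val hh), h.2⟩
    exact ⟨⟨c1, hc1⟩, ⟨c2, hc2⟩, ⟨a, ha⟩, ⟨b, hb⟩, h12, key _ _ hab, key _ _ h1a, key _ _ h1b,
      key _ _ h2a, key _ _ h2b⟩

theorem compl_induce {S : Set V} {x y : S} : (G.induce S)ᶜ.Adj x y ↔ Gᶜ.Adj x.1 y.1 := by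
  simp only [SimpleGraph.compl_adj, ne_eq, Subtype.ext_iff]
  rfl

theorem indep_induce {S : Set V} {a b c : S} :
    Indep3 (G.induce S) a b c ↔ Indep3 G a.1 b.1 c.1 := by
  simp only [Indep3, compl_induce]

/-- no smothering at level `k` with parameter `m`. -/
def NoSm (G : SimpleGraph V) (k m : ℕ) : Prop :=
  ∀ C : Finset V, G.IsNClique k C → ∀ a b c : V, Indep3 G a b c → a ∈ cn G C → b ∈ cn G C →
    c ∈ cn G C → ¬ Sm G m C a b c

theorem wmid_of_Sm {C : Finset V} {a b c : V} (ha : a ∈ cn G C) (hb : b ∈ cn G C)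
    (hc : c ∈ cn G C) (h : Sm G 1 C a b c) :
    WMid (G.induce (cn G C)) ⟨a, ha⟩ ⟨c, hc⟩ ⟨b, hb⟩ := by
  obtain ⟨B, hB⟩ := h
  refine ⟨B.subtype (· ∈ cn G C), fun q hqB hqa hqb => ?_⟩
  have := hB {q.1} (by rw [SimpleGraph.isNClique_one]; exact ⟨_, rfl⟩) ?_ ?_ ?_ q.1 (by simp)
  · exact this.symm
  · intro x hx
    rw [Finset.mem_singleton] at hx
    rw [hx]
    exact mem_cn_insert.2 ⟨hqa, mem_cn_insert.2 ⟨hqb, q.2⟩⟩
  · rw [Finset.disjoint_singleton_left]
    intro hq
    exact hqB (by rw [Finset.mem_subtype]; exact hq)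
  · intro x _
    by_cases hxq : G.Adj x q.1
    · left; intro y hy; rw [Finset.mem_singleton] at hy; rw [hy]; exact hxq
    · right; intro y hy; rw [Finset.mem_singleton] at hy; rw [hy]; exact hxq

/-- if some common neighbourhood of an `(n-2)`-clique has a middle then they all do. -/
theorem Mid_all {n k : ℕ} (hc : Ctx G n) (hk : k + 2 = n) (hgood : Good G k)
    (h : ¬ NoSm G k 1) : ∀ C : Finset V, G.IsNClique k C → Mid (G.induce (cn G C)) := by
  unfold NoSm at h
  push Not at h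
  obtain ⟨C, hC, a, b, c, hI, ha, hb, hcc, hS⟩ := h
  intro C' hC'
  refine { toTF := TF_of hc hk hgood hC', mid := ?_ }
  obtain ⟨φ, h1, h2⟩ := clique_conj hc.sh hC hC'
  have hS' := hS.map φ
  rw [h1] at hS'
  have ha' : φ a ∈ cn G C' := by rw [← h2]; exact ⟨a, ha, rfl⟩
  have hb' : φ b ∈ cn G C' := by rw [← h2]; exact ⟨b, hb, rfl⟩
  have hc' : φ c ∈ cn G C' := by rw [← h2]; exact ⟨c, hcc, rfl⟩
  refine ⟨⟨φ a, ha'⟩, ⟨φ c, hc'⟩, ⟨φ b, hb'⟩, ?_, wmid_of_Sm ha' hb' hc' hS'⟩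
  rw [indep_induce]
  exact ((Indep3.map φ).2 hI).swap23

/-- no middles when the clique number is at least `3`. -/
theorem noSm_base {n : ℕ} (hc : Ctx G n) (hn : 3 ≤ n) (h0 : Good G 0) : NoSm G (n - 2) 1 := by
  by_contra hcon
  have hk : n - 2 + 2 = n := by omega
  have hgood := good_all hc h0 (n - 2) (by omega)
  have hD1 := P3_D1 hc hk hgood
  have hmid := Mid_all hc hk hgood hcon
  obtain ⟨C, hC⟩ := exists_nclique hc (j := n - 3) (by omega)
  have hL : L3 (G.induce (cn G C)) := by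
    refine ⟨quasi_induce hc.sh hC.1, ?_, ?_, ?_⟩
    · intro a b c v v' hI hv hv'
      have hI' := indep_induce.1 hI
      obtain ⟨k, h1, h2, h3, h4, h5⟩ := rel_all hc (j := n - 3) (by omega) hgood hD1 hC hI' a.2 b.2
        c.2 (z := v.1) (z' := v'.1) ⟨v.2, hv⟩ ⟨v'.2, hv'⟩
      have h6 : k '' cn G C = cn G C := by rw [← cn_image, h1]
      exact ⟨restrictIso k h6, Subtype.ext h2, Subtype.ext h3, Subtype.ext h4, Subtype.ext h5⟩
    · intro a b c hI
      have hI' := indep_induce.1 hI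
      obtain ⟨-, Q, hQ, hQO⟩ := sigma_rich hc (j := n - 3) (by omega) hD1
        (fun C hC => (hgood C hC).1) hC hI' a.2 b.2 c.2
      have hne : Q.Nonempty := by rw [← Finset.card_pos, hQ.2]; omega
      obtain ⟨q, hq⟩ := hne
      obtain ⟨h1, h2, h3, h4⟩ := hQO q hq
      exact ⟨⟨q, h1⟩, h2, h3, h4⟩
    · intro v
      have hvC := insert_clique hC v.2
      have hvC' : G.IsNClique (n - 2) (insert v.1 C) := by
        have : n - 3 + 1 = n - 2 := by omega
        rw [← this]; exact hvC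
      refine ⟨cn G (insert v.1 C), G.induce _,
        ⟨⟨fun x => ⟨x.1, (mem_cn_insert.1 x.2).2⟩, fun x y hxy => Subtype.ext ?_⟩, ?_⟩, ?_,
        hmid _ hvC'⟩
      · have h3 : (⟨x.1, _⟩ : cn G C) = ⟨y.1, _⟩ := hxy
        exact congrArg (fun z : cn G C => z.1) h3
      · intro x y; rfl
      · intro x
        constructor
        · intro h
          exact ⟨⟨x.1, mem_cn_insert.2 ⟨h.symm, x.2⟩⟩, rfl⟩
        · rintro ⟨x', rfl⟩
          exact ((mem_cn_insert.1 x'.2).1).symm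
  obtain ⟨v, hv⟩ := hc.ext hC (by omega)
  have : Nonempty (cn G C) := ⟨⟨v, hv⟩⟩
  exact hL.absurd

end Run7.h901
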