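import Pool.Agent.Run7.h901.GQ
import Pool.Agent.Run7.h901.C4

/-!
Bounded independent sets in common neighbourhoods of `i`-cliques.
-/

open scoped Classical

namespace Run7.h901

universe u
variable {V : Type u} {G : SimpleGraph V}

/-- independent sets in the common neighbourhoods of `i`-cliques have at most `N` elements. -/
def BddAt (G : SimpleGraph V) (i N : ℕ) : Prop :=
  ∀ C : Finset V, G.IsNClique i C → ∀ I : Finset V, Indp G I → (∀ x ∈ I, x ∈ cn G C) → I.card ≤ N

/-- set-homogeneous with cliques of all finite sizes. -/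
structure Rch (G : SimpleGraph V) : Prop where
  sh : SetHomogeneous G
  cl : ∀ n, ∃ C : Finset V, G.IsNClique n C

theorem Rch.extend (hc : Rch G) {k : ℕ} (r : ℕ) {C : Finset V} (hC : G.IsNClique k C) :
    ∃ Q : Finset V, G.IsNClique r Q ∧ ∀ q ∈ Q, q ∈ cn G C := by
  obtain ⟨K, hK⟩ := hc.cl (k + r)
  obtain ⟨C', hC'K, hC'card⟩ := Finset.exists_subset_card_eq (s := K) (n := k)
    (by rw [hK.2]; omega)
  have hC' : G.IsNClique k C' := ⟨hK.1.subset (by exact_mod_cast hC'K), hC'card⟩
  obtain ⟨φ, hφ, h2⟩ := clique_conj hc.sh hC' hC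
  obtain ⟨Q, hQK, hQcard⟩ := Finset.exists_subset_card_eq (s := K \ C') (n := r)
    (by rw [Finset.card_sdiff_of_subset hC'K, hK.2, hC'card]; omega)
  refine ⟨Q.image φ, ⟨?_, ?_⟩, ?_⟩
  · intro x hx y hy hxy
    rw [Finset.mem_coe, Finset.mem_image] at hx hy
    obtain ⟨x, hx, rfl⟩ := hx
    obtain ⟨y, hy, rfl⟩ := hy
    rw [φ.map_adj_iff]
    apply hK.1 (Finset.mem_sdiff.1 (hQK hx)).1 (Finset.mem_sdiff.1 (hQK hy)).1
    rintro rfl
    exact hxy rfl
  · rw [Finset.card_image_of_injective _ φ.injective, hQcard]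
  · intro q hq
    rw [Finset.mem_image] at hq
    obtain ⟨x, hx, rfl⟩ := hq
    rw [← h2]
    refine ⟨x, ?_, rfl⟩
    intro c hc'
    have h3 := Finset.mem_sdiff.1 (hQK hx)
    apply hK.1 h3.1 (hC'K hc')
    rintro rfl
    exact h3.2 hc'

theorem Rch.infinite (hc : Rch G) {k : ℕ} {C : Finset V} (hC : G.IsNClique k C) :
    (cn G C).Infinite := by
  intro hfin
  obtain ⟨Q, hQ, h⟩ := hc.extend (hfin.toFinset.card + 1) hC
  have : Q.card ≤ hfin.toFinset.card := Finset.card_le_card (fun q hq => by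
    rw [Set.Finite.mem_toFinset]; exact h q hq)
  rw [hQ.2] at this
  omega

/-- transport of independent sets in common neighbourhoods of cliques. -/
theorem indp_conj (hG : SetHomogeneous G) {k : ℕ} {C C' : Finset V} (hC : G.IsNClique k C)
    (hC' : G.IsNClique k C') {I : Finset V} (hI : Indp G I) (h : ∀ x ∈ I, x ∈ cn G C) :
    ∃ I' : Finset V, Indp G I' ∧ I'.card = I.card ∧ ∀ x ∈ I', x ∈ cn G C' := by
  obtain ⟨φ, -, h2⟩ := clique_conj hG hC hC'
  refine ⟨I.image φ, hI.image φ, Finset.card_image_of_injective _ φ.injective, ?_⟩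
  intro x hx
  rw [Finset.mem_image] at hx
  obtain ⟨x, hx, rfl⟩ := hx
  rw [← h2]
  exact ⟨x, h x hx, rfl⟩

/-- the `GQ` lemma inside the common neighbourhood of a clique. -/
theorem GQ_level (hc : Rch G) {k : ℕ} {C : Finset V} (hC : G.IsNClique k C)
    (nd : ∀ v x y z : cn G C, G.Adj v x → G.Adj v y → G.Adj v z → G.Adj x y → G.Adj y z →
      x ≠ z → G.Adj x z)
    (na : ∀ v : cn G C, ∃ a b : cn G C, G.Adj v a ∧ G.Adj v b ∧ Gᶜ.Adj a b) : False := by
  obtain ⟨v, hv⟩ := (hc.infinite hC).nonempty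
  refine GQ (H := G.induce (cn G C)) (quasi_induce hc.sh hC.1) nd ?_ ?_ ⟨v, hv⟩
  · intro v
    obtain ⟨a, b, h1, h2, h3⟩ := na v
    exact ⟨a, b, h1, h2, compl_induce.2 h3⟩
  · intro v x hvx
    have h1 : G.IsNClique (k + 1) (insert v.1 C) := insert_clique hC v.2
    have h2 : G.IsNClique (k + 2) (insert x.1 (insert v.1 C)) :=
      insert_clique h1 (mem_cn_insert.2 ⟨(show G.Adj x.1 v.1 from hvx.symm), x.2⟩)
    have h3 := hc.infinite h2
    have h4 : (Subtype.val ⁻¹' cn G (insert x.1 (insert v.1 C)) : Set (cn G C)).Infinite := by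
      apply h3.preimage
      intro w hw
      rw [mem_cn_insert, mem_cn_insert] at hw
      exact ⟨⟨w, hw.2.2⟩, rfl⟩
    refine h4.mono ?_
    intro w hw
    rw [Set.mem_preimage, mem_cn_insert, mem_cn_insert] at hw
    exact ⟨hw.2.1, hw.1⟩

theorem indp_pair {a b : V} (h : Gᶜ.Adj a b) : Indp G {a, b} := by
  intro x hx y hy
  simp only [Finset.mem_insert, Finset.mem_singleton] at hx hy
  rcases hx with rfl | rfl <;> rcases hy with rfl | rfl
  · exact G.irrefl
  · exact h.2
  · exact h.symm.2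
  · exact G.irrefl

/-- **Theorem α.** -/
theorem alpha (hc : Rch G) (hI : ∀ n, ∃ I : Finset V, Indp G I ∧ I.card = n)
    (hb : ∃ i N, BddAt G i N) : ¬ HasP3 G Set.univ := by
  have hex : ∃ i, ∃ N, BddAt G i N := hb
  have hspec := Nat.find_spec hex
  obtain ⟨j, hj⟩ : ∃ j, Nat.find hex = j + 1 := by
    apply Nat.exists_eq_succ_of_ne_zero
    intro h0
    rw [h0] at hspec
    obtain ⟨N, hN⟩ := hspec
    obtain ⟨I, hI, hIc⟩ := hI (N + 1)
    have := hN ∅ (by simp) I hI (by simp)
    omega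
  rw [hj] at hspec
  have hmin : ¬ ∃ N, BddAt G j N := Nat.find_min hex (by omega)
  -- independent sets of all sizes above `j`-cliques
  have hbig : ∀ C : Finset V, G.IsNClique j C → ∀ s : ℕ, ∃ I : Finset V, Indp G I ∧ I.card = s ∧
      ∀ x ∈ I, x ∈ cn G C := by
    intro C hC s
    have h1 : ¬ BddAt G j s := fun h => hmin ⟨s, h⟩
    unfold BddAt at h1
    push Not at h1
    obtain ⟨C', hC', I', hI', hI'C, hcard⟩ := h1
    obtain ⟨I, hI, hIc, hIC⟩ := indp_conj hc.sh hC' hC hI' hI'C
    obtain ⟨J, hJ, hJc⟩ := Finset.exists_subset_card_eq (s := I) (n := s) (by omega)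
    exact ⟨J, hI.subset hJ, hJc, fun x hx => hIC x (hJ hx)⟩
  obtain ⟨r, hr⟩ : ∃ r, Nat.find hspec = r := ⟨_, rfl⟩
  have hrb : BddAt G (j + 1) r := hr ▸ Nat.find_spec hspec
  have hr0 : 1 ≤ r := by
    obtain ⟨C, hC⟩ := hc.cl (j + 1)
    obtain ⟨v, hv⟩ := (hc.infinite hC).nonempty
    have := hrb C hC {v} (by
      intro x hx y hy
      rw [Finset.mem_singleton] at hx hy
      rw [hx, hy]; exact G.irrefl) (by
      intro x hx
      rw [Finset.mem_singleton] at hx
      rw [hx]; exact hv)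
    simpa using this
  have hatt : ∃ C : Finset V, G.IsNClique (j + 1) C ∧ ∃ I : Finset V, Indp G I ∧ I.card = r ∧
      ∀ x ∈ I, x ∈ cn G C := by
    have h1 : ¬ BddAt G (j + 1) (r - 1) := Nat.find_min hspec (by omega)
    unfold BddAt at h1
    push Not at h1
    obtain ⟨C, hC, I, hI, hIC, hcard⟩ := h1
    have := hrb C hC I hI hIC
    exact ⟨C, hC, I, hI, by omega, hIC⟩
  obtain ⟨C1, hC1, I1, hI1, hI1c, hI1C⟩ := hatt
  by_cases hr2 : 2 ≤ r
  · -- diamond-free above `j`-cliques
    exfalso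
    obtain ⟨v1, hv1⟩ : C1.Nonempty := by rw [← Finset.card_pos, hC1.2]; omega
    have hC : G.IsNClique j (C1.erase v1) := by simpa using hC1.erase_of_mem hv1
    have hv1C : v1 ∈ cn G (C1.erase v1) := by
      intro u hu
      rw [Finset.mem_erase] at hu
      exact hC1.1 hv1 hu.2 (Ne.symm hu.1)
    have hins : insert v1 (C1.erase v1) = C1 := Finset.insert_erase hv1
    set C := C1.erase v1 with hCdef
    have hAL : AL (G.induce (cn G C)) r := by
      refine ⟨quasi_induce hc.sh hC.1, hr2, ?_, ?_, ?_⟩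
      · intro s
        obtain ⟨I, hI, hIc, hIC⟩ := hbig C hC s
        refine ⟨I.subtype (· ∈ cn G C), ?_, ?_⟩
        · intro x hx y hy
          rw [Finset.mem_subtype] at hx hy
          exact hI _ hx _ hy
        · rw [Finset.card_subtype, Finset.filter_true_of_mem hIC, hIc]
      · intro v I hI hvI
        have := hrb (insert v.1 C) (insert_clique hC v.2) (I.map (Function.Embedding.subtype _))
          (by
            intro x hx y hy
            rw [Finset.mem_map] at hx hy
            obtain ⟨x, hx, rfl⟩ := hx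
            obtain ⟨y, hy, rfl⟩ := hy
            exact hI x hx y hy)
          (by
            intro x hx
            rw [Finset.mem_map] at hx
            obtain ⟨x, hx, rfl⟩ := hx
            exact mem_cn_insert.2 ⟨(hvI x hx).symm, x.2⟩)
        rwa [Finset.card_map] at this
      · refine ⟨⟨v1, hv1C⟩, I1.subtype (· ∈ cn G C), ?_, ?_, ?_⟩
        · intro x hx y hy
          rw [Finset.mem_subtype] at hx hy
          exact hI1 _ hx _ hy
        · intro x hx
          rw [Finset.mem_subtype] at hx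
          exact (hI1C _ hx v1 hv1).symm
        · rw [Finset.card_subtype, Finset.filter_true_of_mem, hI1c]
          intro x hx
          exact cn_anti (Finset.erase_subset _ _) (hI1C x hx)
    refine GQ_level hc hC ?_ ?_
    · intro v x y z h1 h2 h3 h4 h5 h6
      exact hAL.no_diamond (v := v) (y := y) (x := x) (w := z) h2 h1 h3 h4.symm h5 h6
    · intro v
      obtain ⟨I, hI, hIc, hIC⟩ := indp_conj hc.sh hC1 (insert_clique hC v.2) hI1 hI1C
      obtain ⟨a, ha, b, hb, hab⟩ := Finset.one_lt_card.1 (show 1 < I.card by omega)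
      have ha' := mem_cn_insert.1 (hIC a ha)
      have hb' := mem_cn_insert.1 (hIC b hb)
      exact ⟨⟨a, ha'.2⟩, ⟨b, hb'.2⟩, ha'.1.symm, hb'.1.symm, hab, hI a ha b hb⟩
  · -- common neighbourhoods of `(j+1)`-cliques are cliques
    have hcl : ∀ C : Finset V, G.IsNClique (j + 1) C → ∀ x ∈ cn G C, ∀ y ∈ cn G C, x ≠ y →
        G.Adj x y := by
      intro C hC x hx y hy hxy
      by_contra hn
      have := hrb C hC {x, y} (indp_pair ⟨hxy, hn⟩) (by
        intro z hz
        simp only [Finset.mem_insert, Finset.mem_singleton] at hz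
        rcases hz with rfl | rfl
        · exact hx
        · exact hy)
      rw [Finset.card_pair hxy] at this
      omega
    rcases j with _ | i
    · rintro ⟨a, -, b, -, c, -, hab, hbc, hac⟩
      exact hac.2 (hcl {b} (by simp) a (by
        intro u hu; rw [Finset.mem_singleton] at hu; rw [hu]; exact hab) c (by
        intro u hu; rw [Finset.mem_singleton] at hu; rw [hu]; exact hbc.symm) hac.1)
    · exfalso
      obtain ⟨C, hC⟩ := hc.cl i
      refine GQ_level hc hC ?_ ?_
      · intro v x y z h1 h2 h3 h4 h5 h6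
        have k1 : G.IsNClique (i + 1) (insert v.1 C) := insert_clique hC v.2
        have k2 : G.IsNClique (i + 1 + 1) (insert y.1 (insert v.1 C)) :=
          insert_clique k1 (mem_cn_insert.2 ⟨h2.symm, y.2⟩)
        exact hcl _ k2 x (mem_cn_insert.2 ⟨h4, mem_cn_insert.2 ⟨h1.symm, x.2⟩⟩) z
          (mem_cn_insert.2 ⟨h5.symm, mem_cn_insert.2 ⟨h3.symm, z.2⟩⟩)
          (fun h => h6 (Subtype.ext h))
      · intro v
        obtain ⟨I, hI, hIc, hIC⟩ := hbig _ (insert_clique hC v.2) 2
        obtain ⟨a, ha, b, hb, hab⟩ := Finset.one_lt_card.1 (show 1 < I.card by omega)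
        have ha' := mem_cn_insert.1 (hIC a ha)
        have hb' := mem_cn_insert.1 (hIC b hb)
        exact ⟨⟨a, ha'.2⟩, ⟨b, hb'.2⟩, ha'.1.symm, hb'.1.symm, hab, hI a ha b hb⟩

end Run7.h901
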