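import Mathlib

/-!
Set-homogeneous graphs of finite clique number: basic definitions and tools.
-/

open scoped Classical

namespace Run7.h901

universe u v
variable {V : Type u} {G : SimpleGraph V}

/-- set-homogeneous: any two isomorphic finite induced subgraphs are conjugate as sets. -/
def SetHomogeneous (G : SimpleGraph V) : Prop :=
  ∀ A B : Set V, A.Finite → B.Finite → Nonempty (G.induce A ≃g G.induce B) →
    ∃ φ : G ≃g G, φ '' A = B

/-- homogeneous: every isomorphism between finite induced subgraphs extends to an automorphism. -/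
def Homogeneous (G : SimpleGraph V) : Prop :=
  ∀ A B : Set V, A.Finite → B.Finite → ∀ f : G.induce A ≃g G.induce B,
    ∃ φ : G ≃g G, ∀ a : A, φ (a : V) = f a

/-- vertices adjacent to every member of the finite set `U`. -/
def cn (G : SimpleGraph V) (U : Finset V) : Set V := {v | ∀ u ∈ U, G.Adj v u}

theorem mem_cn {U : Finset V} {v : V} : v ∈ cn G U ↔ ∀ u ∈ U, G.Adj v u := Iff.rfl

@[simp] theorem cn_empty : cn G (∅ : Finset V) = Set.univ := by ext v; simp [cn]

theorem mem_cn_insert {U : Finset V} {a v : V} :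
    v ∈ cn G (insert a U) ↔ G.Adj v a ∧ v ∈ cn G U := by simp [cn]

theorem mem_cn_union {U W : Finset V} {v : V} :
    v ∈ cn G (U ∪ W) ↔ v ∈ cn G U ∧ v ∈ cn G W := by
  simp only [mem_cn, Finset.mem_union]
  constructor
  · intro h; exact ⟨fun u hu => h u (Or.inl hu), fun u hu => h u (Or.inr hu)⟩
  · rintro ⟨h1, h2⟩ u (hu | hu)
    · exact h1 u hu
    · exact h2 u hu

theorem cn_anti {U W : Finset V} (h : U ⊆ W) : cn G W ⊆ cn G U :=
  fun _ hv u hu => hv u (h hu)

theorem notMem_of_mem_cn {U : Finset V} {v : V} (h : v ∈ cn G U) : v ∉ U :=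
  fun hv => G.irrefl (h v hv)

theorem mem_cn_image (φ : G ≃g G) {U : Finset V} {v : V} :
    φ v ∈ cn G (U.image φ) ↔ v ∈ cn G U := by
  simp [cn, φ.map_adj_iff]

theorem cn_image (φ : G ≃g G) (U : Finset V) : cn G (U.image φ) = φ '' cn G U := by
  ext v
  constructor
  · intro h
    refine ⟨φ.symm v, ?_, by simp⟩
    rw [← mem_cn_image φ]; simpa using h
  · rintro ⟨w, hw, rfl⟩
    exact (mem_cn_image φ).2 hw

/-! ### (T0), (T1) -/

/-- (T0) -/
theorem T0 (hG : SetHomogeneous G) {ι : Type v} [Finite ι] {y y' : ι → V}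
    (hy : Function.Injective y) (hy' : Function.Injective y')
    (h : ∀ i j, G.Adj (y i) (y j) ↔ G.Adj (y' i) (y' j)) :
    ∃ (φ : G ≃g G) (σ : Equiv.Perm ι), ∀ i, φ (y i) = y' (σ i) := by
  let e : Set.range y ≃ Set.range y' :=
    (Equiv.ofInjective y hy).symm.trans (Equiv.ofInjective y' hy')
  have he : ∀ i, e ⟨y i, i, rfl⟩ = ⟨y' i, i, rfl⟩ := by
    intro i
    simp only [e, Equiv.trans_apply]
    have : (Equiv.ofInjective y hy).symm ⟨y i, i, rfl⟩ = i := by
      rw [Equiv.symm_apply_eq]; rfl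
    rw [this]; rfl
  obtain ⟨φ, hφ⟩ := hG (Set.range y) (Set.range y') (Set.finite_range y) (Set.finite_range y')
    ⟨{ toEquiv := e
       map_rel_iff' := by
        rintro ⟨_, i, rfl⟩ ⟨_, j, rfl⟩
        rw [he, he]
        simp [SimpleGraph.comap_adj, (h i j)] }⟩
  have h1 : ∀ i, ∃ j, y' j = φ (y i) := by
    intro i
    have : φ (y i) ∈ Set.range y' := by rw [← hφ]; exact ⟨y i, ⟨i, rfl⟩, rfl⟩
    exact this
  choose s hs using h1
  have hinj : Function.Injective s := by
    intro i j hij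
    apply hy; apply φ.injective; rw [← hs i, ← hs j, hij]
  refine ⟨φ, Equiv.ofBijective s (Finite.injective_iff_bijective.1 hinj), fun i => ?_⟩
  simp [hs i]

/-- (T1): cliques `C, C'` of the same size, families in their common neighbourhoods with the same
adjacencies, no member of the family adjacent to all the others. -/
theorem T1 (hG : SetHomogeneous G) {C C' : Finset V} (hC : G.IsClique (C : Set V))
    (hC' : G.IsClique (C' : Set V)) (hcard : C.card = C'.card)
    {ι : Type v} [Finite ι] {y y' : ι → V}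
    (hy : Function.Injective y) (hy' : Function.Injective y')
    (h : ∀ i j, G.Adj (y i) (y j) ↔ G.Adj (y' i) (y' j))
    (hyC : ∀ i, y i ∈ cn G C) (hyC' : ∀ i, y' i ∈ cn G C')
    (hun : ∀ i, ∃ j, j ≠ i ∧ ¬ G.Adj (y i) (y j)) :
    ∃ (φ : G ≃g G) (σ : Equiv.Perm ι), C.image φ = C' ∧ ∀ i, φ (y i) = y' (σ i) := by
  let e : C ≃ C' := Finset.equivOfCardEq hcard
  let Y : C ⊕ ι → V := Sum.elim (fun c => c.1) y
  let Y' : C ⊕ ι → V := Sum.elim (fun c => (e c).1) y'
  have hY : Function.Injective Y := by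
    rintro (c | i) (d | j) hcd
    · simp only [Y, Sum.elim_inl] at hcd; rw [Subtype.ext hcd]
    · simp only [Y, Sum.elim_inl, Sum.elim_inr] at hcd
      exact absurd (hcd ▸ c.2) (notMem_of_mem_cn (hyC j))
    · simp only [Y, Sum.elim_inl, Sum.elim_inr] at hcd
      exact absurd (hcd ▸ d.2) (notMem_of_mem_cn (hyC i))
    · simp only [Y, Sum.elim_inr] at hcd; rw [hy hcd]
  have hY' : Function.Injective Y' := by
    rintro (c | i) (d | j) hcd
    · simp only [Y', Sum.elim_inl] at hcd; rw [e.injective (Subtype.ext hcd)]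
    · simp only [Y', Sum.elim_inl, Sum.elim_inr] at hcd
      exact absurd (hcd ▸ (e c).2) (notMem_of_mem_cn (hyC' j))
    · simp only [Y', Sum.elim_inl, Sum.elim_inr] at hcd
      exact absurd (hcd ▸ (e d).2) (notMem_of_mem_cn (hyC' i))
    · simp only [Y', Sum.elim_inr] at hcd; rw [hy' hcd]
  have hA : ∀ s t, G.Adj (Y s) (Y t) ↔ G.Adj (Y' s) (Y' t) := by
    rintro (c | i) (d | j)
    · simp only [Y, Y', Sum.elim_inl]
      constructor
      · intro hcd
        apply hC' (e c).2 (e d).2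
        intro h2
        exact G.ne_of_adj hcd (by rw [e.injective (Subtype.ext h2)])
      · intro hcd
        apply hC c.2 d.2
        intro h2
        exact G.ne_of_adj hcd (by rw [Subtype.ext h2])
    · simp only [Y, Y', Sum.elim_inl, Sum.elim_inr]
      exact ⟨fun _ => (hyC' j _ (e c).2).symm, fun _ => (hyC j _ c.2).symm⟩
    · simp only [Y, Y', Sum.elim_inl, Sum.elim_inr]
      exact ⟨fun _ => (hyC' i _ (e d).2), fun _ => (hyC i _ d.2)⟩
    · simp only [Y, Y', Sum.elim_inr]; exact h i j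
  obtain ⟨φ, σ, hσ⟩ := T0 hG hY hY' hA
  have key1 : ∀ (c : C) (i : ι), σ (Sum.inl c) ≠ Sum.inr i := by
    intro c i hci
    obtain ⟨j, hji, hnadj⟩ := hun i
    -- y' i = φ c, y' j = φ (Y t)
    have ht := hσ (σ.symm (Sum.inr j))
    rw [Equiv.apply_symm_apply] at ht
    have hc := hσ (Sum.inl c)
    rw [hci] at hc
    have hne : σ.symm (Sum.inr j) ≠ Sum.inl c := by
      intro h2
      rw [Equiv.symm_apply_eq, hci] at h2
      exact hji (Sum.inr_injective h2)
    have hadj : G.Adj (Y (Sum.inl c)) (Y (σ.symm (Sum.inr j))) := by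
      rcases h3 : σ.symm (Sum.inr j) with d | k
      · apply hC c.2 d.2
        intro h4
        rw [h3] at hne
        exact hne (by rw [Subtype.ext h4])
      · exact (hyC k _ c.2).symm
    rw [← φ.map_adj_iff, hc, ht] at hadj
    exact hnadj ((h i j).2 hadj)
  have key2 : ∀ (c : C) (i : ι), σ (Sum.inr i) ≠ Sum.inl c := by
    intro c i hci
    obtain ⟨j, hji, hnadj⟩ := hun i
    apply hnadj
    have hi := hσ (Sum.inr i)
    have hj := hσ (Sum.inr j)
    rw [hci] at hi
    have hne : σ (Sum.inr j) ≠ Sum.inl c := by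
      intro h2
      rw [← hci] at h2
      exact hji (Sum.inr_injective (σ.injective h2))
    change G.Adj (Y (Sum.inr i)) (Y (Sum.inr j))
    rw [← φ.map_adj_iff, hi, hj]
    rcases h3 : σ (Sum.inr j) with d | k
    · apply hC' (e c).2 (e d).2
      intro h4
      rw [h3] at hne
      exact hne (by rw [e.injective (Subtype.ext h4)])
    · exact (hyC' k _ (e c).2).symm
  have h1 : ∀ i, ∃ j, σ (Sum.inr i) = Sum.inr j := by
    intro i
    rcases h3 : σ (Sum.inr i) with d | k
    · exact absurd h3 (key2 d i)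
    · exact ⟨k, rfl⟩
  choose s hs using h1
  have hinj : Function.Injective s := by
    intro i j hij
    have : σ (Sum.inr i) = σ (Sum.inr j) := by rw [hs, hs, hij]
    exact Sum.inr_injective (σ.injective this)
  refine ⟨φ, Equiv.ofBijective s (Finite.injective_iff_bijective.1 hinj), ?_, fun i => ?_⟩
  · apply Finset.eq_of_subset_of_card_le
    · intro v hv
      rw [Finset.mem_image] at hv
      obtain ⟨c, hc, rfl⟩ := hv
      have := hσ (Sum.inl ⟨c, hc⟩)
      rcases h3 : σ (Sum.inl ⟨c, hc⟩) with d | k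
      · rw [h3] at this
        have h4 : φ c = (e d).1 := this
        rw [h4]; exact (e d).2
      · exact absurd h3 (key1 _ _)
    · rw [Finset.card_image_of_injective _ φ.injective, hcard]
  · have := hσ (Sum.inr i)
    rw [hs i] at this
    exact this

/-! ### isomorphic finite sets -/

/-- the finite vertex sets `Y`, `Y'` induce isomorphic graphs. -/
def FIso (G : SimpleGraph V) (Y Y' : Finset V) : Prop :=
  ∃ f : V → V, Set.InjOn f (Y : Set V) ∧ Y.image f = Y' ∧
    ∀ a ∈ Y, ∀ b ∈ Y, (G.Adj (f a) (f b) ↔ G.Adj a b)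

theorem FIso.of_family {ι : Type v} [Fintype ι] {y y' : ι → V}
    (hy : Function.Injective y) (hy' : Function.Injective y')
    (h : ∀ i j, G.Adj (y i) (y j) ↔ G.Adj (y' i) (y' j)) :
    FIso G (Finset.univ.image y) (Finset.univ.image y') := by
  by_cases hne : Nonempty ι
  · have hf : ∀ i, y' (Function.invFun y (y i)) = y' i := by
      intro i; rw [Function.leftInverse_invFun hy i]
    refine ⟨fun v => y' (Function.invFun y v), ?_, ?_, ?_⟩
    · intro a ha b hb hab
      rw [Finset.mem_coe, Finset.mem_image] at ha hb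
      obtain ⟨i, -, rfl⟩ := ha
      obtain ⟨j, -, rfl⟩ := hb
      simp only [hf] at hab
      rw [hy' hab]
    · ext v
      simp only [Finset.mem_image, Finset.mem_univ, true_and]
      constructor
      · rintro ⟨_, ⟨i, rfl⟩, rfl⟩
        exact ⟨i, (hf i).symm⟩
      · rintro ⟨i, rfl⟩
        exact ⟨y i, ⟨i, rfl⟩, hf i⟩
    · intro a ha b hb
      rw [Finset.mem_image] at ha hb
      obtain ⟨i, -, rfl⟩ := ha
      obtain ⟨j, -, rfl⟩ := hb
      simp only [hf]
      exact (h i j).symm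
  · rw [not_nonempty_iff] at hne
    refine ⟨id, by simp, by simp, by simp⟩

theorem FIso.refl (Y : Finset V) : FIso G Y Y := ⟨id, by simp, by simp, by simp⟩

theorem FIso.conj (hG : SetHomogeneous G) {Y Y' : Finset V} (h : FIso G Y Y') :
    ∃ φ : G ≃g G, Y.image φ = Y' := by
  obtain ⟨f, hf, hfY, hA⟩ := h
  obtain ⟨φ, σ, hσ⟩ := T0 hG (ι := Y) (y := fun a => a.1) (y' := fun a => f a.1)
    Subtype.val_injective (fun a b hab => Subtype.ext (hf a.2 b.2 hab))
    (fun a b => (hA a a.2 b b.2).symm)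
  refine ⟨φ, ?_⟩
  apply Finset.eq_of_subset_of_card_le
  · intro v hv
    rw [Finset.mem_image] at hv
    obtain ⟨a, ha, rfl⟩ := hv
    rw [hσ ⟨a, ha⟩, ← hfY]
    exact Finset.mem_image_of_mem _ (σ ⟨a, ha⟩).2
  · rw [Finset.card_image_of_injective _ φ.injective, ← hfY]
    exact Finset.card_image_le

theorem FIso.card_eq {Y Y' : Finset V} (h : FIso G Y Y') : Y.card = Y'.card := by
  obtain ⟨f, hf, hfY, hA⟩ := h
  rw [← hfY, Finset.card_image_of_injOn hf]

theorem FIso.union_clique {C C' Y Y' : Finset V} (hC : G.IsClique (C : Set V))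
    (hC' : G.IsClique (C' : Set V)) (hcard : C.card = C'.card)
    (hY : ∀ y ∈ Y, y ∈ cn G C) (hY' : ∀ y ∈ Y', y ∈ cn G C') (h : FIso G Y Y') :
    FIso G (C ∪ Y) (C' ∪ Y') := by
  obtain ⟨f, hf, hfY, hA⟩ := h
  let e : C ≃ C' := Finset.equivOfCardEq hcard
  let g : V → V := fun v => if hv : v ∈ C then (e ⟨v, hv⟩ : V) else f v
  have hgC : ∀ (v : V) (hv : v ∈ C), g v = e ⟨v, hv⟩ := fun v hv => by simp [g, hv]
  have hgC' : ∀ (v : V) (hv : v ∈ C), g v ∈ C' := fun v hv => by
    rw [hgC v hv]; exact (e ⟨v, hv⟩).2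
  have hgY : ∀ v ∈ Y, g v = f v := fun v hv => by
    have : v ∉ C := notMem_of_mem_cn (hY v hv)
    simp [g, this]
  have hfY' : ∀ v ∈ Y, f v ∈ Y' := fun v hv => by
    rw [← hfY]; exact Finset.mem_image_of_mem _ hv
  have hinjC : ∀ a ∈ C, ∀ b ∈ C, g a = g b → a = b := by
    intro a ha b hb hab
    rw [hgC a ha, hgC b hb] at hab
    exact congrArg Subtype.val (e.injective (Subtype.ext hab))
  refine ⟨g, ?_, ?_, ?_⟩
  · intro a ha b hb hab
    rw [Finset.mem_coe, Finset.mem_union] at ha hb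
    rcases ha with ha | ha <;> rcases hb with hb | hb
    · exact hinjC a ha b hb hab
    · exfalso
      rw [hgY b hb] at hab
      exact notMem_of_mem_cn (hY' _ (hfY' b hb)) (hab ▸ hgC' a ha)
    · exfalso
      rw [hgY a ha] at hab
      exact notMem_of_mem_cn (hY' _ (hfY' a ha)) (hab ▸ hgC' b hb)
    · rw [hgY a ha, hgY b hb] at hab
      exact hf ha hb hab
  · rw [Finset.image_union]
    congr 1
    · ext v
      rw [Finset.mem_image]
      constructor
      · rintro ⟨a, ha, rfl⟩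
        exact hgC' a ha
      · intro hv
        refine ⟨e.symm ⟨v, hv⟩, (e.symm ⟨v, hv⟩).2, ?_⟩
        rw [hgC _ (e.symm ⟨v, hv⟩).2]
        simp
    · rw [← hfY]
      exact Finset.image_congr (fun v hv => hgY v hv)
  · intro a ha b hb
    rw [Finset.mem_union] at ha hb
    rcases ha with ha | ha <;> rcases hb with hb | hb
    · constructor
      · intro hab
        apply hC ha hb
        rintro rfl
        exact G.irrefl hab
      · intro hab
        apply hC' (hgC' a ha) (hgC' b hb)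
        intro h2
        exact G.ne_of_adj hab (hinjC a ha b hb h2)
    · rw [hgY b hb]
      exact ⟨fun _ => (hY b hb a ha).symm, fun _ => (hY' _ (hfY' b hb) _ (hgC' a ha)).symm⟩
    · rw [hgY a ha]
      exact ⟨fun _ => (hY a ha b hb), fun _ => (hY' _ (hfY' a ha) _ (hgC' b hb))⟩
    · rw [hgY a ha, hgY b hb]; exact hA a ha b hb

/-- conjugacy of common neighbourhoods, finite-set version. -/
theorem cn_conj (hG : SetHomogeneous G) {C C' Y Y' : Finset V} (hC : G.IsClique (C : Set V))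
    (hC' : G.IsClique (C' : Set V)) (hcard : C.card = C'.card)
    (hY : ∀ y ∈ Y, y ∈ cn G C) (hY' : ∀ y ∈ Y', y ∈ cn G C') (h : FIso G Y Y') :
    ∃ φ : G ≃g G, (C ∪ Y).image φ = C' ∪ Y' ∧ φ '' cn G (C ∪ Y) = cn G (C' ∪ Y') := by
  obtain ⟨φ, hφ⟩ := (FIso.union_clique hC hC' hcard hY hY' h).conj hG
  exact ⟨φ, hφ, by rw [← hφ, cn_image]⟩

/-- all cliques of the same size are conjugate. -/
theorem clique_conj (hG : SetHomogeneous G) {k : ℕ} {C C' : Finset V} (hC : G.IsNClique k C)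
    (hC' : G.IsNClique k C') : ∃ φ : G ≃g G, C.image φ = C' ∧ φ '' cn G C = cn G C' := by
  obtain ⟨φ, hφ, h2⟩ := cn_conj hG (Y := ∅) (Y' := ∅) hC.1 hC'.1 (hC.2.trans hC'.2.symm) (by simp)
    (by simp) (FIso.refl ∅)
  exact ⟨φ, by simpa using hφ, by simpa using h2⟩

theorem mem_cn_image_univ {ι : Type v} [Fintype ι] {y : ι → V} {w : V} :
    w ∈ cn G (Finset.univ.image y) ↔ ∀ i, G.Adj w (y i) := by
  simp only [mem_cn, Finset.mem_image, Finset.mem_univ, true_and]
  constructor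
  · intro h i; exact h _ ⟨i, rfl⟩
  · rintro h _ ⟨i, rfl⟩; exact h i

/-- conjugacy of common neighbourhoods, indexed version. -/
theorem T0C (hG : SetHomogeneous G) {k : ℕ} {C C' : Finset V} (hC : G.IsNClique k C)
    (hC' : G.IsNClique k C') {ι : Type v} [Finite ι] {y y' : ι → V}
    (hy : Function.Injective y) (hy' : Function.Injective y')
    (h : ∀ i j, G.Adj (y i) (y j) ↔ G.Adj (y' i) (y' j))
    (hyC : ∀ i, y i ∈ cn G C) (hyC' : ∀ i, y' i ∈ cn G C') :
    ∃ φ : G ≃g G, φ '' {v | v ∈ cn G C ∧ ∀ i, G.Adj v (y i)} =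
      {v | v ∈ cn G C' ∧ ∀ i, G.Adj v (y' i)} := by
  have := Fintype.ofFinite ι
  obtain ⟨φ, -, hφ⟩ := cn_conj hG (Y := Finset.univ.image y) (Y' := Finset.univ.image y') hC.1 hC'.1
    (hC.2.trans hC'.2.symm) (by simpa using hyC) (by simpa using hyC') (FIso.of_family hy hy' h)
  refine ⟨φ, ?_⟩
  have h1 : cn G (C ∪ Finset.univ.image y) = {v | v ∈ cn G C ∧ ∀ i, G.Adj v (y i)} := by
    ext v; rw [mem_cn_union, mem_cn_image_univ]; rfl
  have h2 : cn G (C' ∪ Finset.univ.image y') = {v | v ∈ cn G C' ∧ ∀ i, G.Adj v (y' i)} := by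
    ext v; rw [mem_cn_union, mem_cn_image_univ]; rfl
  rw [← h1, ← h2, hφ]

theorem nonempty_of_image {φ : G ≃g G} {S T : Set V} (h : φ '' S = T) (hS : S.Nonempty) :
    T.Nonempty := h ▸ hS.image _

theorem infinite_of_image {φ : G ≃g G} {S T : Set V} (h : φ '' S = T) (hS : S.Infinite) :
    T.Infinite := h ▸ hS.image φ.injective.injOn

/-! ### ambient hypotheses -/

/-- `G` is set-homogeneous with clique number exactly `n`. -/
structure Ctx (G : SimpleGraph V) (n : ℕ) : Prop where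
  sh : SetHomogeneous G
  cf : G.CliqueFree (n + 1)
  ex : ∃ K : Finset V, G.IsNClique n K

theorem Ctx.card_le {n : ℕ} (hc : Ctx G n) {K : Finset V} (hK : G.IsClique (K : Set V)) :
    K.card ≤ n := by
  by_contra h
  push Not at h
  obtain ⟨K', hK', hcard⟩ := Finset.exists_subset_card_eq (s := K) (n := n + 1) h
  exact hc.cf K' ⟨hK.subset (by exact_mod_cast hK'), hcard⟩

theorem join {a b : ℕ} {C Q : Finset V} (hC : G.IsNClique a C) (hQ : G.IsNClique b Q)
    (h : ∀ q ∈ Q, q ∈ cn G C) : G.IsNClique (a + b) (C ∪ Q) := by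
  constructor
  · intro x hx y hy hxy
    rw [Finset.mem_coe, Finset.mem_union] at hx hy
    rcases hx with hx | hx <;> rcases hy with hy | hy
    · exact hC.1 hx hy hxy
    · exact (h y hy x hx).symm
    · exact h x hx y hy
    · exact hQ.1 hx hy hxy
  · rw [Finset.card_union_of_disjoint, hC.2, hQ.2]
    rw [Finset.disjoint_right]
    exact fun q hq => notMem_of_mem_cn (h q hq)

theorem Ctx.add_le {n : ℕ} (hc : Ctx G n) {a b : ℕ} {C Q : Finset V} (hC : G.IsNClique a C)
    (hQ : G.IsNClique b Q) (h : ∀ q ∈ Q, q ∈ cn G C) : a + b ≤ n := by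
  have := join hC hQ h
  rw [← this.2]
  exact hc.card_le this.1

theorem insert_clique {k : ℕ} {C : Finset V} (hC : G.IsNClique k C) {v : V} (hv : v ∈ cn G C) :
    G.IsNClique (k + 1) (insert v C) := hC.insert hv

/-- every `k`-clique, `k + r ≤ n`, extends by an `r`-clique of its common neighbourhood. -/
theorem Ctx.extend {n : ℕ} (hc : Ctx G n) {k r : ℕ} {C : Finset V} (hC : G.IsNClique k C)
    (hkr : k + r ≤ n) : ∃ Q : Finset V, G.IsNClique r Q ∧ ∀ q ∈ Q, q ∈ cn G C := by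
  obtain ⟨K, hK⟩ := hc.ex
  obtain ⟨C', hC'K, hC'card⟩ := Finset.exists_subset_card_eq (s := K) (n := k)
    (by rw [hK.2]; omega)
  have hC' : G.IsNClique k C' := ⟨hK.1.subset (by exact_mod_cast hC'K), hC'card⟩
  obtain ⟨φ, hφ, h2⟩ := clique_conj hc.sh hC' hC
  obtain ⟨Q, hQK, hQcard⟩ := Finset.exists_subset_card_eq (s := K \ C') (n := r)
    (by rw [Finset.card_sdiff_of_subset hC'K, hK.2, hC'card]; omega)
  refine ⟨Q.image φ, ⟨?_, ?_⟩, ?_⟩
  · intro x hx y hy hxy
    rw [Finset.mem_coe, Finset.mem_image] at hx hy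
    obtain ⟨x, hx, rfl⟩ := hx
    obtain ⟨y, hy, rfl⟩ := hy
    rw [φ.map_adj_iff]
    apply hK.1 (Finset.mem_sdiff.1 (hQK hx)).1 (Finset.mem_sdiff.1 (hQK hy)).1
    rintro rfl
    exact hxy rfl
  · rw [Finset.card_image_of_injective _ φ.injective, hQcard]
  · intro q hq
    rw [Finset.mem_image] at hq
    obtain ⟨x, hx, rfl⟩ := hq
    rw [← h2]
    refine ⟨x, ?_, rfl⟩
    intro c hc'
    have h3 := Finset.mem_sdiff.1 (hQK hx)
    apply hK.1 h3.1 (hC'K hc')
    rintro rfl
    exact h3.2 hc'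

theorem Ctx.ext {n : ℕ} (hc : Ctx G n) {k : ℕ} {C : Finset V} (hC : G.IsNClique k C)
    (hk : k < n) : ∃ v, v ∈ cn G C := by
  obtain ⟨Q, hQ, h⟩ := hc.extend hC (r := 1) (by omega)
  rw [SimpleGraph.isNClique_one] at hQ
  obtain ⟨a, rfl⟩ := hQ
  exact ⟨a, h a (by simp)⟩

theorem Ctx.finite_of_clique {n : ℕ} (hc : Ctx G n) {S : Set V}
    (hS : ∀ x ∈ S, ∀ y ∈ S, x ≠ y → G.Adj x y) : S.Finite := by
  by_contra h
  obtain ⟨K, hK, hcard⟩ := (Set.not_finite.1 h : S.Infinite).exists_subset_card_eq (n + 1)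
  have := hc.card_le (K := K) (fun x hx y hy hxy => hS x (hK hx) y (hK hy) hxy)
  omega

/-- independent families of size `3`. -/
def Indep3 (G : SimpleGraph V) (a b c : V) : Prop :=
  Gᶜ.Adj a b ∧ Gᶜ.Adj a c ∧ Gᶜ.Adj b c

def HasP3 (G : SimpleGraph V) (S : Set V) : Prop :=
  ∃ a ∈ S, ∃ b ∈ S, ∃ c ∈ S, G.Adj a b ∧ G.Adj b c ∧ Gᶜ.Adj a c

def HasK12 (G : SimpleGraph V) (S : Set V) : Prop :=
  ∃ a ∈ S, ∃ b ∈ S, ∃ c ∈ S, G.Adj b c ∧ Gᶜ.Adj a b ∧ Gᶜ.Adj a c

theorem compl_adj_map (φ : G ≃g G) {a b : V} : Gᶜ.Adj (φ a) (φ b) ↔ Gᶜ.Adj a b := by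
  simp only [SimpleGraph.compl_adj, φ.map_adj_iff, ne_eq, φ.injective.eq_iff]

theorem HasP3.image {φ : G ≃g G} {S T : Set V} (h : φ '' S = T) (hS : HasP3 G S) :
    HasP3 G T := by
  obtain ⟨a, ha, b, hb, c, hcS, h1, h2, h3⟩ := hS
  subst h
  exact ⟨φ a, ⟨a, ha, rfl⟩, φ b, ⟨b, hb, rfl⟩, φ c, ⟨c, hcS, rfl⟩, φ.map_adj_iff.2 h1,
    φ.map_adj_iff.2 h2, (compl_adj_map φ).2 h3⟩

theorem HasK12.image {φ : G ≃g G} {S T : Set V} (h : φ '' S = T) (hS : HasK12 G S) :
    HasK12 G T := by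
  obtain ⟨a, ha, b, hb, c, hcS, h1, h2, h3⟩ := hS
  subst h
  exact ⟨φ a, ⟨a, ha, rfl⟩, φ b, ⟨b, hb, rfl⟩, φ c, ⟨c, hcS, rfl⟩, φ.map_adj_iff.2 h1,
    (compl_adj_map φ).2 h2, (compl_adj_map φ).2 h3⟩

theorem HasP3.mono {S T : Set V} (h : S ⊆ T) (hS : HasP3 G S) : HasP3 G T := by
  obtain ⟨a, ha, b, hb, c, hcS, h1⟩ := hS
  exact ⟨a, h ha, b, h hb, c, h hcS, h1⟩

theorem HasK12.mono {S T : Set V} (h : S ⊆ T) (hS : HasK12 G S) : HasK12 G T := by
  obtain ⟨a, ha, b, hb, c, hcS, h1⟩ := hS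
  exact ⟨a, h ha, b, h hb, c, h hcS, h1⟩

/-- level-`j` hypothesis: the common neighbourhood of every `j`-clique is infinite and contains
both `P₃` and `K₁ + K₂`. -/
def Good (G : SimpleGraph V) (j : ℕ) : Prop :=
  ∀ C : Finset V, G.IsNClique j C → (cn G C).Infinite ∧ HasP3 G (cn G C) ∧ HasK12 G (cn G C)

/-- (T1) for nonadjacent pairs. -/
theorem pair_conj (hG : SetHomogeneous G) {k : ℕ} {C C' : Finset V} (hC : G.IsNClique k C)
    (hC' : G.IsNClique k C') {a b a' b' : V} (hab : Gᶜ.Adj a b) (hab' : Gᶜ.Adj a' b')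
    (ha : a ∈ cn G C) (hb : b ∈ cn G C) (ha' : a' ∈ cn G C') (hb' : b' ∈ cn G C') :
    ∃ φ : G ≃g G, C.image φ = C' ∧ φ '' cn G C = cn G C' ∧
      ((φ a = a' ∧ φ b = b') ∨ (φ a = b' ∧ φ b = a')) := by
  rw [SimpleGraph.compl_adj] at hab hab'
  obtain ⟨φ, σ, h1, h2⟩ := T1 hG hC.1 hC'.1 (hC.2.trans hC'.2.symm) (ι := Fin 2)
    (y := ![a, b]) (y' := ![a', b'])
    (by intro i j; fin_cases i <;> fin_cases j <;> simp [hab.1, hab.1.symm])
    (by intro i j; fin_cases i <;> fin_cases j <;> simp [hab'.1, hab'.1.symm])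
    (by
      have h3 : ¬ G.Adj b a := fun h => hab.2 h.symm
      have h4 : ¬ G.Adj b' a' := fun h => hab'.2 h.symm
      intro i j; fin_cases i <;> fin_cases j <;> simp [hab.2, hab'.2, h3, h4])
    (by intro i; fin_cases i <;> simp [ha, hb])
    (by intro i; fin_cases i <;> simp [ha', hb'])
    (by
      have h3 : ¬ G.Adj b a := fun h => hab.2 h.symm
      intro i
      fin_cases i
      · exact ⟨1, by simp, by simpa using hab.2⟩
      · exact ⟨0, by simp, by simpa using h3⟩)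
  refine ⟨φ, h1, by rw [← h1, cn_image], ?_⟩
  have h0 := h2 0
  have h0' := h2 1
  have hne : σ 0 ≠ σ 1 := fun h => by simpa using σ.injective h
  generalize σ 0 = s at *
  generalize σ 1 = t at *
  fin_cases s <;> fin_cases t <;> simp_all

/-- (i) if the common neighbourhoods of `j`-cliques are infinite and contain `P₃` then the common
neighbourhoods of `(j+1)`-cliques are infinite. -/
theorem infinite_succ (hG : SetHomogeneous G) {j : ℕ}
    (h : ∀ C : Finset V, G.IsNClique j C → (cn G C).Infinite ∧ HasP3 G (cn G C)) :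
    ∀ C : Finset V, G.IsNClique (j + 1) C → (cn G C).Infinite := by
  intro C hC
  by_contra hfin
  rw [Set.not_infinite] at hfin
  -- all `(j+1)`-cliques have finite common neighbourhood
  have hall : ∀ C' : Finset V, G.IsNClique (j + 1) C' → (cn G C').Finite := by
    intro C' hC'
    obtain ⟨φ, -, h2⟩ := clique_conj hG hC hC'
    rw [← h2]; exact hfin.image _
  have hne : C.Nonempty := by
    rw [← Finset.card_pos, hC.2]; omega
  obtain ⟨v, hv⟩ := hne
  set D := C.erase v with hD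
  have hDc : G.IsNClique j D := by
    have := hC.erase_of_mem hv
    simpa using this
  have hvD : v ∈ cn G D := by
    intro u hu
    rw [hD, Finset.mem_erase] at hu
    exact hC.1 hv hu.2 (Ne.symm hu.1)
  obtain ⟨hinf, a, ha, b, hb, c, hcc, hab, hbc, hac⟩ := h D hDc
  -- nonadjacent pairs have a common neighbour
  have hcommon : ∀ w ∈ cn G D, Gᶜ.Adj v w → ∃ u ∈ cn G (insert v D), w ∈ cn G (insert u D) := by
    intro w hw hvw
    obtain ⟨φ, h1, h2, h3⟩ := pair_conj hG hDc hDc hac hvw ha hcc hvD hw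
    have hφb : φ b ∈ cn G D := by rw [← h2]; exact ⟨b, hb, rfl⟩
    refine ⟨φ b, ?_, ?_⟩
    · rw [mem_cn_insert]
      refine ⟨?_, hφb⟩
      rcases h3 with ⟨h3, h4⟩ | ⟨h3, h4⟩
      · rw [← h3, φ.map_adj_iff]; exact hab.symm
      · rw [← h4, φ.map_adj_iff]; exact hbc
    · rw [mem_cn_insert]
      refine ⟨?_, hw⟩
      rcases h3 with ⟨h3, h4⟩ | ⟨h3, h4⟩
      · rw [← h4, φ.map_adj_iff]; exact hbc.symm
      · rw [← h3, φ.map_adj_iff]; exact hab
  have hfin2 : (cn G (insert v D)).Finite := hall _ (insert_clique hDc hvD)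
  apply hinf
  apply Set.Finite.subset (((Set.finite_singleton v).union hfin2).union
    (hfin2.biUnion (t := fun u => cn G (insert u D)) (fun u hu => hall _ (insert_clique hDc
      ((mem_cn_insert.1 hu).2)))))
  intro w hw
  by_cases h1 : w = v
  · left; left; exact h1
  by_cases h2 : G.Adj w v
  · left; right; rw [mem_cn_insert]; exact ⟨h2, hw⟩
  · right
    obtain ⟨u, hu, hwu⟩ := hcommon w hw (by
      rw [SimpleGraph.compl_adj]; exact ⟨Ne.symm h1, fun h => h2 h.symm⟩)
    rw [Set.mem_iUnion₂]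
    exact ⟨u, hu, hwu⟩

end Run7.h901
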