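import Pool.Agent.Run7.h901.TF

/-!
No middles above triangle-free level.
-/

open scoped Classical

namespace Run7.h901

universe u
variable {W : Type u} {H : SimpleGraph W}

/-- abstract properties of the common neighbourhood of an `(n-3)`-clique in the presence of
middles. -/
structure L3 (H : SimpleGraph W) : Prop where
  quasi : Quasi H
  rel : ∀ a b c v v', Indep3 H a b c → (H.Adj v a ∧ H.Adj v b ∧ H.Adj v c) →
    (H.Adj v' a ∧ H.Adj v' b ∧ H.Adj v' c) → ∃ k : H ≃g H, k a = a ∧ k b = b ∧ k c = c ∧ k v = v'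
  om : ∀ a b c, Indep3 H a b c → ∃ v, H.Adj v a ∧ H.Adj v b ∧ H.Adj v c
  mid : ∀ v, ∃ (W' : Type u) (H' : SimpleGraph W') (e : H' ↪g H),
    (∀ x, H.Adj v x ↔ ∃ x', e x' = x) ∧ Mid H'

/-- `b` is between `a` and `c` with respect to `v`. -/
def BV (H : SimpleGraph W) (v a b c : W) : Prop :=
  Indep3 H a b c ∧ H.Adj v a ∧ H.Adj v b ∧ H.Adj v c ∧
    ∀ q, H.Adj v q → H.Adj q a → H.Adj q c → H.Adj q b

theorem BV.symm {v a b c : W} (h : BV H v a b c) : BV H v c b a :=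
  ⟨h.1.swap13, h.2.2.2.1, h.2.2.1, h.2.1, fun q hv hc ha => h.2.2.2.2 q hv ha hc⟩

theorem symm_adj_iff (φ : H ≃g H) {q x : W} : H.Adj (φ.symm q) x ↔ H.Adj q (φ x) := by
  rw [← φ.map_adj_iff (v := φ.symm q)]; simp

theorem BV.map (φ : H ≃g H) {v a b c : W} (h : BV H v a b c) :
    BV H (φ v) (φ a) (φ b) (φ c) := by
  refine ⟨(Indep3.map φ).2 h.1, φ.map_adj_iff.2 h.2.1, φ.map_adj_iff.2 h.2.2.1,
    φ.map_adj_iff.2 h.2.2.2.1, fun q hv ha hc => ?_⟩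
  rw [← symm_adj_iff] at ha hc ⊢
  exact h.2.2.2.2 _ (by rw [H.adj_comm, symm_adj_iff, H.adj_comm]; exact hv) ha hc

theorem compl_emb {W' : Type u} {H' : SimpleGraph W'} (e : H' ↪g H) {a b : W'} :
    Hᶜ.Adj (e a) (e b) ↔ H'ᶜ.Adj a b := by
  simp only [SimpleGraph.compl_adj, e.map_adj_iff, ne_eq, e.injective.eq_iff]

theorem indep_emb {W' : Type u} {H' : SimpleGraph W'} (e : H' ↪g H) {a b c : W'} :
    Indep3 H (e a) (e b) (e c) ↔ Indep3 H' a b c := by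
  simp only [Indep3, compl_emb]

namespace L3

variable (hL : L3 H)
include hL

theorem nv_cn2 {v a b : W} (hab : Hᶜ.Adj a b) (ha : H.Adj v a) (hb : H.Adj v b) :
    ∃ q, H.Adj v q ∧ H.Adj q a ∧ H.Adj q b := by
  obtain ⟨W', H', e, he, hM⟩ := hL.mid v
  obtain ⟨a, rfl⟩ := (he _).1 ha
  obtain ⟨b, rfl⟩ := (he _).1 hb
  rw [compl_emb] at hab
  obtain ⟨q, hq1, hq2⟩ := (hM.toTF.cn2_inf hab).nonempty
  exact ⟨e q, (he _).2 ⟨q, rfl⟩, e.map_adj_iff.2 hq1, e.map_adj_iff.2 hq2⟩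

theorem nv_ncomp {v a b : W} (hab : Hᶜ.Adj a b) (ha : H.Adj v a) (hb : H.Adj v b) :
    ∃ q, H.Adj v q ∧ H.Adj q a ∧ ¬ H.Adj q b := by
  obtain ⟨W', H', e, he, hM⟩ := hL.mid v
  obtain ⟨a, rfl⟩ := (he _).1 ha
  obtain ⟨b, rfl⟩ := (he _).1 hb
  rw [compl_emb] at hab
  obtain ⟨q, hq1, hq2⟩ := hM.toTF.ncomp hab
  exact ⟨e q, (he _).2 ⟨q, rfl⟩, e.map_adj_iff.2 hq1, fun h => hq2 (e.map_adj_iff.1 h)⟩

omit hL in
theorem bv_emb {W' : Type u} {H' : SimpleGraph W'} (e : H' ↪g H) {v : W}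
    (he : ∀ x, H.Adj v x ↔ ∃ x', e x' = x) {a b c : W'} :
    BV H v (e a) (e b) (e c) ↔ Bet H' a b c := by
  constructor
  · rintro ⟨h1, -, -, -, h2⟩
    exact ⟨(indep_emb e).1 h1, fun q ha hc => e.map_adj_iff.1
      (h2 (e q) ((he _).2 ⟨q, rfl⟩) (e.map_adj_iff.2 ha) (e.map_adj_iff.2 hc))⟩
  · rintro ⟨h1, h2⟩
    refine ⟨(indep_emb e).2 h1, (he _).2 ⟨a, rfl⟩, (he _).2 ⟨b, rfl⟩, (he _).2 ⟨c, rfl⟩, ?_⟩
    intro q hq ha hc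
    obtain ⟨q, rfl⟩ := (he _).1 hq
    exact e.map_adj_iff.2 (h2 q (e.map_adj_iff.1 ha) (e.map_adj_iff.1 hc))

theorem nv_F6 {v w w' a : W} (hw : Hᶜ.Adj w w') (hvw : H.Adj v w) (hvw' : H.Adj v w')
    (hva : H.Adj v a) (haw : H.Adj a w) (haw' : H.Adj a w') :
    ∃ x, BV H v w w' x ∧ Hᶜ.Adj x a := by
  obtain ⟨W', H', e, he, hM⟩ := hL.mid v
  obtain ⟨w, rfl⟩ := (he _).1 hvw
  obtain ⟨w', rfl⟩ := (he _).1 hvw'
  obtain ⟨a, rfl⟩ := (he _).1 hva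
  obtain ⟨x, hx, hxa⟩ := hM.F6 ((compl_emb e).1 hw) (e.map_adj_iff.1 haw) (e.map_adj_iff.1 haw')
  exact ⟨e x, (bv_emb e he).2 hx, (compl_emb e).2 hxa⟩

theorem nv_exists_mid {v a b c : W} (hI : Indep3 H a b c) (ha : H.Adj v a) (hb : H.Adj v b)
    (hc : H.Adj v c) : BV H v a b c ∨ BV H v b a c ∨ BV H v a c b := by
  obtain ⟨W', H', e, he, hM⟩ := hL.mid v
  obtain ⟨a, rfl⟩ := (he _).1 ha
  obtain ⟨b, rfl⟩ := (he _).1 hb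
  obtain ⟨c, rfl⟩ := (he _).1 hc
  rw [indep_emb] at hI
  rcases hM.exists_mid hI with h | h | h
  · exact Or.inl ((bv_emb e he).2 h)
  · exact Or.inr (Or.inl ((bv_emb e he).2 h))
  · exact Or.inr (Or.inr ((bv_emb e he).2 h))

theorem nv_uniq {v a b c : W} (h : BV H v a b c) : ¬ BV H v b a c := by
  obtain ⟨W', H', e, he, hM⟩ := hL.mid v
  obtain ⟨a, rfl⟩ := (he _).1 h.2.1
  obtain ⟨b, rfl⟩ := (he _).1 h.2.2.1
  obtain ⟨c, rfl⟩ := (he _).1 h.2.2.2.1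
  rw [bv_emb e he] at h ⊢
  exact hM.uniq h

theorem nv_uniq' {v a b c : W} (h : BV H v a b c) : ¬ BV H v a c b := by
  intro h'
  exact hL.nv_uniq h.symm h'.symm

theorem nv_notBet_inf {v a b c : W} (hI : Indep3 H a b c) (ha : H.Adj v a) (hb : H.Adj v b)
    (hc : H.Adj v c) (h : ¬ BV H v a b c) :
    {r | H.Adj v r ∧ (H.Adj r a ∧ H.Adj r c) ∧ ¬ H.Adj r b}.Infinite := by
  obtain ⟨W', H', e, he, hM⟩ := hL.mid v
  obtain ⟨a, rfl⟩ := (he _).1 ha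
  obtain ⟨b, rfl⟩ := (he _).1 hb
  obtain ⟨c, rfl⟩ := (he _).1 hc
  rw [indep_emb] at hI
  rw [bv_emb e he] at h
  refine ((hM.notBet_inf hI h).image e.injective.injOn).mono ?_
  rintro _ ⟨r, ⟨⟨hra, hrc⟩, hrb⟩, rfl⟩
  exact ⟨(he _).2 ⟨r, rfl⟩, ⟨e.map_adj_iff.2 hra, e.map_adj_iff.2 hrc⟩,
    fun hh => hrb (e.map_adj_iff.1 hh)⟩

theorem k4 {a b c d : W} (h1 : H.Adj a b) (h2 : H.Adj a c) (h3 : H.Adj a d) (h4 : H.Adj b c)
    (h5 : H.Adj b d) : ¬ H.Adj c d := by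
  obtain ⟨W', H', e, he, hM⟩ := hL.mid a
  obtain ⟨b, rfl⟩ := (he _).1 h1
  obtain ⟨c, rfl⟩ := (he _).1 h2
  obtain ⟨d, rfl⟩ := (he _).1 h3
  rw [e.map_adj_iff] at h4 h5 ⊢
  exact hM.toTF.tri b c d h4 h5

/-- every nonadjacent pair has a common neighbour. -/
theorem cn1 {w w' : W} (hw : Hᶜ.Adj w w') : ∃ v, H.Adj v w ∧ H.Adj v w' := by
  obtain ⟨W', H', e, he, hM⟩ := hL.mid w
  obtain ⟨a, b, c, hb⟩ := hM.mid'
  obtain ⟨φ, hφ⟩ := hL.quasi.pair ((compl_emb e).2 hb.1.1) hw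
  have h1 : H.Adj (φ w) (φ (e a)) := φ.map_adj_iff.2 ((he _).2 ⟨a, rfl⟩)
  have h2 : H.Adj (φ w) (φ (e b)) := φ.map_adj_iff.2 ((he _).2 ⟨b, rfl⟩)
  rcases hφ with ⟨e1, e2⟩ | ⟨e1, e2⟩ <;> rw [e1] at h1 <;> rw [e2] at h2
  · exact ⟨_, h1, h2⟩
  · exact ⟨_, h2, h1⟩

/-- every nonadjacent pair has two adjacent common neighbours. -/
theorem cn2 {w w' : W} (hw : Hᶜ.Adj w w') :
    ∃ v q, H.Adj v w ∧ H.Adj v w' ∧ H.Adj v q ∧ H.Adj q w ∧ H.Adj q w' := by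
  obtain ⟨v, h1, h2⟩ := hL.cn1 hw
  obtain ⟨q, h3, h4, h5⟩ := hL.nv_cn2 hw h1 h2
  exact ⟨v, q, h1, h2, h3, h4, h5⟩

/-- (i-1) -/
theorem bv_indep {v v' a b c : W} (h : BV H v a b c) (h' : H.Adj v' a ∧ H.Adj v' b ∧ H.Adj v' c) :
    BV H v' a b c := by
  obtain ⟨k, ka, kb, kc, kv⟩ := hL.rel a b c v v' h.1 ⟨h.2.1, h.2.2.1, h.2.2.2.1⟩ h'
  have := h.map k
  rwa [ka, kb, kc, kv] at this

/-- (i) -/
theorem bet_of_bv {v a b c : W} (h : BV H v a b c) : Bet H a b c := by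
  refine ⟨h.1, fun w hwa hwc => ?_⟩
  by_contra hwb
  have hbw : b ≠ w := by rintro rfl; exact h.1.1.2 hwa.symm
  have hpat : P3K1 H a w c b :=
    ⟨hwa, hwc, h.1.2.1, h.1.1.symm, ⟨hbw, fun hh => hwb hh.symm⟩, h.1.2.2⟩
  obtain ⟨q, hvq, ⟨hqa, hqb⟩, hqc⟩ := (hL.nv_notBet_inf (v := v) (a := a) (b := c) (c := b)
    h.1.swap23 h.2.1 h.2.2.2.1 h.2.2.1 (hL.nv_uniq' h)).nonempty
  have hcq : c ≠ q := by rintro rfl; exact h.1.2.1.2 hqa.symm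
  have hpat' : P3K1 H a q b c :=
    ⟨hqa, hqb, h.1.1, h.1.2.1.symm, ⟨hcq, fun hh => hqc hh.symm⟩, h.1.2.2.symm⟩
  obtain ⟨φ, -, h2, h3⟩ := hL.quasi.p3k1 hpat hpat'
  have h4 := h.map φ
  rw [h2] at h4
  have h5 : BV H (φ v) a c b := by
    rcases h3 with ⟨e1, e2⟩ | ⟨e1, e2⟩
    · rwa [e1, e2] at h4
    · rw [e1, e2] at h4; exact h4.symm
  exact hL.nv_uniq' h (hL.bv_indep h5 ⟨h.2.1, h.2.2.2.1, h.2.2.1⟩)

theorem bv_of_bet {v a b c : W} (h : Bet H a b c) (h' : H.Adj v a ∧ H.Adj v b ∧ H.Adj v c) :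
    BV H v a b c := ⟨h.1, h'.1, h'.2.1, h'.2.2, fun q _ ha hc => h.2 q ha hc⟩

theorem exists_mid {a b c : W} (hI : Indep3 H a b c) :
    Bet H a b c ∨ Bet H b a c ∨ Bet H a c b := by
  obtain ⟨v, ha, hb, hc⟩ := hL.om a b c hI
  rcases hL.nv_exists_mid hI ha hb hc with h | h | h
  · exact Or.inl (hL.bet_of_bv h)
  · exact Or.inr (Or.inl (hL.bet_of_bv h))
  · exact Or.inr (Or.inr (hL.bet_of_bv h))

theorem uniq' {a b c : W} (h : Bet H a b c) : ¬ Bet H a c b := by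
  intro h'
  obtain ⟨v, ha, hb, hc⟩ := hL.om a b c h.1
  exact hL.nv_uniq' (hL.bv_of_bet h ⟨ha, hb, hc⟩) (hL.bv_of_bet h' ⟨ha, hc, hb⟩)

theorem ncomp {w w' : W} (hw : Hᶜ.Adj w w') : ∃ q, H.Adj q w ∧ ¬ H.Adj q w' := by
  obtain ⟨v, h1, h2⟩ := hL.cn1 hw
  obtain ⟨q, -, h3, h4⟩ := hL.nv_ncomp hw h1 h2
  exact ⟨q, h3, h4⟩

/-- (B1') -/
theorem B1 {a b c d : W} (h : Bet H a b c) (hd : H.Adj d b) : H.Adj d a ∨ H.Adj d c := by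
  by_contra hno
  push Not at hno
  have hda : d ≠ a := by rintro rfl; exact h.1.1.2 hd
  have hdc : d ≠ c := by rintro rfl; exact h.1.2.2.2 hd.symm
  have hI : Indep3 H a d c := ⟨⟨hda.symm, fun hh => hno.1 hh.symm⟩, h.1.2.1, ⟨hdc, hno.2⟩⟩
  rcases hL.exists_mid hI with h1 | h1 | h1
  · obtain ⟨v, q, hv1, hv2, hvq, hq1, hq2⟩ := hL.cn2 h.1.2.1
    exact hL.k4 hvq (h1.2 v hv1 hv2) (h.2 v hv1 hv2) (h1.2 q hq1 hq2) (h.2 q hq1 hq2) hd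
  · obtain ⟨v, q, hv1, hv2, hvq, hq1, hq2⟩ := hL.cn2 hI.2.2
    have hva := h1.2 v hv1 hv2
    have hqa := h1.2 q hq1 hq2
    exact hL.k4 hvq hv1 (h.2 v hva hv2) hq1 (h.2 q hqa hq2) hd
  · obtain ⟨v, q, hv1, hv2, hvq, hq1, hq2⟩ := hL.cn2 hI.1
    have hvc := h1.2 v hv1 hv2
    have hqc := h1.2 q hq1 hq2
    exact hL.k4 hvq hv2 (h.2 v hv1 hvc) hq2 (h.2 q hq1 hqc) hd

/-- (i-4) -/
theorem two_beyond {w w' : W} (hw : Hᶜ.Adj w w') :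
    ∃ x y, H.Adj x y ∧ Bet H w w' x ∧ Bet H w w' y := by
  obtain ⟨v, a, hv1, hv2, hva, ha1, ha2⟩ := hL.cn2 hw
  obtain ⟨x, hx, hxa⟩ := hL.nv_F6 hw hv1 hv2 hva ha1 ha2
  obtain ⟨y, hy, hyv⟩ := hL.nv_F6 hw ha1 ha2 hva.symm hv1 hv2
  have hbx := hL.bet_of_bv hx
  have hby := hL.bet_of_bv hy
  refine ⟨x, y, ?_, hbx, hby⟩
  by_contra hxy
  have hvx : H.Adj v x := hx.2.2.2.1
  have hay : H.Adj a y := hy.2.2.2.1
  have hne : x ≠ y := by rintro rfl; exact hyv.2 hvx.symm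
  have hI : Indep3 H w x y := ⟨hbx.1.2.1, hby.1.2.1, ⟨hne, hxy⟩⟩
  rcases hL.exists_mid hI with h | h | h
  · exact hxa.2 (h.2 a ha1 hay).symm
  · obtain ⟨q, hq, hqw⟩ := hL.ncomp hw.symm
    exact hqw (h.2 q ((hL.B1 hbx hq).resolve_left hqw) ((hL.B1 hby hq).resolve_left hqw))
  · exact hyv.2 (h.2 v hv1 hvx).symm

/-- (i-5) -/
theorem diff_indep {w w' p p' : W} (hw : Hᶜ.Adj w w') (hp : H.Adj p w') (hpw : ¬ H.Adj p w)
    (hp' : H.Adj p' w') (hpw' : ¬ H.Adj p' w) : ¬ H.Adj p p' := by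
  obtain ⟨x, y, hxy, hx, hy⟩ := hL.two_beyond hw
  intro hpp
  exact hL.k4 hpp ((hL.B1 hx hp).resolve_left hpw) ((hL.B1 hy hp).resolve_left hpw)
    ((hL.B1 hx hp').resolve_left hpw') ((hL.B1 hy hp').resolve_left hpw') hxy

/-- (i-6) -/
theorem false_of {w u : W} (hw : Hᶜ.Adj w u) : False := by
  obtain ⟨x, y, hxy, hx, hy⟩ := hL.two_beyond hw
  have hux : Hᶜ.Adj u x := hx.1.2.2
  have huy : Hᶜ.Adj u y := hy.1.2.2
  obtain ⟨z, -, -, hz, -⟩ := hL.two_beyond hux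
  obtain ⟨v, hvu, hvx, hvz⟩ := hL.om u x z hz.1
  have hinf := hL.nv_notBet_inf (v := v) (a := u) (b := z) (c := x) hz.1.swap23 hvu hvz hvx
    (hL.nv_uniq' (hL.bv_of_bet hz ⟨hvu, hvx, hvz⟩))
  obtain ⟨e1, -, ⟨he1u, he1x⟩, he1z⟩ := hinf.nonempty
  obtain ⟨e2, ⟨-, ⟨he2u, he2x⟩, he2z⟩, hne⟩ := (hinf.sdiff (Set.finite_singleton e1)).nonempty
  have hne : e2 ≠ e1 := hne
  have huz : Hᶜ.Adj u z := hz.1.2.1
  have hxz : Hᶜ.Adj x z := hz.1.2.2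
  have he12 : ¬ H.Adj e1 e2 := hL.diff_indep hxz.symm he1x he1z he2x he2z
  have he12' : Hᶜ.Adj e1 e2 := ⟨hne.symm, he12⟩
  -- neighbours of `e1` or `e2` inside `Γ(u)` are adjacent to `x`
  have hA : ∀ p e, H.Adj e u → H.Adj e x → ¬ H.Adj e z → H.Adj u p → H.Adj p e → H.Adj p x := by
    intro p e heu hex hez hup hpe
    by_contra hpx
    have hpz : ¬ H.Adj p z := fun hh => hpx (hz.2 p hup.symm hh)
    exact hL.diff_indep huz.symm hup.symm hpz heu hez hpe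
  obtain ⟨p1, hup1, h11, h12⟩ := hL.nv_ncomp he12' he1u.symm he2u.symm
  obtain ⟨p2, hup2, h21, h22⟩ := hL.nv_cn2 he12' he1u.symm he2u.symm
  have hp1e2 : Hᶜ.Adj p1 e2 := ⟨by rintro rfl; exact he12 h11.symm, h12⟩
  obtain ⟨p3, hup3, h31, h32⟩ := hL.nv_cn2 hp1e2 hup1 he2u.symm
  have hp1x := hA p1 e1 he1u he1x he1z hup1 h11
  have hp2x := hA p2 e1 he1u he1x he1z hup2 h21
  have hp3x := hA p3 e2 he2u he2x he2z hup3 h32
  -- adjacent vertices of `Γ(u) ∩ Γ(x)` differ in adjacency to `y`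
  have hB : ∀ p q, H.Adj u p → H.Adj u q → H.Adj p x → H.Adj q x → H.Adj p q →
      (H.Adj p y ↔ ¬ H.Adj q y) := by
    intro p q hup huq hpx hqx hpq
    constructor
    · intro hpy hqy
      exact hL.k4 hpq hpx hpy hqx hqy hxy
    · intro hqy
      by_contra hpy
      exact hL.diff_indep huy.symm hup.symm hpy huq.symm hqy hpq
  have b1 := hB e1 p1 he1u.symm hup1 he1x hp1x h11.symm
  have b2 := hB p1 p3 hup1 hup3 hp1x hp3x h31.symm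
  have b3 := hB p3 e2 hup3 he2u.symm hp3x he2x h32
  have b4 := hB e2 p2 he2u.symm hup2 he2x hp2x h22.symm
  have b5 := hB p2 e1 hup2 he1u.symm hp2x he1x h21
  tauto

theorem absurd [Nonempty W] : False := by
  obtain ⟨v⟩ := (inferInstance : Nonempty W)
  obtain ⟨W', H', e, he, hM⟩ := hL.mid v
  obtain ⟨a, b, c, hb⟩ := hM.mid'
  exact hL.false_of ((compl_emb e).2 hb.1.1)

end L3

end Run7.h901
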