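import Pool.Agent.Run7.h901.P11

/-!
Imprimitive case.
-/

open scoped Classical

namespace Run7.h901

universe u
variable {V : Type u} {G : SimpleGraph V}

theorem IsPI.conj (hG : SetHomogeneous G) {s : Finset (V × V)} (h : IsPI G s) :
    ∃ φ : G ≃g G, (s.image Prod.fst).image φ = s.image Prod.snd := by
  have h1 := FIso.of_family (G := G) (ι := s) (y := fun p => p.1.1) (y' := fun p => p.1.2)
    (fun p q hpq => Subtype.ext (Prod.ext hpq ((h p p.2 q q.2).1.1 hpq)))
    (fun p q hpq => Subtype.ext (Prod.ext ((h p p.2 q q.2).1.2 hpq) hpq))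
    (fun p q => (h p p.2 q q.2).2)
  have h2 : Finset.univ.image (fun p : s => p.1.1) = s.image Prod.fst := by
    ext v; simp
  have h3 : Finset.univ.image (fun p : s => p.1.2) = s.image Prod.snd := by
    ext v; simp
  rw [h2, h3] at h1
  exact h1.conj hG

/-- if every finite isomorphism extends to a new vertex *outside of its domain* we are done. -/
theorem homogeneous_of_ext [Countable V]
    (h : ∀ s : Finset (V × V), IsPI G s → ∀ x : V, x ∉ s.image Prod.fst →
      ∃ y : V, y ∉ s.image Prod.snd ∧ ∀ p ∈ s, (G.Adj p.1 x ↔ G.Adj p.2 y)) : Homogeneous G := by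
  apply P11_backforth
  intro s hs x
  by_cases hx : x ∈ s.image Prod.fst
  · rw [Finset.mem_image] at hx
    obtain ⟨q, hq, rfl⟩ := hx
    exact ⟨q.2, fun p hp => hs p hp q hq⟩
  · obtain ⟨y, hy, hA⟩ := h s hs x hx
    refine ⟨y, fun p hp => ⟨⟨fun h1 => ?_, fun h1 => ?_⟩, hA p hp⟩⟩
    · exact absurd (h1 ▸ Finset.mem_image_of_mem _ hp) hx
    · exact absurd (h1 ▸ Finset.mem_image_of_mem _ hp) hy

theorem P12_noP3 [Countable V] (hG : SetHomogeneous G) (h : ¬ HasP3 G Set.univ) :
    Homogeneous G := by
  have htr : ∀ a b c : V, G.Adj a b → G.Adj b c → a ≠ c → G.Adj a c := by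
    intro a b c hab hbc hac
    by_contra hn
    exact h ⟨a, trivial, b, trivial, c, trivial, hab, hbc, hac, hn⟩
  apply homogeneous_of_ext
  intro s hs x hx
  obtain ⟨φ, hφ⟩ := hs.conj hG
  by_cases hn : ∀ p ∈ s, ¬ G.Adj p.1 x
  · refine ⟨φ x, ?_, ?_⟩
    · intro hh
      rw [← hφ, Finset.mem_image] at hh
      obtain ⟨a, ha, hax⟩ := hh
      rw [φ.injective hax] at ha
      exact hx ha
    · intro p hp
      refine ⟨fun h1 => absurd h1 (hn p hp), fun h1 => ?_⟩
      exfalso
      have hp2 : p.2 ∈ s.image Prod.snd := Finset.mem_image_of_mem _ hp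
      rw [← hφ, Finset.mem_image] at hp2
      obtain ⟨a, ha, hap⟩ := hp2
      rw [← hap, φ.map_adj_iff] at h1
      rw [Finset.mem_image] at ha
      obtain ⟨q, hq, rfl⟩ := ha
      exact hn q hq h1
  · push Not at hn
    obtain ⟨⟨a, b⟩, hab, hax⟩ := hn
    have hxa : x ≠ a := hax.ne'
    simp only at hax
    -- a vertex in the class of `b` outside of the range
    have key : ∃ y, G.Adj b y ∧ y ∉ s.image Prod.snd := by
      by_contra hcon
      push Not at hcon
      obtain ⟨ψ, hψ⟩ := clique_conj hG (k := 1) (C := {b}) (C' := {a}) (by simp) (by simp)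
      have hψb : ψ b = a := by simpa using hψ.1
      let s' := s.filter (fun p => p.2 = b ∨ G.Adj b p.2)
      let Kb := (s.image Prod.snd).filter (fun v => v = b ∨ G.Adj b v)
      have h1 : s'.image Prod.snd = Kb := by
        ext v
        simp only [s', Kb, Finset.mem_image, Finset.mem_filter]
        constructor
        · rintro ⟨p, ⟨hp, hp2⟩, rfl⟩
          exact ⟨⟨p, hp, rfl⟩, hp2⟩
        · rintro ⟨⟨p, hp, rfl⟩, hp2⟩
          exact ⟨p, ⟨hp, hp2⟩, rfl⟩
      have h1c : s'.card = Kb.card := by
        rw [← h1, Finset.card_image_of_injOn]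
        intro p hp q hq hpq
        have hp' := (Finset.mem_filter.1 hp).1
        have hq' := (Finset.mem_filter.1 hq).1
        exact Prod.ext ((hs p hp' q hq').1.2 hpq) hpq
      have h2c : (s'.image Prod.fst).card = s'.card := by
        rw [Finset.card_image_of_injOn]
        intro p hp q hq hpq
        have hp' := (Finset.mem_filter.1 hp).1
        have hq' := (Finset.mem_filter.1 hq).1
        exact Prod.ext hpq ((hs p hp' q hq').1.1 hpq)
      have hKa : ∀ v, (v = a ∨ G.Adj a v) → v ∈ Kb.image ψ := by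
        intro v hv
        rw [Finset.mem_image]
        refine ⟨ψ.symm v, ?_, by simp⟩
        have hba : ψ.symm a = b := by rw [← hψb]; simp
        rw [Finset.mem_filter]
        rcases hv with rfl | hv
        · rw [hba]
          exact ⟨Finset.mem_image_of_mem Prod.snd hab, Or.inl rfl⟩
        · have : G.Adj b (ψ.symm v) := by
            rw [← hba]; exact ψ.symm.map_adj_iff.2 hv
          exact ⟨hcon _ this, Or.inr this⟩
      have h3 : s'.image Prod.fst ⊆ (Kb.image ψ).erase x := by
        intro v hv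
        rw [Finset.mem_image] at hv
        obtain ⟨p, hp, rfl⟩ := hv
        obtain ⟨hp, hp2⟩ := Finset.mem_filter.1 hp
        rw [Finset.mem_erase]
        refine ⟨fun h4 => hx (h4 ▸ Finset.mem_image_of_mem _ hp), hKa _ ?_⟩
        have h5 := hs p hp _ hab
        rcases hp2 with hp2 | hp2
        · left; exact h5.1.2 hp2
        · right; exact (h5.2.2 hp2.symm).symm
      have h4 := Finset.card_le_card h3
      rw [Finset.card_erase_of_mem (hKa x (Or.inr hax)), h2c, h1c,
        Finset.card_image_of_injective _ ψ.injective] at h4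
      have h6 : 0 < Kb.card := by
        rw [← Finset.card_image_of_injective Kb ψ.injective]
        exact Finset.card_pos.2 ⟨x, hKa x (Or.inr hax)⟩
      omega
    obtain ⟨y, hby, hy⟩ := key
    refine ⟨y, hy, fun p hp => ?_⟩
    have h5 := hs p hp _ hab
    simp only at h5
    have hpx : p.1 ≠ x := fun h1 => hx (h1 ▸ Finset.mem_image_of_mem _ hp)
    have hpy : p.2 ≠ y := fun h1 => hy (h1 ▸ Finset.mem_image_of_mem _ hp)
    constructor
    · intro h1
      by_cases h2 : p.1 = a
      · rw [h5.1.1 h2]; exact hby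
      · have h3 : G.Adj p.1 a := htr _ _ _ h1 hax.symm h2
        exact htr _ _ _ (h5.2.1 h3) hby hpy
    · intro h1
      by_cases h2 : p.2 = b
      · rw [h5.1.2 h2]; exact hax
      · have h3 : G.Adj p.2 b := htr _ _ _ h1 hby.symm h2
        exact htr _ _ _ (h5.2.2 h3) hax hpx

end Run7.h901
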