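import Pool.Agent.Run7.h901.Defs
import Pool.Agent.H267R3.Folk

/-!
Vertex Folkman theorem.
-/

open scoped Classical

namespace Run7.h901

/-- the shift graph on `{(i,j) : i < j < N}`. -/
def shiftG (N : ℕ) : SimpleGraph {p : Fin N × Fin N // p.1 < p.2} where
  Adj p q := p.1.2 = q.1.1 ∨ q.1.2 = p.1.1
  symm := ⟨fun p q h => h.symm⟩
  loopless := ⟨fun p h => by
    rcases h with h | h
    · exact absurd h p.2.ne'
    · exact absurd h p.2.ne'⟩

theorem shift_free (N : ℕ) : (shiftG N).CliqueFree 3 := by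
  intro T hT
  rw [SimpleGraph.is3Clique_iff] at hT
  obtain ⟨⟨⟨a, a'⟩, ha⟩, ⟨⟨b, b'⟩, hb⟩, ⟨⟨c, c'⟩, hcc⟩, h1, h2, h3, -⟩ := hT
  simp only [shiftG] at h1 h2 h3 ha hb hcc
  have ha' : a.val < a'.val := ha
  have hb' : b.val < b'.val := hb
  have hc' : c.val < c'.val := hcc
  rcases h1 with h1 | h1 <;> rcases h2 with h2 | h2 <;> rcases h3 with h3 | h3 <;>
  · have h1' := congrArg Fin.val h1
    have h2' := congrArg Fin.val h2
    have h3' := congrArg Fin.val h3
    omega

theorem shift_mono (κ : Type) [Finite κ] : ∃ N : ℕ,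
    ∀ χ : {p : Fin N × Fin N // p.1 < p.2} → κ, ∃ p q, (shiftG N).Adj p q ∧ χ p = χ q := by
  have := Fintype.ofFinite κ
  refine ⟨Fintype.card (Set κ) + 1, fun χ => ?_⟩
  by_contra hcon
  push Not at hcon
  -- colour set of the out-pairs
  let A : Fin (Fintype.card (Set κ) + 1) → Set κ :=
    fun i => {c | ∃ (j : _) (h : i < j), χ ⟨(i, j), h⟩ = c}
  have hA : Function.Injective A := by
    intro i j hij
    by_contra hne
    wlog hlt : i < j generalizing i j with H
    · exact H hij.symm (Ne.symm hne) (lt_of_le_of_ne (not_lt.1 hlt) (Ne.symm hne))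
    have h1 : χ ⟨(i, j), hlt⟩ ∈ A i := ⟨j, hlt, rfl⟩
    rw [hij] at h1
    obtain ⟨k, hk, h2⟩ := h1
    exact hcon ⟨(i, j), hlt⟩ ⟨(j, k), hk⟩ (Or.inl rfl) h2.symm
  have := Fintype.card_le_of_injective A hA
  rw [Fintype.card_fin] at this
  omega

theorem P7_folkman {m : ℕ} (hm : 2 ≤ m) (κ : Type) [Finite κ] [Nonempty κ] :
    ∃ (X : Type) (_ : Finite X) (Γ : SimpleGraph X), Γ.CliqueFree (m + 1) ∧
      ∀ χ : X → κ, ∃ Q : Finset X, Γ.IsNClique m Q ∧ ∀ x ∈ Q, ∀ y ∈ Q, χ x = χ y := by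
  rcases hm.eq_or_lt with rfl | hm3
  · obtain ⟨N, hN⟩ := shift_mono κ
    refine ⟨_, inferInstance, shiftG N, shift_free N, fun χ => ?_⟩
    obtain ⟨p, q, hpq, hχ⟩ := hN χ
    refine ⟨{p, q}, ?_, ?_⟩
    · constructor
      · intro x hx y hy hxy
        simp only [Finset.coe_insert, Finset.coe_singleton, Set.mem_insert_iff,
          Set.mem_singleton_iff] at hx hy
        rcases hx with rfl | rfl <;> rcases hy with rfl | rfl
        · exact absurd rfl hxy
        · exact hpq
        · exact hpq.symm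
        · exact absurd rfl hxy
      · rw [Finset.card_pair hpq.ne]
    · intro x hx y hy
      simp only [Finset.mem_insert, Finset.mem_singleton] at hx hy
      rcases hx with rfl | rfl <;> rcases hy with rfl | rfl <;> simp [hχ]
  · obtain ⟨X, hX, Γ, hΓ, h⟩ := H267R3.Folk.folkman m hm (κ × κ)
    refine ⟨X, hX, Γ, hΓ, fun χ => ?_⟩
    obtain ⟨e, ⟨c1, c2⟩, he⟩ := h (fun x y => (χ x, χ y))
    have hinj : Function.Injective e := by
      intro i j hij
      by_contra hne
      rcases lt_or_gt_of_ne hne with hlt | hlt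
      · exact Γ.irrefl (hij ▸ (he i j hlt).1)
      · exact Γ.irrefl (hij ▸ (he j i hlt).1)
    have h1 : ∀ i : Fin m, (i : ℕ) + 1 < m → χ (e i) = c1 := by
      intro i hi
      exact congrArg Prod.fst (he i ⟨i + 1, hi⟩ (by rw [Fin.lt_def]; simp)).2
    have h2 : ∀ j : Fin m, 0 < (j : ℕ) → χ (e j) = c2 := by
      intro j hj
      exact congrArg Prod.snd (he ⟨0, by omega⟩ j (by rw [Fin.lt_def]; simpa using hj)).2
    have h12 : c1 = c2 := by
      rw [← h1 ⟨1, by omega⟩ (by simpa using hm3), h2 ⟨1, by omega⟩ (by simp)]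
    have h3 : ∀ i : Fin m, χ (e i) = c1 := by
      intro i
      by_cases hi : 0 < (i : ℕ)
      · rw [h2 i hi, h12]
      · exact h1 i (by omega)
    refine ⟨Finset.univ.image e, ⟨?_, ?_⟩, ?_⟩
    · intro x hx y hy hxy
      rw [Finset.mem_coe, Finset.mem_image] at hx hy
      obtain ⟨i, -, rfl⟩ := hx
      obtain ⟨j, -, rfl⟩ := hy
      have hne : i ≠ j := fun h => hxy (by rw [h])
      rcases lt_or_gt_of_ne hne with hlt | hlt
      · exact (he i j hlt).1
      · exact (he j i hlt).1.symm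
    · rw [Finset.card_image_of_injective _ hinj, Finset.card_fin]
    · intro x hx y hy
      rw [Finset.mem_image] at hx hy
      obtain ⟨i, -, rfl⟩ := hx
      obtain ⟨j, -, rfl⟩ := hy
      rw [h3, h3]

end Run7.h901
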