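import Pool.Agent.Run7.h901.Defs

/-!
The embedding lemma.
-/

open scoped Classical

namespace Run7.h901

universe u
variable {V : Type u} {G : SimpleGraph V}

theorem P8_fin {k m : ℕ} (hEP : EP G k m) {C : Finset V} (hC : G.IsNClique k C) :
    ∀ (r : ℕ) (Γ : SimpleGraph (Fin r)), Γ.CliqueFree (m + 1) →
    ∃ f : Fin r → V, Function.Injective f ∧ (∀ i j, G.Adj (f i) (f j) ↔ Γ.Adj i j) ∧
      ∀ x, f x ∈ cn G C := by
  intro r
  induction r with
  | zero =>
    intro Γ _
    exact ⟨Fin.elim0, fun i => i.elim0, fun i => i.elim0, fun i => i.elim0⟩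
  | succ r ih =>
    intro Γ hΓ
    obtain ⟨f, hf, hfA, hfC⟩ := ih (Γ.comap Fin.castSucc) (by
      intro T hT
      apply hΓ (T.image Fin.castSucc)
      constructor
      · intro x hx y hy hxy
        rw [Finset.mem_coe, Finset.mem_image] at hx hy
        obtain ⟨x, hx, rfl⟩ := hx
        obtain ⟨y, hy, rfl⟩ := hy
        exact hT.1 hx hy (fun h => hxy (by rw [h]))
      · rw [Finset.card_image_of_injective _ (Fin.castSucc_injective r), hT.2])
    set S : Finset (Fin r) := Finset.univ.filter (fun i => Γ.Adj i.castSucc (Fin.last r)) with hS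
    obtain ⟨v, hvC, hvB, hvX, hvX'⟩ := hEP C hC (Finset.univ.image f) (S.image f) (by
        intro b hb
        rw [Finset.mem_image] at hb
        obtain ⟨i, -, rfl⟩ := hb
        exact hfC i) (Finset.image_subset_image (Finset.subset_univ _)) (by
        intro T hT hTc
        -- pull back `T`
        apply hΓ (insert (Fin.last r) ((S.filter (fun i => f i ∈ T)).image Fin.castSucc))
        have hcard : (S.filter (fun i => f i ∈ T)).card = m := by
          rw [← hTc.2, ← Finset.card_image_of_injective _ hf]
          congr 1
          ext v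
          rw [Finset.mem_image]
          constructor
          · rintro ⟨i, hi, rfl⟩
            exact (Finset.mem_filter.1 hi).2
          · intro hv
            have := hT hv
            rw [Finset.mem_coe, Finset.mem_image] at this
            obtain ⟨i, hi, rfl⟩ := this
            exact ⟨i, Finset.mem_filter.2 ⟨hi, hv⟩, rfl⟩
        apply SimpleGraph.IsNClique.insert
        · constructor
          · intro x hx y hy hxy
            rw [Finset.mem_coe, Finset.mem_image] at hx hy
            obtain ⟨x, hx, rfl⟩ := hx
            obtain ⟨y, hy, rfl⟩ := hy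
            have h1 : G.Adj (f x) (f y) := hTc.1 (Finset.mem_filter.1 hx).2
              (Finset.mem_filter.1 hy).2 (fun h => hxy (by rw [hf h]))
            exact (hfA x y).1 h1
          · rw [Finset.card_image_of_injective _ (Fin.castSucc_injective r), hcard]
        · intro b hb
          rw [Finset.mem_image] at hb
          obtain ⟨i, hi, rfl⟩ := hb
          have := (Finset.mem_filter.1 (Finset.mem_filter.1 hi).1).2
          exact this.symm)
    have hadj : ∀ i : Fin r, G.Adj v (f i) ↔ Γ.Adj (Fin.last r) i.castSucc := by
      intro i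
      constructor
      · intro h
        by_contra h2
        refine hvX' (f i) (Finset.mem_image_of_mem _ (Finset.mem_univ i)) ?_ h
        intro h3
        rw [Finset.mem_image] at h3
        obtain ⟨j, hj, hji⟩ := h3
        rw [hf hji] at hj
        exact h2 (Finset.mem_filter.1 hj).2.symm
      · intro h
        exact hvX _ (Finset.mem_image_of_mem _ (Finset.mem_filter.2 ⟨Finset.mem_univ _, h.symm⟩))
    refine ⟨Fin.snoc (α := fun _ => V) f v, ?_, ?_, ?_⟩
    · intro i j
      refine Fin.lastCases ?_ (fun i => ?_) i <;> refine Fin.lastCases ?_ (fun j => ?_) j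
      · simp
      · intro h
        simp only [Fin.snoc_last, Fin.snoc_castSucc] at h
        exact absurd (h ▸ Finset.mem_image_of_mem f (Finset.mem_univ j)) hvB
      · intro h
        simp only [Fin.snoc_last, Fin.snoc_castSucc] at h
        exact absurd (h ▸ Finset.mem_image_of_mem f (Finset.mem_univ i)) hvB
      · intro h
        simp only [Fin.snoc_castSucc] at h
        rw [hf h]
    · intro i j
      refine Fin.lastCases ?_ (fun i => ?_) i <;> refine Fin.lastCases ?_ (fun j => ?_) j
      · simp
      · simp only [Fin.snoc_last, Fin.snoc_castSucc]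
        exact hadj j
      · simp only [Fin.snoc_last, Fin.snoc_castSucc]
        rw [G.adj_comm, hadj i, Γ.adj_comm]
      · simp only [Fin.snoc_castSucc]
        exact hfA i j
    · intro i
      refine Fin.lastCases ?_ (fun i => ?_) i
      · simpa using hvC
      · simpa using hfC i

theorem P8_embed {k m : ℕ} (hEP : EP G k m) {C : Finset V} (hC : G.IsNClique k C)
    {X : Type} [Finite X] (Γ : SimpleGraph X) (hΓ : Γ.CliqueFree (m + 1)) :
    ∃ f : Γ ↪g G, ∀ x, f x ∈ cn G C := by
  have := Fintype.ofFinite X
  let e : X ≃ Fin (Fintype.card X) := Fintype.equivFin X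
  obtain ⟨f, hf, hfA, hfC⟩ := P8_fin hEP hC _ (Γ.comap e.symm) (by
    intro T hT
    apply hΓ (T.image e.symm)
    constructor
    · intro x hx y hy hxy
      rw [Finset.mem_coe, Finset.mem_image] at hx hy
      obtain ⟨x, hx, rfl⟩ := hx
      obtain ⟨y, hy, rfl⟩ := hy
      exact hT.1 hx hy (fun h => hxy (by rw [h]))
    · rw [Finset.card_image_of_injective _ e.symm.injective, hT.2])
  refine ⟨⟨⟨fun x => f (e x), fun x y h => e.injective (hf h)⟩, ?_⟩, fun x => hfC (e x)⟩
  intro x y
  have h1 := hfA (e x) (e y)
  rw [SimpleGraph.comap_adj, Equiv.symm_apply_apply, Equiv.symm_apply_apply] at h1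
  exact h1

end Run7.h901
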