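import Pool.Agent.Run7.h901.P10
import Pool.Agent.Run7.h901.P7
import Pool.Agent.Run7.h901.P8

/-!
Step F: the hypotheses (H1)-(H3) from the extension property one level up.
-/

open scoped Classical

namespace Run7.h901

universe u
variable {V : Type u} {G : SimpleGraph V}

theorem VR_of_embed {m : ℕ} (hm : 2 ≤ m) {X : Type} {Γ : SimpleGraph X} {S : Set V}
    (f : Γ ↪g G) (hf : ∀ x, f x ∈ S) (B : Finset V)
    (hX : ∀ χ : X → (Fin B.card → Bool), ∃ Q : Finset X, Γ.IsNClique m Q ∧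
      ∀ x ∈ Q, ∀ y ∈ Q, χ x = χ y) :
    ∃ Q : Finset V, G.IsNClique m Q ∧ (∀ q ∈ Q, q ∈ S) ∧ Disjoint Q B ∧
      ∀ b ∈ B, (∀ q ∈ Q, G.Adj b q) ∨ (∀ q ∈ Q, ¬ G.Adj b q) := by
  obtain ⟨Q, hQ, hmono⟩ := hX (fun x i => decide (G.Adj (B.equivFin.symm i) (f x)))
  have hmono' : ∀ b ∈ B, ∀ x ∈ Q, ∀ y ∈ Q, (G.Adj b (f x) ↔ G.Adj b (f y)) := by
    intro b hb x hx y hy
    have := congrFun (hmono x hx y hy) (B.equivFin ⟨b, hb⟩)
    simpa using this
  have hQ' : G.IsNClique m (Q.image f) := by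
    constructor
    · intro x hx y hy hxy
      rw [Finset.mem_coe, Finset.mem_image] at hx hy
      obtain ⟨x, hx, rfl⟩ := hx
      obtain ⟨y, hy, rfl⟩ := hy
      rw [f.map_adj_iff]
      exact hQ.1 hx hy (fun h => hxy (by rw [h]))
    · rw [Finset.card_image_of_injective _ f.injective, hQ.2]
  refine ⟨Q.image f, hQ', ?_, ?_, ?_⟩
  · intro q hq
    rw [Finset.mem_image] at hq
    obtain ⟨x, -, rfl⟩ := hq
    exact hf x
  · rw [Finset.disjoint_left]
    intro q hq hqB
    rw [Finset.mem_image] at hq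
    obtain ⟨x, hx, rfl⟩ := hq
    obtain ⟨y, hy, hxy⟩ := Finset.exists_mem_ne (s := Q) (by rw [hQ.2]; omega) x
    have h1 : G.Adj (f x) (f y) := f.map_adj_iff.2 (hQ.1 hx hy (Ne.symm hxy))
    rw [hmono' _ hqB y hy x hx] at h1
    exact G.irrefl h1
  · intro b hb
    obtain ⟨x, hx⟩ : Q.Nonempty := by rw [← Finset.card_pos, hQ.2]; omega
    by_cases h1 : G.Adj b (f x)
    · left
      intro q hq
      rw [Finset.mem_image] at hq
      obtain ⟨y, hy, rfl⟩ := hq
      exact (hmono' b hb x hx y hy).1 h1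
    · right
      intro q hq
      rw [Finset.mem_image] at hq
      obtain ⟨y, hy, rfl⟩ := hq
      exact fun h2 => h1 ((hmono' b hb x hx y hy).2 h2)

/-- a `K_{m+1}`-free finite set has a copy in the common neighbourhood of any `(k+1)`-clique. -/
theorem exists_copy {k m : ℕ} (hEP : EP G (k + 1) m) {C : Finset V} (hC : G.IsNClique (k + 1) C)
    {Y : Finset V} (hY : G.CliqueFreeOn (Y : Set V) (m + 1)) :
    ∃ Y' : Finset V, FIso G Y Y' ∧ ∀ y ∈ Y', y ∈ cn G C := by
  let e : Fin Y.card ≃ Y := Y.equivFin.symm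
  let g : Fin Y.card → V := fun i => (e i : V)
  have hg : Function.Injective g := fun i j hij => e.injective (Subtype.ext hij)
  have hΓ : (G.comap g).CliqueFree (m + 1) := by
    intro T hT
    apply hY (t := T.image g)
    · intro v hv
      rw [Finset.mem_coe, Finset.mem_image] at hv
      obtain ⟨i, -, rfl⟩ := hv
      exact (e i).2
    · constructor
      · intro x hx y hy hxy
        rw [Finset.mem_coe, Finset.mem_image] at hx hy
        obtain ⟨x, hx, rfl⟩ := hx
        obtain ⟨y, hy, rfl⟩ := hy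
        exact hT.1 hx hy (fun h => hxy (by rw [h]))
      · rw [Finset.card_image_of_injective _ hg, hT.2]
  obtain ⟨f, hf⟩ := P8_embed hEP hC (G.comap g) hΓ
  refine ⟨Finset.univ.image f, ?_, ?_⟩
  · have h1 := FIso.of_family (G := G) (y := g) (y' := f) hg f.injective (fun i j => by
      rw [f.map_adj_iff]; rfl)
    have h2 : Finset.univ.image g = Y := by
      ext v
      rw [Finset.mem_image]
      constructor
      · rintro ⟨i, -, rfl⟩; exact (e i).2
      · intro hv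
        exact ⟨e.symm ⟨v, hv⟩, Finset.mem_univ _, by simp [g]⟩
    rwa [h2] at h1
  · intro y hy
    rw [Finset.mem_image] at hy
    obtain ⟨i, -, rfl⟩ := hy
    exact hf i

theorem H2_of_EP {k m : ℕ} (hm : 2 ≤ m) (hEP : EP G (k + 1) m) {C : Finset V}
    (hC : G.IsNClique (k + 1) C) : VR G (cn G C) m := by
  intro B
  obtain ⟨X, hXfin, Γ, hΓ, hX⟩ := P7_folkman hm (Fin B.card → Bool)
  obtain ⟨f, hf⟩ := P8_embed hEP hC Γ hΓ
  exact VR_of_embed hm f hf B hX

theorem H1_of_EP {n k m : ℕ} (hc : Ctx G n) (hk : k + 1 + m = n) (hm : 2 ≤ m) (hgood : Good G k)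
    (hEP : EP G (k + 1) m) :
    ∀ C : Finset V, G.IsNClique k C → ∀ Y : Finset V, (∀ y ∈ Y, y ∈ cn G C) →
      G.CliqueFreeOn (Y : Set V) (m + 1) → (cn G (C ∪ Y)).Infinite := by
  by_contra hcon
  have hex : ∃ c : ℕ, ∃ C : Finset V, G.IsNClique k C ∧ ∃ Y : Finset V, (∀ y ∈ Y, y ∈ cn G C) ∧
      G.CliqueFreeOn (Y : Set V) (m + 1) ∧ (cn G (C ∪ Y)).Finite ∧ (cn G (C ∪ Y)).ncard = c := by
    push Not at hcon
    obtain ⟨C, hC, Y, hY, hYf, hfin⟩ := hcon
    exact ⟨_, C, hC, Y, hY, hYf, hfin, rfl⟩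
  obtain ⟨C, hC, Y0, hY0, hY0f, hfin, hcard⟩ := Nat.find_spec hex
  set c := Nat.find hex with hcdef
  -- copies
  have hcopy : ∀ e ∈ cn G C, ∃ Y : Finset V, (∀ y ∈ Y, y ∈ cn G (insert e C)) ∧
      ∀ x ∈ cn G C, Gᶜ.Adj e x → ∃ K : Finset V, K ⊆ Y ∧ G.IsNClique m K ∧ x ∈ cn G K := by
    intro e he
    have hCe := insert_clique hC he
    obtain ⟨Y, hYiso, hYS⟩ := exists_copy hEP hCe hY0f
    have hYC : ∀ y ∈ Y, y ∈ cn G C := fun y hy => (mem_cn_insert.1 (hYS y hy)).2
    have heY : e ∈ cn G Y := fun y hy => (mem_cn_insert.1 (hYS y hy)).1.symm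
    obtain ⟨φ, -, hφ⟩ := cn_conj hc.sh hC.1 hC.1 rfl hY0 hYC hYiso
    have hYfin : (cn G (C ∪ Y)).Finite := by rw [← hφ]; exact hfin.image _
    have hYcard : (cn G (C ∪ Y)).ncard = c := by
      rw [← hφ, Set.ncard_image_of_injective _ φ.injective, hcard]
    have hYfree : G.CliqueFreeOn (Y : Set V) (m + 1) := by
      intro T hT hTc
      have := hc.add_le hCe hTc (fun t ht => hYS t (hT ht))
      omega
    refine ⟨Y, hYS, fun x hx hex' => ?_⟩
    have hxY : x ∉ Y := fun h => hex'.2 (mem_cn_insert.1 (hYS x h)).1.symm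
    have hnot : ¬ G.CliqueFreeOn ((insert x Y : Finset V) : Set V) (m + 1) := by
      intro hfree
      have hsub : cn G (C ∪ insert x Y) ⊆ cn G (C ∪ Y) \ {e} := by
        intro v hv
        rw [mem_cn_union, mem_cn_insert] at hv
        refine ⟨mem_cn_union.2 ⟨hv.1, hv.2.2⟩, ?_⟩
        rintro rfl
        exact hex'.2 hv.2.1
      have hfin' : (cn G (C ∪ insert x Y)).Finite := (hYfin.subset Set.sdiff_subset).subset hsub
      have hlt : (cn G (C ∪ insert x Y)).ncard < c := by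
        rw [← hYcard]
        apply Set.ncard_lt_ncard _ hYfin
        refine ⟨hsub.trans Set.sdiff_subset, fun h => ?_⟩
        have := hsub (h (mem_cn_union.2 ⟨he, heY⟩))
        exact this.2 rfl
      exact Nat.find_min hex hlt ⟨C, hC, insert x Y, by
        intro y hy
        rw [Finset.mem_insert] at hy
        rcases hy with rfl | hy
        · exact hx
        · exact hYC y hy, hfree, hfin', rfl⟩
    unfold SimpleGraph.CliqueFreeOn at hnot
    push Not at hnot
    obtain ⟨T, hT, hTc⟩ := hnot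
    have hxT : x ∈ T := by
      by_contra hxT
      apply hYfree _ hTc
      intro t ht
      have := hT ht
      rw [Finset.coe_insert] at this
      rcases this with rfl | h
      · exact absurd ht hxT
      · exact h
    refine ⟨T.erase x, ?_, ?_, ?_⟩
    · intro t ht
      rw [Finset.mem_erase] at ht
      have := hT ht.2
      rw [Finset.coe_insert] at this
      rcases this with h | h
      · exact absurd h ht.1
      · exact h
    · simpa using hTc.erase_of_mem hxT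
    · intro t ht
      rw [Finset.mem_erase] at ht
      exact hTc.1 hxT ht.2 (Ne.symm ht.1)
  choose! Y hYS hYK using hcopy
  obtain ⟨-, -, e, he, x1, hx1, x2, hx2, h12, he1, he2⟩ := hgood C hC
  obtain ⟨Q, hQ, hQS, hQB, hmono⟩ := H2_of_EP hm hEP (insert_clique hC he)
    (Y x1 ∪ Y x2 ∪ {x1, x2})
  have hQC : ∀ q ∈ Q, q ∈ cn G C := fun q hq => (mem_cn_insert.1 (hQS q hq)).2
  have key : ∀ x ∈ cn G C, x ∈ (Y x1 ∪ Y x2 ∪ {x1, x2} : Finset V) →
      Y x ⊆ (Y x1 ∪ Y x2 ∪ {x1, x2} : Finset V) → x ∈ cn G Q := by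
    intro x hx hxB hYxB
    rcases hmono x hxB with h1 | h1
    · exact h1
    · exfalso
      obtain ⟨q, hq⟩ : Q.Nonempty := by rw [← Finset.card_pos, hQ.2]; omega
      have hxq : x ≠ q := by
        rintro rfl; exact Finset.disjoint_left.1 hQB hq hxB
      obtain ⟨K, hKY, hK, hqK⟩ := hYK x hx q (hQC q hq) ⟨hxq, h1 q hq⟩
      obtain ⟨q', hq', hne⟩ := Finset.exists_mem_ne (s := Q) (by rw [hQ.2]; omega) q
      have hKC : ∀ y ∈ K, y ∈ cn G C := fun y hy => (mem_cn_insert.1 (hYS x hx y (hKY hy))).2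
      have hq'K : q' ∈ cn G K := by
        intro y hy
        rcases hmono y (hYxB (hKY hy)) with h2 | h2
        · exact (h2 q' hq').symm
        · exact absurd (hqK y hy).symm (h2 q hq)
      exact hc.no_edge hC hK hKC (by omega) (hQC q hq) (hQC q' hq') hqK hq'K
        (hQ.1 hq hq' (Ne.symm hne))
  refine hc.no_edge hC hQ hQC (by omega) hx1 hx2 (key x1 hx1 ?_ ?_) (key x2 hx2 ?_ ?_) h12
  · simp
  · exact Finset.subset_union_left.trans Finset.subset_union_left
  · simp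
  · exact Finset.subset_union_right.trans Finset.subset_union_left

theorem P9_hyp {n k m : ℕ} (hc : Ctx G n) (hk : k + 1 + m = n) (hm : 2 ≤ m) (hgood : Good G k)
    (hEP : EP G (k + 1) m) :
    (∀ C : Finset V, G.IsNClique k C → ∀ Y : Finset V, (∀ y ∈ Y, y ∈ cn G C) →
      G.CliqueFreeOn (Y : Set V) (m + 1) → (cn G (C ∪ Y)).Infinite) ∧
    (∀ C : Finset V, G.IsNClique (k + 1) C → VR G (cn G C) m) ∧
    (∀ C : Finset V, G.IsNClique k C → ∀ a ∈ cn G C, ∀ b ∈ cn G C, Gᶜ.Adj a b →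
      VR G (cn G (insert a (insert b C))) m) := by
  refine ⟨H1_of_EP hc hk hm hgood hEP, fun C hC => H2_of_EP hm hEP hC, ?_⟩
  intro C hC a ha b hb hab B
  obtain ⟨X, hXfin, Γ, hΓ, hX⟩ := P7_folkman hm (Fin B.card → Bool)
  obtain ⟨f, hf⟩ := P8_embed hEP (insert_clique hC ha) Γ hΓ
  have := Fintype.ofFinite X
  set Y : Finset V := Finset.univ.image f with hYdef
  have hYC : ∀ y ∈ Y, y ∈ cn G C := by
    intro y hy
    rw [hYdef, Finset.mem_image] at hy
    obtain ⟨x, -, rfl⟩ := hy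
    exact (mem_cn_insert.1 (hf x)).2
  have hYfree : G.CliqueFreeOn (Y : Set V) (m + 1) := by
    intro T hT hTc
    have := hc.add_le (insert_clique hC ha) hTc (fun t ht => by
      have h1 := hT ht
      rw [hYdef, Finset.mem_coe, Finset.mem_image] at h1
      obtain ⟨x, -, rfl⟩ := h1
      exact hf x)
    omega
  have hinf := H1_of_EP hc hk hm hgood hEP C hC Y hYC hYfree
  -- an `m`-clique in `Y`
  obtain ⟨Q0, hQ0, -⟩ := hX (fun _ _ => true)
  have hQ0' : G.IsNClique m (Q0.image f) := by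
    constructor
    · intro x hx y hy hxy
      rw [Finset.mem_coe, Finset.mem_image] at hx hy
      obtain ⟨x, hx, rfl⟩ := hx
      obtain ⟨y, hy, rfl⟩ := hy
      rw [f.map_adj_iff]
      exact hQ0.1 hx hy (fun h => hxy (by rw [h]))
    · rw [Finset.card_image_of_injective _ f.injective, hQ0.2]
  have hQ0Y : Q0.image f ⊆ Y := Finset.image_subset_image (Finset.subset_univ _)
  obtain ⟨a', ha'⟩ := hinf.nonempty
  obtain ⟨b', hb'⟩ := (hinf.sdiff (Set.finite_singleton a')).nonempty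
  obtain ⟨hb', hne⟩ := hb'
  rw [mem_cn_union] at ha' hb'
  have hab' : Gᶜ.Adj a' b' := by
    refine ⟨fun h => hne h.symm, ?_⟩
    exact hc.no_edge hC hQ0' (fun q hq => hYC q (hQ0Y hq)) (by omega) ha'.1 hb'.1
      (cn_anti hQ0Y ha'.2) (cn_anti hQ0Y hb'.2)
  obtain ⟨φ, hφC, -, hφ⟩ := pair_conj hc.sh hC hC hab' hab ha'.1 hb'.1 ha hb
  refine VR_of_embed hm (f.trans φ.toEmbedding) ?_ B hX
  intro x
  have hfx : φ (f x) ∈ cn G C := by
    rw [← hφC, mem_cn_image]
    exact hYC _ (Finset.mem_image_of_mem _ (Finset.mem_univ x))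
  have hxY : f x ∈ Y := Finset.mem_image_of_mem _ (Finset.mem_univ x)
  have h1 : G.Adj (φ (f x)) (φ a') := φ.map_adj_iff.2 (ha'.2 _ hxY).symm
  have h2 : G.Adj (φ (f x)) (φ b') := φ.map_adj_iff.2 (hb'.2 _ hxY).symm
  change φ (f x) ∈ _
  rw [mem_cn_insert, mem_cn_insert]
  rcases hφ with ⟨h3, h4⟩ | ⟨h3, h4⟩
  · rw [h3] at h1; rw [h4] at h2
    exact ⟨h1, h2, hfx⟩
  · rw [h3] at h1; rw [h4] at h2
    exact ⟨h2, h1, hfx⟩

end Run7.h901
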