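import Pool.Agent.Run7.h901.P6
import Pool.Agent.Run7.h901.P9
import Pool.Agent.Run7.h901.P12

/-!
Assembly of Theorem A.
-/

open scoped Classical

namespace Run7.h901

universe u
variable {V : Type u} {G : SimpleGraph V}

/-- the homogeneous graph that is a disjoint union of complete graphs of one size. -/
def EqualCliques (G : SimpleGraph V) : Prop :=
  (∀ a b c : V, G.Adj a b → G.Adj b c → a ≠ c → G.Adj a c) ∧ ∀ a b : V, ∃ φ : G ≃g G, φ a = b

/-- the extension property characterising the countable generic `K_m`-free graph. -/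
def GenericCliqueFree (G : SimpleGraph V) (m : ℕ) : Prop :=
  G.CliqueFree m ∧ ∀ A B : Finset V, Disjoint A B → G.CliqueFreeOn (A : Set V) (m - 1) →
    ∃ v : V, v ∉ A ∧ v ∉ B ∧ (∀ a ∈ A, G.Adj v a) ∧ ∀ b ∈ B, ¬ G.Adj v b

theorem hyp_base {n : ℕ} (hc : Ctx G n) (hn : 2 ≤ n) (hgood : Good G (n - 2))
    (hs : Sigma3 G (n - 2)) : Hyp G (n - 2) 1 := by
  have hk : n - 2 + 2 = n := by omega
  have hD1 := P3_D1 hc hk hgood
  refine ⟨hD1, ?_, ?_, hs, P4_D2 hc hk hgood⟩
  · intro C hC B
    have hinf := infinite_succ hc.sh (fun C hC => ⟨(hgood C hC).1, (hgood C hC).2.1⟩) C hC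
    obtain ⟨q, hq, hqB⟩ := (hinf.sdiff B.finite_toSet).nonempty
    refine ⟨{q}, by simp, by simpa using hq, by simpa using hqB, fun b _ => ?_⟩
    by_cases h : G.Adj b q
    · left; simpa using h
    · right; simpa using h
  · intro C hC a ha b hb hab B
    have hinf := hD1 C hC {a, b} (by
      intro x hx
      simp only [Finset.mem_insert, Finset.mem_singleton] at hx
      rcases hx with rfl | rfl <;> assumption) (by
      rw [cliqueFreeOn_two_iff]
      have h1 : ¬ G.Adj b a := fun h => hab.2 h.symm
      intro x hx y hy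
      simp only [Finset.mem_insert, Finset.mem_singleton] at hx hy
      rcases hx with rfl | rfl <;> rcases hy with rfl | rfl <;>
        first
        | exact G.irrefl
        | exact hab.2
        | exact h1)
    obtain ⟨q, hq, hqB⟩ := (hinf.sdiff B.finite_toSet).nonempty
    have hq' : q ∈ cn G (insert a (insert b C)) := by
      rw [mem_cn_union] at hq
      rw [mem_cn_insert, mem_cn_insert]
      exact ⟨hq.2 a (by simp), hq.2 b (by simp), hq.1⟩
    refine ⟨{q}, by simp, by simpa using hq', by simpa using hqB, fun b _ => ?_⟩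
    by_cases h : G.Adj b q
    · left; simpa using h
    · right; simpa using h

theorem D2_all {n : ℕ} (hc : Ctx G n) (h : D2 G (n - 2)) {k : ℕ} (hk : k + 2 ≤ n) : D2 G k := by
  intro C hC
  obtain ⟨Q, hQ, hQC⟩ := hc.extend hC (r := n - 2 - k) (by omega)
  have h1 := join hC hQ hQC
  have e : k + (n - 2 - k) = n - 2 := by omega
  rw [e] at h1
  obtain ⟨c1, hc1, c2, hc2, a, ha, b, hb, h2⟩ := h _ h1
  exact ⟨c1, (mem_cn_union.1 hc1).1, c2, (mem_cn_union.1 hc2).1, a, (mem_cn_union.1 ha).1, b,
    (mem_cn_union.1 hb).1, h2⟩

theorem EP_all {n : ℕ} (hc : Ctx G n) (hn : 2 ≤ n) (h0 : Good G 0) (hs : Sigma3 G 0) :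
    ∀ m : ℕ, 1 ≤ m → m + 1 ≤ n → EP G (n - (m + 1)) (m + 1) := by
  have hgood := good_all hc h0
  have hk : n - 2 + 2 = n := by omega
  have hg2 := hgood (n - 2) (by omega)
  have hD1 := P3_D1 hc hk hg2
  have hD2 := P4_D2 hc hk hg2
  have hsig := sigma_all hc hg2 hD1 hs
  intro m hm
  induction m, hm using Nat.le_induction with
  | base =>
    intro _
    exact P10_EP hc (by omega) le_rfl (hyp_base hc hn hg2 (hsig _ (by omega)))
  | succ m hm ih =>
    intro hmn
    have hEP := ih (by omega)
    have e : n - (m + 1) = n - (m + 1 + 1) + 1 := by omega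
    rw [e] at hEP
    obtain ⟨H1, H2, H3⟩ := P9_hyp hc (k := n - (m + 1 + 1)) (m := m + 1) (by omega) (by omega)
      (hgood _ (by omega)) hEP
    exact P10_EP hc (by omega) (by omega) ⟨H1, H2, H3, hsig _ (by omega),
      D2_all hc hD2 (by omega)⟩

theorem generic_of_EP {n : ℕ} (hc : Ctx G n) (h : EP G 0 n) : GenericCliqueFree G (n + 1) := by
  refine ⟨hc.cf, fun A B hAB hA => ?_⟩
  rw [Nat.add_sub_cancel] at hA
  obtain ⟨v, -, hv, h1, h2⟩ := h ∅ (by simp) (A ∪ B) A (fun b _ => by simp)
    Finset.subset_union_left hA
  rw [Finset.mem_union, not_or] at hv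
  exact ⟨v, hv.1, hv.2, h1, fun b hb => h2 b (Finset.mem_union_right _ hb)
    (fun hbA => Finset.disjoint_left.1 hAB hbA hb)⟩

theorem homogeneous_of_generic [Countable V] {n : ℕ} (h : GenericCliqueFree G (n + 1)) :
    Homogeneous G := by
  obtain ⟨hcf, hext⟩ := h
  apply homogeneous_of_ext
  intro s hs x hx
  let X : Finset V := (s.filter (fun p => G.Adj p.1 x)).image Prod.snd
  let Y : Finset V := (s.filter (fun p => ¬ G.Adj p.1 x)).image Prod.snd
  obtain ⟨v, hvX, hvY, h1, h2⟩ := hext X Y (by
    rw [Finset.disjoint_left]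
    intro b hb hb'
    simp only [X, Y, Finset.mem_image, Finset.mem_filter] at hb hb'
    obtain ⟨p, ⟨hp, hp1⟩, rfl⟩ := hb
    obtain ⟨q, ⟨hq, hq1⟩, hpq⟩ := hb'
    rw [(hs q hq p hp).1.2 hpq] at hq1
    exact hq1 hp1) (by
    rw [Nat.add_sub_cancel]
    intro T hT hTc
    -- pull back the clique
    let T' : Finset V := (s.filter (fun p => p.2 ∈ T)).image Prod.fst
    have hc1 : (s.filter (fun p => p.2 ∈ T)).card = n := by
      rw [← hTc.2]
      have : (s.filter (fun p => p.2 ∈ T)).image Prod.snd = T := by
        ext v
        rw [Finset.mem_image]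
        constructor
        · rintro ⟨p, hp, rfl⟩; exact (Finset.mem_filter.1 hp).2
        · intro hv
          have := hT hv
          simp only [X, Finset.coe_image, Finset.coe_filter, Set.mem_image, Set.mem_ofPred_eq] at this
          obtain ⟨p, ⟨hp, -⟩, rfl⟩ := this
          exact ⟨p, Finset.mem_filter.2 ⟨hp, hv⟩, rfl⟩
      conv_rhs => rw [← this]
      rw [Finset.card_image_of_injOn]
      intro p hp q hq hpq
      have hp' := (Finset.mem_filter.1 hp).1
      have hq' := (Finset.mem_filter.1 hq).1
      exact Prod.ext ((hs p hp' q hq').1.2 hpq) hpq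
    have hT' : G.IsNClique n T' := by
      constructor
      · intro a ha b hb hab
        simp only [T', Finset.coe_image, Finset.coe_filter, Set.mem_image, Set.mem_ofPred_eq] at ha hb
        obtain ⟨p, ⟨hp, hpT⟩, rfl⟩ := ha
        obtain ⟨q, ⟨hq, hqT⟩, rfl⟩ := hb
        rw [(hs p hp q hq).2]
        exact hTc.1 hpT hqT (fun h => hab ((hs p hp q hq).1.2 h))
      · rw [← hc1]
        apply Finset.card_image_of_injOn
        intro p hp q hq hpq
        have hp' := (Finset.mem_filter.1 hp).1
        have hq' := (Finset.mem_filter.1 hq).1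
        exact Prod.ext hpq ((hs p hp' q hq').1.1 hpq)
    refine hcf _ (insert_clique hT' (v := x) ?_)
    intro a ha
    simp only [T', Finset.mem_image, Finset.mem_filter] at ha
    obtain ⟨p, ⟨hp, hpT⟩, rfl⟩ := ha
    have := hT hpT
    simp only [X, Finset.coe_image, Finset.coe_filter, Set.mem_image, Set.mem_ofPred_eq] at this
    obtain ⟨q, ⟨hq, hq1⟩, hpq⟩ := this
    rw [(hs q hq p hp).1.2 hpq] at hq1
    exact hq1.symm)
  refine ⟨v, ?_, fun p hp => ?_⟩
  · intro hv
    rw [Finset.mem_image] at hv
    obtain ⟨p, hp, rfl⟩ := hv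
    by_cases hpx : G.Adj p.1 x
    · exact hvX (Finset.mem_image_of_mem _ (Finset.mem_filter.2 ⟨hp, hpx⟩))
    · exact hvY (Finset.mem_image_of_mem _ (Finset.mem_filter.2 ⟨hp, hpx⟩))
  · by_cases hpx : G.Adj p.1 x
    · exact ⟨fun _ => (h1 _ (Finset.mem_image_of_mem _ (Finset.mem_filter.2 ⟨hp, hpx⟩))).symm,
        fun _ => hpx⟩
    · exact ⟨fun h => absurd h hpx, fun h => absurd h.symm
        (h2 _ (Finset.mem_image_of_mem _ (Finset.mem_filter.2 ⟨hp, hpx⟩)))⟩

/-! ### complements -/

/-- an automorphism of `G` as an automorphism of the complement. -/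
def complAut (φ : G ≃g G) : Gᶜ ≃g Gᶜ where
  toEquiv := φ.toEquiv
  map_rel_iff' := by
    intro a b
    simp only [SimpleGraph.compl_adj]
    have h1 : G.Adj (φ.toEquiv a) (φ.toEquiv b) ↔ G.Adj a b := φ.map_adj_iff
    rw [h1, φ.toEquiv.injective.ne_iff]

theorem SetHomogeneous.compl (h : SetHomogeneous G) : SetHomogeneous Gᶜ := by
  intro A B hA hB ⟨f⟩
  obtain ⟨φ, hφ⟩ := h A B hA hB ⟨{ toEquiv := f.toEquiv
                                   map_rel_iff' := by
                                    intro a b
                                    have h1 := f.map_adj_iff (v := a) (w := b)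
                                    simp only [SimpleGraph.comap_adj, SimpleGraph.compl_adj,
                                      Function.Embedding.subtype_apply] at h1 ⊢
                                    by_cases hab : a = b
                                    · subst hab; simp
                                    · have h2 : (f a : V) ≠ f b := fun h =>
                                        hab (f.injective (Subtype.ext h))
                                      have h3 : (a : V) ≠ b := fun h => hab (Subtype.ext h)
                                      have h4 : ¬ G.Adj (f a : V) (f b) ↔ ¬ G.Adj (a : V) b := by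
                                        tauto
                                      exact not_iff_not.1 h4 }⟩
  exact ⟨complAut φ, hφ⟩

theorem Homogeneous.compl (h : Homogeneous G) : Homogeneous Gᶜ := by
  intro A B hA hB f
  obtain ⟨φ, hφ⟩ := h A B hA hB { toEquiv := f.toEquiv
                                  map_rel_iff' := by
                                    intro a b
                                    have h1 := f.map_adj_iff (v := a) (w := b)
                                    simp only [SimpleGraph.comap_adj, SimpleGraph.compl_adj,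
                                      Function.Embedding.subtype_apply] at h1 ⊢
                                    by_cases hab : a = b
                                    · subst hab; simp
                                    · have h2 : (f a : V) ≠ f b := fun h =>
                                        hab (f.injective (Subtype.ext h))
                                      have h3 : (a : V) ≠ b := fun h => hab (Subtype.ext h)
                                      have h4 : ¬ G.Adj (f a : V) (f b) ↔ ¬ G.Adj (a : V) b := by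
                                        tauto
                                      exact not_iff_not.1 h4 }
  exact ⟨complAut φ, hφ⟩

theorem Homogeneous.of_compl (h : Homogeneous Gᶜ) : Homogeneous G := by
  have := h.compl
  rwa [compl_compl] at this

/-- vertex transitivity. -/
theorem vt (hG : SetHomogeneous G) (a b : V) : ∃ φ : G ≃g G, φ a = b := by
  obtain ⟨ψ, hψ⟩ := clique_conj hG (k := 1) (C := {a}) (C' := {b}) (by simp) (by simp)
  exact ⟨ψ, by simpa using hψ.1⟩

theorem compl_transfer_equalCliques (hG : SetHomogeneous G) (h : ¬ HasP3 G Set.univ) :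
    EqualCliques G := by
  refine ⟨?_, vt hG⟩
  intro a b c hab hbc hac
  by_contra hn
  exact h ⟨a, trivial, b, trivial, c, trivial, hab, hbc, hac, hn⟩

/-- **Theorem A**, finite clique number. -/
theorem main_cliqueFree [Countable V] [Infinite V] (hG : SetHomogeneous G)
    (hs : ∀ a b c a' b' c' : V, Indep3 G a b c → Indep3 G a' b' c' →
      ∃ φ : G ≃g G, φ a = a' ∧ φ b = b' ∧ φ c = c') {N : ℕ} (hN : G.CliqueFree N) :
    Homogeneous G ∧ (EqualCliques G ∨ EqualCliques Gᶜ ∨
      ∃ m, 3 ≤ m ∧ GenericCliqueFree G m) := by
  by_cases hP3 : HasP3 G Set.univ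
  swap
  · exact ⟨P12_noP3 hG hP3, Or.inl (compl_transfer_equalCliques hG hP3)⟩
  by_cases hK12 : HasK12 G Set.univ
  swap
  · have hno : ¬ HasP3 Gᶜ Set.univ := by
      rintro ⟨a, -, b, -, c, -, hab, hbc, hac⟩
      rw [compl_compl] at hac
      exact hK12 ⟨b, trivial, a, trivial, c, trivial, hac, hab.symm, hbc⟩
    exact ⟨(P12_noP3 hG.compl hno).of_compl,
      Or.inr (Or.inl (compl_transfer_equalCliques hG.compl hno))⟩
  -- the clique number
  have hex : ∃ m, G.CliqueFree m := ⟨N, hN⟩
  obtain ⟨n, hn⟩ : ∃ n, Nat.find hex = n + 1 := by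
    apply Nat.exists_eq_succ_of_ne_zero
    intro h0
    have := Nat.find_spec hex
    rw [h0] at this
    exact this ∅ (by simp)
  have hcf : G.CliqueFree (n + 1) := hn ▸ Nat.find_spec hex
  have hc : Ctx G n := ⟨hG, hcf, by
    have := Nat.find_min hex (m := n) (by omega)
    unfold SimpleGraph.CliqueFree at this
    push Not at this
    exact this⟩
  have h0 : Good G 0 := by
    intro C hC
    have : C = ∅ := SimpleGraph.isNClique_zero.1 hC
    subst this
    rw [cn_empty]
    exact ⟨Set.infinite_univ, hP3, hK12⟩
  have hn2 : 2 ≤ n := by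
    obtain ⟨a, -, b, -, c, -, hab, -, -⟩ := hP3
    have h1 : G.IsNClique 2 {a, b} := by
      have := insert_clique (G := G) (k := 1) (C := {b}) (by simp) (v := a) (by
        intro u hu; rw [Finset.mem_singleton] at hu; rw [hu]; exact hab)
      simpa using this
    have := hc.card_le h1.1
    rwa [h1.2] at this
  have hS0 : Sigma3 G 0 := by
    intro C hC a b c a' b' c' hI hI' _ _ _ _ _ _
    obtain ⟨φ, hφ⟩ := hs a b c a' b' c' hI hI'
    have : C = ∅ := SimpleGraph.isNClique_zero.1 hC
    subst this
    exact ⟨φ, by simp, hφ⟩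
  have hEP := EP_all hc hn2 h0 hS0 (n - 1) (by omega) (by omega)
  have e1 : n - (n - 1 + 1) = 0 := by omega
  have e2 : n - 1 + 1 = n := by omega
  rw [e1, e2] at hEP
  have hgen := generic_of_EP hc hEP
  exact ⟨homogeneous_of_generic hgen, Or.inr (Or.inr ⟨n + 1, by omega, hgen⟩)⟩

end Run7.h901
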