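import Pool.Agent.Run7.h901.P10b
import Pool.Agent.Run7.h901.Main

/-!
No smothering at the levels below `n - 2`, and the classification for clique number at least `3`.
-/

open scoped Classical

namespace Run7.h901

universe u
variable {V : Type u} {G : SimpleGraph V}

theorem triple_G (hG : SetHomogeneous G) {k : ℕ} {C : Finset V} (hC : G.IsNClique k C)
    {a b c a' b' c' : V} (h : Indep3 G a b c) (h' : Indep3 G a' b' c')
    (ha : a ∈ cn G C) (hb : b ∈ cn G C) (hcC : c ∈ cn G C)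
    (ha' : a' ∈ cn G C) (hb' : b' ∈ cn G C) (hcC' : c' ∈ cn G C) :
    ∃ φ : G ≃g G, C.image φ = C ∧
      ((φ a = a' ∧ φ b = b' ∧ φ c = c') ∨ (φ a = a' ∧ φ b = c' ∧ φ c = b') ∨
      (φ a = b' ∧ φ b = a' ∧ φ c = c') ∨ (φ a = b' ∧ φ b = c' ∧ φ c = a') ∨
      (φ a = c' ∧ φ b = a' ∧ φ c = b') ∨ (φ a = c' ∧ φ b = b' ∧ φ c = a')) := by
  obtain ⟨φ, σ, h1, hφ⟩ := T1 hG hC.1 hC.1 rfl (ι := Fin 3) (y := ![a, b, c]) (y' := ![a', b', c'])
    (triple_inj h) (triple_inj h')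
    (fun i j => ⟨fun hh => absurd hh (triple_nadj h i j), fun hh => absurd hh (triple_nadj h' i j)⟩)
    (by intro i; fin_cases i <;> simp [ha, hb, hcC])
    (by intro i; fin_cases i <;> simp [ha', hb', hcC'])
    (by
      intro i
      fin_cases i
      · exact ⟨1, by simp, triple_nadj h _ _⟩
      · exact ⟨0, by simp, triple_nadj h _ _⟩
      · exact ⟨0, by simp, triple_nadj h _ _⟩)
  refine ⟨φ, h1, ?_⟩
  have e0 : φ a = ![a', b', c'] (σ 0) := hφ 0
  have e1 : φ b = ![a', b', c'] (σ 1) := hφ 1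
  have e2 : φ c = ![a', b', c'] (σ 2) := hφ 2
  have n01 : σ 0 ≠ σ 1 := fun h => by simpa using σ.injective h
  have n02 : σ 0 ≠ σ 2 := fun h => by simpa using σ.injective h
  have n12 : σ 1 ≠ σ 2 := fun h => by simpa using σ.injective h
  rcases Quasi.fin3_perm _ _ _ n01 n02 n12 with ⟨k0, k1, k2⟩ | ⟨k0, k1, k2⟩ | ⟨k0, k1, k2⟩ |
    ⟨k0, k1, k2⟩ | ⟨k0, k1, k2⟩ | ⟨k0, k1, k2⟩ <;> rw [k0] at e0 <;> rw [k1] at e1 <;>
    rw [k2] at e2
  · exact Or.inl ⟨e0, e1, e2⟩
  · exact Or.inr (Or.inl ⟨e0, e1, e2⟩)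
  · exact Or.inr (Or.inr (Or.inl ⟨e0, e1, e2⟩))
  · exact Or.inr (Or.inr (Or.inr (Or.inl ⟨e0, e1, e2⟩)))
  · exact Or.inr (Or.inr (Or.inr (Or.inr (Or.inl ⟨e0, e1, e2⟩))))
  · exact Or.inr (Or.inr (Or.inr (Or.inr (Or.inr ⟨e0, e1, e2⟩))))

theorem p3k1_G (hG : SetHomogeneous G) {k : ℕ} {C : Finset V} (hC : G.IsNClique k C)
    {a q c b a' q' c' b' : V} (h : P3K1 G a q c b) (h' : P3K1 G a' q' c' b')
    (ha : a ∈ cn G C) (hq : q ∈ cn G C) (hcC : c ∈ cn G C) (hb : b ∈ cn G C)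
    (ha' : a' ∈ cn G C) (hq' : q' ∈ cn G C) (hcC' : c' ∈ cn G C) (hb' : b' ∈ cn G C) :
    ∃ φ : G ≃g G, C.image φ = C ∧ φ q = q' ∧ φ b = b' ∧
      ((φ a = a' ∧ φ c = c') ∨ (φ a = c' ∧ φ c = a')) := by
  obtain ⟨qa, qc, ⟨hac, nac⟩, ⟨hba, nba⟩, ⟨hbq, nbq⟩, ⟨hbc, nbc⟩⟩ := h
  obtain ⟨qa', qc', ⟨hac', nac'⟩, ⟨hba', nba'⟩, ⟨hbq', nbq'⟩, ⟨hbc', nbc'⟩⟩ := h'
  have s1 : ¬ G.Adj c a := fun h => nac h.symm
  have s2 : ¬ G.Adj a b := fun h => nba h.symm
  have s3 : ¬ G.Adj q b := fun h => nbq h.symm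
  have s4 : ¬ G.Adj c b := fun h => nbc h.symm
  have s1' : ¬ G.Adj c' a' := fun h => nac' h.symm
  have s2' : ¬ G.Adj a' b' := fun h => nba' h.symm
  have s3' : ¬ G.Adj q' b' := fun h => nbq' h.symm
  have s4' : ¬ G.Adj c' b' := fun h => nbc' h.symm
  obtain ⟨φ, σ, hφC, hφ⟩ := T1 hG hC.1 hC.1 rfl (ι := Fin 4) (y := ![a, q, c, b])
    (y' := ![a', q', c', b'])
    (by intro i j; fin_cases i <;> fin_cases j <;> simp [hac, hac.symm, hba, hba.symm, hbq,
          hbq.symm, hbc, hbc.symm, qa.ne, qa.ne.symm, qc.ne, qc.ne.symm])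
    (by intro i j; fin_cases i <;> fin_cases j <;> simp [hac', hac'.symm, hba', hba'.symm, hbq',
          hbq'.symm, hbc', hbc'.symm, qa'.ne, qa'.ne.symm, qc'.ne, qc'.ne.symm])
    (by intro i j; fin_cases i <;> fin_cases j <;> simp [nac, nba, nbq, nbc, s1, s2, s3, s4, qa,
          qa.symm, qc, qc.symm, nac', nba', nbq', nbc', s1', s2', s3', s4', qa', qa'.symm, qc',
          qc'.symm])
    (by intro i; fin_cases i <;> simp [ha, hq, hcC, hb])
    (by intro i; fin_cases i <;> simp [ha', hq', hcC', hb'])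
    (by
      intro i
      fin_cases i
      · exact ⟨2, by simp, by simpa using nac⟩
      · exact ⟨3, by simp, by simpa using s3⟩
      · exact ⟨0, by simp, by simpa using s1⟩
      · exact ⟨0, by simp, by simpa using nba⟩)
  have hP : ∀ i j : Fin 4, G.Adj (![a', q', c', b'] i) (![a', q', c', b'] j) →
      (fun i j : Fin 4 => decide ((i = 1 ∧ (j = 0 ∨ j = 2)) ∨
      (j = 1 ∧ (i = 0 ∨ i = 2)))) i j = true := by
    intro i j
    fin_cases i <;> fin_cases j <;> simp [nac', nba', nbq', nbc', s1', s2', s3', s4']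
  have e0 : φ a = ![a', q', c', b'] (σ 0) := hφ 0
  have e1 : φ q = ![a', q', c', b'] (σ 1) := hφ 1
  have e2 : φ c = ![a', q', c', b'] (σ 2) := hφ 2
  have e3 : φ b = ![a', q', c', b'] (σ 3) := hφ 3
  have key := Quasi.p3k1_perm (σ 0) (σ 1) (σ 2) (σ 3)
    (fun h => by simpa using σ.injective h) (fun h => by simpa using σ.injective h)
    (fun h => by simpa using σ.injective h) (fun h => by simpa using σ.injective h)
    (fun h => by simpa using σ.injective h) (fun h => by simpa using σ.injective h) _ rfl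
    (hP _ _ (by rw [← e0, ← e1, φ.map_adj_iff]; exact qa.symm))
    (hP _ _ (by rw [← e1, ← e2, φ.map_adj_iff]; exact qc))
  obtain ⟨k1, k3, k02⟩ := key
  refine ⟨φ, hφC, by rw [e1, k1]; rfl, by rw [e3, k3]; rfl, ?_⟩
  rcases k02 with ⟨k0, k2⟩ | ⟨k0, k2⟩
  · left; exact ⟨by rw [e0, k0]; rfl, by rw [e2, k2]; rfl⟩
  · right; exact ⟨by rw [e0, k0]; rfl, by rw [e2, k2]; rfl⟩

theorem Sm.symm {m : ℕ} {C : Finset V} {a b c : V} (h : Sm G m C a b c) : Sm G m C b a c := by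
  obtain ⟨B, hB⟩ := h
  exact ⟨B, fun Q hQ hQS => hB Q hQ (fun q hq => by
    rw [Finset.insert_comm]; exact hQS q hq)⟩

/-- no smothering at level `k` from the extension property at level `k + 1`. -/
theorem noSm_succ {n k m : ℕ} (hc : Ctx G n) (hk : k + m + 1 = n) (hm : 2 ≤ m)
    (hEP : EP G (k + 1) m) (hD2 : D2 G k)
    (H3 : ∀ C : Finset V, G.IsNClique k C → ∀ a ∈ cn G C, ∀ b ∈ cn G C, Gᶜ.Adj a b →
      VR G (cn G (insert a (insert b C))) m) : NoSm G k m := by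
  intro C hC a b c hI ha hb hcC hSm
  obtain ⟨e, he⟩ := hc.ext hC (by omega)
  have hCe := insert_clique hC he
  have hsub : ∀ x, x ∈ cn G (insert e C) → x ∈ cn G C := fun x hx => (mem_cn_insert.1 hx).2
  -- an independent triple in `cn (C ∪ e)`
  obtain ⟨v1, hv1, -, -, -⟩ := hEP _ hCe ∅ ∅ (by simp) (by simp) (by
    intro T hT hTc
    have : T = ∅ := by
      rw [← Finset.coe_eq_empty, ← Set.subset_empty_iff]; simpa using hT
    rw [this] at hTc
    have := hTc.2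
    simp at this
    omega)
  have hfree0 : ∀ m' : ℕ, 1 ≤ m' → G.CliqueFreeOn ((∅ : Finset V) : Set V) m' := by
    intro m' hm' T hT hTc
    have : T = ∅ := by
      rw [← Finset.coe_eq_empty, ← Set.subset_empty_iff]; simpa using hT
    rw [this] at hTc
    have := hTc.2
    simp at this
    omega
  obtain ⟨v2, hv2, hv2B, -, hv2n⟩ := hEP _ hCe {v1} ∅ (by simpa using hv1) (by simp)
    (hfree0 m (by omega))
  obtain ⟨v3, hv3, hv3B, -, hv3n⟩ := hEP _ hCe {v1, v2} ∅ (by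
    intro x hx
    simp only [Finset.mem_insert, Finset.mem_singleton] at hx
    rcases hx with rfl | rfl <;> assumption) (by simp) (hfree0 m (by omega))
  simp only [Finset.mem_singleton] at hv2B
  simp only [Finset.mem_insert, Finset.mem_singleton, not_or] at hv3B
  have hI0 : Indep3 G v1 v2 v3 := ⟨⟨Ne.symm hv2B, fun h => hv2n v1 (by simp) (by simp) h.symm⟩,
    ⟨Ne.symm hv3B.1, fun h => hv3n v1 (by simp) (by simp) h.symm⟩,
    ⟨Ne.symm hv3B.2, fun h => hv3n v2 (by simp) (by simp) h.symm⟩⟩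
  -- inside `cn (C ∪ e)` the smothered vertex can be changed
  have hswap : ∀ a b c, Indep3 G a b c → a ∈ cn G (insert e C) → b ∈ cn G (insert e C) →
      c ∈ cn G (insert e C) → Sm G m C a c b → Sm G m C b c a := by
    intro a b c hI ha hb hcC hS
    have hext : ∀ a b c, Indep3 G a b c → a ∈ cn G (insert e C) → b ∈ cn G (insert e C) →
        c ∈ cn G (insert e C) → ∃ z ∈ cn G (insert e C), P3K1 G a z c b := by
      intro a b c hI ha hb hcC
      obtain ⟨z, hz, hzB, hzX, hzn⟩ := hEP _ hCe {a, b, c} {a, c} (by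
        intro x hx
        simp only [Finset.mem_insert, Finset.mem_singleton] at hx
        rcases hx with rfl | rfl | rfl <;> assumption) (by
        intro x hx
        simp only [Finset.mem_insert, Finset.mem_singleton] at hx ⊢
        rcases hx with rfl | rfl <;> simp) (by
        refine SimpleGraph.CliqueFreeOn.mono _ hm ?_
        rw [cliqueFreeOn_two_iff]
        have h1 : ¬ G.Adj c a := fun h => hI.2.1.2 h.symm
        intro x hx y hy
        simp only [Finset.mem_insert, Finset.mem_singleton] at hx hy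
        rcases hx with rfl | rfl <;> rcases hy with rfl | rfl <;>
          first
          | exact G.irrefl
          | exact hI.2.1.2
          | exact h1)
      simp only [Finset.mem_insert, Finset.mem_singleton, not_or] at hzB
      have hzb : ¬ G.Adj z b := hzn b (by simp) (by
        simp only [Finset.mem_insert, Finset.mem_singleton, not_or]
        exact ⟨hI.1.ne.symm, hI.2.2.ne⟩)
      exact ⟨z, hz, hzX a (by simp), hzX c (by simp), hI.2.1, hI.1.symm,
        ⟨Ne.symm hzB.2.1, fun h => hzb h.symm⟩, hI.2.2⟩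
    obtain ⟨z, hz, hpat⟩ := hext a b c hI ha hb hcC
    obtain ⟨z', hz', hpat'⟩ := hext b a c hI.swap12 hb ha hcC
    obtain ⟨φ, h1, -, h2, h3⟩ := p3k1_G hc.sh hC hpat hpat' (hsub _ ha) (hsub _ hz) (hsub _ hcC)
      (hsub _ hb) (hsub _ hb) (hsub _ hz') (hsub _ hcC) (hsub _ ha)
    have hS' := hS.map φ
    rw [h1, h2] at hS'
    rcases h3 with ⟨e1, e2⟩ | ⟨e1, e2⟩ <;> rw [e1, e2] at hS'
    · exact hS'
    · exact hS'.symm
  have hswap2 : ∀ a b c, Indep3 G a b c → a ∈ cn G (insert e C) → b ∈ cn G (insert e C) →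
      c ∈ cn G (insert e C) → Sm G m C a c b →
      Sm G m C b c a ∧ Sm G m C a b c := by
    intro a b c hI ha hb hcC hS
    exact ⟨hswap a b c hI ha hb hcC hS, (hswap c b a hI.swap13 hcC hb ha hS.symm).symm⟩
  -- all three
  have hall0 : Sm G m C v1 v3 v2 ∧ Sm G m C v2 v3 v1 ∧ Sm G m C v1 v2 v3 := by
    obtain ⟨φ, h1, hφ⟩ := triple_G hc.sh hC hI hI0 ha hb hcC (hsub _ hv1) (hsub _ hv2) (hsub _ hv3)
    have hS' := hSm.map φ
    rw [h1] at hS'
    rcases hφ with ⟨e1, e2, e3⟩ | ⟨e1, e2, e3⟩ | ⟨e1, e2, e3⟩ | ⟨e1, e2, e3⟩ | ⟨e1, e2, e3⟩ |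
      ⟨e1, e2, e3⟩ <;> rw [e1, e2, e3] at hS'
    · obtain ⟨k1, k2⟩ := hswap2 v1 v3 v2 hI0.swap23 hv1 hv3 hv2 hS'
      exact ⟨k2, k1.symm, hS'⟩
    · obtain ⟨k1, k2⟩ := hswap2 v1 v2 v3 hI0 hv1 hv2 hv3 hS'
      exact ⟨hS', k1, k2⟩
    · obtain ⟨k1, k2⟩ := hswap2 v1 v3 v2 hI0.swap23 hv1 hv3 hv2 hS'.symm
      exact ⟨k2, k1.symm, hS'.symm⟩
    · obtain ⟨k1, k2⟩ := hswap2 v2 v1 v3 hI0.swap12 hv2 hv1 hv3 hS'
      exact ⟨k1, hS', k2.symm⟩
    · obtain ⟨k1, k2⟩ := hswap2 v1 v2 v3 hI0 hv1 hv2 hv3 hS'.symm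
      exact ⟨hS'.symm, k1, k2⟩
    · obtain ⟨k1, k2⟩ := hswap2 v2 v1 v3 hI0.swap12 hv2 hv1 hv3 hS'.symm
      exact ⟨k1, hS'.symm, k2.symm⟩
  have hall : ∀ a b c, Indep3 G a b c → a ∈ cn G C → b ∈ cn G C → c ∈ cn G C →
      Sm G m C a b c := by
    intro a b c hI ha hb hcC
    obtain ⟨φ, h1, hφ⟩ := triple_G hc.sh hC hI0 hI (hsub _ hv1) (hsub _ hv2) (hsub _ hv3) ha hb hcC
    have k1 := hall0.1.map φ
    have k2 := hall0.2.1.map φ
    have k3 := hall0.2.2.map φ
    rw [h1] at k1 k2 k3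
    rcases hφ with ⟨e1, e2, e3⟩ | ⟨e1, e2, e3⟩ | ⟨e1, e2, e3⟩ | ⟨e1, e2, e3⟩ | ⟨e1, e2, e3⟩ |
      ⟨e1, e2, e3⟩ <;> rw [e1, e2, e3] at k1 k2 k3
    · exact k3
    · exact k1
    · exact k3.symm
    · exact k1.symm
    · exact k2
    · exact k2.symm
  -- the final contradiction
  obtain ⟨c1, hc1, c2, hc2, a', ha', b', hb', h12, hab, h1a, h1b, h2a, h2b⟩ := hD2 C hC
  obtain ⟨B1, hB1⟩ := hall a' b' c1 ⟨hab, h1a.symm, h1b.symm⟩ ha' hb' hc1
  obtain ⟨B2, hB2⟩ := hall a' b' c2 ⟨hab, h2a.symm, h2b.symm⟩ ha' hb' hc2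
  obtain ⟨Q, hQ, hQS, hQB, hmono⟩ := H3 C hC a' ha' b' hb' hab (B1 ∪ B2)
  rw [Finset.disjoint_union_right] at hQB
  have k1 := hB1 Q hQ hQS hQB.1 (fun x hx => hmono x (Finset.mem_union_left _ hx))
  have k2 := hB2 Q hQ hQS hQB.2 (fun x hx => hmono x (Finset.mem_union_right _ hx))
  have hQC : ∀ q ∈ Q, q ∈ cn G C := fun q hq => (mem_cn_insert.1 (mem_cn_insert.1 (hQS q hq)).2).2
  exact hc.no_edge hC hQ hQC (by omega) hc1 hc2 k1 k2 h12

/-- the extension property from `NoSm` at level `n - 2`. -/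
theorem EP_all' {n : ℕ} (hc : Ctx G n) (hn : 2 ≤ n) (h0 : Good G 0) (hs : NoSm G (n - 2) 1) :
    ∀ m : ℕ, 1 ≤ m → m + 1 ≤ n → EP G (n - (m + 1)) (m + 1) := by
  have hgood := good_all hc h0
  have hk : n - 2 + 2 = n := by omega
  have hg2 := hgood (n - 2) (by omega)
  have hD1 := P3_D1 hc hk hg2
  have hD2 := P4_D2 hc hk hg2
  intro m hm
  induction m, hm using Nat.le_induction with
  | base =>
    intro _
    refine P10_EP' hc (by omega) le_rfl ⟨hD1, ?_, ?_, hs⟩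
    · intro C hC B
      have hinf := infinite_succ hc.sh (fun C hC => ⟨(hg2 C hC).1, (hg2 C hC).2.1⟩) C hC
      obtain ⟨q, hq, hqB⟩ := (hinf.sdiff B.finite_toSet).nonempty
      refine ⟨{q}, by simp, by simpa using hq, by simpa using hqB, fun b _ => ?_⟩
      by_cases h : G.Adj b q
      · left; simpa using h
      · right; simpa using h
    · intro C hC a ha b hb hab B
      have hinf := hD1 C hC {a, b} (by
        intro x hx
        simp only [Finset.mem_insert, Finset.mem_singleton] at hx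
        rcases hx with rfl | rfl <;> assumption) (by
        rw [cliqueFreeOn_two_iff]
        have h1 : ¬ G.Adj b a := fun h => hab.2 h.symm
        intro x hx y hy
        simp only [Finset.mem_insert, Finset.mem_singleton] at hx hy
        rcases hx with rfl | rfl <;> rcases hy with rfl | rfl <;>
          first
          | exact G.irrefl
          | exact hab.2
          | exact h1)
      obtain ⟨q, hq, hqB⟩ := (hinf.sdiff B.finite_toSet).nonempty
      have hq' : q ∈ cn G (insert a (insert b C)) := by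
        rw [mem_cn_union] at hq
        rw [mem_cn_insert, mem_cn_insert]
        exact ⟨hq.2 a (by simp), hq.2 b (by simp), hq.1⟩
      refine ⟨{q}, by simp, by simpa using hq', by simpa using hqB, fun b _ => ?_⟩
      by_cases h : G.Adj b q
      · left; simpa using h
      · right; simpa using h
  | succ m hm ih =>
    intro hmn
    have hEP := ih (by omega)
    have e : n - (m + 1) = n - (m + 1 + 1) + 1 := by omega
    rw [e] at hEP
    obtain ⟨H1, H2, H3⟩ := P9_hyp hc (k := n - (m + 1 + 1)) (m := m + 1) (by omega) (by omega)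
      (hgood _ (by omega)) hEP
    exact P10_EP' hc (by omega) (by omega) ⟨H1, H2, H3,
      noSm_succ hc (by omega) (by omega) hEP (D2_all hc hD2 (by omega)) H3⟩

end Run7.h901
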