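import Pool.Agent.Run7.h901.Model
import Pool.Agent.Run7.h901.Basics

/-!
Back-and-forth from a given finite map, and the homogeneity of the oriented circle.
-/

open scoped Classical

namespace Run7.h901

universe u v

/-- a back-and-forth lemma for pairwise conditions. -/
theorem backforth_from {V : Type u} {V' : Type v} [Countable V] [Countable V']
    (R : V × V' → V × V' → Prop) (hR : ∀ p q, R p q → (p.1 = q.1 ↔ p.2 = q.2))
    (hfwd : ∀ s : Finset (V × V'), (∀ p ∈ s, ∀ q ∈ s, R p q) → ∀ x : V, ∃ y : V',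
      ∀ p ∈ insert (x, y) s, ∀ q ∈ insert (x, y) s, R p q)
    (hbwd : ∀ s : Finset (V × V'), (∀ p ∈ s, ∀ q ∈ s, R p q) → ∀ y : V', ∃ x : V,
      ∀ p ∈ insert (x, y) s, ∀ q ∈ insert (x, y) s, R p q)
    (t0 : Finset (V × V')) (ht0 : ∀ p ∈ t0, ∀ q ∈ t0, R p q) :
    ∃ e : V ≃ V', (∀ x x', R (x, e x) (x', e x')) ∧ ∀ p ∈ t0, e p.1 = p.2 := by
  cases nonempty_encodable V
  cases nonempty_encodable V'
  let PP := {s : Finset (V × V') // ∀ p ∈ s, ∀ q ∈ s, R p q}
  let _ : Preorder PP := Preorder.lift (fun s => s.1)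
  have hfor : ∀ x : V, IsCofinal {s : PP | ∃ y, (x, y) ∈ s.1} := by
    intro x s
    obtain ⟨y, hy⟩ := hfwd s.1 s.2 x
    exact ⟨⟨insert (x, y) s.1, hy⟩, ⟨y, Finset.mem_insert_self _ _⟩,
      Finset.subset_insert (x, y) s.1⟩
  have hback : ∀ y : V', IsCofinal {s : PP | ∃ x, (x, y) ∈ s.1} := by
    intro y s
    obtain ⟨x, hx⟩ := hbwd s.1 s.2 y
    exact ⟨⟨insert (x, y) s.1, hx⟩, ⟨x, Finset.mem_insert_self _ _⟩,
      Finset.subset_insert (x, y) s.1⟩
  let s0 : PP := ⟨t0, ht0⟩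
  let D : V ⊕ V' → Order.Cofinal PP := fun i =>
    Sum.rec (fun x => ⟨_, hfor x⟩) (fun y => ⟨_, hback y⟩) i
  let I := Order.idealOfCofinals s0 D
  have hI1 : ∀ x : V, ∃ y, ∃ s ∈ I, (x, y) ∈ s.1 := by
    intro x
    obtain ⟨s, ⟨y, hy⟩, hs⟩ := Order.cofinal_meets_idealOfCofinals s0 D (Sum.inl x)
    exact ⟨y, s, hs, hy⟩
  have hI2 : ∀ y : V', ∃ x, ∃ s ∈ I, (x, y) ∈ s.1 := by
    intro y
    obtain ⟨s, ⟨x, hx⟩, hs⟩ := Order.cofinal_meets_idealOfCofinals s0 D (Sum.inr y)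
    exact ⟨x, s, hs, hx⟩
  have hcompat : ∀ x y x' y', (∃ s ∈ I, (x, y) ∈ s.1) → (∃ s ∈ I, (x', y') ∈ s.1) →
      R (x, y) (x', y') := by
    rintro x y x' y' ⟨s, hs, hxy⟩ ⟨t, ht, hxy'⟩
    obtain ⟨m, -, hsm, htm⟩ := I.directed s hs t ht
    exact m.2 _ (hsm hxy) _ (htm hxy')
  choose F hF using hI1
  choose F' hF' using hI2
  refine ⟨⟨F, F', ?_, ?_⟩, ?_, ?_⟩
  · intro x
    exact (hR _ _ (hcompat _ _ _ _ (hF' (F x)) (hF x))).2 rfl
  · intro y
    exact (hR _ _ (hcompat _ _ _ _ (hF (F' y)) (hF' y))).1 rfl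
  · intro x x'
    exact hcompat _ _ _ _ (hF x) (hF x')
  · intro p hp
    have h0 : s0 ∈ I := Order.mem_idealOfCofinals s0 D
    exact (hR _ _ (hcompat _ _ _ _ (hF p.1) ⟨s0, h0, hp⟩)).1 rfl


section

variable {V : Type u} {G : SimpleGraph V} {o : V} {c : V → Fin 3} {lt : V → V → Prop}
variable {V' : Type v} {G' : SimpleGraph V'} {o' : V'} {c' : V' → Fin 3} {lt' : V' → V' → Prop}

/-- two countable graphs given by dense three-coloured orders are isomorphic. -/
theorem COrd.iso_from [Countable V] [Countable V'] (h : COrd G o c lt) (h' : COrd G' o' c' lt')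
    (t0 : Finset (V × V')) (ht0 : ∀ p ∈ t0, ∀ q ∈ t0, Cpt o c lt o' c' lt' p q) :
    ∃ φ : G ≃g G', ∀ p ∈ t0, φ p.1 = p.2 := by
  obtain ⟨e, he, het⟩ := backforth_from (Cpt o c lt o' c' lt') (fun p q hpq => hpq.1)
    (fun s hs x => h.ext h' s hs x) (by
      intro s hs y
      obtain ⟨x, hx⟩ := h'.ext h (s.image Prod.swap) (by
        intro p hp q hq
        obtain ⟨p', hp', rfl⟩ := Finset.mem_image.1 hp
        obtain ⟨q', hq', rfl⟩ := Finset.mem_image.1 hq
        exact (hs p' hp' q' hq').swap) y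
      refine ⟨x, fun p hp q hq => ?_⟩
      have key : ∀ r : V × V', r ∈ insert (x, y) s → r.swap ∈ insert (y, x) (s.image Prod.swap) := by
        intro r hr
        rcases Finset.mem_insert.1 hr with rfl | hr
        · exact Finset.mem_insert_self _ _
        · exact Finset.mem_insert_of_mem (Finset.mem_image_of_mem _ hr)
      have := (hx _ (key p hp) _ (key q hq)).swap
      simpa using this) t0 ht0
  refine ⟨⟨e, ?_⟩, het⟩
  intro x x'
  obtain ⟨-, h2, h3, h4, h5⟩ := he x x'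
  obtain ⟨-, -, -, h4', h5'⟩ := he x' x
  simp only at h2 h3 h4 h5 h4' h5'
  by_cases hx : x = o
  · by_cases hx' : x' = o
    · rw [h2.1 hx, h3.1 hx', hx, hx']
      exact ⟨fun hh => absurd hh (G'.irrefl), fun hh => absurd hh (G.irrefl)⟩
    · have hx2 : e x' ≠ o' := fun hh => hx' (h3.2 hh)
      rw [h2.1 hx, hx, h'.adj_o _ hx2, h.adj_o _ hx', h4' hx']
  · have hx1 : e x ≠ o' := fun hh => hx (h2.2 hh)
    by_cases hx' : x' = o
    · rw [h3.1 hx', hx', G'.adj_comm, G.adj_comm, h'.adj_o _ hx1, h.adj_o _ hx, h4 hx]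
    · have hx2 : e x' ≠ o' := fun hh => hx' (h3.2 hh)
      have e1 := h4 hx
      have e2 := h4' hx'
      rcases fin3_cases (c x) (c x') with h6 | h6 | h6
      · exact ⟨fun hh => absurd hh (h'.nadj _ _ hx1 hx2 (by rw [← e1, ← e2, h6])),
          fun hh => absurd hh (h.nadj _ _ hx hx' h6)⟩
      · rw [h.adj _ _ hx hx' h6, h'.adj _ _ hx1 hx2 (by rw [← e1, ← e2, h6]), h5 hx hx']
      · rw [G'.adj_comm, G.adj_comm, h.adj _ _ hx' hx h6,
          h'.adj _ _ hx2 hx1 (by rw [← e1, ← e2, h6]), h5' hx' hx]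

end

/-! ### the circle -/

/-- the distance from `x` to `y` in the positive direction. -/
def fr (x y : Dy) : ℚ := if x.1 ≤ y.1 then y.1 - x.1 else y.1 - x.1 + 1

theorem fr_nonneg (x y : Dy) : 0 ≤ fr x y := by
  unfold fr
  have h1 := x.2.2.1
  have h2 := y.2.1
  split_ifs with h
  · linarith
  · linarith

theorem fr_lt (x y : Dy) : fr x y < 1 := by
  unfold fr
  have h1 := x.2.1
  have h2 := y.2.2.1
  split_ifs with h
  · linarith
  · linarith

theorem fr_self (x : Dy) : fr x x = 0 := by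
  unfold fr; simp

theorem fr_symm {x y : Dy} (h : x ≠ y) : fr y x = 1 - fr x y := by
  have hne : x.1 ≠ y.1 := fun he => h (Subtype.ext he)
  unfold fr
  rcases lt_or_gt_of_ne hne with h1 | h1
  · rw [if_pos h1.le, if_neg (not_le.2 h1)]; ring
  · rw [if_neg (not_le.2 h1), if_pos h1.le]; ring

theorem fr_add (x y z : Dy) : fr x z = fr x y + fr y z ∨ fr x z = fr x y + fr y z - 1 := by
  have h1 := fr_lt x z
  have h2 := fr_nonneg x z
  have h3 := fr_lt x y
  have h4 := fr_nonneg x y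
  have h5 := fr_lt y z
  have h6 := fr_nonneg y z
  unfold fr at *
  split_ifs at * with a b c b c
  all_goals first
    | (left; linarith)
    | (right; linarith)

theorem fr_pos {x y : Dy} (h : x ≠ y) : 0 < fr x y := by
  have h1 := fr_lt y x
  rw [fr_symm h] at h1
  linarith

theorem fr_ne (x y : Dy) : fr x y ≠ 1 / 3 ∧ fr x y ≠ 2 / 3 := by
  have n1 := no_third y x 1 (by simp)
  have n2 := no_third y x 2 (by simp)
  have n3 := no_third y x (-1) (by simp)
  have n4 := no_third y x (-2) (by simp)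
  push_cast at n1 n2 n3 n4
  unfold fr
  split_ifs
  · exact ⟨fun h => n1 (by linarith), fun h => n2 (by linarith)⟩
  · exact ⟨fun h => n4 (by linarith), fun h => n3 (by linarith)⟩

theorem r3_adj (x y : Dy) : R3c.Adj x y ↔ 1 / 3 < fr x y ∧ fr x y < 2 / 3 := by
  change (1 / 3 < |x.1 - y.1| ∧ |x.1 - y.1| < 2 / 3) ↔ _
  unfold fr
  split_ifs with h
  · rw [abs_sub_comm, abs_of_nonneg (by linarith)]
  · rw [abs_of_pos (by linarith)]
    constructor
    · rintro ⟨h1, h2⟩; constructor <;> linarith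
    · rintro ⟨h1, h2⟩; constructor <;> linarith

theorem fr_dy (x y : Dy) : ∃ (k : ℕ) (z : ℤ), fr x y * 2 ^ k = z := by
  obtain ⟨x, hx0, hx1, a, z, hz⟩ := x
  obtain ⟨y, hy0, hy1, b, w, hw⟩ := y
  unfold fr
  simp only
  split_ifs
  · refine ⟨a + b, w * 2 ^ a - z * 2 ^ b, ?_⟩
    push_cast
    rw [← hz, ← hw, pow_add]
    ring
  · refine ⟨a + b, w * 2 ^ a - z * 2 ^ b + 2 ^ (a + b), ?_⟩
    push_cast
    rw [← hz, ← hw, pow_add]
    ring

/-- the same, as a point. -/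
def dfr (x y : Dy) : Dy := ⟨fr x y, fr_nonneg x y, fr_lt x y, fr_dy x y⟩

theorem fr_dfr (d x y : Dy) : fr (dfr d x) (dfr d y) = fr x y := by
  show (if fr d x ≤ fr d y then fr d y - fr d x else fr d y - fr d x + 1) = fr x y
  have h1 := fr_lt x y
  have h2 := fr_nonneg x y
  rcases fr_add d x y with h | h
  · rw [if_pos (by linarith)]; linarith
  · rw [if_neg (by linarith)]; linarith

theorem fr_dfr' (d x y : Dy) : fr (dfr x d) (dfr y d) = fr y x := by
  show (if fr x d ≤ fr y d then fr y d - fr x d else fr y d - fr x d + 1) = fr y x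
  have h1 := fr_lt y x
  have h2 := fr_nonneg y x
  rcases fr_add y x d with h | h
  · rw [if_pos (by linarith)]; linarith
  · rw [if_neg (by linarith)]; linarith

theorem fr_zero (x : Dy) : fr dy0 x = x.1 := by
  show (if (0 : ℚ) ≤ x.1 then x.1 - 0 else _) = x.1
  rw [if_pos x.2.1, sub_zero]

theorem dfr_inj {d x y : Dy} (h : dfr d x = dfr d y) : x = y := by
  by_contra hne
  have h1 := fr_dfr d x y
  rw [h, fr_self] at h1
  have := fr_pos hne
  linarith

theorem dfr_dfr (d x : Dy) : dfr (dfr d dy0) (dfr d x) = x := by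
  apply Subtype.ext
  show fr (dfr d dy0) (dfr d x) = x.1
  rw [fr_dfr, fr_zero]

theorem dfr_dfr' (d x : Dy) : dfr d (dfr (dfr d dy0) x) = x := by
  apply dfr_inj (d := dfr d dy0)
  rw [dfr_dfr]

/-- rotation -/
def rotI (d : Dy) : R3c ≃g R3c where
  toFun := dfr d
  invFun := dfr (dfr d dy0)
  left_inv := dfr_dfr d
  right_inv := dfr_dfr' d
  map_rel_iff' := by
    intro x y
    show R3c.Adj (dfr d x) (dfr d y) ↔ R3c.Adj x y
    rw [r3_adj, r3_adj, fr_dfr]

theorem dfr_refl (x : Dy) : dfr (dfr x dy0) dy0 = x := by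
  apply Subtype.ext
  show fr (dfr x dy0) dy0 = x.1
  have h0 : dfr dy0 dy0 = dy0 := by
    apply Subtype.ext
    show fr dy0 dy0 = 0
    exact fr_self _
  have h1 := fr_dfr' dy0 x dy0
  rw [h0, fr_zero] at h1
  exact h1

/-- reflection -/
def refI : R3c ≃g R3c where
  toFun := fun x => dfr x dy0
  invFun := fun x => dfr x dy0
  left_inv := dfr_refl
  right_inv := dfr_refl
  map_rel_iff' := by
    intro x y
    show R3c.Adj (dfr x dy0) (dfr y dy0) ↔ R3c.Adj x y
    rw [R3c.adj_comm x y, r3_adj, r3_adj, fr_dfr']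

/-- orientation: `y` is less than `1/3` ahead of `x`. -/
def Dr (x y : Dy) : Prop := fr x y < 1 / 3

theorem Dr.asymm {x y : Dy} (hne : x ≠ y) (h : Dr x y) : ¬ Dr y x := by
  unfold Dr at *
  rw [fr_symm hne]
  intro h1
  linarith

theorem Dr.total {x y : Dy} (hne : x ≠ y) (h : ¬ R3c.Adj x y) : Dr x y ∨ Dr y x := by
  rw [r3_adj] at h
  unfold Dr
  rw [fr_symm hne]
  have h1 := fr_ne x y
  by_contra hcon
  push Not at hcon
  obtain ⟨h2, h3⟩ := hcon
  exact h ⟨lt_of_le_of_ne h2 (Ne.symm h1.1), lt_of_le_of_ne (by linarith) h1.2⟩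

theorem Dr.not_adj {x y : Dy} (h : Dr x y) : ¬ R3c.Adj x y := by
  rw [r3_adj]
  unfold Dr at h
  intro h1
  linarith [h1.1]

/-- triangle-free -/
theorem r3_tf {x y z : Dy} (h1 : R3c.Adj x y) (h2 : R3c.Adj y z) : ¬ R3c.Adj x z := by
  rw [r3_adj] at *
  rintro ⟨h3, h4⟩
  rcases fr_add x y z with h | h <;> linarith [h1.1, h1.2, h2.1, h2.2]

/-- forcing -/
theorem Dr.force {x y z : Dy} (hxy : x ≠ y) (hxz : x ≠ z) (h1 : ¬ R3c.Adj x y)
    (h2 : ¬ R3c.Adj x z) (h3 : R3c.Adj y z) : Dr x y ↔ ¬ Dr x z := by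
  have k1 := Dr.total hxy h1
  have k2 := Dr.total hxz h2
  rw [r3_adj] at h3
  unfold Dr at *
  rw [fr_symm hxy] at k1
  rw [fr_symm hxz] at k2
  have p1 := fr_pos hxy
  have p2 := fr_lt x y
  have p3 := fr_pos hxz
  have p4 := fr_lt x z
  obtain ⟨h3, h4⟩ := h3
  constructor
  · intro h5 h6
    rcases fr_add x y z with h | h <;> linarith
  · intro h5
    rcases k1 with k1 | k1
    · exact k1
    · rcases k2 with k2 | k2
      · exact absurd k2 h5
      · exfalso
        rcases fr_add x y z with h | h <;> linarith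

/-- `y` is the middle one of three points -/
def Td (x y z : Dy) : Prop := Dr x y ∧ Dr y z ∧ Dr x z

theorem Td.inter {x y z w : Dy} (h : Td x y z) (h1 : R3c.Adj x w) (h2 : R3c.Adj z w) :
    R3c.Adj y w := by
  obtain ⟨a, b, c⟩ := h
  rw [r3_adj] at *
  unfold Dr at *
  have p1 := fr_nonneg x y
  have p2 := fr_nonneg y z
  have p3 := fr_nonneg y w
  have p4 := fr_lt y w
  obtain ⟨h1, h1'⟩ := h1
  obtain ⟨h2, h2'⟩ := h2
  rcases fr_add x y w with e1 | e1 <;> rcases fr_add y z w with e2 | e2 <;>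
    constructor <;> linarith

theorem Td.union {x y z w : Dy} (h : Td x y z) (h1 : R3c.Adj y w) :
    R3c.Adj x w ∨ R3c.Adj z w := by
  obtain ⟨a, b, c⟩ := h
  by_contra hcon
  push Not at hcon
  obtain ⟨h2, h3⟩ := hcon
  rw [r3_adj] at *
  unfold Dr at *
  have p1 := fr_nonneg x y
  have p2 := fr_nonneg y z
  have p3 := fr_nonneg x w
  have p4 := fr_lt x w
  have p5 := fr_nonneg z w
  have p6 := fr_lt z w
  obtain ⟨h1, h1'⟩ := h1
  have q1 : fr x z = fr x y + fr y z := by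
    rcases fr_add x y z with e | e
    · exact e
    · have := fr_nonneg x z
      linarith
  have q2 : fr x w = fr x y + fr y w := by
    rcases fr_add x y w with e | e
    · exact e
    · linarith
  have q3 : fr y w = fr y z + fr z w := by
    rcases fr_add y z w with e | e
    · exact e
    · linarith
  have r1 : ¬ fr x w < 2 / 3 := fun h => h2 ⟨by linarith, h⟩
  have r2 : ¬ 1 / 3 < fr z w := fun h => h3 ⟨h, by linarith⟩
  linarith

theorem Dr.trans' {x y z : Dy} (hxz : x ≠ z) (h1 : Dr x y) (h2 : Dr y z)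
    (h3 : ¬ R3c.Adj x z) : Dr x z := by
  rcases Dr.total hxz h3 with h | h
  · exact h
  · exfalso
    unfold Dr at *
    rw [fr_symm hxz] at h
    have p1 := fr_nonneg x y
    have p2 := fr_nonneg y z
    have p3 := fr_nonneg x z
    rcases fr_add x y z with e | e <;> linarith

theorem exists_mid {x y z : Dy} (hxy : x ≠ y) (hxz : x ≠ z) (hyz : y ≠ z)
    (h1 : ¬ R3c.Adj x y) (h2 : ¬ R3c.Adj x z) (h3 : ¬ R3c.Adj y z) :
    (Td x y z ∨ Td z y x) ∨ (Td y x z ∨ Td z x y) ∨ (Td x z y ∨ Td y z x) := by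
  have h1' : ¬ R3c.Adj y x := fun h => h1 h.symm
  have h2' : ¬ R3c.Adj z x := fun h => h2 h.symm
  have h3' : ¬ R3c.Adj z y := fun h => h3 h.symm
  rcases Dr.total hxy h1 with a | a <;> rcases Dr.total hxz h2 with b | b <;>
    rcases Dr.total hyz h3 with c | c
  · exact Or.inl (Or.inl ⟨a, c, b⟩)
  · exact Or.inr (Or.inr (Or.inl ⟨b, c, a⟩))
  · exact absurd (Dr.trans' hxz a c h2) (Dr.asymm hxz.symm b)
  · exact Or.inr (Or.inl (Or.inr ⟨b, a, c⟩))
  · exact Or.inr (Or.inl (Or.inl ⟨a, b, c⟩))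
  · exact absurd (Dr.trans' hxy b c h1) (Dr.asymm hxy.symm a)
  · exact Or.inr (Or.inr (Or.inr ⟨c, b, a⟩))
  · exact Or.inl (Or.inr ⟨c, a, b⟩)

end Run7.h901
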