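import Pool.Agent.Run7.h901.Conv1

/-!
`R3c` is set-homogeneous.
-/

open scoped Classical

namespace Run7.h901

universe u v

theorem fr_eq_val {x y : Dy} : (dfr x y).1 = fr x y := rfl

theorem dyc_eq_iff {x y : Dy} (h1 : x.1 < 1 / 3 ↔ y.1 < 1 / 3)
    (h2 : (1 / 3 < x.1 ∧ x.1 < 2 / 3) ↔ (1 / 3 < y.1 ∧ y.1 < 2 / 3)) (hx : x ≠ dy0)
    (hy : y ≠ dy0) : dyc x = dyc y := by
  rcases dy_cases hx with ⟨a, -, b, c⟩ | ⟨a, -, b, c⟩ | ⟨a, -, b, c⟩ <;>
    rcases dy_cases hy with ⟨a', -, b', c'⟩ | ⟨a', -, b', c'⟩ | ⟨a', -, b', c'⟩ <;> rw [a, a']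
  · have := h1.1 c; exfalso; linarith
  · have := h1.1 c; exfalso; linarith
  · have := h1.2 c'; exfalso; linarith
  · have := h2.1 ⟨b, c⟩; exfalso; linarith [this.2]
  · have := h1.2 c'; exfalso; linarith
  · have := h2.2 ⟨b', c'⟩; exfalso; linarith [this.2]

theorem ordD {x y : Dy} (hx : x ≠ dy0) (hy : y ≠ dy0) (hc : dyc x = dyc y) :
    dyp x < dyp y ↔ x ≠ y ∧ Dr x y := by
  have key : (dyp x < dyp y ↔ x.1 < y.1) ∧ -(1 / 3) < y.1 - x.1 ∧ y.1 - x.1 < 1 / 3 := by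
    rcases dy_cases hx with ⟨a, p, b, c⟩ | ⟨a, p, b, c⟩ | ⟨a, p, b, c⟩ <;>
      rcases dy_cases hy with ⟨a', p', b', c'⟩ | ⟨a', p', b', c'⟩ | ⟨a', p', b', c'⟩ <;>
      rw [a, a'] at hc <;> first | (exact absurd hc (by decide)) | skip
    all_goals
      rw [p, p']
      refine ⟨⟨fun h => by linarith, fun h => by linarith⟩, by linarith, by linarith⟩
  obtain ⟨k1, k2, k3⟩ := key
  rw [k1]
  unfold Dr fr
  constructor
  · intro h
    refine ⟨fun he => ?_, ?_⟩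
    · rw [he] at h; exact lt_irrefl _ h
    · rw [if_pos h.le]; exact k3
  · rintro ⟨h1, h2⟩
    split_ifs at h2 with h
    · exact lt_of_le_of_ne h (fun he => h1 (Subtype.ext he))
    · exfalso; linarith

theorem hom_D (s0 : Finset (Dy × Dy)) (h : ∀ p ∈ s0, ∀ q ∈ s0, (p.1 = q.1 ↔ p.2 = q.2) ∧
    (R3c.Adj p.1 q.1 ↔ R3c.Adj p.2 q.2) ∧ (Dr p.1 q.1 ↔ Dr p.2 q.2)) :
    ∃ φ : R3c ≃g R3c, ∀ p ∈ s0, φ p.1 = p.2 := by
  rcases s0.eq_empty_or_nonempty with rfl | ⟨⟨a0, b0⟩, h0⟩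
  · exact ⟨SimpleGraph.Iso.refl, by simp⟩
  have hz : ∀ d x : Dy, dfr d x = dy0 ↔ x = d := by
    intro d x
    constructor
    · intro hh
      by_contra hne
      have h1 : (dfr d x).1 = 0 := by rw [hh]; rfl
      have h2 := fr_pos (x := d) (y := x) (fun he => hne he.symm)
      rw [fr_eq_val] at h1
      linarith
    · rintro rfl
      apply Subtype.ext
      rw [fr_eq_val, fr_self]
      rfl
  have hadj : ∀ d x y : Dy, R3c.Adj (dfr d x) (dfr d y) ↔ R3c.Adj x y := by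
    intro d x y
    rw [r3_adj, r3_adj, fr_dfr]
  have hDr : ∀ d x y : Dy, Dr (dfr d x) (dfr d y) ↔ Dr x y := by
    intro d x y
    unfold Dr
    rw [fr_dfr]
  have hcol : ∀ p ∈ s0, dfr a0 p.1 ≠ dy0 → dyc (dfr a0 p.1) = dyc (dfr b0 p.2) := by
    intro p hp hne
    have h1 := h (a0, b0) h0 p hp
    simp only at h1
    apply dyc_eq_iff
    · rw [fr_eq_val, fr_eq_val]; exact h1.2.2
    · rw [fr_eq_val, fr_eq_val, ← r3_adj, ← r3_adj]; exact h1.2.1
    · exact hne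
    · intro hh
      rw [hz] at hh
      exact hne ((hz _ _).2 (h1.1.2 hh.symm).symm)
  have hc : ∀ p ∈ s0, ∀ q ∈ s0, Cpt dy0 dyc (fun x y => dyp x < dyp y) dy0 dyc
      (fun x y => dyp x < dyp y) (dfr a0 p.1, dfr b0 p.2) (dfr a0 q.1, dfr b0 q.2) := by
    intro p hp q hq
    have hpq := h p hp q hq
    have hp0 := h (a0, b0) h0 p hp
    have hq0 := h (a0, b0) h0 q hq
    simp only at hp0 hq0
    have e1 : dfr a0 p.1 = dy0 ↔ dfr b0 p.2 = dy0 := by
      rw [hz, hz, eq_comm, hp0.1, eq_comm]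
    have e2 : dfr a0 q.1 = dy0 ↔ dfr b0 q.2 = dy0 := by
      rw [hz, hz, eq_comm, hq0.1, eq_comm]
    have e3 : dfr a0 p.1 = dfr a0 q.1 ↔ dfr b0 p.2 = dfr b0 q.2 :=
      ⟨fun hh => by rw [hpq.1.1 (dfr_inj hh)], fun hh => by rw [hpq.1.2 (dfr_inj hh)]⟩
    refine ⟨e3, e1, e2, fun hh => hcol p hp hh, fun n1 n2 => ?_⟩
    have c1 := hcol p hp n1
    have c2 := hcol q hq n2
    have m1 : dfr b0 p.2 ≠ dy0 := fun hh => n1 (e1.2 hh)
    have m2 : dfr b0 q.2 ≠ dy0 := fun hh => n2 (e2.2 hh)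
    simp only at n1 n2 c1 c2 ⊢
    have A : R3c.Adj (dfr a0 p.1) (dfr a0 q.1) ↔ R3c.Adj (dfr b0 p.2) (dfr b0 q.2) := by
      rw [hadj, hadj]; exact hpq.2.1
    have D : Dr (dfr a0 p.1) (dfr a0 q.1) ↔ Dr (dfr b0 p.2) (dfr b0 q.2) := by
      rw [hDr, hDr]; exact hpq.2.2
    rcases fin3_cases (dyc (dfr a0 p.1)) (dyc (dfr a0 q.1)) with h6 | h6 | h6
    · rw [ordD n1 n2 h6, ordD m1 m2 (by rw [← c1, ← c2]; exact h6)]
      exact and_congr (not_congr e3) D
    · rw [← model_cord.adj _ _ n1 n2 h6, ← model_cord.adj _ _ m1 m2 (by rw [← c1, ← c2]; exact h6)]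
      exact A
    · have f1 := model_cord.adj _ _ n2 n1 h6
      have f2 := model_cord.adj _ _ m2 m1 (by rw [← c1, ← c2]; exact h6)
      have t1 := model_cord.tri _ _ n1 n2
      have t2 := model_cord.tri _ _ m1 m2
      rw [R3c.adj_comm] at f1 f2
      have hne : dfr a0 p.1 ≠ dfr a0 q.1 := by
        intro hh
        rw [hh] at h6
        revert h6
        generalize dyc (dfr a0 q.1) = k
        revert k
        decide
      have g1 : dyp (dfr a0 p.1) < dyp (dfr a0 q.1) ↔ ¬ dyp (dfr a0 q.1) < dyp (dfr a0 p.1) := by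
        constructor
        · intro hh; exact not_lt.2 hh.le
        · intro hh; exact (t1.resolve_left hne).resolve_right hh
      have g2 : dyp (dfr b0 p.2) < dyp (dfr b0 q.2) ↔ ¬ dyp (dfr b0 q.2) < dyp (dfr b0 p.2) := by
        constructor
        · intro hh; exact not_lt.2 hh.le
        · intro hh; exact (t2.resolve_left (fun hh2 => hne (e3.2 hh2))).resolve_right hh
      rw [g1, g2, ← f1, ← f2, A]
  obtain ⟨ψ, hψ⟩ := COrd.iso_from model_cord model_cord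
    (s0.image (fun p => (dfr a0 p.1, dfr b0 p.2))) (by
      intro p hp q hq
      rw [Finset.mem_image] at hp hq
      obtain ⟨p, hp, rfl⟩ := hp
      obtain ⟨q, hq, rfl⟩ := hq
      exact hc p hp q hq)
  refine ⟨((rotI a0).trans ψ).trans (rotI b0).symm, fun p hp => ?_⟩
  have h1 := hψ _ (Finset.mem_image_of_mem _ hp)
  simp only at h1
  show (rotI b0).symm (ψ (dfr a0 p.1)) = p.2
  rw [h1, RelIso.symm_apply_eq]
  rfl

section signs
variable {ι : Type v} {a b : ι → Dy}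

/-- the pair `i, j` keeps its orientation. -/
def Kp (a b : ι → Dy) (i j : ι) : Prop := Dr (a i) (a j) ↔ Dr (b i) (b j)

/-- hypotheses on two families -/
structure Two (a b : ι → Dy) : Prop where
  ha : Function.Injective a
  hb : Function.Injective b
  adj : ∀ i j, R3c.Adj (a i) (a j) ↔ R3c.Adj (b i) (b j)
  tf : ∀ i j, (∀ k, R3c.Adj (a i) (a k) ↔ R3c.Adj (a j) (a k)) → i = j

theorem Dr.flip {x y : Dy} (hne : x ≠ y) (hn : ¬ R3c.Adj x y) : Dr y x ↔ ¬ Dr x y :=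
  ⟨fun h h' => Dr.asymm hne h' h, fun h => (Dr.total hne hn).resolve_left h⟩

theorem Two.symm' (h : Two a b) {i j : ι} (hij : i ≠ j) (hn : ¬ R3c.Adj (a i) (a j)) :
    Kp a b i j ↔ Kp a b j i := by
  unfold Kp
  rw [Dr.flip (h.ha.ne hij) hn, Dr.flip (h.hb.ne hij) (fun hh => hn ((h.adj _ _).2 hh)),
    not_iff_not]

theorem Two.L2 (h : Two a b) {i j k : ι} (hij : i ≠ j) (hik : i ≠ k)
    (h1 : ¬ R3c.Adj (a i) (a j)) (h2 : ¬ R3c.Adj (a i) (a k)) (h3 : R3c.Adj (a j) (a k)) :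
    Kp a b i j ↔ Kp a b i k := by
  have e1 := Dr.force (h.ha.ne hij) (h.ha.ne hik) h1 h2 h3
  have e2 := Dr.force (h.hb.ne hij) (h.hb.ne hik) (fun hh => h1 ((h.adj _ _).2 hh))
    (fun hh => h2 ((h.adj _ _).2 hh)) ((h.adj _ _).1 h3)
  unfold Kp
  rw [e1, e2, not_iff_not]

theorem Two.mid (h : Two a b) {i j k : ι} (hij : i ≠ j) (hik : i ≠ k) (hjk : j ≠ k)
    (h1 : ¬ R3c.Adj (a i) (a j)) (h2 : ¬ R3c.Adj (a i) (a k)) (h3 : ¬ R3c.Adj (a j) (a k))
    (hT : Td (a i) (a j) (a k)) : Td (b i) (b j) (b k) ∨ Td (b k) (b j) (b i) := by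
  have k1 : ∀ w, R3c.Adj (b i) (b w) → R3c.Adj (b k) (b w) → R3c.Adj (b j) (b w) := by
    intro w; rw [← h.adj, ← h.adj, ← h.adj]; exact hT.inter
  have k2 : ∀ w, R3c.Adj (b j) (b w) → R3c.Adj (b i) (b w) ∨ R3c.Adj (b k) (b w) := by
    intro w; rw [← h.adj, ← h.adj, ← h.adj]; exact hT.union
  have hb1 : ¬ R3c.Adj (b i) (b j) := fun hh => h1 ((h.adj _ _).2 hh)
  have hb2 : ¬ R3c.Adj (b i) (b k) := fun hh => h2 ((h.adj _ _).2 hh)
  have hb3 : ¬ R3c.Adj (b j) (b k) := fun hh => h3 ((h.adj _ _).2 hh)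
  rcases exists_mid (h.hb.ne hij) (h.hb.ne hik) (h.hb.ne hjk) hb1 hb2 hb3 with
    hh | hh | hh
  · exact hh
  · -- `i` is in the middle
    exfalso
    have k3 : ∀ w, R3c.Adj (b j) (b w) → R3c.Adj (b k) (b w) → R3c.Adj (b i) (b w) := by
      intro w hw1 hw2
      rcases hh with hh | hh
      · exact hh.inter hw1 hw2
      · exact hh.inter hw2 hw1
    have k4 : ∀ w, R3c.Adj (b i) (b w) → R3c.Adj (b j) (b w) ∨ R3c.Adj (b k) (b w) := by
      intro w hw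
      rcases hh with hh | hh
      · exact hh.union hw
      · exact (hh.union hw).symm
    apply hij
    apply h.tf
    intro w
    rw [h.adj, h.adj]
    exact ⟨fun hw => (k4 w hw).elim id (fun hk => k1 w hw hk),
      fun hw => (k2 w hw).elim id (fun hk => k3 w hw hk)⟩
  · exfalso
    have k3 : ∀ w, R3c.Adj (b i) (b w) → R3c.Adj (b j) (b w) → R3c.Adj (b k) (b w) := by
      intro w hw1 hw2
      rcases hh with hh | hh
      · exact hh.inter hw1 hw2
      · exact hh.inter hw2 hw1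
    have k4 : ∀ w, R3c.Adj (b k) (b w) → R3c.Adj (b i) (b w) ∨ R3c.Adj (b j) (b w) := by
      intro w hw
      rcases hh with hh | hh
      · exact hh.union hw
      · exact (hh.union hw).symm
    apply hjk
    apply h.tf
    intro w
    rw [h.adj, h.adj]
    exact ⟨fun hw => (k2 w hw).elim (fun hi => k3 w hi hw) id,
      fun hw => (k4 w hw).elim (fun hi => k1 w hi hw) id⟩

theorem kp_of_mid (h : Two a b) {i j k : ι} (hij : i ≠ j) (hik : i ≠ k) (hjk : j ≠ k)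
    (hT : Td (a i) (a j) (a k)) (hT' : Td (b i) (b j) (b k) ∨ Td (b k) (b j) (b i)) :
    (Kp a b i j ∧ Kp a b j k ∧ Kp a b i k ∧ Kp a b j i ∧ Kp a b k j ∧ Kp a b k i) ∨
    (¬ Kp a b i j ∧ ¬ Kp a b j k ∧ ¬ Kp a b i k ∧ ¬ Kp a b j i ∧ ¬ Kp a b k j ∧
      ¬ Kp a b k i) := by
  obtain ⟨a1, a2, a3⟩ := hT
  have a1' := Dr.asymm (h.ha.ne hij) a1
  have a2' := Dr.asymm (h.ha.ne hjk) a2
  have a3' := Dr.asymm (h.ha.ne hik) a3
  unfold Kp
  rcases hT' with ⟨b1, b2, b3⟩ | ⟨b1, b2, b3⟩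
  · have b1' := Dr.asymm (h.hb.ne hij) b1
    have b2' := Dr.asymm (h.hb.ne hjk) b2
    have b3' := Dr.asymm (h.hb.ne hik) b3
    left
    simp only [a1, a2, a3, a1', a2', a3', b1, b2, b3, b1', b2', b3', iff_self, and_self]
  · have b1' := Dr.asymm (h.hb.ne hjk).symm b1
    have b2' := Dr.asymm (h.hb.ne hij).symm b2
    have b3' := Dr.asymm (h.hb.ne hik).symm b3
    right
    simp only [a1, a2, a3, a1', a2', a3', b1, b2, b3, b1', b2', b3', iff_true, iff_false,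
      not_true_eq_false, not_false_eq_true, and_self]

theorem Two.L1 (h : Two a b) {i j k : ι} (hij : i ≠ j) (hik : i ≠ k) (hjk : j ≠ k)
    (h1 : ¬ R3c.Adj (a i) (a j)) (h2 : ¬ R3c.Adj (a i) (a k)) (h3 : ¬ R3c.Adj (a j) (a k)) :
    Kp a b i j ↔ Kp a b i k := by
  have h1' : ¬ R3c.Adj (a j) (a i) := fun hh => h1 hh.symm
  have h2' : ¬ R3c.Adj (a k) (a i) := fun hh => h2 hh.symm
  have h3' : ¬ R3c.Adj (a k) (a j) := fun hh => h3 hh.symm
  rcases exists_mid (h.ha.ne hij) (h.ha.ne hik) (h.ha.ne hjk) h1 h2 h3 with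
    (hh | hh) | (hh | hh) | (hh | hh)
  · rcases kp_of_mid h hij hik hjk hh (h.mid hij hik hjk h1 h2 h3 hh) with
      ⟨x1, x2, x3, x4, x5, x6⟩ | ⟨x1, x2, x3, x4, x5, x6⟩
    · exact iff_of_true x1 x3
    · exact iff_of_false x1 x3
  · rcases kp_of_mid h hjk.symm hik.symm hij.symm hh
      (h.mid hjk.symm hik.symm hij.symm h3' h2' h1' hh) with
      ⟨x1, x2, x3, x4, x5, x6⟩ | ⟨x1, x2, x3, x4, x5, x6⟩
    · exact iff_of_true x5 x6
    · exact iff_of_false x5 x6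
  · rcases kp_of_mid h hij.symm hjk hik hh (h.mid hij.symm hjk hik h1' h3 h2 hh) with
      ⟨x1, x2, x3, x4, x5, x6⟩ | ⟨x1, x2, x3, x4, x5, x6⟩
    · exact iff_of_true x4 x2
    · exact iff_of_false x4 x2
  · rcases kp_of_mid h hik.symm hjk.symm hij hh (h.mid hik.symm hjk.symm hij h2' h3' h1 hh) with
      ⟨x1, x2, x3, x4, x5, x6⟩ | ⟨x1, x2, x3, x4, x5, x6⟩
    · exact iff_of_true x2 x4
    · exact iff_of_false x2 x4
  · rcases kp_of_mid h hik hij hjk.symm hh (h.mid hik hij hjk.symm h2 h1 h3' hh) with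
      ⟨x1, x2, x3, x4, x5, x6⟩ | ⟨x1, x2, x3, x4, x5, x6⟩
    · exact iff_of_true x3 x1
    · exact iff_of_false x3 x1
  · rcases kp_of_mid h hjk hij.symm hik.symm hh (h.mid hjk hij.symm hik.symm h3 h1' h2' hh) with
      ⟨x1, x2, x3, x4, x5, x6⟩ | ⟨x1, x2, x3, x4, x5, x6⟩
    · exact iff_of_true x6 x5
    · exact iff_of_false x6 x5

theorem Two.share (h : Two a b) {i j k : ι} (hij : i ≠ j) (hik : i ≠ k)
    (h1 : ¬ R3c.Adj (a i) (a j)) (h2 : ¬ R3c.Adj (a i) (a k)) :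
    Kp a b i j ↔ Kp a b i k := by
  by_cases hjk : j = k
  · rw [hjk]
  by_cases h3 : R3c.Adj (a j) (a k)
  · exact h.L2 hij hik h1 h2 h3
  · exact h.L1 hij hik hjk h1 h2 h3

theorem Two.conn (h : Two a b) {i j k l : ι} (hij : i ≠ j) (hkl : k ≠ l)
    (h1 : ¬ R3c.Adj (a i) (a j)) (h2 : ¬ R3c.Adj (a k) (a l)) :
    Kp a b i j ↔ Kp a b k l := by
  have h1' : ¬ R3c.Adj (a j) (a i) := fun hh => h1 hh.symm
  have h2' : ¬ R3c.Adj (a l) (a k) := fun hh => h2 hh.symm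
  -- one cross pair suffices
  have cross : ∀ {i j k l : ι}, i ≠ j → k ≠ l → ¬ R3c.Adj (a i) (a j) → ¬ R3c.Adj (a k) (a l) →
      ¬ R3c.Adj (a i) (a k) → (Kp a b i j ↔ Kp a b k l) := by
    intro i j k l hij hkl h1 h2 h3
    by_cases hik : i = k
    · subst hik
      exact h.share hij hkl h1 h2
    · rw [h.share hij hik h1 h3, h.symm' hik h3]
      exact h.share (Ne.symm hik) hkl (fun hh => h3 hh.symm) h2
  by_cases c1 : R3c.Adj (a i) (a k)
  swap
  · exact cross hij hkl h1 h2 c1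
  by_cases c2 : R3c.Adj (a j) (a k)
  swap
  · rw [h.symm' hij h1]
    exact cross hij.symm hkl h1' h2 c2
  have hne : ∃ w, ¬ (R3c.Adj (a i) (a w) ↔ R3c.Adj (a j) (a w)) := by
    by_contra hcon
    push Not at hcon
    exact hij (h.tf i j hcon)
  obtain ⟨w, hw⟩ := hne
  have fin : ∀ {i j : ι}, i ≠ j → ¬ R3c.Adj (a i) (a j) → R3c.Adj (a i) (a k) →
      R3c.Adj (a i) (a w) → ¬ R3c.Adj (a j) (a w) → (Kp a b i j ↔ Kp a b k l) := by
    intro i j hij h1 c1 w1 w2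
    have w3 : ¬ R3c.Adj (a w) (a k) := r3_tf w1.symm c1
    have hjw : j ≠ w := by
      rintro rfl
      exact h1 w1
    rw [h.symm' hij h1, h.share hij.symm hjw (fun hh => h1 hh.symm) w2, h.symm' hjw w2]
    by_cases hwk : w = k
    · subst hwk
      exact h.share hjw.symm hkl (fun hh => w2 hh.symm) h2
    · exact cross hjw.symm hkl (fun hh => w2 hh.symm) h2 w3
  by_cases w1 : R3c.Adj (a i) (a w)
  · exact fin hij h1 c1 w1 (fun hh => hw ⟨fun _ => hh, fun _ => w1⟩)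
  · rw [h.symm' hij h1]
    have w2 : R3c.Adj (a j) (a w) := by
      by_contra hcon
      exact hw ⟨fun hh => absurd hh w1, fun hh => absurd hh hcon⟩
    exact fin hij.symm h1' c2 w2 w1

/-- an isomorphism between twin-free finite sets keeps or reverses the orientation. -/
theorem Two.sign (h : Two a b) :
    (∀ i j, i ≠ j → (Dr (a i) (a j) ↔ Dr (b i) (b j))) ∨
    (∀ i j, i ≠ j → (Dr (a i) (a j) ↔ Dr (b j) (b i))) := by
  by_cases hex : ∃ i j, i ≠ j ∧ ¬ R3c.Adj (a i) (a j) ∧ ¬ Kp a b i j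
  · right
    obtain ⟨k, l, hkl, h1, h2⟩ := hex
    intro i j hij
    by_cases h3 : R3c.Adj (a i) (a j)
    · have h4 := (h.adj _ _).1 h3
      exact ⟨fun hh => absurd h3 hh.not_adj, fun hh => absurd h4.symm hh.not_adj⟩
    · have h5 := h.conn hij hkl h3 h1
      have h6 : ¬ Kp a b i j := fun hh => h2 (h5.1 hh)
      unfold Kp at h6
      rw [Dr.flip (h.hb.ne hij) (fun hh => h3 ((h.adj _ _).2 hh))]
      constructor
      · intro hA hB
        exact h6 ⟨fun _ => hB, fun _ => hA⟩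
      · intro hnB
        by_contra hnA
        exact h6 ⟨fun h => absurd h hnA, fun h => absurd h hnB⟩
  · left
    push Not at hex
    intro i j hij
    by_cases h3 : R3c.Adj (a i) (a j)
    · have h4 := (h.adj _ _).1 h3
      exact ⟨fun hh => absurd h3 hh.not_adj, fun hh => absurd h4 hh.not_adj⟩
    · exact hex i j hij h3

end signs

end Run7.h901
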