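import Pool.Agent.Run7.h901.Conv2

/-!
`R3c` is set-homogeneous.
-/

open scoped Classical

namespace Run7.h901

universe u v

variable {ι : Type v}

/-- twins in a family -/
def Tw (a : ι → Dy) (i j : ι) : Prop := ∀ k, R3c.Adj (a i) (a k) ↔ R3c.Adj (a j) (a k)

theorem Tw.refl (a : ι → Dy) (i : ι) : Tw a i i := fun _ => Iff.rfl
theorem Tw.symm {a : ι → Dy} {i j : ι} (h : Tw a i j) : Tw a j i := fun k => (h k).symm
theorem Tw.trans {a : ι → Dy} {i j k : ι} (h : Tw a i j) (h' : Tw a j k) : Tw a i k :=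
  fun l => (h l).trans (h' l)

theorem Tw.not_adj {a : ι → Dy} {i j : ι} (h : Tw a i j) : ¬ R3c.Adj (a i) (a j) := by
  rw [h j]
  exact R3c.irrefl

/-- two twins lie on the same side of every other vertex -/
theorem Tw.side {a : ι → Dy} (ha : Function.Injective a) {i j k : ι} (h : Tw a i j)
    (hk : ¬ Tw a k i) (h1 : Dr (a k) (a i)) : Dr (a k) (a j) := by
  have hki : k ≠ i := fun he => hk (he ▸ Tw.refl a i)
  have hkj : k ≠ j := fun he => hk (he ▸ h.symm)
  have hn : ¬ R3c.Adj (a k) (a i) := h1.not_adj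
  have hn' : ¬ R3c.Adj (a k) (a j) := by
    intro hh
    apply hn
    rw [R3c.adj_comm, h k, R3c.adj_comm]
    exact hh
  by_contra hcon
  have h2 : Dr (a j) (a k) := (Dr.total (ha.ne hkj) hn').resolve_left hcon
  have hji : j ≠ i := by
    rintro rfl
    exact hcon h1
  have h3 : Dr (a j) (a i) := Dr.trans' (ha.ne hji) h2 h1 h.symm.not_adj
  have hT : Td (a j) (a k) (a i) := ⟨h2, h1, h3⟩
  apply hk
  intro w
  constructor
  · intro hw
    rcases hT.union hw with h4 | h4
    · exact (h w).2 h4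
    · exact h4
  · intro hw
    exact hT.inter ((h w).1 hw) hw

theorem Tw.side' {a : ι → Dy} (ha : Function.Injective a) {i j k : ι} (h : Tw a i j)
    (hk : ¬ Tw a k i) : Dr (a k) (a i) ↔ Dr (a k) (a j) :=
  ⟨h.side ha hk, h.symm.side ha (fun h' => hk (h'.trans h.symm))⟩

theorem Tw.side2 {a : ι → Dy} (ha : Function.Injective a) {i j k : ι} (h : Tw a i j)
    (hk : ¬ Tw a k i) : Dr (a i) (a k) ↔ Dr (a j) (a k) := by
  have hki : k ≠ i := fun he => hk (he ▸ Tw.refl a i)
  have hkj : k ≠ j := fun he => hk (he ▸ h.symm)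
  by_cases hn : R3c.Adj (a k) (a i)
  · have hn' : R3c.Adj (a k) (a j) := by
      rw [R3c.adj_comm, ← h k, R3c.adj_comm]; exact hn
    exact ⟨fun hh => absurd hn.symm hh.not_adj, fun hh => absurd hn'.symm hh.not_adj⟩
  · have hn' : ¬ R3c.Adj (a k) (a j) := by
      rw [R3c.adj_comm, ← h k, R3c.adj_comm]; exact hn
    rw [Dr.flip (ha.ne hki) hn, Dr.flip (ha.ne hkj) hn', h.side' ha hk]

theorem Tw.both {a : ι → Dy} (ha : Function.Injective a) {i j i' j' : ι} (h : Tw a i i')
    (h' : Tw a j j') (hij : ¬ Tw a i j) : Dr (a i) (a j) ↔ Dr (a i') (a j') := by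
  rw [h.side2 ha (fun hh => hij hh.symm), h'.side' ha (fun hh => hij (h.trans hh))]

/-- strict order on a class -/
def cls_lt (a : ι → Dy) (P : ι → Prop) (i j : {i // P i}) : Prop :=
  i ≠ j ∧ Dr (a i.1) (a j.1)

theorem cls_wo [Finite ι] {a : ι → Dy} (ha : Function.Injective a) {P : ι → Prop}
    (hP : ∀ i j, P i → P j → Tw a i j) : IsWellOrder {i // P i} (cls_lt a P) := by
  have hirr : ∀ i, ¬ cls_lt a P i i := fun i h => h.1 rfl
  have htr : ∀ i j k, cls_lt a P i j → cls_lt a P j k → cls_lt a P i k := by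
    intro i j k h1 h2
    have hik : i ≠ k := by
      rintro rfl
      exact Dr.asymm (ha.ne (fun he => h1.1 (Subtype.ext he))) h1.2 h2.2
    exact ⟨hik, Dr.trans' (ha.ne (fun he => hik (Subtype.ext he))) h1.2 h2.2
      (hP _ _ i.2 k.2).not_adj⟩
  have i1 : IsTrans {i // P i} (cls_lt a P) := ⟨htr⟩
  have i2 : Std.Irrefl (cls_lt a P) := ⟨hirr⟩
  exact
    { trichotomous := by
        intro i j h1 h2
        by_contra hne
        have hne' : i.1 ≠ j.1 := fun he => hne (Subtype.ext he)
        rcases Dr.total (ha.ne hne') (hP _ _ i.2 j.2).not_adj with h | h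
        · exact h1 ⟨hne, h⟩
        · exact h2 ⟨Ne.symm hne, h⟩
      wf := Finite.wellFounded_of_trans_of_irrefl _ }

theorem pres [Finite ι] {a b : ι → Dy} (ha : Function.Injective a) (hb : Function.Injective b)
    (hadj : ∀ i j, R3c.Adj (a i) (a j) ↔ R3c.Adj (b i) (b j)) (o : ι → ι)
    (ho : ∀ i, Tw a i (o i))
    (hD : ∀ i j, ¬ Tw a i j → (Dr (a (o i)) (a (o j)) ↔ Dr (b (o i)) (b (o j)))) :
    ∃ (φ : R3c ≃g R3c) (σ : Equiv.Perm ι), ∀ i, φ (a i) = b (σ i) := by
  have hTw : ∀ i j, Tw a i j ↔ Tw b i j := by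
    intro i j
    unfold Tw
    simp only [hadj]
  have hD' : ∀ i j, ¬ Tw a i j → (Dr (a i) (a j) ↔ Dr (b i) (b j)) := by
    intro i j hij
    rw [Tw.both ha (ho i) (ho j) hij, hD i j hij]
    exact (Tw.both hb ((hTw _ _).1 (ho i)) ((hTw _ _).1 (ho j))
      (fun hh => hij ((hTw _ _).2 hh))).symm
  have hex : ∀ i : ι, ∃ e : {j // Tw a i j} ≃ {j // Tw a i j}, ∀ x y,
      cls_lt a (Tw a i) x y ↔ cls_lt b (Tw a i) (e x) (e y) := by
    intro i
    have w1 := cls_wo (P := Tw a i) ha (fun j k hj hk => hj.symm.trans hk)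
    have w2 := cls_wo (P := Tw a i) hb (fun j k hj hk => (hTw _ _).1 (hj.symm.trans hk))
    have := Fintype.ofFinite {j // Tw a i j}
    have h1 : Ordinal.type (cls_lt a (Tw a i)) = Ordinal.type (cls_lt b (Tw a i)) := by
      rw [Ordinal.type_fintype, Ordinal.type_fintype]
    obtain ⟨e⟩ := Ordinal.type_eq.1 h1
    exact ⟨e.toEquiv, fun x y => e.map_rel_iff.symm⟩
  -- make the choice depend on the class only
  let S : Setoid ι := ⟨Tw a, Tw.refl a, Tw.symm, Tw.trans⟩
  choose e he using hex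
  let out : ι → ι := fun i => (Quotient.mk S i).out
  have hout : ∀ i, Tw a (out i) i := fun i => Quotient.mk_out (s := S) i
  have hout2 : ∀ i j, Tw a i j → out i = out j := fun i j hij => by
    show (Quotient.mk S i).out = (Quotient.mk S j).out
    rw [Quotient.sound (s := S) hij]
  let s : ι → ι := fun i => (e (out i) ⟨i, hout i⟩).1
  have hs1 : ∀ i, Tw a i (s i) := fun i => (hout i).symm.trans (e (out i) ⟨i, hout i⟩).2
  have hs2 : ∀ i j (h : Tw a i j), s j = (e (out i) ⟨j, (hout i).trans h⟩).1 := by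
    intro i j h
    have gen : ∀ x (hx : Tw a x j), out j = x → s j = (e x ⟨j, hx⟩).1 := by
      rintro x hx rfl
      rfl
    exact gen _ _ (hout2 i j h).symm
  have hsinj : Function.Injective s := by
    intro i j hij
    have hT : Tw a i j := (hs1 i).trans (hij ▸ (hs1 j).symm)
    have h1 := hs2 i j hT
    rw [← hij] at h1
    have h3 := (e (out i)).injective (Subtype.ext (show (e (out i) ⟨i, hout i⟩).1 = _ from h1))
    exact congrArg Subtype.val h3
  have k1 : ∀ i j, R3c.Adj (a i) (a j) ↔ R3c.Adj (b (s i)) (b (s j)) := by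
    intro i j
    rw [← hadj, ← hs1 i, R3c.adj_comm, hs1 j, R3c.adj_comm]
  have k2 : ∀ i j, Dr (a i) (a j) ↔ Dr (b (s i)) (b (s j)) := by
    intro i j
    by_cases hT : Tw a i j
    · by_cases hij : i = j
      · subst hij
        unfold Dr
        rw [fr_self, fr_self]
      · have h1 := he (out i) ⟨i, hout i⟩ ⟨j, (hout i).trans hT⟩
        have h2 : (cls_lt a (Tw a (out i)) ⟨i, hout i⟩ ⟨j, (hout i).trans hT⟩) ↔
            Dr (a i) (a j) := by
          constructor
          · intro h; exact h.2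
          · intro h; exact ⟨fun he => hij (congrArg Subtype.val he), h⟩
        have h3 : (cls_lt b (Tw a (out i)) (e (out i) ⟨i, hout i⟩)
            (e (out i) ⟨j, (hout i).trans hT⟩)) ↔ Dr (b (s i)) (b (s j)) := by
          rw [hs2 i j hT]
          constructor
          · intro h; exact h.2
          · intro h
            exact ⟨fun he => hij (congrArg Subtype.val ((e (out i)).injective he)), h⟩
        rw [← h2, h1, h3]
    · rw [hD' i j hT]
      exact Tw.both hb ((hTw _ _).1 (hs1 i)) ((hTw _ _).1 (hs1 j))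
        (fun hh => hT ((hTw _ _).2 hh))
  have := Fintype.ofFinite ι
  obtain ⟨φ, hφ⟩ := hom_D (Finset.univ.image (fun i => (a i, b (s i)))) (by
    intro p hp q hq
    rw [Finset.mem_image] at hp hq
    obtain ⟨i, -, rfl⟩ := hp
    obtain ⟨j, -, rfl⟩ := hq
    refine ⟨⟨fun h => ?_, fun h => ?_⟩, k1 i j, k2 i j⟩
    · simp only at h ⊢
      rw [ha h]
    · simp only at h ⊢
      rw [hsinj (hb h)])
  exact ⟨φ, Equiv.ofBijective s (Finite.injective_iff_bijective.1 hsinj), fun i =>
    hφ _ (Finset.mem_image_of_mem _ (Finset.mem_univ i))⟩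

theorem r3_fam [Finite ι] {a b : ι → Dy} (ha : Function.Injective a) (hb : Function.Injective b)
    (hadj : ∀ i j, R3c.Adj (a i) (a j) ↔ R3c.Adj (b i) (b j)) :
    ∃ (φ : R3c ≃g R3c) (σ : Equiv.Perm ι), ∀ i, φ (a i) = b (σ i) := by
  let S : Setoid ι := ⟨Tw a, Tw.refl a, Tw.symm, Tw.trans⟩
  let out : ι → ι := fun i => (Quotient.mk S i).out
  have hout : ∀ i, Tw a (out i) i := fun i => Quotient.mk_out (s := S) i
  have hT : Two (fun q : Quotient S => a q.out) (fun q : Quotient S => b q.out) :=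
    { ha := fun q q' hq => by
        rw [← Quotient.out_eq q, ← Quotient.out_eq q', ha hq]
      hb := fun q q' hq => by
        rw [← Quotient.out_eq q, ← Quotient.out_eq q', hb hq]
      adj := fun q q' => hadj _ _
      tf := by
        intro q q' h
        rw [← Quotient.out_eq q, ← Quotient.out_eq q']
        apply Quotient.sound (s := S)
        intro k
        have h1 : R3c.Adj (a q.out) (a (out k)) ↔ R3c.Adj (a q'.out) (a (out k)) :=
          h (Quotient.mk S k)
        have h2 := hout k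
        rw [R3c.adj_comm, ← h2 _, R3c.adj_comm, R3c.adj_comm _ (a k), ← h2 _, R3c.adj_comm _ (a q'.out)]
        exact h1 }
  have hne : ∀ i j, ¬ Tw a i j → (Quotient.mk S i) ≠ (Quotient.mk S j) :=
    fun i j hij h => hij (Quotient.exact h)
  rcases hT.sign with h | h
  · exact pres ha hb hadj out (fun i => (hout i).symm) (fun i j hij => h _ _ (hne i j hij))
  · have hr1 : ∀ x y, R3c.Adj (refI x) (refI y) ↔ R3c.Adj x y := fun x y => refI.map_adj_iff
    have hr2 : ∀ x y, Dr (refI x) (refI y) ↔ Dr y x := by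
      intro x y
      show fr (dfr x dy0) (dfr y dy0) < 1 / 3 ↔ fr y x < 1 / 3
      rw [fr_dfr']
    obtain ⟨φ, σ, hφ⟩ := pres (b := fun i => refI (b i)) ha (refI.injective.comp hb)
      (fun i j => (hadj i j).trans (hr1 _ _).symm) out (fun i => (hout i).symm)
      (fun i j hij => (h _ _ (hne i j hij)).trans (hr2 _ _).symm)
    refine ⟨φ.trans refI.symm, σ, fun i => ?_⟩
    show refI.symm (φ (a i)) = b (σ i)
    rw [hφ, RelIso.symm_apply_apply]

/-- the graph `R3c` is set-homogeneous. -/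
theorem r3c_setHomogeneous : SetHomogeneous R3c := by
  intro A B hA hB ⟨e⟩
  have := hA.to_subtype
  obtain ⟨φ, σ, hφ⟩ := r3_fam (ι := A) (a := fun i => i.1) (b := fun i => (e i).1)
    Subtype.val_injective (fun i j hij => e.injective (Subtype.ext hij))
    (fun i j => (e.map_adj_iff (v := i) (w := j)).symm)
  refine ⟨φ, ?_⟩
  ext y
  constructor
  · rintro ⟨x, hx, rfl⟩
    rw [hφ ⟨x, hx⟩]
    exact (e _).2
  · intro hy
    refine ⟨(σ.symm (e.symm ⟨y, hy⟩)).1, (σ.symm _).2, ?_⟩
    rw [hφ (σ.symm (e.symm ⟨y, hy⟩))]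
    simp

end Run7.h901
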