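import Pool.Agent.Run7.h901.Main4
import Pool.Agent.Run7.h901.AR2
import Pool.Agent.Run7.h901.Univ
import Pool.Agent.Run7.h77.T1
import Pool.Agent.Run7.h77.T2

/-!
The classification of the countable set-homogeneous graphs.
-/

open scoped Classical

namespace Run7.h901

universe u
variable {V : Type u} {G : SimpleGraph V}

theorem t1Stmt : T1Stmt.{u} := fun _ _ h h1 h2 => Run7.h77.BL.T1 h h1 h2

theorem rich_universal (h : Rich G) : Universal G := fun W _ A =>
  Run7.h77.BL.T2 h.sh (fun _ _ hA => cog_all t1Stmt hA V G h) W A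

theorem main5 [Countable V] [Infinite V] (hG : SetHomogeneous G) :
    (Homogeneous G ∧ (EqualCliques G ∨ EqualCliques Gᶜ ∨
      (∃ m, 3 ≤ m ∧ (GenericCliqueFree G m ∨ GenericCliqueFree Gᶜ m)) ∨ RadoExt G)) ∨
      Nonempty (G ≃g R3c) ∨ Nonempty (Gᶜ ≃g R3c) := by
  by_cases hN : ∃ N, G.CliqueFree N ∨ Gᶜ.CliqueFree N
  · obtain ⟨N, hN⟩ := hN
    rcases main2_bounded hG hN with h | h | h
    · exact Or.inl ⟨h.1, h.2.imp id (Or.imp id Or.inl)⟩
    · exact Or.inr (Or.inl h)
    · exact Or.inr (Or.inr h)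
  push Not at hN
  have h1 : ∀ n, ¬ G.CliqueFree n := fun n => (hN n).1
  have h2 : ∀ n, ¬ Gᶜ.CliqueFree n := fun n => (hN n).2
  by_cases hP : HasP3 G Set.univ
  · by_cases hK : HasP3 Gᶜ Set.univ
    · left
      have hR : Rich G := by
        refine ⟨hG, ex_cl h1, ex_indp h2, hP, ?_⟩
        obtain ⟨a, -, b, -, c, -, h1, h2, h3⟩ := hK
        rw [compl_compl] at h3
        exact ⟨b, trivial, a, trivial, c, trivial, h3, h1.symm, h2⟩
      have hU := rich_universal hR
      exact ⟨univ_homog hG hU, Or.inr (Or.inr (Or.inr (univ_rado hG hU)))⟩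
    · exact Or.inl ⟨(P12_noP3 hG.compl hK).of_compl,
        Or.inr (Or.inl (compl_transfer_equalCliques hG.compl hK))⟩
  · exact Or.inl ⟨P12_noP3 hG hP, Or.inl (compl_transfer_equalCliques hG hP)⟩

end Run7.h901
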