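import Pool.Agent.Run7.h901.Conv3
import Pool.Agent.Run7.h901.Main5
import Pool.Agent.Run7.h77.Uniq
import Pool.Agent.Run7.h77.Exist

/-!
The graphs on the list are set-homogeneous.
-/

open scoped Classical

namespace Run7.h901

universe u v w
variable {V : Type u} {G : SimpleGraph V}

theorem Homogeneous.setHomogeneous (h : Homogeneous G) : SetHomogeneous G := by
  intro A B hA hB ⟨f⟩
  obtain ⟨φ, hφ⟩ := h A B hA hB f
  refine ⟨φ, ?_⟩
  ext y
  constructor
  · rintro ⟨x, hx, rfl⟩
    rw [hφ ⟨x, hx⟩]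
    exact (f _).2
  · intro hy
    refine ⟨(f.symm ⟨y, hy⟩).1, (f.symm _).2, ?_⟩
    rw [hφ (f.symm ⟨y, hy⟩)]
    simp

theorem sh_of_fam (h : ∀ (n : ℕ) (y y' : Fin n → V), Function.Injective y →
    Function.Injective y' → (∀ i j, G.Adj (y i) (y j) ↔ G.Adj (y' i) (y' j)) →
    ∃ (φ : G ≃g G) (σ : Equiv.Perm (Fin n)), ∀ i, φ (y i) = y' (σ i)) : SetHomogeneous G := by
  intro A B hA hB ⟨f⟩
  have := hA.fintype
  let a : Fin (Fintype.card A) ≃ A := (Fintype.equivFin A).symm
  obtain ⟨φ, σ, hφ⟩ := h _ (fun i => (a i).1) (fun i => (f (a i)).1)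
    (fun i j hij => a.injective (Subtype.ext hij))
    (fun i j hij => a.injective (f.injective (Subtype.ext hij)))
    (fun i j => (f.map_adj_iff (v := a i) (w := a j)).symm)
  refine ⟨φ, ?_⟩
  ext y
  constructor
  · rintro ⟨x, hx, rfl⟩
    have := hφ (a.symm ⟨x, hx⟩)
    simp only [Equiv.apply_symm_apply] at this
    rw [this]
    exact (f _).2
  · intro hy
    refine ⟨(a (σ.symm (a.symm (f.symm ⟨y, hy⟩)))).1, (a _).2, ?_⟩
    rw [hφ]
    simp

theorem SetHomogeneous.of_iso {W : Type w} {H : SimpleGraph W} (e : G ≃g H)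
    (hH : SetHomogeneous H) : SetHomogeneous G := by
  apply sh_of_fam
  intro n y y' hy hy' h
  obtain ⟨φ, σ, hσ⟩ := T0 hH (y := fun i => e (y i)) (y' := fun i => e (y' i))
    (e.injective.comp hy) (e.injective.comp hy')
    (fun i j => by rw [e.map_adj_iff, e.map_adj_iff]; exact h i j)
  refine ⟨(e.trans φ).trans e.symm, σ, fun i => ?_⟩
  show e.symm (φ (e (y i))) = y' (σ i)
  rw [hσ, RelIso.symm_apply_apply]

theorem SetHomogeneous.of_compl (h : SetHomogeneous Gᶜ) : SetHomogeneous G := by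
  have := h.compl
  rwa [compl_compl] at this

theorem rado_homogeneous [Countable V] (h : RadoExt G) : Homogeneous G := by
  apply homogeneous_of_ext
  intro s hs x hx
  obtain ⟨v, hv1, hv2, hv3, hv4⟩ := h
    ((s.filter (fun p => G.Adj p.1 x)).image Prod.snd)
    ((s.filter (fun p => ¬ G.Adj p.1 x)).image Prod.snd) (by
      rw [Finset.disjoint_left]
      intro b hb hb'
      simp only [Finset.mem_image, Finset.mem_filter] at hb hb'
      obtain ⟨p, ⟨hp, hp1⟩, rfl⟩ := hb
      obtain ⟨q, ⟨hq, hq1⟩, hpq⟩ := hb'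
      rw [(hs q hq p hp).1.2 hpq] at hq1
      exact hq1 hp1)
  refine ⟨v, ?_, fun p hp => ?_⟩
  · intro hv
    rw [Finset.mem_image] at hv
    obtain ⟨p, hp, rfl⟩ := hv
    by_cases hpx : G.Adj p.1 x
    · exact hv1 (Finset.mem_image_of_mem _ (Finset.mem_filter.2 ⟨hp, hpx⟩))
    · exact hv2 (Finset.mem_image_of_mem _ (Finset.mem_filter.2 ⟨hp, hpx⟩))
  · by_cases hpx : G.Adj p.1 x
    · exact ⟨fun _ => (hv3 _ (Finset.mem_image_of_mem _ (Finset.mem_filter.2 ⟨hp, hpx⟩))).symm,
        fun _ => hpx⟩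
    · exact ⟨fun h => absurd h hpx, fun h => absurd h.symm
        (hv4 _ (Finset.mem_image_of_mem _ (Finset.mem_filter.2 ⟨hp, hpx⟩)))⟩

theorem homogeneous_of_ext' [Countable V]
    (h : ∀ s : Finset (V × V), IsPI G s → ∀ x : V, (∀ p ∈ s, p.1 ≠ x) →
      ∃ y : V, (∀ p ∈ s, p.2 ≠ y) ∧ ∀ p ∈ s, (G.Adj p.1 x ↔ G.Adj p.2 y)) : Homogeneous G := by
  apply P11_backforth
  intro s hs x
  by_cases hx : ∃ q ∈ s, q.1 = x
  · obtain ⟨q, hq, rfl⟩ := hx
    exact ⟨q.2, fun p hp => hs p hp q hq⟩
  · push Not at hx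
    obtain ⟨y, hy, hA⟩ := h s hs x hx
    exact ⟨y, fun p hp => ⟨⟨fun h1 => absurd h1 (hx p hp), fun h1 => absurd h1 (hy p hp)⟩,
      hA p hp⟩⟩

open Run7.h77.UQ in
theorem cu_homogeneous (α : Type u) (β : Type v) [Countable α] [Countable β] :
    Homogeneous (CU α β) := by
  apply homogeneous_of_ext'
  intro s hs x hx
  have hadj : ∀ p q : α × β, (CU α β).Adj p q ↔ p.1 = q.1 ∧ p.2 ≠ q.2 := fun _ _ => Iff.rfl
  have hcl : ∀ p q : α × β, p.1 = q.1 ↔ p = q ∨ (CU α β).Adj p q := by
    intro p q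
    rw [hadj]
    constructor
    · intro h
      by_cases h2 : p.2 = q.2
      · exact Or.inl (Prod.ext h h2)
      · exact Or.inr ⟨h, h2⟩
    · rintro (rfl | h)
      · rfl
      · exact h.1
  have hcls : ∀ p ∈ s, ∀ q ∈ s, (p.1.1 = q.1.1 ↔ p.2.1 = q.2.1) := by
    intro p hp q hq
    rw [hcl, hcl, (hs p hp q hq).1, (hs p hp q hq).2]
  by_cases hex : ∃ p ∈ s, p.1.1 = x.1
  · obtain ⟨p0, hp0, hp0x⟩ := hex
    -- a free vertex in the class of `p0.2`
    have key : ∃ v : β, ∀ p ∈ s, p.2 ≠ (p0.2.1, v) := by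
      by_contra hcon
      push Not at hcon
      choose f hf1 hf2 using hcon
      have hcl2 : ∀ v, (f v).1.1 = x.1 := by
        intro v
        rw [← hp0x]
        exact (hcls _ (hf1 v) _ hp0).2 (by rw [hf2])
      have hinj : Function.Injective (fun v => (f v).1.2) := by
        intro v v' hvv
        have h2 : (f v).1 = (f v').1 := Prod.ext ((hcl2 v).trans (hcl2 v').symm) hvv
        have h3 := (hs _ (hf1 v) _ (hf1 v')).1.1 h2
        rw [hf2, hf2] at h3
        exact congrArg Prod.snd h3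
      have hfin : Finite β := by
        apply Finite.of_injective (β := s) (fun v => ⟨f v, hf1 v⟩)
        intro v v' hvv
        have h2 := congrArg Subtype.val hvv
        simp only at h2
        have h3 := hf2 v
        rw [h2, hf2 v'] at h3
        exact (congrArg Prod.snd h3).symm
      obtain ⟨v, hv⟩ := (Finite.injective_iff_surjective.1 hinj) x.2
      exact hx _ (hf1 v) (Prod.ext (hcl2 v) hv)
    obtain ⟨v, hv⟩ := key
    refine ⟨(p0.2.1, v), hv, fun p hp => ?_⟩
    have h1 : p.1 ≠ x := hx p hp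
    have h2 : p.2 ≠ (p0.2.1, v) := hv p hp
    have h3 : p.1.1 = x.1 ↔ p.2.1 = p0.2.1 := by rw [← hp0x]; exact hcls p hp p0 hp0
    constructor
    · intro h
      have h4 : p.1.1 = x.1 := h.1
      exact ((hcl p.2 (p0.2.1, v)).1 (h3.1 h4)).resolve_left h2
    · intro h
      have h4 : p.2.1 = p0.2.1 := h.1
      exact ((hcl p.1 x).1 (h3.2 h4)).resolve_left h1
  · push Not at hex
    have key : ∃ j : α, ∀ p ∈ s, p.2.1 ≠ j := by
      by_contra hcon
      push Not at hcon
      choose f hf1 hf2 using hcon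
      have hinj : Function.Injective (fun j => (f j).1.1) := by
        intro j j' hjj
        have := (hcls _ (hf1 j) _ (hf1 j')).1 hjj
        rw [hf2, hf2] at this
        exact this
      have hfin : Finite α := by
        apply Finite.of_injective (β := s) (fun j => ⟨f j, hf1 j⟩)
        intro j j' hjj
        have h2 := congrArg Subtype.val hjj
        simp only at h2
        rw [← hf2 j, ← hf2 j', h2]
      obtain ⟨j, hj⟩ := (Finite.injective_iff_surjective.1 hinj) x.1
      exact hex _ (hf1 j) hj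
    obtain ⟨j, hj⟩ := key
    refine ⟨(j, x.2), ?_, fun p hp => ?_⟩
    · intro p hp hpj
      exact hj p hp (by rw [hpj])
    · exact ⟨fun h => absurd h.1 (hex p hp), fun h => absurd h.1 (hj p hp)⟩

open Run7.h77.UQ in
theorem cu_setHomogeneous {α : Type u} {β : Type v} {V : Type w} [Countable V]
    {G : SimpleGraph V} (e : G ≃g CU α β) : SetHomogeneous G := by
  rcases isEmpty_or_nonempty V with hV | hV
  · intro A B hA hB _
    refine ⟨SimpleGraph.Iso.refl, ?_⟩
    rw [Set.eq_empty_of_isEmpty A, Set.eq_empty_of_isEmpty B, Set.image_empty]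
  · obtain ⟨v⟩ := hV
    have h1 : Countable (α × β) := e.symm.injective.countable
    have hα : Countable α := (Prod.mk_left_injective (e v).2 : Function.Injective
      (fun a : α => (a, (e v).2))).countable
    have hβ : Countable β := (Prod.mk_right_injective (e v).1 : Function.Injective
      (fun b : β => ((e v).1, b))).countable
    exact SetHomogeneous.of_iso e (cu_homogeneous α β).setHomogeneous

end Run7.h901
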