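import Pool.Agent.Run7.h901.Conv4

/-!
The classification, with explicit models.
-/

namespace Run7.h901

open Run7.h77.UQ Run7.h77.EX

universe u
variable {V : Type u}

/-- two dyadic rationals of `[0, 1)` are adjacent if their distance on the circle of length `1` is
less than `1 / 3`. -/
def R3 : SimpleGraph Dy where
  Adj x y := x ≠ y ∧ (|x.1 - y.1| < 1 / 3 ∨ 2 / 3 < |x.1 - y.1|)
  symm := ⟨fun x y h => by rw [abs_sub_comm]; exact ⟨h.1.symm, h.2⟩⟩
  loopless := ⟨fun _ h => h.1 rfl⟩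

theorem r3c_eq : R3ᶜ = R3c := by
  ext x y
  rw [SimpleGraph.compl_adj]
  change (x ≠ y ∧ ¬ (x ≠ y ∧ (|x.1 - y.1| < 1 / 3 ∨ 2 / 3 < |x.1 - y.1|))) ↔
    (1 / 3 < |x.1 - y.1| ∧ |x.1 - y.1| < 2 / 3)
  have n1 := no_third x y 1 (by simp)
  have n2 := no_third x y 2 (by simp)
  have n3 := no_third x y (-1) (by simp)
  have n4 := no_third x y (-2) (by simp)
  push_cast at n1 n2 n3 n4
  have k1 : |x.1 - y.1| ≠ 1 / 3 := by
    intro h
    rcases (abs_eq (by norm_num)).1 h with h | h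
    · exact n1 h
    · exact n3 (by rw [h]; norm_num)
  have k2 : |x.1 - y.1| ≠ 2 / 3 := by
    intro h
    rcases (abs_eq (by norm_num)).1 h with h | h
    · exact n2 h
    · exact n4 (by rw [h]; norm_num)
  constructor
  · rintro ⟨h1, h2⟩
    have h3 : ¬ (|x.1 - y.1| < 1 / 3 ∨ 2 / 3 < |x.1 - y.1|) := fun h => h2 ⟨h1, h⟩
    rw [not_or, not_lt, not_lt] at h3
    exact ⟨lt_of_le_of_ne h3.1 (Ne.symm k1), lt_of_le_of_ne h3.2 k2⟩
  · rintro ⟨h1, h2⟩
    refine ⟨fun h => ?_, fun h => ?_⟩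
    · rw [h] at h1
      simp at h1
      norm_num at h1
    · rcases h.2 with h3 | h3
      · exact lt_asymm h1 h3
      · exact lt_asymm h2 h3

/-- isomorphisms of complements -/
def complI {W : Type*} {G : SimpleGraph V} {H : SimpleGraph W} (e : G ≃g H) : Gᶜ ≃g Hᶜ where
  toEquiv := e.toEquiv
  map_rel_iff' := by
    intro a b
    show Hᶜ.Adj (e a) (e b) ↔ Gᶜ.Adj a b
    simp only [SimpleGraph.compl_adj, e.map_adj_iff, ne_eq, e.injective.eq_iff]

theorem classification :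
    ∃ (R : SimpleGraph ℕ) (H : ℕ → SimpleGraph ℕ),
      RadoExt R ∧ (∀ m, 3 ≤ m → GenericCliqueFree (H m) m) ∧
      ∀ (V : Type u) [Countable V] [Infinite V] (G : SimpleGraph V),
        SetHomogeneous G ↔
          (∃ α β : Type u, Nonempty (G ≃g CU α β) ∨ Nonempty (Gᶜ ≃g CU α β)) ∨
          (∃ m, 3 ≤ m ∧ (Nonempty (G ≃g H m) ∨ Nonempty (Gᶜ ≃g H m))) ∨
          Nonempty (G ≃g R) ∨ Nonempty (G ≃g R3) ∨ Nonempty (Gᶜ ≃g R3) := by
  have hgen : ∀ m, 3 ≤ m → GenericCliqueFree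
      (Run7.h77.EX.lim (fun H A => H.CliqueFreeOn (A : Set ℕ) (m - 1))) m := fun m hm =>
    exists_gen m (by omega)
  refine ⟨Run7.h77.EX.lim (fun _ _ => True), fun m => Run7.h77.EX.lim (fun H A => H.CliqueFreeOn (A : Set ℕ) (m - 1)),
    exists_rado, hgen, ?_⟩
  intro V _ _ G
  have hR3 : SetHomogeneous R3 := by
    have h1 : Run7.h901.SetHomogeneous (R3ᶜ) := by
      rw [r3c_eq]; exact r3c_setHomogeneous
    exact Run7.h901.SetHomogeneous.of_compl h1
  constructor
  · intro hG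
    rcases main5 (show Run7.h901.SetHomogeneous G from hG) with
      ⟨-, h | h | ⟨m, hm, h | h⟩ | h⟩ | h | h
    · obtain ⟨α, β, e⟩ := equalCliques_iso h
      exact Or.inl ⟨α, β, Or.inl e⟩
    · obtain ⟨α, β, e⟩ := equalCliques_iso h
      exact Or.inl ⟨α, β, Or.inr e⟩
    · exact Or.inr (Or.inl ⟨m, hm, Or.inl (uniq_gen (by omega) h (hgen m hm))⟩)
    · exact Or.inr (Or.inl ⟨m, hm, Or.inr (uniq_gen (by omega) h (hgen m hm))⟩)
    · exact Or.inr (Or.inr (Or.inl (uniq_rado h exists_rado)))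
    · obtain ⟨e⟩ := h
      right; right; right; right
      have e1 : G ≃g R3ᶜ := by rw [r3c_eq]; exact e
      have e2 := complI e1
      rw [compl_compl] at e2
      exact ⟨e2⟩
    · obtain ⟨e⟩ := h
      right; right; right; left
      have e1 : Gᶜ ≃g R3ᶜ := by rw [r3c_eq]; exact e
      have e2 := complI e1
      rw [compl_compl, compl_compl] at e2
      exact ⟨e2⟩
  · rintro (⟨α, β, h | h⟩ | ⟨m, hm, h | h⟩ | h | h | h)
    · obtain ⟨e⟩ := h
      exact cu_setHomogeneous (α := α) (β := β) e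
    · obtain ⟨e⟩ := h
      exact Run7.h901.SetHomogeneous.of_compl (cu_setHomogeneous (α := α) (β := β) e)
    · obtain ⟨e⟩ := h
      exact Run7.h901.SetHomogeneous.of_iso e
        (homogeneous_of_generic (n := m - 1) (by
          rw [Nat.sub_add_cancel (by omega)]; exact hgen m hm)).setHomogeneous
    · obtain ⟨e⟩ := h
      exact Run7.h901.SetHomogeneous.of_compl (Run7.h901.SetHomogeneous.of_iso e
        (homogeneous_of_generic (n := m - 1) (by
          rw [Nat.sub_add_cancel (by omega)]; exact hgen m hm)).setHomogeneous)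
    · obtain ⟨e⟩ := h
      exact Run7.h901.SetHomogeneous.of_iso e (rado_homogeneous exists_rado).setHomogeneous
    · obtain ⟨e⟩ := h
      exact Run7.h901.SetHomogeneous.of_iso e hR3
    · obtain ⟨e⟩ := h
      exact Run7.h901.SetHomogeneous.of_compl (Run7.h901.SetHomogeneous.of_iso e hR3)

end Run7.h901
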