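import Pool.Agent.Run7.h901.Basics

/-!
Predicates used by the pieces of Theorem A.
-/

open scoped Classical

namespace Run7.h901

universe u
variable {V : Type u}

/-- σ at level `j`: inside the common neighbourhood of a `j`-clique `C`, any ordered independent
triple is moved to any other one by an automorphism preserving `C` (setwise). -/
def Sigma3 (G : SimpleGraph V) (j : ℕ) : Prop :=
  ∀ C : Finset V, G.IsNClique j C → ∀ a b c a' b' c' : V, Indep3 G a b c → Indep3 G a' b' c' →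
    a ∈ cn G C → b ∈ cn G C → c ∈ cn G C → a' ∈ cn G C → b' ∈ cn G C → c' ∈ cn G C →
    ∃ φ : G ≃g G, C.image φ = C ∧ φ a = a' ∧ φ b = b' ∧ φ c = c'

/-- `D1` -/
def D1 (G : SimpleGraph V) (k : ℕ) : Prop :=
  ∀ C : Finset V, G.IsNClique k C → ∀ I : Finset V, (∀ x ∈ I, x ∈ cn G C) →
    G.CliqueFreeOn (I : Set V) 2 → (cn G (C ∪ I)).Infinite

/-- `K₂ + 2K₁` embeds in the common neighbourhood of every `k`-clique. -/
def D2 (G : SimpleGraph V) (k : ℕ) : Prop :=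
  ∀ C : Finset V, G.IsNClique k C → ∃ c₁ ∈ cn G C, ∃ c₂ ∈ cn G C, ∃ a ∈ cn G C, ∃ b ∈ cn G C,
    G.Adj c₁ c₂ ∧ Gᶜ.Adj a b ∧ Gᶜ.Adj c₁ a ∧ Gᶜ.Adj c₁ b ∧ Gᶜ.Adj c₂ a ∧ Gᶜ.Adj c₂ b

/-- `VR G S m`: for every finite `B` there is an `m`-clique in `S`, disjoint from `B`, such that
every `b ∈ B` is adjacent to all or to none of its members. -/
def VR (G : SimpleGraph V) (S : Set V) (m : ℕ) : Prop :=
  ∀ B : Finset V, ∃ Q : Finset V, G.IsNClique m Q ∧ (∀ q ∈ Q, q ∈ S) ∧ Disjoint Q B ∧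
    ∀ b ∈ B, (∀ q ∈ Q, G.Adj b q) ∨ (∀ q ∈ Q, ¬ G.Adj b q)

/-- one-vertex extension property in the common neighbourhoods of the `k`-cliques, with
forbidden clique size `l` in the prescribed neighbourhood. -/
def EP (G : SimpleGraph V) (k l : ℕ) : Prop :=
  ∀ C : Finset V, G.IsNClique k C → ∀ B X : Finset V, (∀ b ∈ B, b ∈ cn G C) → X ⊆ B →
    G.CliqueFreeOn (X : Set V) l →
    ∃ v ∈ cn G C, v ∉ B ∧ (∀ x ∈ X, G.Adj v x) ∧ ∀ x ∈ B, x ∉ X → ¬ G.Adj v x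

/-- the hypotheses (H1)-(H5) of step F at level `k`, `l = m + 1`. -/
structure Hyp (G : SimpleGraph V) (k m : ℕ) : Prop where
  H1 : ∀ C : Finset V, G.IsNClique k C → ∀ Y : Finset V, (∀ y ∈ Y, y ∈ cn G C) →
    G.CliqueFreeOn (Y : Set V) (m + 1) → (cn G (C ∪ Y)).Infinite
  H2 : ∀ C : Finset V, G.IsNClique (k + 1) C → VR G (cn G C) m
  H3 : ∀ C : Finset V, G.IsNClique k C → ∀ a ∈ cn G C, ∀ b ∈ cn G C, Gᶜ.Adj a b →
    VR G (cn G (insert a (insert b C))) m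
  H4 : Sigma3 G k
  H5 : D2 G k

end Run7.h901
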