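import Pool.Agent.Run7.h901.Alpha

/-!
No graph in which all neighbourhoods are disjoint unions of at least two large cliques.
-/

open scoped Classical

namespace Run7.h901

universe u
variable {W : Type u} {H : SimpleGraph W}

/-- `2K₂`: edges `a a'` and `b b'` without further edges. -/
def TwoK2 (H : SimpleGraph W) (a a' b b' : W) : Prop :=
  H.Adj a a' ∧ H.Adj b b' ∧ Hᶜ.Adj a b ∧ Hᶜ.Adj a b' ∧ Hᶜ.Adj a' b ∧ Hᶜ.Adj a' b'

theorem Quasi.twoK2 (hq : Quasi H) {a a' b b' c c' d d' v : W} (h : TwoK2 H a a' b b')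
    (h' : TwoK2 H c c' d d') (h1 : H.Adj v a) (h2 : H.Adj v a') (h3 : H.Adj v b)
    (h4 : H.Adj v b') : ∃ p, H.Adj p c ∧ H.Adj p c' ∧ H.Adj p d ∧ H.Adj p d' := by
  obtain ⟨a1, a2, a3, a4, a5, a6⟩ := h
  obtain ⟨b1, b2, b3, b4, b5, b6⟩ := h'
  obtain ⟨φ, σ, hφ⟩ := hq 4 ![a, a', b, b'] ![c, c', d, d']
    (by
      intro i j
      fin_cases i <;> fin_cases j <;>
        simp [a1.ne, a1.ne.symm, a2.ne, a2.ne.symm, a3.ne, a3.ne.symm, a4.ne, a4.ne.symm, a5.ne,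
          a5.ne.symm, a6.ne, a6.ne.symm])
    (by
      intro i j
      fin_cases i <;> fin_cases j <;>
        simp [b1.ne, b1.ne.symm, b2.ne, b2.ne.symm, b3.ne, b3.ne.symm, b4.ne, b4.ne.symm, b5.ne,
          b5.ne.symm, b6.ne, b6.ne.symm])
    (by
      intro i j
      fin_cases i <;> fin_cases j <;>
        simp [a1, a1.symm, a2, a2.symm, a3.2, a3.symm.2, a4.2, a4.symm.2, a5.2, a5.symm.2, a6.2,
          a6.symm.2, b1, b1.symm, b2, b2.symm, b3.2, b3.symm.2, b4.2, b4.symm.2, b5.2, b5.symm.2,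
          b6.2, b6.symm.2])
    (by
      intro i
      fin_cases i
      · exact ⟨2, by simp, by simpa using a3.2⟩
      · exact ⟨2, by simp, by simpa using a5.2⟩
      · exact ⟨0, by simp, by simpa using a3.symm.2⟩
      · exact ⟨0, by simp, by simpa using a4.symm.2⟩)
  have key : ∀ i, H.Adj (φ v) (![c, c', d, d'] i) := by
    intro i
    have := hφ (σ.symm i)
    rw [Equiv.apply_symm_apply] at this
    rw [← this, φ.map_adj_iff]
    generalize σ.symm i = j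
    fin_cases j
    · exact h1
    · exact h2
    · exact h3
    · exact h4
  exact ⟨φ v, key 0, key 1, key 2, key 3⟩

/-- the abstract statement. -/
theorem GQ (hq : Quasi H)
    (nd : ∀ v x y z, H.Adj v x → H.Adj v y → H.Adj v z → H.Adj x y → H.Adj y z → x ≠ z → H.Adj x z)
    (na : ∀ v, ∃ a b, H.Adj v a ∧ H.Adj v b ∧ Hᶜ.Adj a b)
    (inf : ∀ v x, H.Adj v x → {q | H.Adj q v ∧ H.Adj q x}.Infinite) (v : W) : False := by
  obtain ⟨x1, x2, h1, h2, h12⟩ := na v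
  obtain ⟨x1', h1'v, h1'⟩ := (inf v x1 h1).nonempty
  obtain ⟨x2', h2'v, h2'⟩ := (inf v x2 h2).nonempty
  have hK : TwoK2 H x1 x1' x2 x2' := by
    refine ⟨h1'.symm, h2'.symm, h12, ⟨?_, ?_⟩, ⟨?_, ?_⟩, ⟨?_, ?_⟩⟩
    · rintro rfl; exact h12.2 h2'
    · intro h; exact h12.2 (nd v x1 x2' x2 h1 h2'v.symm h2 h h2' h12.1)
    · rintro rfl; exact h12.2 h1'.symm
    · intro h; exact h12.2 (nd v x1 x1' x2 h1 h1'v.symm h2 h1'.symm h h12.1)
    · rintro rfl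
      exact h12.2 (nd v x1 x1' x2 h1 h1'v.symm h2 h1'.symm h2' h12.1)
    · intro h
      have h3 : H.Adj x1 x2' := by
        refine nd v x1 x1' x2' h1 h1'v.symm h2'v.symm h1'.symm h ?_
        rintro rfl; exact h12.2 h2'
      exact h12.2 (nd v x1 x2' x2 h1 h2'v.symm h2 h3 h2' h12.1)
  -- `w`
  obtain ⟨w, hw1, hwv⟩ : ∃ w, H.Adj x1 w ∧ Hᶜ.Adj w v := by
    obtain ⟨a, b, ha, hb, hab⟩ := na x1
    by_contra hno
    push Not at hno
    have hav : a = v ∨ H.Adj a v := by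
      by_contra hn
      push Not at hn
      exact hno a ha ⟨hn.1, hn.2⟩
    have hbv : b = v ∨ H.Adj b v := by
      by_contra hn
      push Not at hn
      exact hno b hb ⟨hn.1, hn.2⟩
    rcases hav with rfl | hav <;> rcases hbv with rfl | hbv
    · exact hab.1 rfl
    · exact hab.2 hbv.symm
    · exact hab.2 hav
    · exact hab.2 (nd x1 a v b ha h1.symm hb hav hbv.symm hab.1)
  obtain ⟨w', hw'1, hw'w⟩ := (inf x1 w hw1).nonempty
  have hw'v : Hᶜ.Adj w' v := by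
    refine ⟨?_, ?_⟩
    · rintro rfl; exact hwv.2 hw'w.symm
    · intro h
      exact hwv.2 (nd x1 w w' v hw1 hw'1.symm h1.symm hw'w.symm h hwv.1)
  have hSinf := inf v x2 h2
  have hone : ∀ u, Hᶜ.Adj u v → {q | (H.Adj q v ∧ H.Adj q x2) ∧ H.Adj q u}.Subsingleton := by
    intro u hu q hq' q' hq''
    by_contra hne
    obtain ⟨⟨hqv, hqx⟩, hqu⟩ := hq'
    obtain ⟨⟨hqv', hqx'⟩, hqu'⟩ := hq''
    have h3 : H.Adj q q' := nd v q x2 q' hqv.symm h2 hqv'.symm hqx hqx'.symm hne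
    exact hu.2 (nd q u q' v hqu h3 hqv hqu'.symm hqv' hu.1)
  obtain ⟨y, hy⟩ := ((hSinf.sdiff (hone w hwv).finite).sdiff (hone w' hw'v).finite).nonempty
  obtain ⟨y', hy'⟩ := (((hSinf.sdiff (hone w hwv).finite).sdiff (hone w' hw'v).finite).sdiff
    (Set.finite_singleton y)).nonempty
  obtain ⟨⟨⟨hyv, hyx⟩, hyw⟩, hyw'⟩ := hy
  obtain ⟨⟨⟨⟨hy'v, hy'x⟩, hy'w⟩, hy'w'⟩, hyy'⟩ := hy'
  have hne : y ≠ y' := fun h => hyy' h.symm
  have a1 : ¬ H.Adj y w := fun h => hyw ⟨⟨hyv, hyx⟩, h⟩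
  have a2 : ¬ H.Adj y w' := fun h => hyw' ⟨⟨hyv, hyx⟩, h⟩
  have a3 : ¬ H.Adj y' w := fun h => hy'w ⟨⟨hy'v, hy'x⟩, h⟩
  have a4 : ¬ H.Adj y' w' := fun h => hy'w' ⟨⟨hy'v, hy'x⟩, h⟩
  have hyy : H.Adj y y' := nd v y x2 y' hyv.symm h2 hy'v.symm hyx hy'x.symm hne
  have hK' : TwoK2 H w w' y y' := by
    refine ⟨hw'w.symm, hyy, ⟨?_, fun h => a1 h.symm⟩, ⟨?_, fun h => a3 h.symm⟩,
      ⟨?_, fun h => a2 h.symm⟩, ⟨?_, fun h => a4 h.symm⟩⟩
    · rintro rfl; exact hwv.2 hyv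
    · rintro rfl; exact hwv.2 hy'v
    · rintro rfl; exact hw'v.2 hyv
    · rintro rfl; exact hw'v.2 hy'v
  obtain ⟨p, pw, pw', py, py'⟩ := hq.twoK2 hK hK' h1 h1'v.symm h2 h2'v.symm
  have hvp : H.Adj v p := by
    refine nd y v y' p hyv hyy py.symm hy'v.symm py'.symm ?_
    rintro rfl; exact hwv.2 pw.symm
  by_cases hxp : x1 = p
  · subst hxp
    exact h12.2 (nd v x1 y x2 h1 hyv.symm h2 py hyx h12.1)
  · have h3 : H.Adj x1 p := nd w x1 w' p hw1.symm hw'w.symm pw.symm hw'1.symm pw'.symm hxp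
    have h4 : x1 ≠ y := by rintro rfl; exact h12.2 hyx
    have h5 : H.Adj x1 y := nd v x1 p y h1 hvp hyv.symm h3 py h4
    exact h12.2 (nd v x1 y x2 h1 hyv.symm h2 h5 hyx h12.1)

end Run7.h901
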