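import Pool.Agent.Run7.h901.LR

/-!
(A): all complete bipartite graphs embed in a rich set-homogeneous graph.
-/

open scoped Classical

namespace Run7.h901

universe u v
variable {V : Type u} {G : SimpleGraph V}

/-- simultaneous Ramsey for finitely many binary relations on `ℕ`. -/
theorem colour (τ : Type) [Fintype τ] (Q : ℕ) : ∃ M : ℕ, ∀ R : τ → ℕ → ℕ → Prop,
    ∃ f : Fin Q → ℕ, StrictMono f ∧ (∀ i, f i < M) ∧
    ∀ t, (∀ i j, i < j → R t (f i) (f j)) ∨ (∀ i j, i < j → ¬ R t (f i) (f j)) := by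
  obtain ⟨N, hN⟩ := ramseyV.{0} (τ → Bool) 2 Q
  refine ⟨N, fun R => ?_⟩
  obtain ⟨L, hL, hLc, col, hcol⟩ := hN (Finset.range N)
    (fun S t => decide (∃ a ∈ S, ∃ b ∈ S, a < b ∧ R t a b)) (by simp)
  refine ⟨fun i => L.orderEmbOfFin hLc i, fun i j hij => by simpa using hij, fun i => ?_,
    fun t => ?_⟩
  · exact Finset.mem_range.1 (hL (L.orderEmbOfFin_mem hLc i))
  · have key : ∀ i j : Fin Q, i < j →
        (R t (L.orderEmbOfFin hLc i) (L.orderEmbOfFin hLc j) ↔ col t = true) := by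
      intro i j hij
      have hlt : L.orderEmbOfFin hLc i < L.orderEmbOfFin hLc j := by simpa using hij
      have h1 := hcol {L.orderEmbOfFin hLc i, L.orderEmbOfFin hLc j} (by
        intro w hw
        simp only [Finset.mem_insert, Finset.mem_singleton] at hw
        rcases hw with rfl | rfl <;> exact L.orderEmbOfFin_mem hLc _)
        (Finset.card_pair hlt.ne)
      rw [← h1, decide_eq_true_iff]
      constructor
      · intro h2
        exact ⟨_, by simp, _, by simp, hlt, h2⟩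
      · rintro ⟨c, hc, d, hd, hcd, h2⟩
        simp only [Finset.mem_insert, Finset.mem_singleton] at hc hd
        rcases hc with rfl | rfl <;> rcases hd with rfl | rfl
        · exact absurd hcd (lt_irrefl _)
        · exact h2
        · exact absurd (hcd.trans hlt) (lt_irrefl _)
        · exact absurd hcd (lt_irrefl _)
    by_cases hc : col t = true
    · exact Or.inl fun i j hij => (key i j hij).2 hc
    · exact Or.inr fun i j hij => fun h2 => hc ((key i j hij).1 h2)

/-- independent sets of sizes `a`, `s` in `W`, completely joined. -/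
def HasB (G : SimpleGraph V) (W : Set V) (a s : ℕ) : Prop :=
  ∃ A S : Finset V, Indp G A ∧ Indp G S ∧ A.card = a ∧ S.card = s ∧ (∀ x ∈ A, x ∈ W) ∧
    (∀ y ∈ S, y ∈ W) ∧ ∀ x ∈ A, ∀ y ∈ S, G.Adj x y

theorem HasB.mono {W : Set V} {a s a' s' : ℕ} (h : HasB G W a s) (ha : a' ≤ a) (hs : s' ≤ s) :
    HasB G W a' s' := by
  obtain ⟨A, S, h1, h2, h3, h4, h5, h6, h7⟩ := h
  obtain ⟨A', hA', hAc⟩ := Finset.exists_subset_card_eq (s := A) (n := a') (by omega)
  obtain ⟨S', hS', hSc⟩ := Finset.exists_subset_card_eq (s := S) (n := s') (by omega)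
  exact ⟨A', S', h1.subset hA', h2.subset hS', hAc, hSc, fun x hx => h5 x (hA' hx),
    fun x hx => h6 x (hS' hx), fun x hx y hy => h7 x (hA' hx) y (hS' hy)⟩

theorem HasB.of_fam {W : Set V} {ι κ : Type} [Fintype ι] [Fintype κ] {f : ι → V} {g : κ → V}
    (hf : Function.Injective f) (hg : Function.Injective g) (hf' : ∀ i j, ¬ G.Adj (f i) (f j))
    (hg' : ∀ i j, ¬ G.Adj (g i) (g j)) (hfW : ∀ i, f i ∈ W) (hgW : ∀ i, g i ∈ W)
    (hfg : ∀ i j, G.Adj (f i) (g j)) : HasB G W (Fintype.card ι) (Fintype.card κ) := by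
  refine ⟨Finset.univ.image f, Finset.univ.image g, ?_, ?_,
    by rw [Finset.card_image_of_injective _ hf, Finset.card_univ],
    by rw [Finset.card_image_of_injective _ hg, Finset.card_univ], ?_, ?_, ?_⟩
  · intro a ha b hb
    rw [Finset.mem_image] at ha hb
    obtain ⟨i, -, rfl⟩ := ha
    obtain ⟨j, -, rfl⟩ := hb
    exact hf' i j
  · intro a ha b hb
    rw [Finset.mem_image] at ha hb
    obtain ⟨i, -, rfl⟩ := ha
    obtain ⟨j, -, rfl⟩ := hb
    exact hg' i j
  · intro a ha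
    rw [Finset.mem_image] at ha
    obtain ⟨i, -, rfl⟩ := ha
    exact hfW i
  · intro a ha
    rw [Finset.mem_image] at ha
    obtain ⟨i, -, rfl⟩ := ha
    exact hgW i
  · intro a ha b hb
    rw [Finset.mem_image] at ha hb
    obtain ⟨i, -, rfl⟩ := ha
    obtain ⟨j, -, rfl⟩ := hb
    exact hfg i j

/-- enumeration of an independent set -/
theorem Indp.enum {I : Finset V} (hI : Indp G I) {N : ℕ} (hc : I.card = N) :
    ∃ v : Fin N → V, Function.Injective v ∧ (∀ i j, ¬ G.Adj (v i) (v j)) ∧ (∀ i, v i ∈ I) := by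
  let e := I.equivFinOfCardEq hc
  exact ⟨fun i => (e.symm i).1, fun i j hij => e.symm.injective (Subtype.ext hij),
    fun i j => hI _ (e.symm i).2 _ (e.symm j).2, fun i => (e.symm i).2⟩

theorem con1 {W : Set V} {q0 : ℕ} (hno : ¬ HasB G W q0 q0)
    (hind : ∀ n, ∃ I : Finset V, Indp G I ∧ I.card = n ∧ ∀ x ∈ I, x ∈ W) {r : ℕ}
    (hext : ∀ S : Finset V, Indp G S → S.card = r → (∀ x ∈ S, x ∈ W) → ∀ M, ∃ T : Finset V,
      Indp G T ∧ T.card = M ∧ (∀ x ∈ T, x ∈ W) ∧ ∀ x ∈ T, x ∈ cn G S)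
    (N : ℕ) (κ : Type) [Fintype κ] :
    ∃ (v : Fin N → V) (L : {S : Finset (Fin N) // S.card = r} × κ → V),
      Function.Injective v ∧ (∀ i j, ¬ G.Adj (v i) (v j)) ∧ (∀ i, v i ∈ W) ∧
      Function.Injective L ∧ (∀ p p', ¬ G.Adj (L p) (L p')) ∧ (∀ p, L p ∈ W) ∧
      ∀ S k, ∀ i ∈ S.1, G.Adj (v i) (L (S, k)) := by
  obtain ⟨I, hI, hIc, hIW⟩ := hind N
  obtain ⟨v, hv, hv', hvI⟩ := hI.enum hIc
  set ι := {S : Finset (Fin N) // S.card = r} with hι
  obtain ⟨q, hq0, hqκ, hq2⟩ : ∃ q : ℕ, q0 ≤ q ∧ Fintype.card κ ≤ q ∧ 2 ≤ q :=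
    ⟨q0 + Fintype.card κ + 2, by omega, by omega, by omega⟩
  let e : ι ≃ Fin (Fintype.card ι) := Fintype.equivFin ι
  obtain ⟨M, hM⟩ := colour (ι × ι × Bool) (Fintype.card ι * q)
  have hT : ∀ S : ι, ∃ T : Finset V, Indp G T ∧ T.card = M ∧ (∀ x ∈ T, x ∈ W) ∧
      ∀ x ∈ T, x ∈ cn G (S.1.image v) := by
    intro S
    apply hext
    · intro x hx y hy
      rw [Finset.mem_image] at hx hy
      obtain ⟨i, -, rfl⟩ := hx
      obtain ⟨j, -, rfl⟩ := hy
      exact hv' i j
    · rw [Finset.card_image_of_injective _ hv]; exact S.2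
    · intro x hx
      rw [Finset.mem_image] at hx
      obtain ⟨i, -, rfl⟩ := hx
      exact hIW _ (hvI i)
  choose T hT1 hT2 hT3 hT4 using hT
  have hℓ : ∀ S : ι, ∃ ℓ : Fin M → V, Function.Injective ℓ ∧ (∀ i j, ¬ G.Adj (ℓ i) (ℓ j)) ∧
      ∀ i, ℓ i ∈ T S := fun S => (hT1 S).enum (hT2 S)
  choose ℓ hℓ1 hℓ2 hℓ3 using hℓ
  obtain ⟨f, hf1, hf2, hf3⟩ := hM (fun t k k' => ∃ (hk : k < M) (hk' : k' < M),
    if t.2.2 = true then G.Adj (ℓ t.1 ⟨k, hk⟩) (ℓ t.2.1 ⟨k', hk'⟩)
    else ℓ t.1 ⟨k, hk⟩ = ℓ t.2.1 ⟨k', hk'⟩)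
  -- positions
  let p : ι × Fin q → Fin (Fintype.card ι * q) := fun x => finProdFinEquiv (e x.1, x.2)
  have hp : Function.Injective p := by
    intro x y hxy
    have := finProdFinEquiv.injective hxy
    simp only [Prod.mk.injEq, EmbeddingLike.apply_eq_iff_eq] at this
    exact Prod.ext this.1 this.2
  have hplt : ∀ S S' k k', e S < e S' → p (S, k) < p (S', k') := by
    intro S S' k k' hlt
    have h1 : (p (S, k)).1 = k.1 + q * (e S).1 := finProdFinEquiv_apply_val _
    have h2 : (p (S', k')).1 = k'.1 + q * (e S').1 := finProdFinEquiv_apply_val _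
    have h3 : (e S).1 + 1 ≤ (e S').1 := hlt
    have h4 : q * ((e S).1 + 1) ≤ q * (e S').1 := Nat.mul_le_mul_left _ h3
    show (p (S, k)).1 < (p (S', k')).1
    have := k.2
    rw [h1, h2]
    rw [mul_add, mul_one] at h4
    omega
  let L0 : ι × Fin q → V := fun x => ℓ x.1 ⟨f (p x), hf2 _⟩
  have hcolA : ∀ S S', e S < e S' → ∀ k k', ¬ G.Adj (L0 (S, k)) (L0 (S', k')) := by
    intro S S' hlt
    rcases hf3 (S, S', true) with h1 | h1
    · exfalso
      apply hno
      have hA : ∀ k k', G.Adj (L0 (S, k)) (L0 (S', k')) := by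
        intro k k'
        obtain ⟨_, _, h3⟩ := h1 _ _ (hplt S S' k k' hlt)
        simpa using h3
      have hinj : ∀ S, Function.Injective (fun k => L0 (S, k)) := by
        intro S k k' hkk
        have h4 := hℓ1 _ hkk
        simp only [Fin.mk.injEq] at h4
        have := hp (hf1.injective h4)
        exact congrArg Prod.snd this
      have := HasB.of_fam (G := G) (W := W) (hinj S) (hinj S')
        (fun i j => hℓ2 S _ _) (fun i j => hℓ2 S' _ _) (fun i => hT3 _ _ (hℓ3 _ _))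
        (fun i => hT3 _ _ (hℓ3 _ _)) hA
      rw [Fintype.card_fin] at this
      exact this.mono hq0 hq0
    · intro k k' hadj
      exact h1 _ _ (hplt S S' k k' hlt) ⟨hf2 _, hf2 _, by simpa using hadj⟩
  have hcolE : ∀ S S', e S < e S' → ∀ k k', L0 (S, k) ≠ L0 (S', k') := by
    intro S S' hlt
    rcases hf3 (S, S', false) with h1 | h1
    · exfalso
      obtain ⟨_, _, h3⟩ := h1 _ _ (hplt S S' ⟨0, by omega⟩ ⟨0, by omega⟩ hlt)
      obtain ⟨_, _, h4⟩ := h1 _ _ (hplt S S' ⟨0, by omega⟩ ⟨1, by omega⟩ hlt)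
      simp only [Bool.false_eq_true, if_false] at h3 h4
      have h5 := hℓ1 _ (h3.symm.trans h4)
      simp only [Fin.mk.injEq] at h5
      have := hp (hf1.injective h5)
      simp at this
    · intro k k' hadj
      exact h1 _ _ (hplt S S' k k' hlt) ⟨hf2 _, hf2 _, by simpa using hadj⟩
  let g : κ → Fin q := fun k => Fin.castLE hqκ (Fintype.equivFin κ k)
  have hg : Function.Injective g :=
    (Fin.castLE_injective hqκ).comp (Fintype.equivFin κ).injective
  refine ⟨v, fun x => L0 (x.1, g x.2), hv, hv', fun i => hIW _ (hvI i), ?_, ?_, ?_, ?_⟩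
  · rintro ⟨S, k⟩ ⟨S', k'⟩ hE
    simp only at hE
    rcases lt_trichotomy (e S) (e S') with h1 | h1 | h1
    · exact absurd hE (hcolE S S' h1 _ _)
    · have h2 := e.injective h1
      subst h2
      have h4 := hℓ1 _ hE
      simp only [Fin.mk.injEq] at h4
      have h5 := hp (hf1.injective h4)
      have h6 := hg (congrArg Prod.snd h5)
      rw [h6]
    · exact absurd hE.symm (hcolE S' S h1 _ _)
  · rintro ⟨S, k⟩ ⟨S', k'⟩ hE
    simp only at hE
    rcases lt_trichotomy (e S) (e S') with h1 | h1 | h1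
    · exact hcolA S S' h1 _ _ hE
    · have h2 := e.injective h1
      subst h2
      exact hℓ2 _ _ _ hE
    · exact hcolA S' S h1 _ _ hE.symm
  · intro x
    exact hT3 _ _ (hℓ3 _ _)
  · intro S k i hi
    exact (hT4 S _ (hℓ3 S _) _ (Finset.mem_image_of_mem _ hi)).symm

/-- the amalgamation argument. -/
theorem relA {W : Set V} {a : ℕ}
    (hom : ∀ (ι : Type) [Finite ι] (f g : ι → V), 3 ≤ Nat.card ι → Function.Injective f →
      Function.Injective g → (∀ i j, ¬ G.Adj (f i) (f j)) → (∀ i j, ¬ G.Adj (g i) (g j)) →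
      (∀ i, f i ∈ W) → (∀ i, g i ∈ W) →
      ∃ φ : G ≃g G, (∀ v ∈ W, φ v ∈ W) ∧ ∀ i, φ (f i) = g i)
    (hind : ∀ n, ∃ I : Finset V, Indp G I ∧ I.card = n ∧ ∀ x ∈ I, x ∈ W)
    (hext : ∀ S : Finset V, Indp G S → (S.card = 1 ∨ S.card = a) → (∀ x ∈ S, x ∈ W) → ∀ M,
      ∃ T : Finset V, Indp G T ∧ T.card = M ∧ (∀ x ∈ T, x ∈ W) ∧ ∀ x ∈ T, x ∈ cn G S)
    (s : ℕ) : HasB G W (a + 1) s := by
  by_contra hno0
  obtain ⟨s0, hs0, hs3⟩ : ∃ s0 : ℕ, s ≤ s0 ∧ 3 ≤ s0 := ⟨s + 3, by omega, by omega⟩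
  have hno : ¬ HasB G W (a + 1) s0 := fun h => hno0 (h.mono le_rfl hs0)
  have hnoq : ¬ HasB G W (max (a + 1) s0) (max (a + 1) s0) := fun h =>
    hno (h.mono (le_max_left _ _) (le_max_right _ _))
  obtain ⟨N, hN⟩ : ∃ N : ℕ, N = (a + 1) * a + s0 + a := ⟨_, rfl⟩
  obtain ⟨v, L, hv1, hv2, hvW, hL1, hL2, hLW, hvL⟩ := con1 hnoq hind
    (fun S h1 h2 h3 => hext S h1 (Or.inr h2) h3) N (Fin (a + 1) × Fin s0)
  obtain ⟨w, K, hw1, hw2, hwW, hK1, hK2, hKW, hwK⟩ := con1 hnoq hind
    (fun S h1 h2 h3 => hext S h1 (Or.inl h2) h3) (a + 1)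
    ({S : Finset (Fin N) // S.card = a} × Fin s0)
  -- index set
  let sg : Fin (a + 1) → {S : Finset (Fin (a + 1)) // S.card = 1} := fun j => ⟨{j}, by simp⟩
  have hsg : Function.Injective sg := by
    intro i j hij
    have := congrArg Subtype.val hij
    simpa [sg] using this
  obtain ⟨S1, -, hS1⟩ := Finset.exists_subset_card_eq (s := (Finset.univ : Finset (Fin N)))
    (n := a) (by rw [Finset.card_univ, Fintype.card_fin]; omega)
  obtain ⟨φ, hφW, hφ⟩ := hom ({S : Finset (Fin N) // S.card = a} × (Fin (a + 1) × Fin s0))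
    (fun x => K (sg x.2.1, (x.1, x.2.2))) L
    (by
      have : Function.Injective (fun k : Fin s0 =>
        ((⟨S1, hS1⟩, (0, k)) : {S : Finset (Fin N) // S.card = a} × (Fin (a + 1) × Fin s0))) := by
        intro i j hij
        simpa using hij
      have h1 := Nat.card_le_card_of_injective _ this
      rw [Nat.card_eq_fintype_card (α := Fin s0), Fintype.card_fin] at h1
      omega)
    (by
      rintro ⟨S, j, k⟩ ⟨S', j', k'⟩ hE
      have h1 := hK1 hE
      simp only [Prod.mk.injEq] at h1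
      rw [hsg h1.1, h1.2.1, h1.2.2])
    hL1 (fun i j => hK2 _ _) hL2 (fun i => hKW _) hLW
  -- the moved points
  obtain ⟨w', hw'⟩ : ∃ w' : Fin (a + 1) → V, ∀ j, w' j = φ (w j) := ⟨fun j => φ (w j), fun _ => rfl⟩
  have hw'1 : Function.Injective w' := by
    intro i j hij
    rw [hw', hw'] at hij
    exact hw1 (φ.injective hij)
  have hw'2 : ∀ i j, ¬ G.Adj (w' i) (w' j) := by
    intro i j
    rw [hw', hw', φ.map_adj_iff]
    exact hw2 i j
  have hw'W : ∀ i, w' i ∈ W := fun i => by rw [hw']; exact hφW _ (hwW i)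
  have hw'L : ∀ j S k, G.Adj (w' j) (L (S, (j, k))) := by
    intro j S k
    rw [← hφ (S, (j, k)), hw', φ.map_adj_iff]
    exact hwK (sg j) (S, k) j (by simp [sg])
  -- few non-neighbours
  have hfew : ∀ j, (Finset.univ.filter (fun i => ¬ G.Adj (v i) (w' j) ∧ v i ≠ w' j)).card < a := by
    intro j
    by_contra hge
    obtain ⟨S, hS, hSc⟩ := Finset.exists_subset_card_eq
      (s := Finset.univ.filter (fun i => ¬ G.Adj (v i) (w' j) ∧ v i ≠ w' j)) (n := a) (by omega)
    have hS' : ∀ i ∈ S, ¬ G.Adj (v i) (w' j) ∧ v i ≠ w' j := fun i hi =>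
      (Finset.mem_filter.1 (hS hi)).2
    apply hno
    refine ⟨insert (w' j) (S.image v), Finset.univ.image (fun k : Fin s0 => L (⟨S, hSc⟩, (j, k))),
      ?_, ?_, ?_, ?_, ?_, ?_, ?_⟩
    · intro x hx y hy
      rw [Finset.mem_insert, Finset.mem_image] at hx hy
      rcases hx with rfl | ⟨i, hi, rfl⟩ <;> rcases hy with rfl | ⟨i', hi', rfl⟩
      · exact G.irrefl
      · exact fun h1 => (hS' i' hi').1 h1.symm
      · exact (hS' i hi).1
      · exact hv2 _ _
    · intro x hx y hy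
      rw [Finset.mem_image] at hx hy
      obtain ⟨k, -, rfl⟩ := hx
      obtain ⟨k', -, rfl⟩ := hy
      exact hL2 _ _
    · rw [Finset.card_insert_of_notMem, Finset.card_image_of_injective _ hv1, hSc]
      rw [Finset.mem_image]
      rintro ⟨i, hi, he⟩
      exact (hS' i hi).2 he
    · rw [Finset.card_image_of_injective, Finset.card_univ, Fintype.card_fin]
      intro k k' hkk
      have := hL1 hkk
      simpa using this
    · intro x hx
      rw [Finset.mem_insert, Finset.mem_image] at hx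
      rcases hx with rfl | ⟨i, hi, rfl⟩
      · exact hw'W j
      · exact hvW i
    · intro x hx
      rw [Finset.mem_image] at hx
      obtain ⟨k, -, rfl⟩ := hx
      exact hLW _
    · intro x hx y hy
      rw [Finset.mem_insert, Finset.mem_image] at hx
      rw [Finset.mem_image] at hy
      obtain ⟨k, -, rfl⟩ := hy
      rcases hx with rfl | ⟨i, hi, rfl⟩
      · exact hw'L j _ k
      · exact hvL _ _ i hi
  -- non-neighbours of `w' j`
  have hbad : ∀ j, (Finset.univ.filter (fun i => ¬ G.Adj (v i) (w' j))).card ≤ a := by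
    intro j
    have h1 : Finset.univ.filter (fun i => ¬ G.Adj (v i) (w' j)) ⊆
        Finset.univ.filter (fun i => ¬ G.Adj (v i) (w' j) ∧ v i ≠ w' j) ∪
        Finset.univ.filter (fun i => v i = w' j) := by
      intro i hi
      rw [Finset.mem_filter] at hi
      rw [Finset.mem_union, Finset.mem_filter, Finset.mem_filter]
      by_cases he : v i = w' j
      · exact Or.inr ⟨Finset.mem_univ _, he⟩
      · exact Or.inl ⟨Finset.mem_univ _, hi.2, he⟩
    have h2 : (Finset.univ.filter (fun i => v i = w' j)).card ≤ 1 := by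
      rw [Finset.card_le_one]
      intro i hi i' hi'
      rw [Finset.mem_filter] at hi hi'
      exact hv1 (hi.2.trans hi'.2.symm)
    have h3 := Finset.card_le_card h1
    have h4 := Finset.card_union_le
      (Finset.univ.filter (fun i => ¬ G.Adj (v i) (w' j) ∧ v i ≠ w' j))
      (Finset.univ.filter (fun i => v i = w' j))
    have h5 := hfew j
    omega
  have hgood : s0 ≤ (Finset.univ.filter (fun i => ∀ j, G.Adj (v i) (w' j))).card := by
    have h1 : (Finset.univ : Finset (Fin N)) ⊆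
        Finset.univ.filter (fun i => ∀ j, G.Adj (v i) (w' j)) ∪
        Finset.univ.biUnion (fun j => Finset.univ.filter (fun i => ¬ G.Adj (v i) (w' j))) := by
      intro i _
      rw [Finset.mem_union, Finset.mem_filter, Finset.mem_biUnion]
      by_cases he : ∀ j, G.Adj (v i) (w' j)
      · exact Or.inl ⟨Finset.mem_univ _, he⟩
      · push Not at he
        obtain ⟨j, hj⟩ := he
        exact Or.inr ⟨j, Finset.mem_univ _, by simpa using hj⟩
    have h2 := Finset.card_le_card h1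
    have h3 := Finset.card_union_le
      (Finset.univ.filter (fun i => ∀ j, G.Adj (v i) (w' j)))
      (Finset.univ.biUnion (fun j => Finset.univ.filter (fun i => ¬ G.Adj (v i) (w' j))))
    have h4 : (Finset.univ.biUnion
        (fun j => Finset.univ.filter (fun i => ¬ G.Adj (v i) (w' j)))).card ≤
        (Finset.univ : Finset (Fin (a + 1))).card * a :=
      Finset.card_biUnion_le_card_mul _ _ _ fun j _ => hbad j
    rw [Finset.card_univ, Fintype.card_fin] at h2 h4
    omega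
  obtain ⟨S, hS, hSc⟩ := Finset.exists_subset_card_eq hgood
  apply hno
  refine ⟨Finset.univ.image w', S.image v, ?_, ?_, ?_, ?_, ?_, ?_, ?_⟩
  · intro x hx y hy
    rw [Finset.mem_image] at hx hy
    obtain ⟨k, -, rfl⟩ := hx
    obtain ⟨k', -, rfl⟩ := hy
    exact hw'2 _ _
  · intro x hx y hy
    rw [Finset.mem_image] at hx hy
    obtain ⟨k, -, rfl⟩ := hx
    obtain ⟨k', -, rfl⟩ := hy
    exact hv2 _ _
  · rw [Finset.card_image_of_injective _ hw'1, Finset.card_univ, Fintype.card_fin]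
  · rw [Finset.card_image_of_injective _ hv1, hSc]
  · intro x hx
    rw [Finset.mem_image] at hx
    obtain ⟨k, -, rfl⟩ := hx
    exact hw'W k
  · intro x hx
    rw [Finset.mem_image] at hx
    obtain ⟨k, -, rfl⟩ := hx
    exact hvW k
  · intro x hx y hy
    rw [Finset.mem_image] at hx hy
    obtain ⟨j, -, rfl⟩ := hx
    obtain ⟨i, hi, rfl⟩ := hy
    exact ((Finset.mem_filter.1 (hS hi)).2 j).symm

/-- (A) -/
theorem bip (h : Rich G) : ∀ a s, HasB G Set.univ a s := by
  have hone : ∀ S : Finset V, S.card = 1 → ∀ M, ∃ T : Finset V,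
      Indp G T ∧ T.card = M ∧ (∀ x ∈ T, x ∈ (Set.univ : Set V)) ∧ ∀ x ∈ T, x ∈ cn G S := by
    intro S hS M
    obtain ⟨x, rfl⟩ := Finset.card_eq_one.1 hS
    obtain ⟨T, h1, h2, h3⟩ := h.indep_above (C := {x}) (SimpleGraph.isNClique_one.2 ⟨x, rfl⟩) M
    exact ⟨T, h1, h2, fun _ _ => trivial, h3⟩
  intro a
  induction a with
  | zero =>
    intro s
    obtain ⟨S, hS, hSc⟩ := h.ind s
    exact ⟨∅, S, by intro x hx; simp at hx, hS, rfl, hSc, by simp, by simp, by simp⟩
  | succ a ih =>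
    intro s
    apply relA
    · intro ι _ f g _ hf hg hf' hg' _ _
      obtain ⟨φ, hφ⟩ := sym_fam h f g hf hg hf' hg'
      exact ⟨φ, fun _ _ => trivial, hφ⟩
    · intro n
      obtain ⟨I, h1, h2⟩ := h.ind n
      exact ⟨I, h1, h2, fun _ _ => trivial⟩
    · intro S hS hSc _ M
      rcases hSc with hSc | hSc
      · exact hone S hSc M
      · obtain ⟨A, T, h1, h2, h3, h4, -, -, h7⟩ := ih M
        obtain ⟨φ, hφ⟩ := indp_conj' h.sh h1 hS (h3.trans hSc.symm)
        refine ⟨T.image φ, ?_, ?_, fun _ _ => trivial, ?_⟩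
        · intro x hx y hy
          rw [Finset.mem_image] at hx hy
          obtain ⟨x, hx, rfl⟩ := hx
          obtain ⟨y, hy, rfl⟩ := hy
          rw [φ.map_adj_iff]
          exact h2 x hx y hy
        · rw [Finset.card_image_of_injective _ φ.injective, h4]
        · intro x hx y hy
          rw [← hφ, Finset.mem_image] at hy
          rw [Finset.mem_image] at hx
          obtain ⟨x, hx, rfl⟩ := hx
          obtain ⟨y, hy, rfl⟩ := hy
          rw [φ.map_adj_iff]
          exact (h7 y hy x hx).symm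

end Run7.h901
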