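import Pool.Agent.Run7.h901.LA

/-!
(B): `K_{1,2,n}` embeds in a rich set-homogeneous graph, and `K_n + P₃`.
-/

open scoped Classical

namespace Run7.h901

universe u v
variable {V : Type u} {G : SimpleGraph V}

theorem FIso.union_far {Y Y' Z Z' : Finset V} (hY : FIso G Y Y') (hZ : FIso G Z Z')
    (far : Far G Y Z) (far' : Far G Y' Z') : FIso G (Y ∪ Z) (Y' ∪ Z') := by
  obtain ⟨f, hf, hfY, hfA⟩ := hY
  obtain ⟨g, hg, hgZ, hgA⟩ := hZ
  let F : V → V := fun v => if v ∈ Y then f v else g v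
  have hFY : ∀ v ∈ Y, F v = f v := fun v hv => if_pos hv
  have hFZ : ∀ v ∈ Z, F v = g v := fun v hv => if_neg (fun h => (far v h v hv).1 rfl)
  have hfm : ∀ v ∈ Y, f v ∈ Y' := fun v hv => by
    rw [← hfY]; exact Finset.mem_image_of_mem _ hv
  have hgm : ∀ v ∈ Z, g v ∈ Z' := fun v hv => by
    rw [← hgZ]; exact Finset.mem_image_of_mem _ hv
  refine ⟨F, ?_, ?_, ?_⟩
  · intro a ha b hb hab
    rw [Finset.mem_coe, Finset.mem_union] at ha hb
    rcases ha with ha | ha <;> rcases hb with hb | hb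
    · rw [hFY a ha, hFY b hb] at hab; exact hf ha hb hab
    · rw [hFY a ha, hFZ b hb] at hab
      exact absurd hab (far' _ (hfm a ha) _ (hgm b hb)).1
    · rw [hFZ a ha, hFY b hb] at hab
      exact absurd hab.symm (far' _ (hfm b hb) _ (hgm a ha)).1
    · rw [hFZ a ha, hFZ b hb] at hab; exact hg ha hb hab
  · rw [Finset.image_union]
    congr 1
    · rw [← hfY]; exact Finset.image_congr (fun v hv => hFY v hv)
    · rw [← hgZ]; exact Finset.image_congr (fun v hv => hFZ v hv)
  · intro a ha b hb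
    rw [Finset.mem_union] at ha hb
    rcases ha with ha | ha <;> rcases hb with hb | hb
    · rw [hFY a ha, hFY b hb]; exact hfA a ha b hb
    · rw [hFY a ha, hFZ b hb]
      exact ⟨fun h => absurd h (far' _ (hfm a ha) _ (hgm b hb)).2,
        fun h => absurd h (far _ ha _ hb).2⟩
    · rw [hFZ a ha, hFY b hb]
      exact ⟨fun h => absurd h.symm (far' _ (hfm b hb) _ (hgm a ha)).2,
        fun h => absurd h.symm (far _ hb _ ha).2⟩
    · rw [hFZ a ha, hFZ b hb]; exact hgA a ha b hb

theorem FIso.cliques {C C' : Finset V} (hC : G.IsClique (C : Set V))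
    (hC' : G.IsClique (C' : Set V)) (hc : C.card = C'.card) : FIso G C C' := by
  have := FIso.union_clique (Y := ∅) (Y' := ∅) hC hC' hc (by simp) (by simp) (FIso.refl ∅)
  simpa using this

/-- two mutually far cliques -/
theorem cl_conj2 (hG : SetHomogeneous G) {C Q C' Q' : Finset V} (hC : G.IsClique (C : Set V))
    (hQ : G.IsClique (Q : Set V)) (hC' : G.IsClique (C' : Set V)) (hQ' : G.IsClique (Q' : Set V))
    (hcC : C.card = C'.card) (hcQ : Q.card = Q'.card) (far : Far G C Q) (far' : Far G C' Q') :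
    ∃ φ : G ≃g G, (C.image φ = C' ∧ Q.image φ = Q') ∨ (C.image φ = Q' ∧ Q.image φ = C') := by
  obtain ⟨φ, hφ⟩ := ((FIso.cliques hC hC' hcC).union_far (FIso.cliques hQ hQ' hcQ) far far').conj hG
  have hcl : ∀ K : Finset V, G.IsClique (K : Set V) → K ⊆ C ∪ Q →
      K.image φ ⊆ C' ∨ K.image φ ⊆ Q' := by
    intro K hK hKs
    by_contra hn
    push Not at hn
    obtain ⟨h1, h2⟩ := hn
    obtain ⟨x, hx, hx'⟩ := Finset.not_subset.1 h1
    obtain ⟨y, hy, hy'⟩ := Finset.not_subset.1 h2
    have hx2 : x ∈ C' ∪ Q' := by rw [← hφ]; exact Finset.image_subset_image hKs hx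
    have hy2 : y ∈ C' ∪ Q' := by rw [← hφ]; exact Finset.image_subset_image hKs hy
    rw [Finset.mem_union] at hx2 hy2
    have hxQ := hx2.resolve_left hx'
    have hyC := hy2.resolve_right hy'
    have h3 := far' y hyC x hxQ
    rw [Finset.mem_image] at hx hy
    obtain ⟨x, hx, rfl⟩ := hx
    obtain ⟨y, hy, rfl⟩ := hy
    apply h3.2
    rw [φ.map_adj_iff]
    exact hK hy hx (fun he => h3.1 (by rw [he]))
  have hcard1 : (C.image φ).card = C'.card := by
    rw [Finset.card_image_of_injective _ φ.injective, hcC]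
  have hcard2 : (Q.image φ).card = Q'.card := by
    rw [Finset.card_image_of_injective _ φ.injective, hcQ]
  rw [Finset.image_union] at hφ
  refine ⟨φ, ?_⟩
  rcases hcl C hC Finset.subset_union_left with h1 | h1 <;>
    rcases hcl Q hQ Finset.subset_union_right with h2 | h2
  · left
    have h3 : C.image φ = C' := Finset.eq_of_subset_of_card_le h1 hcard1.ge
    have h4 : Q' = ∅ := by
      rw [Finset.eq_empty_iff_forall_notMem]
      intro x hx
      have h5 : x ∈ C.image φ ∪ Q.image φ := by rw [hφ]; exact Finset.mem_union_right _ hx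
      rw [Finset.mem_union] at h5
      have h6 : x ∈ C' := h5.elim (fun h => h1 h) (fun h => h2 h)
      exact (far' x h6 x hx).1 rfl
    refine ⟨h3, ?_⟩
    rw [h4, Finset.card_empty] at hcard2
    rw [h4]
    exact Finset.card_eq_zero.1 hcard2
  · left
    exact ⟨Finset.eq_of_subset_of_card_le h1 hcard1.ge,
      Finset.eq_of_subset_of_card_le h2 hcard2.ge⟩
  · right
    have h3 := Finset.card_le_card h1
    have h4 := Finset.card_le_card h2
    exact ⟨Finset.eq_of_subset_of_card_le h1 (by omega),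
      Finset.eq_of_subset_of_card_le h2 (by omega)⟩
  · left
    have h3 : Q.image φ = Q' := Finset.eq_of_subset_of_card_le h2 hcard2.ge
    have h4 : C' = ∅ := by
      rw [Finset.eq_empty_iff_forall_notMem]
      intro x hx
      have h5 : x ∈ C.image φ ∪ Q.image φ := by rw [hφ]; exact Finset.mem_union_left _ hx
      rw [Finset.mem_union] at h5
      have h6 : x ∈ Q' := h5.elim (fun h => h1 h) (fun h => h2 h)
      exact (far' x hx x h6).1 rfl
    refine ⟨?_, h3⟩
    rw [h4, Finset.card_empty] at hcard1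
    rw [h4]
    exact Finset.card_eq_zero.1 hcard1

/-- the pigeonhole argument. -/
theorem pigeon {L : Finset V} {P : V → V → Prop} (hsymm : ∀ x y, P x y → P y x)
    (big : ∀ s, ∃ Q : Finset V, Q.card = s ∧ ∀ x ∈ Q, ∀ y ∈ Q, x ≠ y → P x y)
    (hconj : ∀ x y x' y', P x y → P x' y' → ∃ φ : G ≃g G, L.image φ = L ∧
      ((φ x = x' ∧ φ y = y') ∨ (φ x = y' ∧ φ y = x'))) {x y : V} (hxy : P x y) :
    Eqv G L x y := by
  suffices hex : ∃ p q, P p q ∧ Eqv G L p q by
    obtain ⟨p, q, hpq, hE⟩ := hex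
    obtain ⟨ψ, h1, h2⟩ := hconj p q x y hpq hxy
    have := hE.map ψ
    rw [h1] at this
    rcases h2 with ⟨e1, e2⟩ | ⟨e1, e2⟩
    · rwa [e1, e2] at this
    · rw [e1, e2] at this
      exact this.symm
  obtain ⟨Q, hQc, hQ⟩ := big (Fintype.card (L → L) + 2)
  obtain ⟨q0, hq0⟩ : Q.Nonempty := by rw [← Finset.card_pos, hQc]; omega
  obtain ⟨q1, hq1⟩ : (Q.erase q0).Nonempty := by
    rw [← Finset.card_pos, Finset.card_erase_of_mem hq0, hQc]; omega
  have hadj : ∀ q ∈ Q.erase q0, P q0 q := fun q hq =>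
    hQ q0 hq0 q (Finset.mem_of_mem_erase hq) (Finset.ne_of_mem_erase hq).symm
  have hmap : ∀ q : (Q.erase q0 : Finset V), ∃ φ : G ≃g G, L.image φ = L ∧
      ((φ q0 = q0 ∧ φ q1 = q.1) ∨ (φ q0 = q.1 ∧ φ q1 = q0)) := fun q =>
    hconj _ _ _ _ (hadj q1 hq1) (hadj q.1 q.2)
  choose φ hφJ hφ using hmap
  obtain ⟨a, b, hab, he⟩ := Fintype.exists_ne_map_eq_of_card_lt
    (fun q : (Q.erase q0 : Finset V) => (fun j : L => (⟨φ q j.1, by
      have := Finset.mem_image_of_mem (φ q) j.2
      rwa [hφJ q] at this⟩ : L)))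
    (by rw [Fintype.card_coe, Finset.card_erase_of_mem hq0, hQc]; omega)
  have he' : ∀ j ∈ L, φ a j = φ b j := fun j hj => by
    have := congrFun he ⟨j, hj⟩
    exact congrArg Subtype.val this
  have hJa : ∀ j ∈ L, ∃ i ∈ L, φ a i = j := by
    intro j hj
    rw [← hφJ a, Finset.mem_image] at hj
    exact hj
  have haQ := Finset.mem_of_mem_erase a.2
  have hbQ := Finset.mem_of_mem_erase b.2
  have hE : Eqv G L a.1 ((φ b) ((φ a).symm a.1)) :=
    ⟨(φ a).symm.trans (φ b), fun j hj => by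
      obtain ⟨i, hi, rfl⟩ := hJa j hj
      show (φ b) ((φ a).symm ((φ a) i)) = _
      rw [RelIso.symm_apply_apply]; exact (he' i hi).symm, by simp⟩
  have himg : (φ b) ((φ a).symm a.1) = q0 ∨ (φ b) ((φ a).symm a.1) = b.1 := by
    have h1 : (φ a).symm a.1 = q0 ∨ (φ a).symm a.1 = q1 := by
      rcases hφ a with ⟨e1, e2⟩ | ⟨e1, e2⟩
      · right; rw [← e2]; simp
      · left; rw [← e1]; simp
    rcases h1 with h1 | h1 <;> rw [h1] <;> rcases hφ b with ⟨e1, e2⟩ | ⟨e1, e2⟩
    · exact Or.inl e1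
    · exact Or.inr e1
    · exact Or.inr e2
    · exact Or.inl e2
  rcases himg with hi | hi
  · rw [hi] at hE
    exact ⟨a, q0, hsymm _ _ (hadj a a.2), hE⟩
  · rw [hi] at hE
    exact ⟨a, b, hQ _ haQ _ hbQ (fun h => hab (Subtype.ext h)), hE⟩

/-- automorphisms of the complement. -/
theorem of_compl_aut (φ : Gᶜ ≃g Gᶜ) : ∃ ψ : G ≃g G, ∀ v, ψ v = φ v := by
  have h2 : ∀ a b, G.Adj (φ a) (φ b) ↔ G.Adj a b := by
    intro a b
    have h1 := φ.map_adj_iff (v := a) (w := b)
    by_cases hab : a = b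
    · subst hab; simp
    · simp only [SimpleGraph.compl_adj, ne_eq, φ.injective.eq_iff, hab, not_false_eq_true,
        true_and] at h1
      exact not_iff_not.1 h1
  exact ⟨{ toEquiv := φ.toEquiv, map_rel_iff' := h2 _ _ }, fun _ => rfl⟩

/-- all vertices joined to an independent set of size at least three are conjugate over it. -/
theorem eqv_cn (h : Rich G) {L : Finset V} (hL : Indp G L) (h3 : 3 ≤ L.card) {x y : V}
    (hx : x ∈ cn G L) (hy : y ∈ cn G L) : Eqv G L x y := by
  by_cases hxy : x = y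
  · subst hxy; exact Eqv.refl _ _
  by_cases hadj : G.Adj x y
  · refine pigeon (P := fun x y => G.Adj x y ∧ x ∈ cn G L ∧ y ∈ cn G L)
      (fun x y h => ⟨h.1.symm, h.2.2, h.2.1⟩) ?_ ?_ ⟨hadj, hx, hy⟩
    · intro s
      obtain ⟨C, hC⟩ := h.cl s
      obtain ⟨I, hI, hIc, hIC⟩ := h.indep_above hC L.card
      obtain ⟨φ, hφ⟩ := indp_conj' h.sh hI hL hIc
      refine ⟨C.image φ, by rw [Finset.card_image_of_injective _ φ.injective, hC.2], ?_⟩
      have hm : ∀ c ∈ C, φ c ∈ cn G L := by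
        intro c hc y hy
        rw [← hφ, Finset.mem_image] at hy
        obtain ⟨y, hy, rfl⟩ := hy
        rw [φ.map_adj_iff]
        exact (hIC y hy c hc).symm
      intro x hx y hy hne
      rw [Finset.mem_image] at hx hy
      obtain ⟨x, hx, rfl⟩ := hx
      obtain ⟨y, hy, rfl⟩ := hy
      exact ⟨by rw [φ.map_adj_iff]; exact hC.1 hx hy (fun he => hne (by rw [he])), hm x hx, hm y hy⟩
    · rintro x y x' y' ⟨h1, h2, h4⟩ ⟨h5, h6, h7⟩
      obtain ⟨φ, σ, hφ, hσ⟩ := T1 h.sh (C := {x, y}) (C' := {x', y'}) (isClique_pair h1)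
        (isClique_pair h5) (by rw [Finset.card_pair h1.ne, Finset.card_pair h5.ne])
        (ι := L) (y := Subtype.val) (y' := Subtype.val) Subtype.val_injective
        Subtype.val_injective (fun i j => Iff.rfl)
        (by
          intro i c hc
          simp only [Finset.mem_insert, Finset.mem_singleton] at hc
          rcases hc with rfl | rfl
          · exact (h2 _ i.2).symm
          · exact (h4 _ i.2).symm)
        (by
          intro i c hc
          simp only [Finset.mem_insert, Finset.mem_singleton] at hc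
          rcases hc with rfl | rfl
          · exact (h6 _ i.2).symm
          · exact (h7 _ i.2).symm)
        (by
          intro i
          obtain ⟨j, hj⟩ : (L.erase i.1).Nonempty := by
            rw [← Finset.card_pos, Finset.card_erase_of_mem i.2]; omega
          exact ⟨⟨j, Finset.mem_of_mem_erase hj⟩,
            fun he => (Finset.ne_of_mem_erase hj) (congrArg Subtype.val he),
            hL _ i.2 _ (Finset.mem_of_mem_erase hj)⟩)
      refine ⟨φ, ?_, ?_⟩
      · ext z
        rw [Finset.mem_image]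
        constructor
        · rintro ⟨w, hw, rfl⟩
          rw [hσ ⟨w, hw⟩]
          exact (σ ⟨w, hw⟩).2
        · intro hz
          refine ⟨(σ.symm ⟨z, hz⟩).1, (σ.symm ⟨z, hz⟩).2, ?_⟩
          rw [hσ (σ.symm ⟨z, hz⟩)]
          simp
      · have e1 : φ x = x' ∨ φ x = y' := by
          have : φ x ∈ ({x', y'} : Finset V) := by
            rw [← hφ]; exact Finset.mem_image_of_mem _ (by simp)
          simpa using this
        have e2 : φ y = x' ∨ φ y = y' := by
          have : φ y ∈ ({x', y'} : Finset V) := by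
            rw [← hφ]; exact Finset.mem_image_of_mem _ (by simp)
          simpa using this
        have e3 : φ x ≠ φ y := φ.injective.ne h1.ne
        rcases e1 with e1 | e1 <;> rcases e2 with e2 | e2
        · exact absurd (e1.trans e2.symm) e3
        · exact Or.inl ⟨e1, e2⟩
        · exact Or.inr ⟨e1, e2⟩
        · exact absurd (e1.trans e2.symm) e3
  · refine pigeon (P := fun x y => Gᶜ.Adj x y ∧ x ∈ cn G L ∧ y ∈ cn G L)
      (fun x y h => ⟨h.1.symm, h.2.2, h.2.1⟩) ?_ ?_ ⟨⟨hxy, hadj⟩, hx, hy⟩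
    · intro s
      obtain ⟨A, S, hA, hS, hAc, hSc, -, -, hAS⟩ := bip h s L.card
      obtain ⟨φ, hφ⟩ := indp_conj' h.sh hS hL hSc
      refine ⟨A.image φ, by rw [Finset.card_image_of_injective _ φ.injective, hAc], ?_⟩
      have hm : ∀ c ∈ A, φ c ∈ cn G L := by
        intro c hc y hy
        rw [← hφ, Finset.mem_image] at hy
        obtain ⟨y, hy, rfl⟩ := hy
        rw [φ.map_adj_iff]
        exact (hAS c hc y hy)
      intro x hx y hy hne
      rw [Finset.mem_image] at hx hy
      obtain ⟨x, hx, rfl⟩ := hx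
      obtain ⟨y, hy, rfl⟩ := hy
      exact ⟨⟨hne, by rw [φ.map_adj_iff]; exact hA x hx y hy⟩, hm x hx, hm y hy⟩
    · rintro x y x' y' ⟨h1, h2, h4⟩ ⟨h5, h6, h7⟩
      have hfar : ∀ {x y : V}, x ∈ cn G L → y ∈ cn G L → Far Gᶜ {x, y} L := by
        intro x y hx hy a ha b hb
        rw [compl_compl]
        simp only [Finset.mem_insert, Finset.mem_singleton] at ha
        rcases ha with rfl | rfl
        · exact hx b hb
        · exact hy b hb
      obtain ⟨ψ, hψ⟩ := cl_conj2 h.sh.compl (C := {x, y}) (C' := {x', y'}) (Q := L) (Q' := L)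
        (isClique_pair h1) hL.isClique (isClique_pair h5) hL.isClique
        (by rw [Finset.card_pair h1.ne, Finset.card_pair h5.ne]) rfl (hfar h2 h4) (hfar h6 h7)
      obtain ⟨φ, hφ⟩ := of_compl_aut ψ
      have himg : ∀ S : Finset V, S.image φ = S.image ψ := fun S =>
        Finset.image_congr (fun v _ => hφ v)
      rcases hψ with ⟨hC, hQ⟩ | ⟨hC, hQ⟩
      · refine ⟨φ, by rw [himg, hQ], ?_⟩
        rw [← himg] at hC
        have e1 : φ x = x' ∨ φ x = y' := by
          have : φ x ∈ ({x', y'} : Finset V) := by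
            rw [← hC]; exact Finset.mem_image_of_mem _ (by simp)
          simpa using this
        have e2 : φ y = x' ∨ φ y = y' := by
          have : φ y ∈ ({x', y'} : Finset V) := by
            rw [← hC]; exact Finset.mem_image_of_mem _ (by simp)
          simpa using this
        have e3 : φ x ≠ φ y := φ.injective.ne h1.ne
        rcases e1 with e1 | e1 <;> rcases e2 with e2 | e2
        · exact absurd (e1.trans e2.symm) e3
        · exact Or.inl ⟨e1, e2⟩
        · exact Or.inr ⟨e1, e2⟩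
        · exact absurd (e1.trans e2.symm) e3
      · exfalso
        have := congrArg Finset.card hQ
        rw [Finset.card_image_of_injective _ ψ.injective, Finset.card_pair h5.ne] at this
        omega

/-- stars are homogeneous -/
theorem star_hom (h : Rich G) {ι : Type v} [Finite ι] (h3 : 3 ≤ Nat.card ι) (f g : ι → V)
    (hf : Function.Injective f) (hg : Function.Injective g) (hf' : ∀ i j, ¬ G.Adj (f i) (f j))
    (hg' : ∀ i j, ¬ G.Adj (g i) (g j)) {x y : V} (hx : ∀ i, G.Adj x (f i))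
    (hy : ∀ i, G.Adj y (g i)) : ∃ φ : G ≃g G, φ x = y ∧ ∀ i, φ (f i) = g i := by
  have := Fintype.ofFinite ι
  obtain ⟨φ, hφ⟩ := sym_fam h f g hf hg hf' hg'
  have hL : Indp G (Finset.univ.image g) := by
    intro a ha b hb
    rw [Finset.mem_image] at ha hb
    obtain ⟨i, -, rfl⟩ := ha
    obtain ⟨j, -, rfl⟩ := hb
    exact hg' i j
  obtain ⟨ψ, h1, h2⟩ := eqv_cn h hL (by
    rw [Finset.card_image_of_injective _ hg, Finset.card_univ, ← Nat.card_eq_fintype_card]
    exact h3) (x := φ x) (y := y) (by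
      rw [mem_cn_image_univ]
      intro i
      rw [← hφ, φ.map_adj_iff]
      exact hx i) (by
      rw [mem_cn_image_univ]
      exact hy)
  refine ⟨φ.trans ψ, by simp [h2], fun i => ?_⟩
  show ψ (φ (f i)) = g i
  rw [hφ]
  exact h1 _ (Finset.mem_image_of_mem _ (Finset.mem_univ i))

/-- `K_{1,2,n}` -/
theorem k12n (h : Rich G) (x : V) (s : ℕ) : HasB G {v | G.Adj v x} 2 s := by
  apply relA (a := 1)
  · intro ι _ f g h3 hf hg hf' hg' hfW hgW
    obtain ⟨φ, h1, h2⟩ := star_hom h h3 f g hf hg hf' hg' (x := x) (y := x)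
      (fun i => (hfW i).symm) (fun i => (hgW i).symm)
    refine ⟨φ, fun v hv => ?_, h2⟩
    show G.Adj (φ v) x
    rw [← h1, φ.map_adj_iff]
    exact hv
  · intro n
    obtain ⟨I, h1, h2, h3⟩ := h.indep_above (C := {x}) (SimpleGraph.isNClique_one.2 ⟨x, rfl⟩) n
    exact ⟨I, h1, h2, fun y hy => h3 y hy x (by simp)⟩
  · intro S hS hSc hSx M
    have hSc : S.card = 1 := by tauto
    obtain ⟨v, rfl⟩ := Finset.card_eq_one.1 hSc
    have hvx : G.Adj v x := hSx v (by simp)
    obtain ⟨I, h1, h2, h3⟩ := h.indep_above (C := {v, x})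
      ⟨isClique_pair hvx, Finset.card_pair hvx.ne⟩ M
    exact ⟨I, h1, h2, fun y hy => h3 y hy x (by simp), fun y hy z hz => h3 y hy z (by
      simp only [Finset.mem_singleton] at hz; simp [hz])⟩

theorem cnc_image (φ : G ≃g G) {S : Finset V} {v : V} (hv : v ∈ cn Gᶜ S) :
    φ v ∈ cn Gᶜ (S.image φ) := by
  intro y hy
  rw [Finset.mem_image] at hy
  obtain ⟨y, hy, rfl⟩ := hy
  exact (compl_adj_map φ).2 (hv y hy)

theorem far_image (φ : G ≃g G) {Y F : Finset V} (h : Far G Y F) :
    Far G (Y.image φ) (F.image φ) := by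
  intro x hx y hy
  rw [Finset.mem_image] at hx hy
  obtain ⟨x, hx, rfl⟩ := hx
  obtain ⟨y, hy, rfl⟩ := hy
  exact (compl_adj_map φ).2 (h x hx y hy)

theorem nclique_image (φ : G ≃g G) {n : ℕ} {Q : Finset V} (h : G.IsNClique n Q) :
    G.IsNClique n (Q.image φ) := by
  refine ⟨?_, by rw [Finset.card_image_of_injective _ φ.injective, h.2]⟩
  intro x hx y hy hxy
  rw [Finset.mem_coe, Finset.mem_image] at hx hy
  obtain ⟨x, hx, rfl⟩ := hx
  obtain ⟨y, hy, rfl⟩ := hy
  rw [φ.map_adj_iff]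
  exact h.1 hx hy (fun he => hxy (by rw [he]))

/-- `K_n + K_2 + K_1` -/
theorem k12_off (h : Rich G) {n : ℕ} {C : Finset V} (hC : G.IsNClique n C) :
    HasK12 G (cn Gᶜ C) := by
  obtain ⟨J, hJ, hJc⟩ := h.ind 1
  obtain ⟨x, rfl⟩ := Finset.card_eq_one.1 hJc
  obtain ⟨A, S, hA, hS, hAc, hSc, hAW, hSW, hAS⟩ := k12n h.compl x n
  obtain ⟨a, b, hab, rfl⟩ := Finset.card_eq_two.1 hAc
  rw [indp_compl_iff] at hA hS
  obtain ⟨φ, hφ, -⟩ := clique_conj h.sh (k := n) ⟨hS, hSc⟩ hC
  have hm : ∀ v ∈ cn Gᶜ S, φ v ∈ cn Gᶜ C := fun v hv => by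
    rw [← hφ]; exact cnc_image φ hv
  refine ⟨φ x, hm x (fun s hs => (hSW s hs).symm), φ a, hm a (hAS a (by simp)), φ b,
    hm b (hAS b (by simp)), φ.map_adj_iff.2 (hA (by simp) (by simp) hab),
    (compl_adj_map φ).2 (hAW a (by simp)).symm, (compl_adj_map φ).2 (hAW b (by simp)).symm⟩

/-- `K_n + K_m` -/
theorem clique_off_clique (h : Rich G) {n : ℕ} {C : Finset V} (hC : G.IsNClique n C) (m : ℕ) :
    ∃ Q : Finset V, G.IsNClique m Q ∧ Far G Q C := by
  obtain ⟨A, S, hA, hS, hAc, hSc, -, -, hAS⟩ := bip h.compl m n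
  rw [indp_compl_iff] at hA hS
  obtain ⟨φ, hφ, -⟩ := clique_conj h.sh (k := n) ⟨hS, hSc⟩ hC
  refine ⟨A.image φ, nclique_image φ ⟨hA, hAc⟩, ?_⟩
  rw [← hφ]
  exact far_image φ hAS

/-- `K_n + P₃` -/
theorem p3_off (h : Rich G) {m : ℕ} {C : Finset V} (hC : G.IsNClique m C) :
    HasP3 G (cn Gᶜ C) := by
  by_contra hno
  obtain ⟨n, hn⟩ : ∃ n, n = m + 2 := ⟨_, rfl⟩
  have hE : ∀ D : Finset V, G.IsNClique n D → ∀ a b c, a ∈ cn Gᶜ D → b ∈ cn Gᶜ D →
      c ∈ cn Gᶜ D → (a = b ∨ G.Adj a b) → (b = c ∨ G.Adj b c) → (a = c ∨ G.Adj a c) := by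
    intro D hD a b c ha hb hc hab hbc
    rcases hab with rfl | hab
    · exact hbc
    rcases hbc with rfl | hbc
    · exact Or.inr hab
    by_contra hac
    push Not at hac
    obtain ⟨D', hD', hDc⟩ := Finset.exists_subset_card_eq (s := D) (n := m) (by rw [hD.2]; omega)
    obtain ⟨φ, hφ, -⟩ := clique_conj h.sh (k := m) (C := D') (C' := C)
      ⟨hD.1.subset hD', hDc⟩ hC
    apply hno
    have hm : ∀ v ∈ cn Gᶜ D, φ v ∈ cn Gᶜ C := fun v hv => by
      rw [← hφ]; exact cnc_image φ (cn_anti hD' hv)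
    exact ⟨φ a, hm a ha, φ b, hm b hb, φ c, hm c hc, φ.map_adj_iff.2 hab,
      φ.map_adj_iff.2 hbc, (compl_adj_map φ).2 ⟨hac.1, hac.2⟩⟩
  -- each vertex off `D` is in a big clique off `D`
  have h1 : ∀ D : Finset V, G.IsNClique n D → ∀ y ∈ cn Gᶜ D, ∀ j, ∃ Q : Finset V,
      G.IsNClique (j + 1) Q ∧ y ∈ Q ∧ Far G Q D := by
    intro D hD y hy j
    obtain ⟨Q, hQ, hQD⟩ := clique_off_clique h hD (j + 1)
    obtain ⟨y0, hy0⟩ : Q.Nonempty := by rw [← Finset.card_pos, hQ.2]; omega
    obtain ⟨φ, hφ⟩ := cl_conj2 h.sh (C := D) (C' := D) (Q := {y0}) (Q' := {y}) hD.1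
      (by simp) hD.1 (by simp) rfl (by simp)
      (fun a ha b hb => by
        rw [Finset.mem_singleton] at hb; subst hb; exact (hQD _ hy0 a ha).symm)
      (fun a ha b hb => by
        rw [Finset.mem_singleton] at hb; subst hb; exact (hy a ha).symm)
    rcases hφ with ⟨e1, e2⟩ | ⟨e1, e2⟩
    · refine ⟨Q.image φ, nclique_image φ hQ, ?_, ?_⟩
      · have : φ y0 ∈ ({y} : Finset V) := by
          rw [← e2]; exact Finset.mem_image_of_mem _ (by simp)
        rw [Finset.mem_singleton] at this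
        rw [← this]
        exact Finset.mem_image_of_mem _ hy0
      · rw [← e1]; exact far_image φ hQD
    · have := congrArg Finset.card e1
      rw [Finset.card_image_of_injective _ φ.injective, hD.2, Finset.card_singleton] at this
      omega
  have h2 : ∀ j, ∃ D Q Q' : Finset V, G.IsNClique n D ∧ G.IsNClique (j + 1) Q ∧
      G.IsNClique n Q' ∧ Far G Q D ∧ Far G Q' D ∧ Far G Q Q' := by
    intro j
    obtain ⟨D, hD⟩ := h.cl n
    obtain ⟨y, hy, y', hy', -, -, -, hyy', -⟩ := k12_off h hD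
    obtain ⟨Q, hQ, hyQ, hQD⟩ := h1 D hD y hy j
    obtain ⟨Q', hQ', hyQ', hQD'⟩ := h1 D hD y' hy' (m + 1)
    refine ⟨D, Q, Q', hD, hQ, by rw [hn]; exact hQ', hQD, hQD', ?_⟩
    intro a ha b hb
    by_contra hab
    have hab' : a = b ∨ G.Adj a b := by
      by_contra hc
      push Not at hc
      exact hab hc
    have e1 : y = a ∨ G.Adj y a := by
      by_cases he : y = a
      · exact Or.inl he
      · exact Or.inr (hQ.1 hyQ ha he)
    have e2 : b = y' ∨ G.Adj b y' := by
      by_cases he : b = y'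
      · exact Or.inl he
      · exact Or.inr (hQ'.1 hb hyQ' he)
    have e3 := hE D hD y a b hy (hQD a ha) (hQD' b hb) e1 hab'
    have e4 := hE D hD y b y' hy (hQD' b hb) hy' e3 e2
    rcases e4 with e4 | e4
    · exact hyy'.1 e4
    · exact hyy'.2 e4
  have h3 : ∀ D : Finset V, G.IsNClique n D → ∀ z ∈ cn G D, ∀ z' ∈ cn G D,
      z = z' ∨ G.Adj z z' := by
    intro D hD z hz z' hz'
    obtain ⟨c, hc⟩ : D.Nonempty := by rw [← Finset.card_pos, hD.2]; omega
    obtain ⟨Q, hQ, hQD⟩ := clique_off_clique h (insert_clique hD hz) n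
    obtain ⟨Q', hQ', hQD'⟩ := clique_off_clique h (insert_clique hD hz') n
    have hQD1 : Far G Q D := hQD.mono subset_rfl (Finset.subset_insert _ _)
    have hQD1' : Far G Q' D := hQD'.mono subset_rfl (Finset.subset_insert _ _)
    have hzQ : z ∈ cn Gᶜ Q := fun q hq => (hQD q hq z (Finset.mem_insert_self _ _)).symm
    have hzQ' : z' ∈ cn Gᶜ Q' := fun q hq => (hQD' q hq z' (Finset.mem_insert_self _ _)).symm
    have hcQ : c ∈ cn Gᶜ Q := fun q hq => (hQD1 q hq c hc).symm
    have hcQ' : c ∈ cn Gᶜ Q' := fun q hq => (hQD1' q hq c hc).symm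
    by_cases hR : Far G Q Q'
    · have hz'Q : z' ∈ cn Gᶜ Q := by
        intro q hq
        by_contra hab
        have hab' : z' = q ∨ G.Adj z' q := by
          by_contra hc
          push Not at hc
          exact hab hc
        have e1 := hE Q' hQ' c z' q hcQ' hzQ' (hR q hq) (Or.inr (hz' c hc).symm) hab'
        rcases e1 with e1 | e1
        · exact (hcQ q hq).1 e1
        · exact (hcQ q hq).2 e1
      exact hE Q hQ z c z' hzQ hcQ hz'Q (Or.inr (hz c hc)) (Or.inr (hz' c hc).symm)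
    · -- `Q ∪ Q'` is a clique
      have hR' : ∃ q ∈ Q, ∃ q' ∈ Q', q = q' ∨ G.Adj q q' := by
        by_contra hcon
        push Not at hcon
        exact hR (fun q hq q' hq' => hcon q hq q' hq')
      obtain ⟨q, hq, q', hq', hqq'⟩ := hR'
      have hrel : ∀ {K : Finset V}, G.IsNClique n K → ∀ {a b : V}, a ∈ K → b ∈ K →
          a = b ∨ G.Adj a b := by
        intro K hK a b ha hb
        by_cases he : a = b
        · exact Or.inl he
        · exact Or.inr (hK.1 ha hb he)
      have hcross : ∀ a ∈ Q, ∀ b ∈ Q', a = b ∨ G.Adj a b := by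
        intro a ha b hb
        have e1 := hE D hD a q q' (hQD1 a ha) (hQD1 q hq) (hQD1' q' hq') (hrel hQ ha hq) hqq'
        exact hE D hD a q' b (hQD1 a ha) (hQD1' q' hq') (hQD1' b hb) e1 (hrel hQ' hq' hb)
      have hU : G.IsClique ((Q ∪ Q' : Finset V) : Set V) := by
        intro a ha b hb hab
        rw [Finset.mem_coe, Finset.mem_union] at ha hb
        rcases ha with ha | ha <;> rcases hb with hb | hb
        · exact hQ.1 ha hb hab
        · exact (hcross a ha b hb).resolve_left hab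
        · exact ((hcross b hb a ha).resolve_left (Ne.symm hab)).symm
        · exact hQ'.1 ha hb hab
      have hpos : 1 ≤ (Q ∪ Q').card := by
        rw [Nat.succ_le_iff, Finset.card_pos]
        exact ⟨q, Finset.mem_union_left _ hq⟩
      obtain ⟨D0, Q0, Q3, hD0, hQ0, hQ3, f1, f2, f3⟩ := h2 ((Q ∪ Q').card - 1)
      have hUD : Far G D (Q ∪ Q') := by
        intro a ha b hb
        rw [Finset.mem_union] at hb
        rcases hb with hb | hb
        · exact (hQD1 b hb a ha).symm
        · exact (hQD1' b hb a ha).symm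
      obtain ⟨φ, hφ⟩ := cl_conj2 h.sh (C := D0) (C' := D) (Q := Q0) (Q' := Q ∪ Q') hD0.1 hQ0.1
        hD.1 hU (by rw [hD0.2, hD.2]) (by rw [hQ0.2]; omega) f1.symm hUD
      have g1 : Far G (Q3.image φ) D ∧ Far G (Q3.image φ) (Q ∪ Q') := by
        rcases hφ with ⟨e1, e2⟩ | ⟨e1, e2⟩
        · exact ⟨by rw [← e1]; exact far_image φ f2, by rw [← e2]; exact far_image φ f3.symm⟩
        · exact ⟨by rw [← e2]; exact far_image φ f3.symm, by rw [← e1]; exact far_image φ f2⟩
      have hQ3' := nclique_image φ hQ3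
      have hc3 : c ∈ cn Gᶜ (Q3.image φ) := fun q hq => (g1.1 q hq c hc).symm
      have key : ∀ K : Finset V, G.IsNClique n K → K ⊆ Q ∪ Q' → ∀ w, w ∈ cn G D →
          w ∈ cn Gᶜ K → c ∈ cn Gᶜ K → w ∈ cn Gᶜ (Q3.image φ) := by
        intro K hK hKs w hw hwK hcK r hr
        by_contra hab
        have hab' : w = r ∨ G.Adj w r := by
          by_contra hc
          push Not at hc
          exact hab hc
        have hrK : r ∈ cn Gᶜ K := fun k hk => g1.2 r hr k (hKs hk)
        have e1 := hE K hK c w r hcK hwK hrK (Or.inr (hw c hc).symm) hab'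
        rcases e1 with e1 | e1
        · exact (hc3 r hr).1 e1
        · exact (hc3 r hr).2 e1
      have k1 := key Q hQ Finset.subset_union_left z hz hzQ hcQ
      have k2 := key Q' hQ' Finset.subset_union_right z' hz' hzQ' hcQ'
      exact hE _ hQ3' z c z' k1 hc3 k2 (Or.inr (hz c hc)) (Or.inr (hz' c hc).symm)
  obtain ⟨D, hD⟩ := h.cl n
  obtain ⟨I, hI, hIc, hID⟩ := h.indep_above hD 2
  obtain ⟨a, b, hab, rfl⟩ := Finset.card_eq_two.1 hIc
  rcases h3 D hD a (hID a (by simp)) b (hID b (by simp)) with e | e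
  · exact hab e
  · exact hI a (by simp) b (by simp) e

end Run7.h901
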