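import Pool.Agent.Run7.h901.LS
import Pool.Agent.H152.HR.Ramsey

/-!
Lemma P: over an independent set, every single vertex is a trace.
-/

open scoped Classical

namespace Run7.h901

universe u
variable {V : Type u} {G : SimpleGraph V}

/-- some vertex is adjacent to `x` and to no other member of `L`. -/
def Only (G : SimpleGraph V) (L : Finset V) (x : V) : Prop :=
  ∃ u, G.Adj u x ∧ ∀ z ∈ L, z ≠ x → ¬ G.Adj u z

/-- over independent sets of size `n`, all one-element traces are realised. -/
def Full (G : SimpleGraph V) (n : ℕ) : Prop :=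
  ∀ L : Finset V, Indp G L → L.card = n → ∀ x ∈ L, Only G L x

theorem Only.mono {L M : Finset V} {x : V} (h : Only G M x) (hL : L ⊆ M) : Only G L x := by
  obtain ⟨u, h1, h2⟩ := h
  exact ⟨u, h1, fun z hz hzx => h2 z (hL hz) hzx⟩

theorem Only.image {L : Finset V} {x : V} (φ : G ≃g G) :
    Only G (L.image φ) (φ x) ↔ Only G L x := by
  constructor
  · rintro ⟨u, h1, h2⟩
    refine ⟨φ.symm u, ?_, fun z hz hzx hadj => ?_⟩
    · rw [← φ.map_adj_iff]; simpa using h1
    · apply h2 (φ z) (Finset.mem_image_of_mem _ hz) (φ.injective.ne hzx)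
      rw [← φ.map_adj_iff] at hadj
      simpa using hadj
  · rintro ⟨u, h1, h2⟩
    refine ⟨φ u, φ.map_adj_iff.2 h1, fun z hz hzx hadj => ?_⟩
    rw [Finset.mem_image] at hz
    obtain ⟨z, hz, rfl⟩ := hz
    exact h2 z hz (fun h => hzx (by rw [h])) (φ.map_adj_iff.1 hadj)

theorem Only.off {L : Finset V} (hL : Indp G L) {x : V} (hx : x ∈ L) (h : Only G L x) :
    ∃ u, G.Adj u x ∧ ∀ z ∈ L.erase x, Gᶜ.Adj u z := by
  obtain ⟨u, h1, h2⟩ := h
  refine ⟨u, h1, fun z hz => ⟨?_, h2 z (Finset.mem_of_mem_erase hz) (Finset.ne_of_mem_erase hz)⟩⟩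
  rintro rfl
  exact hL _ (Finset.mem_of_mem_erase hz) _ hx h1

theorem Only.exists (h : Rich G) {L : Finset V} (hL : Indp G L) (hne : L.Nonempty) :
    ∃ x ∈ L, Only G L x := by
  obtain ⟨v, hv⟩ := lemS h hL (s := 1) (Finset.card_pos.2 hne)
  obtain ⟨x, hx⟩ := Finset.card_eq_one.1 hv
  have hx1 : x ∈ L.filter (fun z => G.Adj v z) := by rw [hx]; simp
  rw [Finset.mem_filter] at hx1
  refine ⟨x, hx1.1, v, hx1.2, fun z hz hzx hadj => hzx ?_⟩
  have : z ∈ L.filter (fun z => G.Adj v z) := Finset.mem_filter.2 ⟨hz, hadj⟩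
  rw [hx, Finset.mem_singleton] at this
  exact this

theorem indp_singleton (x : V) : Indp G {x} := by
  intro a ha b hb
  rw [Finset.mem_singleton] at ha hb
  rw [ha, hb]; exact G.irrefl

theorem full_zero : Full G 0 := by
  intro L _ hc x hx
  rw [Finset.card_eq_zero] at hc
  subst hc
  simp at hx

theorem full_one (h : Rich G) : Full G 1 := by
  intro L hL hc x hx
  obtain ⟨y, rfl⟩ := Finset.card_eq_one.1 hc
  obtain ⟨z, hz, hO⟩ := Only.exists h hL (by simp)
  rw [Finset.mem_singleton] at hz hx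
  subst hz; subst hx
  exact hO

/-- one-element traces make the setwise stabilisers transitive. -/
theorem Tr (h : Rich G) {n : ℕ} (hF : Full G n) {L L' : Finset V} (hL : Indp G L)
    (hL' : Indp G L') (hc : L.card = n) (hc' : L'.card = n) {x y : V} (hx : x ∈ L) (hy : y ∈ L') :
    ∃ φ : G ≃g G, L.image φ = L' ∧ φ x = y := by
  obtain ⟨u, hu1, hu2⟩ := (hF L hL hc x hx).off hL hx
  obtain ⟨w, hw1, hw2⟩ := (hF L' hL' hc' y hy).off hL' hy
  obtain ⟨φ, h1, h2⟩ := F3 h (hL.subset (Finset.erase_subset x L))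
    (hL'.subset (Finset.erase_subset y L'))
    (by rw [Finset.card_erase_of_mem hx, Finset.card_erase_of_mem hy, hc, hc']) hu1.symm hw1.symm
    (fun j hj => hL.adj_compl hx (Finset.mem_of_mem_erase hj) (Finset.ne_of_mem_erase hj).symm) hu2
    (fun j hj => hL'.adj_compl hy (Finset.mem_of_mem_erase hj) (Finset.ne_of_mem_erase hj).symm) hw2
  refine ⟨φ, ?_, h2⟩
  rw [← Finset.insert_erase hx, Finset.image_insert, h1, h2, Finset.insert_erase hy]

/-- Ramsey for finite sets of vertices. -/
theorem ramseyV (K : Type) [Fintype K] (t q : ℕ) : ∃ N : ℕ, ∀ {V : Type u} (I : Finset V)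
    (c : Finset V → K), N ≤ I.card → ∃ L ⊆ I, L.card = q ∧ ∃ col, ∀ S ⊆ L, S.card = t →
      c S = col := by
  obtain ⟨N, hN⟩ := H152HR.ramsey K t q
  refine ⟨N, fun {V} I c hI => ?_⟩
  let e := I.equivFin
  let r : V → ℕ := fun v => if hv : v ∈ I then (e ⟨v, hv⟩ : ℕ) else 0
  have hr : Set.InjOn r I := by
    intro a ha b hb hab
    rw [Finset.mem_coe] at ha hb
    simp only [r, ha, hb, dif_pos] at hab
    exact congrArg Subtype.val (e.injective (Fin.ext hab))
  obtain ⟨Q, hQ, hQc, col, hcol⟩ := hN (fun J => c (I.filter (fun v => r v ∈ J))) (I.image r)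
    (by rw [Finset.card_image_of_injOn hr]; exact hI)
  have himg : ∀ J ⊆ I.image r, (I.filter (fun v => r v ∈ J)).image r = J := by
    intro J hJ
    ext n
    rw [Finset.mem_image]
    constructor
    · rintro ⟨v, hv, rfl⟩
      exact (Finset.mem_filter.1 hv).2
    · intro hn
      obtain ⟨v, hv, rfl⟩ := Finset.mem_image.1 (hJ hn)
      exact ⟨v, Finset.mem_filter.2 ⟨hv, hn⟩, rfl⟩
  refine ⟨I.filter (fun v => r v ∈ Q), Finset.filter_subset _ _, ?_, col, ?_⟩
  · rw [← hQc, ← himg Q hQ, Finset.card_image_of_injOn]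
    · rw [himg Q hQ]
    · exact hr.mono (by intro v hv; exact (Finset.mem_filter.1 hv).1)
  · intro S hS hSc
    have hSI : S ⊆ I := hS.trans (Finset.filter_subset _ _)
    have h1 : I.filter (fun v => r v ∈ S.image r) = S := by
      ext v
      rw [Finset.mem_filter, Finset.mem_image]
      constructor
      · rintro ⟨hv, w, hw, hwv⟩
        have := hr (hSI hw) hv hwv
        rwa [← this]
      · intro hv
        exact ⟨hSI hv, v, hv, rfl⟩
    have h2 := hcol (S.image r) (by
      intro n hn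
      obtain ⟨v, hv, rfl⟩ := Finset.mem_image.1 hn
      exact (Finset.mem_filter.1 (hS hv)).2) (by
      rw [Finset.card_image_of_injOn (hr.mono (by exact_mod_cast hSI)), hSc])
    simp only [h1] at h2
    exact h2

/-- position of `b` in `S` with respect to a rank function. -/
noncomputable def pos (r : V → ℕ) (S : Finset V) (b : V) : ℕ := (S.filter (fun z => r z < r b)).card

theorem pos_lt {r : V → ℕ} {S : Finset V} {b : V} (hb : b ∈ S) : pos r S b < S.card := by
  apply Finset.card_lt_card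
  rw [Finset.ssubset_iff_of_subset (Finset.filter_subset _ _)]
  exact ⟨b, hb, fun h => lt_irrefl _ (Finset.mem_filter.1 h).2⟩

/-- a rank function, injective on a given finite set. -/
theorem exists_rank (I : Finset V) : ∃ r : V → ℕ, Set.InjOn r I := by
  let e := I.equivFin
  refine ⟨fun v => if hv : v ∈ I then (e ⟨v, hv⟩ : ℕ) else 0, ?_⟩
  intro a ha b hb hab
  rw [Finset.mem_coe] at ha hb
  simp only [ha, hb, dif_pos] at hab
  exact congrArg Subtype.val (e.injective (Fin.ext hab))

theorem pos_image {r : V → ℕ} {S : Finset V} {b : V} (φ : G ≃g G) :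
    pos (fun v => r (φ.symm v)) (S.image φ) (φ b) = pos r S b := by
  unfold pos
  have : (S.image φ).filter (fun z => r (φ.symm z) < r (φ.symm (φ b))) =
      (S.filter (fun z => r z < r b)).image φ := by
    ext z
    simp only [Finset.mem_filter, Finset.mem_image]
    constructor
    · rintro ⟨⟨y, hy, rfl⟩, h⟩
      exact ⟨y, ⟨hy, by simpa using h⟩, rfl⟩
    · rintro ⟨y, ⟨hy, h⟩, rfl⟩
      exact ⟨⟨y, hy, rfl⟩, by simpa using h⟩
  rw [this, Finset.card_image_of_injective _ φ.injective]

/-! ### the minimal failing size -/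

section fail

variable {k : ℕ}

/-- two different bottoms are impossible. -/
theorem bot_uniq (h : Rich G) (hF : Full G k) {L : Finset V} (hL : Indp G L)
    (hc : L.card = k + 1) {x y : V} (hx : x ∈ L) (hy : y ∈ L) (hOx : ¬ Only G L x)
    (hOy : ¬ Only G L y) : y = x := by
  by_contra hxy
  have hJ : Indp G (L.erase x) := hL.subset (Finset.erase_subset x L)
  have hJc : (L.erase x).card = k := by rw [Finset.card_erase_of_mem hx, hc]; rfl
  have hyJ : y ∈ L.erase x := Finset.mem_erase.2 ⟨hxy, hy⟩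
  have hmap : ∀ j : (L.erase x : Finset V), ∃ φ : G ≃g G, (L.erase x).image φ = L.erase x ∧
      φ y = j := fun j => Tr h hF hJ hJ hJc hJc hyJ j.2
  choose φ hφJ hφy using hmap
  have himg : ∀ j : (L.erase x : Finset V), L.image (φ j) = insert (φ j x) (L.erase x) := by
    intro j
    nth_rw 1 [← Finset.insert_erase hx]
    rw [Finset.image_insert, hφJ]
  have hind : ∀ j : (L.erase x : Finset V), Indp G (insert (φ j x) (L.erase x)) := by
    intro j; rw [← himg]; exact hL.image _
  have hno1 : ∀ j : (L.erase x : Finset V), ¬ Only G (insert (φ j x) (L.erase x)) j := by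
    intro j hO
    apply hOy
    rw [← Only.image (φ j), himg, hφy]
    exact hO
  have hno2 : ∀ j : (L.erase x : Finset V), ¬ Only G (insert (φ j x) (L.erase x)) (φ j x) := by
    intro j hO
    apply hOx
    rw [← Only.image (φ j), himg]
    exact hO
  let M : Finset V := L.erase x ∪ Finset.univ.image (fun j : (L.erase x : Finset V) => φ j x)
  have hM : Indp G M := by
    have hJw : ∀ z ∈ L.erase x, ∀ j : (L.erase x : Finset V), ¬ G.Adj (φ j x) z := fun z hz j =>
      hind j _ (Finset.mem_insert_self _ _) _ (Finset.mem_insert_of_mem hz)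
    intro a ha b hb
    simp only [M, Finset.mem_union, Finset.mem_image, Finset.mem_univ, true_and] at ha hb
    rcases ha with ha | ⟨i, rfl⟩ <;> rcases hb with hb | ⟨j, rfl⟩
    · exact hJ a ha b hb
    · exact fun hadj => hJw a ha j hadj.symm
    · exact hJw b hb i
    · intro hadj
      apply hno2 i
      refine ⟨φ j x, hadj.symm, fun z hz hzx => ?_⟩
      exact hJw z (Finset.mem_of_mem_insert_of_ne hz hzx) j
  obtain ⟨m, hm, hO⟩ := Only.exists h hM ⟨y, Finset.mem_union_left _ hyJ⟩
  have hsub : ∀ j : (L.erase x : Finset V), insert (φ j x) (L.erase x) ⊆ M := by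
    intro j
    apply Finset.insert_subset
    · exact Finset.mem_union_right _ (Finset.mem_image_of_mem _ (Finset.mem_univ j))
    · exact Finset.subset_union_left
  simp only [M, Finset.mem_union, Finset.mem_image, Finset.mem_univ, true_and] at hm
  rcases hm with hm | ⟨j, rfl⟩
  · exact hno1 ⟨m, hm⟩ (hO.mono (hsub _))
  · exact hno2 j (hO.mono (hsub _))

theorem bot_exists (h : Rich G) (hnF : ¬ Full G (k + 1)) {L : Finset V} (hL : Indp G L)
    (hc : L.card = k + 1) : ∃ b ∈ L, ¬ Only G L b := by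
  unfold Full at hnF
  push Not at hnF
  obtain ⟨L0, h1, h2, x, hx, hO⟩ := hnF
  obtain ⟨φ, hφ⟩ := indp_conj' h.sh h1 hL (by omega)
  refine ⟨φ x, by rw [← hφ]; exact Finset.mem_image_of_mem _ hx, fun hO' => hO ?_⟩
  rw [← hφ, Only.image] at hO'
  exact hO'

/-- every element of a `k`-set is the bottom of some one-point extension. -/
theorem bot_over (h : Rich G) (hF : Full G k) (hk : 1 ≤ k) (hnF : ¬ Full G (k + 1))
    {J : Finset V} (hJ : Indp G J) (hc : J.card = k) {j : V} (hj : j ∈ J) :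
    ∃ u, (∀ z ∈ J, Gᶜ.Adj u z) ∧ ¬ Only G (insert u J) j := by
  obtain ⟨I, hI, hIc⟩ := h.ind (k + 1)
  obtain ⟨b, hb, hO⟩ := bot_exists h hnF hI hIc
  obtain ⟨u, hu⟩ : (I.erase b).Nonempty := by
    rw [← Finset.card_pos, Finset.card_erase_of_mem hb]; omega
  rw [Finset.mem_erase] at hu
  obtain ⟨φ, h1, h2⟩ := Tr h hF (hI.subset (Finset.erase_subset u I)) hJ
    (by rw [Finset.card_erase_of_mem hu.2, hIc]; rfl) hc
    (Finset.mem_erase.2 ⟨hu.1.symm, hb⟩) hj
  have himg : I.image φ = insert (φ u) J := by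
    nth_rw 1 [← Finset.insert_erase hu.2]
    rw [Finset.image_insert, h1]
  refine ⟨φ u, fun z hz => ?_, ?_⟩
  · rw [← h1, Finset.mem_image] at hz
    obtain ⟨z, hz, rfl⟩ := hz
    rw [compl_adj_map]
    exact hI.adj_compl hu.2 (Finset.mem_of_mem_erase hz) (Finset.ne_of_mem_erase hz).symm
  · rw [← himg, ← h2, Only.image]; exact hO

/-- homogeneous rank functions. -/
theorem hord (h : Rich G) (hF : Full G k) (hnF : ¬ Full G (k + 1)) (N : ℕ) :
    ∃ e : ℕ, ∀ L : Finset V, Indp G L → L.card = N → ∃ r : V → ℕ, Set.InjOn r L ∧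
      ∀ S ⊆ L, S.card = k + 1 → ∀ b ∈ S, ¬ Only G S b → pos r S b = e := by
  obtain ⟨R, hR⟩ := ramseyV.{u} (Fin (k + 1)) (k + 1) N
  obtain ⟨I, hI, hIc⟩ := h.ind R
  obtain ⟨r, hr⟩ := exists_rank I
  have hcol : ∀ S : Finset V, ∃ c : Fin (k + 1), S ⊆ I → S.card = k + 1 →
      ∀ b ∈ S, ¬ Only G S b → pos r S b = c := by
    intro S
    by_cases hS : S ⊆ I ∧ S.card = k + 1
    · obtain ⟨b, hb, hO⟩ := bot_exists h hnF (hI.subset hS.1) hS.2
      refine ⟨⟨pos r S b, by rw [← hS.2]; exact pos_lt hb⟩, fun _ _ b' hb' hO' => ?_⟩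
      rw [bot_uniq h hF (hI.subset hS.1) hS.2 hb hb' hO hO']
    · exact ⟨0, fun h1 h2 => absurd ⟨h1, h2⟩ hS⟩
  choose c hc using hcol
  obtain ⟨L0, hL0, hL0c, col, hcol⟩ := hR I c hIc.ge
  refine ⟨col, fun L hL hLc => ?_⟩
  obtain ⟨φ, hφ⟩ := indp_conj' h.sh (hI.subset hL0) hL (by omega)
  refine ⟨fun v => r (φ.symm v), ?_, ?_⟩
  · intro a ha b hb hab
    rw [← hφ, Finset.mem_coe, Finset.mem_image] at ha hb
    obtain ⟨a, ha, rfl⟩ := ha
    obtain ⟨b, hb, rfl⟩ := hb
    simp only [RelIso.symm_apply_apply] at hab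
    rw [hr (hL0 ha) (hL0 hb) hab]
  · intro S hS hSc b hb hO
    have hS' : S = (S.image φ.symm).image φ := by
      rw [Finset.image_image]
      ext z
      simp
    have hb' : b = φ (φ.symm b) := by simp
    rw [hS', hb', Only.image] at hO
    rw [hS', hb', pos_image, ← hcol (S.image φ.symm) ?_ ?_]
    · apply hc
      · refine Finset.Subset.trans ?_ hL0
        intro z hz
        rw [Finset.mem_image] at hz
        obtain ⟨z, hz, rfl⟩ := hz
        have := hS hz
        rw [← hφ, Finset.mem_image] at this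
        obtain ⟨y, hy, rfl⟩ := this
        simpa using hy
      · rw [Finset.card_image_of_injective _ φ.symm.injective, hSc]
      · exact Finset.mem_image_of_mem _ hb
      · exact hO
    · intro z hz
      rw [Finset.mem_image] at hz
      obtain ⟨z, hz, rfl⟩ := hz
      have := hS hz
      rw [← hφ, Finset.mem_image] at this
      obtain ⟨y, hy, rfl⟩ := this
      simpa using hy
    · rw [Finset.card_image_of_injective _ φ.symm.injective, hSc]

end fail

end Run7.h901
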