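import Pool.Agent.Run7.h901.LP

/-!
Lemma P, the cases `k ≥ 3` and `k = 2`.
-/

open scoped Classical

namespace Run7.h901

universe u
variable {V : Type u} {G : SimpleGraph V}

/-- the family of one-point extensions with prescribed bottoms. -/
theorem bot_fam (h : Rich G) {k : ℕ} (hF : Full G k) (hk : 1 ≤ k) (hnF : ¬ Full G (k + 1))
    {J : Finset V} (hJ : Indp G J) (hc : J.card = k) :
    ∃ u : V → V, (∀ j ∈ J, ∀ z ∈ J, Gᶜ.Adj (u j) z) ∧ (∀ j ∈ J, ¬ Only G (insert (u j) J) j) ∧
      ∀ i ∈ J, ∀ j ∈ J, i ≠ j → Gᶜ.Adj (u i) (u j) := by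
  have h1 : ∀ j, ∃ u, j ∈ J → (∀ z ∈ J, Gᶜ.Adj u z) ∧ ¬ Only G (insert u J) j := by
    intro j
    by_cases hj : j ∈ J
    · obtain ⟨u, hu⟩ := bot_over h hF hk hnF hJ hc hj
      exact ⟨u, fun _ => hu⟩
    · exact ⟨j, fun h => absurd h hj⟩
  choose u hu using h1
  refine ⟨u, fun j hj => (hu j hj).1, fun j hj => (hu j hj).2, fun i hi j hj hij => ?_⟩
  have hind : Indp G (insert (u j) J) := hJ.insert (fun z hz => ((hu j hj).1 z hz).2)
  have hcard : (insert (u j) J).card = k + 1 := by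
    rw [Finset.card_insert_of_notMem (fun hm => ((hu j hj).1 _ hm).1 rfl), hc]
  refine ⟨fun he => ?_, fun hadj => ?_⟩
  · have h2 := (hu i hi).2
    rw [he] at h2
    exact hij (bot_uniq h hF hind hcard (Finset.mem_insert_of_mem hj)
      (Finset.mem_insert_of_mem hi) (hu j hj).2 h2)
  · obtain ⟨φ, h3, h4⟩ := F4 h hJ hadj (hu i hi).1 (hu j hj).1
    have h2 := (hu i hi).2
    rw [← Only.image φ, Finset.image_insert, h4, h3 i hi] at h2
    have h5 : J.image φ = J := by
      ext z
      rw [Finset.mem_image]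
      exact ⟨fun ⟨y, hy, hyz⟩ => by rw [← hyz, h3 y hy]; exact hy, fun hz => ⟨z, hz, h3 z hz⟩⟩
    rw [h5] at h2
    exact hij (bot_uniq h hF hind hcard (Finset.mem_insert_of_mem hj)
      (Finset.mem_insert_of_mem hi) (hu j hj).2 h2)

theorem pos_insert {r : V → ℕ} {J : Finset V} {w b : V} (hw : w ∉ J) :
    pos r (insert w J) b = pos r J b + if r w < r b then 1 else 0 := by
  unfold pos
  rw [Finset.filter_insert]
  split_ifs with h
  · rw [Finset.card_insert_of_notMem (fun h => hw (Finset.mem_filter.1 h).1)]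
  · rfl

theorem pos_mono {r : V → ℕ} {J : Finset V} {a b : V} (ha : a ∈ J) (h : r a < r b) :
    pos r J a + 1 ≤ pos r J b := by
  unfold pos
  have : (insert a (J.filter (fun z => r z < r a))) ⊆ J.filter (fun z => r z < r b) := by
    intro z hz
    rcases Finset.mem_insert.1 hz with rfl | hz
    · exact Finset.mem_filter.2 ⟨ha, h⟩
    · rw [Finset.mem_filter] at hz ⊢
      exact ⟨hz.1, hz.2.trans h⟩
  have h2 := Finset.card_le_card this
  have h3 : a ∉ J.filter (fun z => r z < r a) := fun h => lt_irrefl _ (Finset.mem_filter.1 h).2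
  rwa [Finset.card_insert_of_notMem h3] at h2

/-- the position analysis. -/
theorem pos_pair (h : Rich G) {k : ℕ} (hF : Full G k) (hk : 1 ≤ k) (hnF : ¬ Full G (k + 1))
    {e : ℕ} (he : ∀ L : Finset V, Indp G L → L.card = 2 * k → ∃ r : V → ℕ, Set.InjOn r L ∧
      ∀ S ⊆ L, S.card = k + 1 → ∀ b ∈ S, ¬ Only G S b → pos r S b = e)
    {J : Finset V} (hJ : Indp G J) (hc : J.card = k) :
    ∃ p : V → ℕ, (∀ i ∈ J, p i < k) ∧ ∀ i ∈ J, ∀ j ∈ J, i ≠ j →
      (p i + 1 = e ∧ p j = e) ∨ (p j + 1 = e ∧ p i = e) := by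
  obtain ⟨u, hu1, hu2, hu3⟩ := bot_fam h hF hk hnF hJ hc
  have hdisj : Disjoint J (J.image u) := by
    rw [Finset.disjoint_left]
    intro a ha hb
    rw [Finset.mem_image] at hb
    obtain ⟨j, hj, rfl⟩ := hb
    exact (hu1 j hj _ ha).1 rfl
  have hinj : Set.InjOn u J := by
    intro a ha b hb hab
    by_contra hne
    exact (hu3 a ha b hb hne).1 hab
  have hM : Indp G (J ∪ J.image u) := by
    intro a ha b hb
    simp only [Finset.mem_union, Finset.mem_image] at ha hb
    rcases ha with ha | ⟨i, hi, rfl⟩ <;> rcases hb with hb | ⟨j, hj, rfl⟩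
    · exact hJ a ha b hb
    · exact (hu1 j hj a ha).symm.2
    · exact (hu1 i hi b hb).2
    · by_cases hij : i = j
      · subst hij; exact G.irrefl
      · exact (hu3 i hi j hj hij).2
  obtain ⟨r, hr, hpos⟩ := he (J ∪ J.image u) hM (by
    rw [Finset.card_union_of_disjoint hdisj, Finset.card_image_of_injOn hinj, hc]; omega)
  have hne : ∀ j ∈ J, pos r J j + (if r (u j) < r j then 1 else 0) = e := by
    intro j hj
    have hnm : u j ∉ J := fun hm => (hu1 j hj _ hm).1 rfl
    rw [← pos_insert hnm]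
    apply hpos _ _ _ _ _ (hu2 j hj)
    · apply Finset.insert_subset
      · exact Finset.mem_union_right _ (Finset.mem_image_of_mem _ hj)
      · exact Finset.subset_union_left
    · rw [Finset.card_insert_of_notMem hnm, hc]
    · exact Finset.mem_insert_of_mem hj
  refine ⟨pos r J, fun i hi => hc ▸ pos_lt hi, fun i hi j hj hij => ?_⟩
  have hi' := hne i hi
  have hj' := hne j hj
  have hrij : r i ≠ r j := fun h => hij (hr (Finset.mem_union_left _ hi)
    (Finset.mem_union_left _ hj) h)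
  rcases lt_or_gt_of_ne hrij with hlt | hlt
  · have := pos_mono hi hlt
    left
    split_ifs at hi' hj' <;> omega
  · have := pos_mono hj hlt
    right
    split_ifs at hi' hj' <;> omega

theorem k_le_two (h : Rich G) {k : ℕ} (hF : Full G k) (hk : 1 ≤ k) (hnF : ¬ Full G (k + 1)) :
    k ≤ 2 := by
  by_contra hlt
  push Not at hlt
  obtain ⟨e, he⟩ := hord h hF hnF (2 * k)
  obtain ⟨J, hJ, hc⟩ := h.ind k
  obtain ⟨p, -, hp⟩ := pos_pair h hF hk hnF he hJ hc
  obtain ⟨a, b, c, ha, hb, hcc, hab, hac, hbc⟩ := Finset.two_lt_card_iff.1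
    (show 2 < J.card by omega)
  have h1 := hp a ha b hb hab
  have h2 := hp a ha c hcc hac
  have h3 := hp b hb c hcc hbc
  omega

/-- `b` is the bottom of the independent set `{x, b, z}`. -/
def Bw (G : SimpleGraph V) (x b z : V) : Prop :=
  Indep3 G x b z ∧ ∀ u, G.Adj u b → G.Adj u x ∨ G.Adj u z

theorem Bw.symm {x b z : V} (h : Bw G x b z) : Bw G z b x :=
  ⟨h.1.swap13, fun u hu => (h.2 u hu).symm⟩

theorem Bw.map (φ : G ≃g G) {x b z : V} (h : Bw G x b z) : Bw G (φ x) (φ b) (φ z) := by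
  refine ⟨(Indep3.map φ).2 h.1, fun u hu => ?_⟩
  rw [← symm_adj_iff] at hu ⊢
  rw [← symm_adj_iff]
  exact h.2 _ hu

theorem indp3 {x b z : V} (h : Indep3 G x b z) : Indp G {x, b, z} := by
  obtain ⟨h1, h2, h3⟩ := h
  intro a ha c hc
  simp only [Finset.mem_insert, Finset.mem_singleton] at ha hc
  rcases ha with rfl | rfl | rfl <;> rcases hc with rfl | rfl | rfl
  · exact G.irrefl
  · exact h1.2
  · exact h2.2
  · exact h1.symm.2
  · exact G.irrefl
  · exact h3.2
  · exact h2.symm.2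
  · exact h3.symm.2
  · exact G.irrefl

theorem card3 {x b z : V} (h : Indep3 G x b z) : ({x, b, z} : Finset V).card = 3 :=
  Finset.card_eq_three.2 ⟨x, b, z, h.1.1, h.2.1.1, h.2.2.1, rfl⟩

theorem bw_iff {x b z : V} (h : Indep3 G x b z) : Bw G x b z ↔ ¬ Only G {x, b, z} b := by
  constructor
  · rintro ⟨-, h2⟩ ⟨u, hu1, hu2⟩
    rcases h2 u hu1 with h3 | h3
    · exact hu2 x (by simp) h.1.1 h3
    · exact hu2 z (by simp) h.2.2.1.symm h3
  · intro h1
    refine ⟨h, fun u hu => ?_⟩
    by_contra hn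
    push Not at hn
    apply h1
    refine ⟨u, hu, fun y hy hyb => ?_⟩
    simp only [Finset.mem_insert, Finset.mem_singleton] at hy
    rcases hy with rfl | rfl | rfl
    · exact hn.1
    · exact absurd rfl hyb
    · exact hn.2

def mid (a b c : ℕ) : Prop := (a < b ∧ b < c) ∨ (c < b ∧ b < a)

theorem pos3 {r : V → ℕ} {x b z : V} (h1 : x ≠ b) (h2 : x ≠ z) (h3 : b ≠ z) :
    pos r {x, b, z} b = (if r x < r b then 1 else 0) + (if r z < r b then 1 else 0) := by
  unfold pos
  rw [Finset.filter_insert, Finset.filter_insert, Finset.filter_singleton]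
  split_ifs <;> simp_all [Finset.card_pair]

theorem triple_perm1 {x b z : V} : ({x, b, z} : Finset V) = {b, x, z} := by
  ext w; simp; tauto

theorem triple_perm2 {x b z : V} : ({x, b, z} : Finset V) = {x, z, b} := by
  ext w; simp; tauto

/-- off a clique. -/
theorem Rich.off_clique (h : Rich G) {n : ℕ} {C : Finset V} (hC : G.IsNClique n C) :
    ∃ y, ∀ t ∈ C, Gᶜ.Adj y t := by
  obtain ⟨P, hP⟩ := h.cl 1
  obtain ⟨p, rfl⟩ := SimpleGraph.isNClique_one.1 hP
  obtain ⟨Q, hQ, hQp⟩ := h.clique_off (indp_singleton p) n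
  obtain ⟨φ, hφ, -⟩ := clique_conj h.sh hQ hC
  refine ⟨φ p, fun t ht => ?_⟩
  rw [← hφ, Finset.mem_image] at ht
  obtain ⟨q, hq, rfl⟩ := ht
  rw [compl_adj_map]
  exact (hQp q hq p (by simp)).symm

/-- every `P₃` has a common neighbour. -/
theorem Rich.p3_cn (h : Rich G) {v a v' : V} (h1 : G.Adj v a) (h2 : G.Adj v' a)
    (h3 : Gᶜ.Adj v v') : ∃ w, G.Adj w v ∧ G.Adj w a ∧ G.Adj w v' := by
  obtain ⟨C, hC⟩ := h.cl 2
  obtain ⟨c1, c2, hc12, rfl⟩ := Finset.card_eq_two.1 hC.2
  have hadj : G.Adj c1 c2 := hC.1 (by simp) (by simp) hc12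
  obtain ⟨I, hI, hIc, hIC⟩ := h.indep_above hC 2
  obtain ⟨i1, i2, hi12, rfl⟩ := Finset.card_eq_two.1 hIc
  have k1 := hIC i1 (by simp)
  have k2 := hIC i2 (by simp)
  have a1 : G.Adj i1 c1 := k1 c1 (by simp)
  have a2 : G.Adj i1 c2 := k1 c2 (by simp)
  have a3 : G.Adj i2 c1 := k2 c1 (by simp)
  have a4 : G.Adj i2 c2 := k2 c2 (by simp)
  have a5 : ¬ G.Adj i1 i2 := hI i1 (by simp) i2 (by simp)
  have a6 : ¬ G.Adj i2 i1 := fun h => a5 h.symm
  have b6 : ¬ G.Adj v' v := fun h => h3.2 h.symm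
  obtain ⟨φ, σ, hφ⟩ := T0 h.sh (ι := Fin 3) (y := ![i1, c1, i2]) (y' := ![v, a, v'])
    (by intro i j; fin_cases i <;> fin_cases j <;> simp [a1.ne, a1.ne.symm, a3.ne, a3.ne.symm,
          hi12, hi12.symm])
    (by intro i j; fin_cases i <;> fin_cases j <;> simp [h1.ne, h1.ne.symm, h2.ne, h2.ne.symm,
          h3.1, h3.1.symm])
    (by intro i j; fin_cases i <;> fin_cases j <;> simp [a1, a1.symm, a3, a3.symm, a5, a6, h1,
          h1.symm, h2, h2.symm, h3.2, b6])
  have key : ∀ i : Fin 3, G.Adj (φ c2) (![v, a, v'] i) := by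
    intro i
    have := hφ (σ.symm i)
    rw [Equiv.apply_symm_apply] at this
    rw [← this, φ.map_adj_iff]
    generalize σ.symm i = j
    fin_cases j
    · exact a2.symm
    · exact hadj.symm
    · exact a4.symm
  exact ⟨φ c2, key 0, key 1, key 2⟩

theorem case_two (h : Rich G) (hF : Full G 2) (hnF : ¬ Full G (2 + 1)) : False := by
  obtain ⟨e, he⟩ := hord h hF hnF (2 * 2)
  obtain ⟨J0, hJ0, hc0⟩ := h.ind 2
  obtain ⟨p, hp1, hp2⟩ := pos_pair h hF (by norm_num) hnF he hJ0 hc0
  have he1 : e = 1 := by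
    obtain ⟨i, j, hij, rfl⟩ := Finset.card_eq_two.1 hc0
    have h1 := hp1 i (by simp)
    have h2 := hp1 j (by simp)
    have h3 := hp2 i (by simp) j (by simp) hij
    omega
  subst he1
  -- linear orders on the independent `4`-sets
  have hmid : ∀ L : Finset V, Indp G L → L.card = 4 → ∃ r : V → ℕ, Set.InjOn r L ∧
      ∀ x ∈ L, ∀ b ∈ L, ∀ z ∈ L, x ≠ b → x ≠ z → b ≠ z →
        (Bw G x b z ↔ mid (r x) (r b) (r z)) := by
    intro L hL hLc
    obtain ⟨r, hr, hpos⟩ := he L hL hLc
    refine ⟨r, hr, fun x hx b hb z hz h1 h2 h3 => ?_⟩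
    have hI : Indep3 G x b z := ⟨hL.adj_compl hx hb h1, hL.adj_compl hx hz h2,
      hL.adj_compl hb hz h3⟩
    have hS : ({x, b, z} : Finset V) ⊆ L := by
      intro w hw
      simp only [Finset.mem_insert, Finset.mem_singleton] at hw
      rcases hw with rfl | rfl | rfl <;> assumption
    have hSc := card3 hI
    have n1 : r x ≠ r b := fun h => h1 (hr hx hb h)
    have n2 : r x ≠ r z := fun h => h2 (hr hx hz h)
    have n3 : r b ≠ r z := fun h => h3 (hr hb hz h)
    have hposb : ¬ Only G {x, b, z} b →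
        (if r x < r b then 1 else 0) + (if r z < r b then 1 else 0) = 1 := by
      intro hO
      rw [← pos3 h1 h2 h3]
      exact hpos _ hS hSc b (by simp) hO
    constructor
    · intro hB
      have h4 := hposb ((bw_iff hI).1 hB)
      unfold mid
      split_ifs at h4 <;> omega
    · intro hm
      obtain ⟨b', hb', hO⟩ := bot_exists h hnF (indp3 hI) hSc
      simp only [Finset.mem_insert, Finset.mem_singleton] at hb'
      rcases hb' with rfl | rfl | rfl
      · exfalso
        have h4 := hpos _ hS hSc b' (by simp) hO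
        rw [triple_perm1, pos3 h1.symm h3 h2] at h4
        unfold mid at hm
        split_ifs at h4 <;> omega
      · exact (bw_iff hI).2 hO
      · exfalso
        have h4 := hpos _ hS hSc b' (by simp) hO
        rw [triple_perm2, pos3 h2 h1 h3.symm] at h4
        unfold mid at hm
        split_ifs at h4 <;> omega
  -- T1
  have T1 : ∀ x y z b, P3K1 G x y z b → ¬ Bw G x b z := by
    intro x y z b hP hB
    obtain ⟨I, hI, hIc⟩ := h.ind 4
    obtain ⟨v, hv⟩ := lemS h hI (s := 3) (by omega)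
    obtain ⟨x1, x2, x3, h12, h13, h23, hf⟩ := Finset.card_eq_three.1 hv
    have hmem : ∀ w, w ∈ I ∧ G.Adj v w ↔ (w = x1 ∨ w = x2 ∨ w = x3) := by
      intro w
      rw [← Finset.mem_filter (p := fun z => G.Adj v z), hf]
      simp
    obtain ⟨m1, n1⟩ := (hmem x1).2 (by simp)
    obtain ⟨m2, n2⟩ := (hmem x2).2 (by simp)
    obtain ⟨m3, n3⟩ := (hmem x3).2 (by simp)
    obtain ⟨c, hcI, hcf⟩ := Finset.exists_mem_notMem_of_card_lt_card
      (show (I.filter (fun z => G.Adj v z)).card < I.card by omega)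
    have hvc : ¬ G.Adj v c := fun h => hcf (Finset.mem_filter.2 ⟨hcI, h⟩)
    have hc1 : c ≠ x1 := by rintro rfl; exact hvc n1
    have hc2 : c ≠ x2 := by rintro rfl; exact hvc n2
    have hc3 : c ≠ x3 := by rintro rfl; exact hvc n3
    have hcv : Gᶜ.Adj c v := ⟨by rintro rfl; exact hI _ m1 _ hcI n1.symm, fun h => hvc h.symm⟩
    obtain ⟨r, hr, hmid⟩ := hmid I hI hIc
    have key : ∀ s ∈ I, ∀ t ∈ I, G.Adj v s → G.Adj v t → s ≠ t → s ≠ c → t ≠ c →
        mid (r s) (r c) (r t) := by
      intro s hs t ht hvs hvt hst hsc htc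
      obtain ⟨φ, -, k2, k3⟩ := (quasi_of h.sh).p3k1 hP (a' := s) (q' := v) (c' := t) (b' := c)
        ⟨hvs, hvt, hI.adj_compl hs ht hst, hI.adj_compl hcI hs hsc.symm, hcv,
          hI.adj_compl hcI ht htc.symm⟩
      rw [← hmid s hs c hcI t ht hsc hst htc.symm]
      have := hB.map φ
      rw [k2] at this
      rcases k3 with ⟨e1, e2⟩ | ⟨e1, e2⟩
      · rwa [e1, e2] at this
      · rw [e1, e2] at this
        exact this.symm
    have j1 := key x1 m1 x2 m2 n1 n2 h12 hc1.symm hc2.symm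
    have j2 := key x1 m1 x3 m3 n1 n3 h13 hc1.symm hc3.symm
    have j3 := key x2 m2 x3 m3 n2 n3 h23 hc2.symm hc3.symm
    unfold mid at j1 j2 j3
    omega
  -- T2
  have T2 : ∀ x a z y, Bw G x a z → Gᶜ.Adj y a → Bw G x a y ∨ Bw G y a z := by
    intro x a z y hB hya
    by_cases hyx : y = x
    · subst hyx; exact Or.inr hB
    by_cases hyz : y = z
    · subst hyz; exact Or.inl hB
    obtain ⟨hxa, hxz, haz⟩ := hB.1
    by_cases h1 : G.Adj y x <;> by_cases h2 : G.Adj y z
    · exact absurd hB (T1 x y z a ⟨h1, h2, hxz, hxa.symm, hya.symm, haz⟩)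
    · right
      obtain ⟨φ, k1, k2⟩ := F4 h (J := {a, z}) (x := x) (y := y) (by
        intro s hs t ht
        simp only [Finset.mem_insert, Finset.mem_singleton] at hs ht
        rcases hs with rfl | rfl <;> rcases ht with rfl | rfl
        · exact G.irrefl
        · exact haz.2
        · exact haz.symm.2
        · exact G.irrefl) h1.symm (by
        intro j hj
        simp only [Finset.mem_insert, Finset.mem_singleton] at hj
        rcases hj with rfl | rfl
        · exact hxa
        · exact hxz) (by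
        intro j hj
        simp only [Finset.mem_insert, Finset.mem_singleton] at hj
        rcases hj with rfl | rfl
        · exact hya
        · exact ⟨hyz, h2⟩)
      have := hB.map φ
      rwa [k1 a (by simp), k1 z (by simp), k2] at this
    · left
      obtain ⟨φ, k1, k2⟩ := F4 h (J := {x, a}) (x := z) (y := y) (by
        intro s hs t ht
        simp only [Finset.mem_insert, Finset.mem_singleton] at hs ht
        rcases hs with rfl | rfl <;> rcases ht with rfl | rfl
        · exact G.irrefl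
        · exact hxa.2
        · exact hxa.symm.2
        · exact G.irrefl) h2.symm (by
        intro j hj
        simp only [Finset.mem_insert, Finset.mem_singleton] at hj
        rcases hj with rfl | rfl
        · exact hxz.symm
        · exact haz.symm) (by
        intro j hj
        simp only [Finset.mem_insert, Finset.mem_singleton] at hj
        rcases hj with rfl | rfl
        · exact ⟨hyx, h1⟩
        · exact hya)
      have := hB.map φ
      rwa [k1 x (by simp), k1 a (by simp), k2] at this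
    · have hL : Indp G {y, x, a, z} := by
        apply (indp3 hB.1).insert
        intro w hw
        simp only [Finset.mem_insert, Finset.mem_singleton] at hw
        rcases hw with rfl | rfl | rfl
        · exact h1
        · exact hya.2
        · exact h2
      have hLc : ({y, x, a, z} : Finset V).card = 4 := by
        rw [Finset.card_insert_of_notMem, card3 hB.1]
        simp only [Finset.mem_insert, Finset.mem_singleton, not_or]
        exact ⟨hyx, hya.1, hyz⟩
      obtain ⟨r, hr, hm⟩ := hmid _ hL hLc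
      have k1 := (hm x (by simp) a (by simp) z (by simp) hxa.1 hxz.1 haz.1).1 hB
      rw [hm x (by simp) a (by simp) y (by simp) hxa.1 (Ne.symm hyx) hya.1.symm,
        hm y (by simp) a (by simp) z (by simp) hya.1 hyz haz.1]
      have n1 : r a ≠ r y := fun h => hya.1 (hr (by simp) (by simp) h).symm
      unfold mid at *
      omega
  -- the configuration
  obtain ⟨I, hI, hIc⟩ := h.ind 3
  obtain ⟨a, ha, hO⟩ := bot_exists h hnF hI hIc
  obtain ⟨x, x', hxx', hxe⟩ := Finset.card_eq_two.1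
    (show (I.erase a).card = 2 by rw [Finset.card_erase_of_mem ha, hIc])
  have hx : x ∈ I.erase a := by rw [hxe]; simp
  have hx' : x' ∈ I.erase a := by rw [hxe]; simp
  rw [Finset.mem_erase] at hx hx'
  have hB : Bw G x a x' := by
    refine ⟨⟨hI.adj_compl hx.2 ha hx.1, hI.adj_compl hx.2 hx'.2 hxx',
      hI.adj_compl ha hx'.2 hx'.1.symm⟩, fun u hu => ?_⟩
    by_contra hn
    push Not at hn
    apply hO
    refine ⟨u, hu, fun z hz hza => ?_⟩
    have : z ∈ I.erase a := Finset.mem_erase.2 ⟨hza, hz⟩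
    rw [hxe] at this
    simp only [Finset.mem_insert, Finset.mem_singleton] at this
    rcases this with rfl | rfl
    · exact hn.1
    · exact hn.2
  obtain ⟨hxa, -, hax'⟩ := hB.1
  have hv : ∀ y, Gᶜ.Adj a y → ∃ v, G.Adj v a ∧ Gᶜ.Adj y v := by
    intro y hay
    obtain ⟨v, h1, h2⟩ := hF {a, y} (indp_pair hay) (Finset.card_pair hay.1) a (by simp)
    refine ⟨v, h1, ?_, fun h => h2 y (by simp) hay.1.symm h.symm⟩
    rintro rfl
    exact hay.2 h1.symm
  obtain ⟨v, hva, hxv⟩ := hv x hxa.symm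
  obtain ⟨v', hv'a, hxv'⟩ := hv x' hax'
  have Etr : ∀ y1 y2 y3, Gᶜ.Adj y2 a → ¬ Bw G y1 a y2 → ¬ Bw G y2 a y3 → ¬ Bw G y1 a y3 := by
    intro y1 y2 y3 h2 h3 h4 h5
    rcases T2 y1 a y3 y2 h5 h2 with h6 | h6
    · exact h3 h6
    · exact h4 h6
  have hD : ∀ u y y', G.Adj u a → Gᶜ.Adj y u → Gᶜ.Adj y' u → ¬ Bw G y a y' := by
    intro u y y' hu h1 h2 hB
    rcases hB.2 u hu with h3 | h3
    · exact h1.2 h3.symm
    · exact h2.2 h3.symm
  have hDD : ∀ u w y y', G.Adj u a → G.Adj w a → G.Adj u w → Gᶜ.Adj y a → Gᶜ.Adj y u →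
      Gᶜ.Adj y' a → Gᶜ.Adj y' w → ¬ Bw G y a y' := by
    intro u w y y' hu hw huw h1 h2 h3 h4
    obtain ⟨c, hc⟩ := h.off_clique (n := 3) (C := {a, u, w})
      ⟨isClique_triple hu.symm hw.symm huw, Finset.card_eq_three.2 ⟨a, u, w, hu.ne.symm,
        hw.ne.symm, huw.ne, rfl⟩⟩
    exact Etr y c y' (hc a (by simp)) (hD u y c hu h2 (hc u (by simp)))
      (hD w c y' hw (hc w (by simp)) h4)
  have hvx' : G.Adj v x' := by
    rcases hB.2 v hva with h1 | h1
    · exact absurd h1.symm hxv.2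
    · exact h1
  have hvv : v ≠ v' := by
    rintro rfl
    exact hxv'.2 hvx'.symm
  by_cases hadj : G.Adj v v'
  · exact hDD v v' x x' hva hv'a hadj hxa hxv hax'.symm hxv' hB
  · obtain ⟨w, hw1, hw2, hw3⟩ := h.p3_cn hva hv'a ⟨hvv, hadj⟩
    obtain ⟨y, hy⟩ := h.off_clique (n := 2) (C := {a, w})
      ⟨isClique_pair hw2.symm, Finset.card_pair hw2.ne.symm⟩
    exact Etr x y x' (hy a (by simp))
      (hDD v w x y hva hw2 hw1.symm hxa hxv (hy a (by simp)) (hy w (by simp)))
      (hDD w v' y x' hw2 hv'a hw3 (hy a (by simp)) (hy w (by simp)) hax'.symm hxv') hB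

end Run7.h901
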