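import Pool.Agent.Run7.h901.LP2

/-!
Lemma P, the case `k = 1`, and the conclusion.
-/

open scoped Classical

namespace Run7.h901

universe u
variable {V : Type u} {G : SimpleGraph V}

/-- `x ≁ y` and every neighbour of `x` is a neighbour of `y`. -/
def Blw (G : SimpleGraph V) (x y : V) : Prop := Gᶜ.Adj x y ∧ ∀ u, G.Adj u x → G.Adj u y

theorem case_one (h : Rich G) (hnF : ¬ Full G (1 + 1)) : False := by
  have hcomp : ∀ x y, Gᶜ.Adj x y → Blw G x y ∨ Blw G y x := by
    intro x y hxy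
    obtain ⟨b, hb, hO⟩ := bot_exists h hnF (indp_pair hxy) (Finset.card_pair hxy.1)
    simp only [Finset.mem_insert, Finset.mem_singleton] at hb
    rcases hb with rfl | rfl
    · left
      refine ⟨hxy, fun u hu => ?_⟩
      by_contra hn
      apply hO
      refine ⟨u, hu, fun z hz hzb => ?_⟩
      simp only [Finset.mem_insert, Finset.mem_singleton] at hz
      rcases hz with rfl | rfl
      · exact absurd rfl hzb
      · exact hn
    · right
      refine ⟨hxy.symm, fun u hu => ?_⟩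
      by_contra hn
      apply hO
      refine ⟨u, hu, fun z hz hzb => ?_⟩
      simp only [Finset.mem_insert, Finset.mem_singleton] at hz
      rcases hz with rfl | rfl
      · exact hn
      · exact absurd rfl hzb
  have habove : ∀ x, ∃ y, Blw G x y := by
    intro x
    obtain ⟨I, hI, hIc⟩ := h.ind 2
    obtain ⟨p, q, hpq, rfl⟩ := Finset.card_eq_two.1 hIc
    have hpq' : Gᶜ.Adj p q := hI.adj_compl (by simp) (by simp) hpq
    obtain ⟨s, t, hst⟩ : ∃ s t, Blw G s t := by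
      rcases hcomp p q hpq' with h1 | h1
      · exact ⟨_, _, h1⟩
      · exact ⟨_, _, h1⟩
    obtain ⟨φ, hφ⟩ := vt h.sh s x
    refine ⟨φ t, ?_, fun u hu => ?_⟩
    · rw [← hφ, compl_adj_map]; exact hst.1
    · rw [← hφ, ← symm_adj_iff] at hu
      rw [← symm_adj_iff]
      exact hst.2 _ hu
  -- `Full` for the complement
  have hF' : ∀ n, Full Gᶜ n := by
    intro n L hL _ x hx
    obtain ⟨u, hu⟩ := habove x
    refine ⟨u, hu.1.symm, fun z hz hzx hadj => ?_⟩
    have h1 : G.Adj z x := indp_compl_iff.1 hL hz hx hzx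
    exact hadj.2 (hu.2 z h1).symm
  obtain ⟨C, hC⟩ := h.cl 3
  have hCi : Indp Gᶜ C := indp_compl_iff.2 hC.1
  obtain ⟨v, F, hFC, hFc, hvF⟩ := lemS' h.compl hCi (s := 2) (by rw [hC.2]; omega)
  obtain ⟨y1, y2, h12, rfl⟩ := Finset.card_eq_two.1 hFc
  have m1 : y1 ∈ C := hFC (by simp)
  have m2 : y2 ∈ C := hFC (by simp)
  have n1 : Gᶜ.Adj v y1 := (hvF y1 m1).2 (by simp)
  have n2 : Gᶜ.Adj v y2 := (hvF y2 m2).2 (by simp)
  obtain ⟨y3, hy3C, hy3f⟩ := Finset.exists_mem_notMem_of_card_lt_card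
    (show ({y1, y2} : Finset V).card < C.card by rw [hC.2]; omega)
  have hv3 : ¬ Gᶜ.Adj v y3 := fun h => hy3f ((hvF y3 hy3C).1 h)
  have h31 : y3 ≠ y1 := by rintro rfl; exact hv3 n1
  have h32 : y3 ≠ y2 := by rintro rfl; exact hv3 n2
  have hCeq : ∀ w ∈ C, w ≠ y3 → w = y1 ∨ w = y2 := by
    intro w hw hw3
    by_contra hn
    push Not at hn
    have h1 : ({w, y3, y1, y2} : Finset V) ⊆ C := by
      intro z hz
      simp only [Finset.mem_insert, Finset.mem_singleton] at hz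
      rcases hz with rfl | rfl | rfl | rfl <;> assumption
    have h2 := Finset.card_le_card h1
    rw [Finset.card_insert_of_notMem (by simp [hw3, hn]), Finset.card_insert_of_notMem
      (by simp [h31, h32]), hFc, hC.2] at h2
    omega
  obtain ⟨φ, hφC, hφ3⟩ := Tr h.compl (hF' 3) hCi hCi hC.2 hC.2 hy3C m2
  obtain ⟨v', hv'⟩ : ∃ v', φ v = v' := ⟨_, rfl⟩
  have hv'2 : ¬ Gᶜ.Adj v' y2 := by rw [← hv', ← hφ3, φ.map_adj_iff]; exact hv3
  have hv'o : ∀ w ∈ C, w ≠ y2 → Gᶜ.Adj v' w := by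
    intro w hw hw2
    rw [← hφC, Finset.mem_image] at hw
    obtain ⟨z, hz, rfl⟩ := hw
    rw [← hv', φ.map_adj_iff]
    rcases hCeq z hz (by rintro rfl; exact hw2 hφ3) with rfl | rfl
    · exact n1
    · exact n2
  have a12 : G.Adj y1 y2 := hC.1 m1 m2 h12
  have a13 : G.Adj y1 y3 := hC.1 m1 hy3C h31.symm
  have a23 : G.Adj y2 y3 := hC.1 m2 hy3C h32.symm
  have b1 : Gᶜ.Adj v y1 := n1
  have b2 : Gᶜ.Adj v y2 := n2
  have hvne3 : v ≠ y3 := by rintro rfl; exact b1.2 a13.symm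
  have b3 : G.Adj v y3 := by
    by_contra hn; exact hv3 ⟨hvne3, hn⟩
  have c1 : Gᶜ.Adj v' y1 := hv'o y1 m1 h12
  have c3 : Gᶜ.Adj v' y3 := hv'o y3 hy3C h32
  have hv'ne2 : v' ≠ y2 := by rintro rfl; exact c1.2 a12.symm
  have c2 : G.Adj v' y2 := by
    by_contra hn; exact hv'2 ⟨hv'ne2, hn⟩
  have d1 : Blw G v y1 := by
    rcases hcomp v y1 b1 with h1 | h1
    · exact h1
    · exact absurd (h1.2 y2 a12.symm).symm b2.2
  have hvv' : ¬ G.Adj v v' := fun hadj => c1.2 (d1.2 v' hadj.symm)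
  have hne : v ≠ v' := by rintro rfl; exact c3.2 b3
  rcases hcomp v v' ⟨hne, hvv'⟩ with h1 | h1
  · exact c3.2 (h1.2 y3 b3.symm).symm
  · exact b2.2 (h1.2 y2 c2.symm).symm

/-- **Lemma P.** -/
theorem full (h : Rich G) : ∀ n, Full G n := by
  intro n
  induction n with
  | zero => exact full_zero
  | succ k ih =>
    by_contra hnF
    rcases Nat.eq_zero_or_pos k with rfl | hk
    · exact hnF (full_one h)
    · have h2 := k_le_two h ih hk hnF
      have h3 : k = 1 ∨ k = 2 := by omega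
      rcases h3 with rfl | rfl
      · exact case_one h hnF
      · exact case_two h ih hnF

end Run7.h901
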