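import Pool.Agent.Run7.h901.LSym2

/-!
Traces over independent sets, and the embedding dichotomy.
-/

open scoped Classical

namespace Run7.h901

universe u v
variable {V : Type u} {G : SimpleGraph V}

theorem sym_fam (h : Rich G) {ι : Type v} [Finite ι] (f g : ι → V) (hf : Function.Injective f)
    (hg : Function.Injective g) (hf' : ∀ i j, ¬ G.Adj (f i) (f j))
    (hg' : ∀ i j, ¬ G.Adj (g i) (g j)) : ∃ φ : G ≃g G, ∀ i, φ (f i) = g i := by
  let e := Finite.equivFin ι
  obtain ⟨φ, hφ⟩ := sym_tuple h _ (f ∘ e.symm) (g ∘ e.symm) (hf.comp e.symm.injective)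
    (hg.comp e.symm.injective) (fun i j => hf' _ _) (fun i j => hg' _ _)
  refine ⟨φ, fun i => ?_⟩
  have := hφ (e i)
  simpa using this

/-- all traces over independent families are realised. -/
theorem trace (h : Rich G) {ι : Type v} [Finite ι] (f : ι → V) (hf : Function.Injective f)
    (hf' : ∀ i j, ¬ G.Adj (f i) (f j)) (T : ι → Prop) :
    ∃ v, (∀ i, v ≠ f i) ∧ ∀ i, G.Adj v (f i) ↔ T i := by
  have := Fintype.ofFinite ι
  let L : Finset V := Finset.univ.image f
  have hL : Indp G L := by
    intro a ha b hb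
    rw [Finset.mem_image] at ha hb
    obtain ⟨i, -, rfl⟩ := ha
    obtain ⟨j, -, rfl⟩ := hb
    exact hf' i j
  have hmL : ∀ i, f i ∈ L := fun i => Finset.mem_image_of_mem _ (Finset.mem_univ i)
  by_cases hT : ∃ i, T i
  · obtain ⟨v, F, hFL, hFc, hvF⟩ := lemS' h hL (s := (Finset.univ.filter T).card) (by
      rw [Finset.card_image_of_injective _ hf]
      exact Finset.card_le_card (Finset.filter_subset _ _))
    have hcF : (Finset.univ.filter (fun i => f i ∈ F)).card = (Finset.univ.filter T).card := by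
      rw [← hFc, ← Finset.card_image_of_injective _ hf]
      congr 1
      ext w
      simp only [Finset.mem_image, Finset.mem_filter, Finset.mem_univ, true_and]
      constructor
      · rintro ⟨i, hi, rfl⟩; exact hi
      · intro hw
        obtain ⟨i, -, rfl⟩ := Finset.mem_image.1 (hFL hw)
        exact ⟨i, hw, rfl⟩
    have hcard : Fintype.card {i // f i ∈ F} = Fintype.card {i // T i} := by
      rw [Fintype.card_subtype, Fintype.card_subtype]; exact hcF
    let e0 : {i // f i ∈ F} ≃ {i // T i} := Fintype.equivOfCardEq hcard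
    let σ : Equiv.Perm ι := e0.extendSubtype
    have hσ : ∀ i, f i ∈ F ↔ T (σ i) := by
      intro i
      constructor
      · intro hi; exact e0.extendSubtype_mem i hi
      · intro hi
        by_contra hn
        exact e0.extendSubtype_not_mem i hn hi
    obtain ⟨φ, hφ⟩ := sym_fam h f (f ∘ σ) hf (hf.comp σ.injective) hf' (fun i j => hf' _ _)
    have key : ∀ i, G.Adj (φ v) (f i) ↔ T i := by
      intro i
      have h1 := hφ (σ.symm i)
      simp only [Function.comp_apply, Equiv.apply_symm_apply] at h1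
      rw [← h1, φ.map_adj_iff, hvF _ (hmL _), hσ]
      simp
    refine ⟨φ v, fun i hi => ?_, key⟩
    obtain ⟨j, hj⟩ := hT
    have := (key j).2 hj
    rw [hi] at this
    exact hf' i j this
  · push Not at hT
    obtain ⟨Q, hQ, hQL⟩ := h.clique_off hL 1
    obtain ⟨v, rfl⟩ := SimpleGraph.isNClique_one.1 hQ
    refine ⟨v, fun i => ?_, fun i => ?_⟩
    · exact (hQL v (by simp) _ (hmL i)).1
    · exact ⟨fun hadj => absurd hadj (hQL v (by simp) _ (hmL i)).2, fun h => absurd h (hT i)⟩

/-- all split graphs with parts of size `n`. -/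
def UA (G : SimpleGraph V) (n : ℕ) : Prop :=
  ∀ E : Fin n → Fin n → Prop, ∃ x y : Fin n → V, Function.Injective x ∧ Function.Injective y ∧
    (∀ i j, x i ≠ y j) ∧ (∀ i j, i ≠ j → G.Adj (x i) (x j)) ∧ (∀ i j, ¬ G.Adj (y i) (y j)) ∧
    ∀ i j, G.Adj (x i) (y j) ↔ E i j

/-- all bipartite graphs with parts of size `n`. -/
def UB (G : SimpleGraph V) (n : ℕ) : Prop :=
  ∀ E : Fin n → Fin n → Prop, ∃ x y : Fin n → V, Function.Injective x ∧ Function.Injective y ∧
    (∀ i j, x i ≠ y j) ∧ (∀ i j, ¬ G.Adj (x i) (x j)) ∧ (∀ i j, ¬ G.Adj (y i) (y j)) ∧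
    ∀ i j, G.Adj (x i) (y j) ↔ E i j

/-- extending a relation by `False`. -/
def extE {m n : ℕ} (E : Fin m → Fin m → Prop) : Fin n → Fin n → Prop :=
  fun i j => ∃ (hi : i.val < m) (hj : j.val < m), E ⟨i, hi⟩ ⟨j, hj⟩

theorem extE_cast {m n : ℕ} (h : m ≤ n) (E : Fin m → Fin m → Prop) (i j : Fin m) :
    extE (n := n) E (Fin.castLE h i) (Fin.castLE h j) ↔ E i j := by
  constructor
  · rintro ⟨_, _, h3⟩; exact h3
  · intro h3; exact ⟨i.2, j.2, h3⟩

theorem UA.mono {m n : ℕ} (h : UA G n) (hmn : m ≤ n) : UA G m := by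
  intro E
  obtain ⟨x, y, h1, h2, h3, h4, h5, h6⟩ := h (extE E)
  refine ⟨x ∘ Fin.castLE hmn, y ∘ Fin.castLE hmn, h1.comp (Fin.castLE_injective hmn),
    h2.comp (Fin.castLE_injective hmn), fun i j => h3 _ _, fun i j hij => h4 _ _ ?_,
    fun i j => h5 _ _, fun i j => ?_⟩
  · exact fun he => hij (Fin.castLE_injective hmn he)
  · simp only [Function.comp_apply]
    rw [h6, extE_cast]

theorem UB.mono {m n : ℕ} (h : UB G n) (hmn : m ≤ n) : UB G m := by
  intro E
  obtain ⟨x, y, h1, h2, h3, h4, h5, h6⟩ := h (extE E)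
  refine ⟨x ∘ Fin.castLE hmn, y ∘ Fin.castLE hmn, h1.comp (Fin.castLE_injective hmn),
    h2.comp (Fin.castLE_injective hmn), fun i j => h3 _ _, fun i j => h4 _ _,
    fun i j => h5 _ _, fun i j => ?_⟩
  simp only [Function.comp_apply]
  rw [h6, extE_cast]

/-- the dichotomy for parts of size `n`. -/
theorem dich (h : Rich G) (n : ℕ) : UA G n ∨ UB G n := by
  rcases Nat.eq_zero_or_pos n with rfl | hn
  · left
    intro E
    exact ⟨fun i => i.elim0, fun i => i.elim0, fun i => i.elim0, fun i => i.elim0,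
      fun i => i.elim0, fun i => i.elim0, fun i => i.elim0, fun i => i.elim0⟩
  obtain ⟨R, hR⟩ := ramseyV.{u} Bool 2 n
  -- the independent family
  obtain ⟨I, hI, hIc⟩ := h.ind (Fintype.card (Finset (Fin R) × Fin n))
  let e : (Finset (Fin R) × Fin n) ≃ I := Fintype.equivOfCardEq (by rw [Fintype.card_coe, hIc])
  let f : Finset (Fin R) × Fin n → V := fun p => (e p).1
  have hf : Function.Injective f := fun p q hpq => e.injective (Subtype.ext hpq)
  have hf' : ∀ p q, ¬ G.Adj (f p) (f q) := fun p q => hI _ (e p).2 _ (e q).2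
  have hv : ∀ i : Fin R, ∃ v, (∀ p, v ≠ f p) ∧ ∀ p, G.Adj v (f p) ↔ i ∈ p.1 := fun i =>
    trace h f hf hf' (fun p => i ∈ p.1)
  choose v hv1 hv2 using hv
  have hvinj : Function.Injective v := by
    intro i j hij
    have h1 := (hv2 i ({i}, ⟨0, hn⟩)).2 (by simp)
    rw [hij] at h1
    have h2 := (hv2 j ({i}, ⟨0, hn⟩)).1 h1
    simp only [Finset.mem_singleton] at h2
    exact h2.symm
  obtain ⟨L, hL, hLc, col, hcol⟩ := hR (Finset.univ.image v)
    (fun S => decide (∃ a ∈ S, ∃ b ∈ S, G.Adj a b)) (by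
      rw [Finset.card_image_of_injective _ hvinj, Finset.card_univ, Fintype.card_fin])
  -- enumerate `L`
  let x0 : Fin n ≃ L := (L.equivFinOfCardEq hLc).symm
  have hx0 : ∀ a : Fin n, ∃ i : Fin R, v i = (x0 a).1 := by
    intro a
    have := hL (x0 a).2
    rw [Finset.mem_image] at this
    obtain ⟨i, -, hi⟩ := this
    exact ⟨i, hi⟩
  choose s hs using hx0
  have hsinj : Function.Injective s := by
    intro a b hab
    apply x0.injective
    apply Subtype.ext
    rw [← hs, ← hs, hab]
  have hxinj : Function.Injective (fun a => v (s a)) := hvinj.comp hsinj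
  have hadjcol : ∀ a b : Fin n, a ≠ b → (G.Adj (v (s a)) (v (s b)) ↔ col = true) := by
    intro a b hab
    have h1 := hcol {v (s a), v (s b)} (by
      intro w hw
      simp only [Finset.mem_insert, Finset.mem_singleton] at hw
      rcases hw with rfl | rfl
      · rw [hs]; exact (x0 a).2
      · rw [hs]; exact (x0 b).2) (Finset.card_pair (hxinj.ne hab))
    rw [← h1, decide_eq_true_iff]
    constructor
    · intro hadj
      exact ⟨_, by simp, _, by simp, hadj⟩
    · rintro ⟨c, hc, d, hd, hcd⟩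
      simp only [Finset.mem_insert, Finset.mem_singleton] at hc hd
      rcases hc with rfl | rfl <;> rcases hd with rfl | rfl
      · exact absurd hcd G.irrefl
      · exact hcd
      · exact hcd.symm
      · exact absurd hcd G.irrefl
  have hy : ∀ E : Fin n → Fin n → Prop, ∃ y : Fin n → V, Function.Injective y ∧
      (∀ i j, v (s i) ≠ y j) ∧ (∀ i j, ¬ G.Adj (y i) (y j)) ∧
      ∀ i j, G.Adj (v (s i)) (y j) ↔ E i j := by
    intro E
    refine ⟨fun j => f ((Finset.univ.filter (fun i => E i j)).image s, j), ?_, ?_, ?_, ?_⟩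
    · intro i j hij
      exact congrArg Prod.snd (hf hij)
    · intro i j; exact hv1 _ _
    · intro i j; exact hf' _ _
    · intro i j
      rw [hv2]
      simp only [Finset.mem_image, Finset.mem_filter, Finset.mem_univ, true_and]
      constructor
      · rintro ⟨k, hk, hks⟩
        rw [← hsinj hks]; exact hk
      · intro hE
        exact ⟨i, hE, rfl⟩
  by_cases hc : col = true
  · left
    intro E
    obtain ⟨y, h1, h2, h3, h4⟩ := hy E
    exact ⟨fun a => v (s a), y, hxinj, h1, h2, fun i j hij => (hadjcol i j hij).2 hc, h3, h4⟩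
  · right
    intro E
    obtain ⟨y, h1, h2, h3, h4⟩ := hy E
    refine ⟨fun a => v (s a), y, hxinj, h1, h2, fun i j hadj => ?_, h3, h4⟩
    by_cases hij : i = j
    · subst hij; exact G.irrefl hadj
    · exact hc ((hadjcol i j hij).1 hadj)

theorem dich' (h : Rich G) : (∀ n, UA G n) ∨ ∀ n, UB G n := by
  by_cases hA : ∀ n, UA G n
  · exact Or.inl hA
  · right
    push Not at hA
    obtain ⟨m, hm⟩ := hA
    intro n
    rcases dich h (max m n) with h1 | h1
    · exact absurd (h1.mono (le_max_left _ _)) hm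
    · exact h1.mono (le_max_right _ _)

/-- every finite split graph embeds as an induced subgraph. -/
def EmbedsSplit (G : SimpleGraph V) : Prop :=
  ∀ (n : ℕ) (H : SimpleGraph (Fin n)) (S : Set (Fin n)), H.IsClique S → Hᶜ.IsClique Sᶜ →
    Nonempty (H ↪g G)

/-- every finite bipartite graph embeds as an induced subgraph. -/
def EmbedsBipartite (G : SimpleGraph V) : Prop :=
  ∀ (n : ℕ) (H : SimpleGraph (Fin n)), H.Colorable 2 → Nonempty (H ↪g G)

theorem embedsSplit_of (h : ∀ n, UA G n) : EmbedsSplit G := by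
  intro n H S hS hSc
  obtain ⟨x, y, h1, h2, h3, h4, h5, h6⟩ := h n (fun i j => H.Adj i j)
  refine ⟨⟨⟨fun i => if i ∈ S then x i else y i, ?_⟩, ?_⟩⟩
  · intro i j hij
    simp only at hij
    split_ifs at hij with hi hj hj
    · exact h1 hij
    · exact absurd hij (h3 _ _)
    · exact absurd hij.symm (h3 _ _)
    · exact h2 hij
  · intro i j
    show G.Adj (if i ∈ S then x i else y i) (if j ∈ S then x j else y j) ↔ H.Adj i j
    by_cases hij : i = j
    · subst hij; simp
    split_ifs with hi hj hj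
    · exact ⟨fun _ => hS hi hj hij, fun _ => h4 _ _ hij⟩
    · exact h6 i j
    · rw [G.adj_comm, h6, H.adj_comm]
    · exact ⟨fun hadj => absurd hadj (h5 _ _), fun hadj => absurd hadj (hSc hi hj hij).2⟩

theorem embedsBipartite_of (h : ∀ n, UB G n) : EmbedsBipartite G := by
  intro n H hH
  obtain ⟨C⟩ := hH
  obtain ⟨x, y, h1, h2, h3, h4, h5, h6⟩ := h n (fun i j => H.Adj i j)
  have hC : ∀ i j, H.Adj i j → C i ≠ C j := fun i j hij => C.valid hij
  refine ⟨⟨⟨fun i => if C i = 0 then x i else y i, ?_⟩, ?_⟩⟩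
  · intro i j hij
    simp only at hij
    split_ifs at hij with hi hj hj
    · exact h1 hij
    · exact absurd hij (h3 _ _)
    · exact absurd hij.symm (h3 _ _)
    · exact h2 hij
  · intro i j
    show G.Adj (if C i = 0 then x i else y i) (if C j = 0 then x j else y j) ↔ H.Adj i j
    split_ifs with hi hj hj
    · exact ⟨fun hadj => absurd hadj (h4 _ _), fun hadj => absurd (hi.trans hj.symm) (hC i j hadj)⟩
    · exact h6 i j
    · rw [G.adj_comm, h6, H.adj_comm]
    · refine ⟨fun hadj => absurd hadj (h5 _ _), fun hadj => absurd ?_ (hC i j hadj)⟩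
      have k1 : C i = 1 := by
        have := C i; revert hi; generalize C i = c; fin_cases c <;> simp
      have k2 : C j = 1 := by
        have := C j; revert hj; generalize C j = c; fin_cases c <;> simp
      rw [k1, k2]

theorem EmbedsSplit.of_compl (h : EmbedsSplit Gᶜ) : EmbedsSplit G := by
  intro n H S hS hSc
  obtain ⟨e⟩ := h n Hᶜ Sᶜ hSc (by rw [compl_compl, compl_compl]; exact hS)
  refine ⟨⟨⟨e, e.injective⟩, ?_⟩⟩
  intro i j
  show G.Adj (e i) (e j) ↔ H.Adj i j
  have h1 := e.map_adj_iff (v := i) (w := j)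
  by_cases hij : i = j
  · subst hij; simp
  · simp only [SimpleGraph.compl_adj, ne_eq, e.injective.eq_iff, hij, not_false_eq_true,
      true_and] at h1
    exact not_iff_not.1 h1

theorem rich_embeds (h : Rich G) : EmbedsSplit G ∨ (EmbedsBipartite G ∧ EmbedsBipartite Gᶜ) := by
  rcases dich' h with h1 | h1
  · exact Or.inl (embedsSplit_of h1)
  · rcases dich' h.compl with h2 | h2
    · exact Or.inl (embedsSplit_of h2).of_compl
    · exact Or.inr ⟨embedsBipartite_of h1, embedsBipartite_of h2⟩

end Run7.h901
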