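import Pool.Agent.Run7.h901.Rc

/-!
Lemma S: over an independent set of size `n`, every number `0 ≤ j ≤ n` of neighbours occurs.
-/

open scoped Classical

namespace Run7.h901

universe u
variable {V : Type u} {G : SimpleGraph V}

theorem filter_adj_image (φ : G ≃g G) (M : Finset V) (v : V) :
    (M.image φ).filter (fun z => G.Adj (φ v) z) = (M.filter (fun z => G.Adj v z)).image φ := by
  ext w
  simp only [Finset.mem_filter, Finset.mem_image]
  constructor
  · rintro ⟨⟨z, hz, rfl⟩, hadj⟩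
    exact ⟨z, ⟨hz, φ.map_adj_iff.1 hadj⟩, rfl⟩
  · rintro ⟨z, ⟨hz, hadj⟩, rfl⟩
    exact ⟨⟨z, hz, rfl⟩, φ.map_adj_iff.2 hadj⟩

theorem filter_nadj_image (φ : G ≃g G) (M : Finset V) (v : V) :
    (M.image φ).filter (fun z => ¬ G.Adj (φ v) z) = (M.filter (fun z => ¬ G.Adj v z)).image φ := by
  ext w
  simp only [Finset.mem_filter, Finset.mem_image]
  constructor
  · rintro ⟨⟨z, hz, rfl⟩, hadj⟩
    exact ⟨z, ⟨hz, fun h => hadj (φ.map_adj_iff.2 h)⟩, rfl⟩
  · rintro ⟨z, ⟨hz, hadj⟩, rfl⟩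
    exact ⟨⟨z, hz, rfl⟩, fun h => hadj (φ.map_adj_iff.1 h)⟩

theorem card_filter_adj_image (φ : G ≃g G) (M : Finset V) (v : V) :
    ((M.image φ).filter (fun z => G.Adj (φ v) z)).card = (M.filter (fun z => G.Adj v z)).card := by
  rw [filter_adj_image, Finset.card_image_of_injective _ φ.injective]

theorem card_filter_nadj_image (φ : G ≃g G) (M : Finset V) (v : V) :
    ((M.image φ).filter (fun z => ¬ G.Adj (φ v) z)).card =
      (M.filter (fun z => ¬ G.Adj v z)).card := by
  rw [filter_nadj_image, Finset.card_image_of_injective _ φ.injective]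

/-- few nonneighbours in `M`. -/
def Lg (G : SimpleGraph V) (t : ℕ) (M : Finset V) (v : V) : Prop :=
  (M.filter (fun z => ¬ G.Adj v z)).card < t

theorem Lg.image {t : ℕ} {M : Finset V} {v : V} (φ : G ≃g G) :
    Lg G t (M.image φ) (φ v) ↔ Lg G t M v := by
  unfold Lg
  rw [card_filter_nadj_image]

/-- **Lemma S.** -/
theorem lemS (h : Rich G) {L : Finset V} (hL : Indp G L) {s : ℕ} (hs : s ≤ L.card) :
    ∃ v, (L.filter (fun z => G.Adj v z)).card = s := by
  by_contra hno
  push Not at hno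
  obtain ⟨t, ht⟩ : ∃ t, L.card = s + t := ⟨L.card - s, by omega⟩
  obtain ⟨N, hN⟩ : ∃ N, L.card = N := ⟨_, rfl⟩
  have hNst : N = s + t := by omega
  have hall : ∀ M : Finset V, Indp G M → M.card = N → ∀ v,
      (M.filter (fun z => G.Adj v z)).card ≠ s := by
    intro M hM hMc v hv
    obtain ⟨φ, hφ⟩ := indp_conj' h.sh hL hM (by omega)
    apply hno (φ.symm v)
    rw [← card_filter_adj_image φ, hφ]
    simpa using hv
  have hsl : ∀ M : Finset V, Indp G M → N ≤ M.card → ∀ v,
      (M.filter (fun z => G.Adj v z)).card < s ∨ Lg G t M v := by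
    intro M hM hMc v
    unfold Lg
    by_contra hcon
    push Not at hcon
    obtain ⟨h1, h2⟩ := hcon
    obtain ⟨S, hS, hSc⟩ := Finset.exists_subset_card_eq h1
    obtain ⟨T, hT, hTc⟩ := Finset.exists_subset_card_eq h2
    have hST : Disjoint S T := by
      rw [Finset.disjoint_left]
      intro a ha hb
      exact (Finset.mem_filter.1 (hT hb)).2 (Finset.mem_filter.1 (hS ha)).2
    apply hall (S ∪ T) (hM.subset (Finset.union_subset (hS.trans (Finset.filter_subset _ _))
      (hT.trans (Finset.filter_subset _ _)))) (by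
      rw [Finset.card_union_of_disjoint hST]; omega) v
    have : (S ∪ T).filter (fun z => G.Adj v z) = S := by
      ext z
      rw [Finset.mem_filter, Finset.mem_union]
      constructor
      · rintro ⟨h1 | h1, h2⟩
        · exact h1
        · exact absurd h2 (Finset.mem_filter.1 (hT h1)).2
      · intro h1
        exact ⟨Or.inl h1, (Finset.mem_filter.1 (hS h1)).2⟩
    rw [this, hSc]
  have hsum : ∀ (M : Finset V) v, (M.filter (fun z => G.Adj v z)).card +
      (M.filter (fun z => ¬ G.Adj v z)).card = M.card := fun M v =>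
    Finset.card_filter_add_card_filter_not _
  have hmono : ∀ M K : Finset V, M ⊆ K → Indp G K → N ≤ M.card → ∀ v,
      Lg G t M v ↔ Lg G t K v := by
    intro M K hMK hK hMc v
    constructor
    · intro h1
      rcases hsl K hK (hMc.trans (Finset.card_le_card hMK)) v with h2 | h2
      · exfalso
        have h3 := Finset.card_le_card (Finset.filter_subset_filter (fun z => G.Adj v z) hMK)
        have h4 := hsum M v
        unfold Lg at h1
        omega
      · exact h2
    · intro h1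
      exact (Finset.card_le_card (Finset.filter_subset_filter (fun z => ¬ G.Adj v z) hMK)).trans_lt
        h1
  let E : Finset V → Finset V → Prop := fun M M' => ∀ v, Lg G t M v ↔ Lg G t M' v
  have Etrans : ∀ {A B C : Finset V}, E A B → E B C → E A C := fun h1 h2 v => (h1 v).trans (h2 v)
  have Esymm : ∀ {A B : Finset V}, E A B → E B A := fun h1 v => (h1 v).symm
  let P : ℕ → Prop := fun τ => ∃ M M' : Finset V, Indp G M ∧ Indp G M' ∧ N ≤ M.card ∧
    N ≤ M'.card ∧ ¬ E M M' ∧ (M ∩ M').card = τ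
  have hPlt : ∀ τ, P τ → τ < N := by
    rintro τ ⟨M, M', hM, hM', hMc, hMc', hne, hτ⟩
    by_contra hlt
    push Not at hlt
    apply hne
    exact Etrans (Esymm (hmono _ _ Finset.inter_subset_left hM (by omega)))
      (hmono _ _ Finset.inter_subset_right hM' (by omega))
  have hPex : ∃ τ, P τ := by
    obtain ⟨C, hC⟩ := h.cl 1
    obtain ⟨v, rfl⟩ := SimpleGraph.isNClique_one.1 hC
    obtain ⟨M, hM, hMc, hMv⟩ := h.indep_above hC N
    have hv : Indp G {v} := by
      intro x hx y hy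
      rw [Finset.mem_singleton] at hx hy
      rw [hx, hy]; exact G.irrefl
    obtain ⟨M', hM', hMc', hMv'⟩ := h.compl.rch.extend N hv.nclique |>.imp (fun Q hQ =>
      (⟨indp_of_nclique hQ.1, hQ.1.2, hQ.2⟩ : Indp G Q ∧ Q.card = N ∧ ∀ q ∈ Q, q ∈ cn Gᶜ {v}))
    refine ⟨_, M, M', hM, hM', hMc.ge, hMc'.ge, ?_, rfl⟩
    intro hE
    have h1 : Lg G t M v := by
      rcases hsl M hM hMc.ge v with h1 | h1
      · exfalso
        have : M.filter (fun z => G.Adj v z) = M := by
          apply Finset.filter_true_of_mem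
          intro z hz
          exact (hMv z hz v (by simp)).symm
        rw [this] at h1
        omega
      · exact h1
    have h2 := (hE v).1 h1
    unfold Lg at h2
    have : M'.filter (fun z => ¬ G.Adj v z) = M' := by
      apply Finset.filter_true_of_mem
      intro z hz hadj
      exact (hMv' z hz v (by simp)).2 hadj.symm
    rw [this] at h2
    omega
  obtain ⟨τ, hτ, hmax⟩ : ∃ τ, P τ ∧ ∀ σ, P σ → σ ≤ τ := by
    obtain ⟨τ0, hτ0⟩ := hPex
    exact ⟨Nat.findGreatest P N, Nat.findGreatest_spec (hPlt _ hτ0).le hτ0,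
      fun σ hσ => Nat.le_findGreatest (hPlt _ hσ).le hσ⟩
  have hτN := hPlt τ hτ
  obtain ⟨M, M', hM, hM', hMc, hMc', hne, hcard⟩ := hτ
  obtain ⟨T, hT⟩ : ∃ T, M ∩ M' = T := ⟨_, rfl⟩
  rw [hT] at hcard
  have hTM : T ⊆ M := hT ▸ Finset.inter_subset_left
  have hTM' : T ⊆ M' := hT ▸ Finset.inter_subset_right
  have hTi : Indp G T := hM.subset hTM
  have hcls : ∀ x, (∀ z ∈ T, Gᶜ.Adj x z) → ∀ M1 M2 : Finset V, Indp G M1 → Indp G M2 →
      N ≤ M1.card → N ≤ M2.card → insert x T ⊆ M1 → insert x T ⊆ M2 → E M1 M2 := by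
    intro x hx M1 M2 h1 h2 h3 h4 h5 h6
    by_contra hE
    have h7 := hmax _ ⟨M1, M2, h1, h2, h3, h4, hE, rfl⟩
    have h8 := Finset.card_le_card (Finset.subset_inter h5 h6)
    rw [Finset.card_insert_of_notMem (fun h9 => (hx x h9).1 rfl)] at h8
    omega
  have hnon : ∀ x x', (∀ z ∈ T, Gᶜ.Adj x z) → (∀ z ∈ T, Gᶜ.Adj x' z) → ¬ G.Adj x x' →
      ∀ M1 M2 : Finset V, Indp G M1 → Indp G M2 →
      N ≤ M1.card → N ≤ M2.card → insert x T ⊆ M1 → insert x' T ⊆ M2 → E M1 M2 := by
    intro x x' hx hx' hadj M1 M2 h1 h2 h3 h4 h5 h6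
    have hind : Indp G (insert x (insert x' T)) := by
      apply (hTi.insert (fun z hz => (hx' z hz).2)).insert
      intro z hz
      rcases Finset.mem_insert.1 hz with rfl | hz
      · exact hadj
      · exact (hx z hz).2
    obtain ⟨K, hK1, hK2, hK3⟩ := h.indp_extend hind N
    have hKN : N ≤ K.card := by omega
    exact Etrans (hcls x hx M1 K h1 hK2 h3 hKN h5 (by
        intro z hz; apply hK1
        rcases Finset.mem_insert.1 hz with rfl | hz
        · simp
        · simp [hz]))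
      (Esymm (hcls x' hx' M2 K h2 hK2 h4 hKN h6 (by
        intro z hz; apply hK1
        rcases Finset.mem_insert.1 hz with rfl | hz
        · simp
        · simp [hz])))
  obtain ⟨x, hxM, hxT⟩ := Finset.exists_mem_notMem_of_card_lt_card (show T.card < M.card by omega)
  obtain ⟨x', hxM', hxT'⟩ :=
    Finset.exists_mem_notMem_of_card_lt_card (show T.card < M'.card by omega)
  have offx : ∀ z ∈ T, Gᶜ.Adj x z := fun z hz =>
    hM.adj_compl hxM (hTM hz) (by rintro rfl; exact hxT hz)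
  have offx' : ∀ z ∈ T, Gᶜ.Adj x' z := fun z hz =>
    hM'.adj_compl hxM' (hTM' hz) (by rintro rfl; exact hxT' hz)
  have hsub : insert x T ⊆ M := Finset.insert_subset hxM hTM
  have hsub' : insert x' T ⊆ M' := Finset.insert_subset hxM' hTM'
  have hadj : G.Adj x x' := by
    by_contra hn
    exact hne (hnon x x' offx offx' hn M M' hM hM' hMc hMc' hsub hsub')
  have Eimg : ∀ (φ : G ≃g G) (A B : Finset V), E (A.image φ) (B.image φ) → E A B := by
    intro φ A B hE v
    have := hE (φ v)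
    rwa [Lg.image, Lg.image] at this
  have hedge : ∀ y y', (∀ z ∈ T, Gᶜ.Adj y z) → (∀ z ∈ T, Gᶜ.Adj y' z) → G.Adj y y' →
      ∀ M1 M2 : Finset V, Indp G M1 → Indp G M2 →
      N ≤ M1.card → N ≤ M2.card → insert y T ⊆ M1 → insert y' T ⊆ M2 → ¬ E M1 M2 := by
    intro y y' hy hy' hyy M1 M2 h1 h2 h3 h4 h5 h6 hE
    obtain ⟨ψ, k1, k2⟩ := K2F0 h.sh hadj hyy hTi hTi rfl (far_pair offx offx') (far_pair hy hy')
    apply hne
    apply Eimg ψ
    have c1 : N ≤ (M.image ψ).card := by
      rwa [Finset.card_image_of_injective _ ψ.injective]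
    have c2 : N ≤ (M'.image ψ).card := by
      rwa [Finset.card_image_of_injective _ ψ.injective]
    have s1 : insert (ψ x) T ⊆ M.image ψ := by
      rw [← k1, ← Finset.image_insert]; exact Finset.image_subset_image hsub
    have s2 : insert (ψ x') T ⊆ M'.image ψ := by
      rw [← k1, ← Finset.image_insert]; exact Finset.image_subset_image hsub'
    rcases k2 with ⟨e1, e2⟩ | ⟨e1, e2⟩
    · rw [e1] at s1
      rw [e2] at s2
      exact Etrans (hcls y hy _ M1 (hM.image ψ) h1 c1 h3 s1 h5)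
        (Etrans hE (hcls y' hy' M2 _ h2 (hM'.image ψ) h4 c2 h6 s2))
    · rw [e1] at s1
      rw [e2] at s2
      exact Etrans (hcls y' hy' _ M2 (hM.image ψ) h2 c1 h4 s1 h6)
        (Etrans (Esymm hE) (hcls y hy M1 _ h1 (hM'.image ψ) h3 c2 h5 s2))
  apply h.compl.not_bdd (τ + 1) 1
  intro C hC I hI hIC
  have hCx : Gᶜ.IsNClique (τ + 1) (insert x T) := by
    have h1 : Gᶜ.IsNClique τ T := hcard ▸ hTi.nclique
    exact insert_clique h1 (v := x) offx
  obtain ⟨I', hI', hIc', hIC'⟩ := indp_conj h.compl.sh hC hCx hI hIC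
  by_contra hlt
  push Not at hlt
  obtain ⟨a, ha, b, hb, hab⟩ := Finset.one_lt_card.1 (show 1 < I'.card by omega)
  have hab' : G.Adj a b := by
    by_contra hn
    exact hI' a ha b hb ⟨hab, hn⟩
  have ha2 := mem_cn_insert.1 (hIC' a ha)
  have hb2 := mem_cn_insert.1 (hIC' b hb)
  have hext : ∀ y, (∀ z ∈ T, Gᶜ.Adj y z) → ∃ K : Finset V, insert y T ⊆ K ∧ Indp G K ∧
      N ≤ K.card := by
    intro y hy
    obtain ⟨K, h1, h2, h3⟩ := h.indp_extend (hTi.insert (fun z hz => (hy z hz).2)) N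
    exact ⟨K, h1, h2, by omega⟩
  obtain ⟨Ka, a1, a2, a3⟩ := hext a ha2.2
  obtain ⟨Kb, b1, b2, b3⟩ := hext b hb2.2
  apply hedge a b ha2.2 hb2.2 hab' Ka Kb a2 b2 a3 b3 a1 b1
  exact Etrans (hnon a x ha2.2 offx ha2.1.2 Ka M a2 hM a3 hMc a1 hsub)
    (Esymm (hnon b x hb2.2 offx hb2.1.2 Kb M b2 hM b3 hMc b1 hsub))

theorem lemS' (h : Rich G) {L : Finset V} (hL : Indp G L) {s : ℕ} (hs : s ≤ L.card) :
    ∃ v, ∃ F ⊆ L, F.card = s ∧ ∀ z ∈ L, G.Adj v z ↔ z ∈ F := by
  obtain ⟨v, hv⟩ := lemS h hL hs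
  exact ⟨v, _, Finset.filter_subset _ _, hv, fun z hz => by simp [hz]⟩

end Run7.h901
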