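import Pool.Agent.Run7.h901.LP3

/-!
Pointwise stabilisers of independent sets are transitive on the common non-neighbourhood.
-/

open scoped Classical

namespace Run7.h901

universe u
variable {V : Type u} {G : SimpleGraph V}

/-- big cliques through the elements of an independent set. -/
theorem big_clique (h : Rich G) {L : Finset V} (hL : Indp G L) {z : V} (hz : z ∈ L) {s : ℕ}
    (hs : 2 ≤ s) : ∃ Q : Finset V, G.IsNClique s Q ∧ z ∈ Q ∧ ∀ q ∈ Q, ∀ y ∈ L.erase z,
      Gᶜ.Adj q y := by
  have hJ := hL.subset (Finset.erase_subset z L)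
  obtain ⟨Q, hQ, hQJ⟩ := h.clique_off hJ s
  obtain ⟨q0, q1, h0, h1, h01⟩ := Finset.one_lt_card_iff.1 (show 1 < Q.card by rw [hQ.2]; omega)
  obtain ⟨u, hu1, hu2⟩ := (full h _ L hL rfl z hz).off hL hz
  obtain ⟨φ, hφJ, hφ⟩ := F3 h hJ hJ rfl (hQ.1 h0 h1 h01) hu1.symm (fun j hj => hQJ q0 h0 j hj)
    (fun j hj => hQJ q1 h1 j hj)
    (fun j hj => hL.adj_compl hz (Finset.mem_of_mem_erase hj) (Finset.ne_of_mem_erase hj).symm) hu2
  refine ⟨Q.image φ, ⟨?_, ?_⟩, ?_, ?_⟩
  · intro x hx y hy hxy
    rw [Finset.mem_coe, Finset.mem_image] at hx hy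
    obtain ⟨x, hx, rfl⟩ := hx
    obtain ⟨y, hy, rfl⟩ := hy
    rw [φ.map_adj_iff]
    apply hQ.1 hx hy
    rintro rfl
    exact hxy rfl
  · rw [Finset.card_image_of_injective _ φ.injective, hQ.2]
  · rw [← hφ]; exact Finset.mem_image_of_mem _ h0
  · intro q hq y hy
    rw [← hφJ, Finset.mem_image] at hy
    obtain ⟨y, hy, rfl⟩ := hy
    rw [Finset.mem_image] at hq
    obtain ⟨q, hq, rfl⟩ := hq
    rw [compl_adj_map]
    exact hQJ q hq y hy

theorem FIso.insert_off {a b : V} {U : Finset V} (ha : ∀ u ∈ U, Gᶜ.Adj a u)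
    (hb : ∀ u ∈ U, Gᶜ.Adj b u) : FIso G (insert a U) (insert b U) := by
  have hau : a ∉ U := fun h => (ha a h).1 rfl
  have hbu : b ∉ U := fun h => (hb b h).1 rfl
  have hf : ∀ u ∈ U, (if u = a then b else u) = u := by
    intro u hu
    rw [if_neg]
    rintro rfl
    exact hau hu
  refine ⟨fun v => if v = a then b else v, ?_, ?_, ?_⟩
  · intro x hx y hy hxy
    rw [Finset.mem_coe, Finset.mem_insert] at hx hy
    rcases hx with rfl | hx <;> rcases hy with rfl | hy
    · rfl
    · simp only [if_true] at hxy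
      rw [hf y hy] at hxy
      rw [hxy] at hbu
      exact absurd hy hbu
    · simp only [if_true] at hxy
      rw [hf x hx] at hxy
      rw [← hxy] at hbu
      exact absurd hx hbu
    · simp only [hf x hx, hf y hy] at hxy
      exact hxy
  · rw [Finset.image_insert, if_pos rfl]
    congr 1
    ext v
    rw [Finset.mem_image]
    exact ⟨fun ⟨w, hw, hwv⟩ => by rw [← hwv, hf w hw]; exact hw, fun hv => ⟨v, hv, hf v hv⟩⟩
  · intro x hx y hy
    rw [Finset.mem_insert] at hx hy
    rcases hx with rfl | hx <;> rcases hy with rfl | hy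
    · simp
    · simp only [if_true, hf y hy]
      exact ⟨fun h => absurd h (hb y hy).2, fun h => absurd h (ha y hy).2⟩
    · simp only [if_true, hf x hx]
      exact ⟨fun h => absurd h.symm (hb x hx).2, fun h => absurd h.symm (ha x hx).2⟩
    · simp only [hf x hx, hf y hy]

/-- replacing representatives. -/
theorem rep (h : Rich G) (s : Finset ℕ) (p w : ℕ → V)
    (h1 : ∀ c ∈ s, p c = w c ∨ G.Adj (p c) (w c))
    (h2 : ∀ c ∈ s, ∀ d ∈ s, c ≠ d → Gᶜ.Adj (p c) (p d) ∧ Gᶜ.Adj (p c) (w d) ∧
      Gᶜ.Adj (w c) (p d) ∧ Gᶜ.Adj (w c) (w d)) :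
    ∃ ψ : G ≃g G, ∀ c ∈ s, ψ (p c) = w c := by
  suffices key : ∀ t ⊆ s, ∃ ψ : G ≃g G, ∀ c ∈ s, ψ (p c) = if c ∈ t then w c else p c by
    obtain ⟨ψ, hψ⟩ := key s (Finset.Subset.refl s)
    exact ⟨ψ, fun c hc => by rw [hψ c hc, if_pos hc]⟩
  intro t
  induction t using Finset.induction_on with
  | empty => exact fun _ => ⟨SimpleGraph.Iso.refl, fun c _ => by simp⟩
  | insert c t hct ih =>
    intro hts
    obtain ⟨ψ, hψ⟩ := ih ((Finset.subset_insert _ _).trans hts)
    have hcs : c ∈ s := hts (Finset.mem_insert_self _ _)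
    rcases h1 c hcs with he | hadj
    · refine ⟨ψ, fun d hd => ?_⟩
      rw [hψ d hd]
      by_cases hdc : d = c
      · subst hdc
        simp [he]
      · simp [hdc]
    · let J : Finset V := (s.erase c).image (fun d => if d ∈ t then w d else p d)
      have hJ : Indp G J := by
        intro x hx y hy
        rw [Finset.mem_image] at hx hy
        obtain ⟨i, hi, rfl⟩ := hx
        obtain ⟨j, hj, rfl⟩ := hy
        rw [Finset.mem_erase] at hi hj
        by_cases hij : i = j
        · subst hij; exact G.irrefl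
        · obtain ⟨k1, k2, k3, k4⟩ := h2 i hi.2 j hj.2 hij
          split_ifs
          · exact k4.2
          · exact k3.2
          · exact k2.2
          · exact k1.2
      obtain ⟨φ, k1, k2⟩ := F4 h hJ hadj
        (by
          intro j hj
          rw [Finset.mem_image] at hj
          obtain ⟨d, hd, rfl⟩ := hj
          rw [Finset.mem_erase] at hd
          obtain ⟨k1, k2, k3, k4⟩ := h2 c hcs d hd.2 hd.1.symm
          split_ifs
          · exact k2
          · exact k1)
        (by
          intro j hj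
          rw [Finset.mem_image] at hj
          obtain ⟨d, hd, rfl⟩ := hj
          rw [Finset.mem_erase] at hd
          obtain ⟨k1, k2, k3, k4⟩ := h2 c hcs d hd.2 hd.1.symm
          split_ifs
          · exact k4
          · exact k3)
      refine ⟨ψ.trans φ, fun d hd => ?_⟩
      show φ (ψ (p d)) = _
      rw [hψ d hd]
      by_cases hdc : d = c
      · subst hdc
        rw [if_neg hct, k2, if_pos (Finset.mem_insert_self _ _)]
      · rw [k1 _ (Finset.mem_image_of_mem (fun d => if d ∈ t then w d else p d)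
          (Finset.mem_erase.2 ⟨hdc, hd⟩))]
        simp [hdc]

/-- a separated pair. -/
def Sep (G : SimpleGraph V) (L : Finset V) (x y : V) : Prop :=
  x ∈ L ∧ y ∈ L ∧ x ≠ y ∧ ¬ Eqv G ((L.erase x).erase y) x y

theorem Sep.symm {L : Finset V} {x y : V} (h : Sep G L x y) : Sep G L y x := by
  obtain ⟨h1, h2, h3, h4⟩ := h
  refine ⟨h2, h1, h3.symm, fun h5 => h4 ?_⟩
  rw [Finset.erase_right_comm]
  exact h5.symm

theorem Sep.image {L : Finset V} {x y : V} (φ : G ≃g G) (h : Sep G L x y) :
    Sep G (L.image φ) (φ x) (φ y) := by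
  obtain ⟨h1, h2, h3, h4⟩ := h
  refine ⟨Finset.mem_image_of_mem _ h1, Finset.mem_image_of_mem _ h2, φ.injective.ne h3,
    fun h5 => h4 ?_⟩
  have := h5.map φ.symm
  rw [← Finset.image_erase φ.injective, ← Finset.image_erase φ.injective, Finset.image_image] at this
  have h6 : ((φ.symm : V → V) ∘ (φ : V → V)) = id := by ext v; simp
  rw [h6, Finset.image_id] at this
  simpa using this

theorem pos_lt_pos {r : V → ℕ} {S : Finset V} {a b : V} (ha : a ∈ S) (h : r a < r b) :
    pos r S a < pos r S b := by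
  have := pos_mono ha h
  omega

theorem pos_inj {r : V → ℕ} {S : Finset V} (hr : Set.InjOn r S) {a b : V} (ha : a ∈ S)
    (hb : b ∈ S) (h : pos r S a = pos r S b) : a = b := by
  by_contra hne
  have h1 : r a ≠ r b := fun h => hne (hr ha hb h)
  rcases lt_or_gt_of_ne h1 with h2 | h2
  · have := pos_lt_pos ha h2; omega
  · have := pos_lt_pos hb h2; omega

/-- an increasing enumeration. -/
theorem exists_enum {r : V → ℕ} {L : Finset V} (hr : Set.InjOn r L) (hne : L.Nonempty) :
    ∃ g : ℕ → V, (∀ i, g i ∈ L) ∧ ∀ i j, i < j → j < L.card → r (g i) < r (g j) := by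
  obtain ⟨v0, hv0⟩ := hne
  have hc : (L.image r).card = L.card := Finset.card_image_of_injOn hr
  have hex : ∀ i : ℕ, ∃ v ∈ L, ∀ hi : i < L.card, r v = (L.image r).orderEmbOfFin hc ⟨i, hi⟩ := by
    intro i
    by_cases hi : i < L.card
    · have := (L.image r).orderEmbOfFin_mem hc ⟨i, hi⟩
      rw [Finset.mem_image] at this
      obtain ⟨v, hv, hrv⟩ := this
      exact ⟨v, hv, fun _ => hrv⟩
    · exact ⟨v0, hv0, fun h => absurd h hi⟩
  choose g hg1 hg2 using hex
  refine ⟨g, hg1, fun i j hij hj => ?_⟩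
  rw [hg2 i (hij.trans hj), hg2 j hj]
  exact ((L.image r).orderEmbOfFin hc).strictMono (Fin.mk_lt_mk.2 hij)

/-- positions in index space. -/
theorem pos_enum {r : V → ℕ} {g : ℕ → V} {N : ℕ} (hg : ∀ i j, i < j → j < N → r (g i) < r (g j))
    {T : Finset ℕ} (hT : ∀ i ∈ T, i < N) {i : ℕ} (hi : i < N) :
    pos r (T.image g) (g i) = (T.filter (fun j => j < i)).card := by
  have hlt : ∀ j ∈ T, (r (g j) < r (g i) ↔ j < i) := by
    intro j hj
    constructor
    · intro h1
      by_contra h2
      push Not at h2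
      rcases h2.eq_or_lt with h3 | h3
      · rw [h3] at h1; exact lt_irrefl _ h1
      · have := hg i j h3 (hT j hj); omega
    · intro h1
      exact hg j i h1 hi
  have hinj : Set.InjOn g T := by
    intro a ha b hb hab
    by_contra hne
    rcases lt_or_gt_of_ne hne with h2 | h2
    · have := hg a b h2 (hT b hb); rw [hab] at this; exact lt_irrefl _ this
    · have := hg b a h2 (hT a ha); rw [hab] at this; exact lt_irrefl _ this
  unfold pos
  have : (T.image g).filter (fun z => r z < r (g i)) = (T.filter (fun j => j < i)).image g := by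
    ext z
    simp only [Finset.mem_filter, Finset.mem_image]
    constructor
    · rintro ⟨⟨j, hj, rfl⟩, h2⟩
      exact ⟨j, ⟨hj, (hlt j hj).1 h2⟩, rfl⟩
    · rintro ⟨j, ⟨hj, h2⟩, rfl⟩
      exact ⟨⟨j, hj, rfl⟩, (hlt j hj).2 h2⟩
  rw [this, Finset.card_image_of_injOn (hinj.mono (by
    intro j hj
    exact (Finset.mem_filter.1 hj).1))]

end Run7.h901
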