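import Pool.Agent.Run7.h901.LSym

/-!
Symmetry over independent sets.
-/

open scoped Classical

namespace Run7.h901

universe u
variable {V : Type u} {G : SimpleGraph V}

theorem rank_const (h : Rich G) {m N : ℕ} (hm : 2 ≤ m)
    (hsep : ∀ L : Finset V, Indp G L → L.card = m → ∃ a b, Sep G L a b) :
    ∃ (g : ℕ → V) (L : Finset V) (a b : ℕ), Indp G L ∧ (∀ i, i < N → g i ∈ L) ∧
      (∀ i j, i < j → j < N → g i ≠ g j) ∧ a < b ∧ b < m ∧
      ∀ T : Finset ℕ, (∀ i ∈ T, i < N) → T.card = m → ∀ i ∈ T, ∀ j ∈ T,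
        (T.filter (fun t => t < i)).card = a → (T.filter (fun t => t < j)).card = b →
        Sep G (T.image g) (g i) (g j) := by
  obtain ⟨R, hR⟩ := ramseyV.{u} (Fin m × Fin m) m (N + m)
  obtain ⟨I, hI, hIc⟩ := h.ind R
  obtain ⟨r, hr⟩ := exists_rank I
  have hcol : ∀ S : Finset V, ∃ c : Fin m × Fin m, S ⊆ I → S.card = m →
      ∃ a b, Sep G S a b ∧ pos r S a = c.1 ∧ pos r S b = c.2 ∧ pos r S a < pos r S b := by
    intro S
    by_cases hS : S ⊆ I ∧ S.card = m
    · obtain ⟨a, b, hab, hlt⟩ : ∃ a b, Sep G S a b ∧ r a < r b := by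
        obtain ⟨a, b, hab⟩ := hsep S (hI.subset hS.1) hS.2
        have hne : r a ≠ r b := fun h => hab.2.2.1 (hr (hS.1 hab.1) (hS.1 hab.2.1) h)
        rcases lt_or_gt_of_ne hne with h1 | h1
        · exact ⟨a, b, hab, h1⟩
        · exact ⟨b, a, hab.symm, h1⟩
      exact ⟨(⟨pos r S a, by rw [← hS.2]; exact pos_lt hab.1⟩,
        ⟨pos r S b, by rw [← hS.2]; exact pos_lt hab.2.1⟩), fun _ _ =>
        ⟨a, b, hab, rfl, rfl, pos_lt_pos hab.1 hlt⟩⟩
    · exact ⟨(⟨0, by omega⟩, ⟨0, by omega⟩), fun h1 h2 => absurd ⟨h1, h2⟩ hS⟩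
  choose c hc using hcol
  obtain ⟨L, hLI, hLc, col, hcol⟩ := hR I c hIc.ge
  obtain ⟨g, hg1, hg2⟩ := exists_enum (r := r) (L := L) (hr.mono (by exact_mod_cast hLI))
    (by rw [← Finset.card_pos]; omega)
  have hg3 : ∀ i j, i < j → j < N → r (g i) < r (g j) := fun i j hij hj => hg2 i j hij (by omega)
  have hcol' : ∀ S ⊆ L, S.card = m → ∃ a b, Sep G S a b ∧ pos r S a = col.1 ∧
      pos r S b = col.2 ∧ pos r S a < pos r S b := by
    intro S hS hSc
    have h1 := hc S (hS.trans hLI) hSc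
    rw [hcol S hS hSc] at h1
    exact h1
  have hginj : ∀ i j, i < j → j < N → g i ≠ g j := fun i j hij hj he => by
    have := hg3 i j hij hj
    rw [he] at this
    exact lt_irrefl _ this
  have hab : (col.1 : ℕ) < col.2 := by
    obtain ⟨S, hS, hSc⟩ := Finset.exists_subset_card_eq (s := L) (n := m) (by omega)
    obtain ⟨a, b, -, h1, h2, h3⟩ := hcol' S hS hSc
    omega
  refine ⟨g, L, col.1, col.2, hI.subset hLI, fun i _ => hg1 i, hginj, hab, col.2.2, ?_⟩
  intro T hT hTc i hi j hj hia hjb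
  have hinj : Set.InjOn g T := by
    intro s hs t ht hst
    by_contra hne
    rcases lt_or_gt_of_ne hne with h2 | h2
    · exact hginj s t h2 (hT t ht) hst
    · exact hginj t s h2 (hT s hs) hst.symm
  have hSL : T.image g ⊆ L := by
    intro v hv
    rw [Finset.mem_image] at hv
    obtain ⟨t, -, rfl⟩ := hv
    exact hg1 t
  have hSc : (T.image g).card = m := by rw [Finset.card_image_of_injOn hinj, hTc]
  obtain ⟨a', b', hab', h1, h2, -⟩ := hcol' _ hSL hSc
  have hrS : Set.InjOn r (T.image g : Finset V) := hr.mono (by exact_mod_cast hSL.trans hLI)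
  have e1 : a' = g i := by
    apply pos_inj hrS hab'.1 (Finset.mem_image_of_mem _ hi)
    rw [h1, pos_enum hg3 hT (hT i hi), hia]
  have e2 : b' = g j := by
    apply pos_inj hrS hab'.2.1 (Finset.mem_image_of_mem _ hj)
    rw [h2, pos_enum hg3 hT (hT j hj), hjb]
  rwa [e1, e2] at hab'

/-- index sets with prescribed positions of `i < j`. -/
theorem idx_set {m a b i j K : ℕ} (hab : a < b) (hb : b < m) (hi : m ≤ i) (hij : i + m < j)
    (hj : j < K) : ∃ T : Finset ℕ, T.card = m ∧ i ∈ T ∧ j ∈ T ∧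
      (T.filter (fun t => t < i)).card = a ∧ (T.filter (fun t => t < j)).card = b ∧
      ∀ t ∈ T, t < m ∨ (i ≤ t ∧ t < i + m) ∨ t = j ∨ (K ≤ t ∧ t < K + m) := by
  refine ⟨((Finset.range a ∪ Finset.Ico i (i + (b - a))) ∪ {j}) ∪ Finset.Ico K (K + (m - 1 - b)),
    ?_, ?_, ?_, ?_, ?_, ?_⟩
  · rw [Finset.card_union_of_disjoint, Finset.card_union_of_disjoint,
      Finset.card_union_of_disjoint]
    · simp; omega
    · rw [Finset.disjoint_left]; intro t; simp; omega
    · rw [Finset.disjoint_left]; intro t; simp; omega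
    · rw [Finset.disjoint_left]; intro t; simp; omega
  · simp; omega
  · simp
  · have : (((Finset.range a ∪ Finset.Ico i (i + (b - a))) ∪ {j}) ∪
        Finset.Ico K (K + (m - 1 - b))).filter (fun t => t < i) = Finset.range a := by
      ext t; simp; omega
    rw [this, Finset.card_range]
  · have : (((Finset.range a ∪ Finset.Ico i (i + (b - a))) ∪ {j}) ∪
        Finset.Ico K (K + (m - 1 - b))).filter (fun t => t < j) =
        Finset.range a ∪ Finset.Ico i (i + (b - a)) := by
      ext t; simp; omega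
    rw [this, Finset.card_union_of_disjoint]
    · simp; omega
    · rw [Finset.disjoint_left]; intro t; simp; omega
  · intro t ht
    simp at ht
    omega

/-- **Symmetry.** -/
theorem sym (h : Rich G) {J : Finset V} (hJ : Indp G J) {x y : V} (hx : ∀ j ∈ J, Gᶜ.Adj x j)
    (hy : ∀ j ∈ J, Gᶜ.Adj y j) : Eqv G J x y := by
  by_contra hno
  have hxy : Gᶜ.Adj x y := by
    refine ⟨?_, ?_⟩
    · rintro rfl; exact hno (Eqv.refl _ _)
    · intro hadj; exact hno (F4 h hJ hadj hx hy)
  have hxJ : x ∉ J := fun hm => (hx x hm).1 rfl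
  have hyJ : y ∉ J := fun hm => (hy y hm).1 rfl
  obtain ⟨m, hm⟩ : ∃ m, J.card + 2 = m := ⟨_, rfl⟩
  have hL0 : Indp G (insert x (insert y J)) := by
    apply (hJ.insert (fun z hz => (hy z hz).2)).insert
    intro z hz
    rcases Finset.mem_insert.1 hz with rfl | hz
    · exact hxy.2
    · exact (hx z hz).2
  have hxy' : x ∉ insert y J := by
    rw [Finset.mem_insert]
    rintro (h1 | h1)
    · exact hxy.1 h1
    · exact hxJ h1
  have hL0c : (insert x (insert y J)).card = m := by
    rw [Finset.card_insert_of_notMem hxy', Finset.card_insert_of_notMem hyJ, ← hm]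
  have hS0 : Sep G (insert x (insert y J)) x y := by
    refine ⟨by simp, by simp, hxy.1, ?_⟩
    rw [Finset.erase_insert hxy', Finset.erase_insert hyJ]
    exact hno
  have hsep : ∀ L : Finset V, Indp G L → L.card = m → ∃ a b, Sep G L a b := by
    intro L hL hLc
    obtain ⟨φ, hφ⟩ := indp_conj' h.sh hL0 hL (by omega)
    exact ⟨φ x, φ y, hφ ▸ hS0.image φ⟩
  obtain ⟨K, hK⟩ : ∃ K, K = m * (m + 1) := ⟨_, rfl⟩
  let ι : ℕ → ℕ := fun c => c * (m + 1) + m
  have hι1 : ∀ c, m ≤ ι c := fun c => Nat.le_add_left _ _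
  have hι2 : ∀ c d, c < d → ι c + m < ι d := by
    intro c d hcd
    have : (c + 1) * (m + 1) ≤ d * (m + 1) := Nat.mul_le_mul_right _ hcd
    have h2 : (c + 1) * (m + 1) = c * (m + 1) + (m + 1) := by ring
    show c * (m + 1) + m + m < d * (m + 1) + m
    omega
  have hι3 : ∀ c, c < m → ι c < K := by
    intro c hc
    have : (c + 1) * (m + 1) ≤ m * (m + 1) := Nat.mul_le_mul_right _ hc
    have h2 : (c + 1) * (m + 1) = c * (m + 1) + (m + 1) := by ring
    show c * (m + 1) + m < K
    omega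
  clear_value ι
  obtain ⟨g, L, a, b, hL, hgL, hginj, hab, hbm, hT⟩ := rank_const h (m := m) (N := K + m)
    (by omega) hsep
  have hgi : ∀ i j, i < K + m → j < K + m → g i = g j → i = j := by
    intro i j hi hj hij
    by_contra hne
    rcases lt_or_gt_of_ne hne with h1 | h1
    · exact hginj i j h1 hj hij
    · exact hginj j i h1 hi hij.symm
  have hιinj : ∀ c d, ι c = ι d → c = d := by
    intro c d hcd
    by_contra hne
    rcases lt_or_gt_of_ne hne with h1 | h1
    · have := hι2 c d h1; omega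
    · have := hι2 d c h1; omega
  obtain ⟨z, hz⟩ : ∃ z : ℕ → V, z = fun c => g (ι c) := ⟨_, rfl⟩
  have hzc : ∀ c, z c = g (ι c) := fun c => by rw [hz]
  have hιN : ∀ c, c < m → ι c < K + m := fun c hc => (hι3 c hc).trans_le (Nat.le_add_right _ _)
  have hzL : ∀ c, c < m → z c ∈ L := fun c hc => by rw [hzc]; exact hgL _ (hιN c hc)
  have hzinj : ∀ c d, c < m → d < m → z c = z d → c = d := by
    intro c d hc hd hcd
    rw [hzc, hzc] at hcd
    exact hιinj c d (hgi _ _ (hιN c hc) (hιN d hd) hcd)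
  -- (2)
  obtain ⟨Z, hZ⟩ : ∃ Z : Finset V, Z = (Finset.range m).image z := ⟨_, rfl⟩
  have hSepZ : Sep G Z (z a) (z b) := by
    have hTi : ((Finset.range m).image ι).image g = Z := by
      rw [Finset.image_image, hZ, hz]
      rfl
    have hcnt : ∀ c, c < m → (((Finset.range m).image ι).filter (fun t => t < ι c)).card = c := by
      intro c hc
      have : ((Finset.range m).image ι).filter (fun t => t < ι c) = (Finset.range c).image ι := by
        ext t
        simp only [Finset.mem_filter, Finset.mem_image, Finset.mem_range]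
        constructor
        · rintro ⟨⟨d, hd, rfl⟩, hlt⟩
          refine ⟨d, ?_, rfl⟩
          by_contra hn
          push Not at hn
          rcases hn.eq_or_lt with h1 | h1
          · rw [h1] at hlt; omega
          · have := hι2 c d h1; omega
        · rintro ⟨d, hd, rfl⟩
          have := hι2 d c hd
          exact ⟨⟨d, by omega, rfl⟩, by omega⟩
      rw [this, Finset.card_image_of_injective _ (fun c d => hιinj c d), Finset.card_range]
    rw [← hTi, hzc, hzc]
    apply hT
    · intro t ht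
      rw [Finset.mem_image] at ht
      obtain ⟨c, hc, rfl⟩ := ht
      exact hιN c (Finset.mem_range.1 hc)
    · rw [Finset.card_image_of_injective _ (fun c d => hιinj c d), Finset.card_range]
    · exact Finset.mem_image_of_mem _ (Finset.mem_range.2 (by omega))
    · exact Finset.mem_image_of_mem _ (Finset.mem_range.2 hbm)
    · exact hcnt a (by omega)
    · exact hcnt b hbm
  -- (1)
  obtain ⟨M0, hM0⟩ : ∃ M0 : Finset V, M0 = L.filter (fun v => ∀ c, c < m → v ≠ z c) := ⟨_, rfl⟩
  have hM0L : M0 ⊆ L := by rw [hM0]; exact Finset.filter_subset _ _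
  have hsepM : ∀ c d, c < d → d < m → ¬ Eqv G M0 (z c) (z d) := by
    intro c d hcd hd hE
    obtain ⟨T, h1, h2, h3, h4, h5, h6⟩ := idx_set (i := ι c) (j := ι d) (K := K) hab hbm (hι1 c)
      (hι2 c d hcd) (hι3 d hd)
    have hcK := hι3 c (by omega)
    have hdK := hι3 d hd
    have hTN : ∀ t ∈ T, t < K + m := by
      intro t ht
      have := h6 t ht
      omega
    have hS := hT T hTN h1 (ι c) h2 (ι d) h3 h4 h5
    rw [← hzc, ← hzc] at hS
    apply hS.2.2.2
    apply hE.mono
    intro v hv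
    rw [Finset.mem_erase, Finset.mem_erase, Finset.mem_image] at hv
    obtain ⟨hvd, hvc, t, ht, rfl⟩ := hv
    rw [hM0, Finset.mem_filter]
    refine ⟨hgL t (hTN t ht), fun e he hte => ?_⟩
    rw [hzc] at hte
    have hte' := hgi _ _ (hTN t ht) (hιN e he) hte
    subst hte'
    have hec : e ≠ c := by rintro rfl; exact hvc (hzc _).symm
    have hed : e ≠ d := by rintro rfl; exact hvd (hzc _).symm
    have k1 := hι1 e
    have k2 := hι3 e he
    rcases h6 _ ht with h7 | h7 | h7 | h7
    · omega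
    · rcases lt_or_gt_of_ne hec with h8 | h8
      · have := hι2 e c h8; omega
      · have := hι2 c e h8; omega
    · exact hed (hιinj _ _ h7)
    · omega
  have hsepM' : ∀ c d, c < m → d < m → c ≠ d → ¬ Eqv G M0 (z c) (z d) := by
    intro c d hc hd hcd
    rcases lt_or_gt_of_ne hcd with h1 | h1
    · exact hsepM c d h1 hd
    · exact fun hE => hsepM d c h1 hc hE.symm
  -- big cliques
  have hQex : ∀ c, ∃ Q : Finset V, c < m → G.IsNClique (c + 2) Q ∧ z c ∈ Q ∧
      ∀ q ∈ Q, ∀ y ∈ L.erase (z c), Gᶜ.Adj q y := by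
    intro c
    by_cases hc : c < m
    · obtain ⟨Q, hQ⟩ := big_clique h hL (hzL c hc) (s := c + 2) (by omega)
      exact ⟨Q, fun _ => hQ⟩
    · exact ⟨∅, fun h => absurd h hc⟩
  choose Q hQ using hQex
  have hM0e : ∀ c, c < m → M0 ⊆ L.erase (z c) := by
    intro c hc v hv
    rw [hM0, Finset.mem_filter] at hv
    exact Finset.mem_erase.2 ⟨hv.2 c hc, hv.1⟩
  have hM0i : Indp G M0 := hL.subset hM0L
  have hQE : ∀ c, c < m → ∀ q ∈ Q c, Eqv G M0 q (z c) := by
    intro c hc q hq
    obtain ⟨k1, k2, k3⟩ := hQ c hc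
    by_cases hqz : q = z c
    · rw [hqz]; exact Eqv.refl _ _
    · exact F4 h hM0i (k1.1 hq k2 hqz) (fun j hj => k3 q hq j (hM0e c hc hj))
        (fun j hj => k3 _ k2 j (hM0e c hc hj))
  have cross : ∀ c d, c < m → d < m → c ≠ d → ∀ q ∈ Q c, ∀ q' ∈ Q d, Gᶜ.Adj q q' := by
    intro c d hc hd hcd q hq q' hq'
    have hE1 := hQE c hc q hq
    have hE2 := hQE d hd q' hq'
    refine ⟨?_, fun hadj => ?_⟩
    · rintro rfl
      exact hsepM' c d hc hd hcd (hE1.symm.trans hE2)
    · apply hsepM' c d hc hd hcd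
      refine (hE1.symm.trans ?_).trans hE2
      exact F4 h hM0i hadj (fun j hj => (hQ c hc).2.2 q hq j (hM0e c hc hj))
        (fun j hj => (hQ d hd).2.2 q' hq' j (hM0e d hd hj))
  obtain ⟨D, hD⟩ : ∃ D : Finset ℕ, D = ((Finset.range m).erase a).erase b := ⟨_, rfl⟩
  have hDm : ∀ c, c ∈ D ↔ c ≠ b ∧ c ≠ a ∧ c < m := by
    intro c; rw [hD, Finset.mem_erase, Finset.mem_erase, Finset.mem_range]
  obtain ⟨U, hU⟩ : ∃ U : Finset V, U = D.biUnion Q := ⟨_, rfl⟩
  have hUm : ∀ v, v ∈ U ↔ ∃ c ∈ D, v ∈ Q c := by intro v; rw [hU, Finset.mem_biUnion]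
  have ha : a < m := by omega
  have hzaU : ∀ u ∈ U, Gᶜ.Adj (z a) u := by
    intro u hu
    obtain ⟨c, hc, huc⟩ := (hUm u).1 hu
    have := (hDm c).1 hc
    exact cross a c ha this.2.2 this.2.1.symm _ (hQ a ha).2.1 u huc
  have hzbU : ∀ u ∈ U, Gᶜ.Adj (z b) u := by
    intro u hu
    obtain ⟨c, hc, huc⟩ := (hUm u).1 hu
    have := (hDm c).1 hc
    exact cross b c hbm this.2.2 this.1.symm _ (hQ b hbm).2.1 u huc
  obtain ⟨φ, hφ⟩ := (FIso.insert_off hzaU hzbU).conj h.sh
  have hcount : ∀ t, (∀ u ∈ U, Gᶜ.Adj t u) → ∀ d ∈ D, ∀ q ∈ Q d,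
      ((insert t U).filter (fun w => G.Adj q w)).card = d + 1 := by
    intro t ht d hd q hq
    have hd' := (hDm d).1 hd
    have : (insert t U).filter (fun w => G.Adj q w) = (Q d).erase q := by
      ext w
      rw [Finset.mem_filter, Finset.mem_insert, Finset.mem_erase]
      constructor
      · rintro ⟨rfl | hw, hadj⟩
        · exact absurd hadj.symm (ht q ((hUm q).2 ⟨d, hd, hq⟩)).2
        · obtain ⟨c, hc, hwc⟩ := (hUm w).1 hw
          have hc' := (hDm c).1 hc
          by_cases hcd : c = d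
          · subst hcd
            exact ⟨hadj.ne.symm, hwc⟩
          · exact absurd hadj (cross d c hd'.2.2 hc'.2.2 (Ne.symm hcd) q hq w hwc).2
      · rintro ⟨hwq, hw⟩
        exact ⟨Or.inr ((hUm w).2 ⟨d, hd, hw⟩), (hQ d hd'.2.2).1.1 hq hw (Ne.symm hwq)⟩
    rw [this, Finset.card_erase_of_mem hq, (hQ d hd'.2.2).1.2]
    rfl
  have hφa : φ (z a) = z b := by
    have h1 : φ (z a) ∈ insert (z b) U := by
      rw [← hφ]; exact Finset.mem_image_of_mem _ (Finset.mem_insert_self _ _)
    rcases Finset.mem_insert.1 h1 with h1 | h1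
    · exact h1
    · exfalso
      obtain ⟨d, hd, hqd⟩ := (hUm _).1 h1
      have h2 := hcount (z b) hzbU d hd _ hqd
      rw [← hφ, card_filter_adj_image] at h2
      have h3 : (insert (z a) U).filter (fun w => G.Adj (z a) w) = ∅ := by
        rw [Finset.filter_eq_empty_iff]
        intro w hw
        rcases Finset.mem_insert.1 hw with rfl | hw
        · exact G.irrefl
        · exact (hzaU w hw).2
      rw [h3, Finset.card_empty] at h2
      omega
  have hφc : ∀ c ∈ D, φ (z c) ∈ Q c := by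
    intro c hc
    have hc' := (hDm c).1 hc
    have hzU : z c ∈ U := (hUm _).2 ⟨c, hc, (hQ c hc'.2.2).2.1⟩
    have h1 : φ (z c) ∈ insert (z b) U := by
      rw [← hφ]; exact Finset.mem_image_of_mem _ (Finset.mem_insert_of_mem hzU)
    rcases Finset.mem_insert.1 h1 with h1 | h1
    · exfalso
      rw [← hφa] at h1
      exact hc'.2.1 (hzinj c a hc'.2.2 ha (φ.injective h1))
    · obtain ⟨d, hd, hqd⟩ := (hUm _).1 h1
      have h2 := hcount (z b) hzbU d hd _ hqd
      rw [← hφ, card_filter_adj_image, hcount (z a) hzaU c hc _ (hQ c hc'.2.2).2.1] at h2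
      have : c = d := by omega
      rw [this]; rw [this] at hqd; exact hqd
  obtain ⟨ψ, hψ⟩ := rep h ((Finset.range m).erase a) (fun c => if c = b then z b else φ (z c)) z
    (by
      intro c hc
      rw [Finset.mem_erase, Finset.mem_range] at hc
      by_cases hcb : c = b
      · left; simp [hcb]
      · simp only [hcb, if_false]
        have hcD := (hDm c).2 ⟨hcb, hc.1, hc.2⟩
        by_cases he : φ (z c) = z c
        · exact Or.inl he
        · exact Or.inr ((hQ c hc.2).1.1 (hφc c hcD) (hQ c hc.2).2.1 he))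
    (by
      intro c hc d hd hcd
      rw [Finset.mem_erase, Finset.mem_range] at hc hd
      have hp : ∀ e, e ≠ a → e < m → (if e = b then z b else φ (z e)) ∈ Q e := by
        intro e h1 h2
        split_ifs with h3
        · rw [h3]; exact (hQ b hbm).2.1
        · exact hφc e ((hDm e).2 ⟨h3, h1, h2⟩)
      have hw : ∀ e, e < m → z e ∈ Q e := fun e he => (hQ e he).2.1
      exact ⟨cross c d hc.2 hd.2 hcd _ (hp c hc.1 hc.2) _ (hp d hd.1 hd.2),
        cross c d hc.2 hd.2 hcd _ (hp c hc.1 hc.2) _ (hw d hd.2),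
        cross c d hc.2 hd.2 hcd _ (hw c hc.2) _ (hp d hd.1 hd.2),
        cross c d hc.2 hd.2 hcd _ (hw c hc.2) _ (hw d hd.2)⟩)
  apply hSepZ.2.2.2
  refine ⟨φ.trans ψ, fun j hj => ?_, ?_⟩
  · rw [Finset.mem_erase, Finset.mem_erase, hZ, Finset.mem_image] at hj
    obtain ⟨hjb, hja, c, hc, rfl⟩ := hj
    have hca : c ≠ a := by rintro rfl; exact hja rfl
    have hcb : c ≠ b := by rintro rfl; exact hjb rfl
    have := hψ c (Finset.mem_erase.2 ⟨hca, hc⟩)
    simp only [hcb, if_false] at this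
    exact this
  · have := hψ b (Finset.mem_erase.2 ⟨by omega, Finset.mem_range.2 hbm⟩)
    simp only [if_true] at this
    show ψ (φ (z a)) = z b
    rw [hφa]
    exact this

/-- ordered independent tuples are conjugate. -/
theorem sym_tuple (h : Rich G) (m : ℕ) : ∀ f g : Fin m → V, Function.Injective f →
    Function.Injective g → (∀ i j, ¬ G.Adj (f i) (f j)) → (∀ i j, ¬ G.Adj (g i) (g j)) →
    ∃ φ : G ≃g G, ∀ i, φ (f i) = g i := by
  induction m with
  | zero => exact fun f g _ _ _ _ => ⟨SimpleGraph.Iso.refl, fun i => i.elim0⟩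
  | succ m ih =>
    intro f g hf hg hf' hg'
    obtain ⟨φ, hφ⟩ := ih (fun i => f i.castSucc) (fun i => g i.castSucc)
      (hf.comp (Fin.castSucc_injective m)) (hg.comp (Fin.castSucc_injective m))
      (fun i j => hf' _ _) (fun i j => hg' _ _)
    let J : Finset V := Finset.univ.image (fun i : Fin m => g i.castSucc)
    have hJ : Indp G J := by
      intro a ha b hb
      rw [Finset.mem_image] at ha hb
      obtain ⟨i, -, rfl⟩ := ha
      obtain ⟨j, -, rfl⟩ := hb
      exact hg' _ _
    obtain ⟨ψ, h1, h2⟩ := sym h hJ (x := φ (f (Fin.last m))) (y := g (Fin.last m))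
      (by
        intro j hj
        rw [Finset.mem_image] at hj
        obtain ⟨i, -, rfl⟩ := hj
        rw [← hφ i, compl_adj_map]
        exact ⟨fun he => (Fin.castSucc_lt_last i).ne (hf he).symm, hf' _ _⟩)
      (by
        intro j hj
        rw [Finset.mem_image] at hj
        obtain ⟨i, -, rfl⟩ := hj
        exact ⟨fun he => (Fin.castSucc_lt_last i).ne (hg he).symm, hg' _ _⟩)
    refine ⟨φ.trans ψ, fun i => ?_⟩
    induction i using Fin.lastCases with
    | last => exact h2
    | cast i =>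
      show ψ (φ (f i.castSucc)) = _
      rw [hφ i]
      exact h1 _ (Finset.mem_image_of_mem _ (Finset.mem_univ i))

end Run7.h901
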