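import Pool.Agent.Run7.h901.LB
import Pool.Agent.Run7.h901.Cog

/-!
Ultraproducts of set-homogeneous graphs and limits of common non-neighbourhoods.
-/

open scoped Classical
open Filter

namespace Run7.h901

universe u v

section UP
variable {X : ℕ → Type u}

/-- equality almost everywhere -/
def upSetoid (X : ℕ → Type u) : Setoid (∀ n, X n) where
  r f g := ∀ᶠ n in (hyperfilter ℕ : Filter ℕ), f n = g n
  iseqv :=
    { refl := fun f => Eventually.of_forall fun _ => rfl
      symm := fun h => h.mono fun _ hn => hn.symm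
      trans := fun h h' => (h.and h').mono fun _ hn => hn.1.trans hn.2 }

/-- the ultraproduct -/
def UP (X : ℕ → Type u) : Type u := Quotient (upSetoid X)

/-- class of a sequence -/
def UP.mk (f : ∀ n, X n) : UP X := Quotient.mk (upSetoid X) f

/-- representative -/
noncomputable def UP.rep (x : UP X) : ∀ n, X n := Quotient.out x

theorem UP.mk_rep (x : UP X) : UP.mk x.rep = x := Quotient.out_eq x

theorem UP.mk_eq {f g : ∀ n, X n} :
    UP.mk f = UP.mk g ↔ ∀ᶠ n in (hyperfilter ℕ : Filter ℕ), f n = g n :=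
  ⟨fun h => Quotient.exact h, fun h => Quotient.sound h⟩

/-- ultraproduct of graphs -/
def UPG (H : ∀ n, SimpleGraph (X n)) : SimpleGraph (UP X) where
  Adj x y := ∀ᶠ n in (hyperfilter ℕ : Filter ℕ), (H n).Adj (x.rep n) (y.rep n)
  symm := ⟨fun _ _ h => h.mono fun _ hn => hn.symm⟩
  loopless := ⟨fun _ h => by
    obtain ⟨n, hn⟩ := h.exists
    exact (H n).irrefl hn⟩

theorem UPG_adj {H : ∀ n, SimpleGraph (X n)} {f g : ∀ n, X n} :
    (UPG H).Adj (UP.mk f) (UP.mk g) ↔
      ∀ᶠ n in (hyperfilter ℕ : Filter ℕ), (H n).Adj (f n) (g n) := by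
  have hf : ∀ᶠ n in (hyperfilter ℕ : Filter ℕ), (UP.mk f).rep n = f n :=
    UP.mk_eq.1 (UP.mk_rep _)
  have hg : ∀ᶠ n in (hyperfilter ℕ : Filter ℕ), (UP.mk g).rep n = g n :=
    UP.mk_eq.1 (UP.mk_rep _)
  constructor
  · intro h
    filter_upwards [h, hf, hg] with n h1 h2 h3
    rw [← h2, ← h3]; exact h1
  · intro h
    filter_upwards [h, hf, hg] with n h1 h2 h3
    rw [h2, h3]; exact h1

theorem upg_sh {H : ∀ n, SimpleGraph (X n)}
    (hk : ∀ k, ∃ N, ∀ n ≥ N, ∀ y y' : Fin k → X n, Function.Injective y → Function.Injective y' →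
      (∀ i j, (H n).Adj (y i) (y j) ↔ (H n).Adj (y' i) (y' j)) →
      ∃ (φ : H n ≃g H n) (σ : Equiv.Perm (Fin k)), ∀ i, φ (y i) = y' (σ i)) :
    SetHomogeneous (UPG H) := by
  intro A A' hA hA' ⟨e⟩
  have := hA.fintype
  let a : Fin (Fintype.card A) ≃ A := (Fintype.equivFin A).symm
  set k := Fintype.card A
  let y : Fin k → ∀ n, X n := fun i => (a i).1.rep
  let y' : Fin k → ∀ n, X n := fun i => (e (a i)).1.rep
  have hy : ∀ i, UP.mk (y i) = (a i).1 := fun i => UP.mk_rep _
  have hy' : ∀ i, UP.mk (y' i) = (e (a i)).1 := fun i => UP.mk_rep _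
  have h1 : ∀ i j, i ≠ j → ∀ᶠ n in (hyperfilter ℕ : Filter ℕ), y i n ≠ y j n := by
    intro i j hij
    rw [Ultrafilter.eventually_not, ← UP.mk_eq, hy, hy]
    intro h
    exact hij (a.injective (Subtype.ext h))
  have h2 : ∀ i j, i ≠ j → ∀ᶠ n in (hyperfilter ℕ : Filter ℕ), y' i n ≠ y' j n := by
    intro i j hij
    rw [Ultrafilter.eventually_not, ← UP.mk_eq, hy', hy']
    intro h
    exact hij (a.injective (e.injective (Subtype.ext h)))
  have h3 : ∀ i j, ∀ᶠ n in (hyperfilter ℕ : Filter ℕ),
      ((H n).Adj (y i n) (y j n) ↔ (H n).Adj (y' i n) (y' j n)) := by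
    intro i j
    have h4 : (UPG H).Adj (a i).1 (a j).1 ↔ (UPG H).Adj (e (a i)).1 (e (a j)).1 :=
      (e.map_adj_iff (v := a i) (w := a j)).symm
    rw [← hy, ← hy, ← hy', ← hy', UPG_adj, UPG_adj] at h4
    by_cases h5 : ∀ᶠ n in (hyperfilter ℕ : Filter ℕ), (H n).Adj (y i n) (y j n)
    · filter_upwards [h5, h4.1 h5] with n h6 h7
      exact ⟨fun _ => h7, fun _ => h6⟩
    · have h6 := mt h4.2 h5
      rw [← Ultrafilter.eventually_not] at h5 h6
      filter_upwards [h5, h6] with n h6 h7
      exact ⟨fun h => absurd h h6, fun h => absurd h h7⟩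
  obtain ⟨N, hN⟩ := hk k
  have h4 : ∀ᶠ n in (hyperfilter ℕ : Filter ℕ), N ≤ n :=
    (eventually_ge_atTop N).filter_mono Nat.hyperfilter_le_atTop
  have h5 : ∀ᶠ n in (hyperfilter ℕ : Filter ℕ), ∃ σ : Equiv.Perm (Fin k), ∃ φ : H n ≃g H n,
      ∀ i, φ (y i n) = y' (σ i) n := by
    have g1 : ∀ᶠ n in (hyperfilter ℕ : Filter ℕ), ∀ i j, i ≠ j → y i n ≠ y j n := by
      rw [eventually_all]; intro i
      rw [eventually_all]; intro j
      by_cases hij : i = j
      · exact Eventually.of_forall fun n hne => absurd hij hne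
      · filter_upwards [h1 i j hij] with n hn _ using hn
    have g2 : ∀ᶠ n in (hyperfilter ℕ : Filter ℕ), ∀ i j, i ≠ j → y' i n ≠ y' j n := by
      rw [eventually_all]; intro i
      rw [eventually_all]; intro j
      by_cases hij : i = j
      · exact Eventually.of_forall fun n hne => absurd hij hne
      · filter_upwards [h2 i j hij] with n hn _ using hn
    have g3 : ∀ᶠ n in (hyperfilter ℕ : Filter ℕ), ∀ i j,
        ((H n).Adj (y i n) (y j n) ↔ (H n).Adj (y' i n) (y' j n)) := by
      rw [eventually_all]; intro i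
      rw [eventually_all]; intro j
      exact h3 i j
    filter_upwards [g1, g2, g3, h4] with n k1 k2 k3 k4
    obtain ⟨φ, σ, h6⟩ := hN n k4 (fun i => y i n) (fun i => y' i n)
      (fun i j hij => by_contra fun h => k1 i j h hij)
      (fun i j hij => by_contra fun h => k2 i j h hij) k3
    exact ⟨σ, φ, h6⟩
  rw [Ultrafilter.eventually_exists_iff] at h5
  obtain ⟨σ, hσ⟩ := h5
  have h6 : ∀ n, ∃ φ : H n ≃g H n, (∃ φ : H n ≃g H n, ∀ i, φ (y i n) = y' (σ i) n) →
      ∀ i, φ (y i n) = y' (σ i) n := by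
    intro n
    by_cases h : ∃ φ : H n ≃g H n, ∀ i, φ (y i n) = y' (σ i) n
    · obtain ⟨φ, hφ⟩ := h
      exact ⟨φ, fun _ => hφ⟩
    · exact ⟨SimpleGraph.Iso.refl, fun h' => absurd h' h⟩
  choose φ hφ using h6
  have hmap : ∀ f : ∀ n, X n, UP.mk (fun n => φ n ((UP.mk f).rep n)) = UP.mk (fun n => φ n (f n)) := by
    intro f
    rw [UP.mk_eq]
    have hf : ∀ᶠ n in (hyperfilter ℕ : Filter ℕ), (UP.mk f).rep n = f n :=
      UP.mk_eq.1 (UP.mk_rep _)
    filter_upwards [hf] with n hn
    rw [hn]
  have hmap' : ∀ f : ∀ n, X n,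
      UP.mk (fun n => (φ n).symm ((UP.mk f).rep n)) = UP.mk (fun n => (φ n).symm (f n)) := by
    intro f
    rw [UP.mk_eq]
    have hf : ∀ᶠ n in (hyperfilter ℕ : Filter ℕ), (UP.mk f).rep n = f n :=
      UP.mk_eq.1 (UP.mk_rep _)
    filter_upwards [hf] with n hn
    rw [hn]
  let Φ : UPG H ≃g UPG H :=
    { toFun := fun x => UP.mk (fun n => φ n (x.rep n))
      invFun := fun x => UP.mk (fun n => (φ n).symm (x.rep n))
      left_inv := by
        intro x
        simp only
        rw [hmap']
        simp only [RelIso.symm_apply_apply]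
        exact UP.mk_rep x
      right_inv := by
        intro x
        simp only
        rw [hmap]
        simp only [RelIso.apply_symm_apply]
        exact UP.mk_rep x
      map_rel_iff' := by
        intro x z
        show (UPG H).Adj (UP.mk _) (UP.mk _) ↔ _
        rw [UPG_adj]
        show (∀ᶠ n in _, (H n).Adj (φ n (x.rep n)) (φ n (z.rep n))) ↔
          ∀ᶠ n in _, (H n).Adj (x.rep n) (z.rep n)
        simp only [(φ _).map_adj_iff] }
  have hΦ : ∀ i, Φ (a i).1 = (e (a (σ i))).1 := by
    intro i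
    rw [← hy', ← hy]
    show UP.mk (fun n => φ n ((UP.mk (y i)).rep n)) = _
    rw [hmap, UP.mk_eq]
    filter_upwards [hσ] with n hn
    exact hφ n hn i
  refine ⟨Φ, ?_⟩
  ext z
  constructor
  · rintro ⟨x, hx, rfl⟩
    have := hΦ (a.symm ⟨x, hx⟩)
    rw [Equiv.apply_symm_apply] at this
    rw [this]
    exact (e _).2
  · intro hz
    refine ⟨(a (σ.symm (a.symm (e.symm ⟨z, hz⟩)))).1, (a _).2, ?_⟩
    rw [hΦ]
    simp

theorem upg_emb [∀ n, Nonempty (X n)] {H : ∀ n, SimpleGraph (X n)} (α : Type v) [Finite α]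
    (A : SimpleGraph α) : Nonempty (A ↪g UPG H) ↔
      ∀ᶠ n in (hyperfilter ℕ : Filter ℕ), Nonempty (A ↪g H n) := by
  constructor
  · rintro ⟨e⟩
    let y : α → ∀ n, X n := fun i => (e i).rep
    have hy : ∀ i, UP.mk (y i) = e i := fun i => UP.mk_rep _
    have g1 : ∀ᶠ n in (hyperfilter ℕ : Filter ℕ), ∀ i j, i ≠ j → y i n ≠ y j n := by
      rw [eventually_all]; intro i
      rw [eventually_all]; intro j
      by_cases hij : i = j
      · exact Eventually.of_forall fun n hne => absurd hij hne
      · have h1 : ∀ᶠ n in (hyperfilter ℕ : Filter ℕ), y i n ≠ y j n := by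
          rw [Ultrafilter.eventually_not, ← UP.mk_eq, hy, hy]
          intro h
          exact hij (e.injective h)
        filter_upwards [h1] with n hn _ using hn
    have g3 : ∀ᶠ n in (hyperfilter ℕ : Filter ℕ), ∀ i j, ((H n).Adj (y i n) (y j n) ↔ A.Adj i j) := by
      rw [eventually_all]; intro i
      rw [eventually_all]; intro j
      have h4 : (UPG H).Adj (e i) (e j) ↔ A.Adj i j := e.map_adj_iff
      rw [← hy, ← hy, UPG_adj] at h4
      by_cases h5 : A.Adj i j
      · filter_upwards [h4.2 h5] with n h6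
        exact ⟨fun _ => h5, fun _ => h6⟩
      · have h6 := mt h4.1 h5
        rw [← Ultrafilter.eventually_not] at h6
        filter_upwards [h6] with n h6
        exact ⟨fun h => absurd h h6, fun h => absurd h h5⟩
    filter_upwards [g1, g3] with n k1 k3
    exact ⟨⟨⟨fun i => y i n, fun i j hij => by_contra fun h => k1 i j h hij⟩, k3 _ _⟩⟩
  · intro h
    have h6 : ∀ n, ∃ F : α → X n, Nonempty (A ↪g H n) →
        Function.Injective F ∧ ∀ i j, (H n).Adj (F i) (F j) ↔ A.Adj i j := by
      intro n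
      by_cases h : Nonempty (A ↪g H n)
      · obtain ⟨e⟩ := h
        exact ⟨e, fun _ => ⟨e.injective, fun i j => e.map_adj_iff⟩⟩
      · exact ⟨fun _ => Classical.arbitrary _, fun h' => absurd h' h⟩
    choose F hF using h6
    refine ⟨⟨⟨fun i => UP.mk (fun n => F n i), ?_⟩, ?_⟩⟩
    · intro i j hij
      rw [UP.mk_eq] at hij
      obtain ⟨n, h1, h2⟩ := (hij.and h).exists
      exact (hF n h2).1 h1
    · intro i j
      show (UPG H).Adj (UP.mk _) (UP.mk _) ↔ _
      rw [UPG_adj]
      constructor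
      · intro h'
        obtain ⟨n, h1, h2⟩ := (h'.and h).exists
        exact ((hF n h2).2 i j).1 h1
      · intro h'
        filter_upwards [h] with n hn
        exact ((hF n hn).2 i j).2 h'

end UP

variable {V : Type u} {G : SimpleGraph V}

/-- automorphisms preserving `B`, moving one small set far from `B` to another. -/
theorem off_conj (hG : SetHomogeneous G) {B Y Y' : Finset V} {d : V} (hd : d ∈ B)
    (hdom : ∀ b ∈ B, b ≠ d → G.Adj d b) (hY : FIso G Y Y') (far : Far G B Y) (far' : Far G B Y')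
    (hc : Y.card < B.card) : ∃ φ : G ≃g G, B.image φ = B ∧ Y.image φ = Y' := by
  obtain ⟨φ, hφ⟩ := ((FIso.refl B).union_far hY far far').conj hG
  have hm : ∀ b ∈ B, φ b ∈ B ∨ φ b ∈ Y' := by
    intro b hb
    rw [← Finset.mem_union, ← hφ]
    exact Finset.mem_image_of_mem _ (Finset.mem_union_left _ hb)
  have hB : B.image φ = B := by
    apply Finset.eq_of_subset_of_card_le
    · rcases hm d hd with h1 | h1
      · intro z hz
        rw [Finset.mem_image] at hz
        obtain ⟨b, hb, rfl⟩ := hz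
        by_cases hbd : b = d
        · rw [hbd]; exact h1
        · rcases hm b hb with h2 | h2
          · exact h2
          · exact absurd (φ.map_adj_iff.2 (hdom b hb hbd)) (far' _ h1 _ h2).2
      · exfalso
        have h2 : B.image φ ⊆ Y' := by
          intro z hz
          rw [Finset.mem_image] at hz
          obtain ⟨b, hb, rfl⟩ := hz
          by_cases hbd : b = d
          · rw [hbd]; exact h1
          · rcases hm b hb with h2 | h2
            · exact absurd (φ.map_adj_iff.2 (hdom b hb hbd)).symm (far' _ h2 _ h1).2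
            · exact h2
        have h3 := Finset.card_le_card h2
        rw [Finset.card_image_of_injective _ φ.injective, ← hY.card_eq] at h3
        omega
    · rw [Finset.card_image_of_injective _ φ.injective]
  refine ⟨φ, hB, ?_⟩
  rw [Finset.image_union, hB] at hφ
  apply Finset.eq_of_subset_of_card_le
  · intro z hz
    have h1 : z ∈ B ∪ Y' := by rw [← hφ]; exact Finset.mem_union_right _ hz
    rw [Finset.mem_union] at h1
    rcases h1 with h1 | h1
    · exfalso
      rw [← hB, Finset.mem_image] at h1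
      rw [Finset.mem_image] at hz
      obtain ⟨b, hb, hbz⟩ := h1
      obtain ⟨c, hc, hcz⟩ := hz
      exact (far b hb c hc).1 (φ.injective (hbz.trans hcz.symm))
    · exact h1
  · rw [Finset.card_image_of_injective _ φ.injective, hY.card_eq]

/-- embeddings of a disjoint sum. -/
theorem dsum_emb {α : Type v} {β : Type v} [Finite β] {A : SimpleGraph α} {B : SimpleGraph β}
    (hG : SetHomogeneous G) (b : B ↪g G) :
    Nonempty (dsum A B ↪g G) → Nonempty (A ↪g G.induce {v | ∀ i, Gᶜ.Adj v (b i)}) := by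
  rintro ⟨e⟩
  obtain ⟨φ, σ, hσ⟩ := T0 hG (ι := β) (y := fun i => e (Sum.inr i)) (y' := b)
    (fun i j hij => Sum.inr_injective (e.injective hij)) b.injective
    (fun i j => by rw [e.map_adj_iff, b.map_adj_iff]; rfl)
  refine ⟨⟨⟨fun a => ⟨φ (e (Sum.inl a)), fun i => ?_⟩, ?_⟩, ?_⟩⟩
  · have h1 := hσ (σ.symm i)
    rw [Equiv.apply_symm_apply] at h1
    rw [← h1, compl_adj_map]
    refine ⟨fun h2 => ?_, fun h2 => ?_⟩
    · have := e.injective h2
      simp at this
    · have := e.map_adj_iff.1 h2
      exact this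
  · intro a a' haa
    have h1 := φ.injective (congrArg Subtype.val haa)
    exact Sum.inl_injective (e.injective h1)
  · intro a a'
    show G.Adj (φ (e (Sum.inl a))) (φ (e (Sum.inl a'))) ↔ _
    rw [φ.map_adj_iff, e.map_adj_iff]
    rfl

theorem dsum_emb' {α : Type v} {β : Type v} {A : SimpleGraph α} {B : SimpleGraph β}
    (b : B ↪g G) :
    Nonempty (A ↪g G.induce {v | ∀ i, Gᶜ.Adj v (b i)}) → Nonempty (dsum A B ↪g G) := by
  rintro ⟨e⟩
  refine ⟨⟨⟨Sum.elim (fun a => (e a).1) b, ?_⟩, ?_⟩⟩
  · rintro (x | x) (y | y) hxy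
    · simp only [Sum.elim_inl] at hxy
      rw [e.injective (Subtype.ext hxy)]
    · simp only [Sum.elim_inl, Sum.elim_inr] at hxy
      exact absurd hxy ((e x).2 y).1
    · simp only [Sum.elim_inl, Sum.elim_inr] at hxy
      exact absurd hxy.symm ((e y).2 x).1
    · simp only [Sum.elim_inr] at hxy
      rw [b.injective hxy]
  · rintro (x | x) (y | y)
    · show G.Adj (e x).1 (e y).1 ↔ A.Adj x y
      exact e.map_adj_iff
    · show G.Adj (e x).1 (b y) ↔ False
      exact ⟨fun h => ((e x).2 y).2 h, False.elim⟩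
    · show G.Adj (b x) (e y).1 ↔ False
      exact ⟨fun h => ((e y).2 x).2 h.symm, False.elim⟩
    · show G.Adj (b x) (b y) ↔ B.Adj x y
      exact b.map_adj_iff

/-- the limit of the common non-neighbourhoods of copies of `B n`. -/
theorem lim (hG : SetHomogeneous G) (β : ℕ → Type) [∀ n, Finite (β n)]
    (B : ∀ n, SimpleGraph (β n)) (hdom : ∀ n, ∃ d, ∀ x, x ≠ d → (B n).Adj d x)
    (hcard : ∀ n, n ≤ Nat.card (β n)) (hmono : ∀ n m, n ≤ m → Nonempty (B n ↪g B m))
    (hB : ∀ n, Nonempty (dsum (⊥ : SimpleGraph Unit) (B n) ↪g G)) :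
    ∃ (V' : Type u) (G' : SimpleGraph V'), SetHomogeneous G' ∧
      ∀ (α : Type) [Finite α] (A : SimpleGraph α),
        Nonempty (A ↪g G') ↔ ∀ n, Nonempty (dsum A (B n) ↪g G) := by
  have hb : ∀ n, Nonempty (B n ↪g G) := by
    intro n
    obtain ⟨e⟩ := hB n
    exact ⟨⟨⟨fun x => e (Sum.inr x), fun x y hxy => Sum.inr_injective (e.injective hxy)⟩,
      e.map_adj_iff⟩⟩
  let b : ∀ n, B n ↪g G := fun n => (hb n).some
  have hne : ∀ n, Nonempty {v // ∀ i, Gᶜ.Adj v (b n i)} := by
    intro n
    obtain ⟨e⟩ := dsum_emb hG (b n) (hB n)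
    exact ⟨⟨(e ()).1, (e ()).2⟩⟩
  have hfin := fun n => Fintype.ofFinite (β n)
  let H : ∀ n, SimpleGraph {v // ∀ i, Gᶜ.Adj v (b n i)} := fun n =>
    G.induce {v | ∀ i, Gᶜ.Adj v (b n i)}
  refine ⟨UP _, UPG H, upg_sh ?_, ?_⟩
  · intro k
    refine ⟨k + 1, fun n hn y y' hy hy' h => ?_⟩
    obtain ⟨d, hd⟩ := hdom n
    have hyv : Function.Injective (fun i => (y i).1) := fun i j hij => hy (Subtype.ext hij)
    have hyv' : Function.Injective (fun i => (y' i).1) := fun i j hij => hy' (Subtype.ext hij)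
    obtain ⟨φ, h1, h2⟩ := off_conj hG (B := Finset.univ.image (b n))
      (Y := Finset.univ.image (fun i => (y i).1)) (Y' := Finset.univ.image (fun i => (y' i).1))
      (d := b n d) (Finset.mem_image_of_mem _ (Finset.mem_univ _))
      (by
        intro z hz hne
        rw [Finset.mem_image] at hz
        obtain ⟨x, -, rfl⟩ := hz
        exact (b n).map_adj_iff.2 (hd x (fun he => hne (by rw [he]))))
      (FIso.of_family hyv hyv' h)
      (by
        intro z hz w hw
        rw [Finset.mem_image] at hz hw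
        obtain ⟨x, -, rfl⟩ := hz
        obtain ⟨i, -, rfl⟩ := hw
        exact ((y i).2 x).symm)
      (by
        intro z hz w hw
        rw [Finset.mem_image] at hz hw
        obtain ⟨x, -, rfl⟩ := hz
        obtain ⟨i, -, rfl⟩ := hw
        exact ((y' i).2 x).symm)
      (by
        rw [Finset.card_image_of_injective _ hyv, Finset.card_image_of_injective _ (b n).injective,
          Finset.card_univ, Finset.card_univ, Fintype.card_fin, ← Nat.card_eq_fintype_card]
        have := hcard n
        omega)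
    have h3 : ∀ i, ∃ j, b n j = φ (b n i) := by
      intro i
      have : φ (b n i) ∈ Finset.univ.image (b n) := by
        rw [← h1]
        exact Finset.mem_image_of_mem _ (Finset.mem_image_of_mem _ (Finset.mem_univ _))
      rw [Finset.mem_image] at this
      obtain ⟨j, -, hj⟩ := this
      exact ⟨j, hj⟩
    have h3' : ∀ j, ∃ i, b n j = φ (b n i) := by
      intro j
      have : b n j ∈ (Finset.univ.image (b n)).image φ := by
        rw [h1]
        exact Finset.mem_image_of_mem _ (Finset.mem_univ _)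
      rw [Finset.mem_image] at this
      obtain ⟨z, hz, hzj⟩ := this
      rw [Finset.mem_image] at hz
      obtain ⟨i, -, rfl⟩ := hz
      exact ⟨i, hzj.symm⟩
    have himg : φ '' {v | ∀ i, Gᶜ.Adj v (b n i)} = {v | ∀ i, Gᶜ.Adj v (b n i)} := by
      ext z
      constructor
      · rintro ⟨w, hw, rfl⟩ j
        obtain ⟨i, hi⟩ := h3' j
        rw [hi, compl_adj_map]
        exact hw i
      · intro hz
        refine ⟨φ.symm z, fun i => ?_, by simp⟩
        obtain ⟨j, hj⟩ := h3 i
        rw [← compl_adj_map φ, ← hj]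
        simpa using hz j
    have h4 : ∀ i, ∃ j, (y' j).1 = φ (y i).1 := by
      intro i
      have : φ (y i).1 ∈ Finset.univ.image (fun i => (y' i).1) := by
        rw [← h2]
        exact Finset.mem_image_of_mem _ (Finset.mem_image_of_mem _ (Finset.mem_univ _))
      rw [Finset.mem_image] at this
      obtain ⟨j, -, hj⟩ := this
      exact ⟨j, hj⟩
    choose s hs using h4
    have hsinj : Function.Injective s := by
      intro i j hij
      apply hyv
      apply φ.injective
      show φ (y i).1 = φ (y j).1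
      rw [← hs, ← hs, hij]
    refine ⟨restrictIso φ himg, Equiv.ofBijective s (Finite.injective_iff_bijective.1 hsinj),
      fun i => ?_⟩
    apply Subtype.ext
    show φ (y i).1 = (y' (s i)).1
    rw [hs]
  · intro α _ A
    rw [upg_emb]
    constructor
    · intro h n
      have h4 : ∀ᶠ n' in (hyperfilter ℕ : Filter ℕ), n ≤ n' :=
        (eventually_ge_atTop n).filter_mono Nat.hyperfilter_le_atTop
      obtain ⟨m, h5, h6⟩ := (h.and h4).exists
      obtain ⟨e⟩ := dsum_emb' (b m) h5
      obtain ⟨f⟩ := hmono n m h6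
      refine ⟨⟨⟨fun x => e (Sum.map id f x), fun x y hxy =>
        (Function.Injective.sumMap Function.injective_id f.injective) (e.injective hxy)⟩, ?_⟩⟩
      intro x y
      show G.Adj (e (Sum.map id f x)) (e (Sum.map id f y)) ↔ _
      rw [e.map_adj_iff]
      rcases x with x | x <;> rcases y with y | y
      · rfl
      · rfl
      · rfl
      · exact f.map_adj_iff
    · intro h
      exact Eventually.of_forall fun n => dsum_emb hG (b n) (h n)

end Run7.h901
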