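import Pool.Agent.Run7.h901.Sk

/-!
The graph on the dyadic rationals of `[0, 1)`, two of them adjacent if their distance lies strictly
between `1/3` and `2/3`.
-/

open scoped Classical

namespace Run7.h901

/-- the dyadic rationals of `[0, 1)`. -/
def Dy : Type := {x : ℚ // 0 ≤ x ∧ x < 1 ∧ ∃ (k : ℕ) (z : ℤ), x * 2 ^ k = z}

/-- two dyadic rationals of `[0, 1)` are adjacent if their distance is strictly between `1/3` and
`2/3` (that is, if their distance on the circle of length `1` is more than `1/3`). -/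
def R3c : SimpleGraph Dy where
  Adj x y := 1 / 3 < |x.1 - y.1| ∧ |x.1 - y.1| < 2 / 3
  symm := ⟨fun x y h => by rw [abs_sub_comm]; exact h⟩
  loopless := ⟨fun x h => by
    have := h.1
    simp at this
    norm_num at this⟩

instance : Countable Dy := by unfold Dy; infer_instance

theorem no_third (x y : Dy) (j : ℤ) (hj : j = 1 ∨ j = 2 ∨ j = -1 ∨ j = -2) :
    x.1 - y.1 ≠ j / 3 := by
  intro h
  obtain ⟨x, hx0, hx1, a, z, hz⟩ := x
  obtain ⟨y, hy0, hy1, b, w, hw⟩ := y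
  simp only at h
  have h1 : (j : ℚ) * 2 ^ (a + b) = 3 * (z * 2 ^ b - w * 2 ^ a) := by
    rw [← hz, ← hw]
    have : (j : ℚ) = 3 * (x - y) := by rw [h]; ring
    rw [this]
    ring
  have h2 : j * 2 ^ (a + b) = 3 * (z * 2 ^ b - w * 2 ^ a) := by exact_mod_cast h1
  have h3 : (3 : ℤ) ∣ j * 2 ^ (a + b) := ⟨_, h2⟩
  have hp : Prime (3 : ℤ) := Int.prime_three
  rcases hp.dvd_or_dvd h3 with h4 | h4
  · rcases hj with rfl | rfl | rfl | rfl <;> omega
  · have := hp.dvd_of_dvd_pow h4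
    omega

theorem dy_dense {a b : ℚ} (ha : 0 ≤ a) (hab : a < b) (hb : b ≤ 1) : ∃ z : Dy, a < z.1 ∧ z.1 < b := by
  obtain ⟨k, hk⟩ := exists_pow_lt_of_lt_one (sub_pos.2 hab) (show (1 / 2 : ℚ) < 1 by norm_num)
  have h2 : (0 : ℚ) < 2 ^ k := by positivity
  have h3 : (1 / 2 : ℚ) ^ k * 2 ^ k = 1 := by rw [← mul_pow]; norm_num
  have h4 : (⌊a * 2 ^ k⌋ : ℚ) ≤ a * 2 ^ k := Int.floor_le _
  have h5 : a * 2 ^ k < ⌊a * 2 ^ k⌋ + 1 := Int.lt_floor_add_one _
  have h6 : (((⌊a * 2 ^ k⌋ : ℚ) + 1) / 2 ^ k) * 2 ^ k = ⌊a * 2 ^ k⌋ + 1 := by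
    field_simp
  have h7 : a < ((⌊a * 2 ^ k⌋ : ℚ) + 1) / 2 ^ k := by
    rw [lt_div_iff₀ h2]; exact h5
  have h8 : ((⌊a * 2 ^ k⌋ : ℚ) + 1) / 2 ^ k < b := by
    rw [div_lt_iff₀ h2]
    nlinarith
  refine ⟨⟨((⌊a * 2 ^ k⌋ : ℚ) + 1) / 2 ^ k, by linarith, by linarith, k, ⌊a * 2 ^ k⌋ + 1, ?_⟩,
    h7, h8⟩
  push_cast
  exact h6

/-- base point. -/
def dy0 : Dy := ⟨0, le_rfl, by norm_num, 0, 0, by simp⟩

/-- colour. -/
noncomputable def dyc (x : Dy) : Fin 3 := if x.1 < 1 / 3 then 0 else if x.1 < 2 / 3 then 1 else 2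

/-- position modulo `1/3`. -/
noncomputable def dyp (x : Dy) : ℚ := x.1 - ((dyc x : Fin 3) : ℕ) / 3

theorem dy_col {z : Dy} (k : Fin 3) (h1 : ((k : ℕ) : ℚ) / 3 < z.1) (h2 : z.1 < ((k : ℕ) + 1) / 3) :
    dyc z = k := by
  unfold dyc
  fin_cases k
  · norm_num at h1 h2 ⊢
    intro h3
    linarith
  · norm_num at h1 h2 ⊢
    rw [if_neg (by linarith), if_pos (by linarith)]
  · norm_num at h1 h2 ⊢
    rw [if_neg (by linarith), if_neg (by linarith)]
    rfl

theorem dy_cases {x : Dy} (hx : x ≠ dy0) :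
    (dyc x = 0 ∧ dyp x = x.1 ∧ 0 < x.1 ∧ x.1 < 1 / 3) ∨
    (dyc x = 1 ∧ dyp x = x.1 - 1 / 3 ∧ 1 / 3 < x.1 ∧ x.1 < 2 / 3) ∨
    (dyc x = 2 ∧ dyp x = x.1 - 2 / 3 ∧ 2 / 3 < x.1 ∧ x.1 < 1) := by
  have h1 := no_third x dy0 1 (by simp)
  have h2 := no_third x dy0 2 (by simp)
  have h0 : x.1 ≠ 0 := fun h => hx (Subtype.ext h)
  have e : (dy0 : Dy).1 = 0 := rfl
  rw [e, sub_zero] at h1 h2
  have hx0 := x.2.1
  have hx1 := x.2.2.1
  unfold dyp dyc
  push_cast at h1 h2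
  by_cases h3 : x.1 < 1 / 3
  · left
    simp only [h3, if_true]
    exact ⟨trivial, by norm_num, lt_of_le_of_ne hx0 (Ne.symm h0), trivial⟩
  · by_cases h4 : x.1 < 2 / 3
    · right; left
      simp only [h3, h4, if_true, if_false]
      exact ⟨trivial, by norm_num, lt_of_le_of_ne (not_lt.1 h3) (Ne.symm h1), trivial⟩
    · right; right
      simp only [h3, h4, if_false]
      exact ⟨trivial, by norm_num, lt_of_le_of_ne (not_lt.1 h4) (Ne.symm h2), hx1⟩

theorem dyp_bounds {x : Dy} (hx : x ≠ dy0) : 0 < dyp x ∧ dyp x < 1 / 3 := by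
  rcases dy_cases hx with ⟨-, h1, h2, h3⟩ | ⟨-, h1, h2, h3⟩ | ⟨-, h1, h2, h3⟩ <;> rw [h1] <;>
    constructor <;> linarith

theorem dy_find (k : Fin 3) {a b : ℚ} (ha : 0 ≤ a) (hab : a < b) (hb : b ≤ 1 / 3) :
    ∃ z : Dy, z ≠ dy0 ∧ dyc z = k ∧ a < dyp z ∧ dyp z < b := by
  have hk : ((k : ℕ) : ℚ) ≤ 2 := by
    have := k.2
    have h2 : (k : ℕ) ≤ 2 := by omega
    exact_mod_cast h2
  have hk0 : (0 : ℚ) ≤ ((k : ℕ) : ℚ) := by positivity
  obtain ⟨z, hz1, hz2⟩ := dy_dense (a := a + ((k : ℕ) : ℚ) / 3) (b := b + ((k : ℕ) : ℚ) / 3)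
    (by positivity) (by linarith) (by linarith)
  have hc := dy_col (z := z) k (by linarith) (by linarith)
  refine ⟨z, ?_, hc, ?_, ?_⟩
  · rintro rfl
    have : (dy0 : Dy).1 = 0 := rfl
    rw [this] at hz1
    linarith
  · unfold dyp; rw [hc]; linarith
  · unfold dyp; rw [hc]; linarith

theorem model_cord : COrd R3c dy0 dyc (fun x y => dyp x < dyp y) where
  irr := fun x => lt_irrefl _
  tr := fun x y z => lt_trans
  tri := by
    intro x y hx hy
    rcases lt_trichotomy (dyp x) (dyp y) with h | h | h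
    · exact Or.inr (Or.inl h)
    · left
      have n1 := no_third x y 1 (by simp)
      have n2 := no_third x y 2 (by simp)
      have n3 := no_third x y (-1) (by simp)
      have n4 := no_third x y (-2) (by simp)
      push_cast at n1 n2 n3 n4
      apply Subtype.ext
      rcases dy_cases hx with ⟨-, h1, -, -⟩ | ⟨-, h1, -, -⟩ | ⟨-, h1, -, -⟩ <;>
        rcases dy_cases hy with ⟨-, h2, -, -⟩ | ⟨-, h2, -, -⟩ | ⟨-, h2, -, -⟩ <;>
        rw [h1, h2] at h
      · exact h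
      · exact absurd (by linarith) n3
      · exact absurd (by linarith) n4
      · exact absurd (by linarith) n1
      · linarith
      · exact absurd (by linarith) n3
      · exact absurd (by linarith) n2
      · exact absurd (by linarith) n1
      · linarith
    · exact Or.inr (Or.inr h)
  dense := by
    intro x y hx hy hxy k
    exact dy_find k (dyp_bounds hx).1.le hxy (dyp_bounds hy).2.le
  above := by
    intro x hx k
    obtain ⟨z, h1, h2, h3, -⟩ := dy_find k (dyp_bounds hx).1.le (dyp_bounds hx).2 le_rfl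
    exact ⟨z, h1, h2, h3⟩
  below := by
    intro x hx k
    obtain ⟨z, h1, h2, -, h3⟩ := dy_find k le_rfl (dyp_bounds hx).1 (dyp_bounds hx).2.le
    exact ⟨z, h1, h2, h3⟩
  some := by
    intro k
    obtain ⟨z, h1, h2, -, -⟩ := dy_find k le_rfl (show (0 : ℚ) < 1 / 3 by norm_num) le_rfl
    exact ⟨z, h1, h2⟩
  adj_o := by
    intro x hx
    change (1 / 3 < |(0 : ℚ) - x.1| ∧ |(0 : ℚ) - x.1| < 2 / 3) ↔ _
    rw [zero_sub, abs_neg, abs_of_nonneg x.2.1]
    rcases dy_cases hx with ⟨h0, -, h1, h2⟩ | ⟨h0, -, h1, h2⟩ | ⟨h0, -, h1, h2⟩ <;> rw [h0]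
    · constructor
      · rintro ⟨h3, -⟩; linarith
      · intro h; exact absurd h (by decide)
    · exact ⟨fun _ => rfl, fun _ => ⟨h1, h2⟩⟩
    · constructor
      · rintro ⟨-, h3⟩; linarith
      · intro h; exact absurd h (by decide)
  adj := by
    intro x y hx hy hxy
    change (1 / 3 < |x.1 - y.1| ∧ |x.1 - y.1| < 2 / 3) ↔ _
    rcases dy_cases hx with ⟨h0, p0, h1, h2⟩ | ⟨h0, p0, h1, h2⟩ | ⟨h0, p0, h1, h2⟩ <;>
      rcases dy_cases hy with ⟨k0, q0, k1, k2⟩ | ⟨k0, q0, k1, k2⟩ | ⟨k0, q0, k1, k2⟩ <;>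
      rw [h0, k0] at hxy <;> try (exact absurd hxy (by decide))
    · rw [abs_of_neg (by linarith), p0, q0]
      constructor
      · rintro ⟨h3, h4⟩; linarith
      · intro h3; constructor <;> linarith
    · rw [abs_of_neg (by linarith), p0, q0]
      constructor
      · rintro ⟨h3, h4⟩; linarith
      · intro h3; constructor <;> linarith
    · rw [abs_of_pos (by linarith), p0, q0]
      constructor
      · rintro ⟨h3, h4⟩; linarith
      · intro h3; constructor <;> linarith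
  nadj := by
    intro x y hx hy hxy
    change ¬ (1 / 3 < |x.1 - y.1| ∧ |x.1 - y.1| < 2 / 3)
    rintro ⟨h3, -⟩
    rw [lt_abs] at h3
    rcases dy_cases hx with ⟨h0, p0, h1, h2⟩ | ⟨h0, p0, h1, h2⟩ | ⟨h0, p0, h1, h2⟩ <;>
      rcases dy_cases hy with ⟨k0, q0, k1, k2⟩ | ⟨k0, q0, k1, k2⟩ | ⟨k0, q0, k1, k2⟩ <;>
      rw [h0, k0] at hxy <;> first | (exact absurd hxy (by decide)) | skip
    all_goals rcases h3 with h3 | h3 <;> linarith

end Run7.h901
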