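import Pool.Agent.Run7.h901.TF
import Pool.Agent.Run7.h901.Sk

/-!
Graphs with middles are given by dense three-coloured orders.
-/

open scoped Classical

namespace Run7.h901

universe u
variable {W : Type u} {H : SimpleGraph W}

theorem Bet.irr12 {a c : W} (h : Bet H a a c) : False := h.1.1.1 rfl
theorem Bet.irr13 {a c : W} (h : Bet H a c a) : False := h.1.2.1.1 rfl
theorem Bet.irr23 {a c : W} (h : Bet H a c c) : False := h.1.2.2.1 rfl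

namespace Mid

variable (hM : Mid H)
include hM

/-- no independent four-set of cyclic type. -/
theorem nocyc {a b c d : W} (h1 : Bet H a b c) (h2 : Bet H b c d) (h3 : Bet H c d a)
    (h4 : Bet H d a b) : False := by
  obtain ⟨a', c', d', k1⟩ := hM.mid'
  obtain ⟨b', k2⟩ := hM.between k1.1.1
  obtain ⟨k3, k4⟩ := hM.L1 k2 k1
  have e1 : a ≠ b := h1.1.1.ne
  have e2 : a ≠ c := h1.1.2.1.ne
  have e3 : b ≠ c := h1.1.2.2.ne
  have e4 : b ≠ d := h2.1.2.1.ne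
  have e5 : c ≠ d := h2.1.2.2.ne
  have e6 : d ≠ a := h3.1.2.2.ne
  have n1 : ¬ H.Adj a b := h1.1.1.2
  have n2 : ¬ H.Adj a c := h1.1.2.1.2
  have n3 : ¬ H.Adj b c := h1.1.2.2.2
  have n4 : ¬ H.Adj b d := h2.1.2.1.2
  have n5 : ¬ H.Adj c d := h2.1.2.2.2
  have n6 : ¬ H.Adj d a := h3.1.2.2.2
  have m1 : ¬ H.Adj b a := fun h => n1 h.symm
  have m2 : ¬ H.Adj c a := fun h => n2 h.symm
  have m3 : ¬ H.Adj c b := fun h => n3 h.symm
  have m4 : ¬ H.Adj d b := fun h => n4 h.symm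
  have m5 : ¬ H.Adj d c := fun h => n5 h.symm
  have m6 : ¬ H.Adj a d := fun h => n6 h.symm
  have e1' : a' ≠ b' := k2.1.1.ne
  have e2' : a' ≠ c' := k2.1.2.1.ne
  have e3' : b' ≠ c' := k2.1.2.2.ne
  have e4' : b' ≠ d' := k4.1.2.1.ne
  have e5' : c' ≠ d' := k4.1.2.2.ne
  have e6' : d' ≠ a' := k1.1.2.1.ne.symm
  have n1' : ¬ H.Adj a' b' := k2.1.1.2
  have n2' : ¬ H.Adj a' c' := k2.1.2.1.2
  have n3' : ¬ H.Adj b' c' := k2.1.2.2.2
  have n4' : ¬ H.Adj b' d' := k4.1.2.1.2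
  have n5' : ¬ H.Adj c' d' := k4.1.2.2.2
  have n6' : ¬ H.Adj d' a' := fun h => k1.1.2.1.2 h.symm
  have m1' : ¬ H.Adj b' a' := fun h => n1' h.symm
  have m2' : ¬ H.Adj c' a' := fun h => n2' h.symm
  have m3' : ¬ H.Adj c' b' := fun h => n3' h.symm
  have m4' : ¬ H.Adj d' b' := fun h => n4' h.symm
  have m5' : ¬ H.Adj d' c' := fun h => n5' h.symm
  have m6' : ¬ H.Adj a' d' := fun h => n6' h.symm
  obtain ⟨φ, σ, hφ⟩ := hM.toTF.quasi 4 ![a, b, c, d] ![a', b', c', d']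
    (by intro i j; fin_cases i <;> fin_cases j <;> simp [e1, e1.symm, e2, e2.symm, e3, e3.symm,
      e4, e4.symm, e5, e5.symm, e6, e6.symm])
    (by intro i j; fin_cases i <;> fin_cases j <;> simp [e1', e1'.symm, e2', e2'.symm, e3',
      e3'.symm, e4', e4'.symm, e5', e5'.symm, e6', e6'.symm])
    (by intro i j; fin_cases i <;> fin_cases j <;> simp [n1, n2, n3, n4, n5, n6, m1, m2, m3, m4,
      m5, m6, n1', n2', n3', n4', n5', n6', m1', m2', m3', m4', m5', m6'])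
    (by
      intro i
      fin_cases i
      · exact ⟨1, by simp, by simpa using n1⟩
      · exact ⟨0, by simp, by simpa using m1⟩
      · exact ⟨0, by simp, by simpa using m2⟩
      · exact ⟨0, by simp, by simpa using n6⟩)
  have hcyc : ∀ i : Fin 4, ∃ j k : Fin 4,
      Bet H (![a, b, c, d] j) (![a, b, c, d] i) (![a, b, c, d] k) := by
    intro i
    fin_cases i
    · exact ⟨3, 1, h4⟩
    · exact ⟨0, 2, h1⟩
    · exact ⟨1, 3, h2⟩
    · exact ⟨2, 0, h3⟩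
  obtain ⟨j, k, hjk⟩ := hcyc (σ.symm 0)
  have := hjk.map φ
  rw [hφ, hφ, hφ, Equiv.apply_symm_apply] at this
  generalize σ j = s at this
  generalize σ k = t at this
  fin_cases s <;> fin_cases t <;> simp at this
  · exact this.irr12
  · exact this.irr12
  · exact this.irr12
  · exact this.irr12
  · exact this.irr23
  · exact this.irr13
  · exact hM.uniq k2 this
  · exact hM.uniq k3 this
  · exact this.irr23
  · exact hM.uniq k2 this.symm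
  · exact this.irr13
  · exact hM.uniq k1 this
  · exact this.irr23
  · exact hM.uniq k3 this.symm
  · exact hM.uniq k1 this.symm
  · exact this.irr13

theorem diff_inf {o m : W} (h : Hᶜ.Adj o m) : {r | H.Adj r m ∧ ¬ H.Adj r o}.Infinite := by
  obtain ⟨t, ht⟩ := hM.between h
  refine (hM.notBet_inf (a := t) (b := o) (c := m) ht.1.swap12 (hM.uniq ht)).mono ?_
  rintro r ⟨⟨-, h1⟩, h2⟩
  exact ⟨h1, h2⟩

theorem Lfact {o x y : W} (hxy : H.Adj x y) (hox : Hᶜ.Adj o x) (hoy : Hᶜ.Adj o y) :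
    ∃ x', H.Adj x' y ∧ Bet H o x' x := by
  have hT := hM.toTF
  -- two ordered neighbours of `y`
  have horder : ∀ {y : W}, Hᶜ.Adj o y → ∀ r s, H.Adj r y → ¬ H.Adj r o → H.Adj s y →
      ¬ H.Adj s o → r ≠ s → Bet H o r s ∨ Bet H o s r := by
    intro y hoy r s hr hro hs hso hrs
    have hor : Hᶜ.Adj o r := ⟨by rintro rfl; exact hoy.2 hr, fun h => hro h.symm⟩
    have hos : Hᶜ.Adj o s := ⟨by rintro rfl; exact hoy.2 hs, fun h => hso h.symm⟩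
    have hrs' : ¬ H.Adj r s := hT.tri y r s hr.symm hs.symm
    rcases hM.exists_mid (a := o) (b := r) (c := s) ⟨hor, hos, ⟨hrs, hrs'⟩⟩ with h | h | h
    · exact Or.inl h
    · exact absurd (h.2 y hr.symm hs.symm).symm hoy.2
    · exact Or.inr h
  obtain ⟨p1, p2, ⟨hp1y, hp1o⟩, ⟨hp2y, hp2o⟩, hb⟩ : ∃ p1 p2, (H.Adj p1 y ∧ ¬ H.Adj p1 o) ∧
      (H.Adj p2 y ∧ ¬ H.Adj p2 o) ∧ Bet H o p1 p2 := by
    obtain ⟨r, hr⟩ := (hM.diff_inf hoy).nonempty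
    obtain ⟨s, hs, hsr⟩ := ((hM.diff_inf hoy).sdiff (Set.finite_singleton r)).nonempty
    rcases horder hoy r s hr.1 hr.2 hs.1 hs.2 (fun h => hsr h.symm) with h | h
    · exact ⟨r, s, hr, hs, h⟩
    · exact ⟨s, r, hs, hr, h⟩
  obtain ⟨m', ⟨hm1, hmo⟩, hmy⟩ :=
    ((hM.diff_inf hb.1.1).sdiff (Set.finite_singleton y)).nonempty
  have hmy : m' ≠ y := hmy
  have hm2 : H.Adj m' p2 := (hM.B1 hb hm1).resolve_left hmo
  obtain ⟨f, g, hf1, hf2, hg1, hg2, hgf⟩ : ∃ f g, H.Adj f p1 ∧ H.Adj f p2 ∧ H.Adj g p1 ∧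
      H.Adj g p2 ∧ Bet H o g f := by
    rcases horder hb.1.1 y m' hp1y.symm (fun h => hoy.2 h.symm) hm1 hmo hmy.symm with h | h
    · exact ⟨m', y, hm1, hm2, hp1y.symm, hp2y.symm, h⟩
    · exact ⟨y, m', hp1y.symm, hp2y.symm, hm1, hm2, h⟩
  obtain ⟨φ, hφo, hφ⟩ := hT.quasi.k12conj (e := o) (x := p2) (y := f) hf2.symm hb.1.2.1 hgf.1.2.1
    (e' := o) hxy hox hoy
  rcases hφ with ⟨e1, e2⟩ | ⟨e1, e2⟩
  · refine ⟨φ p1, ?_, ?_⟩
    · rw [← e2, φ.map_adj_iff]; exact hf1.symm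
    · have := hb.map φ
      rwa [hφo, e1] at this
  · refine ⟨φ g, ?_, ?_⟩
    · rw [← e1, φ.map_adj_iff]; exact hg2
    · have := hgf.map φ
      rwa [hφo, e2] at this

theorem Kfact {e x y : W} (hxy : H.Adj x y) (hex : Hᶜ.Adj e x) (hey : Hᶜ.Adj e y) :
    ∃ x', Hᶜ.Adj x' y ∧ Bet H e x' x := by
  obtain ⟨x', hx'⟩ := hM.beyond hey.symm
  have hne : x ≠ x' := by rintro rfl; exact hx'.1.2.1.2 hxy.symm
  have hnadj : ¬ H.Adj x x' := fun h => hex.2 (hx'.2 x hxy h).symm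
  refine ⟨x', hx'.1.2.1.symm, ?_⟩
  rcases hM.exists_mid (a := e) (b := x) (c := x') ⟨hex, hx'.1.2.2, ⟨hne, hnadj⟩⟩ with h | h | h
  · exfalso
    rcases hM.B1 h hxy.symm with k | k
    · exact hey.2 k.symm
    · exact hx'.1.2.1.2 k
  · exact absurd hxy (hM.same_side h.symm hx'.symm)
  · exact h

theorem Efact {o p n : W} (hop : Hᶜ.Adj o p) (hno : H.Adj n o) (hnp : H.Adj n p) :
    ∃ p', Bet H o p p' ∧ H.Adj n p' := by
  obtain ⟨x, hx, hxn⟩ := hM.F6 hop hno hnp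
  obtain ⟨x', h1, h2⟩ := hM.Lfact hnp.symm hx.1.2.2.symm hxn
  exact ⟨x', (hM.L1 h2 hx.symm).2.symm, h1.symm⟩

end Mid

/-- same side of `o`. -/
def SS (H : SimpleGraph W) (o x z : W) : Prop := x = z ∨ Bet H o x z ∨ Bet H o z x

theorem SS.symm {o x z : W} (h : SS H o x z) : SS H o z x := by
  rcases h with h | h | h
  · exact Or.inl h.symm
  · exact Or.inr (Or.inr h)
  · exact Or.inr (Or.inl h)

theorem SS.not_adj {o x z : W} (h : SS H o x z) : ¬ H.Adj x z := by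
  rcases h with h | h | h
  · rw [h]; exact H.irrefl
  · exact h.1.2.2.2
  · exact fun hh => h.1.2.2.2 hh.symm

namespace Mid

variable (hM : Mid H)
include hM

theorem ss_trans {o x y z : W} (h1 : SS H o x y) (h2 : SS H o y z) : SS H o x z := by
  rcases h1 with h1 | h1 | h1
  · rw [h1]; exact h2
  · rcases h2 with h2 | h2 | h2
    · rw [← h2]; exact Or.inr (Or.inl h1)
    · exact Or.inr (Or.inl (hM.L1 h1 h2).1)
    · by_cases hxz : x = z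
      · exact Or.inl hxz
      have hnadj : ¬ H.Adj x z := by
        intro h
        rcases hM.B1 h1 h.symm with k | k
        · exact h2.1.1.2 k.symm
        · exact h2.1.2.2.2 k
      rcases hM.exists_mid (a := o) (b := x) (c := z) ⟨h1.1.1, h2.1.1, ⟨hxz, hnadj⟩⟩ with h | h | h
      · exact Or.inr (Or.inl h)
      · exfalso
        rcases hM.exists_mid (a := x) (b := y) (c := z)
          ⟨h1.1.2.2, ⟨hxz, hnadj⟩, h2.1.2.2.symm⟩ with k | k | k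
        · exact hM.nocyc h1 k h2.symm h.symm
        · exact hM.uniq' h (hM.L1 k h2.symm).2
        · exact hM.uniq' h.symm (hM.L1 k.symm h1.symm).2
      · exact Or.inr (Or.inr h)
  · rcases h2 with h2 | h2 | h2
    · rw [← h2]; exact Or.inr (Or.inr h1)
    · by_cases hxz : x = z
      · exact Or.inl hxz
      have hnadj : ¬ H.Adj x z := hM.same_side h1 h2
      rcases hM.exists_mid (a := o) (b := x) (c := z) ⟨h1.1.2.1, h2.1.2.1, ⟨hxz, hnadj⟩⟩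
        with h | h | h
      · exact Or.inr (Or.inl h)
      · exact absurd (hM.L1 h1.symm h).2 (hM.uniq h2)
      · exact Or.inr (Or.inr h)
    · exact Or.inr (Or.inr (hM.L1 h2 h1).1)

theorem perp {o x y : W} (hx : Hᶜ.Adj o x) (hy : Hᶜ.Adj o y) (h : ¬ SS H o x y) :
    H.Adj x y ∨ Bet H x o y := by
  unfold SS at h
  push Not at h
  by_cases hadj : H.Adj x y
  · exact Or.inl hadj
  · rcases hM.exists_mid (a := o) (b := x) (c := y) ⟨hx, hy, ⟨h.1, hadj⟩⟩ with k | k | k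
    · exact absurd k h.2.1
    · exact Or.inr k
    · exact absurd k h.2.2

theorem ss_two {o x y z : W} (hx : Hᶜ.Adj o x) (hy : Hᶜ.Adj o y) (hz : Hᶜ.Adj o z)
    (h1 : ¬ SS H o x y) (h2 : ¬ SS H o y z) : SS H o x z := by
  by_contra h3
  have hT := hM.toTF
  rcases hM.perp hx hy h1 with k1 | k1 <;> rcases hM.perp hy hz h2 with k2 | k2 <;>
    rcases hM.perp hx hz h3 with k3 | k3
  · exact hT.tri y x z k1.symm k2 k3
  · exact hy.2 (k3.2 y k1.symm k2).symm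
  · exact hx.2 (k2.2 x k1 k3).symm
  · exact hM.same_side k3.symm k2.symm k1
  · exact hz.2 (k1.2 z k3.symm k2.symm).symm
  · exact hM.same_side k1 k3 k2
  · exact hM.same_side k1.symm k2 k3
  · exact hM.noY k1 k3 k2

end Mid

/-! ### the coloured order -/

section order

variable (H) (o p0 : W)

def inP (x : W) : Prop := Hᶜ.Adj o x ∧ SS H o x p0
def inM (x : W) : Prop := Hᶜ.Adj o x ∧ ¬ SS H o x p0

noncomputable def colr (x : W) : Fin 3 := if inP H o p0 x then 0 else if H.Adj o x then 1 else 2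

/-- the cut of `x` in the side of `p0`. -/
def Cut (x : W) : Set W := {p | inP H o p0 p ∧ ((inP H o p0 x ∧ Bet H o p x) ∨
  (H.Adj o x ∧ H.Adj p x) ∨ (inM H o p0 x ∧ ¬ H.Adj p x))}

def ltc (x y : W) : Prop := ∃ p, p ∈ Cut H o p0 y ∧ p ∉ Cut H o p0 x

end order

section

variable {o p0 : W}

theorem memP {x p : W} (hx : inP H o p0 x) :
    p ∈ Cut H o p0 x ↔ inP H o p0 p ∧ Bet H o p x := by
  constructor
  · rintro ⟨h1, h2 | h2 | h2⟩
    · exact ⟨h1, h2.2⟩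
    · exact absurd h2.1 hx.1.2
    · exact absurd hx.2 h2.1.2
  · rintro ⟨h1, h2⟩
    exact ⟨h1, Or.inl ⟨hx, h2⟩⟩

theorem memN {x p : W} (hx : H.Adj o x) :
    p ∈ Cut H o p0 x ↔ inP H o p0 p ∧ H.Adj p x := by
  constructor
  · rintro ⟨h1, h2 | h2 | h2⟩
    · exact absurd hx h2.1.1.2
    · exact ⟨h1, h2.2⟩
    · exact absurd hx h2.1.1.2
  · rintro ⟨h1, h2⟩
    exact ⟨h1, Or.inr (Or.inl ⟨hx, h2⟩)⟩

theorem memM {x p : W} (hx : inM H o p0 x) :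
    p ∈ Cut H o p0 x ↔ inP H o p0 p ∧ ¬ H.Adj p x := by
  constructor
  · rintro ⟨h1, h2 | h2 | h2⟩
    · exact absurd h2.1.2 hx.2
    · exact absurd h2.1 hx.1.2
    · exact ⟨h1, h2.2⟩
  · rintro ⟨h1, h2⟩
    exact ⟨h1, Or.inr (Or.inr ⟨hx, h2⟩)⟩

theorem cases3 {x : W} (hx : x ≠ o) :
    (colr H o p0 x = 0 ∧ inP H o p0 x) ∨ (colr H o p0 x = 1 ∧ H.Adj o x) ∨
    (colr H o p0 x = 2 ∧ inM H o p0 x) := by
  unfold colr
  by_cases h1 : inP H o p0 x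
  · left; rw [if_pos h1]; exact ⟨rfl, h1⟩
  · rw [if_neg h1]
    by_cases h2 : H.Adj o x
    · right; left; rw [if_pos h2]; exact ⟨rfl, h2⟩
    · right; right; rw [if_neg h2]
      refine ⟨rfl, ⟨Ne.symm hx, h2⟩, fun h => h1 ⟨⟨Ne.symm hx, h2⟩, h⟩⟩

theorem inP.ne {x : W} (hx : inP H o p0 x) : x ≠ o := hx.1.1.symm
theorem inM.ne {x : W} (hx : inM H o p0 x) : x ≠ o := hx.1.1.symm

theorem colP {x : W} (hx : inP H o p0 x) : colr H o p0 x = 0 := by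
  unfold colr; rw [if_pos hx]
theorem colN {x : W} (hx : H.Adj o x) : colr H o p0 x = 1 := by
  unfold colr; rw [if_neg (fun h => h.1.2 hx), if_pos hx]
theorem colM {x : W} (hx : inM H o p0 x) : colr H o p0 x = 2 := by
  unfold colr; rw [if_neg (fun h => hx.2 h.2), if_neg hx.1.2]

theorem nself {x : W} (hx : inP H o p0 x) : x ∉ Cut H o p0 x := by
  rw [memP hx]
  rintro ⟨-, h⟩
  exact h.irr23

end

namespace Mid

variable {o p0 : W} (hM : Mid H)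
include hM

theorem ssPP {x y : W} (hx : inP H o p0 x) (hy : inP H o p0 y) : SS H o x y :=
  hM.ss_trans hx.2 hy.2.symm

theorem inP_of_bet {q p : W} (hp : inP H o p0 p) (h : Bet H o q p) : inP H o p0 q :=
  ⟨h.1.1, hM.ss_trans (Or.inr (Or.inl h)) hp.2⟩

theorem inP_of_bet' {q p : W} (hp : inP H o p0 p) (h : Bet H o p q) : inP H o p0 q :=
  ⟨h.1.2.1, hM.ss_trans (Or.inr (Or.inr h)) hp.2⟩

theorem perpPM {p m : W} (hp : inP H o p0 p) (hm : inM H o p0 m) : H.Adj p m ∨ Bet H p o m :=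
  hM.perp hp.1 hm.1 (fun h => hm.2 (hM.ss_trans h.symm hp.2))

end Mid

/-- the base configuration. -/
structure Base (H : SimpleGraph W) (o p0 : W) : Prop where
  mid : Mid H
  hp0 : Hᶜ.Adj o p0

namespace Base

variable {o p0 : W} (hB : Base H o p0)
include hB

theorem inP_of_perp {x m : W} (hx : Hᶜ.Adj o x) (hm : inM H o p0 m) (h : ¬ SS H o x m) :
    inP H o p0 x := ⟨hx, hB.mid.ss_two hx hm.1 hB.hp0 h hm.2⟩

theorem inP_of_adjM {x m : W} (hx : Hᶜ.Adj o x) (hm : inM H o p0 m) (h : H.Adj x m) :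
    inP H o p0 x := hB.inP_of_perp hx hm (fun hh => hh.not_adj h)

theorem inM_of_adjP {x p : W} (hx : Hᶜ.Adj o x) (hp : inP H o p0 p) (h : H.Adj x p) :
    inM H o p0 x := by
  refine ⟨hx, fun h1 => ?_⟩
  exact (hB.mid.ss_trans h1 hp.2.symm).not_adj h

theorem inP_of_betM {x m : W} (hm : inM H o p0 m) (h : Bet H m o x) : inP H o p0 x := by
  refine hB.inP_of_perp h.1.2.2 hm (fun hh => ?_)
  rcases hh with hh | hh | hh
  · exact h.1.2.1.1 hh.symm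
  · exact hB.mid.uniq' h hh.symm
  · exact hB.mid.uniq h hh

theorem ssMM {x y : W} (hx : inM H o p0 x) (hy : inM H o p0 y) : SS H o x y := by
  by_contra h
  exact hx.2 (by
    have h2 : ¬ SS H o y x := fun hh => h hh.symm
    exact absurd (hB.mid.ss_two hx.1 hy.1 hB.hp0 h hy.2) hx.2)

/-- the cuts are initial segments. -/
theorem down {x p q : W} (hp : p ∈ Cut H o p0 x) (hq : Bet H o q p) : q ∈ Cut H o p0 x := by
  have hqP := hB.mid.inP_of_bet hp.1 hq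
  refine ⟨hqP, ?_⟩
  rcases hp.2 with ⟨h1, h2⟩ | ⟨h1, h2⟩ | ⟨h1, h2⟩
  · exact Or.inl ⟨h1, (hB.mid.L1 hq h2).1⟩
  · exact Or.inr (Or.inl ⟨h1, (hq.2 x h1.symm h2.symm).symm⟩)
  · refine Or.inr (Or.inr ⟨h1, fun h3 => ?_⟩)
    rcases hB.mid.B1 hq h3.symm with k | k
    · exact h1.1.2 k.symm
    · exact h2 k.symm

theorem lt_of {x y p q : W} (hp : p ∈ Cut H o p0 y) (hq : q ∉ Cut H o p0 y)
    (hqP : inP H o p0 q) : Bet H o p q := by
  rcases hB.mid.ssPP hp.1 hqP with h | h | h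
  · exact absurd (h ▸ hp) hq
  · exact h
  · exact absurd (hB.down hp h) hq

theorem irr (x : W) : ¬ ltc H o p0 x x := by
  rintro ⟨p, h1, h2⟩
  exact h2 h1

theorem tr {x y z : W} (h1 : ltc H o p0 x y) (h2 : ltc H o p0 y z) : ltc H o p0 x z := by
  obtain ⟨p, hp1, hp2⟩ := h1
  obtain ⟨q, hq1, hq2⟩ := h2
  exact ⟨p, hB.down hq1 (hB.lt_of (x := x) hp1 hq2 hq1.1), hp2⟩

/-! comparisons -/

theorem ltPP {x y : W} (hx : inP H o p0 x) (hy : inP H o p0 y) (h : Bet H o x y) :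
    ltc H o p0 x y := ⟨x, (memP hy).2 ⟨hx, h⟩, nself hx⟩

theorem ltPN {x y : W} (hx : inP H o p0 x) (hy : H.Adj o y) (h : H.Adj x y) :
    ltc H o p0 x y := ⟨x, (memN hy).2 ⟨hx, h⟩, nself hx⟩

theorem ltNP {x y : W} (hx : inP H o p0 x) (hy : H.Adj o y) (h : ¬ H.Adj x y) :
    ltc H o p0 y x := by
  have hxy : x ≠ y := by rintro rfl; exact hx.1.2 hy
  obtain ⟨x', h1, h2⟩ := hB.mid.Kfact (e := x) (x := o) (y := y) hy hx.1.symm ⟨hxy, h⟩
  have hx' := hB.mid.inP_of_bet hx h2.symm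
  exact ⟨x', (memP hx).2 ⟨hx', h2.symm⟩, fun hh => h1.2 ((memN hy).1 hh).2⟩

theorem ltMP {x y : W} (hx : inP H o p0 x) (hy : inM H o p0 y) (h : H.Adj x y) :
    ltc H o p0 y x := by
  obtain ⟨x', h1, h2⟩ := hB.mid.Lfact h hx.1 hy.1
  exact ⟨x', (memP hx).2 ⟨hB.mid.inP_of_bet hx h2, h2⟩, fun hh => ((memM hy).1 hh).2 h1⟩

theorem ltPM {x y : W} (hx : inP H o p0 x) (hy : inM H o p0 y) (h : ¬ H.Adj x y) :
    ltc H o p0 x y := ⟨x, (memM hy).2 ⟨hx, h⟩, nself hx⟩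

theorem ltNM {x y : W} (hx : H.Adj o x) (hy : inM H o p0 y) (h : H.Adj x y) :
    ltc H o p0 x y := by
  obtain ⟨p, h1, h2⟩ := hB.mid.F6 (w := y) (w' := o) (a := x) hy.1.symm h hx.symm
  exact ⟨p, (memM hy).2 ⟨hB.inP_of_betM hy h1, fun hh => h1.1.2.1.2 hh.symm⟩,
    fun hh => h2.2 ((memN hx).1 hh).2⟩

theorem ltMN {x y : W} (hx : H.Adj o x) (hy : inM H o p0 y) (h : ¬ H.Adj x y) :
    ltc H o p0 y x := by
  have hne : x ≠ y := by rintro rfl; exact hy.1.2 hx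
  obtain ⟨p, hpx, hpy⟩ := (hB.mid.toTF.cn2_inf (a := x) (b := y) ⟨hne, h⟩).nonempty
  have hpo : Hᶜ.Adj o p := ⟨by rintro rfl; exact hy.1.2 hpy, fun hh =>
    hB.mid.toTF.tri x o p hx.symm hpx.symm hh⟩
  have hpP := hB.inP_of_adjM hpo hy hpy
  exact ⟨p, (memN hx).2 ⟨hpP, hpx⟩, fun hh => ((memM hy).1 hh).2 hpy⟩

theorem ltNN {x y : W} (hx : H.Adj o x) (hy : H.Adj o y) (hne : x ≠ y) :
    ltc H o p0 x y ∨ ltc H o p0 y x := by
  have hT := hB.mid.toTF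
  have hxy : Hᶜ.Adj x y := ⟨hne, hT.tri o x y hx hy⟩
  obtain ⟨q, hq1, hq2⟩ := hT.ncomp hxy
  obtain ⟨q', hq1', hq2'⟩ := hT.ncomp hxy.symm
  have hqo : Hᶜ.Adj o q := ⟨by rintro rfl; exact hq2 hy, fun hh => hT.tri x o q hx.symm hq1.symm hh⟩
  have hqo' : Hᶜ.Adj o q' :=
    ⟨by rintro rfl; exact hq2' hx, fun hh => hT.tri y o q' hy.symm hq1'.symm hh⟩
  have hnss : ¬ SS H o q q' := by
    rintro (h | h | h)
    · rw [h] at hq1; exact hq2' hq1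
    · exact hq2 (h.2 y hy.symm hq1'.symm).symm
    · exact hq2' (h.2 x hx.symm hq1.symm).symm
  by_cases hqP : SS H o q p0
  · right
    exact ⟨q, (memN hx).2 ⟨⟨hqo, hqP⟩, hq1⟩, fun hh => hq2 ((memN hy).1 hh).2⟩
  · left
    have hq'P : inP H o p0 q' := hB.inP_of_perp hqo' ⟨hqo, hqP⟩ (fun h => hnss h.symm)
    exact ⟨q', (memN hy).2 ⟨hq'P, hq1'⟩, fun hh => hq2' ((memN hx).1 hh).2⟩

theorem ltMM {x y : W} (hx : inM H o p0 x) (hy : inM H o p0 y) (h : Bet H o x y) :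
    ltc H o p0 y x := by
  obtain ⟨p, hp1, hp2⟩ := hB.mid.toTF.ncomp h.1.2.2.symm
  have hpo : Hᶜ.Adj o p :=
    ⟨by rintro rfl; exact hy.1.2 hp1, fun hh => hp2 (h.2 p hh.symm hp1)⟩
  have hpP := hB.inP_of_adjM hpo hy hp1
  exact ⟨p, (memM hx).2 ⟨hpP, hp2⟩, fun hh => ((memM hy).1 hh).2 hp1⟩

theorem tric {x y : W} (hx : x ≠ o) (hy : y ≠ o) :
    x = y ∨ ltc H o p0 x y ∨ ltc H o p0 y x := by
  rcases cases3 (H := H) (p0 := p0) hx with ⟨-, h1⟩ | ⟨-, h1⟩ | ⟨-, h1⟩ <;>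
    rcases cases3 (H := H) (p0 := p0) hy with ⟨-, h2⟩ | ⟨-, h2⟩ | ⟨-, h2⟩
  · rcases hB.mid.ssPP h1 h2 with h | h | h
    · exact Or.inl h
    · exact Or.inr (Or.inl (hB.ltPP h1 h2 h))
    · exact Or.inr (Or.inr (hB.ltPP h2 h1 h))
  · by_cases h : H.Adj x y
    · exact Or.inr (Or.inl (hB.ltPN h1 h2 h))
    · exact Or.inr (Or.inr (hB.ltNP h1 h2 h))
  · by_cases h : H.Adj x y
    · exact Or.inr (Or.inr (hB.ltMP h1 h2 h))
    · exact Or.inr (Or.inl (hB.ltPM h1 h2 h))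
  · by_cases h : H.Adj y x
    · exact Or.inr (Or.inr (hB.ltPN h2 h1 h))
    · exact Or.inr (Or.inl (hB.ltNP h2 h1 h))
  · by_cases hxy : x = y
    · exact Or.inl hxy
    · exact Or.inr (hB.ltNN h1 h2 hxy)
  · by_cases h : H.Adj x y
    · exact Or.inr (Or.inl (hB.ltNM h1 h2 h))
    · exact Or.inr (Or.inr (hB.ltMN h1 h2 h))
  · by_cases h : H.Adj y x
    · exact Or.inr (Or.inl (hB.ltMP h2 h1 h))
    · exact Or.inr (Or.inr (hB.ltPM h2 h1 h))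
  · by_cases h : H.Adj y x
    · exact Or.inr (Or.inr (hB.ltNM h2 h1 h))
    · exact Or.inr (Or.inl (hB.ltMN h2 h1 h))
  · rcases hB.ssMM h1 h2 with h | h | h
    · exact Or.inl h
    · exact Or.inr (Or.inr (hB.ltMM h1 h2 h))
    · exact Or.inr (Or.inl (hB.ltMM h2 h1 h))

/-! the three colours above `q` and below `p'` -/

theorem fill {q p' : W} (hq : inP H o p0 q) (h : Bet H o q p') (k : Fin 3) :
    ∃ z, z ≠ o ∧ colr H o p0 z = k ∧ q ∈ Cut H o p0 z ∧ p' ∉ Cut H o p0 z ∧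
      ∀ r ∈ Cut H o p0 z, r = q ∨ r ≠ p' := by
  have hp' := hB.mid.inP_of_bet' hq h
  have key : ∀ z, p' ∉ Cut H o p0 z → ∀ r ∈ Cut H o p0 z, r = q ∨ r ≠ p' := by
    intro z hz r hr
    right
    rintro rfl
    exact hz hr
  fin_cases k
  · exact ⟨p', hp'.ne, colP hp', (memP hp').2 ⟨hq, h⟩, nself hp', key _ (nself hp')⟩
  · obtain ⟨n, ⟨hn1, hn2⟩, hn3⟩ := (hB.mid.notBet_inf h.1.swap23 (hB.mid.uniq' h)).nonempty
    have hn4 : p' ∉ Cut H o p0 n := fun hh => hn3 ((memN hn1.symm).1 hh).2.symm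
    exact ⟨n, hn1.ne, colN hn1.symm, (memN hn1.symm).2 ⟨hq, hn2.symm⟩, hn4, key _ hn4⟩
  · obtain ⟨m, hm1, hm2⟩ := hB.mid.toTF.ncomp h.1.2.2.symm
    have hmo : Hᶜ.Adj o m := ⟨by rintro rfl; exact h.1.2.1.2 hm1, fun hh =>
      hm2 (h.2 m hh.symm hm1)⟩
    have hmM := hB.inM_of_adjP hmo hp' hm1
    have hm4 : p' ∉ Cut H o p0 m := fun hh => ((memM hmM).1 hh).2 hm1.symm
    exact ⟨m, hmM.ne, colM hmM, (memM hmM).2 ⟨hq, fun hh => hm2 hh.symm⟩, hm4, key _ hm4⟩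

theorem noMax {y p : W} (hy : y ≠ o) (hp : p ∈ Cut H o p0 y) :
    ∃ p' ∈ Cut H o p0 y, Bet H o p p' := by
  rcases cases3 (H := H) (p0 := p0) hy with ⟨-, h1⟩ | ⟨-, h1⟩ | ⟨-, h1⟩
  · obtain ⟨hpP, hb⟩ := (memP h1).1 hp
    obtain ⟨b, hb'⟩ := hB.mid.between hb.1.2.2
    obtain ⟨h2, h3⟩ := hB.mid.L1 hb'.symm hb.symm
    exact ⟨b, (memP h1).2 ⟨hB.mid.inP_of_bet' hpP h3.symm, h2.symm⟩, h3.symm⟩
  · obtain ⟨hpP, hb⟩ := (memN h1).1 hp
    obtain ⟨p', h2, h3⟩ := hB.mid.Efact hpP.1 h1.symm hb.symm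
    exact ⟨p', (memN h1).2 ⟨hB.mid.inP_of_bet' hpP h2, h3.symm⟩, h2⟩
  · obtain ⟨hpP, hb⟩ := (memM h1).1 hp
    have h2 := (hB.mid.perpPM hpP h1).resolve_left hb
    obtain ⟨p', h3⟩ := hB.mid.beyond (w := y) (w' := p) h2.1.2.1.symm
    obtain ⟨h4, h5⟩ := hB.mid.L1 h2.symm h3
    exact ⟨p', (memM h1).2 ⟨hB.mid.inP_of_bet' hpP h5, fun hh => h4.1.2.1.2 hh.symm⟩, h5⟩

theorem densec {x y : W} (hx : x ≠ o) (hy : y ≠ o) (h : ltc H o p0 x y) (k : Fin 3) :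
    ∃ z, z ≠ o ∧ colr H o p0 z = k ∧ ltc H o p0 x z ∧ ltc H o p0 z y := by
  obtain ⟨q, hq1, hq2⟩ := h
  obtain ⟨p', hp1, hp2⟩ := hB.noMax hy hq1
  obtain ⟨z, hz, hzk, hz1, hz2, -⟩ := hB.fill hq1.1 hp2 k
  exact ⟨z, hz, hzk, ⟨q, hz1, hq2⟩, ⟨p', hp1, hz2⟩⟩

theorem exists_notin {x : W} (hx : x ≠ o) : ∃ q, inP H o p0 q ∧ q ∉ Cut H o p0 x := by
  have hP0 : inP H o p0 p0 := ⟨hB.hp0, Or.inl rfl⟩
  rcases cases3 (H := H) (p0 := p0) hx with ⟨-, h1⟩ | ⟨-, h1⟩ | ⟨-, h1⟩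
  · exact ⟨x, h1, nself h1⟩
  · by_cases h : H.Adj p0 x
    · obtain ⟨e, he, hex⟩ := hB.mid.F6 hB.hp0 h1.symm h.symm
      exact ⟨e, hB.mid.inP_of_bet' hP0 he, fun hh => hex.2 ((memN h1).1 hh).2⟩
    · exact ⟨p0, hP0, fun hh => h ((memN h1).1 hh).2⟩
  · obtain ⟨p, hp1, hp2⟩ := (hB.mid.diff_inf h1.1).nonempty
    have hpo : Hᶜ.Adj o p := ⟨by rintro rfl; exact h1.1.2 hp1, fun hh => hp2 hh.symm⟩
    exact ⟨p, hB.inP_of_adjM hpo h1 hp1, fun hh => ((memM h1).1 hh).2 hp1⟩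

theorem exists_in {x : W} (hx : x ≠ o) : ∃ q, q ∈ Cut H o p0 x := by
  have hP0 : inP H o p0 p0 := ⟨hB.hp0, Or.inl rfl⟩
  rcases cases3 (H := H) (p0 := p0) hx with ⟨-, h1⟩ | ⟨-, h1⟩ | ⟨-, h1⟩
  · obtain ⟨b, hb⟩ := hB.mid.between h1.1
    exact ⟨b, (memP h1).2 ⟨hB.mid.inP_of_bet h1 hb, hb⟩⟩
  · by_cases h : H.Adj p0 x
    · exact ⟨p0, (memN h1).2 ⟨hP0, h⟩⟩
    · have hne : p0 ≠ x := by rintro rfl; exact hB.hp0.2 h1
      obtain ⟨x', h2, h3⟩ := hB.mid.Lfact h1 hB.hp0.symm ⟨hne, h⟩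
      exact ⟨x', (memN h1).2 ⟨hB.mid.inP_of_bet hP0 h3.symm, h2⟩⟩
  · obtain ⟨p, hp⟩ := hB.mid.beyond h1.1.symm
    exact ⟨p, (memM h1).2 ⟨hB.inP_of_betM h1 hp, fun hh => hp.1.2.1.2 hh.symm⟩⟩

theorem cord : COrd H o (colr H o p0) (ltc H o p0) where
  irr := hB.irr
  tr := fun x y z => hB.tr
  tri := fun x y => hB.tric
  dense := fun x y hx hy h k => hB.densec hx hy h k
  above := by
    intro x hx k
    obtain ⟨q, hq1, hq2⟩ := hB.exists_notin hx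
    obtain ⟨p', hp'⟩ := hB.mid.beyond hq1.1
    obtain ⟨z, hz, hzk, hz1, -, -⟩ := hB.fill hq1 hp' k
    exact ⟨z, hz, hzk, q, hz1, hq2⟩
  below := by
    intro x hx k
    obtain ⟨p', hp'⟩ := hB.exists_in hx
    obtain ⟨q, hq⟩ := hB.mid.between hp'.1.1
    obtain ⟨z, hz, hzk, -, hz2, -⟩ := hB.fill (hB.mid.inP_of_bet hp'.1 hq) hq k
    exact ⟨z, hz, hzk, p', hp', hz2⟩
  some := by
    intro k
    have hP0 : inP H o p0 p0 := ⟨hB.hp0, Or.inl rfl⟩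
    obtain ⟨p', hp'⟩ := hB.mid.beyond hB.hp0
    obtain ⟨z, hz, hzk, -⟩ := hB.fill hP0 hp' k
    exact ⟨z, hz, hzk⟩
  adj_o := by
    intro x hx
    rcases cases3 (H := H) (p0 := p0) hx with ⟨h0, h1⟩ | ⟨h0, h1⟩ | ⟨h0, h1⟩ <;> rw [h0]
    · exact ⟨fun h => absurd h h1.1.2, fun h => absurd h (by decide)⟩
    · exact ⟨fun _ => rfl, fun _ => h1⟩
    · exact ⟨fun h => absurd h h1.1.2, fun h => absurd h (by decide)⟩
  adj := by
    intro x y hx hy hxy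
    have hasym : ∀ a b, ltc H o p0 a b → ¬ ltc H o p0 b a := fun a b h1 h2 =>
      hB.irr _ (hB.tr h1 h2)
    rcases cases3 (H := H) (p0 := p0) hx with ⟨h0, h1⟩ | ⟨h0, h1⟩ | ⟨h0, h1⟩ <;>
      rcases cases3 (H := H) (p0 := p0) hy with ⟨k0, k1⟩ | ⟨k0, k1⟩ | ⟨k0, k1⟩ <;>
      rw [h0, k0] at hxy <;> first | (exact absurd hxy (by decide)) | skip
    · refine ⟨fun h => hB.ltPN h1 k1 h, fun h => ?_⟩
      by_contra hn
      exact hasym _ _ h (hB.ltNP h1 k1 hn)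
    · refine ⟨fun h => hB.ltNM h1 k1 h, fun h => ?_⟩
      by_contra hn
      exact hasym _ _ h (hB.ltMN h1 k1 hn)
    · refine ⟨fun h => hB.ltMP k1 h1 h.symm, fun h => ?_⟩
      by_contra hn
      exact hasym _ _ h (hB.ltPM k1 h1 (fun hh => hn hh.symm))
  nadj := by
    intro x y hx hy hxy
    rcases cases3 (H := H) (p0 := p0) hx with ⟨h0, h1⟩ | ⟨h0, h1⟩ | ⟨h0, h1⟩ <;>
      rcases cases3 (H := H) (p0 := p0) hy with ⟨k0, k1⟩ | ⟨k0, k1⟩ | ⟨k0, k1⟩ <;>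
      rw [h0, k0] at hxy <;> first | (exact absurd hxy (by decide)) | skip
    · exact (hB.mid.ssPP h1 k1).not_adj
    · exact hB.mid.toTF.tri o x y h1 k1
    · exact (hB.ssMM h1 k1).not_adj

end Base

end Run7.h901
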