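import Pool.Agent.Run7.h901.C5
import Pool.Agent.Run7.h901.N2
import Pool.Agent.Run7.h901.Model

/-!
Classification for finite clique number, without any transitivity hypothesis on triples.
-/

open scoped Classical

namespace Run7.h901

universe u
variable {V : Type u} {G : SimpleGraph V}

/-- countable graphs with middles are isomorphic to `R3c`. -/
theorem mid_iso {W : Type u} [Countable W] {H : SimpleGraph W} (hM : Mid H) :
    Nonempty (H ≃g R3c) := by
  obtain ⟨a, b, c, hb⟩ := hM.mid'
  exact (Base.cord ⟨hM, hb.1.1⟩).iso model_cord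

theorem exists_iso_univ (h : ∀ x, x ∈ cn G ∅) : Nonempty (G ≃g G.induce (cn G ∅)) :=
  ⟨{ toFun := fun x => ⟨x, h x⟩
     invFun := fun x => x.1
     left_inv := fun x => rfl
     right_inv := fun x => rfl
     map_rel_iff' := Iff.rfl }⟩

/-- finite clique number. -/
theorem main2_cliqueFree [Countable V] [Infinite V] (hG : SetHomogeneous G) {N : ℕ}
    (hN : G.CliqueFree N) :
    (Homogeneous G ∧ (EqualCliques G ∨ EqualCliques Gᶜ ∨ ∃ m, 3 ≤ m ∧ GenericCliqueFree G m)) ∨
      Nonempty (G ≃g R3c) := by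
  by_cases hP3 : HasP3 G Set.univ
  swap
  · exact Or.inl ⟨P12_noP3 hG hP3, Or.inl (compl_transfer_equalCliques hG hP3)⟩
  by_cases hK12 : HasK12 G Set.univ
  swap
  · have hno : ¬ HasP3 Gᶜ Set.univ := by
      rintro ⟨a, -, b, -, c, -, hab, hbc, hac⟩
      rw [compl_compl] at hac
      exact hK12 ⟨b, trivial, a, trivial, c, trivial, hac, hab.symm, hbc⟩
    exact Or.inl ⟨(P12_noP3 hG.compl hno).of_compl,
      Or.inr (Or.inl (compl_transfer_equalCliques hG.compl hno))⟩
  -- the clique number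
  have hex : ∃ m, G.CliqueFree m := ⟨N, hN⟩
  obtain ⟨n, hn⟩ : ∃ n, Nat.find hex = n + 1 := by
    apply Nat.exists_eq_succ_of_ne_zero
    intro h0
    have := Nat.find_spec hex
    rw [h0] at this
    exact this ∅ (by simp)
  have hcf : G.CliqueFree (n + 1) := hn ▸ Nat.find_spec hex
  have hc : Ctx G n := ⟨hG, hcf, by
    have := Nat.find_min hex (m := n) (by omega)
    unfold SimpleGraph.CliqueFree at this
    push Not at this
    exact this⟩
  have h0 : Good G 0 := by
    intro C hC
    have : C = ∅ := SimpleGraph.isNClique_zero.1 hC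
    subst this
    rw [cn_empty]
    exact ⟨Set.infinite_univ, hP3, hK12⟩
  have hn2 : 2 ≤ n := by
    obtain ⟨a, -, b, -, c, -, hab, -, -⟩ := hP3
    have h1 : G.IsNClique 2 {a, b} := by
      have := insert_clique (G := G) (k := 1) (C := {b}) (by simp) (v := a) (by
        intro u hu; rw [Finset.mem_singleton] at hu; rw [hu]; exact hab)
      simpa using this
    have := hc.card_le h1.1
    rwa [h1.2] at this
  by_cases hs : NoSm G (n - 2) 1
  · left
    have hEP := EP_all' hc hn2 h0 hs (n - 1) (by omega) (by omega)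
    have e1 : n - (n - 1 + 1) = 0 := by omega
    have e2 : n - 1 + 1 = n := by omega
    rw [e1, e2] at hEP
    have hgen := generic_of_EP hc hEP
    exact ⟨homogeneous_of_generic hgen, Or.inr (Or.inr ⟨n + 1, by omega, hgen⟩)⟩
  · right
    have hn3 : ¬ 3 ≤ n := fun h => hs (noSm_base hc h h0)
    have hn' : n = 2 := by omega
    subst hn'
    have hM := Mid_all hc (k := 0) rfl h0 hs ∅ (by simp)
    obtain ⟨e⟩ := exists_iso_univ (G := G) (fun x => by simp)
    obtain ⟨f⟩ := mid_iso hM
    exact ⟨e.trans f⟩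

theorem main2_bounded [Countable V] [Infinite V] (hG : SetHomogeneous G) {N : ℕ}
    (hN : G.CliqueFree N ∨ Gᶜ.CliqueFree N) :
    (Homogeneous G ∧ (EqualCliques G ∨ EqualCliques Gᶜ ∨
      ∃ m, 3 ≤ m ∧ (GenericCliqueFree G m ∨ GenericCliqueFree Gᶜ m))) ∨
      Nonempty (G ≃g R3c) ∨ Nonempty (Gᶜ ≃g R3c) := by
  rcases hN with hN | hN
  · rcases main2_cliqueFree hG hN with ⟨h1, h2⟩ | h
    · left
      refine ⟨h1, ?_⟩
      rcases h2 with h2 | h2 | ⟨m, h2, h3⟩
      · exact Or.inl h2
      · exact Or.inr (Or.inl h2)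
      · exact Or.inr (Or.inr ⟨m, h2, Or.inl h3⟩)
    · exact Or.inr (Or.inl h)
  · rcases main2_cliqueFree hG.compl hN with ⟨h1, h2⟩ | h
    · left
      refine ⟨h1.of_compl, ?_⟩
      rcases h2 with h2 | h2 | ⟨m, h2, h3⟩
      · exact Or.inr (Or.inl h2)
      · rw [compl_compl] at h2; exact Or.inl h2
      · exact Or.inr (Or.inr ⟨m, h2, Or.inr h3⟩)
    · exact Or.inr (Or.inr h)

end Run7.h901
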