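import Pool.Agent.Run7.h901.Alpha2
import Pool.Agent.Run7.h901.Main2

/-!
Classification when some complete split graph is omitted.
-/

open scoped Classical

namespace Run7.h901

universe u
variable {V : Type u} {G : SimpleGraph V}

/-- for some `j` and `N`, no `j`-clique is completely joined to an independent set of size `N`. -/
def OmitsSplit (G : SimpleGraph V) : Prop :=
  ∃ j N : ℕ, ∀ C I : Finset V, G.IsNClique j C → Gᶜ.IsNClique N I → ∃ c ∈ C, ∃ x ∈ I, ¬ G.Adj c x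

theorem Indp.isClique {I : Finset V} (h : Indp G I) : Gᶜ.IsClique (I : Set V) :=
  fun x hx y hy hxy => ⟨hxy, h x hx y hy⟩

theorem bdd_of_omits (h : OmitsSplit G) : ∃ i N, BddAt G i N := by
  obtain ⟨j, N, h⟩ := h
  refine ⟨j, N, fun C hC I hI hIC => ?_⟩
  by_contra hlt
  push Not at hlt
  obtain ⟨J, hJ, hJc⟩ := Finset.exists_subset_card_eq (s := I) (n := N) (by omega)
  obtain ⟨c, hc, x, hx, hcx⟩ := h C J hC ⟨(hI.subset hJ).isClique, hJc⟩
  exact hcx (hIC x (hJ hx) c hc).symm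

theorem ex_indp (h : ∀ n, ¬ Gᶜ.CliqueFree n) (n : ℕ) : ∃ I : Finset V, Indp G I ∧ I.card = n := by
  have := h n
  unfold SimpleGraph.CliqueFree at this
  push Not at this
  obtain ⟨I, hI⟩ := this
  refine ⟨I, fun x hx y hy hxy => ?_, hI.2⟩
  exact (hI.1 hx hy hxy.ne).2 hxy

theorem ex_cl (h : ∀ n, ¬ G.CliqueFree n) (n : ℕ) : ∃ C : Finset V, G.IsNClique n C := by
  have := h n
  unfold SimpleGraph.CliqueFree at this
  push Not at this
  exact this

/-- **Main theorem.** -/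
theorem main3 [Countable V] [Infinite V] (hG : SetHomogeneous G)
    (h : OmitsSplit G ∨ OmitsSplit Gᶜ) :
    (Homogeneous G ∧ (EqualCliques G ∨ EqualCliques Gᶜ ∨
      ∃ m, 3 ≤ m ∧ (GenericCliqueFree G m ∨ GenericCliqueFree Gᶜ m))) ∨
      Nonempty (G ≃g R3c) ∨ Nonempty (Gᶜ ≃g R3c) := by
  by_cases hN : ∃ N, G.CliqueFree N ∨ Gᶜ.CliqueFree N
  · obtain ⟨N, hN⟩ := hN
    exact main2_bounded hG hN
  push Not at hN
  have h1 : ∀ n, ¬ G.CliqueFree n := fun n => (hN n).1
  have h2 : ∀ n, ¬ Gᶜ.CliqueFree n := fun n => (hN n).2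
  left
  rcases h with h | h
  · have hno := alpha ⟨hG, ex_cl h1⟩ (ex_indp h2) (bdd_of_omits h)
    exact ⟨P12_noP3 hG hno, Or.inl (compl_transfer_equalCliques hG hno)⟩
  · have hno := alpha (G := Gᶜ) ⟨hG.compl, ex_cl h2⟩ (ex_indp (by rw [compl_compl]; exact h1))
      (bdd_of_omits h)
    exact ⟨(P12_noP3 hG.compl hno).of_compl,
      Or.inr (Or.inl (compl_transfer_equalCliques hG.compl hno))⟩

end Run7.h901
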