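import Pool.Agent.Run7.h901.LR

/-!
Classification up to the graphs which embed all split graphs, or all bipartite graphs together with
their complements.
-/

open scoped Classical

namespace Run7.h901

universe u
variable {V : Type u} {G : SimpleGraph V}

/-- every bijection between two finite complete subgraphs extends to an automorphism. -/
def CliqueHomogeneous (G : SimpleGraph V) : Prop :=
  ∀ (n : ℕ) (f g : Fin n → V), Function.Injective f → Function.Injective g →
    (∀ i j, i ≠ j → G.Adj (f i) (f j)) → (∀ i j, i ≠ j → G.Adj (g i) (g j)) →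
    ∃ φ : G ≃g G, ∀ i, φ (f i) = g i

/-- every set of members of a finite complete subgraph is the set of neighbours, in that subgraph,
of some vertex outside it. -/
def CliqueTraces (G : SimpleGraph V) : Prop :=
  ∀ (K T : Finset V), G.IsClique (K : Set V) → T ⊆ K →
    ∃ v, v ∉ K ∧ ∀ x ∈ K, (G.Adj v x ↔ x ∈ T)

/-- what is proved of the set-homogeneous graphs which are not on the list. -/
structure Rest (G : SimpleGraph V) : Prop where
  cliques : CliqueHomogeneous G
  indep : CliqueHomogeneous Gᶜ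
  traces : CliqueTraces G
  cotraces : CliqueTraces Gᶜ
  embeds : EmbedsSplit G ∨ (EmbedsBipartite G ∧ EmbedsBipartite Gᶜ)

theorem Rich.cliqueHomogeneous_compl (h : Rich G) : CliqueHomogeneous Gᶜ := by
  intro n f g hf hg hf' hg'
  obtain ⟨φ, hφ⟩ := sym_tuple h n f g hf hg
    (fun i j => by
      by_cases hij : i = j
      · subst hij; exact G.irrefl
      · exact (hf' i j hij).2)
    (fun i j => by
      by_cases hij : i = j
      · subst hij; exact G.irrefl
      · exact (hg' i j hij).2)
  exact ⟨complAut φ, hφ⟩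

theorem Rich.cliqueHomogeneous (h : Rich G) : CliqueHomogeneous G := by
  have := h.compl.cliqueHomogeneous_compl
  rwa [compl_compl] at this

theorem Rich.traces_compl (h : Rich G) : CliqueTraces Gᶜ := by
  intro K T hK hT
  have hKi : Indp G K := by
    intro a ha b hb hab
    exact (hK ha hb hab.ne).2 hab
  obtain ⟨v, h1, h2⟩ := trace h (ι := K) (fun x => x.1) Subtype.val_injective
    (fun i j => hKi _ i.2 _ j.2) (fun x => x.1 ∉ T)
  have hvK : v ∉ K := fun hv => h1 ⟨v, hv⟩ rfl
  refine ⟨v, hvK, fun x hx => ?_⟩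
  have h3 := h2 ⟨x, hx⟩
  rw [SimpleGraph.compl_adj]
  constructor
  · rintro ⟨-, h4⟩
    by_contra hn
    exact h4 (h3.2 hn)
  · intro hxT
    exact ⟨fun he => hvK (he ▸ hx), fun hadj => h3.1 hadj hxT⟩

theorem Rich.traces (h : Rich G) : CliqueTraces G := by
  have := h.compl.traces_compl
  rwa [compl_compl] at this

theorem Rich.rest (h : Rich G) : Rest G :=
  ⟨h.cliqueHomogeneous, h.cliqueHomogeneous_compl, h.traces, h.traces_compl, rich_embeds h⟩

/-- homogeneity for families. -/
theorem Homogeneous.fam (h : Homogeneous G) {n : ℕ} {f g : Fin n → V} (hf : Function.Injective f)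
    (hg : Function.Injective g) (hfg : ∀ i j, G.Adj (f i) (f j) ↔ G.Adj (g i) (g j)) :
    ∃ φ : G ≃g G, ∀ i, φ (f i) = g i := by
  let e : Set.range f ≃ Set.range g :=
    (Equiv.ofInjective f hf).symm.trans (Equiv.ofInjective g hg)
  have he : ∀ i, e ⟨f i, i, rfl⟩ = ⟨g i, i, rfl⟩ := by
    intro i
    simp only [e, Equiv.trans_apply]
    have : (Equiv.ofInjective f hf).symm ⟨f i, i, rfl⟩ = i := by
      rw [Equiv.symm_apply_eq]; rfl
    rw [this]; rfl
  obtain ⟨φ, hφ⟩ := h (Set.range f) (Set.range g) (Set.finite_range f) (Set.finite_range g)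
    { toEquiv := e
      map_rel_iff' := by
        rintro ⟨_, i, rfl⟩ ⟨_, j, rfl⟩
        rw [he, he]
        simp [SimpleGraph.comap_adj, (hfg i j)] }
  refine ⟨φ, fun i => ?_⟩
  have := hφ ⟨f i, i, rfl⟩
  rw [this]
  show ((e ⟨f i, i, rfl⟩ : Set.range g) : V) = g i
  rw [he]

theorem Homogeneous.cliqueHomogeneous (h : Homogeneous G) : CliqueHomogeneous G := by
  intro n f g hf hg hf' hg'
  apply h.fam hf hg
  intro i j
  by_cases hij : i = j
  · subst hij; simp
  · exact ⟨fun _ => hg' i j hij, fun _ => hf' i j hij⟩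

theorem Homogeneous.cliqueHomogeneous_compl (h : Homogeneous G) : CliqueHomogeneous Gᶜ := by
  intro n f g hf hg hf' hg'
  obtain ⟨φ, hφ⟩ := h.fam hf hg (fun i j => by
    by_cases hij : i = j
    · subst hij; simp
    · exact ⟨fun hadj => absurd hadj (hf' i j hij).2, fun hadj => absurd hadj (hg' i j hij).2⟩)
  exact ⟨complAut φ, hφ⟩

/-- **Main theorem.** -/
theorem main4 [Countable V] [Infinite V] (hG : SetHomogeneous G) :
    (Homogeneous G ∧ (EqualCliques G ∨ EqualCliques Gᶜ ∨
      ∃ m, 3 ≤ m ∧ (GenericCliqueFree G m ∨ GenericCliqueFree Gᶜ m))) ∨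
      Nonempty (G ≃g R3c) ∨ Nonempty (Gᶜ ≃g R3c) ∨ Rest G := by
  by_cases hN : ∃ N, G.CliqueFree N ∨ Gᶜ.CliqueFree N
  · obtain ⟨N, hN⟩ := hN
    rcases main2_bounded hG hN with h | h | h
    · exact Or.inl h
    · exact Or.inr (Or.inl h)
    · exact Or.inr (Or.inr (Or.inl h))
  push Not at hN
  have h1 : ∀ n, ¬ G.CliqueFree n := fun n => (hN n).1
  have h2 : ∀ n, ¬ Gᶜ.CliqueFree n := fun n => (hN n).2
  by_cases hP : HasP3 G Set.univ
  · by_cases hK : HasP3 Gᶜ Set.univ
    · right; right; right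
      refine Rich.rest ⟨hG, ex_cl h1, ex_indp h2, hP, ?_⟩
      obtain ⟨a, -, b, -, c, -, h1, h2, h3⟩ := hK
      rw [compl_compl] at h3
      exact ⟨b, trivial, a, trivial, c, trivial, h3, h1.symm, h2⟩
    · exact Or.inl ⟨(P12_noP3 hG.compl hK).of_compl,
        Or.inr (Or.inl (compl_transfer_equalCliques hG.compl hK))⟩
  · exact Or.inl ⟨P12_noP3 hG hP, Or.inl (compl_transfer_equalCliques hG hP)⟩

end Run7.h901
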