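import Pool.Agent.Run7.h901.Defs

/-!
GQ exclusion.
-/

open scoped Classical

namespace Run7.h901

universe u
variable {V : Type u} {G : SimpleGraph V}

/-- nonadjacent pairs in the common neighbourhood of a `k`-clique have a common neighbour there,
once some `P₃` occurs. -/
theorem common_nbr (hG : SetHomogeneous G) {k : ℕ} {C : Finset V} (hC : G.IsNClique k C)
    (hP3 : HasP3 G (cn G C)) {x y : V} (hx : x ∈ cn G C) (hy : y ∈ cn G C) (hxy : Gᶜ.Adj x y) :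
    ∃ v ∈ cn G C, G.Adj v x ∧ G.Adj v y := by
  obtain ⟨a, ha, b, hb, c, hcc, hab, hbc, hac⟩ := hP3
  obtain ⟨φ, -, h2, h3⟩ := pair_conj hG hC hC hac hxy ha hcc hx hy
  refine ⟨φ b, by rw [← h2]; exact ⟨b, hb, rfl⟩, ?_⟩
  rcases h3 with ⟨h3, h4⟩ | ⟨h3, h4⟩
  · rw [← h3, ← h4, φ.map_adj_iff, φ.map_adj_iff]; exact ⟨hab.symm, hbc⟩
  · rw [← h3, ← h4, φ.map_adj_iff, φ.map_adj_iff]; exact ⟨hbc, hab.symm⟩

section GQ

variable {n j : ℕ}

/-- (g0) -/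
theorem g0 {C : Finset V} (hC : G.IsNClique j C)
    (hcl : ∀ C : Finset V, G.IsNClique (j + 2) C → ∀ p ∈ cn G C, ∀ q ∈ cn G C, p ≠ q → G.Adj p q)
    {x y p q : V} (hx : x ∈ cn G C) (hy : y ∈ cn G C) (hp : p ∈ cn G C) (hq : q ∈ cn G C)
    (hxy : G.Adj x y) (hpx : G.Adj p x) (hpy : G.Adj p y) (hqx : G.Adj q x) (hqy : G.Adj q y)
    (hpq : p ≠ q) : G.Adj p q := by
  have h1 := insert_clique (insert_clique hC hy) (v := x) (mem_cn_insert.2 ⟨hxy, hx⟩)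
  exact hcl _ h1 p (mem_cn_insert.2 ⟨hpx, mem_cn_insert.2 ⟨hpy, hp⟩⟩) q
    (mem_cn_insert.2 ⟨hqx, mem_cn_insert.2 ⟨hqy, hq⟩⟩) hpq

/-- (g1) -/
theorem g1 (hc : Ctx G n) (hj : j + 3 ≤ n) {C : Finset V} (hC : G.IsNClique j C)
    (hP3 : HasP3 G (cn G C))
    (hcl : ∀ C : Finset V, G.IsNClique (j + 2) C → ∀ p ∈ cn G C, ∀ q ∈ cn G C, p ≠ q → G.Adj p q)
    {x y w : V} (hx : x ∈ cn G C) (hy : y ∈ cn G C) (hw : w ∈ cn G C)
    (hxy : G.Adj x y) (hwx : Gᶜ.Adj w x) (hwy : Gᶜ.Adj w y) :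
    ∃ p ∈ cn G C, G.Adj p x ∧ G.Adj p y ∧ G.Adj p w := by
  -- one configuration: `x ≁ w` with common neighbour `a`
  obtain ⟨a, ha, hax, haw⟩ := common_nbr hc.sh hC hP3 hx hw hwx.symm
  have h1 := insert_clique (insert_clique hC hx) (v := a) (mem_cn_insert.2 ⟨hax, ha⟩)
  obtain ⟨z, hz⟩ := hc.ext h1 (by omega)
  rw [mem_cn_insert, mem_cn_insert] at hz
  obtain ⟨hza, hzx, hzC⟩ := hz
  have hzw : ¬ G.Adj z w := by
    intro hzw
    exact hwx.2 (g0 hC hcl ha hzC hw hx hza.symm haw.symm hzw.symm hax.symm hzx.symm hwx.1)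
  have hzw' : z ≠ w := by
    rintro rfl; exact hwx.2 hzx
  have hwx' : ¬ G.Adj x w := fun h => hwx.2 h.symm
  have hwy' : ¬ G.Adj y w := fun h => hwy.2 h.symm
  have hzw'' : ¬ G.Adj w z := fun h => hzw h.symm
  obtain ⟨φ, hφ⟩ := T0C hc.sh hC hC (ι := Fin 3) (y := ![x, z, w]) (y' := ![x, y, w])
    (by
      intro i j
      fin_cases i <;> fin_cases j <;> simp [hzx.ne, hzx.ne.symm, hzw', hzw'.symm, hwx.1, hwx.1.symm])
    (by
      intro i j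
      fin_cases i <;> fin_cases j <;>
        simp [hxy.ne, hxy.ne.symm, hwy.1, hwy.1.symm, hwx.1, hwx.1.symm])
    (by
      intro i j
      fin_cases i <;> fin_cases j <;>
        simp [hzx, hzx.symm, hzw, hzw'', hwx.2, hwx', hxy, hxy.symm, hwy.2, hwy'])
    (by intro i; fin_cases i <;> simp [hx, hzC, hw])
    (by intro i; fin_cases i <;> simp [hx, hy, hw])
  obtain ⟨p, hp, hpi⟩ := nonempty_of_image hφ ⟨a, ha, by
    intro i; fin_cases i
    · exact hax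
    · exact hza.symm
    · exact haw⟩
  exact ⟨p, hp, hpi 0, hpi 1, hpi 2⟩

/-- the set `P` of common neighbours of a nonadjacent pair is independent. -/
theorem P_indep {C : Finset V} (hC : G.IsNClique j C)
    (hcl : ∀ C : Finset V, G.IsNClique (j + 2) C → ∀ p ∈ cn G C, ∀ q ∈ cn G C, p ≠ q → G.Adj p q)
    {x y : V} (hx : x ∈ cn G C) (hy : y ∈ cn G C) (hxy : Gᶜ.Adj x y) {p q : V}
    (hp : p ∈ cn G C) (hq : q ∈ cn G C) (hpx : G.Adj p x) (hpy : G.Adj p y) (hqx : G.Adj q x)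
    (hqy : G.Adj q y) : ¬ G.Adj p q := by
  intro hpq
  exact hxy.2 (g0 hC hcl hp hq hx hy hpq hpx.symm hqx.symm hpy.symm hqy.symm hxy.1)

theorem P_inf (hc : Ctx G n) (hj : j + 3 ≤ n) (hgood : Good G j)
    (hcl : ∀ C : Finset V, G.IsNClique (j + 2) C → ∀ p ∈ cn G C, ∀ q ∈ cn G C, p ≠ q → G.Adj p q)
    {C : Finset V} (hC : G.IsNClique j C)
    {x y : V} (hx : x ∈ cn G C) (hy : y ∈ cn G C) (hxy : Gᶜ.Adj x y) :
    {p | p ∈ cn G C ∧ G.Adj p x ∧ G.Adj p y}.Infinite := by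
  intro hfin
  have hinf : (cn G (insert x C)).Infinite :=
    infinite_succ hc.sh (fun C hC => ⟨(hgood C hC).1, (hgood C hC).2.1⟩) _ (insert_clique hC hx)
  have hfin2 : (⋃ p ∈ {p | p ∈ cn G C ∧ G.Adj p x ∧ G.Adj p y},
      cn G (insert p (insert x C))).Finite := by
    apply hfin.biUnion
    rintro p ⟨hp, hpx, hpy⟩
    apply hc.finite_of_clique
    have h1 := insert_clique (insert_clique hC hx) (v := p) (mem_cn_insert.2 ⟨hpx, hp⟩)
    exact fun a ha b hb hab => hcl _ h1 a ha b hb hab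
  obtain ⟨k, hk, hk'⟩ := (hinf.sdiff ((hfin.union hfin2).union (Set.finite_singleton y))).nonempty
  rw [mem_cn_insert] at hk
  obtain ⟨hkx, hkC⟩ := hk
  have hky : k ≠ y := fun h => hk' (Or.inr h)
  have hky' : ¬ G.Adj k y := fun h => hk' (Or.inl (Or.inl ⟨hkC, hkx, h⟩))
  obtain ⟨p, hp, hpx, hpk, hpy⟩ := g1 hc hj hC (hgood C hC).2.1 hcl hx hkC hy hkx.symm hxy.symm
    ⟨hky.symm, fun h => hky' h.symm⟩
  apply hk'
  left; right
  rw [Set.mem_iUnion₂]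
  exact ⟨p, ⟨hp, hpx, hpy⟩, mem_cn_insert.2 ⟨hpk.symm, mem_cn_insert.2 ⟨hkx, hkC⟩⟩⟩

/-- common neighbours for `K₂ + 2K₁`. -/
theorem g2 (hc : Ctx G n) (hj : j + 4 ≤ n) (hgood : Good G j)
    (hcl : ∀ C : Finset V, G.IsNClique (j + 2) C → ∀ p ∈ cn G C, ∀ q ∈ cn G C, p ≠ q → G.Adj p q)
    {C : Finset V} (hC : G.IsNClique j C) {u t v w : V} (hu : u ∈ cn G C) (ht : t ∈ cn G C)
    (hv : v ∈ cn G C) (hw : w ∈ cn G C) (hut : G.Adj u t) (huv : Gᶜ.Adj u v) (huw : Gᶜ.Adj u w)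
    (htv : Gᶜ.Adj t v) (htw : Gᶜ.Adj t w) (hvw : Gᶜ.Adj v w) :
    ∃ q ∈ cn G C, G.Adj q u ∧ G.Adj q t ∧ G.Adj q v ∧ G.Adj q w := by
  -- one configuration
  have hP := P_inf hc (by omega) hgood hcl hC hv hw hvw
  obtain ⟨x1, h1C, h1v, h1w⟩ := hP.nonempty
  obtain ⟨x2, ⟨h2C, h2v, h2w⟩, h21⟩ := (hP.sdiff (Set.finite_singleton x1)).nonempty
  obtain ⟨x3, ⟨h3C, h3v, h3w⟩, h3n⟩ := (hP.sdiff (Set.toFinite {x1, x2})).nonempty
  have h21 : x2 ≠ x1 := h21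
  have h31 : x3 ≠ x1 := fun h => h3n (by simp [h])
  have h32 : x3 ≠ x2 := fun h => h3n (by simp [h])
  have hn12 : ¬ G.Adj x1 x2 := P_indep hC hcl hv hw hvw h1C h2C h1v h1w h2v h2w
  have hn13 : ¬ G.Adj x1 x3 := P_indep hC hcl hv hw hvw h1C h3C h1v h1w h3v h3w
  have hn23 : ¬ G.Adj x2 x3 := P_indep hC hcl hv hw hvw h2C h3C h2v h2w h3v h3w
  have hcl1 := insert_clique (insert_clique hC hv) (v := x1) (mem_cn_insert.2 ⟨h1v, h1C⟩)
  obtain ⟨a, ha⟩ := hc.ext hcl1 (by omega)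
  rw [mem_cn_insert, mem_cn_insert] at ha
  obtain ⟨ha1, hav, haC⟩ := ha
  have ha2 : ¬ G.Adj a x2 := by
    intro h
    exact hn12 (g0 hC hcl haC hv h1C h2C hav ha1.symm h1v h.symm h2v h21.symm)
  have ha3 : ¬ G.Adj a x3 := by
    intro h
    exact hn13 (g0 hC hcl haC hv h1C h3C hav ha1.symm h1v h.symm h3v h31.symm)
  have ha2' : a ≠ x2 := by rintro rfl; exact hn12 ha1.symm
  have ha3' : a ≠ x3 := by rintro rfl; exact hn13 ha1.symm
  have s12 : ¬ G.Adj x2 x1 := fun h => hn12 h.symm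
  have s13 : ¬ G.Adj x3 x1 := fun h => hn13 h.symm
  have s23 : ¬ G.Adj x3 x2 := fun h => hn23 h.symm
  have s2a : ¬ G.Adj x2 a := fun h => ha2 h.symm
  have s3a : ¬ G.Adj x3 a := fun h => ha3 h.symm
  have suv : ¬ G.Adj v u := fun h => huv.2 h.symm
  have suw : ¬ G.Adj w u := fun h => huw.2 h.symm
  have stv : ¬ G.Adj v t := fun h => htv.2 h.symm
  have stw : ¬ G.Adj w t := fun h => htw.2 h.symm
  have svw : ¬ G.Adj w v := fun h => hvw.2 h.symm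
  obtain ⟨φ, hφ⟩ := T0C hc.sh hC hC (ι := Fin 4) (y := ![x1, a, x2, x3]) (y' := ![u, t, v, w])
    (by
      intro i j
      fin_cases i <;> fin_cases j <;> simp [ha1.ne, ha1.ne.symm, h21, h21.symm, h31, h31.symm,
        h32, h32.symm, ha2', ha2'.symm, ha3', ha3'.symm])
    (by
      intro i j
      fin_cases i <;> fin_cases j <;>
        simp [hut.ne, hut.ne.symm, huv.1, huv.1.symm, huw.1, huw.1.symm, htv.1, htv.1.symm,
          htw.1, htw.1.symm, hvw.1, hvw.1.symm])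
    (by
      intro i j
      fin_cases i <;> fin_cases j <;>
        simp [ha1, ha1.symm, hn12, hn13, hn23, ha2, ha3, s12, s13, s23, s2a, s3a, hut, hut.symm,
          huv.2, huw.2, htv.2, htw.2, hvw.2, suv, suw, stv, stw, svw])
    (by intro i; fin_cases i <;> simp [h1C, h2C, h3C, haC])
    (by intro i; fin_cases i <;> simp [hu, ht, hv, hw])
  obtain ⟨q, hq, hqi⟩ := nonempty_of_image hφ ⟨v, hv, by
    intro i; fin_cases i
    · exact h1v.symm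
    · exact hav.symm
    · exact h2v.symm
    · exact h3v.symm⟩
  exact ⟨q, hq, hqi 0, hqi 1, hqi 2, hqi 3⟩

theorem GQ_big (hc : Ctx G n) (hj : j + 4 ≤ n) (hgood : Good G j)
    (hcl : ∀ C : Finset V, G.IsNClique (j + 2) C → ∀ p ∈ cn G C, ∀ q ∈ cn G C, p ≠ q → G.Adj p q) :
    False := by
  obtain ⟨C, hC, -⟩ : ∃ C : Finset V, G.IsNClique j C ∧ True := by
    obtain ⟨K, hK⟩ := hc.ex
    obtain ⟨C, hCK, hCc⟩ := Finset.exists_subset_card_eq (s := K) (n := j) (by rw [hK.2]; omega)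
    exact ⟨C, ⟨hK.1.subset (by exact_mod_cast hCK), hCc⟩, trivial⟩
  obtain ⟨hinf, hP3, hK12⟩ := hgood C hC
  have hj3 : j + 3 ≤ n := by omega
  obtain ⟨x1, hx1, -, -, x2, hx2, -, -, hx12⟩ := hP3
  have hP3 := (hgood C hC).2.1
  have hP := P_inf hc hj3 hgood hcl hC hx1 hx2 hx12
  obtain ⟨a, haC, ha1, ha2⟩ := hP.nonempty
  obtain ⟨a', ⟨ha'C, ha'1, ha'2⟩, haa'⟩ := (hP.sdiff (Set.finite_singleton a)).nonempty
  have haa' : a' ≠ a := haa'
  have hnaa : ¬ G.Adj a a' := P_indep hC hcl hx1 hx2 hx12 haC ha'C ha1 ha2 ha'1 ha'2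
  have hinf' : (cn G (insert a' C)).Infinite :=
    infinite_succ hc.sh (fun C hC => ⟨(hgood C hC).1, (hgood C hC).2.1⟩) _ (insert_clique hC ha'C)
  have hf1 : (cn G (insert x1 (insert a' C))).Finite := by
    apply hc.finite_of_clique
    have h1 := insert_clique (insert_clique hC ha'C) (v := x1) (mem_cn_insert.2 ⟨ha'1.symm, hx1⟩)
    exact fun a ha b hb hab => hcl _ h1 a ha b hb hab
  have hf2 : (cn G (insert x2 (insert a' C))).Finite := by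
    apply hc.finite_of_clique
    have h1 := insert_clique (insert_clique hC ha'C) (v := x2) (mem_cn_insert.2 ⟨ha'2.symm, hx2⟩)
    exact fun a ha b hb hab => hcl _ h1 a ha b hb hab
  obtain ⟨y1, hy1, hy1n⟩ := (hinf'.sdiff ((hf1.union hf2).union (Set.toFinite {x1, x2}))).nonempty
  have hy1' := hy1
  rw [mem_cn_insert] at hy1
  obtain ⟨hy1a', hy1C⟩ := hy1
  have hy1x1 : ¬ G.Adj y1 x1 := fun h => hy1n (Or.inl (Or.inl (mem_cn_insert.2 ⟨h, hy1'⟩)))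
  have hy1x2 : ¬ G.Adj y1 x2 := fun h => hy1n (Or.inl (Or.inr (mem_cn_insert.2 ⟨h, hy1'⟩)))
  have hy1x1' : y1 ≠ x1 := fun h => hy1n (Or.inr (by simp [h]))
  have hy1x2' : y1 ≠ x2 := fun h => hy1n (Or.inr (by simp [h]))
  have h1 := insert_clique (insert_clique hC ha'C) (v := y1) (mem_cn_insert.2 ⟨hy1a', hy1C⟩)
  obtain ⟨y2, hy2⟩ := hc.ext h1 (by omega)
  rw [mem_cn_insert, mem_cn_insert] at hy2
  obtain ⟨hy21, hy2a', hy2C⟩ := hy2
  have hy2x1 : ¬ G.Adj y2 x1 := fun h => hy1x1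
    (g0 hC hcl ha'C hy2C hy1C hx1 hy2a'.symm hy1a' hy21.symm ha'1.symm h.symm hy1x1')
  have hy2x2 : ¬ G.Adj y2 x2 := fun h => hy1x2
    (g0 hC hcl ha'C hy2C hy1C hx2 hy2a'.symm hy1a' hy21.symm ha'2.symm h.symm hy1x2')
  have hy2x1' : y2 ≠ x1 := by rintro rfl; exact hy1x1 hy21.symm
  have hy2x2' : y2 ≠ x2 := by rintro rfl; exact hy1x2 hy21.symm
  -- the claim
  have key : ∀ y ∈ cn G C, G.Adj y a' → ¬ G.Adj y x1 → ¬ G.Adj y x2 → y ≠ x1 → y ≠ x2 →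
      G.Adj y a := by
    intro y hyC hya' hyx1 hyx2 hyx1' hyx2'
    by_contra hya
    have hya2 : y ≠ a := by rintro rfl; exact hnaa hya'
    obtain ⟨p, hpC, hpx1, hpa, hpy⟩ := g1 hc hj3 hC hP3 hcl hx1 haC hyC ha1.symm ⟨hyx1', hyx1⟩
      ⟨hya2, hya⟩
    have h2 := insert_clique (insert_clique (insert_clique hC hx1) (v := a)
      (mem_cn_insert.2 ⟨ha1, haC⟩)) (v := p) (mem_cn_insert.2 ⟨hpa, mem_cn_insert.2 ⟨hpx1, hpC⟩⟩)
    obtain ⟨t, ht⟩ := hc.ext h2 (by omega)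
    rw [mem_cn_insert, mem_cn_insert, mem_cn_insert] at ht
    obtain ⟨htp, hta, htx1, htC⟩ := ht
    have htx2 : ¬ G.Adj t x2 := fun h => hx12.2
      (g0 hC hcl haC htC hx1 hx2 hta.symm ha1.symm htx1.symm ha2.symm h.symm hx12.1)
    have hty : ¬ G.Adj t y := fun h => hyx1
      (g0 hC hcl htC hpC hyC hx1 htp h.symm hpy.symm htx1.symm hpx1.symm hyx1')
    have htx2' : t ≠ x2 := by rintro rfl; exact hx12.2 htx1.symm
    have hty' : t ≠ y := by rintro rfl; exact hyx1 htx1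
    obtain ⟨q, hqC, hqx1, hqt, hqx2, hqy⟩ := g2 hc hj hgood hcl hC hx1 htC hx2 hyC htx1.symm hx12
      ⟨hyx1'.symm, fun h => hyx1 h.symm⟩ ⟨htx2', htx2⟩ ⟨hty', hty⟩
      ⟨hyx2'.symm, fun h => hyx2 h.symm⟩
    by_cases hqa : q = a
    · rw [hqa] at hqy; exact hya hqy.symm
    · have hqa' : G.Adj q a := g0 hC hcl hx1 htC hqC haC htx1.symm hqx1 hqt ha1 hta.symm hqa
      exact hx12.2 (g0 hC hcl hqC haC hx1 hx2 hqa' hqx1.symm ha1.symm hqx2.symm ha2.symm hx12.1)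
  have k1 := key y1 hy1C hy1a' hy1x1 hy1x2 hy1x1' hy1x2'
  have k2 := key y2 hy2C hy2a' hy2x1 hy2x2 hy2x1' hy2x2'
  exact hnaa (g0 hC hcl hy1C hy2C haC ha'C hy21.symm k1.symm k2.symm hy1a'.symm hy2a'.symm
    haa'.symm)

theorem GQ_three (hc : Ctx G n) (hj : j + 3 = n) (hgood : Good G j)
    (hcl : ∀ C : Finset V, G.IsNClique (j + 2) C → ∀ p ∈ cn G C, ∀ q ∈ cn G C, p ≠ q → G.Adj p q) :
    False := by
  obtain ⟨C, hC, -⟩ : ∃ C : Finset V, G.IsNClique j C ∧ True := by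
    obtain ⟨K, hK⟩ := hc.ex
    obtain ⟨C, hCK, hCc⟩ := Finset.exists_subset_card_eq (s := K) (n := j) (by rw [hK.2]; omega)
    exact ⟨C, ⟨hK.1.subset (by exact_mod_cast hCK), hCc⟩, trivial⟩
  obtain ⟨hinf, hP3, hK12⟩ := hgood C hC
  have hj3 : j + 3 ≤ n := by omega
  obtain ⟨x, hx, -, -, y, hy, -, -, hxy⟩ := hP3
  have hP3 := (hgood C hC).2.1
  have hP := P_inf hc hj3 hgood hcl hC hx hy hxy
  obtain ⟨A, hA, hAc⟩ := hP.exists_subset_card_eq 5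
  let e : Fin 5 ≃ A := (Finset.equivFinOfCardEq hAc).symm
  let a : Fin 5 → V := fun i => (e i : V)
  have ha : Function.Injective a := fun i j h => e.injective (Subtype.ext h)
  have haP : ∀ i, a i ∈ cn G C ∧ G.Adj (a i) x ∧ G.Adj (a i) y := fun i => hA (e i).2
  have haind : ∀ i k, ¬ G.Adj (a i) (a k) := fun i k =>
    P_indep hC hcl hx hy hxy (haP i).1 (haP k).1 (haP i).2.1 (haP i).2.2 (haP k).2.1 (haP k).2.2
  have hb : ∀ i, ∃ b ∈ cn G C, G.Adj b x ∧ G.Adj b (a i) := by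
    intro i
    have h1 := insert_clique (insert_clique hC hx) (v := a i)
      (mem_cn_insert.2 ⟨(haP i).2.1, (haP i).1⟩)
    obtain ⟨b, hb⟩ := hc.ext h1 (by omega)
    rw [mem_cn_insert, mem_cn_insert] at hb
    exact ⟨b, hb.2.2, hb.2.1, hb.1⟩
  choose b hbC hbx hba using hb
  have hby : ∀ i, ¬ G.Adj (b i) y := fun i h => hxy.2
    (g0 hC hcl (haP i).1 (hbC i) hx hy (hba i).symm (haP i).2.1.symm (hbx i).symm
      (haP i).2.2.symm h.symm hxy.1)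
  have hby' : ∀ i, b i ≠ y := fun i h => hxy.2 (h ▸ (hbx i)).symm
  have hbak : ∀ i k, i ≠ k → ¬ G.Adj (b i) (a k) := fun i k hik h => haind i k
    (g0 hC hcl hx (hbC i) (haP i).1 (haP k).1 (hbx i).symm (haP i).2.1 (hba i).symm (haP k).2.1
      h.symm (fun h2 => hik (ha h2)))
  have hbak' : ∀ i k, i ≠ k → b i ≠ a k := fun i k hik h => haind i k (h ▸ (hba i)).symm
  have hbbk : ∀ i k, i ≠ k → ¬ G.Adj (b i) (b k) := fun i k hik h => hbak i k hik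
    (g0 hC hcl hx (hbC k) (hbC i) (haP k).1 (hbx k).symm (hbx i) h (haP k).2.1 (hba k).symm
      (hbak' i k hik))
  have hbbk' : ∀ i k, i ≠ k → b i ≠ b k := fun i k hik h => hbak k i hik.symm (h ▸ hba i)
  -- the 5-set `{b0,b1,b2,a3,a4}` has two common neighbours
  obtain ⟨φ, hφ⟩ := T0C hc.sh hC hC (ι := Fin 5) (y := a) (y' := ![b 0, b 1, b 2, a 3, a 4]) ha
    (by
      intro i k hik
      by_contra hne
      have n01 : b 0 ≠ b 1 := hbbk' 0 1 (by decide)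
      have n02 : b 0 ≠ b 2 := hbbk' 0 2 (by decide)
      have n12 : b 1 ≠ b 2 := hbbk' 1 2 (by decide)
      have n03 : b 0 ≠ a 3 := hbak' 0 3 (by decide)
      have n04 : b 0 ≠ a 4 := hbak' 0 4 (by decide)
      have n13 : b 1 ≠ a 3 := hbak' 1 3 (by decide)
      have n14 : b 1 ≠ a 4 := hbak' 1 4 (by decide)
      have n23 : b 2 ≠ a 3 := hbak' 2 3 (by decide)
      have n24 : b 2 ≠ a 4 := hbak' 2 4 (by decide)
      have n34 : a 3 ≠ a 4 := ha.ne (by decide)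
      fin_cases i <;> fin_cases k <;>
        simp_all [n03.symm, n04.symm, n13.symm, n14.symm, n23.symm, n24.symm])
    (by
      have n01 := hbbk 0 1 (by decide)
      have n02 := hbbk 0 2 (by decide)
      have n12 := hbbk 1 2 (by decide)
      have n10 := hbbk 1 0 (by decide)
      have n20 := hbbk 2 0 (by decide)
      have n21 := hbbk 2 1 (by decide)
      have n03 := hbak 0 3 (by decide)
      have n04 := hbak 0 4 (by decide)
      have n13 := hbak 1 3 (by decide)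
      have n14 := hbak 1 4 (by decide)
      have n23 := hbak 2 3 (by decide)
      have n24 := hbak 2 4 (by decide)
      have n34 := haind 3 4
      have n43 := haind 4 3
      have n30 : ¬ G.Adj (a 3) (b 0) := fun h => n03 h.symm
      have n40 : ¬ G.Adj (a 4) (b 0) := fun h => n04 h.symm
      have n31 : ¬ G.Adj (a 3) (b 1) := fun h => n13 h.symm
      have n41 : ¬ G.Adj (a 4) (b 1) := fun h => n14 h.symm
      have n32 : ¬ G.Adj (a 3) (b 2) := fun h => n23 h.symm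
      have n42 : ¬ G.Adj (a 4) (b 2) := fun h => n24 h.symm
      intro i k
      fin_cases i <;> fin_cases k <;>
        simp [haind, n01, n02, n12, n10, n20, n21, n03, n04, n13, n14, n23, n24,
          n30, n40, n31, n41, n32, n42])
    (fun i => (haP i).1)
    (by intro i; fin_cases i <;> simp [hbC, (haP 3).1, (haP 4).1])
  have hz : ∃ z ∈ cn G C, z ≠ x ∧ (∀ i : Fin 5, i.val < 3 → G.Adj z (b i)) ∧
      G.Adj z (a 3) ∧ G.Adj z (a 4) := by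
    have e1 : φ x ∈ {v | v ∈ cn G C ∧ ∀ i, G.Adj v (![b 0, b 1, b 2, a 3, a 4] i)} := by
      rw [← hφ]; exact ⟨x, ⟨hx, fun i => (haP i).2.1.symm⟩, rfl⟩
    have e2 : φ y ∈ {v | v ∈ cn G C ∧ ∀ i, G.Adj v (![b 0, b 1, b 2, a 3, a 4] i)} := by
      rw [← hφ]; exact ⟨y, ⟨hy, fun i => (haP i).2.2.symm⟩, rfl⟩
    have hne : φ x ≠ φ y := φ.injective.ne hxy.1
    have hex : ∃ z ∈ {v | v ∈ cn G C ∧ ∀ i, G.Adj v (![b 0, b 1, b 2, a 3, a 4] i)}, z ≠ x := by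
      by_cases h : φ x = x
      · exact ⟨φ y, e2, fun h2 => hne (h.trans h2.symm)⟩
      · exact ⟨φ x, e1, h⟩
    obtain ⟨z, ⟨hzC, hz⟩, hzx⟩ := hex
    refine ⟨z, hzC, hzx, ?_, hz 3, hz 4⟩
    intro i hi
    fin_cases i
    · exact hz 0
    · exact hz 1
    · exact hz 2
    · simp at hi
    · simp at hi
  obtain ⟨z, hzC, hzx, hzb, hz3, hz4⟩ := hz
  have ha34 : a 3 ≠ a 4 := ha.ne (by decide)
  have hzx' : ¬ G.Adj z x := fun h => haind 3 4
    (g0 hC hcl hzC hx (haP 3).1 (haP 4).1 h hz3.symm (haP 3).2.1 hz4.symm (haP 4).2.1 ha34)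
  have hzy : z ≠ y := by
    rintro rfl; exact hby 0 (hzb 0 (by decide)).symm
  have hzy' : ¬ G.Adj z y := fun h => haind 3 4
    (g0 hC hcl hzC hy (haP 3).1 (haP 4).1 h hz3.symm (haP 3).2.2 hz4.symm (haP 4).2.2 ha34)
  have hza : ∀ i : Fin 5, i.val < 3 → ¬ G.Adj z (a i) := fun i hi h => hzx'
    (g0 hC hcl (haP i).1 (hbC i) hzC hx (hba i).symm h (hzb i hi) (haP i).2.1.symm
      (hbx i).symm hzx)
  have hza' : ∀ i : Fin 5, i.val < 3 → z ≠ a i := by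
    intro i hi h
    exact haind i 3 (h ▸ hz3)
  have hcc : ∀ i : Fin 5, i.val < 3 → ∃ c ∈ cn G C, G.Adj c y ∧ G.Adj c (a i) ∧ G.Adj c z :=
    fun i hi => g1 hc hj3 hC hP3 hcl hy (haP i).1 hzC (haP i).2.2.symm ⟨hzy, hzy'⟩
      ⟨hza' i hi, hza i hi⟩
  -- `b 0 ~ c i` for `i = 1, 2`
  have hbc : ∀ i : Fin 5, i ≠ 0 → ∀ c ∈ cn G C, G.Adj c y → G.Adj c (a i) → G.Adj (b 0) c := by
    intro i hi c hcC hcy hca
    obtain ⟨p, hpC, hpy, hpa, hpb⟩ := g1 hc hj3 hC hP3 hcl hy (haP i).1 (hbC 0)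
      (haP i).2.2.symm ⟨hby' 0, hby 0⟩ ⟨hbak' 0 i hi.symm, hbak 0 i hi.symm⟩
    by_cases hpc : p = c
    · rw [← hpc]; exact hpb.symm
    · exfalso
      have hpc' : G.Adj p c := g0 hC hcl hy (haP i).1 hpC hcC (haP i).2.2.symm hpy hpa hcy hca hpc
      have h1 := insert_clique (insert_clique (insert_clique (insert_clique hC hy) (v := a i)
        (mem_cn_insert.2 ⟨(haP i).2.2, (haP i).1⟩)) (v := p)
        (mem_cn_insert.2 ⟨hpa, mem_cn_insert.2 ⟨hpy, hpC⟩⟩)) (v := c)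
        (mem_cn_insert.2 ⟨hpc'.symm, mem_cn_insert.2 ⟨hca, mem_cn_insert.2 ⟨hcy, hcC⟩⟩⟩)
      have h2 := hc.card_le h1.1
      rw [h1.2] at h2
      omega
  obtain ⟨c1, hc1C, hc1y, hc1a, hc1z⟩ := hcc 1 (by decide)
  obtain ⟨c2, hc2C, hc2y, hc2a, hc2z⟩ := hcc 2 (by decide)
  have hb1 := hbc 1 (by decide) c1 hc1C hc1y hc1a
  have hb2 := hbc 2 (by decide) c2 hc2C hc2y hc2a
  have ha12 : a 1 ≠ a 2 := ha.ne (by decide)
  by_cases h12 : c1 = c2
  · subst h12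
    exact haind 1 2 (g0 hC hcl hy hc1C (haP 1).1 (haP 2).1 hc1y.symm (haP 1).2.2 hc1a.symm
      (haP 2).2.2 hc2a.symm ha12)
  · have h12' : G.Adj c1 c2 := g0 hC hcl hzC (hbC 0) hc1C hc2C (hzb 0 (by decide)) hc1z hb1.symm
      hc2z hb2.symm h12
    by_cases h21 : c2 = a 1
    · exact haind 1 2 (h21 ▸ hc2a)
    · have h3 : G.Adj c2 (a 1) := g0 hC hcl hy hc1C hc2C (haP 1).1 hc1y.symm hc2y h12'.symm
        (haP 1).2.2 hc1a.symm h21
      exact haind 1 2 (g0 hC hcl hy hc2C (haP 1).1 (haP 2).1 hc2y.symm (haP 1).2.2 h3.symm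
        (haP 2).2.2 hc2a.symm ha12)

end GQ

theorem P1_GQ {n j : ℕ} (hc : Ctx G n) (hj : j + 3 ≤ n) (hgood : Good G j)
    (hcl : ∀ C : Finset V, G.IsNClique (j + 2) C → ∀ p ∈ cn G C, ∀ q ∈ cn G C, p ≠ q → G.Adj p q) :
    False := by
  rcases hj.eq_or_lt with h | h
  · exact GQ_three hc h hgood hcl
  · exact GQ_big hc (by omega) hgood hcl

end Run7.h901
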