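import Pool.Agent.Run7.h901.Defs

/-!
Back and forth.
-/

open scoped Classical

namespace Run7.h901

universe u
variable {V : Type u} {G : SimpleGraph V}

/-- finite isomorphisms between subsets, as sets of pairs. -/
def IsPI (G : SimpleGraph V) (s : Finset (V × V)) : Prop :=
  ∀ p ∈ s, ∀ q ∈ s, (p.1 = q.1 ↔ p.2 = q.2) ∧ (G.Adj p.1 q.1 ↔ G.Adj p.2 q.2)

theorem IsPI.swap {s : Finset (V × V)} (h : IsPI G s) : IsPI G (s.image Prod.swap) := by
  intro p hp q hq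
  rw [Finset.mem_image] at hp hq
  obtain ⟨p, hp, rfl⟩ := hp
  obtain ⟨q, hq, rfl⟩ := hq
  exact ⟨(h p hp q hq).1.symm, (h p hp q hq).2.symm⟩

theorem IsPI.insert {s : Finset (V × V)} (h : IsPI G s) {x y : V}
    (hxy : ∀ p ∈ s, (p.1 = x ↔ p.2 = y) ∧ (G.Adj p.1 x ↔ G.Adj p.2 y)) :
    IsPI G (insert (x, y) s) := by
  intro p hp q hq
  rw [Finset.mem_insert] at hp hq
  rcases hp with rfl | hp <;> rcases hq with rfl | hq
  · simp
  · refine ⟨?_, ?_⟩
    · rw [eq_comm, (hxy q hq).1, eq_comm]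
    · rw [G.adj_comm, (hxy q hq).2, G.adj_comm]
  · exact hxy p hp
  · exact h p hp q hq

def PI (G : SimpleGraph V) : Type u := {s : Finset (V × V) // IsPI G s}

instance : Preorder (PI G) := Preorder.lift (fun s => s.1)

theorem P11_backforth [Countable V]
    (h : ∀ (s : Finset (V × V)), (∀ p ∈ s, ∀ q ∈ s, (p.1 = q.1 ↔ p.2 = q.2) ∧
      (G.Adj p.1 q.1 ↔ G.Adj p.2 q.2)) → ∀ x : V, ∃ y : V, ∀ p ∈ s, (p.1 = x ↔ p.2 = y) ∧
      (G.Adj p.1 x ↔ G.Adj p.2 y)) : Homogeneous G := by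
  intro A B hA hB f
  cases nonempty_encodable V
  have hfor : ∀ x : V, IsCofinal {s : PI G | ∃ y, (x, y) ∈ s.1} := by
    intro x s
    obtain ⟨y, hy⟩ := h s.1 s.2 x
    exact ⟨⟨insert (x, y) s.1, s.2.insert hy⟩, ⟨y, Finset.mem_insert_self _ _⟩,
      Finset.subset_insert _ _⟩
  have hback : ∀ y : V, IsCofinal {s : PI G | ∃ x, (x, y) ∈ s.1} := by
    intro y s
    obtain ⟨x, hx⟩ := h (s.1.image Prod.swap) s.2.swap y
    refine ⟨⟨insert (x, y) s.1, s.2.insert ?_⟩, ⟨x, Finset.mem_insert_self _ _⟩,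
      Finset.subset_insert _ _⟩
    intro p hp
    have := hx p.swap (Finset.mem_image_of_mem _ hp)
    exact ⟨this.1.symm, this.2.symm⟩
  have := hA.to_subtype
  have := Fintype.ofFinite A
  let s0 : PI G := ⟨Finset.univ.image (fun a : A => ((a : V), ((f a : B) : V))), by
    intro p hp q hq
    rw [Finset.mem_image] at hp hq
    obtain ⟨a, -, rfl⟩ := hp
    obtain ⟨b, -, rfl⟩ := hq
    refine ⟨?_, ?_⟩
    · simp only
      constructor
      · intro hab; rw [Subtype.ext hab]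
      · intro hab; rw [f.injective (Subtype.ext hab)]
    · have := f.map_adj_iff (v := a) (w := b)
      simp only [SimpleGraph.comap_adj, Function.Embedding.subtype_apply] at this
      exact this.symm⟩
  let D : V ⊕ V → Order.Cofinal (PI G) := fun i =>
    Sum.rec (fun x => ⟨_, hfor x⟩) (fun y => ⟨_, hback y⟩) i
  let I := Order.idealOfCofinals s0 D
  have hI1 : ∀ x : V, ∃ y, ∃ s ∈ I, (x, y) ∈ s.1 := by
    intro x
    obtain ⟨s, ⟨y, hy⟩, hs⟩ := Order.cofinal_meets_idealOfCofinals s0 D (Sum.inl x)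
    exact ⟨y, s, hs, hy⟩
  have hI2 : ∀ y : V, ∃ x, ∃ s ∈ I, (x, y) ∈ s.1 := by
    intro y
    obtain ⟨s, ⟨x, hx⟩, hs⟩ := Order.cofinal_meets_idealOfCofinals s0 D (Sum.inr y)
    exact ⟨x, s, hs, hx⟩
  have hcompat : ∀ x y x' y', (∃ s ∈ I, (x, y) ∈ s.1) → (∃ s ∈ I, (x', y') ∈ s.1) →
      (x = x' ↔ y = y') ∧ (G.Adj x x' ↔ G.Adj y y') := by
    rintro x y x' y' ⟨s, hs, hxy⟩ ⟨t, ht, hxy'⟩
    obtain ⟨m, -, hsm, htm⟩ := I.directed s hs t ht
    exact m.2 _ (hsm hxy) _ (htm hxy')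
  choose F hF using hI1
  choose F' hF' using hI2
  refine ⟨⟨⟨F, F', ?_, ?_⟩, ?_⟩, ?_⟩
  · intro x
    exact ((hcompat _ _ _ _ (hF' (F x)) (hF x)).1).2 rfl
  · intro y
    exact ((hcompat _ _ _ _ (hF (F' y)) (hF' y)).1).1 rfl
  · intro x y
    exact ((hcompat _ _ _ _ (hF x) (hF y)).2).symm
  · intro a
    have h0 : s0 ∈ I := Order.mem_idealOfCofinals s0 D
    exact ((hcompat _ _ _ _ (hF a) ⟨s0, h0, Finset.mem_image_of_mem _ (Finset.mem_univ a)⟩).1).1 rfl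

end Run7.h901
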