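import Pool.Agent.Run7.h901.P1

/-!
Induction of `Good`.
-/

open scoped Classical

namespace Run7.h901

universe u
variable {V : Type u} {G : SimpleGraph V}

theorem exists_nclique {n : ℕ} (hc : Ctx G n) {j : ℕ} (hj : j ≤ n) :
    ∃ C : Finset V, G.IsNClique j C := by
  obtain ⟨K, hK⟩ := hc.ex
  obtain ⟨C, hCK, hCc⟩ := Finset.exists_subset_card_eq (s := K) (n := j) (by rw [hK.2]; omega)
  exact ⟨C, ⟨hK.1.subset (by exact_mod_cast hCK), hCc⟩⟩

theorem P2_good_succ {n j : ℕ} (hc : Ctx G n) (hj : j + 3 ≤ n) (hgood : Good G j) :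
    Good G (j + 1) := by
  intro C' hC'
  refine ⟨infinite_succ hc.sh (fun C hC => ⟨(hgood C hC).1, (hgood C hC).2.1⟩) _ hC', ?_, ?_⟩
  · -- `P₃`
    by_contra hno
    apply P1_GQ hc hj hgood
    intro C2 hC2 p hp q hq hpq
    by_contra hnpq
    apply hno
    obtain ⟨v, hv⟩ : C2.Nonempty := by rw [← Finset.card_pos, hC2.2]; omega
    have hE : G.IsNClique (j + 1) (C2.erase v) := by simpa using hC2.erase_of_mem hv
    obtain ⟨φ, -, hφ⟩ := clique_conj hc.sh hE hC'
    refine HasP3.image hφ ⟨p, ?_, v, ?_, q, ?_, hp v hv, (hq v hv).symm, hpq, hnpq⟩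
    · exact cn_anti (Finset.erase_subset _ _) hp
    · intro u hu
      rw [Finset.mem_erase] at hu
      exact hC2.1 hv hu.2 hu.1.symm
    · exact cn_anti (Finset.erase_subset _ _) hq
  · -- `K₁ + K₂`
    by_contra hno
    have hno' : ∀ D : Finset V, G.IsNClique (j + 1) D → ¬ HasK12 G (cn G D) := by
      intro D hD hK
      obtain ⟨φ, -, hφ⟩ := clique_conj hc.sh hD hC'
      exact hno (HasK12.image hφ hK)
    obtain ⟨C, hC⟩ := exists_nclique hc (j := j) (by omega)
    obtain ⟨hinf, hP3, a, ha, b, hb, c, hcC, hbc, hab, hac⟩ := hgood C hC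
    -- `N_v ∩ Γ(a) ⊆ Γ(b)`
    have step1 : ∀ a ∈ cn G C, ∀ b ∈ cn G C, Gᶜ.Adj a b → ∀ v ∈ cn G C, G.Adj v a → G.Adj v b →
        ∀ x ∈ cn G C, G.Adj x v → G.Adj x a → G.Adj x b := by
      intro a ha b hb hab v hv hva hvb x hx hxv hxa
      by_contra hxb
      refine hno' _ (insert_clique hC hv) ⟨b, mem_cn_insert.2 ⟨hvb.symm, hb⟩, a,
        mem_cn_insert.2 ⟨hva.symm, ha⟩, x, mem_cn_insert.2 ⟨hxv, hx⟩, hxa.symm, hab.symm,
        ⟨?_, fun h => hxb h.symm⟩⟩
      rintro rfl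
      exact hab.2 hxa.symm
    have step2 : ∀ a ∈ cn G C, ∀ b ∈ cn G C, Gᶜ.Adj a b → ∀ x ∈ cn G C, G.Adj x a →
        G.Adj x b := by
      intro a ha b hb hab x hx hxa
      obtain ⟨v, hv, hva, hvb⟩ := common_nbr hc.sh hC hP3 ha hb hab
      by_cases hxv : G.Adj x v
      · exact step1 a ha b hb hab v hv hva hvb x hx hxv hxa
      by_cases hxv' : x = v
      · rw [hxv']; exact hvb
      have h1 := insert_clique (insert_clique hC ha) (v := v) (mem_cn_insert.2 ⟨hva, hv⟩)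
      obtain ⟨y, hy⟩ := hc.ext h1 (by omega)
      rw [mem_cn_insert, mem_cn_insert] at hy
      obtain ⟨hyv, hya, hyC⟩ := hy
      have hyx : G.Adj y x := by
        by_contra hyx
        refine hno' _ (insert_clique hC ha) ⟨x, mem_cn_insert.2 ⟨hxa, hx⟩, y,
          mem_cn_insert.2 ⟨hya, hyC⟩, v, mem_cn_insert.2 ⟨hva, hv⟩, hyv,
          ⟨?_, fun h => hyx h.symm⟩, ⟨hxv', hxv⟩⟩
        rintro rfl
        exact hxv hyv
      have hyb : G.Adj y b := step1 a ha b hb hab v hv hva hvb y hyC hyv hya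
      exact step1 a ha b hb hab y hyC hya hyb x hx hyx.symm hxa
    exact hac.2 (step2 b hb a ha hab.symm c hcC hbc.symm).symm

/-- `Good` propagates from level `0` to all levels `j ≤ n - 2`. -/
theorem good_all {n : ℕ} (hc : Ctx G n) (h0 : Good G 0) : ∀ j, j + 2 ≤ n → Good G j := by
  intro j
  induction j with
  | zero => intro _; exact h0
  | succ j ih => intro hj; exact P2_good_succ hc (by omega) (ih (by omega))

end Run7.h901
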