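import Pool.Agent.Run7.h901.P2

/-!
Level `n - 2`: `D1` and `D2`.
-/

open scoped Classical

namespace Run7.h901

universe u
variable {V : Type u} {G : SimpleGraph V}

/-- no triangle in `cn C`, `C` an `(n-2)`-clique. -/
theorem no_tri {n k : ℕ} (hc : Ctx G n) (hk : k + 2 = n) {C : Finset V} (hC : G.IsNClique k C)
    {x y z : V} (hx : x ∈ cn G C) (hy : y ∈ cn G C) (hz : z ∈ cn G C) (hxy : G.Adj x y)
    (hxz : G.Adj x z) : ¬ G.Adj y z := by
  intro hyz
  have h1 := insert_clique (insert_clique (insert_clique hC hz) (v := y)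
    (mem_cn_insert.2 ⟨hyz, hy⟩)) (v := x) (mem_cn_insert.2 ⟨hxy, mem_cn_insert.2 ⟨hxz, hx⟩⟩)
  have h2 := hc.card_le h1.1
  rw [h1.2] at h2
  omega

theorem cliqueFreeOn_two_iff {I : Finset V} :
    G.CliqueFreeOn (I : Set V) 2 ↔ ∀ x ∈ I, ∀ y ∈ I, ¬ G.Adj x y := by
  rw [SimpleGraph.cliqueFreeOn_two]
  constructor
  · intro h x hx y hy hxy
    exact (h hx hy hxy.ne) hxy
  · intro h x hx y hy _
    exact h x hx y hy

theorem P3_D1 {n k : ℕ} (hc : Ctx G n) (hk : k + 2 = n) (hgood : Good G k) : D1 G k := by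
  by_contra hcon
  have hex : ∃ c : ℕ, ∃ C : Finset V, G.IsNClique k C ∧ ∃ Y : Finset V, (∀ y ∈ Y, y ∈ cn G C) ∧
      G.CliqueFreeOn (Y : Set V) 2 ∧ (cn G (C ∪ Y)).Finite ∧ (cn G (C ∪ Y)).ncard = c := by
    unfold D1 at hcon
    push Not at hcon
    obtain ⟨C, hC, Y, hY, hYf, hfin⟩ := hcon
    exact ⟨_, C, hC, Y, hY, hYf, hfin, rfl⟩
  obtain ⟨C, hC, Y0, hY0, hY0f, hfin, hcard⟩ := Nat.find_spec hex
  set c := Nat.find hex with hcdef
  obtain ⟨hinf, hP3, e, he, x1, hx1, x2, hx2, h12, he1, he2⟩ := hgood C hC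
  have hinf1 : (cn G (insert e C)).Infinite :=
    infinite_succ hc.sh (fun C hC => ⟨(hgood C hC).1, (hgood C hC).2.1⟩) _ (insert_clique hC he)
  have hJind : ∀ x ∈ cn G (insert e C), ∀ y ∈ cn G (insert e C), ¬ G.Adj x y := by
    intro x hx y hy
    rw [mem_cn_insert] at hx hy
    exact no_tri hc hk hC he hx.2 hy.2 hx.1.symm hy.1.symm
  -- any `|Y0|` elements of `cn (C ∪ e)` contain a neighbour of `x ≁ e`
  have key : ∀ x ∈ cn G C, Gᶜ.Adj e x → ∀ I : Finset V, (∀ y ∈ I, y ∈ cn G (insert e C)) →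
      I.card = Y0.card → ∃ y ∈ I, G.Adj x y := by
    intro x hx hex' I hI hIc
    by_contra hno
    push Not at hno
    have hIC : ∀ y ∈ I, y ∈ cn G C := fun y hy => (mem_cn_insert.1 (hI y hy)).2
    have heI : e ∈ cn G I := fun y hy => (mem_cn_insert.1 (hI y hy)).1.symm
    have hIf : G.CliqueFreeOn (I : Set V) 2 :=
      cliqueFreeOn_two_iff.2 (fun a ha b hb => hJind a (hI a ha) b (hI b hb))
    have hiso : FIso G Y0 I := by
      have h1 := FIso.of_family (G := G) (ι := Fin Y0.card)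
        (y := fun i => ((Y0.equivFin.symm i : Y0) : V))
        (y' := fun i => ((I.equivFinOfCardEq hIc).symm i : I).1)
        (fun i j h => Y0.equivFin.symm.injective (Subtype.ext h))
        (fun i j h => (I.equivFinOfCardEq hIc).symm.injective (Subtype.ext h))
        (fun i j => by
          rw [cliqueFreeOn_two_iff] at hY0f hIf
          exact ⟨fun h => absurd h (hY0f _ (Subtype.coe_prop _) _ (Subtype.coe_prop _)),
            fun h => absurd h (hIf _ (Subtype.coe_prop _) _ (Subtype.coe_prop _))⟩)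
      have h2 : Finset.univ.image (fun i => ((Y0.equivFin.symm i : Y0) : V)) = Y0 := by
        ext v
        rw [Finset.mem_image]
        constructor
        · rintro ⟨i, -, rfl⟩; exact Subtype.coe_prop _
        · intro hv; exact ⟨Y0.equivFin ⟨v, hv⟩, Finset.mem_univ _, by simp⟩
      have h3 : Finset.univ.image (fun i => ((I.equivFinOfCardEq hIc).symm i : I).1) = I := by
        ext v
        rw [Finset.mem_image]
        constructor
        · rintro ⟨i, -, rfl⟩; exact Subtype.coe_prop _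
        · intro hv; exact ⟨(I.equivFinOfCardEq hIc) ⟨v, hv⟩, Finset.mem_univ _, by simp⟩
      rwa [h2, h3] at h1
    obtain ⟨φ, -, hφ⟩ := cn_conj hc.sh hC.1 hC.1 rfl hY0 hIC hiso
    have hYfin : (cn G (C ∪ I)).Finite := by rw [← hφ]; exact hfin.image _
    have hYcard : (cn G (C ∪ I)).ncard = c := by
      rw [← hφ, Set.ncard_image_of_injective _ φ.injective, hcard]
    have hsub : cn G (C ∪ insert x I) ⊆ cn G (C ∪ I) \ {e} := by
      intro v hv
      rw [mem_cn_union, mem_cn_insert] at hv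
      refine ⟨mem_cn_union.2 ⟨hv.1, hv.2.2⟩, ?_⟩
      rintro rfl
      exact hex'.2 hv.2.1
    have hfin' : (cn G (C ∪ insert x I)).Finite := (hYfin.subset Set.sdiff_subset).subset hsub
    have hlt : (cn G (C ∪ insert x I)).ncard < c := by
      rw [← hYcard]
      apply Set.ncard_lt_ncard _ hYfin
      refine ⟨hsub.trans Set.sdiff_subset, fun h => ?_⟩
      have := hsub (h (mem_cn_union.2 ⟨he, heI⟩))
      exact this.2 rfl
    refine Nat.find_min hex hlt ⟨C, hC, insert x I, ?_, ?_, hfin', rfl⟩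
    · intro y hy
      rw [Finset.mem_insert] at hy
      rcases hy with rfl | hy
      · exact hx
      · exact hIC y hy
    · rw [cliqueFreeOn_two_iff] at hIf ⊢
      intro a ha b hb
      rw [Finset.mem_insert] at ha hb
      rcases ha with rfl | ha <;> rcases hb with rfl | hb
      · exact G.irrefl
      · exact hno b hb
      · exact fun h => hno a ha h.symm
      · exact hIf a ha b hb
  -- the elements of `cn (C ∪ e)` nonadjacent to `x` are finite in number
  have hfinx : ∀ x ∈ cn G C, Gᶜ.Adj e x → {y | y ∈ cn G (insert e C) ∧ ¬ G.Adj x y}.Finite := by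
    intro x hx hex'
    by_contra hinf'
    obtain ⟨I, hI, hIc⟩ := (Set.not_finite.1 hinf' : Set.Infinite _).exists_subset_card_eq Y0.card
    obtain ⟨y, hy, hxy⟩ := key x hx hex' I (fun y hy => (hI hy).1) hIc
    exact (hI hy).2 hxy
  obtain ⟨q, hq, hq'⟩ := (hinf1.sdiff ((hfinx x1 hx1 he1).union (hfinx x2 hx2 he2))).nonempty
  have h1 : G.Adj x1 q := by
    by_contra h; exact hq' (Or.inl ⟨hq, h⟩)
  have h2 : G.Adj x2 q := by
    by_contra h; exact hq' (Or.inr ⟨hq, h⟩)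
  exact no_tri hc hk hC (mem_cn_insert.1 hq).2 hx1 hx2 h1.symm h2.symm h12

theorem P4_D2 {n k : ℕ} (hc : Ctx G n) (hk : k + 2 = n) (hgood : Good G k) : D2 G k := by
  intro C hC
  by_contra hno
  push Not at hno
  obtain ⟨hinf, hP3, u, hu, v, hv, w, hw, hvw, huv, huw⟩ := hgood C hC
  -- `Δ(u) ∩ Γ(w) = {v}` for an edge `v w` with `u ≁ v, w`
  have step : ∀ v ∈ cn G C, ∀ w ∈ cn G C, G.Adj v w → Gᶜ.Adj u v → Gᶜ.Adj u w →
      ∀ v' ∈ cn G C, Gᶜ.Adj u v' → G.Adj v' w → v' = v := by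
    intro v hv w hw hvw huv huw v' hv' huv' hv'w
    by_contra hne
    have hnv : ¬ G.Adj v' v := no_tri hc hk hC hw hv' hv hv'w.symm hvw.symm
    obtain ⟨x, hx, hxu, hxw⟩ := common_nbr hc.sh hC hP3 hu hw huw
    have hxv : ¬ G.Adj x v := no_tri hc hk hC hw hx hv hxw.symm hvw.symm
    have hxv' : ¬ G.Adj x v' := no_tri hc hk hC hw hx hv' hxw.symm hv'w.symm
    refine hno u hu x hx v hv v' hv' hxu.symm ⟨Ne.symm hne, fun h => hnv h.symm⟩ huv huv'
      ⟨?_, hxv⟩ ⟨?_, hxv'⟩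
    · rintro rfl; exact huv.2 hxu.symm
    · rintro rfl; exact huv'.2 hxu.symm
  -- `Δ(u) = {v, w}`
  have hD : ∀ y ∈ cn G C, Gᶜ.Adj u y → y = v ∨ y = w := by
    intro y hy huy
    by_contra hcon
    push Not at hcon
    by_cases h1 : G.Adj y w
    · exact hcon.1 (step v hv w hw hvw huv huw y hy huy h1)
    by_cases h2 : G.Adj y v
    · exact hcon.2 (step w hw v hv hvw.symm huw huv y hy huy h2)
    exact hno v hv w hw u hu y hy hvw huy huv.symm ⟨hcon.1.symm, fun h => h2 h.symm⟩ huw.symm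
      ⟨hcon.2.symm, fun h => h1 h.symm⟩
  -- independent triple
  have hinf1 : (cn G (insert u C)).Infinite :=
    infinite_succ hc.sh (fun C hC => ⟨(hgood C hC).1, (hgood C hC).2.1⟩) _ (insert_clique hC hu)
  have hJind : ∀ x ∈ cn G (insert u C), ∀ y ∈ cn G (insert u C), ¬ G.Adj x y := by
    intro x hx y hy
    rw [mem_cn_insert] at hx hy
    exact no_tri hc hk hC hu hx.2 hy.2 hx.1.symm hy.1.symm
  obtain ⟨p1, hp1⟩ := hinf1.nonempty
  obtain ⟨p2, hp2, h21⟩ := (hinf1.sdiff (Set.finite_singleton p1)).nonempty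
  obtain ⟨p3, hp3, h3⟩ := (hinf1.sdiff (Set.toFinite {p1, p2})).nonempty
  have h21 : p2 ≠ p1 := h21
  have h31 : p3 ≠ p1 := fun h => h3 (by simp [h])
  have h32 : p3 ≠ p2 := fun h => h3 (by simp [h])
  have c1 : Gᶜ.Adj p1 p2 := ⟨h21.symm, hJind _ hp1 _ hp2⟩
  have c2 : Gᶜ.Adj p1 p3 := ⟨h31.symm, hJind _ hp1 _ hp3⟩
  have c3 : Gᶜ.Adj p2 p3 := ⟨h32.symm, hJind _ hp2 _ hp3⟩
  obtain ⟨φ, -, hφC, hφ⟩ := pair_conj hc.sh hC hC c1 huv (mem_cn_insert.1 hp1).2
    (mem_cn_insert.1 hp2).2 hu hv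
  have h3C : φ p3 ∈ cn G C := by rw [← hφC]; exact ⟨p3, (mem_cn_insert.1 hp3).2, rfl⟩
  have c2' := (compl_adj_map φ).2 c2
  have c3' := (compl_adj_map φ).2 c3
  have hfin : Gᶜ.Adj u (φ p3) ∧ Gᶜ.Adj v (φ p3) := by
    rcases hφ with ⟨h4, h5⟩ | ⟨h4, h5⟩
    · rw [h4] at c2'; rw [h5] at c3'; exact ⟨c2', c3'⟩
    · rw [h4] at c2'; rw [h5] at c3'; exact ⟨c3', c2'⟩
  rcases hD _ h3C hfin.1 with h4 | h4
  · exact hfin.2.1 h4.symm
  · exact hfin.2.2 (h4 ▸ hvw)

end Run7.h901
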