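import Pool.Agent.Run7.h901.P3

/-!
The block argument.
-/

open scoped Classical

namespace Run7.h901

universe u
variable {V : Type u} {G : SimpleGraph V}

/-- common neighbours of a clique `C` and three vertices. -/
def Om (G : SimpleGraph V) (C : Finset V) (a b c : V) : Set V :=
  {v | v ∈ cn G C ∧ G.Adj v a ∧ G.Adj v b ∧ G.Adj v c}

theorem Om_eq {C : Finset V} {a b c : V} : cn G (C ∪ {a, b, c}) = Om G C a b c := by
  ext v
  rw [mem_cn_union, mem_cn_insert, mem_cn_insert]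
  simp [Om, mem_cn]

theorem triple_inj {a b c : V} (h : Indep3 G a b c) : Function.Injective ![a, b, c] := by
  obtain ⟨⟨h1, -⟩, ⟨h2, -⟩, ⟨h3, -⟩⟩ := h
  intro i j
  fin_cases i <;> fin_cases j <;> simp [h1, h1.symm, h2, h2.symm, h3, h3.symm]

theorem triple_nadj {a b c : V} (h : Indep3 G a b c) : ∀ i j, ¬ G.Adj (![a, b, c] i) (![a, b, c] j) := by
  obtain ⟨⟨-, h1⟩, ⟨-, h2⟩, ⟨-, h3⟩⟩ := h
  have h1' : ¬ G.Adj b a := fun h => h1 h.symm
  have h2' : ¬ G.Adj c a := fun h => h2 h.symm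
  have h3' : ¬ G.Adj c b := fun h => h3 h.symm
  intro i j
  fin_cases i <;> fin_cases j <;> simp [h1, h1', h2, h2', h3, h3']

theorem Om_conj (hG : SetHomogeneous G) {k : ℕ} {C C' : Finset V} (hC : G.IsNClique k C)
    (hC' : G.IsNClique k C') {a b c a' b' c' : V} (h : Indep3 G a b c) (h' : Indep3 G a' b' c')
    (ha : a ∈ cn G C) (hb : b ∈ cn G C) (hcC : c ∈ cn G C)
    (ha' : a' ∈ cn G C') (hb' : b' ∈ cn G C') (hc' : c' ∈ cn G C') :
    ∃ φ : G ≃g G, φ '' Om G C a b c = Om G C' a' b' c' := by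
  obtain ⟨φ, hφ⟩ := T0C hG hC hC' (ι := Fin 3) (y := ![a, b, c]) (y' := ![a', b', c'])
    (triple_inj h) (triple_inj h')
    (fun i j => ⟨fun hh => absurd hh (triple_nadj h i j), fun hh => absurd hh (triple_nadj h' i j)⟩)
    (by intro i; fin_cases i <;> simp [ha, hb, hcC])
    (by intro i; fin_cases i <;> simp [ha', hb', hc'])
  refine ⟨φ, ?_⟩
  have e : ∀ (C : Finset V) (a b c : V), Om G C a b c =
      {v | v ∈ cn G C ∧ ∀ i, G.Adj v (![a, b, c] i)} := by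
    intro C a b c
    ext v
    simp [Om, Fin.forall_fin_succ]
  rw [e, e, hφ]

def Bip (G : SimpleGraph V) (S : Set V) : Prop :=
  (∀ x ∈ S, ∀ y ∈ S, ∀ z ∈ S, ¬ G.Adj x y → ¬ G.Adj y z → ¬ G.Adj x z) ∧
  ∃ x ∈ S, ∃ y ∈ S, G.Adj x y

theorem Bip.image {φ : G ≃g G} {S T : Set V} (h : φ '' S = T) (hS : Bip G S) : Bip G T := by
  subst h
  obtain ⟨h1, x, hx, y, hy, hxy⟩ := hS
  refine ⟨?_, φ x, ⟨x, hx, rfl⟩, φ y, ⟨y, hy, rfl⟩, φ.map_adj_iff.2 hxy⟩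
  rintro _ ⟨x, hx, rfl⟩ _ ⟨y, hy, rfl⟩ _ ⟨z, hz, rfl⟩
  rw [φ.map_adj_iff, φ.map_adj_iff, φ.map_adj_iff]
  exact h1 x hx y hy z hz

theorem indep3_perm {a b c : V} (hab : Gᶜ.Adj a b) (hac : Gᶜ.Adj a c) (hbc : Gᶜ.Adj b c) :
    Indep3 G a b c := ⟨hab, hac, hbc⟩

theorem P5_block {n k : ℕ} (hc : Ctx G n) (hk : k + 3 = n) (hgood : Good G (k + 1))
    (hD1 : D1 G (k + 1)) {C : Finset V} (hC : G.IsNClique k C) {a b c : V} (hI : Indep3 G a b c)
    (ha : a ∈ cn G C) (hb : b ∈ cn G C) (hcC : c ∈ cn G C)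
    (htrans : ∀ x ∈ cn G (C ∪ {a, b, c}), ∀ y ∈ cn G (C ∪ {a, b, c}), ∀ z ∈ cn G (C ∪ {a, b, c}),
      ¬ G.Adj x y → ¬ G.Adj y z → ¬ G.Adj x z)
    (hedge : ∃ x ∈ cn G (C ∪ {a, b, c}), ∃ y ∈ cn G (C ∪ {a, b, c}), G.Adj x y) : False := by
  rw [Om_eq] at htrans hedge
  have hbip0 : Bip G (Om G C a b c) := ⟨htrans, hedge⟩
  have hbip : ∀ a' b' c' : V, Indep3 G a' b' c' → a' ∈ cn G C → b' ∈ cn G C → c' ∈ cn G C →
      Bip G (Om G C a' b' c') := by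
    intro a' b' c' hI' ha' hb' hc'
    obtain ⟨φ, hφ⟩ := Om_conj hc.sh hC hC hI hI' ha hb hcC ha' hb' hc'
    exact hbip0.image hφ
  obtain ⟨x0, hx0, y0, hy0, hxy0⟩ := hedge
  -- no triangles in `Ω`
  have notri : ∀ x ∈ Om G C a b c, ∀ y ∈ Om G C a b c, ∀ z ∈ Om G C a b c, G.Adj x y →
      G.Adj x z → ¬ G.Adj y z := by
    intro x hx y hy z hz hxy hxz hyz
    have h1 := insert_clique (insert_clique (insert_clique (insert_clique hC ha) (v := z)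
      (mem_cn_insert.2 ⟨hz.2.1, hz.1⟩)) (v := y)
      (mem_cn_insert.2 ⟨hyz, mem_cn_insert.2 ⟨hy.2.1, hy.1⟩⟩)) (v := x)
      (mem_cn_insert.2 ⟨hxy, mem_cn_insert.2 ⟨hxz, mem_cn_insert.2 ⟨hx.2.1, hx.1⟩⟩⟩)
    have h2 := hc.card_le h1.1
    rw [h1.2] at h2
    omega
  have hside : ∀ w ∈ Om G C a b c, {v | v ∈ Om G C a b c ∧ G.Adj v w}.Infinite := by
    intro w hw
    have h1 := hD1 (insert w C) (insert_clique hC hw.1) {a, b, c} (by
      intro x hx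
      simp only [Finset.mem_insert, Finset.mem_singleton] at hx
      rcases hx with rfl | rfl | rfl
      · exact mem_cn_insert.2 ⟨hw.2.1.symm, ha⟩
      · exact mem_cn_insert.2 ⟨hw.2.2.1.symm, hb⟩
      · exact mem_cn_insert.2 ⟨hw.2.2.2.symm, hcC⟩) (by
      rw [cliqueFreeOn_two_iff]
      have h1' : ¬ G.Adj b a := fun h => hI.1.2 h.symm
      have h2' : ¬ G.Adj c a := fun h => hI.2.1.2 h.symm
      have h3' : ¬ G.Adj c b := fun h => hI.2.2.2 h.symm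
      intro x hx y hy
      simp only [Finset.mem_insert, Finset.mem_singleton] at hx hy
      rcases hx with rfl | rfl | rfl <;> rcases hy with rfl | rfl | rfl <;>
        first
        | exact G.irrefl
        | exact hI.1.2
        | exact hI.2.1.2
        | exact hI.2.2.2
        | exact h1'
        | exact h2'
        | exact h3')
    apply h1.mono
    intro v hv
    rw [Om_eq] at hv
    exact ⟨⟨(mem_cn_insert.1 hv.1).2, hv.2⟩, (mem_cn_insert.1 hv.1).1⟩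
  -- the two sides
  have hz1 := hside y0 hy0
  have hz2 := hside x0 hx0
  have hzt : ∀ z ∈ Om G C a b c, G.Adj z y0 → ∀ t ∈ Om G C a b c, G.Adj t x0 → G.Adj z t := by
    intro z hz hzy t ht htx
    by_contra hzt
    have h1 : ¬ G.Adj z x0 := fun h => notri z hz x0 hx0 y0 hy0 h hzy hxy0
    exact htrans x0 hx0 z hz t ht (fun h => h1 h.symm) hzt htx.symm
  have hzz : ∀ z ∈ Om G C a b c, G.Adj z y0 → ∀ z' ∈ Om G C a b c, G.Adj z' y0 →
      ¬ G.Adj z z' := fun z hz hzy z' hz' hzy' => notri y0 hy0 z hz z' hz' hzy.symm hzy'.symm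
  have htt : ∀ z ∈ Om G C a b c, G.Adj z x0 → ∀ z' ∈ Om G C a b c, G.Adj z' x0 →
      ¬ G.Adj z z' := fun z hz hzy z' hz' hzy' => notri x0 hx0 z hz z' hz' hzy.symm hzy'.symm
  obtain ⟨t1, ⟨ht1, ht1x⟩⟩ := hz2.nonempty
  obtain ⟨t2, ⟨ht2, ht2x⟩, h21⟩ := (hz2.sdiff (Set.finite_singleton t1)).nonempty
  obtain ⟨t3, ⟨ht3, ht3x⟩, h3⟩ := (hz2.sdiff (Set.toFinite {t1, t2})).nonempty
  have h21 : t2 ≠ t1 := h21
  have h31 : t3 ≠ t1 := fun h => h3 (by simp [h])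
  have h32 : t3 ≠ t2 := fun h => h3 (by simp [h])
  have hT : Indep3 G t1 t2 t3 := ⟨⟨h21.symm, htt _ ht1 ht1x _ ht2 ht2x⟩,
    ⟨h31.symm, htt _ ht1 ht1x _ ht3 ht3x⟩, ⟨h32.symm, htt _ ht2 ht2x _ ht3 ht3x⟩⟩
  have hbT := hbip t1 t2 t3 hT ht1.1 ht2.1 ht3.1
  -- the block claim
  have blockA : ∀ z1 ∈ Om G C a b c, G.Adj z1 y0 → ∀ z2 ∈ Om G C a b c, G.Adj z2 y0 →
      ∀ z3 ∈ Om G C a b c, G.Adj z3 y0 → ∀ z4 ∈ Om G C a b c, G.Adj z4 y0 →
      z1 ≠ z2 → z1 ≠ z3 → z2 ≠ z3 → ∀ x ∈ Om G C z1 z2 z3, G.Adj x z4 := by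
    intro z1 hz1 hz1y z2 hz2 hz2y z3 hz3 hz3y z4 hz4 hz4y h12 h13 h23 x hx
    have hJ : Indep3 G z1 z2 z3 := ⟨⟨h12, hzz _ hz1 hz1y _ hz2 hz2y⟩,
      ⟨h13, hzz _ hz1 hz1y _ hz3 hz3y⟩, ⟨h23, hzz _ hz2 hz2y _ hz3 hz3y⟩⟩
    have hbJ := hbip z1 z2 z3 hJ hz1.1 hz2.1 hz3.1
    have haJ : a ∈ Om G C z1 z2 z3 := ⟨ha, hz1.2.1.symm, hz2.2.1.symm, hz3.2.1.symm⟩
    have hbJ' : b ∈ Om G C z1 z2 z3 := ⟨hb, hz1.2.2.1.symm, hz2.2.2.1.symm, hz3.2.2.1.symm⟩
    have hcJ : c ∈ Om G C z1 z2 z3 := ⟨hcC, hz1.2.2.2.symm, hz2.2.2.2.symm, hz3.2.2.2.symm⟩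
    have htJ : ∀ t ∈ Om G C a b c, G.Adj t x0 → t ∈ Om G C z1 z2 z3 := fun t ht htx =>
      ⟨ht.1, (hzt z1 hz1 hz1y t ht htx).symm, (hzt z2 hz2 hz2y t ht htx).symm,
        (hzt z3 hz3 hz3y t ht htx).symm⟩
    have haT : a ∈ Om G C t1 t2 t3 := ⟨ha, ht1.2.1.symm, ht2.2.1.symm, ht3.2.1.symm⟩
    have hzT : ∀ z ∈ Om G C a b c, G.Adj z y0 → z ∈ Om G C t1 t2 t3 := fun z hz hzy =>
      ⟨hz.1, hzt z hz hzy t1 ht1 ht1x, hzt z hz hzy t2 ht2 ht2x, hzt z hz hzy t3 ht3 ht3x⟩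
    by_cases hxa : G.Adj x a
    · have hxb : G.Adj x b := by
        by_contra hxb
        exact hbJ.1 x hx b hbJ' a haJ hxb (fun h => hI.1.2 h.symm) hxa
      have hxc : G.Adj x c := by
        by_contra hxc
        exact hbJ.1 x hx c hcJ a haJ hxc (fun h => hI.2.1.2 h.symm) hxa
      have hxO : x ∈ Om G C a b c := ⟨hx.1, hxa, hxb, hxc⟩
      by_contra hxz
      exact htrans x hxO z4 hz4 z1 hz1 hxz (hzz _ hz4 hz4y _ hz1 hz1y) hx.2.1
    · have hxt : ∀ t ∈ Om G C a b c, G.Adj t x0 → G.Adj x t := by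
        intro t ht htx
        by_contra hxt
        exact hbJ.1 a haJ x hx t (htJ t ht htx) (fun h => hxa h.symm) hxt ht.2.1.symm
      have hxT : x ∈ Om G C t1 t2 t3 :=
        ⟨hx.1, hxt t1 ht1 ht1x, hxt t2 ht2 ht2x, hxt t3 ht3 ht3x⟩
      by_contra hxz
      exact hbT.1 a haT x hxT z4 (hzT z4 hz4 hz4y) (fun h => hxa h.symm) hxz hz4.2.1.symm
  -- four elements of `Z₁`
  obtain ⟨A, hA, hAc⟩ := hz1.exists_subset_card_eq 4
  let e : Fin 4 ≃ A := (Finset.equivFinOfCardEq hAc).symm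
  let z : Fin 4 → V := fun i => (e i : V)
  have hz : Function.Injective z := fun i j h => e.injective (Subtype.ext h)
  have hzA : ∀ i, z i ∈ Om G C a b c ∧ G.Adj (z i) y0 := fun i => hA (e i).2
  have block4 : ∀ w : Fin 4 → V, Function.Injective w → (∀ i, w i ∈ cn G C) →
      (∀ i j, ¬ G.Adj (w i) (w j)) → ∀ x ∈ Om G C (w 0) (w 1) (w 2), G.Adj x (w 3) := by
    intro w hw hwC hwA x hx
    obtain ⟨φ, σ, hφC, hφ⟩ := T1 hc.sh hC.1 hC.1 rfl (ι := Fin 4) (y := z) (y' := w) hz hw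
      (fun i j => ⟨fun h => absurd h (hzz _ (hzA i).1 (hzA i).2 _ (hzA j).1 (hzA j).2),
        fun h => absurd h (hwA i j)⟩) (fun i => (hzA i).1.1) hwC
      (fun i => ⟨i + 1, by fin_cases i <;> simp, hzz _ (hzA i).1 (hzA i).2 _ (hzA _).1 (hzA _).2⟩)
    have hφ' : ∀ i, φ.symm (w i) = z (σ.symm i) := by
      intro i
      have := hφ (σ.symm i)
      rw [Equiv.apply_symm_apply] at this
      rw [← this]; simp
    have hadj : ∀ i, G.Adj (φ.symm x) (z (σ.symm i)) ↔ G.Adj x (w i) := by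
      intro i
      rw [← hφ']; exact φ.symm.map_adj_iff
    have hxC : φ.symm x ∈ cn G C := by
      rw [← mem_cn_image φ, hφC]
      simpa using hx.1
    rw [← hadj]
    apply blockA _ (hzA (σ.symm 0)).1 (hzA _).2 _ (hzA (σ.symm 1)).1 (hzA _).2 _
      (hzA (σ.symm 2)).1 (hzA _).2 _ (hzA (σ.symm 3)).1 (hzA _).2
    · exact hz.ne (σ.symm.injective.ne (by decide))
    · exact hz.ne (σ.symm.injective.ne (by decide))
    · exact hz.ne (σ.symm.injective.ne (by decide))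
    · exact ⟨hxC, (hadj 0).2 hx.2.1, (hadj 1).2 hx.2.2.1, (hadj 2).2 hx.2.2.2⟩
  -- final contradiction
  have hC2 := insert_clique hC ha
  obtain ⟨hinf, hP3, e', he, x1, hx1, x2, hx2, h12, he1, he2⟩ := hgood _ hC2
  have hinf1 : (cn G (insert e' (insert a C))).Infinite :=
    infinite_succ hc.sh (fun C hC => ⟨(hgood C hC).1, (hgood C hC).2.1⟩) _ (insert_clique hC2 he)
  have hJind : ∀ x ∈ cn G (insert e' (insert a C)), ∀ y ∈ cn G (insert e' (insert a C)),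
      ¬ G.Adj x y := by
    intro x hx y hy
    rw [mem_cn_insert] at hx hy
    exact no_tri hc (by omega) hC2 he hx.2 hy.2 hx.1.symm hy.1.symm
  have hfinx : ∀ x ∈ cn G (insert a C), Gᶜ.Adj e' x →
      {y | y ∈ cn G (insert e' (insert a C)) ∧ ¬ G.Adj x y}.Finite := by
    intro x hx hex'
    by_contra hinf'
    obtain ⟨P, hP, hPc⟩ := (Set.not_finite.1 hinf' : Set.Infinite _).exists_subset_card_eq 3
    let f : Fin 3 ≃ P := (Finset.equivFinOfCardEq hPc).symm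
    have hf : ∀ i, (f i : V) ∈ cn G (insert e' (insert a C)) ∧ ¬ G.Adj x (f i) :=
      fun i => hP (f i).2
    have hfC : ∀ i, (f i : V) ∈ cn G C := fun i =>
      (mem_cn_insert.1 (mem_cn_insert.1 (hf i).1).2).2
    have hfx : ∀ i, (f i : V) ≠ x := by
      intro i h
      have := (mem_cn_insert.1 (hf i).1).1
      rw [h] at this
      exact hex'.2 this.symm
    have hfinj : ∀ i j, i ≠ j → (f i : V) ≠ f j := fun i j hij h => hij (f.injective (Subtype.ext h))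
    have h01 := hfinj 0 1 (by decide)
    have h02 := hfinj 0 2 (by decide)
    have h12 := hfinj 1 2 (by decide)
    have hxf : ∀ i, ¬ G.Adj (f i : V) x := fun i h => (hf i).2 h.symm
    have := block4 ![f 0, f 1, f 2, x] (by
        intro i j
        fin_cases i <;> fin_cases j <;>
          simp [h01, h01.symm, h02, h02.symm, h12, h12.symm, hfx, (hfx _).symm])
      (by intro i; fin_cases i <;> simp [hfC, (mem_cn_insert.1 hx).2])
      (by
        intro i j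
        fin_cases i <;> fin_cases j <;>
          simp [hJind _ (hf _).1 _ (hf _).1, hxf, (hf _).2])
      e' ⟨(mem_cn_insert.1 he).2, (mem_cn_insert.1 (hf 0).1).1.symm,
        (mem_cn_insert.1 (hf 1).1).1.symm, (mem_cn_insert.1 (hf 2).1).1.symm⟩
    exact hex'.2 this
  obtain ⟨q, hq, hq'⟩ := (hinf1.sdiff ((hfinx x1 hx1 he1).union (hfinx x2 hx2 he2))).nonempty
  have h1 : G.Adj x1 q := by
    by_contra h; exact hq' (Or.inl ⟨hq, h⟩)
  have h2 : G.Adj x2 q := by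
    by_contra h; exact hq' (Or.inr ⟨hq, h⟩)
  exact no_tri hc (by omega) hC2 (mem_cn_insert.1 hq).2 hx1 hx2 h1.symm h2.symm h12

end Run7.h901
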