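import Pool.Agent.Run7.h901.Main3

/-!
Rich set-homogeneous graphs: both `K_n`, `I_n` for all `n`, and `P₃`, `K₁ + K₂`.
-/

open scoped Classical

namespace Run7.h901

universe u
variable {V : Type u} {G : SimpleGraph V}

/-- set-homogeneous, with cliques and independent sets of all sizes and with `P₃`, `K₁ + K₂`. -/
structure Rich (G : SimpleGraph V) : Prop where
  sh : SetHomogeneous G
  cl : ∀ n, ∃ C : Finset V, G.IsNClique n C
  ind : ∀ n, ∃ I : Finset V, Indp G I ∧ I.card = n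
  p3 : HasP3 G Set.univ
  k12 : HasK12 G Set.univ

theorem indp_compl_iff {C : Finset V} : Indp Gᶜ C ↔ G.IsClique (C : Set V) := by
  constructor
  · intro h x hx y hy hxy
    by_contra hn
    exact h x hx y hy ⟨hxy, hn⟩
  · intro h x hx y hy hxy
    exact hxy.2 (h hx hy hxy.1)

theorem Indp.nclique {I : Finset V} (h : Indp G I) : Gᶜ.IsNClique I.card I :=
  ⟨h.isClique, rfl⟩

theorem indp_of_nclique {n : ℕ} {I : Finset V} (h : Gᶜ.IsNClique n I) : Indp G I := by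
  intro x hx y hy hxy
  exact (h.1 hx hy hxy.ne).2 hxy

theorem Indp.adj_compl {I : Finset V} (h : Indp G I) {x y : V} (hx : x ∈ I) (hy : y ∈ I)
    (hxy : x ≠ y) : Gᶜ.Adj x y := ⟨hxy, h x hx y hy⟩

theorem Rich.compl (h : Rich G) : Rich Gᶜ where
  sh := h.sh.compl
  cl := fun n => by
    obtain ⟨I, hI, hc⟩ := h.ind n
    exact ⟨I, hI.isClique, hc⟩
  ind := fun n => by
    obtain ⟨C, hC⟩ := h.cl n
    exact ⟨C, indp_compl_iff.2 hC.1, hC.2⟩
  p3 := by
    obtain ⟨a, -, b, -, c, -, h1, h2, h3⟩ := h.k12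
    refine ⟨b, trivial, a, trivial, c, trivial, h2.symm, h3, ?_⟩
    rw [compl_compl]
    exact h1
  k12 := by
    obtain ⟨a, -, b, -, c, -, h1, h2, h3⟩ := h.p3
    refine ⟨b, trivial, a, trivial, c, trivial, h3, ?_, ?_⟩ <;> rw [compl_compl]
    · exact h1.symm
    · exact h2

theorem Rich.rch (h : Rich G) : Rch G := ⟨h.sh, h.cl⟩

theorem Rich.not_bdd (h : Rich G) (i N : ℕ) : ¬ BddAt G i N :=
  fun hb => alpha h.rch h.ind ⟨i, N, hb⟩ h.p3

theorem Rich.indep_above (h : Rich G) {j : ℕ} {C : Finset V} (hC : G.IsNClique j C) (s : ℕ) :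
    ∃ I : Finset V, Indp G I ∧ I.card = s ∧ ∀ x ∈ I, x ∈ cn G C := by
  have h1 := h.not_bdd j s
  unfold BddAt at h1
  push Not at h1
  obtain ⟨C', hC', I', hI', hI'C, hcard⟩ := h1
  obtain ⟨I, hI, hIc, hIC⟩ := indp_conj h.sh hC' hC hI' hI'C
  obtain ⟨J, hJ, hJc⟩ := Finset.exists_subset_card_eq (s := I) (n := s) (by omega)
  exact ⟨J, hI.subset hJ, hJc, fun x hx => hIC x (hJ hx)⟩

theorem Rich.clique_off (h : Rich G) {J : Finset V} (hJ : Indp G J) (s : ℕ) :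
    ∃ Q : Finset V, G.IsNClique s Q ∧ Far G Q J := by
  obtain ⟨Q, hQ, hQc, hQJ⟩ := h.compl.indep_above hJ.nclique s
  exact ⟨Q, ⟨indp_compl_iff.1 hQ, hQc⟩, hQJ⟩

/-- independent sets extend. -/
theorem Rich.indp_extend (h : Rich G) {J : Finset V} (hJ : Indp G J) (s : ℕ) :
    ∃ K : Finset V, J ⊆ K ∧ Indp G K ∧ K.card = J.card + s := by
  obtain ⟨Q, hQ, hQJ⟩ := h.compl.rch.extend s hJ.nclique
  have := join (G := Gᶜ) hJ.nclique hQ hQJ
  exact ⟨J ∪ Q, Finset.subset_union_left, indp_of_nclique this, this.2⟩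

theorem quasi_of (hG : SetHomogeneous G) : Quasi G := fun _ _ _ hy hy' h _ => T0 hG hy hy' h

theorem far_pair {a b : V} {J : Finset V} (ha : ∀ j ∈ J, Gᶜ.Adj a j) (hb : ∀ j ∈ J, Gᶜ.Adj b j) :
    Far G {a, b} J := by
  intro y hy z hz
  simp only [Finset.mem_insert, Finset.mem_singleton] at hy
  rcases hy with rfl | rfl
  · exact ha z hz
  · exact hb z hz

/-- conjugacy of `K₂ + I_n`, including `n = 0`. -/
theorem K2F0 (hG : SetHomogeneous G) {p q v x : V} {F F' : Finset V} (hpq : G.Adj p q)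
    (hvx : G.Adj v x) (hF : Indp G F) (hF' : Indp G F') (hcF : F.card = F'.card)
    (far : Far G {p, q} F) (far' : Far G {v, x} F') :
    ∃ φ : G ≃g G, F.image φ = F' ∧ ((φ p = v ∧ φ q = x) ∨ (φ p = x ∧ φ q = v)) := by
  rcases F.eq_empty_or_nonempty with rfl | hne
  · have h1 : F' = ∅ := by rw [← Finset.card_eq_zero, ← hcF]; simp
    subst h1
    obtain ⟨φ, hφ, -⟩ := clique_conj hG (k := 2) (C := {p, q}) (C' := {v, x})
      ⟨isClique_pair hpq, Finset.card_pair hpq.ne⟩ ⟨isClique_pair hvx, Finset.card_pair hvx.ne⟩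
    refine ⟨φ, by simp, ?_⟩
    have hp : φ p ∈ ({v, x} : Finset V) := by
      rw [← hφ]; exact Finset.mem_image_of_mem _ (by simp)
    have hq : φ q ∈ ({v, x} : Finset V) := by
      rw [← hφ]; exact Finset.mem_image_of_mem _ (by simp)
    have hne : φ p ≠ φ q := φ.injective.ne hpq.ne
    simp only [Finset.mem_insert, Finset.mem_singleton] at hp hq
    rcases hp with h1 | h1 <;> rcases hq with h2 | h2
    · exact absurd (h1.trans h2.symm) hne
    · exact Or.inl ⟨h1, h2⟩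
    · exact Or.inr ⟨h1, h2⟩
    · exact absurd (h1.trans h2.symm) hne
  · exact (quasi_of hG).K2F hpq hvx hF hF' hcF far far' hne

/-- all independent sets of the same size are conjugate. -/
theorem indp_conj' (hG : SetHomogeneous G) {I I' : Finset V} (hI : Indp G I) (hI' : Indp G I')
    (hc : I.card = I'.card) : ∃ φ : G ≃g G, I.image φ = I' := by
  obtain ⟨φ, hφ, -⟩ := clique_conj hG.compl hI.nclique (hc ▸ hI'.nclique)
  have h2 : ∀ a b, G.Adj (φ a) (φ b) ↔ G.Adj a b := by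
    intro a b
    have h1 := φ.map_adj_iff (v := a) (w := b)
    by_cases hab : a = b
    · subst hab; simp
    · simp only [SimpleGraph.compl_adj, ne_eq, φ.injective.eq_iff, hab, not_false_eq_true,
        true_and] at h1
      exact not_iff_not.1 h1
  exact ⟨{ toEquiv := φ.toEquiv, map_rel_iff' := h2 _ _ }, hφ⟩

/-- `x` and `y` are conjugate over `J` pointwise. -/
def Eqv (G : SimpleGraph V) (J : Finset V) (x y : V) : Prop :=
  ∃ φ : G ≃g G, (∀ j ∈ J, φ j = j) ∧ φ x = y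

theorem Eqv.refl (J : Finset V) (x : V) : Eqv G J x x := ⟨SimpleGraph.Iso.refl, fun _ _ => rfl, rfl⟩

theorem Eqv.symm {J : Finset V} {x y : V} (h : Eqv G J x y) : Eqv G J y x := by
  obtain ⟨φ, h1, h2⟩ := h
  refine ⟨φ.symm, fun j hj => ?_, ?_⟩
  · nth_rw 1 [← h1 j hj]; simp
  · rw [← h2]; simp

theorem Eqv.trans {J : Finset V} {x y z : V} (h : Eqv G J x y) (h' : Eqv G J y z) :
    Eqv G J x z := by
  obtain ⟨φ, h1, h2⟩ := h
  obtain ⟨ψ, h3, h4⟩ := h'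
  exact ⟨φ.trans ψ, fun j hj => by simp [h1 j hj, h3 j hj], by simp [h2, h4]⟩

theorem Eqv.mono {J K : Finset V} {x y : V} (h : Eqv G K x y) (hJ : J ⊆ K) : Eqv G J x y := by
  obtain ⟨φ, h1, h2⟩ := h
  exact ⟨φ, fun j hj => h1 j (hJ hj), h2⟩

theorem Eqv.map {J : Finset V} {x y : V} (h : Eqv G J x y) (ψ : G ≃g G) :
    Eqv G (J.image ψ) (ψ x) (ψ y) := by
  obtain ⟨φ, h1, h2⟩ := h
  refine ⟨(ψ.symm.trans φ).trans ψ, fun j hj => ?_, by simp [h2]⟩
  rw [Finset.mem_image] at hj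
  obtain ⟨i, hi, rfl⟩ := hj
  simp [h1 i hi]

/-- (F4) adjacent vertices in the common non-neighbourhood of an independent set `J` are conjugate
over `J`. -/
theorem F4 (h : Rich G) {J : Finset V} (hJ : Indp G J) {x y : V} (hxy : G.Adj x y)
    (hx : ∀ j ∈ J, Gᶜ.Adj x j) (hy : ∀ j ∈ J, Gᶜ.Adj y j) : Eqv G J x y := by
  -- one edge suffices
  suffices hex : ∃ p q, G.Adj p q ∧ (∀ j ∈ J, Gᶜ.Adj p j) ∧ (∀ j ∈ J, Gᶜ.Adj q j) ∧ Eqv G J p q by
    obtain ⟨p, q, hpq, hp, hq, hE⟩ := hex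
    obtain ⟨ψ, h1, h2⟩ := K2F0 h.sh hpq hxy hJ hJ rfl (far_pair hp hq) (far_pair hx hy)
    have := hE.map ψ
    rw [h1] at this
    rcases h2 with ⟨e1, e2⟩ | ⟨e1, e2⟩
    · rwa [e1, e2] at this
    · rw [e1, e2] at this
      exact this.symm
  obtain ⟨Q, hQ, hQJ⟩ := h.clique_off hJ (Fintype.card (J → J) + 2)
  obtain ⟨q0, hq0⟩ : Q.Nonempty := by rw [← Finset.card_pos, hQ.2]; omega
  obtain ⟨q1, hq1⟩ : (Q.erase q0).Nonempty := by
    rw [← Finset.card_pos, Finset.card_erase_of_mem hq0, hQ.2]; omega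
  have hadj : ∀ q ∈ Q.erase q0, G.Adj q0 q := fun q hq =>
    hQ.1 hq0 (Finset.mem_of_mem_erase hq) (Finset.ne_of_mem_erase hq).symm
  have hmap : ∀ q : (Q.erase q0 : Finset V), ∃ φ : G ≃g G, J.image φ = J ∧
      ((φ q0 = q0 ∧ φ q1 = q.1) ∨ (φ q0 = q.1 ∧ φ q1 = q0)) := fun q =>
    K2F0 h.sh (hadj q1 hq1) (hadj q.1 q.2) hJ hJ rfl
      (far_pair (fun j hj => hQJ q0 hq0 j hj)
        (fun j hj => hQJ q1 (Finset.mem_of_mem_erase hq1) j hj))
      (far_pair (fun j hj => hQJ q0 hq0 j hj)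
        (fun j hj => hQJ q (Finset.mem_of_mem_erase q.2) j hj))
  choose φ hφJ hφ using hmap
  obtain ⟨a, b, hab, he⟩ := Fintype.exists_ne_map_eq_of_card_lt
    (fun q : (Q.erase q0 : Finset V) => (fun j : J => (⟨φ q j.1, by
      have := Finset.mem_image_of_mem (φ q) j.2
      rwa [hφJ q] at this⟩ : J)))
    (by rw [Fintype.card_coe, Finset.card_erase_of_mem hq0, hQ.2]; omega)
  have he' : ∀ j ∈ J, φ a j = φ b j := fun j hj => by
    have := congrFun he ⟨j, hj⟩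
    exact congrArg Subtype.val this
  -- `φ b ∘ (φ a)⁻¹`
  have hJa : ∀ j ∈ J, ∃ i ∈ J, φ a i = j := by
    intro j hj
    rw [← hφJ a, Finset.mem_image] at hj
    exact hj
  have haQ := Finset.mem_of_mem_erase a.2
  have hbQ := Finset.mem_of_mem_erase b.2
  have hE : Eqv G J a.1 ((φ b) ((φ a).symm a.1)) :=
    ⟨(φ a).symm.trans (φ b), fun j hj => by
      obtain ⟨i, hi, rfl⟩ := hJa j hj
      show (φ b) ((φ a).symm ((φ a) i)) = _
      rw [RelIso.symm_apply_apply]; exact (he' i hi).symm, by simp⟩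
  have himg : (φ b) ((φ a).symm a.1) = q0 ∨ (φ b) ((φ a).symm a.1) = b.1 := by
    have h1 : (φ a).symm a.1 = q0 ∨ (φ a).symm a.1 = q1 := by
      rcases hφ a with ⟨e1, e2⟩ | ⟨e1, e2⟩
      · right; rw [← e2]; simp
      · left; rw [← e1]; simp
    rcases h1 with h1 | h1 <;> rw [h1] <;> rcases hφ b with ⟨e1, e2⟩ | ⟨e1, e2⟩
    · exact Or.inl e1
    · exact Or.inr e1
    · exact Or.inr e2
    · exact Or.inl e2
  rcases himg with hi | hi
  · rw [hi] at hE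
    exact ⟨a, q0, (hadj a a.2).symm, hQJ a haQ, hQJ q0 hq0, hE⟩
  · rw [hi] at hE
    exact ⟨a, b, hQ.1 haQ hbQ (fun h => hab (Subtype.ext h)), hQJ a haQ, hQJ b hbQ, hE⟩

/-- (F3) -/
theorem F3 (h : Rich G) {J J' : Finset V} (hJ : Indp G J) (hJ' : Indp G J')
    (hc : J.card = J'.card) {x x' y y' : V} (hxx' : G.Adj x x') (hyy' : G.Adj y y')
    (hx : ∀ j ∈ J, Gᶜ.Adj x j) (hx' : ∀ j ∈ J, Gᶜ.Adj x' j)
    (hy : ∀ j ∈ J', Gᶜ.Adj y j) (hy' : ∀ j ∈ J', Gᶜ.Adj y' j) :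
    ∃ φ : G ≃g G, J.image φ = J' ∧ φ x = y := by
  obtain ⟨ψ, h1, h2⟩ := K2F0 h.sh hxx' hyy' hJ hJ' hc (far_pair hx hx') (far_pair hy hy')
  rcases h2 with ⟨e1, e2⟩ | ⟨e1, e2⟩
  · exact ⟨ψ, h1, e1⟩
  · obtain ⟨φ, h3, h4⟩ := F4 h hJ' hyy'.symm hy' hy
    refine ⟨ψ.trans φ, ?_, by simp [e1, h4]⟩
    ext v
    rw [Finset.mem_image]
    constructor
    · rintro ⟨j, hj, rfl⟩
      have : ψ j ∈ J' := by rw [← h1]; exact Finset.mem_image_of_mem _ hj
      simpa [h3 _ this] using this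
    · intro hv
      have hv' := hv
      rw [← h1, Finset.mem_image] at hv'
      obtain ⟨j, hj, hjv⟩ := hv'
      exact ⟨j, hj, by simp [hjv, h3 v hv]⟩

end Run7.h901
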