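import Pool.Agent.Run7.h901.P3

/-!
Abstract triangle-free graphs with weak set-homogeneity: the theory of middles.
-/

open scoped Classical

namespace Run7.h901

universe u
variable {W : Type u} {H : SimpleGraph W}

/-- quasi set-homogeneity: finite families without universal member. -/
def Quasi (H : SimpleGraph W) : Prop :=
  ∀ (r : ℕ) (y y' : Fin r → W), Function.Injective y → Function.Injective y' →
    (∀ i j, H.Adj (y i) (y j) ↔ H.Adj (y' i) (y' j)) →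
    (∀ i, ∃ j, j ≠ i ∧ ¬ H.Adj (y i) (y j)) →
    ∃ (φ : H ≃g H) (σ : Equiv.Perm (Fin r)), ∀ i, φ (y i) = y' (σ i)

/-- the properties of the common neighbourhood of an `(n-2)`-clique. -/
structure TF (H : SimpleGraph W) : Prop where
  quasi : Quasi H
  tri : ∀ x y z, H.Adj x y → H.Adj x z → ¬ H.Adj y z
  d1 : ∀ I : Finset W, (∀ x ∈ I, ∀ y ∈ I, ¬ H.Adj x y) → (cn H I).Infinite
  k12 : HasK12 H Set.univ
  d2 : ∃ c₁ c₂ a b, H.Adj c₁ c₂ ∧ Hᶜ.Adj a b ∧ Hᶜ.Adj c₁ a ∧ Hᶜ.Adj c₁ b ∧ Hᶜ.Adj c₂ a ∧ Hᶜ.Adj c₂ b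

/-- pattern `P₃ + K₁`: `a - q - c` and `b`. -/
def P3K1 (H : SimpleGraph W) (a q c b : W) : Prop :=
  H.Adj q a ∧ H.Adj q c ∧ Hᶜ.Adj a c ∧ Hᶜ.Adj b a ∧ Hᶜ.Adj b q ∧ Hᶜ.Adj b c

namespace Quasi

theorem pair (hT : Quasi H) {a b a' b' : W} (h : Hᶜ.Adj a b) (h' : Hᶜ.Adj a' b') :
    ∃ φ : H ≃g H, (φ a = a' ∧ φ b = b') ∨ (φ a = b' ∧ φ b = a') := by
  obtain ⟨h1, h2⟩ := h
  obtain ⟨h1', h2'⟩ := h'
  have h3 : ¬ H.Adj b a := fun h => h2 h.symm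
  have h3' : ¬ H.Adj b' a' := fun h => h2' h.symm
  obtain ⟨φ, σ, hφ⟩ := hT 2 ![a, b] ![a', b']
    (by intro i j; fin_cases i <;> fin_cases j <;> simp [h1, h1.symm])
    (by intro i j; fin_cases i <;> fin_cases j <;> simp [h1', h1'.symm])
    (by intro i j; fin_cases i <;> fin_cases j <;> simp [h2, h3, h2', h3'])
    (by
      intro i
      fin_cases i
      · exact ⟨1, by simp, by simpa using h2⟩
      · exact ⟨0, by simp, by simpa using h3⟩)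
  refine ⟨φ, ?_⟩
  have e0 := hφ 0
  have e1 := hφ 1
  have hne : σ 0 ≠ σ 1 := fun h => by simpa using σ.injective h
  generalize σ 0 = s at *
  generalize σ 1 = t at *
  fin_cases s <;> fin_cases t <;> simp_all

theorem fin3_perm : ∀ s0 s1 s2 : Fin 3, s0 ≠ s1 → s0 ≠ s2 → s1 ≠ s2 →
    (s0 = 0 ∧ s1 = 1 ∧ s2 = 2) ∨ (s0 = 0 ∧ s1 = 2 ∧ s2 = 1) ∨ (s0 = 1 ∧ s1 = 0 ∧ s2 = 2) ∨
    (s0 = 1 ∧ s1 = 2 ∧ s2 = 0) ∨ (s0 = 2 ∧ s1 = 0 ∧ s2 = 1) ∨ (s0 = 2 ∧ s1 = 1 ∧ s2 = 0) := by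
  decide

theorem triple (hT : Quasi H) {a b c a' b' c' : W} (h : Indep3 H a b c) (h' : Indep3 H a' b' c') :
    ∃ φ : H ≃g H, (φ a = a' ∧ φ b = b' ∧ φ c = c') ∨ (φ a = a' ∧ φ b = c' ∧ φ c = b') ∨
      (φ a = b' ∧ φ b = a' ∧ φ c = c') ∨ (φ a = b' ∧ φ b = c' ∧ φ c = a') ∨
      (φ a = c' ∧ φ b = a' ∧ φ c = b') ∨ (φ a = c' ∧ φ b = b' ∧ φ c = a') := by
  obtain ⟨⟨h1, k1⟩, ⟨h2, k2⟩, ⟨h3, k3⟩⟩ := h
  obtain ⟨⟨h1', k1'⟩, ⟨h2', k2'⟩, ⟨h3', k3'⟩⟩ := h'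
  have l1 : ¬ H.Adj b a := fun h => k1 h.symm
  have l2 : ¬ H.Adj c a := fun h => k2 h.symm
  have l3 : ¬ H.Adj c b := fun h => k3 h.symm
  have l1' : ¬ H.Adj b' a' := fun h => k1' h.symm
  have l2' : ¬ H.Adj c' a' := fun h => k2' h.symm
  have l3' : ¬ H.Adj c' b' := fun h => k3' h.symm
  obtain ⟨φ, σ, hφ⟩ := hT 3 ![a, b, c] ![a', b', c']
    (by intro i j; fin_cases i <;> fin_cases j <;> simp [h1, h1.symm, h2, h2.symm, h3, h3.symm])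
    (by intro i j; fin_cases i <;> fin_cases j <;>
          simp [h1', h1'.symm, h2', h2'.symm, h3', h3'.symm])
    (by intro i j; fin_cases i <;> fin_cases j <;>
          simp [k1, k2, k3, l1, l2, l3, k1', k2', k3', l1', l2', l3'])
    (by
      intro i
      fin_cases i
      · exact ⟨1, by simp, by simpa using k1⟩
      · exact ⟨0, by simp, by simpa using l1⟩
      · exact ⟨0, by simp, by simpa using l2⟩)
  refine ⟨φ, ?_⟩
  have e0 : φ a = ![a', b', c'] (σ 0) := hφ 0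
  have e1 : φ b = ![a', b', c'] (σ 1) := hφ 1
  have e2 : φ c = ![a', b', c'] (σ 2) := hφ 2
  have n01 : σ 0 ≠ σ 1 := fun h => by simpa using σ.injective h
  have n02 : σ 0 ≠ σ 2 := fun h => by simpa using σ.injective h
  have n12 : σ 1 ≠ σ 2 := fun h => by simpa using σ.injective h
  rcases fin3_perm _ _ _ n01 n02 n12 with ⟨k0, k1, k2⟩ | ⟨k0, k1, k2⟩ | ⟨k0, k1, k2⟩ |
    ⟨k0, k1, k2⟩ | ⟨k0, k1, k2⟩ | ⟨k0, k1, k2⟩ <;> rw [k0] at e0 <;> rw [k1] at e1 <;>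
    rw [k2] at e2
  · exact Or.inl ⟨e0, e1, e2⟩
  · exact Or.inr (Or.inl ⟨e0, e1, e2⟩)
  · exact Or.inr (Or.inr (Or.inl ⟨e0, e1, e2⟩))
  · exact Or.inr (Or.inr (Or.inr (Or.inl ⟨e0, e1, e2⟩)))
  · exact Or.inr (Or.inr (Or.inr (Or.inr (Or.inl ⟨e0, e1, e2⟩))))
  · exact Or.inr (Or.inr (Or.inr (Or.inr (Or.inr ⟨e0, e1, e2⟩))))

theorem p3k1_perm : ∀ s0 s1 s2 s3 : Fin 4, s0 ≠ s1 → s0 ≠ s2 → s0 ≠ s3 → s1 ≠ s2 → s1 ≠ s3 →
    s2 ≠ s3 → ∀ P : Fin 4 → Fin 4 → Bool, (P = fun i j => decide ((i = 1 ∧ (j = 0 ∨ j = 2)) ∨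
      (j = 1 ∧ (i = 0 ∨ i = 2)))) → P s0 s1 = true → P s1 s2 = true →
    s1 = 1 ∧ s3 = 3 ∧ ((s0 = 0 ∧ s2 = 2) ∨ (s0 = 2 ∧ s2 = 0)) := by
  intro s0 s1 s2 s3 h01 h02 h03 h12 h13 h23 P hP
  subst hP
  revert s0 s1 s2 s3
  decide

theorem p3k1 (hT : Quasi H) {a q c b a' q' c' b' : W} (h : P3K1 H a q c b) (h' : P3K1 H a' q' c' b') :
    ∃ φ : H ≃g H, φ q = q' ∧ φ b = b' ∧ ((φ a = a' ∧ φ c = c') ∨ (φ a = c' ∧ φ c = a')) := by
  obtain ⟨qa, qc, ⟨hac, nac⟩, ⟨hba, nba⟩, ⟨hbq, nbq⟩, ⟨hbc, nbc⟩⟩ := h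
  obtain ⟨qa', qc', ⟨hac', nac'⟩, ⟨hba', nba'⟩, ⟨hbq', nbq'⟩, ⟨hbc', nbc'⟩⟩ := h'
  have s1 : ¬ H.Adj c a := fun h => nac h.symm
  have s2 : ¬ H.Adj a b := fun h => nba h.symm
  have s3 : ¬ H.Adj q b := fun h => nbq h.symm
  have s4 : ¬ H.Adj c b := fun h => nbc h.symm
  have s1' : ¬ H.Adj c' a' := fun h => nac' h.symm
  have s2' : ¬ H.Adj a' b' := fun h => nba' h.symm
  have s3' : ¬ H.Adj q' b' := fun h => nbq' h.symm
  have s4' : ¬ H.Adj c' b' := fun h => nbc' h.symm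
  obtain ⟨φ, σ, hφ⟩ := hT 4 ![a, q, c, b] ![a', q', c', b']
    (by intro i j; fin_cases i <;> fin_cases j <;> simp [hac, hac.symm, hba, hba.symm, hbq,
          hbq.symm, hbc, hbc.symm, qa.ne, qa.ne.symm, qc.ne, qc.ne.symm])
    (by intro i j; fin_cases i <;> fin_cases j <;> simp [hac', hac'.symm, hba', hba'.symm, hbq',
          hbq'.symm, hbc', hbc'.symm, qa'.ne, qa'.ne.symm, qc'.ne, qc'.ne.symm])
    (by intro i j; fin_cases i <;> fin_cases j <;> simp [nac, nba, nbq, nbc, s1, s2, s3, s4, qa,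
          qa.symm, qc, qc.symm, nac', nba', nbq', nbc', s1', s2', s3', s4', qa', qa'.symm, qc',
          qc'.symm])
    (by
      intro i
      fin_cases i
      · exact ⟨2, by simp, by simpa using nac⟩
      · exact ⟨3, by simp, by simpa using s3⟩
      · exact ⟨0, by simp, by simpa using s1⟩
      · exact ⟨0, by simp, by simpa using nba⟩)
  have hP : ∀ i j : Fin 4, H.Adj (![a', q', c', b'] i) (![a', q', c', b'] j) →
      (fun i j : Fin 4 => decide ((i = 1 ∧ (j = 0 ∨ j = 2)) ∨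
      (j = 1 ∧ (i = 0 ∨ i = 2)))) i j = true := by
    intro i j
    fin_cases i <;> fin_cases j <;> simp [nac', nba', nbq', nbc', s1', s2', s3', s4']
  have e0 : φ a = ![a', q', c', b'] (σ 0) := hφ 0
  have e1 : φ q = ![a', q', c', b'] (σ 1) := hφ 1
  have e2 : φ c = ![a', q', c', b'] (σ 2) := hφ 2
  have e3 : φ b = ![a', q', c', b'] (σ 3) := hφ 3
  have key := p3k1_perm (σ 0) (σ 1) (σ 2) (σ 3)
    (fun h => by simpa using σ.injective h) (fun h => by simpa using σ.injective h)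
    (fun h => by simpa using σ.injective h) (fun h => by simpa using σ.injective h)
    (fun h => by simpa using σ.injective h) (fun h => by simpa using σ.injective h) _ rfl
    (hP _ _ (by rw [← e0, ← e1, φ.map_adj_iff]; exact qa.symm))
    (hP _ _ (by rw [← e1, ← e2, φ.map_adj_iff]; exact qc))
  obtain ⟨k1, k3, k02⟩ := key
  refine ⟨φ, by rw [e1, k1]; rfl, by rw [e3, k3]; rfl, ?_⟩
  rcases k02 with ⟨k0, k2⟩ | ⟨k0, k2⟩
  · left; exact ⟨by rw [e0, k0]; rfl, by rw [e2, k2]; rfl⟩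
  · right; exact ⟨by rw [e0, k0]; rfl, by rw [e2, k2]; rfl⟩

/-- `K₁ + K₂`: `e` and the edge `x y`. -/
theorem k12conj (hT : Quasi H) {e x y e' x' y' : W} (hxy : H.Adj x y) (hex : Hᶜ.Adj e x)
    (hey : Hᶜ.Adj e y) (hxy' : H.Adj x' y') (hex' : Hᶜ.Adj e' x') (hey' : Hᶜ.Adj e' y') :
    ∃ φ : H ≃g H, φ e = e' ∧ ((φ x = x' ∧ φ y = y') ∨ (φ x = y' ∧ φ y = x')) := by
  obtain ⟨h1, k1⟩ := hex
  obtain ⟨h2, k2⟩ := hey
  obtain ⟨h1', k1'⟩ := hex'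
  obtain ⟨h2', k2'⟩ := hey'
  have s1 : ¬ H.Adj x e := fun h => k1 h.symm
  have s2 : ¬ H.Adj y e := fun h => k2 h.symm
  have s1' : ¬ H.Adj x' e' := fun h => k1' h.symm
  have s2' : ¬ H.Adj y' e' := fun h => k2' h.symm
  obtain ⟨φ, σ, hφ⟩ := hT 3 ![e, x, y] ![e', x', y']
    (by intro i j; fin_cases i <;> fin_cases j <;>
          simp [h1, h1.symm, h2, h2.symm, hxy.ne, hxy.ne.symm])
    (by intro i j; fin_cases i <;> fin_cases j <;>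
          simp [h1', h1'.symm, h2', h2'.symm, hxy'.ne, hxy'.ne.symm])
    (by intro i j; fin_cases i <;> fin_cases j <;>
          simp [k1, k2, s1, s2, hxy, hxy.symm, k1', k2', s1', s2', hxy', hxy'.symm])
    (by
      intro i
      fin_cases i
      · exact ⟨1, by simp, by simpa using k1⟩
      · exact ⟨0, by simp, by simpa using s1⟩
      · exact ⟨0, by simp, by simpa using s2⟩)
  refine ⟨φ, ?_⟩
  have e0 : φ e = ![e', x', y'] (σ 0) := hφ 0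
  have e1 : φ x = ![e', x', y'] (σ 1) := hφ 1
  have e2 : φ y = ![e', x', y'] (σ 2) := hφ 2
  have n01 : σ 0 ≠ σ 1 := fun h => by simpa using σ.injective h
  have n02 : σ 0 ≠ σ 2 := fun h => by simpa using σ.injective h
  have n12 : σ 1 ≠ σ 2 := fun h => by simpa using σ.injective h
  have hadj : H.Adj (φ x) (φ y) := φ.map_adj_iff.2 hxy
  rcases fin3_perm _ _ _ n01 n02 n12 with ⟨k0, k1, k2⟩ | ⟨k0, k1, k2⟩ | ⟨k0, k1, k2⟩ |
    ⟨k0, k1, k2⟩ | ⟨k0, k1, k2⟩ | ⟨k0, k1, k2⟩ <;> rw [k0] at e0 <;> rw [k1] at e1 <;>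
    rw [k2] at e2
  · exact ⟨e0, Or.inl ⟨e1, e2⟩⟩
  · exact ⟨e0, Or.inr ⟨e1, e2⟩⟩
  · rw [e1, e2] at hadj; exact absurd hadj k2'
  · rw [e1, e2] at hadj; exact absurd hadj s2'
  · rw [e1, e2] at hadj; exact absurd hadj k1'
  · rw [e1, e2] at hadj; exact absurd hadj s1'

end Quasi

/-! ### middles -/

/-- `b` is between `a` and `c`. -/
def Bet (H : SimpleGraph W) (a b c : W) : Prop :=
  Indep3 H a b c ∧ ∀ q, H.Adj q a → H.Adj q c → H.Adj q b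

theorem Indep3.swap13 {a b c : W} (h : Indep3 H a b c) : Indep3 H c b a :=
  ⟨h.2.2.symm, h.2.1.symm, h.1.symm⟩
theorem Indep3.swap12 {a b c : W} (h : Indep3 H a b c) : Indep3 H b a c :=
  ⟨h.1.symm, h.2.2, h.2.1⟩
theorem Indep3.swap23 {a b c : W} (h : Indep3 H a b c) : Indep3 H a c b :=
  ⟨h.2.1, h.1, h.2.2.symm⟩

theorem Bet.symm {a b c : W} (h : Bet H a b c) : Bet H c b a :=
  ⟨h.1.swap13, fun q hc ha => h.2 q ha hc⟩

theorem Indep3.map (φ : H ≃g H) {a b c : W} : Indep3 H (φ a) (φ b) (φ c) ↔ Indep3 H a b c := by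
  simp only [Indep3, compl_adj_map]

theorem Bet.map (φ : H ≃g H) {a b c : W} (h : Bet H a b c) : Bet H (φ a) (φ b) (φ c) := by
  refine ⟨(Indep3.map φ).2 h.1, fun q ha hc => ?_⟩
  have e : ∀ x, H.Adj q (φ x) ↔ H.Adj (φ.symm q) x := by
    intro x
    rw [← φ.map_adj_iff (v := φ.symm q)]; simp
  rw [e] at ha hc ⊢
  exact h.2 _ ha hc

/-- weak middle: up to finitely many exceptions. -/
def WMid (H : SimpleGraph W) (a b c : W) : Prop :=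
  ∃ B : Finset W, ∀ q, q ∉ B → H.Adj q a → H.Adj q c → H.Adj q b

theorem WMid.symm {a b c : W} (h : WMid H a b c) : WMid H c b a := by
  obtain ⟨B, hB⟩ := h
  exact ⟨B, fun q hq hc ha => hB q hq ha hc⟩

theorem WMid.map (φ : H ≃g H) {a b c : W} (h : WMid H a b c) : WMid H (φ a) (φ b) (φ c) := by
  obtain ⟨B, hB⟩ := h
  refine ⟨B.image φ, fun q hq ha hc => ?_⟩
  have e : ∀ x, H.Adj q (φ x) ↔ H.Adj (φ.symm q) x := by
    intro x
    rw [← φ.map_adj_iff (v := φ.symm q)]; simp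
  rw [e] at ha hc ⊢
  refine hB _ (fun h => hq ?_) ha hc
  rw [Finset.mem_image]
  exact ⟨_, h, by simp⟩

/-- the common hypotheses: `TF` and some weak middle. -/
structure Mid (H : SimpleGraph W) : Prop extends TF H where
  mid : ∃ a b c, Indep3 H a b c ∧ WMid H a b c

namespace TF

theorem cn2_inf (hT : TF H) {a b : W} (h : Hᶜ.Adj a b) : {q | H.Adj q a ∧ H.Adj q b}.Infinite := by
  have h1 : ¬ H.Adj b a := fun hh => h.2 hh.symm
  have := hT.d1 {a, b} (by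
    intro x hx y hy
    simp only [Finset.mem_insert, Finset.mem_singleton] at hx hy
    rcases hx with rfl | rfl <;> rcases hy with rfl | rfl <;>
      first
      | exact H.irrefl
      | exact h.2
      | exact h1)
  refine this.mono (fun q hq => ?_)
  rw [mem_cn] at hq
  exact ⟨hq a (by simp), hq b (by simp)⟩

theorem cn3_inf (hT : TF H) {a b c : W} (h : Indep3 H a b c) :
    {q | H.Adj q a ∧ H.Adj q b ∧ H.Adj q c}.Infinite := by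
  have h1 : ¬ H.Adj b a := fun hh => h.1.2 hh.symm
  have h2 : ¬ H.Adj c a := fun hh => h.2.1.2 hh.symm
  have h3 : ¬ H.Adj c b := fun hh => h.2.2.2 hh.symm
  have := hT.d1 {a, b, c} (by
    intro x hx y hy
    simp only [Finset.mem_insert, Finset.mem_singleton] at hx hy
    rcases hx with rfl | rfl | rfl <;> rcases hy with rfl | rfl | rfl <;>
      first
      | exact H.irrefl
      | exact h.1.2
      | exact h.2.1.2
      | exact h.2.2.2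
      | exact h1
      | exact h2
      | exact h3)
  refine this.mono (fun q hq => ?_)
  rw [mem_cn] at hq
  exact ⟨hq a (by simp), hq b (by simp), hq c (by simp)⟩

/-- `Γ(w) ⊄ Γ(w')` for nonadjacent `w, w'` (F4). -/
theorem ncomp (hT : TF H) {w w' : W} (h : Hᶜ.Adj w w') : ∃ q, H.Adj q w ∧ ¬ H.Adj q w' := by
  by_contra hno
  push Not at hno
  -- every nonadjacent pair is comparable
  have hcomp : ∀ x y, Hᶜ.Adj x y → (∀ q, H.Adj q x → H.Adj q y) ∨ (∀ q, H.Adj q y → H.Adj q x) := by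
    intro x y hxy
    obtain ⟨φ, hφ⟩ := hT.quasi.pair h hxy
    have e : ∀ q x, H.Adj q (φ x) ↔ H.Adj (φ.symm q) x := by
      intro q x
      rw [← φ.map_adj_iff (v := φ.symm q)]; simp
    rcases hφ with ⟨h1, h2⟩ | ⟨h1, h2⟩
    · left
      intro q hq
      rw [← h1, e] at hq
      rw [← h2, e]
      exact hno _ hq
    · right
      intro q hq
      rw [← h1, e] at hq
      rw [← h2, e]
      exact hno _ hq
  obtain ⟨e, -, x, -, y, -, hxy, hex, hey⟩ := hT.k12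
  rcases hcomp e x hex with h1 | h1
  · rcases hcomp e y hey with h2 | h2
    · obtain ⟨q, hq⟩ := (hT.d1 {e} (by
        intro x hx y hy
        rw [Finset.mem_singleton] at hx hy
        rw [hx, hy]; exact H.irrefl)).nonempty
      have hqe : H.Adj q e := hq e (by simp)
      exact hT.tri q x y (h1 q hqe) (h2 q hqe) hxy
    · exact hex.2 (h2 x hxy).symm
  · exact hey.2 (h1 y hxy.symm).symm

end TF

namespace Mid

/-- (F1) a weak middle of an independent triple is a middle. -/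
theorem exact (hM : Mid H) {a b c : W} (hI : Indep3 H a b c) (h : WMid H a b c) : Bet H a b c := by
  have hT := hM.toTF
  refine ⟨hI, ?_⟩
  by_contra hno
  push Not at hno
  obtain ⟨q, hqa, hqc, hqb⟩ := hno
  have hqb' : b ≠ q := by rintro rfl; exact hI.1.2 hqa.symm
  have hpat : P3K1 H a q c b := ⟨hqa, hqc, hI.2.1, hI.1.symm, ⟨hqb', fun h => hqb h.symm⟩, hI.2.2⟩
  -- every independent triple has all weak middles
  have hall : ∀ x y z, Indep3 H x y z → WMid H x y z := by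
    intro x y z hI'
    by_contra hW
    have hinf : {r | (H.Adj r x ∧ H.Adj r z) ∧ ¬ H.Adj r y}.Infinite := by
      intro hfin
      apply hW
      refine ⟨hfin.toFinset, fun r hr hx hz => ?_⟩
      by_contra hry
      exact hr (by rw [Set.Finite.mem_toFinset]; exact ⟨⟨hx, hz⟩, hry⟩)
    obtain ⟨r, ⟨hrx, hrz⟩, hry⟩ := hinf.nonempty
    have hry' : y ≠ r := by rintro rfl; exact hI'.1.2 hrx.symm
    have hpat' : P3K1 H x r z y :=
      ⟨hrx, hrz, hI'.2.1, hI'.1.symm, ⟨hry', fun h => hry h.symm⟩, hI'.2.2⟩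
    obtain ⟨φ, -, h2, h3⟩ := hT.quasi.p3k1 hpat hpat'
    have h4 := h.map φ
    rw [h2] at h4
    rcases h3 with ⟨h5, h6⟩ | ⟨h5, h6⟩
    · rw [h5, h6] at h4; exact hW h4
    · rw [h5, h6] at h4; exact hW h4.symm
  obtain ⟨c₁, c₂, x, y, h12, hxy, h1x, h1y, h2x, h2y⟩ := hT.d2
  obtain ⟨B1, hB1⟩ := hall x c₁ y ⟨h1x.symm, hxy, h1y⟩
  obtain ⟨B2, hB2⟩ := hall x c₂ y ⟨h2x.symm, hxy, h2y⟩
  obtain ⟨q, ⟨hqx, hqy⟩, hqB⟩ := ((hT.cn2_inf hxy).sdiff (B1 ∪ B2).finite_toSet).nonempty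
  rw [Finset.mem_coe, Finset.mem_union, not_or] at hqB
  exact hT.tri q c₁ c₂ (hB1 q hqB.1 hqx hqy) (hB2 q hqB.2 hqx hqy) h12

theorem mid' (hM : Mid H) : ∃ a b c, Bet H a b c := by
  obtain ⟨a, b, c, hI, h⟩ := hM.mid
  exact ⟨a, b, c, hM.exact hI h⟩

/-- non-middle: infinitely many witnesses. -/
theorem notBet_inf (hM : Mid H) {a b c : W} (hI : Indep3 H a b c) (h : ¬ Bet H a b c) :
    {r | (H.Adj r a ∧ H.Adj r c) ∧ ¬ H.Adj r b}.Infinite := by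
  intro hfin
  apply h
  apply hM.exact hI
  refine ⟨hfin.toFinset, fun r hr hx hz => ?_⟩
  by_contra hry
  exact hr (by rw [Set.Finite.mem_toFinset]; exact ⟨⟨hx, hz⟩, hry⟩)

/-- every independent triple has a middle. -/
theorem exists_mid (hM : Mid H) {a b c : W} (hI : Indep3 H a b c) :
    Bet H a b c ∨ Bet H b a c ∨ Bet H a c b := by
  obtain ⟨x, y, z, h⟩ := hM.mid'
  obtain ⟨φ, hφ⟩ := hM.toTF.quasi.triple h.1 hI
  have h1 := h.map φ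
  rcases hφ with ⟨e1, e2, e3⟩ | ⟨e1, e2, e3⟩ | ⟨e1, e2, e3⟩ | ⟨e1, e2, e3⟩ | ⟨e1, e2, e3⟩ |
    ⟨e1, e2, e3⟩ <;> rw [e1, e2, e3] at h1
  · exact Or.inl h1
  · exact Or.inr (Or.inr h1)
  · exact Or.inr (Or.inl h1)
  · exact Or.inr (Or.inr h1.symm)
  · exact Or.inr (Or.inl h1.symm)
  · exact Or.inl h1.symm

/-- (F2) uniqueness of the middle. -/
theorem uniq (hM : Mid H) {a b c : W} (h : Bet H a b c) : ¬ Bet H b a c := by
  have hT := hM.toTF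
  intro h'
  -- all independent triples have (at least) two middles
  have htwo : ∀ x y z, Indep3 H x y z → (Bet H x y z ∧ Bet H y x z) ∨ (Bet H x y z ∧ Bet H x z y) ∨
      (Bet H y x z ∧ Bet H x z y) := by
    intro x y z hI
    obtain ⟨φ, hφ⟩ := hT.quasi.triple h.1 hI
    have h1 := h.map φ
    have h2 := h'.map φ
    rcases hφ with ⟨e1, e2, e3⟩ | ⟨e1, e2, e3⟩ | ⟨e1, e2, e3⟩ | ⟨e1, e2, e3⟩ | ⟨e1, e2, e3⟩ |
      ⟨e1, e2, e3⟩ <;> rw [e1, e2, e3] at h1 h2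
    · exact Or.inl ⟨h1, h2⟩
    · exact Or.inr (Or.inr ⟨h2.symm, h1⟩)
    · exact Or.inl ⟨h2, h1⟩
    · exact Or.inr (Or.inl ⟨h2.symm, h1.symm⟩)
    · exact Or.inr (Or.inr ⟨h1.symm, h2⟩)
    · exact Or.inr (Or.inl ⟨h1.symm, h2.symm⟩)
  -- not all three are middles
  have hthree : ∀ x y z, Bet H x y z → Bet H y x z → ¬ Bet H x z y := by
    intro x y z h1 h2 h3
    have hall : ∀ x' y' z', Indep3 H x' y' z' → Bet H x' y' z' := by
      intro x' y' z' hI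
      obtain ⟨φ, hφ⟩ := hT.quasi.triple h1.1 hI
      have k1 := h1.map φ
      have k2 := h2.map φ
      have k3 := h3.map φ
      rcases hφ with ⟨e1, e2, e3⟩ | ⟨e1, e2, e3⟩ | ⟨e1, e2, e3⟩ | ⟨e1, e2, e3⟩ | ⟨e1, e2, e3⟩ |
        ⟨e1, e2, e3⟩ <;> rw [e1, e2, e3] at k1 k2 k3
      · exact k1
      · exact k3
      · exact k2
      · exact k2.symm
      · exact k3.symm
      · exact k1.symm
    obtain ⟨c₁, c₂, x, y, h12, hxy, h1x, h1y, h2x, h2y⟩ := hT.d2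
    have hB1 := hall x c₁ y ⟨h1x.symm, hxy, h1y⟩
    have hB2 := hall x c₂ y ⟨h2x.symm, hxy, h2y⟩
    obtain ⟨q, hqx, hqy⟩ := (hT.cn2_inf hxy).nonempty
    exact hT.tri q c₁ c₂ (hB1.2 q hqx hqy) (hB2.2 q hqx hqy) h12
  have hcab : ¬ Bet H a c b := hthree a b c h h'
  -- a vertex `x` such that `a, c` are the middles of `{a, c, x}`
  obtain ⟨x, hx1, hx2⟩ : ∃ x, Bet H a c x ∧ Bet H c a x := by
    obtain ⟨φ, hφ⟩ := hT.quasi.pair h.1.1 h.1.2.1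
    have h1 := h.map φ
    have h2 := h'.map φ
    rcases hφ with ⟨e1, e2⟩ | ⟨e1, e2⟩ <;> rw [e1, e2] at h1 h2
    · exact ⟨_, h1, h2⟩
    · exact ⟨_, h2, h1⟩
  have hI : Indep3 H a c b := h.1.swap23
  obtain ⟨d, ⟨hda, hdb⟩, hdc⟩ := (hM.notBet_inf hI hcab).nonempty
  have hdx : d ≠ x := by rintro rfl; exact hx1.1.2.1.2 hda.symm
  have hdc' : d ≠ c := by rintro rfl; exact hI.1.2 hda.symm
  by_cases hadj : H.Adj d x
  · exact hdc (hx1.2 d hda hadj)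
  · have hI2 : Indep3 H d x c := ⟨⟨hdx, hadj⟩, ⟨hdc', hdc⟩, hx1.1.2.2.symm⟩
    have key1 : ¬ Bet H d x c := by
      intro hb
      obtain ⟨q, hqd, hqc⟩ := (hT.cn2_inf hI2.2.1).nonempty
      have hqx := hb.2 q hqd hqc
      have hqa := hx2.2 q hqc hqx
      exact hT.tri q d a hqd hqa hda
    have key2 : ¬ Bet H x d c := by
      intro hb
      obtain ⟨q, hqx, hqc⟩ := (hT.cn2_inf hI2.2.2).nonempty
      have hqd := hb.2 q hqx hqc
      have hqa := hx2.2 q hqc hqx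
      exact hT.tri q d a hqd hqa hda
    rcases htwo d x c hI2 with ⟨k1, k2⟩ | ⟨k1, k2⟩ | ⟨k1, k2⟩
    · exact key1 k1
    · exact key1 k1
    · exact key2 k1

theorem uniq' (hM : Mid H) {a b c : W} (h : Bet H a b c) : ¬ Bet H a c b := by
  intro h'
  exact hM.uniq h.symm h'.symm

/-- (B1) -/
theorem B1 (hM : Mid H) {a b c q : W} (h : Bet H a b c) (hq : H.Adj q b) :
    H.Adj q a ∨ H.Adj q c := by
  have hT := hM.toTF
  by_contra hno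
  push Not at hno
  have hqa : q ≠ a := by rintro rfl; exact h.1.1.2 hq
  have hqc : q ≠ c := by rintro rfl; exact h.1.2.2.2 hq.symm
  have hI : Indep3 H a q c := ⟨⟨hqa.symm, fun hh => hno.1 hh.symm⟩, h.1.2.1, ⟨hqc, hno.2⟩⟩
  rcases hM.exists_mid hI with h1 | h1 | h1
  · obtain ⟨r, hra, hrc⟩ := (hT.cn2_inf h.1.2.1).nonempty
    exact hT.tri r q b (h1.2 r hra hrc) (h.2 r hra hrc) hq
  · obtain ⟨r, hrq, hrc⟩ := (hT.cn2_inf hI.2.2).nonempty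
    have hra := h1.2 r hrq hrc
    exact hT.tri r q b hrq (h.2 r hra hrc) hq
  · obtain ⟨r, hra, hrq⟩ := (hT.cn2_inf hI.1).nonempty
    have hrc := h1.2 r hra hrq
    exact hT.tri r q b hrq (h.2 r hra hrc) hq

/-- no vertex lies between all pairs of a triple. -/
theorem noY (hM : Mid H) {o x y z : W} (h1 : Bet H x o y) (h2 : Bet H x o z) (h3 : Bet H y o z) :
    False := by
  have hT := hM.toTF
  have aux : ∀ x y z, Bet H x o y → Bet H x o z → Bet H y o z → Bet H x y z → False := by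
    intro x y z h1 h2 h3 h
    obtain ⟨q, hqy, hqo⟩ := hT.ncomp h1.1.2.2.symm
    rcases hM.B1 h hqy with hqx | hqz
    · exact hqo (h1.2 q hqx hqy)
    · exact hqo (h3.2 q hqy hqz)
  rcases hM.exists_mid (a := x) (b := y) (c := z) ⟨h1.1.2.1, h2.1.2.1, h3.1.2.1⟩ with h | h | h
  · exact aux x y z h1 h2 h3 h
  · exact aux y x z h1.symm h3 h2 h
  · exact aux x z y h2 h1 h3.symm h

/-- (L1) -/
theorem L1 (hM : Mid H) {a b c d : W} (h1 : Bet H a b c) (h2 : Bet H a c d) :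
    Bet H a b d ∧ Bet H b c d := by
  have hT := hM.toTF
  have hbd : b ≠ d := by rintro rfl; exact hM.uniq' h1 h2
  have hbd' : ¬ H.Adj b d := by
    intro hb
    obtain ⟨q, hqa, hqd⟩ := (hT.cn2_inf h2.1.2.1).nonempty
    have hqc := h2.2 q hqa hqd
    have hqb := h1.2 q hqa hqc
    exact hT.tri q b d hqb hqd hb
  have hab : Bet H a b d := ⟨⟨h1.1.1, h2.1.2.1, ⟨hbd, hbd'⟩⟩, fun q ha hd =>
    h1.2 q ha (h2.2 q ha hd)⟩
  refine ⟨hab, ?_⟩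
  have hI : Indep3 H b c d := ⟨h1.1.2.2, ⟨hbd, hbd'⟩, h2.1.2.2⟩
  rcases hM.exists_mid hI with h | h | h
  · exact h
  · exact absurd (hM.noY h1 hab h) id
  · exfalso
    apply hM.uniq' h2
    exact ⟨h2.1.swap23, fun q ha hc => h.2 q (h1.2 q ha hc) hc⟩

/-- adjacent vertices are not on the same side (F-lemma). -/
theorem same_side (hM : Mid H) {w w' y₁ y₂ : W} (h1 : Bet H w w' y₁) (h2 : Bet H w w' y₂) :
    ¬ H.Adj y₁ y₂ := by
  have hT := hM.toTF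
  intro hadj
  obtain ⟨q, hq, hqw⟩ := hT.ncomp h1.1.1.symm
  have k1 := (hM.B1 h1 hq).resolve_left hqw
  have k2 := (hM.B1 h2 hq).resolve_left hqw
  exact hT.tri q y₁ y₂ k1 k2 hadj

/-- every nonadjacent pair has something in between. -/
theorem between (hM : Mid H) {a c : W} (h : Hᶜ.Adj a c) : ∃ b, Bet H a b c := by
  obtain ⟨x, y, z, hb⟩ := hM.mid'
  obtain ⟨φ, hφ⟩ := hM.toTF.quasi.pair hb.1.2.1 h
  have h1 := hb.map φ
  rcases hφ with ⟨e1, e2⟩ | ⟨e1, e2⟩ <;> rw [e1, e2] at h1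
  · exact ⟨_, h1⟩
  · exact ⟨_, h1.symm⟩

/-- every nonadjacent pair is completed to `K₂ + 2K₁`, the two ends of the edge lying beyond
opposite ends of the pair. -/
theorem k2_ends (hM : Mid H) {w w' y₁ y₂ : W} (hw : Hᶜ.Adj w w') (h12 : H.Adj y₁ y₂)
    (h1 : Hᶜ.Adj y₁ w) (h1' : Hᶜ.Adj y₁ w') (h2 : Hᶜ.Adj y₂ w) (h2' : Hᶜ.Adj y₂ w') :
    (Bet H w w' y₁ ∧ Bet H w' w y₂) ∨ (Bet H w w' y₂ ∧ Bet H w' w y₁) := by
  have hn1 : ¬ Bet H w y₁ w' := fun h => by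
    rcases hM.B1 h h12.symm with k | k
    · exact h2.2 k
    · exact h2'.2 k
  have hn2 : ¬ Bet H w y₂ w' := fun h => by
    rcases hM.B1 h h12 with k | k
    · exact h1.2 k
    · exact h1'.2 k
  have a1 : Bet H w w' y₁ ∨ Bet H w' w y₁ := by
    rcases hM.exists_mid (a := w) (b := w') (c := y₁) ⟨hw, h1.symm, h1'.symm⟩ with h | h | h
    · exact Or.inl h
    · exact Or.inr h
    · exact absurd h hn1
  have a2 : Bet H w w' y₂ ∨ Bet H w' w y₂ := by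
    rcases hM.exists_mid (a := w) (b := w') (c := y₂) ⟨hw, h2.symm, h2'.symm⟩ with h | h | h
    · exact Or.inl h
    · exact Or.inr h
    · exact absurd h hn2
  rcases a1 with a1 | a1 <;> rcases a2 with a2 | a2
  · exact absurd h12 (hM.same_side a1 a2)
  · exact Or.inl ⟨a1, a2⟩
  · exact Or.inr ⟨a2, a1⟩
  · exact absurd h12 (hM.same_side a1 a2)

/-- `P₃ + K₂` embeds. -/
theorem p3k2 (hM : Mid H) : ∃ w a w' y₁ y₂, H.Adj a w ∧ H.Adj a w' ∧ Hᶜ.Adj w w' ∧ H.Adj y₁ y₂ ∧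
    Hᶜ.Adj y₁ w ∧ Hᶜ.Adj y₁ w' ∧ Hᶜ.Adj y₁ a ∧ Hᶜ.Adj y₂ w ∧ Hᶜ.Adj y₂ w' ∧ Hᶜ.Adj y₂ a := by
  have hT := hM.toTF
  by_contra hno
  -- `2K₂` exists
  obtain ⟨a, b, c, hb⟩ := hM.mid'
  have hI1 : Indep3 H a c b := hb.1.swap23
  have hI2 : Indep3 H b a c := hb.1.swap12
  obtain ⟨q, ⟨hqa, hqb⟩, hqc⟩ := (hM.notBet_inf hI1 (hM.uniq' hb)).nonempty
  obtain ⟨r, ⟨hrb, hrc⟩, hra⟩ := (hM.notBet_inf hI2 (hM.uniq hb)).nonempty
  have hqr : ¬ H.Adj q r := hT.tri b q r hqb.symm hrb.symm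
  have hcq : Hᶜ.Adj c q := ⟨by rintro rfl; exact hb.1.2.1.2 hqa.symm, fun h => hqc h.symm⟩
  have hca : Hᶜ.Adj c a := hb.1.2.1.symm
  -- every `K₁ + K₂` extends
  have hext : ∀ e y₁ y₂, H.Adj y₁ y₂ → Hᶜ.Adj e y₁ → Hᶜ.Adj e y₂ →
      ∃ w, H.Adj w e ∧ Hᶜ.Adj w y₁ ∧ Hᶜ.Adj w y₂ := by
    intro e y₁ y₂ h12 h1 h2
    obtain ⟨φ, hφe, hφ⟩ := hT.quasi.k12conj hqa hcq hca h12 h1 h2
    have k1 : H.Adj (φ r) (φ c) := φ.map_adj_iff.2 hrc
    have hrq : r ≠ q := by rintro rfl; exact hqc hrc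
    have hra' : r ≠ a := by rintro rfl; exact hb.1.1.2 hrb
    have k2 : Hᶜ.Adj (φ r) (φ q) := (compl_adj_map φ).2 ⟨hrq, fun h => hqr h.symm⟩
    have k3 : Hᶜ.Adj (φ r) (φ a) := (compl_adj_map φ).2 ⟨hra', hra⟩
    rw [hφe] at k1
    rcases hφ with ⟨e1, e2⟩ | ⟨e1, e2⟩ <;> rw [e1] at k2 <;> rw [e2] at k3
    · exact ⟨_, k1, k2, k3⟩
    · exact ⟨_, k1, k3, k2⟩
  -- a `K₁ + K₂`
  obtain ⟨a, -, y₁, -, y₂, -, h12, h1, h2⟩ := hT.k12
  -- another neighbour of `y₁` outside `Γ(a)`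
  obtain ⟨t, ht⟩ := hM.between h1
  have hinf := hM.notBet_inf (a := t) (b := a) (c := y₁) ht.1.swap12 (hM.uniq ht)
  obtain ⟨y₂', ⟨⟨-, hy1⟩, hya⟩, hne⟩ := (hinf.sdiff (Set.finite_singleton y₂)).nonempty
  have hne : y₂' ≠ y₂ := hne
  have hay2' : Hᶜ.Adj a y₂' := ⟨by rintro rfl; exact h1.2 hy1, fun h => hya h.symm⟩
  obtain ⟨w, hwa, hw1, hw2⟩ := hext a y₁ y₂ h12 h1 h2
  obtain ⟨w', hwa', hw1', hw2'⟩ := hext a y₁ y₂' hy1.symm h1 hay2'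
  have h22 : ¬ H.Adj y₂ y₂' := hT.tri y₁ y₂ y₂' h12 hy1.symm
  by_cases hww : w = w'
  · subst hww
    exact hno ⟨y₂, y₁, y₂', a, w, h12, hy1.symm, ⟨hne.symm, h22⟩, hwa.symm, h2, hay2', h1,
      hw2, hw2', hw1⟩
  have hnww : ¬ H.Adj w w' := hT.tri a w w' hwa.symm hwa'.symm
  have hw'2 : H.Adj w' y₂ := by
    by_contra h
    have hne2 : w' ≠ y₂ := by rintro rfl; exact h2.2 hwa'.symm
    exact hno ⟨w, a, w', y₁, y₂, hwa.symm, hwa'.symm, ⟨hww, hnww⟩, h12, hw1.symm, hw1'.symm,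
      h1.symm, hw2.symm, ⟨hne2.symm, fun hh => h hh.symm⟩, h2.symm⟩
  have hw2'' : H.Adj w y₂' := by
    by_contra h
    have hne2 : w ≠ y₂' := by rintro rfl; exact hay2'.2 hwa.symm
    exact hno ⟨w, a, w', y₁, y₂', hwa.symm, hwa'.symm, ⟨hww, hnww⟩, hy1.symm, hw1.symm, hw1'.symm,
      h1.symm, ⟨hne2.symm, fun hh => h hh.symm⟩, hw2'.symm, hay2'.symm⟩
  rcases hM.exists_mid (a := w) (b := w') (c := y₁) ⟨⟨hww, hnww⟩, hw1, hw1'⟩ with h | h | h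
  · exact hw2'.2 (h.2 y₂' hw2''.symm hy1).symm
  · exact hw2.2 (h.2 y₂ hw'2.symm h12.symm).symm
  · exact h1.2 (h.2 a hwa.symm hwa'.symm)

/-- (F6) for a common neighbour `a` of `w, w'` there is `x ≁ a` beyond `w'`. -/
theorem F6 (hM : Mid H) {w w' a : W} (hw : Hᶜ.Adj w w') (haw : H.Adj a w) (haw' : H.Adj a w') :
    ∃ x, Bet H w w' x ∧ Hᶜ.Adj x a := by
  have hT := hM.toTF
  -- a common non-neighbour of `w, a, w'`
  obtain ⟨c₁, c₂, p, p', h12, hpp, h1, h1', h2, h2'⟩ := hT.d2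
  obtain ⟨u, hu1, hu2, hu3⟩ : ∃ u, Hᶜ.Adj u w ∧ Hᶜ.Adj u w' ∧ Hᶜ.Adj u a := by
    obtain ⟨φ, hφ⟩ := hT.quasi.pair hpp hw
    have k1 := (compl_adj_map φ).2 h1
    have k1' := (compl_adj_map φ).2 h1'
    have k2 := (compl_adj_map φ).2 h2
    have k2' := (compl_adj_map φ).2 h2'
    have k12 : H.Adj (φ c₁) (φ c₂) := φ.map_adj_iff.2 h12
    have key : (Hᶜ.Adj (φ c₁) w ∧ Hᶜ.Adj (φ c₁) w') ∧ (Hᶜ.Adj (φ c₂) w ∧ Hᶜ.Adj (φ c₂) w') := by
      rcases hφ with ⟨e1, e2⟩ | ⟨e1, e2⟩ <;> rw [e1] at k1 k2 <;> rw [e2] at k1' k2'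
      · exact ⟨⟨k1, k1'⟩, ⟨k2, k2'⟩⟩
      · exact ⟨⟨k1', k1⟩, ⟨k2', k2⟩⟩
    by_cases hadj : H.Adj (φ c₁) a
    · refine ⟨φ c₂, key.2.1, key.2.2, ⟨?_, ?_⟩⟩
      · rintro h; rw [h] at key; exact key.2.1.2 haw
      · intro h; exact hT.tri a _ _ hadj.symm h.symm k12
    · refine ⟨φ c₁, key.1.1, key.1.2, ⟨?_, hadj⟩⟩
      rintro h; rw [h] at key; exact key.1.1.2 haw
  obtain ⟨v, b, v', y₁, y₂, hbv, hbv', hvv, hy12, hy1v, hy1v', hy1b, hy2v, hy2v', hy2b⟩ := hM.p3k2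
  obtain ⟨φ, hφb, hφy, hφ⟩ := hT.quasi.p3k1 (a := v) (q := b) (c := v') (b := y₁)
    ⟨hbv, hbv', hvv, hy1v, hy1b, hy1v'⟩ (a' := w) (q' := a) (c' := w') (b' := u)
    ⟨haw, haw', hw, hu1, hu3, hu2⟩
  have k12 : H.Adj (φ y₁) (φ y₂) := φ.map_adj_iff.2 hy12
  have j1 := (compl_adj_map φ).2 hy1v
  have j1' := (compl_adj_map φ).2 hy1v'
  have j2 := (compl_adj_map φ).2 hy2v
  have j2' := (compl_adj_map φ).2 hy2v'
  have j3 := (compl_adj_map φ).2 hy1b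
  have j4 := (compl_adj_map φ).2 hy2b
  rw [hφb] at j3 j4
  have key : (Hᶜ.Adj (φ y₁) w ∧ Hᶜ.Adj (φ y₁) w') ∧ (Hᶜ.Adj (φ y₂) w ∧ Hᶜ.Adj (φ y₂) w') := by
    rcases hφ with ⟨e1, e2⟩ | ⟨e1, e2⟩ <;> rw [e1] at j1 j2 <;> rw [e2] at j1' j2'
    · exact ⟨⟨j1, j1'⟩, ⟨j2, j2'⟩⟩
    · exact ⟨⟨j1', j1⟩, ⟨j2', j2⟩⟩
  rcases hM.k2_ends hw k12 key.1.1 key.1.2 key.2.1 key.2.2 with ⟨h, -⟩ | ⟨h, -⟩
  · exact ⟨_, h, j3⟩
  · exact ⟨_, h, j4⟩

/-- (F5) every nonadjacent pair extends beyond its second element. -/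
theorem beyond (hM : Mid H) {w w' : W} (hw : Hᶜ.Adj w w') : ∃ x, Bet H w w' x := by
  obtain ⟨a, ha, ha'⟩ := (hM.toTF.cn2_inf hw).nonempty
  obtain ⟨x, hx, -⟩ := hM.F6 hw ha ha'
  exact ⟨x, hx⟩

end Mid

end Run7.h901
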